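import Pool.Agent.Lib.MP_0d3db7.NS.Spec

/-!
# MP_0d3db7_pr, theorem NS: the transition probabilities and the group algebra
-/

set_option autoImplicit false

namespace MP0d3db7NS

open MeasureTheory ProbabilityTheory Filter Topology

namespace Al_aux

theorem qa_mul {V E : Type} [AddCommGroup V] [Fintype E] (s : E → V) (q : E → ℝ)
    (H : AddMonoidAlgebra ℝ V) (y : V) :
    (Qa s q * H).coeff y = ∑ e, q e * H.coeff (y - s e) := by
  unfold Qa
  rw [Finset.sum_mul, AddMonoidAlgebra.coeff_sum, Finsupp.finsetSum_apply]
  refine Finset.sum_congr rfl fun e _ => ?_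
  refine AddMonoidAlgebra.coeff_single_mul_eq_mul_coeff (y - s e) fun m _ => ?_
  constructor
  · intro h
    rw [← h, add_sub_cancel_left]
  · intro h
    rw [h, add_sub_cancel]

end Al_aux

theorem tAl : S_Al := by
  intro V E _ _ _ s q t
  induction t with
  | zero =>
    intro x z
    rw [pow_zero, AddMonoidAlgebra.one_def, AddMonoidAlgebra.coeff_single, Finsupp.single_apply]
    unfold pt
    by_cases h : x = z
    · rw [if_pos h, if_pos (by rw [h, sub_self])]
    · rw [if_neg h, if_neg]
      intro h2
      exact h (sub_eq_zero.1 h2.symm).symm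
  | succ t ih =>
    intro x z
    rw [pow_succ', Al_aux.qa_mul]
    unfold pt
    refine Finset.sum_congr rfl fun e _ => ?_
    rw [ih]
    congr 2
    abel

end MP0d3db7NS
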