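import Pool.Agent.Lib.MP_0d3db7.NS.Spec3

/-!
# MP_0d3db7_pr, theorem NS3, module Am: the sum of the influences (helper76)
-/

set_option autoImplicit false

namespace MP0d3db7NS

open MeasureTheory ProbabilityTheory Filter Topology

namespace Am_aux

theorem num {A p K ε c L : ℝ} (hA : 0 ≤ A) (hK : 0 < K) (hc : 0 < c) (hc1 : c ≤ 1) (hL : 1 ≤ L)
    (hε : ε = c / L) (hp : p ≤ 1 - ε / 2)
    (h : A ≤ (1 + ε / 4) * (p * A) + (1 + 1 / (ε / 4)) / K) : A ≤ 20 / (K * c ^ 2) * L ^ 2 := by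
  have hL0 : 0 < L := by linarith
  have hε0 : 0 < ε := by rw [hε]; positivity
  have hε1 : ε ≤ 1 := by
    rw [hε, div_le_one hL0]
    linarith
  have h1 : (1 + ε / 4) * (p * A) ≤ (1 - ε / 4) * A := by
    have h2 : p * A ≤ (1 - ε / 2) * A := mul_le_mul_of_nonneg_right hp hA
    have h3 : (1 + ε / 4) * (p * A) ≤ (1 + ε / 4) * ((1 - ε / 2) * A) :=
      mul_le_mul_of_nonneg_left h2 (by linarith)
    have h4 : (1 + ε / 4) * ((1 - ε / 2) * A) = (1 - ε / 4) * A - ε ^ 2 / 8 * A := by ring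
    have h5 : 0 ≤ ε ^ 2 / 8 * A := by positivity
    linarith
  have h6 : ε / 4 * A ≤ (1 + 1 / (ε / 4)) / K := by linarith
  have h7 : (1 + 1 / (ε / 4)) / K ≤ 5 / (ε * K) := by
    rw [div_le_div_iff₀ hK (by positivity)]
    have h8 : (1 + 1 / (ε / 4)) * ε = ε + 4 := by field_simp
    have h9 : (1 + 1 / (ε / 4)) * (ε * K) = (ε + 4) * K := by rw [← mul_assoc, h8]
    rw [h9]
    have := mul_le_mul_of_nonneg_right (by linarith : ε + 4 ≤ 5) hK.le
    linarith
  have h10 : A ≤ 20 / (K * ε ^ 2) := by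
    have h11 : ε / 4 * A ≤ 5 / (ε * K) := h6.trans h7
    rw [le_div_iff₀ (by positivity)]
    rw [le_div_iff₀ (by positivity)] at h11
    have e : A * (K * ε ^ 2) = 4 * (ε / 4 * A * (ε * K)) := by ring
    rw [e]
    linarith
  have e : 20 / (K * ε ^ 2) = 20 / (K * c ^ 2) * L ^ 2 := by
    rw [hε]
    field_simp
  rwa [e] at h10

end Am_aux

open Am_aux in
theorem tAm (hCp : S_Cp) (hHt : S_Ht) : S_Am := by
  intro V E Ω _ _ _ _ _ _ s P ω q hC C hpt a e hae hsae hK
  have hq : PV q := hC.pvq (0, 1)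
  obtain ⟨c, hc0, hc1, hc⟩ := hHt s q hq C hpt
  refine ⟨20 / (K2m P ω (0, 1) a e * c ^ 2), by positivity, fun χ hχ M hM => ?_⟩
  have hal : ∀ n, 0 ≤ al s P ω q χ n := fun n => integral_nonneg fun o => by positivity
  have hA0 : 0 ≤ ∑ n ∈ Finset.range M, al s P ω q χ n := Finset.sum_nonneg fun n _ => hal n
  have hM' : (1 : ℝ) ≤ M := by exact_mod_cast hM
  have hL : 1 ≤ 1 + Real.log M := by linarith [Real.log_nonneg hM']
  have hL0 : 0 < 1 + Real.log M := by linarith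
  have hε0 : 0 < c / (1 + Real.log M) := by positivity
  have hε1 : c / (1 + Real.log M) ≤ 1 := by
    rw [div_le_one hL0]
    linarith
  have hpp := hc M hM (s e) (s a) (Ne.symm hsae)
  by_cases h1 : ∑ t ∈ Finset.range M, vs s q t (s e) (s a) 0 ≤ 1 - c / (1 + Real.log M) / 2
  · exact num hA0 hK hc0 hc1 hL rfl h1
      (hCp s P ω q χ hC hχ a e hae hsae hK M (c / (1 + Real.log M) / 4) (by positivity))
  · have h2 : ∑ t ∈ Finset.range M, vs s q t (s a) (s e) 0 ≤ 1 - c / (1 + Real.log M) / 2 := by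
      by_contra h3
      push Not at h1 h3
      have h4 : (1 - c / (1 + Real.log M) / 2) * (1 - c / (1 + Real.log M) / 2) <
          (∑ t ∈ Finset.range M, vs s q t (s e) (s a) 0) *
            ∑ t ∈ Finset.range M, vs s q t (s a) (s e) 0 :=
        mul_lt_mul'' h1 h3 (by linarith) (by linarith)
      nlinarith [sq_nonneg (c / (1 + Real.log M))]
    have hK' : 0 < K2m P ω (0, 1) e a := by rwa [K2m_comm]
    have h5 := hCp s P ω q χ hC hχ e a (Ne.symm hae) (Ne.symm hsae) hK' M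
      (c / (1 + Real.log M) / 4) (by positivity)
    have h6 := num hA0 hK' hc0 hc1 hL rfl h2 h5
    rwa [K2m_comm P ω (0, 1) e a] at h6

end MP0d3db7NS
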