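import Pool.Agent.Lib.MP_0d3db7.NS.Spec

/-!
# MP_0d3db7_pr, theorem NS, module As: the choice of `K`
-/

set_option autoImplicit false

namespace MP0d3db7NS

open MeasureTheory ProbabilityTheory Filter Topology

namespace As_aux

theorem AA_le (L G g2 : ℝ) (hg : 0 ≤ g2) (K : ℕ) : ∀ k : ℕ, k ≤ K →
    AA L G g2 k ≤ L ^ 2 * (4 * G ^ 2 * g2 * (K : ℝ) ^ 4 + 1) ^ k := by
  have hR : 0 ≤ 4 * G ^ 2 * g2 * (K : ℝ) ^ 4 := by positivity
  intro k
  induction k with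
  | zero =>
    intro _
    simp [AA]
  | succ k ih =>
    intro hk
    have h1 := ih (by omega)
    have h2 : ((k : ℝ) + 1) ^ 4 ≤ (K : ℝ) ^ 4 := by
      apply pow_le_pow_left₀ (by positivity)
      exact_mod_cast hk
    have h3 : AA L G g2 (k + 1) = 4 * G ^ 2 * g2 * ((k : ℝ) + 1) ^ 4 * AA L G g2 k := by
      rw [AA]
      ring
    rw [h3]
    have h4 : 4 * G ^ 2 * g2 * ((k : ℝ) + 1) ^ 4 ≤ 4 * G ^ 2 * g2 * (K : ℝ) ^ 4 + 1 := by
      have : 4 * G ^ 2 * g2 * ((k : ℝ) + 1) ^ 4 ≤ 4 * G ^ 2 * g2 * (K : ℝ) ^ 4 :=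
        mul_le_mul_of_nonneg_left h2 (by positivity)
      linarith
    have h5 : 0 ≤ 4 * G ^ 2 * g2 * ((k : ℝ) + 1) ^ 4 := by positivity
    calc 4 * G ^ 2 * g2 * ((k : ℝ) + 1) ^ 4 * AA L G g2 k
        ≤ 4 * G ^ 2 * g2 * ((k : ℝ) + 1) ^ 4 *
          (L ^ 2 * (4 * G ^ 2 * g2 * (K : ℝ) ^ 4 + 1) ^ k) :=
          mul_le_mul_of_nonneg_left h1 h5
      _ ≤ (4 * G ^ 2 * g2 * (K : ℝ) ^ 4 + 1) *
          (L ^ 2 * (4 * G ^ 2 * g2 * (K : ℝ) ^ 4 + 1) ^ k) :=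
          mul_le_mul_of_nonneg_right h4 (by positivity)
      _ = L ^ 2 * (4 * G ^ 2 * g2 * (K : ℝ) ^ 4 + 1) ^ (k + 1) := by ring

theorem quartic (p w : ℝ) (hp : 0 ≤ p) (hw : 0 ≤ w) :
    8 * w - (w ^ 2 - 1) ^ 2 / 4 + (w ^ 2 - 1) * (p + 24 * w) ≤ 4 * (2305 + p) ^ 2 := by
  have h1 : 24 * w ^ 3 ≤ w ^ 4 / 16 + 2304 * w ^ 2 := by
    nlinarith [sq_nonneg (w ^ 2 / 4 - 48 * w)]
  have h2 : (2305 + p) * w ^ 2 ≤ w ^ 4 / 16 + 4 * (2305 + p) ^ 2 := by
    nlinarith [sq_nonneg (w ^ 2 / 4 - 2 * (2305 + p))]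
  have h3 : 0 ≤ w ^ 4 := by positivity
  have h4 : 0 ≤ w ^ 2 := by positivity
  nlinarith

theorem log_le (u : ℝ) (hu : 0 ≤ u) : Real.log (1 + u ^ 2) ≤ 4 * Real.sqrt (1 + u) := by
  have h1 : Real.log (1 + u ^ 2) ≤ Real.log ((1 + u) ^ 2) :=
    Real.log_le_log (by positivity) (by nlinarith)
  have h2 : (1 + u) ^ 2 = Real.sqrt (1 + u) ^ 4 := by
    have : Real.sqrt (1 + u) ^ 4 = (Real.sqrt (1 + u) ^ 2) ^ 2 := by ring
    rw [this, Real.sq_sqrt (by linarith)]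
  have h3 : 0 < Real.sqrt (1 + u) := Real.sqrt_pos.2 (by linarith)
  have h4 := Real.log_le_sub_one_of_pos h3
  rw [h2, Real.log_pow] at h1
  push_cast at h1
  linarith

end As_aux

open As_aux

theorem tAs : S_As := by
  intro C lam hC hl0 hl1
  set a := Real.log (4 * C ^ 3 + 1) with ha
  have ha0 : 0 ≤ a := Real.log_nonneg (by
    have : 0 ≤ C ^ 3 := by positivity
    linarith)
  set M := 4 * (2305 + (a + 1)) ^ 2 with hM
  refine ⟨1 - lam, C * Real.exp M + 1, by linarith, ?_⟩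
  intro n hn Λ hΛ
  have hn0 : (0 : ℝ) < n := by exact_mod_cast hn
  set l := Real.log n with hl
  have hl : 0 ≤ l := Real.log_natCast_nonneg n
  set u := Real.sqrt l with hu
  have hu0 : 0 ≤ u := Real.sqrt_nonneg l
  have hu2 : u ^ 2 = l := Real.sq_sqrt hl
  set K := ⌊u⌋₊ with hK
  have hK1 : (K : ℝ) ≤ u := Nat.floor_le hu0
  have hK2 : u < K + 1 := Nat.lt_floor_add_one u
  have hK0 : (0 : ℝ) ≤ K := Nat.cast_nonneg K
  refine ⟨K, ?_⟩
  -- the tail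
  have hA : lam ^ (K + 1) ≤ Real.exp (-((1 - lam) * u)) := by
    have h1 : lam ≤ Real.exp (-(1 - lam)) := by
      have := Real.one_sub_le_exp_neg (1 - lam)
      linarith
    have h2 := pow_le_pow_left₀ hl0 h1 (K + 1)
    refine h2.trans ?_
    rw [← Real.exp_nat_mul]
    apply Real.exp_le_exp.2
    push_cast
    nlinarith
  -- the main sum
  set t := 1 + l with ht
  have ht1 : 1 ≤ t := by linarith
  have ht0 : 0 < t := by linarith
  set R := 4 * (C * t) ^ 2 * (C * t ^ 2) * (K : ℝ) ^ 4 + 1 with hR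
  have hC3 : 0 ≤ C ^ 3 := by positivity
  have hR0 : 0 ≤ 4 * (C * t) ^ 2 * (C * t ^ 2) * (K : ℝ) ^ 4 := by positivity
  have hR1 : 1 ≤ R := by rw [hR]; linarith
  have hRB : R ≤ (4 * C ^ 3 + 1) * t ^ 6 := by
    have h1 : (K : ℝ) ^ 4 ≤ t ^ 2 := by
      have h2 : (K : ℝ) ^ 4 ≤ u ^ 4 := pow_le_pow_left₀ hK0 hK1 4
      have h3 : u ^ 4 = l ^ 2 := by rw [← hu2]; ring
      have h4 : l ^ 2 ≤ t ^ 2 := pow_le_pow_left₀ hl (by linarith) 2
      linarith
    have h2 : 4 * (C * t) ^ 2 * (C * t ^ 2) * (K : ℝ) ^ 4 ≤ 4 * (C * t) ^ 2 * (C * t ^ 2) * t ^ 2 :=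
      mul_le_mul_of_nonneg_left h1 (by positivity)
    have h3 : 1 ≤ t ^ 6 := one_le_pow₀ ht1
    have h4 : 4 * (C * t) ^ 2 * (C * t ^ 2) * t ^ 2 = 4 * C ^ 3 * t ^ 6 := by ring
    rw [hR]
    nlinarith
  have hsum : ∑ k ∈ Finset.range K, ((k : ℝ) + 1) ^ 2 * (C * (n : ℝ) ^ (3 / 4 : ℝ)) *
      AA (Λ / Real.sqrt n) (C * t) (C * t ^ 2) k ≤
      (K : ℝ) * ((K : ℝ) ^ 2 * (C * (n : ℝ) ^ (3 / 4 : ℝ)) *
        ((Λ / Real.sqrt n) ^ 2 * R ^ K)) := by
    have h1 : ∀ k ∈ Finset.range K, ((k : ℝ) + 1) ^ 2 * (C * (n : ℝ) ^ (3 / 4 : ℝ)) *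
        AA (Λ / Real.sqrt n) (C * t) (C * t ^ 2) k ≤
        (K : ℝ) ^ 2 * (C * (n : ℝ) ^ (3 / 4 : ℝ)) * ((Λ / Real.sqrt n) ^ 2 * R ^ K) := by
      intro k hk
      rw [Finset.mem_range] at hk
      have h2 : ((k : ℝ) + 1) ^ 2 ≤ (K : ℝ) ^ 2 := by
        apply pow_le_pow_left₀ (by positivity)
        exact_mod_cast hk
      have h3 := AA_le (Λ / Real.sqrt n) (C * t) (C * t ^ 2) (by positivity) K k hk.le
      have h4 : R ^ k ≤ R ^ K := pow_le_pow_right₀ hR1 hk.le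
      have h5 : 0 ≤ C * (n : ℝ) ^ (3 / 4 : ℝ) := by positivity
      calc ((k : ℝ) + 1) ^ 2 * (C * (n : ℝ) ^ (3 / 4 : ℝ)) *
          AA (Λ / Real.sqrt n) (C * t) (C * t ^ 2) k
          ≤ ((k : ℝ) + 1) ^ 2 * (C * (n : ℝ) ^ (3 / 4 : ℝ)) *
            ((Λ / Real.sqrt n) ^ 2 * R ^ k) :=
            mul_le_mul_of_nonneg_left h3 (by positivity)
        _ ≤ ((k : ℝ) + 1) ^ 2 * (C * (n : ℝ) ^ (3 / 4 : ℝ)) *
            ((Λ / Real.sqrt n) ^ 2 * R ^ K) :=
            mul_le_mul_of_nonneg_left (mul_le_mul_of_nonneg_left h4 (by positivity))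
              (by positivity)
        _ ≤ _ := by
            apply mul_le_mul_of_nonneg_right _ (by positivity)
            exact mul_le_mul_of_nonneg_right h2 h5
    have h6 := Finset.sum_le_card_nsmul _ _ _ h1
    rw [Finset.card_range, nsmul_eq_mul] at h6
    exact h6
  have hexp : (K : ℝ) * ((K : ℝ) ^ 2 * (C * (n : ℝ) ^ (3 / 4 : ℝ)) *
      ((Λ / Real.sqrt n) ^ 2 * R ^ K)) ≤
      C * Λ ^ 2 * (Real.exp M * Real.exp (-((1 - lam) * u))) := by
    have e1 : (n : ℝ) ^ (3 / 4 : ℝ) * (Λ / Real.sqrt n) ^ 2 = Λ ^ 2 * Real.exp (-(l / 4)) := by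
      have e2 : (n : ℝ) = Real.exp l := (Real.exp_log hn0).symm
      have e3 : (n : ℝ) ^ (3 / 4 : ℝ) = Real.exp (l * (3 / 4)) := Real.rpow_def_of_pos hn0 _
      rw [div_pow, Real.sq_sqrt hn0.le, e3]
      have e4 : Real.exp (l * (3 / 4)) = Real.exp (-(l / 4)) * n := by
        rw [e2, ← Real.exp_add]
        congr 1
        ring
      rw [e4]
      field_simp
    have e2 : (K : ℝ) ^ 3 ≤ Real.exp (2 * Real.log t) := by
      have h1 : (K : ℝ) ^ 3 ≤ u ^ 3 := pow_le_pow_left₀ hK0 hK1 3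
      have h2 : u ≤ t := by nlinarith
      have h3 : u ^ 3 ≤ t ^ 2 := by
        have : u ^ 3 = u * l := by rw [← hu2]; ring
        rw [this, pow_two]
        exact mul_le_mul h2 (by linarith) hl ht0.le
      have h4 : Real.exp (2 * Real.log t) = t ^ 2 := by
        rw [two_mul, Real.exp_add, Real.exp_log ht0, pow_two]
      linarith
    have e3 : R ^ K ≤ Real.exp (u * (a + 6 * Real.log t)) := by
      have h1 : R ^ K ≤ ((4 * C ^ 3 + 1) * t ^ 6) ^ K := pow_le_pow_left₀ (by linarith) hRB K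
      have h2 : (4 * C ^ 3 + 1) * t ^ 6 = Real.exp (a + 6 * Real.log t) := by
        rw [Real.exp_add, Real.exp_log (by linarith)]
        have : (6 : ℝ) * Real.log t = ((6 : ℕ) : ℝ) * Real.log t := by norm_num
        rw [this, Real.exp_nat_mul, Real.exp_log ht0]
      rw [h2, ← Real.exp_nat_mul] at h1
      refine h1.trans (Real.exp_le_exp.2 ?_)
      have h3 : 0 ≤ a + 6 * Real.log t := by
        have := Real.log_nonneg ht1
        linarith
      exact mul_le_mul_of_nonneg_right hK1 h3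
    have e4 : 2 * Real.log t + (-(l / 4)) + u * (a + 6 * Real.log t) ≤ M + (-((1 - lam) * u)) := by
      have h1 : Real.log t ≤ 4 * Real.sqrt (1 + u) := by
        have := log_le u hu0
        rw [hu2] at this
        exact this
      set w := Real.sqrt (1 + u) with hw
      have hw0 : 0 ≤ w := Real.sqrt_nonneg _
      have hw2 : w ^ 2 = 1 + u := Real.sq_sqrt (by linarith)
      have h2 := quartic (a + 1) w (by linarith) hw0
      have h3 : w ^ 2 - 1 = u := by linarith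
      rw [h3, hu2] at h2
      have h4 : u * (a + 6 * Real.log t) ≤ u * (a + 24 * w) := by
        apply mul_le_mul_of_nonneg_left _ hu0
        linarith
      have h5 : (1 - lam) * u ≤ u := by nlinarith
      nlinarith
    have e5 : (K : ℝ) * ((K : ℝ) ^ 2 * (C * (n : ℝ) ^ (3 / 4 : ℝ)) *
        ((Λ / Real.sqrt n) ^ 2 * R ^ K)) =
        C * Λ ^ 2 * ((K : ℝ) ^ 3 * Real.exp (-(l / 4)) * R ^ K) := by
      have : (K : ℝ) * ((K : ℝ) ^ 2 * (C * (n : ℝ) ^ (3 / 4 : ℝ)) *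
          ((Λ / Real.sqrt n) ^ 2 * R ^ K)) =
          C * (K : ℝ) ^ 3 * R ^ K * ((n : ℝ) ^ (3 / 4 : ℝ) * (Λ / Real.sqrt n) ^ 2) := by ring
      rw [this, e1]
      ring
    rw [e5]
    apply mul_le_mul_of_nonneg_left _ (by positivity)
    calc (K : ℝ) ^ 3 * Real.exp (-(l / 4)) * R ^ K
        ≤ Real.exp (2 * Real.log t) * Real.exp (-(l / 4)) *
          Real.exp (u * (a + 6 * Real.log t)) := by
          apply mul_le_mul _ e3 (by positivity) (by positivity)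
          exact mul_le_mul_of_nonneg_right e2 (Real.exp_pos _).le
      _ = Real.exp (2 * Real.log t + (-(l / 4)) + u * (a + 6 * Real.log t)) := by
          rw [Real.exp_add, Real.exp_add]
      _ ≤ Real.exp (M + (-((1 - lam) * u))) := Real.exp_le_exp.2 e4
      _ = Real.exp M * Real.exp (-((1 - lam) * u)) := by rw [Real.exp_add]
  have hE := Real.exp_pos (-((1 - lam) * u))
  have hEM := Real.exp_pos M
  have h9 : 0 ≤ C * Real.exp M * Real.exp (-((1 - lam) * u)) := by positivity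
  have h10 : 0 ≤ Λ ^ 2 * Real.exp (-((1 - lam) * u)) := by positivity
  have h11 : (C * Real.exp M + 1) * (1 + Λ ^ 2) * Real.exp (-((1 - lam) * u)) =
      C * Λ ^ 2 * (Real.exp M * Real.exp (-((1 - lam) * u))) + Real.exp (-((1 - lam) * u)) +
      C * Real.exp M * Real.exp (-((1 - lam) * u)) + Λ ^ 2 * Real.exp (-((1 - lam) * u)) := by
    ring
  rw [h11]
  linarith

end MP0d3db7NS
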