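import Pool.Agent.Lib.MP_0d3db7.NS.Spec

/-!
# MP_0d3db7_pr, theorem NS, module Ba: almost sure convergence along the check points
-/

set_option autoImplicit false

namespace MP0d3db7NS

open MeasureTheory ProbabilityTheory Filter Topology

namespace Ba_aux

/-- the mesh of the check points between `2 ^ m` and `2 ^ (m + 1)` -/
def hm (m : ℕ) : ℕ := 2 ^ m / (m + 1) ^ 2 + 1

theorem ck_form (n : ℕ) (hn : 1 ≤ n) :
    ∃ i ∈ Finset.range ((Nat.log 2 n + 1) ^ 2), ck n = 2 ^ Nat.log 2 n + i * hm (Nat.log 2 n) := by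
  set m := Nat.log 2 n with hm_def
  have h1 : 2 ^ m ≤ n := Nat.pow_log_le_self 2 (by omega)
  have h2 : n < 2 ^ (m + 1) := Nat.lt_pow_succ_log_self (by norm_num) n
  have hpos : 0 < hm m := Nat.succ_pos _
  have h3 : 2 ^ m < (m + 1) ^ 2 * hm m := by
    have := Nat.lt_mul_div_succ (2 ^ m) (show 0 < (m + 1) ^ 2 by positivity)
    simpa [hm] using this
  refine ⟨(n - 2 ^ m) / hm m, ?_, ?_⟩
  · rw [Finset.mem_range, Nat.div_lt_iff_lt_mul hpos]
    have : 2 ^ (m + 1) = 2 * 2 ^ m := by ring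
    omega
  · have h4 := Nat.div_add_mod (n - 2 ^ m) (hm m)
    have h5 : ck n = n - (n - 2 ^ m) % hm m := rfl
    rw [h5, mul_comm ((n - 2 ^ m) / hm m)]
    have h6 := Nat.mod_le (n - 2 ^ m) (hm m)
    omega

theorem exp_bound (c : ℝ) (hc : 0 < c) : ∃ D : ℝ, 0 ≤ D ∧ ∀ m : ℕ,
    Real.exp (-(c * Real.sqrt (m * Real.log 2))) ≤ D / ((m : ℝ) + 1) ^ 4 := by
  have hl : 0 < Real.log 2 := Real.log_pos (by norm_num)
  set A : ℝ := (c ^ 2 * Real.log 2) ^ 4 with hA
  have hApos : 0 < A := by positivity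
  refine ⟨16 * 40320 / A + 1, by positivity, fun m => ?_⟩
  rcases Nat.eq_zero_or_pos m with h0 | hpos
  · subst h0
    have h1 : (0 : ℝ) ≤ 16 * 40320 / A := by positivity
    simp only [Nat.cast_zero, zero_mul, Real.sqrt_zero, mul_zero, neg_zero, Real.exp_zero, zero_add,
      one_pow, div_one]
    linarith
  · have hm : (1 : ℝ) ≤ m := by exact_mod_cast hpos
    set x : ℝ := c * Real.sqrt (m * Real.log 2) with hx
    have hx0 : 0 ≤ x := by positivity
    have hx8 : x ^ 8 = A * (m : ℝ) ^ 4 := by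
      have h1 : Real.sqrt (m * Real.log 2) ^ 2 = m * Real.log 2 := Real.sq_sqrt (by positivity)
      calc x ^ 8 = c ^ 8 * (Real.sqrt (m * Real.log 2) ^ 2) ^ 4 := by rw [hx]; ring
        _ = A * (m : ℝ) ^ 4 := by rw [h1, hA]; ring
    have h1 := Real.pow_div_factorial_le_exp x hx0 8
    have hfac : ((Nat.factorial 8 : ℕ) : ℝ) = 40320 := by norm_num [Nat.factorial]
    rw [hfac, hx8] at h1
    have hm4 : ((m : ℝ) + 1) ^ 4 ≤ 16 * (m : ℝ) ^ 4 := by
      have h2 : (m : ℝ) + 1 ≤ 2 * m := by linarith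
      calc ((m : ℝ) + 1) ^ 4 ≤ (2 * (m : ℝ)) ^ 4 := by gcongr
        _ = 16 * (m : ℝ) ^ 4 := by ring
    have hmp : (0 : ℝ) < (m : ℝ) ^ 4 := by positivity
    have hmp1 : (0 : ℝ) < ((m : ℝ) + 1) ^ 4 := by positivity
    rw [Real.exp_neg]
    have h3 : (0 : ℝ) < A * (m : ℝ) ^ 4 / 40320 := by positivity
    calc (Real.exp x)⁻¹ ≤ (A * (m : ℝ) ^ 4 / 40320)⁻¹ := inv_anti₀ h3 h1
      _ = 40320 / (A * (m : ℝ) ^ 4) := by rw [inv_div]
      _ ≤ 16 * 40320 / A / ((m : ℝ) + 1) ^ 4 := by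
        rw [div_div, div_le_div_iff₀ (by positivity) (by positivity)]
        have h4 : 0 ≤ 40320 * A := by positivity
        nlinarith [mul_le_mul_of_nonneg_left hm4 h4]
      _ ≤ (16 * 40320 / A + 1) / ((m : ℝ) + 1) ^ 4 := by
        gcongr
        linarith

theorem summ (c C : ℝ) (hc : 0 < c) (hC : 0 ≤ C) :
    Summable fun m : ℕ => ((m : ℝ) + 1) ^ 2 *
      (C * Real.exp (-(c * Real.sqrt (m * Real.log 2)))) := by
  obtain ⟨D, hD, h⟩ := exp_bound c hc
  have h1 : Summable fun m : ℕ => C * D * (1 / ((m : ℝ) + 1) ^ 2) := by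
    refine Summable.mul_left _ ?_
    have h2 := (summable_nat_add_iff 1).mpr (Real.summable_one_div_nat_pow.mpr one_lt_two)
    simpa using h2
  refine Summable.of_nonneg_of_le (fun m => by positivity) (fun m => ?_) h1
  have hmp : (0 : ℝ) < (m : ℝ) + 1 := by positivity
  calc ((m : ℝ) + 1) ^ 2 * (C * Real.exp (-(c * Real.sqrt (m * Real.log 2))))
      ≤ ((m : ℝ) + 1) ^ 2 * (C * (D / ((m : ℝ) + 1) ^ 4)) := by
        gcongr
        exact h m
    _ = C * D * (1 / ((m : ℝ) + 1) ^ 2) := by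
        field_simp

theorem ae_zero {Ω : Type} [MeasurableSpace Ω] (P : Measure Ω) (B : ℕ → Ω → ℝ) (b : ℕ → ℝ)
    (hint : ∀ m, Integrable (B m) P) (hpos : ∀ m o, 0 ≤ B m o) (hb : ∀ m, ∫ o, B m o ∂P ≤ b m)
    (hs : Summable b) : ∀ᵐ o ∂P, Tendsto (fun m => B m o) atTop (𝓝 0) := by
  have hmeas : ∀ m, AEMeasurable (fun o => ENNReal.ofReal (B m o)) P := fun m =>
    (hint m).aestronglyMeasurable.aemeasurable.ennreal_ofReal
  have h1 : ∫⁻ o, ∑' m, ENNReal.ofReal (B m o) ∂P ≠ ⊤ := by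
    rw [lintegral_tsum hmeas]
    have hb0 : ∀ m, 0 ≤ b m := fun m => le_trans (integral_nonneg (hpos m)) (hb m)
    have h2 : ∀ m, ∫⁻ o, ENNReal.ofReal (B m o) ∂P ≤ ENNReal.ofReal (b m) := fun m => by
      rw [← ofReal_integral_eq_lintegral_ofReal (hint m) (Eventually.of_forall (hpos m))]
      exact ENNReal.ofReal_le_ofReal (hb m)
    refine ne_top_of_le_ne_top ?_ (ENNReal.tsum_le_tsum h2)
    rw [← ENNReal.ofReal_tsum_of_nonneg hb0 hs]
    exact ENNReal.ofReal_ne_top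
  have h3 := ae_lt_top' (AEMeasurable.tsum hmeas) h1
  filter_upwards [h3] with o ho
  have h4 := ENNReal.tendsto_atTop_zero_of_tsum_ne_top ho.ne
  have h5 := (ENNReal.tendsto_toReal ENNReal.zero_ne_top).comp h4
  simpa [Function.comp_def, ENNReal.toReal_ofReal, hpos] using h5

end Ba_aux

open Ba_aux in
/-- **(Ba)** Convergence along the check points. -/
theorem tBa : S_Ba := by
  intro Ω _ P _ F a c C hc hF hF1 hI
  -- the constant is nonnegative
  have hC : 0 ≤ C := by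
    have h1 := hI 1 le_rfl
    have h2 : 0 ≤ ∫ o, (F 1 o - a 1) ^ 2 ∂P := integral_nonneg fun o => sq_nonneg _
    simp only [Nat.cast_one, Real.log_one, Real.sqrt_zero, mul_zero, neg_zero, Real.exp_zero,
      mul_one] at h1
    linarith
  have hint : ∀ n, Integrable (fun o => (F n o - a n) ^ 2) P := fun n => by
    refine Integrable.of_bound ((hF n).sub_const _ |>.pow_const 2).aestronglyMeasurable
      ((1 + |a n|) ^ 2) (Eventually.of_forall fun o => ?_)
    rw [Real.norm_eq_abs, abs_of_nonneg (sq_nonneg _), ← sq_abs]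
    have h1 : |F n o - a n| ≤ 1 + |a n| := by
      have h2 := abs_sub (F n o) (a n)
      have h3 := hF1 n o
      linarith
    gcongr
  set B : ℕ → Ω → ℝ := fun m o => ∑ i ∈ Finset.range ((m + 1) ^ 2),
    (F (2 ^ m + i * hm m) o - a (2 ^ m + i * hm m)) ^ 2 with hB
  have hBpos : ∀ m o, 0 ≤ B m o := fun m o => Finset.sum_nonneg fun i _ => sq_nonneg _
  have hBint : ∀ m, Integrable (B m) P := fun m => integrable_finsetSum _ fun i _ => hint _
  have hBle : ∀ m, ∫ o, B m o ∂P ≤ ((m : ℝ) + 1) ^ 2 *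
      (C * Real.exp (-(c * Real.sqrt (m * Real.log 2)))) := fun m => by
    rw [hB]
    simp only
    rw [integral_finsetSum _ fun i _ => hint _]
    have h1 : ∀ i ∈ Finset.range ((m + 1) ^ 2),
        ∫ o, (F (2 ^ m + i * hm m) o - a (2 ^ m + i * hm m)) ^ 2 ∂P ≤
          C * Real.exp (-(c * Real.sqrt (m * Real.log 2))) := fun i _ => by
      have h2 : 1 ≤ 2 ^ m + i * hm m := by
        have := Nat.one_le_two_pow (n := m)
        omega
      refine (hI _ h2).trans ?_
      have h3 : (m : ℝ) * Real.log 2 ≤ Real.log ((2 ^ m + i * hm m : ℕ) : ℝ) := by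
        have h4 : (m : ℝ) * Real.log 2 = Real.log ((2 : ℝ) ^ m) := by rw [Real.log_pow]
        rw [h4]
        refine Real.log_le_log (by positivity) ?_
        push_cast
        have h5 : (0 : ℝ) ≤ (i : ℝ) * (hm m : ℝ) := by positivity
        linarith
      have h6 := Real.sqrt_le_sqrt h3
      have h7 : c * Real.sqrt (m * Real.log 2) ≤
          c * Real.sqrt (Real.log ((2 ^ m + i * hm m : ℕ) : ℝ)) :=
        mul_le_mul_of_nonneg_left h6 hc.le
      have h8 := Real.exp_le_exp.mpr (neg_le_neg h7)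
      exact mul_le_mul_of_nonneg_left h8 hC
    refine (Finset.sum_le_sum h1).trans ?_
    rw [Finset.sum_const, Finset.card_range, nsmul_eq_mul]
    push_cast
    exact le_rfl
  have hae := ae_zero P B _ hBint hBpos hBle (summ c C hc hC)
  filter_upwards [hae] with o ho
  have hlog : Tendsto (fun n : ℕ => Nat.log 2 n) atTop atTop := by
    refine tendsto_atTop_atTop.mpr fun b => ⟨2 ^ b, fun n hn => ?_⟩
    exact Nat.le_log_of_pow_le (by norm_num) hn
  have h1 : Tendsto (fun n : ℕ => Real.sqrt (B (Nat.log 2 n) o)) atTop (𝓝 0) := by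
    have h2 := (Real.continuous_sqrt.tendsto 0).comp (ho.comp hlog)
    simpa [Function.comp_def] using h2
  refine squeeze_zero_norm' ?_ h1
  filter_upwards [eventually_ge_atTop 1] with n hn
  obtain ⟨i, hi, hck⟩ := ck_form n hn
  rw [Real.norm_eq_abs, ← Real.sqrt_sq_eq_abs]
  refine Real.sqrt_le_sqrt ?_
  rw [hck]
  exact Finset.single_le_sum (f := fun i => (F (2 ^ Nat.log 2 n + i * hm (Nat.log 2 n)) o -
    a (2 ^ Nat.log 2 n + i * hm (Nat.log 2 n))) ^ 2) (fun j _ => sq_nonneg _) hi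

end MP0d3db7NS
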