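import Pool.Agent.Lib.MP_0d3db7.NS.Spec

/-!
# MP_0d3db7_pr, theorem NS, module Bb: between the check points
-/

set_option autoImplicit false

namespace MP0d3db7NS

open MeasureTheory ProbabilityTheory Filter Topology

namespace Bb_aux

/-- a bound for squares by powers of two -/
theorem sq_le_pow (m : ℕ) : (m + 1) ^ 2 ≤ 3 * 2 ^ m := by
  induction m with
  | zero => norm_num
  | succ m ih =>
    rcases Nat.lt_or_ge m 2 with h | h
    · interval_cases m <;> norm_num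
    · have h1 : (m + 1 + 1) ^ 2 ≤ 2 * (m + 1) ^ 2 := by nlinarith
      calc (m + 1 + 1) ^ 2 ≤ 2 * (m + 1) ^ 2 := h1
        _ ≤ 2 * (3 * 2 ^ m) := Nat.mul_le_mul_left _ ih
        _ = 3 * 2 ^ (m + 1) := by ring

/-- the distance to the check point -/
theorem gap (n : ℕ) (hn : 1 ≤ n) :
    ((Nat.log 2 n : ℝ) + 1) ^ 2 / 4 ≤ (n : ℝ) / (((n - ck n : ℕ) : ℝ) + 1) := by
  set m := Nat.log 2 n with hm
  have h2m : 2 ^ m ≤ n := Nat.pow_log_le_self 2 (by omega)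
  have h1 : n - ck n ≤ 2 ^ m / (m + 1) ^ 2 := by
    have h3 : n - ck n ≤ (n - 2 ^ m) % (2 ^ m / (m + 1) ^ 2 + 1) := by
      unfold ck
      rw [← hm]
      omega
    have h4 := Nat.mod_lt (n - 2 ^ m) (Nat.succ_pos (2 ^ m / (m + 1) ^ 2))
    rw [Nat.succ_eq_add_one] at h4
    omega
  have h5 : ((n - ck n : ℕ) : ℝ) ≤ (2 : ℝ) ^ m / ((m : ℝ) + 1) ^ 2 := by
    have h6 : ((n - ck n : ℕ) : ℝ) ≤ ((2 ^ m / (m + 1) ^ 2 : ℕ) : ℝ) := by exact_mod_cast h1
    refine h6.trans ?_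
    have h7 := @Nat.cast_div_le ℝ _ _ _ (2 ^ m) ((m + 1) ^ 2)
    push_cast at h7
    exact h7
  have h8 : ((m : ℝ) + 1) ^ 2 ≤ 3 * (2 : ℝ) ^ m := by exact_mod_cast sq_le_pow m
  have h9 : (2 : ℝ) ^ m ≤ (n : ℝ) := by exact_mod_cast h2m
  have hp : (0 : ℝ) < ((m : ℝ) + 1) ^ 2 := by positivity
  have h2 : (0 : ℝ) < (2 : ℝ) ^ m := by positivity
  rw [div_le_div_iff₀ (by norm_num) (by positivity)]
  have h10 : ((m : ℝ) + 1) ^ 2 * (((n - ck n : ℕ) : ℝ) + 1) ≤ (2 : ℝ) ^ m + ((m : ℝ) + 1) ^ 2 := by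
    have h11 : ((m : ℝ) + 1) ^ 2 * ((n - ck n : ℕ) : ℝ) ≤ (2 : ℝ) ^ m := by
      calc ((m : ℝ) + 1) ^ 2 * ((n - ck n : ℕ) : ℝ) ≤
          ((m : ℝ) + 1) ^ 2 * ((2 : ℝ) ^ m / ((m : ℝ) + 1) ^ 2) :=
            mul_le_mul_of_nonneg_left h5 hp.le
        _ = (2 : ℝ) ^ m := by field_simp
    linarith
  linarith

/-- the bound of the exponential by `n ^ (-2)` -/
theorem bound (c : ℝ) (hc : 0 < c) (n : ℕ) (hn : 1 ≤ n) :
    Real.exp (-(c * n / (((n - ck n : ℕ) : ℝ) + 1))) ≤ Real.exp (4 / c) * (1 / (n : ℝ) ^ 2) := by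
  have hn0 : (0 : ℝ) < (n : ℝ) := by exact_mod_cast hn
  have h1 := gap n hn
  have h2 : c * (((Nat.log 2 n : ℝ) + 1) ^ 2 / 4) ≤ c * n / (((n - ck n : ℕ) : ℝ) + 1) := by
    rw [mul_div_assoc]
    exact mul_le_mul_of_nonneg_left h1 hc.le
  have h3 : Real.log n ≤ (Nat.log 2 n : ℝ) + 1 := by
    have h4 : (n : ℝ) ≤ (2 : ℝ) ^ (Nat.log 2 n + 1) := by
      exact_mod_cast (Nat.lt_pow_succ_log_self (by norm_num : 1 < 2) n).le
    have h5 := Real.log_le_log hn0 h4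
    rw [Real.log_pow] at h5
    have h6 : Real.log 2 ≤ 1 := by
      have := Real.log_two_lt_d9
      linarith
    have h7 : (((Nat.log 2 n + 1 : ℕ) : ℝ)) * Real.log 2 ≤ ((Nat.log 2 n + 1 : ℕ) : ℝ) * 1 :=
      mul_le_mul_of_nonneg_left h6 (Nat.cast_nonneg _)
    push_cast at h7 h5
    linarith
  have h0 : 0 ≤ Real.log n := Real.log_natCast_nonneg n
  have h8 : c * ((Real.log n) ^ 2 / 4) ≤ c * (((Nat.log 2 n : ℝ) + 1) ^ 2 / 4) := by
    have : (Real.log n) ^ 2 ≤ ((Nat.log 2 n : ℝ) + 1) ^ 2 := pow_le_pow_left₀ h0 h3 2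
    refine mul_le_mul_of_nonneg_left ?_ hc.le
    linarith
  have h9 : 2 * Real.log n ≤ c * ((Real.log n) ^ 2 / 4) + 4 / c := by
    have h10 : 0 ≤ (c * Real.log n - 4) ^ 2 / (4 * c) := by positivity
    have h11 : (c * Real.log n - 4) ^ 2 / (4 * c) =
        c * ((Real.log n) ^ 2 / 4) + 4 / c - 2 * Real.log n := by
      field_simp
      ring
    linarith
  have h12 : (1 : ℝ) / (n : ℝ) ^ 2 = Real.exp (-(2 * Real.log n)) := by
    rw [Real.exp_neg, one_div]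
    congr 1
    have h13 : 2 * Real.log n = ((2 : ℕ) : ℝ) * Real.log n := by norm_num
    rw [h13, Real.exp_nat_mul, Real.exp_log hn0]
  rw [h12, ← Real.exp_add]
  refine Real.exp_le_exp.2 ?_
  linarith

end Bb_aux

open Bb_aux in
/-- BETWEEN THE CHECK POINTS. -/
theorem tBb : S_Bb := by
  intro Ω _ P _ F c C hc hmeas h0 h1 hint
  have hC : ∀ n : ℕ, 1 ≤ n → ∫ o, F n o ∂P ≤ |C| * Real.exp (4 / c) * (1 / (n : ℝ) ^ 2) := by
    intro n hn
    refine (hint n hn).trans ?_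
    calc C * Real.exp (-(c * n / (((n - ck n : ℕ) : ℝ) + 1)))
        ≤ |C| * Real.exp (-(c * n / (((n - ck n : ℕ) : ℝ) + 1))) :=
          mul_le_mul_of_nonneg_right (le_abs_self C) (Real.exp_nonneg _)
      _ ≤ |C| * (Real.exp (4 / c) * (1 / (n : ℝ) ^ 2)) :=
          mul_le_mul_of_nonneg_left (bound c hc n hn) (abs_nonneg _)
      _ = _ := by ring
  have hI : ∀ n, Integrable (F n) P := fun n =>
    Integrable.of_bound (hmeas n).aestronglyMeasurable 1 (Eventually.of_forall fun o => by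
      rw [Real.norm_of_nonneg (h0 n o)]
      exact h1 n o)
  have hlin : ∀ n, ∫⁻ o, ENNReal.ofReal (F n o) ∂P = ENNReal.ofReal (∫ o, F n o ∂P) := fun n =>
    (ofReal_integral_eq_lintegral_ofReal (hI n) (Eventually.of_forall fun o => h0 n o)).symm
  have hsum : Summable fun n : ℕ => ∫ o, F (n + 1) o ∂P := by
    refine Summable.of_nonneg_of_le (fun n => integral_nonneg (h0 _)) (fun n => hC (n + 1) (by omega)) ?_
    have h2 : Summable fun n : ℕ => 1 / ((n : ℝ)) ^ 2 := Real.summable_one_div_nat_pow.2 (by norm_num)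
    have h3 := (summable_nat_add_iff 1).2 h2
    exact (h3.mul_left (|C| * Real.exp (4 / c))).congr fun n => by push_cast; rfl
  have htot : ∫⁻ o, ∑' n : ℕ, ENNReal.ofReal (F (n + 1) o) ∂P ≠ ⊤ := by
    rw [lintegral_tsum fun n => ((hmeas (n + 1)).ennreal_ofReal).aemeasurable]
    have h2 : ∑' n : ℕ, ∫⁻ o, ENNReal.ofReal (F (n + 1) o) ∂P =
        ENNReal.ofReal (∑' n : ℕ, ∫ o, F (n + 1) o ∂P) := by
      rw [ENNReal.ofReal_tsum_of_nonneg (fun n => integral_nonneg (h0 _)) hsum]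
      exact tsum_congr fun n => hlin (n + 1)
    rw [h2]
    exact ENNReal.ofReal_ne_top
  have hae := ae_lt_top' (AEMeasurable.ennreal_tsum fun n =>
    ((hmeas (n + 1)).ennreal_ofReal).aemeasurable) htot
  filter_upwards [hae] with o ho
  have h2 := ENNReal.tendsto_atTop_zero_of_tsum_ne_top ho.ne
  have h3 : Tendsto (fun n : ℕ => F (n + 1) o) atTop (𝓝 0) := by
    have h4 := (ENNReal.tendsto_toReal ENNReal.zero_ne_top).comp h2
    rw [ENNReal.toReal_zero] at h4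
    refine h4.congr fun n => ?_
    exact ENNReal.toReal_ofReal (h0 _ _)
  exact (tendsto_add_atTop_iff_nat 1).1 h3

end MP0d3db7NS
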