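import Pool.Agent.Lib.MP_0d3db7.NS.Spec

/-!
# MP_0d3db7_pr, theorem NS, module Bi (helper61): products of binomial laws
-/

set_option autoImplicit false

namespace MP0d3db7NS

open MeasureTheory ProbabilityTheory Filter Topology

namespace Bi_aux

theorem central (n : ℕ) : n.centralBinom ^ 2 * (2 * n + 1) ≤ 16 ^ n := by
  induction n with
  | zero => simp
  | succ n ih =>
    have h1 := Nat.succ_mul_centralBinom_succ n
    have h2 : (n + 1) ^ 2 * ((n + 1).centralBinom ^ 2 * (2 * (n + 1) + 1)) ≤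
        (n + 1) ^ 2 * 16 ^ (n + 1) := by
      calc (n + 1) ^ 2 * ((n + 1).centralBinom ^ 2 * (2 * (n + 1) + 1))
          = ((n + 1) * (n + 1).centralBinom) ^ 2 * (2 * n + 3) := by ring
        _ = (2 * (2 * n + 1) * n.centralBinom) ^ 2 * (2 * n + 3) := by rw [h1]
        _ = 4 * ((2 * n + 1) * (2 * n + 3)) * (n.centralBinom ^ 2 * (2 * n + 1)) := by ring
        _ ≤ 4 * ((2 * n + 1) * (2 * n + 3)) * 16 ^ n := Nat.mul_le_mul_left _ ih
        _ ≤ 4 * (4 * (n + 1) ^ 2) * 16 ^ n := by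
            refine Nat.mul_le_mul_right _ (Nat.mul_le_mul_left _ ?_)
            nlinarith
        _ = (n + 1) ^ 2 * 16 ^ (n + 1) := by ring
    exact Nat.le_of_mul_le_mul_left h2 (by positivity)

theorem choose_sq (j l : ℕ) : j.choose l ^ 2 * (j + 1) ≤ 4 ^ j := by
  have h0 : j.choose l ≤ j.choose (j / 2) := Nat.choose_le_middle l j
  refine le_trans (Nat.mul_le_mul_right _ (Nat.pow_le_pow_left h0 2)) ?_
  rcases Nat.even_or_odd' j with ⟨n, rfl | rfl⟩
  · have h1 : 2 * n / 2 = n := by omega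
    rw [h1]
    have h2 := central n
    rw [Nat.centralBinom_eq_two_mul_choose] at h2
    calc (2 * n).choose n ^ 2 * (2 * n + 1) ≤ 16 ^ n := h2
      _ = 4 ^ (2 * n) := by rw [pow_mul]; norm_num
  · have h1 : (2 * n + 1) / 2 = n := by omega
    rw [h1]
    have h2 := central (n + 1)
    rw [Nat.centralBinom_eq_two_mul_choose] at h2
    have h3 : (2 * (n + 1)).choose (n + 1) = 2 * (2 * n + 1).choose n := by
      have h4 : 2 * (n + 1) = 2 * n + 1 + 1 := by ring
      rw [h4, Nat.choose_succ_succ, Nat.choose_symm_half]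
      ring
    rw [h3] at h2
    have h5 : 4 * ((2 * n + 1).choose n ^ 2 * (2 * n + 1 + 1)) ≤ 4 * 4 ^ (2 * n + 1) := by
      calc 4 * ((2 * n + 1).choose n ^ 2 * (2 * n + 1 + 1))
          ≤ 4 * ((2 * n + 1).choose n ^ 2 * (2 * (n + 1) + 1)) :=
            Nat.mul_le_mul_left _ (Nat.mul_le_mul_left _ (by omega))
        _ = (2 * (2 * n + 1).choose n) ^ 2 * (2 * (n + 1) + 1) := by ring
        _ ≤ 16 ^ (n + 1) := h2
        _ = 4 * 4 ^ (2 * n + 1) := by
            rw [← pow_succ', show 2 * n + 1 + 1 = 2 * (n + 1) by ring, pow_mul]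
            norm_num
    omega

theorem choose_div (j l : ℕ) :
    (1 / 2 : ℝ) ^ j * (j.choose l : ℝ) ≤ 1 / Real.sqrt ((j : ℝ) + 1) := by
  have h1 : ((j.choose l : ℝ)) ^ 2 * ((j : ℝ) + 1) ≤ 4 ^ j := by exact_mod_cast choose_sq j l
  have hj : (0 : ℝ) < (j : ℝ) + 1 := by positivity
  have hs : 0 < Real.sqrt ((j : ℝ) + 1) := Real.sqrt_pos.2 hj
  rw [le_div_iff₀ hs]
  refine le_of_sq_le_sq ?_ zero_le_one
  have h2 : ((1 / 2 : ℝ) ^ j * (j.choose l : ℝ) * Real.sqrt ((j : ℝ) + 1)) ^ 2 =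
      (1 / 4 : ℝ) ^ j * ((j.choose l : ℝ) ^ 2 * ((j : ℝ) + 1)) := by
    rw [mul_pow, mul_pow, Real.sq_sqrt hj.le, ← pow_mul, mul_comm j 2, pow_mul]
    norm_num
    ring
  rw [h2, one_pow]
  calc (1 / 4 : ℝ) ^ j * ((j.choose l : ℝ) ^ 2 * ((j : ℝ) + 1)) ≤ (1 / 4 : ℝ) ^ j * 4 ^ j :=
        mul_le_mul_of_nonneg_left h1 (by positivity)
    _ = 1 := by
        rw [← mul_pow]
        norm_num

theorem single_natCast {V : Type} [AddCommGroup V] (v : V) (r : ℝ) (k : ℕ) :
    (AddMonoidAlgebra.single v r : AddMonoidAlgebra ℝ V) * (k : AddMonoidAlgebra ℝ V) =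
      AddMonoidAlgebra.single v (r * k) := by
  rw [AddMonoidAlgebra.natCast_def, AddMonoidAlgebra.single_mul_single, add_zero]

theorem binom {V : Type} [AddCommGroup V] (u0 u : V) (j : ℕ) :
    (AddMonoidAlgebra.single u0 (1 / 2 : ℝ) + AddMonoidAlgebra.single u (1 / 2 : ℝ) :
      AddMonoidAlgebra ℝ V) ^ j =
      ∑ l ∈ Finset.range (j + 1), AddMonoidAlgebra.single (l • u + (j - l) • u0)
        ((1 / 2 : ℝ) ^ j * (j.choose l : ℝ)) := by
  rw [add_comm, add_pow]
  refine Finset.sum_congr rfl fun l hl => ?_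
  have hl2 : l ≤ j := Nat.lt_succ_iff.1 (Finset.mem_range.1 hl)
  rw [AddMonoidAlgebra.single_pow, AddMonoidAlgebra.single_pow,
    AddMonoidAlgebra.single_mul_single, single_natCast, ← pow_add, Nat.add_sub_cancel' hl2]

end Bi_aux

open Bi_aux in
/-- products of binomial laws -/
theorem tBi : S_Bi := by
  intro V _ m u0 u hu j y
  classical
  have h1 : (∏ i, (AddMonoidAlgebra.single u0 (1 / 2 : ℝ) +
      AddMonoidAlgebra.single (u i) (1 / 2 : ℝ)) ^ j i : AddMonoidAlgebra ℝ V) =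
      ∑ p ∈ Fintype.piFinset fun i => Finset.range (j i + 1),
        AddMonoidAlgebra.single (∑ i, (p i • u i + (j i - p i) • u0))
          (∏ i, ((1 / 2 : ℝ) ^ j i * ((j i).choose (p i) : ℝ))) := by
    simp only [binom]
    rw [Finset.prod_univ_sum]
    refine Finset.sum_congr rfl fun p _ => ?_
    rw [AddMonoidAlgebra.prod_single]
  have h2 : ∀ p : Fin m → ℕ, ∏ i, ((1 / 2 : ℝ) ^ j i * ((j i).choose (p i) : ℝ)) ≤
      ∏ i, 1 / Real.sqrt ((j i : ℝ) + 1) := fun p =>
    Finset.prod_le_prod (fun i _ => by positivity) fun i _ => choose_div (j i) (p i)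
  have h3 : 0 ≤ ∏ i, 1 / Real.sqrt ((j i : ℝ) + 1) :=
    Finset.prod_nonneg fun i _ => by positivity
  have h4 : ∀ p ∈ (Fintype.piFinset fun i => Finset.range (j i + 1)),
      ∀ p' ∈ (Fintype.piFinset fun i => Finset.range (j i + 1)),
      ∑ i, (p i • u i + (j i - p i) • u0) = y → ∑ i, (p' i • u i + (j i - p' i) • u0) = y →
      p = p' := by
    intro p hp p' hp' he he'
    have hle : ∀ q ∈ (Fintype.piFinset fun i => Finset.range (j i + 1)), ∀ i, q i ≤ j i :=
      fun q hq i => Nat.lt_succ_iff.1 (Finset.mem_range.1 (Fintype.mem_piFinset.1 hq i))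
    have hz : ∀ q ∈ (Fintype.piFinset fun i => Finset.range (j i + 1)),
        ∑ i, (q i • u i + (j i - q i) • u0) =
          ∑ i, (q i : ℤ) • (u i - u0) + ∑ i, (j i : ℤ) • u0 := by
      intro q hq
      rw [← Finset.sum_add_distrib]
      refine Finset.sum_congr rfl fun i _ => ?_
      have h5 : ((j i - q i : ℕ) : ℤ) = (j i : ℤ) - (q i : ℤ) := Nat.cast_sub (hle q hq i)
      rw [← natCast_zsmul, ← natCast_zsmul, h5, smul_sub, sub_smul]
      abel
    have h6 := hu (fun i => (p i : ℤ) - (p' i : ℤ)) (by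
      have h7 : ∑ i, (p i : ℤ) • (u i - u0) = ∑ i, (p' i : ℤ) • (u i - u0) := by
        have h8 := he.trans he'.symm
        rw [hz p hp, hz p' hp'] at h8
        exact add_right_cancel h8
      simp only [sub_smul]
      rw [Finset.sum_sub_distrib, h7, sub_self])
    funext i
    have h9 := congrFun h6 i
    simp only [Pi.zero_apply] at h9
    omega
  rw [h1, AddMonoidAlgebra.coeff_sum, Finsupp.finset_sum_apply]
  simp only [AddMonoidAlgebra.coeff_single_apply]
  rw [← Finset.sum_filter]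
  set S := (Fintype.piFinset fun i => Finset.range (j i + 1)).filter
    (fun p => ∑ i, (p i • u i + (j i - p i) • u0) = y) with hS
  have h5 : S.card ≤ 1 := by
    rw [Finset.card_le_one]
    intro p hp p' hp'
    have hp1 := Finset.mem_filter.1 hp
    have hp2 := Finset.mem_filter.1 hp'
    exact h4 p hp1.1 p' hp2.1 hp1.2 hp2.2
  refine (Finset.sum_le_card_nsmul _ _ _ fun p _ => h2 p).trans ?_
  rw [nsmul_eq_mul]
  have h6 : (S.card : ℝ) ≤ 1 := by exact_mod_cast h5
  calc (S.card : ℝ) * _ ≤ 1 * ∏ i, 1 / Real.sqrt ((j i : ℝ) + 1) :=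
        mul_le_mul_of_nonneg_right h6 h3
    _ = _ := one_mul _

end MP0d3db7NS
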