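import Pool.Agent.Lib.MP_0d3db7.NS.Spec

/-!
# MP_0d3db7_pr, theorem NS, module Ch: the chaos expansion of the second moment
-/

set_option autoImplicit false

namespace MP0d3db7NS

open MeasureTheory ProbabilityTheory Filter Topology

namespace Ch_aux

variable {ι E : Type} [DecidableEq ι] [Fintype E] [DecidableEq E]

theorem cs_nonneg (q : E → ℝ) (hq : ∀ e, 0 ≤ q e) : ∀ (l : List ι) (k : ℕ)
    (F : (ι → E → ℝ) → ℝ), 0 ≤ Cs q l k F := by
  intro l
  induction l with
  | nil =>
    intro k F
    cases k with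
    | zero => exact sq_nonneg _
    | succ k => exact le_rfl
  | cons κ l ih =>
    intro k F
    cases k with
    | zero => exact ih 0 _
    | succ k =>
      exact add_nonneg (ih _ _) (Finset.sum_nonneg fun e _ => mul_nonneg (hq e) (ih _ _))

theorem cs_zero (q : E → ℝ) : ∀ (l : List ι) (F : (ι → E → ℝ) → ℝ),
    Cs q l 0 F = F (fun _ => q) ^ 2 := by
  intro l
  induction l with
  | nil => intro F; rfl
  | cons κ l ih =>
    intro F
    have h1 : Cs q (κ :: l) 0 F = Cs q l 0 (sb F κ q) := rfl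
    rw [h1, ih]
    have h2 : Function.update (fun _ : ι => q) κ q = fun _ => q :=
      Function.update_eq_self (β := fun _ => E → ℝ) κ (fun _ => q)
    show F (Function.update (fun _ : ι => q) κ q) ^ 2 = _
    rw [h2]

/-- the quadratic identity -/
theorem t_quad (lam : ℝ) (q : E → ℝ) (hq : ∑ e, q e = 1) : ∀ (l : List ι)
    (F : E → (ι → E → ℝ) → ℝ),
    ∑ e, q e * T lam q l (F e) = T lam q l (fun w => ∑ e, q e * F e w) +
      ∑ e, q e * T lam q l (fun w => F e w - ∑ a, q a * F a w) := by
  intro l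
  induction l with
  | nil =>
    intro F
    simp only [T]
    generalize hx : (fun e => F e fun _ => q) = x
    have hx' : ∀ e, F e (fun _ => q) = x e := fun e => congrFun hx e
    simp only [hx']
    set m := ∑ a, q a * x a with hm
    have h1 : ∑ e, q e * (x e - m) ^ 2 = ∑ e, q e * x e ^ 2 - 2 * m * ∑ e, q e * x e +
        m ^ 2 * ∑ e, q e := by
      have h2 : ∀ e, q e * (x e - m) ^ 2 =
          q e * x e ^ 2 - 2 * m * (q e * x e) + m ^ 2 * q e := by
        intro e
        ring
      simp only [h2, Finset.sum_add_distrib, Finset.sum_sub_distrib, ← Finset.mul_sum]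
    rw [h1, hq, ← hm]
    ring
  | cons κ l ih =>
    intro F
    have e1 : ∀ (p : E → ℝ), sb (fun w => ∑ e, q e * F e w) κ p =
        fun w => ∑ e, q e * sb (F e) κ p w := fun p => rfl
    have e2 : ∀ (e : E) (p : E → ℝ), sb (fun w => F e w - ∑ a, q a * F a w) κ p =
        fun w => sb (F e) κ p w - ∑ a, q a * sb (F a) κ p w := fun e p => rfl
    simp only [T, e1, e2]
    have h1 := ih (fun e => sb (F e) κ q)
    have h2 : ∀ b, ∑ e, q e * T lam q l (sb (F e) κ (dl b)) =
        T lam q l (fun w => ∑ e, q e * sb (F e) κ (dl b) w) +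
        ∑ e, q e * T lam q l (fun w => sb (F e) κ (dl b) w - ∑ a, q a * sb (F a) κ (dl b) w) :=
      fun b => ih (fun e => sb (F e) κ (dl b))
    have h3 : ∑ e, q e * ((1 - lam) * T lam q l (sb (F e) κ q) +
        lam * ∑ b, q b * T lam q l (sb (F e) κ (dl b))) =
        (1 - lam) * ∑ e, q e * T lam q l (sb (F e) κ q) +
        lam * ∑ b, q b * ∑ e, q e * T lam q l (sb (F e) κ (dl b)) := by
      have h4 : ∑ b, q b * ∑ e, q e * T lam q l (sb (F e) κ (dl b)) =
          ∑ e, q e * ∑ b, q b * T lam q l (sb (F e) κ (dl b)) := by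
        simp only [Finset.mul_sum]
        rw [Finset.sum_comm]
        refine Finset.sum_congr rfl fun e _ => Finset.sum_congr rfl fun b _ => ?_
        ring
      rw [h4, Finset.mul_sum, Finset.mul_sum, ← Finset.sum_add_distrib]
      refine Finset.sum_congr rfl fun e _ => ?_
      ring
    have h5 : ∑ e, q e * ((1 - lam) * T lam q l (fun w => sb (F e) κ q w -
        ∑ a, q a * sb (F a) κ q w) +
        lam * ∑ b, q b * T lam q l (fun w => sb (F e) κ (dl b) w -
          ∑ a, q a * sb (F a) κ (dl b) w)) =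
        (1 - lam) * ∑ e, q e * T lam q l (fun w => sb (F e) κ q w -
          ∑ a, q a * sb (F a) κ q w) +
        lam * ∑ b, q b * ∑ e, q e * T lam q l (fun w => sb (F e) κ (dl b) w -
          ∑ a, q a * sb (F a) κ (dl b) w) := by
      have h4 : ∑ b, q b * ∑ e, q e * T lam q l (fun w => sb (F e) κ (dl b) w -
            ∑ a, q a * sb (F a) κ (dl b) w) =
          ∑ e, q e * ∑ b, q b * T lam q l (fun w => sb (F e) κ (dl b) w -
            ∑ a, q a * sb (F a) κ (dl b) w) := by
        simp only [Finset.mul_sum]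
        rw [Finset.sum_comm]
        refine Finset.sum_congr rfl fun e _ => Finset.sum_congr rfl fun b _ => ?_
        ring
      rw [h4, Finset.mul_sum, Finset.mul_sum, ← Finset.sum_add_distrib]
      refine Finset.sum_congr rfl fun e _ => ?_
      ring
    rw [h3, h5, h1]
    simp only [h2]
    simp only [mul_add, Finset.sum_add_distrib]
    ring

theorem ma_sb {l : List ι} {κ : ι} (hκ : κ ∉ l) {F : (ι → E → ℝ) → ℝ} (h : MA l F)
    (p : E → ℝ) : MA l (sb F κ p) := by
  intro κ' hκ' w p' hp'
  have hne : κ' ≠ κ := by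
    rintro rfl
    exact hκ hκ'
  show F (Function.update (Function.update w κ' p') κ p) =
    ∑ e, p' e * F (Function.update (Function.update w κ' (dl e)) κ p)
  rw [Function.update_comm hne]
  rw [h κ' hκ' (Function.update w κ p) p' hp']
  refine Finset.sum_congr rfl fun e _ => ?_
  rw [Function.update_comm hne]

theorem ma_sub {l : List ι} {F G : (ι → E → ℝ) → ℝ} (h : MA l F) (h' : MA l G) :
    MA l (fun w => F w - G w) := by
  intro κ hκ w p hp
  show F _ - G _ = ∑ e, p e * (F _ - G _)
  rw [h κ hκ w p hp, h' κ hκ w p hp, ← Finset.sum_sub_distrib]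
  refine Finset.sum_congr rfl fun e _ => ?_
  ring

theorem t_sum (lam : ℝ) (q : E → ℝ) (hq : ∑ e, q e = 1) : ∀ (l : List ι)
    (F : (ι → E → ℝ) → ℝ), l.Nodup → MA l F → ∀ n : ℕ, l.length < n →
    T lam q l F = ∑ k ∈ Finset.range n, lam ^ k * Cs q l k F := by
  intro l
  induction l with
  | nil =>
    intro F _ _ n hn
    obtain ⟨n, rfl⟩ : ∃ m, n = m + 1 := ⟨n - 1, by simp at hn; omega⟩
    rw [Finset.sum_range_succ']
    simp [T, Cs]
  | cons κ l ih =>
    intro F hnd hMA n hn
    obtain ⟨n, rfl⟩ : ∃ m, n = m + 1 := ⟨n - 1, by simp at hn; omega⟩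
    have hn' : l.length < n := by simpa using hn
    have hκ : κ ∉ l := (List.nodup_cons.mp hnd).1
    have hnd' : l.Nodup := (List.nodup_cons.mp hnd).2
    have hMA' : MA l F := fun κ' h => hMA κ' (List.mem_cons_of_mem _ h)
    have hS : sb F κ q = fun w => ∑ e, q e * sb F κ (dl e) w := by
      funext w
      exact hMA κ (by simp) w q hq
    have h1 := t_quad lam q hq l (fun e => sb F κ (dl e))
    rw [← hS] at h1
    have h2 : ∀ e, (fun w => sb F κ (dl e) w - ∑ a, q a * sb F κ (dl a) w) =
        fun w => sb F κ (dl e) w - sb F κ q w := by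
      intro e
      funext w
      rw [hS]
    simp only [h2] at h1
    have h3 := ih (sb F κ q) hnd' (ma_sb hκ hMA' q) (n + 1) (by omega)
    have h4 : ∀ e, T lam q l (fun w => sb F κ (dl e) w - sb F κ q w) =
        ∑ k ∈ Finset.range n, lam ^ k * Cs q l k (fun w => sb F κ (dl e) w - sb F κ q w) :=
      fun e => ih _ hnd' (ma_sub (ma_sb hκ hMA' _) (ma_sb hκ hMA' _)) n hn'
    have h5 : T lam q (κ :: l) F = T lam q l (sb F κ q) +
        lam * ∑ e, q e * T lam q l (fun w => sb F κ (dl e) w - sb F κ q w) := by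
      have h6 : T lam q (κ :: l) F = (1 - lam) * T lam q l (sb F κ q) +
        lam * ∑ e, q e * T lam q l (sb F κ (dl e)) := rfl
      rw [h6, h1]
      ring
    rw [h5, h3, Finset.sum_range_succ', Finset.sum_range_succ' (fun k => lam ^ k * Cs q (κ :: l) k F)]
    have h7 : ∑ k ∈ Finset.range n, lam ^ (k + 1) * Cs q (κ :: l) (k + 1) F =
        ∑ k ∈ Finset.range n, lam ^ (k + 1) * Cs q l (k + 1) (sb F κ q) +
        lam * ∑ e, q e * T lam q l (fun w => sb F κ (dl e) w - sb F κ q w) := by
      simp only [h4]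
      have h8 : lam * ∑ e, q e * ∑ k ∈ Finset.range n, lam ^ k *
          Cs q l k (fun w => sb F κ (dl e) w - sb F κ q w) =
          ∑ k ∈ Finset.range n, lam ^ (k + 1) *
            ∑ e, q e * Cs q l k (fun w => sb F κ (dl e) w - sb F κ q w) := by
        simp only [Finset.mul_sum]
        rw [Finset.sum_comm]
        refine Finset.sum_congr rfl fun e _ => Finset.sum_congr rfl fun b _ => ?_
        ring
      rw [h8, ← Finset.sum_add_distrib]
      refine Finset.sum_congr rfl fun k _ => ?_
      have h9 : Cs q (κ :: l) (k + 1) F = Cs q l (k + 1) (sb F κ q) +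
        ∑ e, q e * Cs q l k (fun w => sb F κ (dl e) w - sb F κ q w) := rfl
      rw [h9]
      ring
    rw [h7]
    have h10 : Cs q (κ :: l) 0 F = Cs q l 0 (sb F κ q) := rfl
    rw [h10]
    ring

omit [DecidableEq E] in
theorem pv_update {w : ι → E → ℝ} (hw : ∀ κ, PV (w κ)) (κ : ι) {p : E → ℝ} (hp : PV p) :
    ∀ κ', PV (Function.update w κ p κ') := by
  intro κ'
  by_cases h : κ' = κ
  · subst h
    rw [Function.update_self]
    exact hp
  · rw [Function.update_of_ne h]
    exact hw κ'

theorem pv_dl (e : E) : PV (dl e) := by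
  refine ⟨fun a => ?_, ?_⟩
  · unfold dl
    by_cases h : a = e
    · subst h
      simp
    · rw [Pi.single_eq_of_ne h]
  · unfold dl
    exact Finset.sum_pi_single' e 1 Finset.univ |>.trans (by simp)

theorem t_le_one (lam : ℝ) (h0 : 0 ≤ lam) (h1 : lam ≤ 1) (q : E → ℝ) (hq : PV q) :
    ∀ (l : List ι) (F : (ι → E → ℝ) → ℝ), Bd F → T lam q l F ≤ 1 := by
  intro l
  induction l with
  | nil =>
    intro F hF
    have h2 := hF (fun _ => q) (fun _ => hq)
    have h3 : T lam q ([] : List ι) F = (F fun _ => q) ^ 2 := rfl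
    rw [h3, ← sq_abs]
    nlinarith [abs_nonneg (F fun _ => q)]
  | cons κ l ih =>
    intro F hF
    have hb : ∀ p, PV p → Bd (sb F κ p) := fun p hp w hw => hF _ (pv_update hw κ hp)
    have h2 := ih (sb F κ q) (hb q hq)
    have h3 : ∑ e, q e * T lam q l (sb F κ (dl e)) ≤ ∑ e, q e * 1 :=
      Finset.sum_le_sum fun e _ => mul_le_mul_of_nonneg_left (ih _ (hb _ (pv_dl e))) (hq.1 e)
    simp only [mul_one, hq.2] at h3
    have h4 : T lam q (κ :: l) F = (1 - lam) * T lam q l (sb F κ q) +
        lam * ∑ e, q e * T lam q l (sb F κ (dl e)) := rfl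
    rw [h4]
    nlinarith

end Ch_aux

open Ch_aux in
theorem tCh : S_Ch := by
  intro ι E _ _ _ q lam hq h0 h1 l F hnd hB hMA K
  have hn : l.length < l.length + K + 1 := by omega
  have e1 := t_sum lam q hq.2 l F hnd hMA (l.length + K + 1) hn
  have e2 := t_sum 1 q hq.2 l F hnd hMA (l.length + K + 1) hn
  have e3 := t_le_one 1 zero_le_one le_rfl q hq l F hB
  have hpos : ∀ k, 0 ≤ Cs q l k F := fun k => cs_nonneg q hq.1 l k F
  have hsplit : Finset.range (l.length + K + 1) =
      insert 0 (Finset.Icc 1 K ∪ Finset.Ico (K + 1) (l.length + K + 1)) := by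
    ext k
    simp only [Finset.mem_range, Finset.mem_insert, Finset.mem_union, Finset.mem_Icc,
      Finset.mem_Ico]
    omega
  have hd1 : 0 ∉ Finset.Icc 1 K ∪ Finset.Ico (K + 1) (l.length + K + 1) := by
    simp only [Finset.mem_union, Finset.mem_Icc, Finset.mem_Ico]
    omega
  have hd2 : Disjoint (Finset.Icc 1 K) (Finset.Ico (K + 1) (l.length + K + 1)) := by
    rw [Finset.disjoint_left]
    intro k
    simp only [Finset.mem_Icc, Finset.mem_Ico]
    omega
  rw [hsplit, Finset.sum_insert hd1, Finset.sum_union hd2] at e1 e2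
  simp only [one_pow, one_mul] at e2
  rw [e1, pow_zero, one_mul, cs_zero]
  rw [cs_zero] at e2
  have a1 : ∑ k ∈ Finset.Icc 1 K, lam ^ k * Cs q l k F ≤ ∑ k ∈ Finset.Icc 1 K, Cs q l k F := by
    refine Finset.sum_le_sum fun k _ => ?_
    have := pow_le_one₀ (n := k) h0 h1
    nlinarith [hpos k]
  have a2 : ∑ k ∈ Finset.Ico (K + 1) (l.length + K + 1), lam ^ k * Cs q l k F ≤
      lam ^ (K + 1) * ∑ k ∈ Finset.Ico (K + 1) (l.length + K + 1), Cs q l k F := by
    rw [Finset.mul_sum]
    refine Finset.sum_le_sum fun k hk => ?_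
    refine mul_le_mul_of_nonneg_right ?_ (hpos k)
    exact pow_le_pow_of_le_one h0 h1 (Finset.mem_Ico.mp hk).1
  have a3 : ∑ k ∈ Finset.Ico (K + 1) (l.length + K + 1), Cs q l k F ≤ 1 := by
    have b1 : 0 ≤ ∑ k ∈ Finset.Icc 1 K, Cs q l k F := Finset.sum_nonneg fun k _ => hpos k
    have b2 := sq_nonneg (F fun _ => q)
    linarith
  have a4 : lam ^ (K + 1) * ∑ k ∈ Finset.Ico (K + 1) (l.length + K + 1), Cs q l k F ≤
      lam ^ (K + 1) := by
    have := pow_nonneg h0 (K + 1)
    nlinarith
  linarith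

end MP0d3db7NS
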