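import Pool.Agent.Lib.MP_0d3db7.NS.Spec

/-!
# MP_0d3db7_pr, theorem NS, module Sw: mean and second moment by independence (helper94)
-/

set_option autoImplicit false

namespace MP0d3db7NS

open MeasureTheory ProbabilityTheory Filter Topology

namespace Sw_aux

section

variable {ι E Ω : Type}

theorem pv_le [Fintype E] {p : E → ℝ} (h : PV p) (e : E) : |p e| ≤ 1 := by
  rw [abs_of_nonneg (h.1 e), ← h.2]
  exact Finset.single_le_sum (fun i _ => h.1 i) (Finset.mem_univ e)

theorem pv_dl [Fintype E] [DecidableEq E] (e : E) : PV (dl e) := by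
  refine ⟨fun a => ?_, ?_⟩
  · by_cases h : a = e
    · subst h
      simp [dl]
    · simp [dl, h]
  · simp [dl, Finset.sum_pi_single']

theorem sb_cont [DecidableEq ι] {F : (ι → E → ℝ) → ℝ} (hF : Continuous F) (κ : ι) (p : E → ℝ) :
    Continuous (sb F κ p) :=
  hF.comp (continuous_id.update κ continuous_const)

theorem sb_bd [DecidableEq ι] [Fintype E] {F : (ι → E → ℝ) → ℝ} (hF : Bd F) (κ : ι) {p : E → ℝ}
    (hp : PV p) : Bd (sb F κ p) := by
  intro w hw
  refine hF _ fun κ' => ?_
  by_cases h : κ' = κ
  · subst h
    simpa using hp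
  · rw [Function.update_of_ne h]
    exact hw κ'

theorem sb_ma [DecidableEq ι] [Fintype E] [DecidableEq E] {l : List ι} {F : (ι → E → ℝ) → ℝ}
    (hF : MA l F) (κ : ι) (hκ : κ ∉ l) (p : E → ℝ) : MA l (sb F κ p) := by
  intro κ' hκ' w p' hp'
  have hne : κ' ≠ κ := by
    rintro rfl
    exact hκ hκ'
  simp only [sb]
  rw [Function.update_comm hne, hF κ' hκ' _ p' hp']
  refine Finset.sum_congr rfl fun e _ => ?_
  rw [Function.update_comm hne]

/-- The environment which is random on `l` and constant elsewhere. -/
def W [DecidableEq ι] (ω : ι → Ω → E → ℝ) (q : E → ℝ) (l : List ι) (o : Ω) : ι → E → ℝ :=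
  fun κ => if κ ∈ l then ω κ o else q

theorem W_cons [DecidableEq ι] (ω : ι → Ω → E → ℝ) (q : E → ℝ) (l : List ι) (κ : ι) (o : Ω) :
    W ω q (κ :: l) o = Function.update (W ω q l o) κ (ω κ o) := by
  funext κ'
  by_cases h : κ' = κ
  · subst h
    simp [W]
  · rw [Function.update_of_ne h]
    simp [W, h]

theorem meas_W [DecidableEq ι] [MeasurableSpace Ω] {ω : ι → Ω → E → ℝ}
    (hω : ∀ κ, Measurable (ω κ)) (q : E → ℝ) (l : List ι) : Measurable (W ω q l) := by
  refine measurable_pi_lambda _ fun κ => ?_
  by_cases h : κ ∈ l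
  · simpa [W, h] using hω κ
  · simp [W, h]

theorem indep_W [DecidableEq ι] [MeasurableSpace Ω] {P : Measure Ω} {ω : ι → Ω → E → ℝ}
    (hω : ∀ κ, Measurable (ω κ)) (hi : iIndepFun ω P) (q : E → ℝ) (l : List ι) (κ : ι)
    (hκ : κ ∉ l) : IndepFun (ω κ) (W ω q l) P := by
  have h1 := hi.indepFun_finset {κ} l.toFinset (by simpa using hκ) hω
  let φ : (({κ} : Finset ι) → E → ℝ) → E → ℝ := fun v => v ⟨κ, Finset.mem_singleton_self κ⟩
  let ψ : ({x // x ∈ l.toFinset} → E → ℝ) → ι → E → ℝ :=
    fun v κ' => if h : κ' ∈ l.toFinset then v ⟨κ', h⟩ else q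
  have hφ : Measurable φ := measurable_pi_apply _
  have hψ : Measurable ψ := by
    refine measurable_pi_lambda _ fun κ' => ?_
    by_cases h : κ' ∈ l.toFinset
    · simpa only [ψ, h, dite_true] using
        measurable_pi_apply (X := fun _ : {x // x ∈ l.toFinset} => E → ℝ) ⟨κ', h⟩
    · simpa only [ψ, h, dite_false] using measurable_const
  have h2 := h1.comp hφ hψ
  have h3 : φ ∘ (fun a (i : ({κ} : Finset ι)) => ω i a) = ω κ := rfl
  have h4 : ψ ∘ (fun a (i : {x // x ∈ l.toFinset}) => ω i a) = W ω q l := by
    funext o κ'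
    by_cases h : κ' ∈ l
    · simp [ψ, W, h]
    · simp [ψ, W, h]
  rw [h3, h4] at h2
  exact h2

end

theorem main {ι E Ω : Type} [DecidableEq ι] [Countable ι] [Fintype E] [DecidableEq E]
    [MeasurableSpace Ω] (P : Measure Ω) (ω : ι → Ω → E → ℝ) (q : E → ℝ) (lam : ℝ)
    (hC : Ck P ω q lam) (l : List ι) : ∀ F : (ι → E → ℝ) → ℝ, l.Nodup → Continuous F → Bd F →
    MA l F → ∫ o, F (W ω q l o) ∂P = F (fun _ => q) ∧
      ∫ o, F (W ω q l o) ^ 2 ∂P ≤ T lam q l F := by
  have := hC.prob
  induction l with
  | nil =>
    intro F _ _ _ _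
    have h : ∀ o, W ω q [] o = fun _ => q := fun o => by
      funext κ
      simp [W]
    simp [T, h]
  | cons κ l ih =>
    intro F hnd hcont hbd hma
    have hκ : κ ∉ l := (List.nodup_cons.1 hnd).1
    have hnd' : l.Nodup := (List.nodup_cons.1 hnd).2
    have hma' : MA l F := fun κ' h' => hma κ' (List.mem_cons_of_mem _ h')
    -- the cookie at `κ`
    have mω : ∀ e, Measurable fun o => ω κ o e := fun e => (measurable_pi_apply e).comp (hC.meas κ)
    have iω : ∀ e, Integrable (fun o => ω κ o e) P := fun e =>
      Integrable.of_bound (mω e).aestronglyMeasurable 1 (Eventually.of_forall fun o => by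
        rw [Real.norm_eq_abs]; exact pv_le (hC.pv κ o) e)
    have hq : PV q := by
      refine ⟨fun e => ?_, ?_⟩
      · rw [← hC.mean κ e]
        exact integral_nonneg fun o => (hC.pv κ o).1 e
      · calc ∑ e, q e = ∑ e, ∫ o, ω κ o e ∂P := by simp only [hC.mean κ]
          _ = ∫ o, ∑ e, ω κ o e ∂P := (integral_finsetSum _ fun e _ => iω e).symm
          _ = ∫ o, (1 : ℝ) ∂P := by simp only [(hC.pv κ _).2]
          _ = 1 := by simp
    -- the coefficients
    set c : E → Ω → ℝ := fun e o => sb F κ (dl e) (W ω q l o) with hc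
    have hpvW : ∀ o κ', PV (W ω q l o κ') := by
      intro o κ'
      by_cases h : κ' ∈ l
      · simpa [W, h] using hC.pv κ' o
      · simpa [W, h] using hq
    have mc : ∀ e, Measurable (c e) := fun e =>
      (sb_cont hcont κ (dl e)).measurable.comp (meas_W hC.meas q l)
    have bc : ∀ e o, |c e o| ≤ 1 := fun e o => sb_bd hbd κ (pv_dl e) _ (hpvW o)
    have hF1 : ∀ o, F (W ω q (κ :: l) o) = ∑ e, ω κ o e * c e o := by
      intro o
      rw [W_cons, hma κ List.mem_cons_self _ _ (hC.pv κ o).2]
      rfl
    have hF2 : ∀ o, sb F κ q (W ω q l o) = ∑ e, q e * c e o := by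
      intro o
      simp only [sb, hc]
      rw [hma κ List.mem_cons_self _ _ hq.2]
    have hind : ∀ {f g : _ → ℝ}, Measurable f → Measurable g →
        IndepFun (fun o => f (ω κ o)) (fun o => g (W ω q l o)) P := fun hf hg =>
      (indep_W hC.meas hC.ind q l κ hκ).comp hf hg
    have mw : ∀ e, Measurable fun v : E → ℝ => v e := fun e => measurable_pi_apply e
    have mF : ∀ e, Measurable (sb F κ (dl e)) := fun e => (sb_cont hcont κ (dl e)).measurable
    constructor
    · -- the mean
      have h1 : ∀ e, ∫ o, ω κ o e * c e o ∂P = q e * sb F κ (dl e) (fun _ => q) := by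
        intro e
        rw [IndepFun.integral_fun_mul_eq_mul_integral (hind (mw e) (mF e))
          (mω e).aestronglyMeasurable (mc e).aestronglyMeasurable, hC.mean κ e,
          (ih (sb F κ (dl e)) hnd' (sb_cont hcont κ _) (sb_bd hbd κ (pv_dl e))
            (sb_ma hma' κ hκ _)).1]
      have h2 : ∀ e, Integrable (fun o => ω κ o e * c e o) P := fun e =>
        Integrable.of_bound ((mω e).mul (mc e)).aestronglyMeasurable 1
          (Eventually.of_forall fun o => by
            rw [norm_mul, Real.norm_eq_abs, Real.norm_eq_abs]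
            exact mul_le_one₀ (pv_le (hC.pv κ o) e) (abs_nonneg _) (bc e o))
      simp only [hF1]
      rw [integral_finsetSum _ fun e _ => h2 e]
      simp only [h1]
      have h3 := hma κ List.mem_cons_self (fun _ => q) q hq.2
      rw [Function.update_eq_self_iff.2 rfl] at h3
      rw [h3]
      rfl
    · -- the second moment
      have iωω : ∀ a e, Integrable (fun o => ω κ o a * ω κ o e) P := fun a e =>
        Integrable.of_bound ((mω a).mul (mω e)).aestronglyMeasurable 1
          (Eventually.of_forall fun o => by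
            rw [norm_mul, Real.norm_eq_abs, Real.norm_eq_abs]
            exact mul_le_one₀ (pv_le (hC.pv κ o) a) (abs_nonneg _) (pv_le (hC.pv κ o) e))
      have icc : ∀ a e, Integrable (fun o => c a o * c e o) P := fun a e =>
        Integrable.of_bound ((mc a).mul (mc e)).aestronglyMeasurable 1
          (Eventually.of_forall fun o => by
            rw [norm_mul, Real.norm_eq_abs, Real.norm_eq_abs]
            exact mul_le_one₀ (bc a o) (abs_nonneg _) (bc e o))
      have iall : ∀ a e, Integrable (fun o => (ω κ o a * ω κ o e) * (c a o * c e o)) P :=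
        fun a e => Integrable.of_bound
          (((mω a).mul (mω e)).mul ((mc a).mul (mc e))).aestronglyMeasurable 1
          (Eventually.of_forall fun o => by
            rw [norm_mul, norm_mul, norm_mul, Real.norm_eq_abs, Real.norm_eq_abs,
              Real.norm_eq_abs, Real.norm_eq_abs]
            exact mul_le_one₀ (mul_le_one₀ (pv_le (hC.pv κ o) a) (abs_nonneg _)
              (pv_le (hC.pv κ o) e)) (mul_nonneg (abs_nonneg _) (abs_nonneg _))
              (mul_le_one₀ (bc a o) (abs_nonneg _) (bc e o)))
      have hprod : ∀ a e, ∫ o, (ω κ o a * ω κ o e) * (c a o * c e o) ∂P =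
          (∫ o, ω κ o a * ω κ o e ∂P) * ∫ o, c a o * c e o ∂P := by
        intro a e
        exact IndepFun.integral_fun_mul_eq_mul_integral
          (hind (f := fun v => v a * v e) (g := fun w => sb F κ (dl a) w * sb F κ (dl e) w)
            ((mw a).mul (mw e)) ((mF a).mul (mF e)))
          ((mω a).mul (mω e)).aestronglyMeasurable ((mc a).mul (mc e)).aestronglyMeasurable
      have hsq : ∀ x y : E → ℝ, (∑ e, x e * y e) ^ 2 =
          ∑ a, ∑ e, (x a * x e) * (y a * y e) := by
        intro x y
        rw [sq, Finset.sum_mul_sum]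
        refine Finset.sum_congr rfl fun a _ => Finset.sum_congr rfl fun e _ => ?_
        ring
      have hL : ∫ o, F (W ω q (κ :: l) o) ^ 2 ∂P =
          ∑ a, ∑ e, (∫ o, ω κ o a * ω κ o e ∂P) * ∫ o, c a o * c e o ∂P := by
        simp only [hF1, hsq]
        rw [integral_finsetSum _ fun a _ => integrable_finsetSum _ fun e _ => iall a e]
        refine Finset.sum_congr rfl fun a _ => ?_
        rw [integral_finsetSum _ fun e _ => iall a e]
        exact Finset.sum_congr rfl fun e _ => hprod a e
      have hin : ∀ o, ∫ o', (∑ e, ω κ o' e * c e o) ^ 2 ∂P =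
          ∑ a, ∑ e, (∫ o', ω κ o' a * ω κ o' e ∂P) * (c a o * c e o) := by
        intro o
        simp only [hsq]
        rw [integral_finsetSum _ fun a _ => integrable_finsetSum _ fun e _ =>
          (iωω a e).mul_const _]
        refine Finset.sum_congr rfl fun a _ => ?_
        rw [integral_finsetSum _ fun e _ => (iωω a e).mul_const _]
        exact Finset.sum_congr rfl fun e _ => integral_mul_const _ _
      have hR : ∫ o, (∫ o', (∑ e, ω κ o' e * c e o) ^ 2 ∂P) ∂P =
          ∑ a, ∑ e, (∫ o, ω κ o a * ω κ o e ∂P) * ∫ o, c a o * c e o ∂P := by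
        simp only [hin]
        rw [integral_finsetSum _ fun a _ => integrable_finsetSum _ fun e _ =>
          (icc a e).const_mul _]
        refine Finset.sum_congr rfl fun a _ => ?_
        rw [integral_finsetSum _ fun e _ => (icc a e).const_mul _]
        exact Finset.sum_congr rfl fun e _ => integral_const_mul _ _
      have iin : Integrable (fun o => ∫ o', (∑ e, ω κ o' e * c e o) ^ 2 ∂P) P := by
        simp only [hin]
        exact integrable_finsetSum _ fun a _ => integrable_finsetSum _ fun e _ =>
          (icc a e).const_mul _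
      have isq : ∀ e, Integrable (fun o => c e o ^ 2) P := by
        intro e
        simpa only [sq] using icc e e
      have iq : Integrable (fun o => sb F κ q (W ω q l o) ^ 2) P := by
        simp only [hF2, hsq]
        exact integrable_finsetSum _ fun a _ => integrable_finsetSum _ fun e _ =>
          (icc a e).const_mul _
      have iR : Integrable (fun o => lam * ∑ e, q e * c e o ^ 2 +
          (1 - lam) * sb F κ q (W ω q l o) ^ 2) P :=
        ((integrable_finsetSum _ fun e _ => (isq e).const_mul _).const_mul _).add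
          (iq.const_mul _)
      rw [hL, ← hR]
      calc ∫ o, (∫ o', (∑ e, ω κ o' e * c e o) ^ 2 ∂P) ∂P
          ≤ ∫ o, (lam * ∑ e, q e * c e o ^ 2 + (1 - lam) * sb F κ q (W ω q l o) ^ 2) ∂P := by
            refine integral_mono iin iR fun o => ?_
            have h1 := hC.dom κ (fun e => c e o)
            rw [← hF2 o] at h1
            exact h1
        _ = lam * ∑ e, q e * ∫ o, c e o ^ 2 ∂P +
            (1 - lam) * ∫ o, sb F κ q (W ω q l o) ^ 2 ∂P := by
            rw [integral_add ((integrable_finsetSum _ fun e _ =>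
              (isq e).const_mul _).const_mul _) (iq.const_mul _), integral_const_mul,
              integral_const_mul, integral_finsetSum _ fun e _ => (isq e).const_mul _]
            simp only [integral_const_mul]
        _ ≤ lam * ∑ e, q e * T lam q l (sb F κ (dl e)) +
            (1 - lam) * T lam q l (sb F κ q) := by
            refine add_le_add (mul_le_mul_of_nonneg_left (Finset.sum_le_sum fun e _ =>
              mul_le_mul_of_nonneg_left ?_ (hq.1 e)) hC.lam0)
              (mul_le_mul_of_nonneg_left ?_ (by linarith [hC.lam1]))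
            · exact (ih (sb F κ (dl e)) hnd' (sb_cont hcont κ _) (sb_bd hbd κ (pv_dl e))
                (sb_ma hma' κ hκ _)).2
            · exact (ih (sb F κ q) hnd' (sb_cont hcont κ _) (sb_bd hbd κ hq)
                (sb_ma hma' κ hκ _)).2
        _ = T lam q (κ :: l) F := by
            simp only [T]
            ring

end Sw_aux

theorem tSw : S_Sw := by
  intro ι E Ω _ _ _ _ _ P ω q lam hC l F hnd hcont hbd hma
  exact Sw_aux.main P ω q lam hC l F hnd hcont hbd hma

end MP0d3db7NS
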