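import Pool.Agent.Lib.MP_0d3db7.NS.Spec2
import Pool.Agent.Lib.MP_0d3db7.NS.Sw
import Pool.Agent.Lib.MP_0d3db7.NS.Ch

/-!
# MP_0d3db7_pr, theorem NS2, module Bo: fourth moment of the part of low order, second moment of the rest
-/

set_option autoImplicit false

namespace MP0d3db7NS

open MeasureTheory ProbabilityTheory Filter Topology

namespace Bo_aux

/-! ### bounded measurable functions -/

section bm

variable {Ω Y : Type} [MeasurableSpace Y]

/-- measurable, and bounded on the range of `W` -/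
def BW (W : Ω → Y) (g : Y → ℝ) : Prop := Measurable g ∧ ∃ C : ℝ, ∀ o, |g (W o)| ≤ C

variable {W : Ω → Y}

theorem BW.add {f g : Y → ℝ} (hf : BW W f) (hg : BW W g) : BW W fun y => f y + g y := by
  obtain ⟨C, hC⟩ := hf.2
  obtain ⟨D, hD⟩ := hg.2
  exact ⟨hf.1.add hg.1, C + D, fun o => (abs_add_le _ _).trans (add_le_add (hC o) (hD o))⟩

theorem BW.sub {f g : Y → ℝ} (hf : BW W f) (hg : BW W g) : BW W fun y => f y - g y := by
  obtain ⟨C, hC⟩ := hf.2
  obtain ⟨D, hD⟩ := hg.2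
  exact ⟨hf.1.sub hg.1, C + D, fun o => (abs_sub _ _).trans (add_le_add (hC o) (hD o))⟩

theorem BW.mul {f g : Y → ℝ} (hf : BW W f) (hg : BW W g) : BW W fun y => f y * g y := by
  obtain ⟨C, hC⟩ := hf.2
  obtain ⟨D, hD⟩ := hg.2
  refine ⟨hf.1.mul hg.1, C * D, fun o => ?_⟩
  rw [abs_mul]
  exact mul_le_mul (hC o) (hD o) (abs_nonneg _) ((abs_nonneg _).trans (hC o))

theorem BW.const (c : ℝ) : BW W fun _ => c := ⟨measurable_const, |c|, fun _ => le_rfl⟩

theorem BW.pow {f : Y → ℝ} (hf : BW W f) (n : ℕ) : BW W fun y => f y ^ n := by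
  induction n with
  | zero => simpa using BW.const (W := W) 1
  | succ n ih => simpa only [pow_succ] using ih.mul hf

theorem BW.sum {E : Type} [Fintype E] {f : E → Y → ℝ} (hf : ∀ e, BW W (f e)) :
    BW W fun y => ∑ e, f e y := by
  choose h1 C hC using hf
  exact ⟨Finset.measurable_fun_sum _ fun e _ => h1 e, ∑ e, C e, fun o =>
    (Finset.abs_sum_le_sum_abs _ _).trans (Finset.sum_le_sum fun e _ => hC e o)⟩

end bm

/-! ### one step -/

section step

variable {E Ω Y : Type} [Fintype E] [MeasurableSpace Ω] [MeasurableSpace Y]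

/-- a new random vector which is independent of `W` -/
structure St (P : Measure Ω) (X : Ω → E → ℝ) (q : E → ℝ) (lam : ℝ) (W : Ω → Y) : Prop where
  prob : IsProbabilityMeasure P
  mX : Measurable X
  pvX : ∀ o, PV (X o)
  mW : Measurable W
  ind : IndepFun X W P
  mean : ∀ e, ∫ o, X o e ∂P = q e
  dom : ∀ c : E → ℝ, ∫ o, (∑ e, X o e * c e) ^ 2 ∂P ≤
    lam * ∑ e, q e * c e ^ 2 + (1 - lam) * (∑ e, q e * c e) ^ 2

variable {P : Measure Ω} {X : Ω → E → ℝ} {q : E → ℝ} {lam : ℝ} {W : Ω → Y}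

theorem St.mXe (h : St P X q lam W) (e : E) : Measurable fun o => X o e :=
  (measurable_pi_apply e).comp h.mX

theorem St.int (h : St P X q lam W) {g : Y → ℝ} (hg : BW W g) : Integrable (fun o => g (W o)) P := by
  have := h.prob
  obtain ⟨C, hC⟩ := hg.2
  exact Integrable.of_bound (hg.1.comp h.mW).aestronglyMeasurable C
    (Eventually.of_forall fun o => by rw [Real.norm_eq_abs]; exact hC o)

theorem St.intX (h : St P X q lam W) {g : Y → ℝ} (hg : BW W g) (e : E) :
    Integrable (fun o => X o e * g (W o)) P := by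
  have := h.prob
  obtain ⟨C, hC⟩ := hg.2
  refine Integrable.of_bound ((h.mXe e).mul (hg.1.comp h.mW)).aestronglyMeasurable (1 * C)
    (Eventually.of_forall fun o => ?_)
  rw [Real.norm_eq_abs, abs_mul]
  exact mul_le_mul (Sw_aux.pv_le (h.pvX o) e) (hC o) (abs_nonneg _) zero_le_one

theorem St.q0 (h : St P X q lam W) (e : E) : 0 ≤ q e := by
  rw [← h.mean e]
  exact integral_nonneg fun o => (h.pvX o).1 e

/-- the mean of a product -/
theorem St.mul (h : St P X q lam W) {g : Y → ℝ} (hg : BW W g) (e : E) :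
    ∫ o, X o e * g (W o) ∂P = q e * ∫ o, g (W o) ∂P := by
  have h1 : IndepFun (fun o => X o e) (fun o => g (W o)) P :=
    h.ind.comp (measurable_pi_apply e) hg.1
  rw [IndepFun.integral_fun_mul_eq_mul_integral h1 (h.mXe e).aestronglyMeasurable
    (hg.1.comp h.mW).aestronglyMeasurable, h.mean e]

/-- the mean of a sum -/
theorem St.sum (h : St P X q lam W) {g : E → Y → ℝ} (hg : ∀ e, BW W (g e)) :
    ∫ o, ∑ e, X o e * g e (W o) ∂P = ∑ e, q e * ∫ o, g e (W o) ∂P := by
  rw [integral_finsetSum _ fun e _ => h.intX (hg e) e]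
  exact Finset.sum_congr rfl fun e _ => h.mul (hg e) e

theorem St.intS (h : St P X q lam W) {g : E → Y → ℝ} (hg : ∀ e, BW W (g e)) :
    Integrable (fun o => ∑ e, X o e * g e (W o)) P :=
  integrable_finsetSum _ fun e _ => h.intX (hg e) e

/-- orthogonality -/
theorem St.orth (h : St P X q lam W) {f : Y → ℝ} {g : E → Y → ℝ} (hf : BW W f)
    (hg : ∀ e, BW W (g e)) (h0 : ∀ o, ∑ e, q e * g e (W o) = 0) :
    ∑ e, q e * ∫ o, f (W o) * g e (W o) ∂P = 0 := by
  have h1 : ∑ e, q e * ∫ o, f (W o) * g e (W o) ∂P =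
      ∫ o, f (W o) * ∑ e, q e * g e (W o) ∂P := by
    have h2 : ∀ o, f (W o) * ∑ e, q e * g e (W o) = ∑ e, q e * (f (W o) * g e (W o)) := by
      intro o
      rw [Finset.mul_sum]
      exact Finset.sum_congr rfl fun e _ => by ring
    simp only [h2]
    rw [integral_finsetSum _ fun e _ => (h.int (hf.mul (hg e))).const_mul _]
    exact Finset.sum_congr rfl fun e _ => (integral_const_mul _ _).symm
  rw [h1]
  simp [h0]

/-- the second moment of the new term -/
theorem St.two0 (h : St P X q lam W) {g : E → Y → ℝ} (hg : ∀ e, BW W (g e))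
    (h0 : ∀ o, ∑ e, q e * g e (W o) = 0) :
    ∫ o, (∑ e, X o e * g e (W o)) ^ 2 ∂P ≤ lam * ∑ e, q e * ∫ o, g e (W o) ^ 2 ∂P := by
  have := h.prob
  have hsq : ∀ x y : E → ℝ, (∑ e, x e * y e) ^ 2 = ∑ a, ∑ e, (x a * x e) * (y a * y e) := by
    intro x y
    rw [sq, Finset.sum_mul_sum]
    refine Finset.sum_congr rfl fun a _ => Finset.sum_congr rfl fun e _ => ?_
    ring
  have iXX : ∀ a e, Integrable (fun o => X o a * X o e) P := fun a e =>
    Integrable.of_bound ((h.mXe a).mul (h.mXe e)).aestronglyMeasurable 1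
      (Eventually.of_forall fun o => by
        rw [norm_mul, Real.norm_eq_abs, Real.norm_eq_abs]
        exact mul_le_one₀ (Sw_aux.pv_le (h.pvX o) a) (abs_nonneg _) (Sw_aux.pv_le (h.pvX o) e))
  have hgg : ∀ a e, BW W fun y => g a y * g e y := fun a e => (hg a).mul (hg e)
  have iall : ∀ a e, Integrable (fun o => (X o a * X o e) * (g a (W o) * g e (W o))) P := by
    intro a e
    obtain ⟨C, hC⟩ := (hgg a e).2
    refine Integrable.of_bound (((h.mXe a).mul (h.mXe e)).mul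
      ((hgg a e).1.comp h.mW)).aestronglyMeasurable (1 * C) (Eventually.of_forall fun o => ?_)
    rw [Real.norm_eq_abs, abs_mul]
    refine mul_le_mul ?_ (hC o) (abs_nonneg _) zero_le_one
    rw [abs_mul]
    exact mul_le_one₀ (Sw_aux.pv_le (h.pvX o) a) (abs_nonneg _) (Sw_aux.pv_le (h.pvX o) e)
  have hprod : ∀ a e, ∫ o, (X o a * X o e) * (g a (W o) * g e (W o)) ∂P =
      (∫ o, X o a * X o e ∂P) * ∫ o, g a (W o) * g e (W o) ∂P := by
    intro a e
    have h1 : IndepFun (fun o => X o a * X o e) (fun o => g a (W o) * g e (W o)) P :=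
      h.ind.comp (φ := fun v : E → ℝ => v a * v e) (ψ := fun y => g a y * g e y)
        ((measurable_pi_apply a).mul (measurable_pi_apply e)) (hgg a e).1
    exact IndepFun.integral_fun_mul_eq_mul_integral h1
      ((h.mXe a).mul (h.mXe e)).aestronglyMeasurable
      ((hgg a e).1.comp h.mW).aestronglyMeasurable
  have hL : ∫ o, (∑ e, X o e * g e (W o)) ^ 2 ∂P =
      ∑ a, ∑ e, (∫ o, X o a * X o e ∂P) * ∫ o, g a (W o) * g e (W o) ∂P := by
    simp only [hsq]
    rw [integral_finsetSum _ fun a _ => integrable_finsetSum _ fun e _ => iall a e]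
    refine Finset.sum_congr rfl fun a _ => ?_
    rw [integral_finsetSum _ fun e _ => iall a e]
    exact Finset.sum_congr rfl fun e _ => hprod a e
  have hin : ∀ o, ∫ o', (∑ e, X o' e * g e (W o)) ^ 2 ∂P =
      ∑ a, ∑ e, (∫ o', X o' a * X o' e ∂P) * (g a (W o) * g e (W o)) := by
    intro o
    simp only [hsq]
    rw [integral_finsetSum _ fun a _ => integrable_finsetSum _ fun e _ =>
      (iXX a e).mul_const _]
    refine Finset.sum_congr rfl fun a _ => ?_
    rw [integral_finsetSum _ fun e _ => (iXX a e).mul_const _]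
    exact Finset.sum_congr rfl fun e _ => integral_mul_const _ _
  have hR : ∫ o, (∫ o', (∑ e, X o' e * g e (W o)) ^ 2 ∂P) ∂P =
      ∑ a, ∑ e, (∫ o, X o a * X o e ∂P) * ∫ o, g a (W o) * g e (W o) ∂P := by
    simp only [hin]
    rw [integral_finsetSum _ fun a _ => integrable_finsetSum _ fun e _ =>
      (h.int (hgg a e)).const_mul _]
    refine Finset.sum_congr rfl fun a _ => ?_
    rw [integral_finsetSum _ fun e _ => (h.int (hgg a e)).const_mul _]
    exact Finset.sum_congr rfl fun e _ => integral_const_mul _ _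
  have iin : Integrable (fun o => ∫ o', (∑ e, X o' e * g e (W o)) ^ 2 ∂P) P := by
    simp only [hin]
    exact integrable_finsetSum _ fun a _ => integrable_finsetSum _ fun e _ =>
      (h.int (hgg a e)).const_mul _
  have iR : Integrable (fun o => lam * ∑ e, q e * g e (W o) ^ 2) P :=
    (integrable_finsetSum _ fun e _ => (h.int ((hg e).pow 2)).const_mul _).const_mul _
  rw [hL, ← hR]
  calc ∫ o, (∫ o', (∑ e, X o' e * g e (W o)) ^ 2 ∂P) ∂P
      ≤ ∫ o, (lam * ∑ e, q e * g e (W o) ^ 2) ∂P := by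
        refine integral_mono iin iR fun o => ?_
        have h1 := h.dom (fun e => g e (W o))
        rw [h0 o] at h1
        simpa using h1
    _ = lam * ∑ e, q e * ∫ o, g e (W o) ^ 2 ∂P := by
        rw [integral_const_mul, integral_finsetSum _ fun e _ =>
          (h.int ((hg e).pow 2)).const_mul _]
        simp only [integral_const_mul]

/-- the second moment -/
theorem St.two (h : St P X q lam W) {f : Y → ℝ} {g : E → Y → ℝ} (hf : BW W f)
    (hg : ∀ e, BW W (g e)) (h0 : ∀ o, ∑ e, q e * g e (W o) = 0) :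
    ∫ o, (f (W o) + ∑ e, X o e * g e (W o)) ^ 2 ∂P ≤
      ∫ o, f (W o) ^ 2 ∂P + lam * ∑ e, q e * ∫ o, g e (W o) ^ 2 ∂P := by
  have := h.prob
  have hfg : ∀ e, BW W fun y => f y * g e y := fun e => hf.mul (hg e)
  have e1 : ∀ o, (f (W o) + ∑ e, X o e * g e (W o)) ^ 2 =
      f (W o) ^ 2 + 2 * ∑ e, X o e * (f (W o) * g e (W o)) +
        (∑ e, X o e * g e (W o)) ^ 2 := by
    intro o
    have h1 : ∑ e, X o e * (f (W o) * g e (W o)) = f (W o) * ∑ e, X o e * g e (W o) := by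
      rw [Finset.mul_sum]
      exact Finset.sum_congr rfl fun e _ => by ring
    rw [h1]
    ring
  have i1 := h.int (hf.pow 2)
  have i2 : Integrable (fun o => 2 * ∑ e, X o e * (f (W o) * g e (W o))) P :=
    (h.intS hfg).const_mul 2
  have i3 : Integrable (fun o => (∑ e, X o e * g e (W o)) ^ 2) P := by
    choose m C hC using hg
    refine Integrable.of_bound ((Finset.measurable_fun_sum _ fun e _ =>
      (h.mXe e).mul ((m e).comp h.mW)).pow_const 2).aestronglyMeasurable ((∑ e, 1 * C e) ^ 2)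
      (Eventually.of_forall fun o => ?_)
    rw [Real.norm_eq_abs, abs_pow]
    refine pow_le_pow_left₀ (abs_nonneg _) ((Finset.abs_sum_le_sum_abs _ _).trans
      (Finset.sum_le_sum fun e _ => ?_)) 2
    rw [abs_mul]
    exact mul_le_mul (Sw_aux.pv_le (h.pvX o) e) (hC e o) (abs_nonneg _) zero_le_one
  have i12 : Integrable (fun o => f (W o) ^ 2 + 2 * ∑ e, X o e * (f (W o) * g e (W o))) P :=
    i1.add i2
  simp only [e1]
  rw [integral_add i12 i3, integral_add i1 i2, integral_const_mul, h.sum hfg,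
    h.orth hf hg h0]
  have h2 := h.two0 hg h0
  linarith

/-- convexity -/
theorem jensen {p x : E → ℝ} (hp : PV p) : (∑ e, p e * x e) ^ 2 ≤ ∑ e, p e * x e ^ 2 := by
  have h1 : 0 ≤ ∑ e, p e * (x e - ∑ a, p a * x a) ^ 2 :=
    Finset.sum_nonneg fun e _ => mul_nonneg (hp.1 e) (sq_nonneg _)
  have h2 : ∑ e, p e * (x e - ∑ a, p a * x a) ^ 2 =
      ∑ e, p e * x e ^ 2 - 2 * (∑ a, p a * x a) * ∑ e, p e * x e +
        (∑ a, p a * x a) ^ 2 * ∑ e, p e := by
    have h3 : ∀ e, p e * (x e - ∑ a, p a * x a) ^ 2 =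
        p e * x e ^ 2 - 2 * (∑ a, p a * x a) * (p e * x e) + (∑ a, p a * x a) ^ 2 * p e := by
      intro e
      ring
    simp only [h3, Finset.sum_add_distrib, Finset.sum_sub_distrib, ← Finset.mul_sum]
  rw [h2, hp.2] at h1
  nlinarith

theorem jensen4 {p x : E → ℝ} (hp : PV p) : (∑ e, p e * x e) ^ 4 ≤ ∑ e, p e * x e ^ 4 := by
  have h1 := jensen (x := x) hp
  have h2 := jensen (x := fun e => x e ^ 2) hp
  have h3 : (∑ e, p e * x e) ^ 4 = ((∑ e, p e * x e) ^ 2) ^ 2 := by ring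
  have h4 : ∀ e, p e * (x e ^ 2) ^ 2 = p e * x e ^ 4 := fun e => by ring
  simp only [h4] at h2
  rw [h3]
  exact (pow_le_pow_left₀ (sq_nonneg _) h1 2).trans h2

/-- the fourth moment -/
theorem St.four (h : St P X q lam W) {f : Y → ℝ} {g : E → Y → ℝ} (hf : BW W f)
    (hg : ∀ e, BW W (g e)) (h0 : ∀ o, ∑ e, q e * g e (W o) = 0) :
    ∫ o, (f (W o) + ∑ e, X o e * g e (W o)) ^ 4 ∂P ≤
      ∫ o, f (W o) ^ 4 ∂P + 8 * ∑ e, q e * ∫ o, f (W o) ^ 2 * g e (W o) ^ 2 ∂P +
        3 * ∑ e, q e * ∫ o, g e (W o) ^ 4 ∂P := by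
  have := h.prob
  have h1 : ∀ e, BW W fun y => f y ^ 3 * g e y := fun e => (hf.pow 3).mul (hg e)
  have h2 : ∀ e, BW W fun y => f y ^ 2 * g e y ^ 2 := fun e => (hf.pow 2).mul ((hg e).pow 2)
  have h3 : ∀ e, BW W fun y => g e y ^ 4 := fun e => (hg e).pow 4
  have i0 := h.int (hf.pow 4)
  have i1 := (h.intS h1).const_mul 4
  have i2 := (h.intS h2).const_mul 8
  have i3 := (h.intS h3).const_mul 3
  have hpt : ∀ o, (f (W o) + ∑ e, X o e * g e (W o)) ^ 4 ≤ f (W o) ^ 4 +
      4 * ∑ e, X o e * (f (W o) ^ 3 * g e (W o)) +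
      8 * ∑ e, X o e * (f (W o) ^ 2 * g e (W o) ^ 2) + 3 * ∑ e, X o e * g e (W o) ^ 4 := by
    intro o
    have a1 : ∑ e, X o e * (f (W o) ^ 3 * g e (W o)) =
        f (W o) ^ 3 * ∑ e, X o e * g e (W o) := by
      rw [Finset.mul_sum]
      exact Finset.sum_congr rfl fun e _ => by ring
    have a2 : ∑ e, X o e * (f (W o) ^ 2 * g e (W o) ^ 2) =
        f (W o) ^ 2 * ∑ e, X o e * g e (W o) ^ 2 := by
      rw [Finset.mul_sum]
      exact Finset.sum_congr rfl fun e _ => by ring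
    have a3 := jensen (x := fun e => g e (W o)) (h.pvX o)
    have a4 := jensen4 (x := fun e => g e (W o)) (h.pvX o)
    rw [a1, a2]
    set R := f (W o)
    set S := ∑ e, X o e * g e (W o)
    have a5 : R ^ 2 * S ^ 2 ≤ R ^ 2 * ∑ e, X o e * g e (W o) ^ 2 :=
      mul_le_mul_of_nonneg_left a3 (sq_nonneg _)
    have a6 : 0 ≤ 2 * (S * (R - S)) ^ 2 := by positivity
    have a7 : (R + S) ^ 4 = R ^ 4 + 4 * (R ^ 3 * S) + 8 * (R ^ 2 * S ^ 2) + 3 * S ^ 4 -
        2 * (S * (R - S)) ^ 2 := by ring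
    linarith
  have i4 : Integrable (fun o => (f (W o) + ∑ e, X o e * g e (W o)) ^ 4) P := by
    obtain ⟨D, hD⟩ := hf.2
    choose m C hC using hg
    refine Integrable.of_bound (((hf.1.comp h.mW).add (Finset.measurable_fun_sum _ fun e _ =>
      (h.mXe e).mul ((m e).comp h.mW))).pow_const 4).aestronglyMeasurable
      ((D + ∑ e, 1 * C e) ^ 4) (Eventually.of_forall fun o => ?_)
    rw [Real.norm_eq_abs, abs_pow]
    refine pow_le_pow_left₀ (abs_nonneg _) ((abs_add_le _ _).trans (add_le_add (hD o)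
      ((Finset.abs_sum_le_sum_abs _ _).trans (Finset.sum_le_sum fun e _ => ?_)))) 4
    rw [abs_mul]
    exact mul_le_mul (Sw_aux.pv_le (h.pvX o) e) (hC e o) (abs_nonneg _) zero_le_one
  have i5 : Integrable (fun o => f (W o) ^ 4 +
      4 * ∑ e, X o e * (f (W o) ^ 3 * g e (W o))) P := i0.add i1
  have i6 : Integrable (fun o => f (W o) ^ 4 +
      4 * ∑ e, X o e * (f (W o) ^ 3 * g e (W o)) +
      8 * ∑ e, X o e * (f (W o) ^ 2 * g e (W o) ^ 2)) P := i5.add i2
  have i7 : Integrable (fun o => f (W o) ^ 4 +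
      4 * ∑ e, X o e * (f (W o) ^ 3 * g e (W o)) +
      8 * ∑ e, X o e * (f (W o) ^ 2 * g e (W o) ^ 2) + 3 * ∑ e, X o e * g e (W o) ^ 4) P :=
    i6.add i3
  refine (integral_mono i4 i7 hpt).trans (le_of_eq ?_)
  rw [integral_add i6 i3, integral_add i5 i2, integral_add i0 i1, integral_const_mul,
    integral_const_mul, integral_const_mul, h.sum h1, h.sum h2, h.sum h3,
    h.orth (hf.pow 3) hg h0]
  ring

/-- Cauchy and Schwarz -/
theorem St.cs (h : St P X q lam W) {f g : Y → ℝ} (hf : BW W f) (hg : BW W g) {a b : ℝ}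
    (ha : 0 ≤ a) (hb : 0 ≤ b) (h1 : ∫ o, f (W o) ^ 4 ∂P ≤ a ^ 2)
    (h2 : ∫ o, g (W o) ^ 4 ∂P ≤ b ^ 2) : ∫ o, f (W o) ^ 2 * g (W o) ^ 2 ∂P ≤ a * b := by
  have := h.prob
  have hfg : BW W fun y => f y ^ 2 * g y ^ 2 := (hf.pow 2).mul (hg.pow 2)
  have i0 := h.int (hf.pow 4)
  have i1 := h.int (hg.pow 4)
  have i2 := h.int hfg
  set A := ∫ o, f (W o) ^ 4 ∂P with hA
  set D := ∫ o, g (W o) ^ 4 ∂P with hD
  set M := ∫ o, f (W o) ^ 2 * g (W o) ^ 2 ∂P with hM
  have hq : ∀ t : ℝ, 0 ≤ A * (t * t) + (-(2 * M)) * t + D := by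
    intro t
    have e1 : ∫ o, (t * f (W o) ^ 2 - g (W o) ^ 2) ^ 2 ∂P = A * (t * t) + (-(2 * M)) * t + D := by
      have e2 : ∀ o, (t * f (W o) ^ 2 - g (W o) ^ 2) ^ 2 =
          (t * t) * f (W o) ^ 4 + (-(2 * t)) * (f (W o) ^ 2 * g (W o) ^ 2) + g (W o) ^ 4 := by
        intro o
        ring
      have j1 : Integrable (fun o => (t * t) * f (W o) ^ 4) P := i0.const_mul _
      have j2 : Integrable (fun o => (-(2 * t)) * (f (W o) ^ 2 * g (W o) ^ 2)) P :=
        i2.const_mul _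
      have j3 : Integrable (fun o => (t * t) * f (W o) ^ 4 +
        (-(2 * t)) * (f (W o) ^ 2 * g (W o) ^ 2)) P := j1.add j2
      simp only [e2]
      rw [integral_add j3 i1, integral_add j1 j2, integral_const_mul, integral_const_mul]
      ring
    rw [← e1]
    exact integral_nonneg fun o => sq_nonneg _
  have hd := discrim_le_zero hq
  unfold discrim at hd
  have hA0 : 0 ≤ A := integral_nonneg fun o => by positivity
  have hD0 : 0 ≤ D := integral_nonneg fun o => by positivity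
  have h3 : M ^ 2 ≤ (a * b) ^ 2 := by
    have h4 : A * D ≤ a ^ 2 * b ^ 2 := mul_le_mul h1 h2 hD0 (sq_nonneg _)
    nlinarith
  exact (abs_le_of_sq_le_sq' h3 (mul_nonneg ha hb)).2

end step

/-! ### the part of low order -/

section low

variable {ι E : Type} [DecidableEq ι] [Fintype E] [DecidableEq E]

theorem Pj_cont (q : E → ℝ) (l : List ι) : ∀ (K : ℕ) (F : (ι → E → ℝ) → ℝ),
    Continuous (Pj q l K F) := by
  induction l with
  | nil =>
    intro K F
    simp only [Pj]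
    exact continuous_const
  | cons κ l ih =>
    intro K F
    cases K with
    | zero =>
      simp only [Pj]
      exact continuous_const
    | succ K =>
      simp only [Pj]
      exact (ih _ _).add (continuous_finsetSum _ fun e _ =>
        (continuous_apply_apply κ e).mul (ih _ _))

theorem Pj_dep (q : E → ℝ) (l : List ι) : ∀ (K : ℕ) (F : (ι → E → ℝ) → ℝ) (w w' : ι → E → ℝ),
    (∀ κ ∈ l, w κ = w' κ) → Pj q l K F w = Pj q l K F w' := by
  induction l with
  | nil =>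
    intro K F w w' _
    simp only [Pj]
  | cons κ l ih =>
    intro K F w w' h
    cases K with
    | zero => simp only [Pj]
    | succ K =>
      have h1 : ∀ κ' ∈ l, w κ' = w' κ' := fun κ' h' => h κ' (List.mem_cons_of_mem _ h')
      simp only [Pj]
      rw [ih _ _ w w' h1, h κ List.mem_cons_self]
      congr 1
      exact Finset.sum_congr rfl fun e _ => by rw [ih _ _ w w' h1]

theorem Pj_lin (q : E → ℝ) (p : E → ℝ) (l : List ι) : ∀ (K : ℕ)
    (G : E → (ι → E → ℝ) → ℝ) (w : ι → E → ℝ),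
    Pj q l K (fun w => ∑ e, p e * G e w) w = ∑ e, p e * Pj q l K (G e) w := by
  induction l with
  | nil =>
    intro K G w
    simp only [Pj]
  | cons κ l ih =>
    intro K G w
    cases K with
    | zero => simp only [Pj]
    | succ K =>
      have h1 : Pj q l (K + 1) (sb (fun w => ∑ e, p e * G e w) κ q) w =
          ∑ e, p e * Pj q l (K + 1) (sb (G e) κ q) w := ih (K + 1) (fun e => sb (G e) κ q) w
      have h2 : ∀ a, (fun w' => sb (fun w => ∑ e, p e * G e w) κ (dl a) w' -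
          sb (fun w => ∑ e, p e * G e w) κ q w') =
          fun w' => ∑ e, p e * (sb (G e) κ (dl a) w' - sb (G e) κ q w') := by
        intro a
        funext w'
        simp only [sb]
        rw [← Finset.sum_sub_distrib]
        exact Finset.sum_congr rfl fun e _ => by ring
      have h3 : ∀ a, Pj q l K (fun w' => sb (fun w => ∑ e, p e * G e w) κ (dl a) w' -
          sb (fun w => ∑ e, p e * G e w) κ q w') w =
          ∑ e, p e * Pj q l K (fun w' => sb (G e) κ (dl a) w' - sb (G e) κ q w') w := by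
        intro a
        rw [h2 a]
        exact ih K (fun e w' => sb (G e) κ (dl a) w' - sb (G e) κ q w') w
      simp only [Pj]
      rw [h1]
      simp only [h3, mul_add, Finset.sum_add_distrib, Finset.mul_sum]
      congr 1
      rw [Finset.sum_comm]
      refine Finset.sum_congr rfl fun e _ => Finset.sum_congr rfl fun a _ => ?_
      ring

theorem Pj_zero (q : E → ℝ) (l : List ι) (K : ℕ) (w : ι → E → ℝ) :
    Pj q l K (fun _ => 0) w = 0 := by
  have h := Pj_lin q (fun _ => 0) l K (fun _ _ => 0) w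
  simpa using h

theorem Pj_bd (q : E → ℝ) (l : List ι) : ∀ (K : ℕ) (F : (ι → E → ℝ) → ℝ), ∃ C : ℝ,
    ∀ w : ι → E → ℝ, (∀ κ ∈ l, PV (w κ)) → |Pj q l K F w| ≤ C := by
  induction l with
  | nil =>
    intro K F
    refine ⟨|F fun _ => q|, fun w _ => ?_⟩
    simp only [Pj]
    exact le_rfl
  | cons κ l ih =>
    intro K F
    cases K with
    | zero =>
      refine ⟨|F fun _ => q|, fun w _ => ?_⟩
      simp only [Pj]
      exact le_rfl
    | succ K =>
      obtain ⟨C, hC⟩ := ih (K + 1) (sb F κ q)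
      choose D hD using fun e => ih K (fun w' => sb F κ (dl e) w' - sb F κ q w')
      refine ⟨C + ∑ e, 1 * D e, fun w hw => ?_⟩
      have h1 : ∀ κ' ∈ l, PV (w κ') := fun κ' h' => hw κ' (List.mem_cons_of_mem _ h')
      simp only [Pj]
      refine (abs_add_le _ _).trans (add_le_add (hC w h1)
        ((Finset.abs_sum_le_sum_abs _ _).trans (Finset.sum_le_sum fun e _ => ?_)))
      rw [abs_mul]
      exact mul_le_mul (Sw_aux.pv_le (hw κ List.mem_cons_self) e) (hD e w h1) (abs_nonneg _)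
        zero_le_one

/-- the difference -/
def Df (q : E → ℝ) (F : (ι → E → ℝ) → ℝ) (κ : ι) (e : E) : (ι → E → ℝ) → ℝ :=
  fun w => sb F κ (dl e) w - sb F κ q w

/-- the functions in question -/
structure Fn (l : List ι) (F : (ι → E → ℝ) → ℝ) : Prop where
  cont : Continuous F
  bd : ∃ C : ℝ, ∀ w : ι → E → ℝ, (∀ κ, PV (w κ)) → |F w| ≤ C
  ma : MA l F

theorem Fn.sb {l : List ι} {F : (ι → E → ℝ) → ℝ} {κ : ι} (h : Fn (κ :: l) F) (hκ : κ ∉ l)
    {p : E → ℝ} (hp : PV p) : Fn l (sb F κ p) := by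
  obtain ⟨C, hC⟩ := h.bd
  refine ⟨Sw_aux.sb_cont h.cont κ p, ⟨C, fun w hw => hC _ (Ch_aux.pv_update hw κ hp)⟩,
    Ch_aux.ma_sb hκ (fun κ' h' => h.ma κ' (List.mem_cons_of_mem _ h')) p⟩

theorem Fn.df {l : List ι} {F : (ι → E → ℝ) → ℝ} {κ : ι} (h : Fn (κ :: l) F) (hκ : κ ∉ l)
    {q : E → ℝ} (hq : PV q) (e : E) : Fn l (Df q F κ e) := by
  have h1 := h.sb hκ (Ch_aux.pv_dl e)
  have h2 := h.sb hκ hq
  obtain ⟨C, hC⟩ := h1.bd
  obtain ⟨D, hD⟩ := h2.bd
  exact ⟨h1.cont.sub h2.cont, ⟨C + D, fun w hw => (abs_sub _ _).trans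
    (add_le_add (hC w hw) (hD w hw))⟩, Ch_aux.ma_sub h1.ma h2.ma⟩

theorem df_zero {l : List ι} {F : (ι → E → ℝ) → ℝ} {κ : ι} (h : Fn (κ :: l) F) {q : E → ℝ}
    (hq : PV q) (w : ι → E → ℝ) : ∑ e, q e * Df q F κ e w = 0 := by
  have h1 := h.ma κ List.mem_cons_self w q hq.2
  have h2 : ∀ e, q e * Df q F κ e w = q e * F (Function.update w κ (dl e)) -
      q e * F (Function.update w κ q) := by
    intro e
    simp only [Df, MP0d3db7NS.sb]
    ring
  simp only [h2]
  rw [Finset.sum_sub_distrib, ← Finset.sum_mul, hq.2, one_mul, ← h1, sub_self]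

theorem pj_df_zero {l : List ι} {F : (ι → E → ℝ) → ℝ} {κ : ι} (h : Fn (κ :: l) F) {q : E → ℝ}
    (hq : PV q) (K : ℕ) (w : ι → E → ℝ) : ∑ e, q e * Pj q l K (Df q F κ e) w = 0 := by
  rw [← Pj_lin]
  have h1 : (fun w => ∑ e, q e * Df q F κ e w) = fun _ => 0 := funext fun w => df_zero h hq w
  rw [h1, Pj_zero]

/-- the sums of the chaos orders -/
theorem cs_range (q : E → ℝ) (κ : ι) (l : List ι) (F : (ι → E → ℝ) → ℝ) (x : ℝ) (n : ℕ) :
    ∑ k ∈ Finset.range (n + 1), x ^ k * Cs q (κ :: l) k F =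
      ∑ k ∈ Finset.range (n + 1), x ^ k * Cs q l k (sb F κ q) +
        x * ∑ e, q e * ∑ k ∈ Finset.range n, x ^ k * Cs q l k (Df q F κ e) := by
  rw [Finset.sum_range_succ', Finset.sum_range_succ' (fun k => x ^ k * Cs q l k (sb F κ q))]
  have h1 : ∀ k, Cs q (κ :: l) (k + 1) F = Cs q l (k + 1) (sb F κ q) +
      ∑ e, q e * Cs q l k (Df q F κ e) := fun k => rfl
  have h2 : Cs q (κ :: l) 0 F = Cs q l 0 (sb F κ q) := rfl
  simp only [h1, h2]
  have h3 : x * ∑ e, q e * ∑ k ∈ Finset.range n, x ^ k * Cs q l k (Df q F κ e) =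
      ∑ k ∈ Finset.range n, x ^ (k + 1) * ∑ e, q e * Cs q l k (Df q F κ e) := by
    simp only [Finset.mul_sum]
    rw [Finset.sum_comm]
    refine Finset.sum_congr rfl fun k _ => Finset.sum_congr rfl fun e _ => ?_
    ring
  rw [h3]
  simp only [mul_add, Finset.sum_add_distrib]
  ring

theorem cs_Ico (q : E → ℝ) (κ : ι) (l : List ι) (F : (ι → E → ℝ) → ℝ) (x : ℝ) (m n : ℕ) :
    ∑ k ∈ Finset.Ico (m + 1) (n + 1), x ^ k * Cs q (κ :: l) k F =
      ∑ k ∈ Finset.Ico (m + 1) (n + 1), x ^ k * Cs q l k (sb F κ q) +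
        x * ∑ e, q e * ∑ k ∈ Finset.Ico m n, x ^ k * Cs q l k (Df q F κ e) := by
  rw [← Finset.sum_Ico_add' (fun k => x ^ k * Cs q (κ :: l) k F) m n 1,
    ← Finset.sum_Ico_add' (fun k => x ^ k * Cs q l k (sb F κ q)) m n 1]
  have h1 : ∀ k, Cs q (κ :: l) (k + 1) F = Cs q l (k + 1) (sb F κ q) +
      ∑ e, q e * Cs q l k (Df q F κ e) := fun k => rfl
  simp only [h1]
  have h3 : x * ∑ e, q e * ∑ k ∈ Finset.Ico m n, x ^ k * Cs q l k (Df q F κ e) =
      ∑ k ∈ Finset.Ico m n, x ^ (k + 1) * ∑ e, q e * Cs q l k (Df q F κ e) := by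
    simp only [Finset.mul_sum]
    rw [Finset.sum_comm]
    refine Finset.sum_congr rfl fun k _ => Finset.sum_congr rfl fun e _ => ?_
    ring
  rw [h3]
  simp only [mul_add, Finset.sum_add_distrib]

end low

/-! ### the induction -/

section main

variable {ι E Ω : Type} [DecidableEq ι] [Countable ι] [Fintype E] [DecidableEq E]
  [MeasurableSpace Ω]

open Sw_aux (W)

theorem pvq {P : Measure Ω} {ω : ι → Ω → E → ℝ} {q : E → ℝ} {lam : ℝ} (hC : Ck P ω q lam)
    (κ : ι) : PV q := by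
  have := hC.prob
  have mω : ∀ e, Measurable fun o => ω κ o e := fun e => (measurable_pi_apply e).comp (hC.meas κ)
  have iω : ∀ e, Integrable (fun o => ω κ o e) P := fun e =>
    Integrable.of_bound (mω e).aestronglyMeasurable 1 (Eventually.of_forall fun o => by
      rw [Real.norm_eq_abs]; exact Sw_aux.pv_le (hC.pv κ o) e)
  refine ⟨fun e => ?_, ?_⟩
  · rw [← hC.mean κ e]
    exact integral_nonneg fun o => (hC.pv κ o).1 e
  · calc ∑ e, q e = ∑ e, ∫ o, ω κ o e ∂P := by simp only [hC.mean κ]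
      _ = ∫ o, ∑ e, ω κ o e ∂P := (integral_finsetSum _ fun e _ => iω e).symm
      _ = ∫ o, (1 : ℝ) ∂P := by simp only [(hC.pv κ _).2]
      _ = 1 := by simp

theorem pvW {P : Measure Ω} {ω : ι → Ω → E → ℝ} {q : E → ℝ} {lam : ℝ} (hC : Ck P ω q lam)
    (hq : PV q) (l : List ι) (o : Ω) (κ : ι) : PV (W ω q l o κ) := by
  by_cases h : κ ∈ l
  · simpa [W, h] using hC.pv κ o
  · simpa [W, h] using hq

theorem st {P : Measure Ω} {ω : ι → Ω → E → ℝ} {q : E → ℝ} {lam : ℝ} (hC : Ck P ω q lam)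
    {l : List ι} {κ : ι} (hκ : κ ∉ l) : St P (ω κ) q lam (W ω q l) :=
  ⟨hC.prob, hC.meas κ, hC.pv κ, Sw_aux.meas_W hC.meas q l,
    Sw_aux.indep_W hC.meas hC.ind q l κ hκ, hC.mean κ, hC.dom κ⟩

theorem bwF {P : Measure Ω} {ω : ι → Ω → E → ℝ} {q : E → ℝ} {lam : ℝ} (hC : Ck P ω q lam)
    (hq : PV q) {l : List ι} {F : (ι → E → ℝ) → ℝ} (hF : Fn l F) : BW (W ω q l) F := by
  obtain ⟨C, hC'⟩ := hF.bd
  exact ⟨hF.cont.measurable, C, fun o => hC' _ (pvW hC hq l o)⟩

theorem bwP {P : Measure Ω} {ω : ι → Ω → E → ℝ} {q : E → ℝ} {lam : ℝ} (hC : Ck P ω q lam)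
    (l : List ι) (K : ℕ) (F : (ι → E → ℝ) → ℝ) : BW (W ω q l) (Pj q l K F) := by
  obtain ⟨C, hC'⟩ := Pj_bd q l K F
  refine ⟨(Pj_cont q l K F).measurable, C, fun o => hC' _ fun κ h => ?_⟩
  simpa [W, h] using hC.pv κ o

/-- the value of `F` -/
theorem F_cons {P : Measure Ω} {ω : ι → Ω → E → ℝ} {q : E → ℝ} {lam : ℝ} (hC : Ck P ω q lam)
    {l : List ι} {κ : ι} {F : (ι → E → ℝ) → ℝ} (hF : Fn (κ :: l) F) (o : Ω) :
    F (W ω q (κ :: l) o) = sb F κ q (W ω q l o) + ∑ e, ω κ o e * Df q F κ e (W ω q l o) := by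
  rw [Sw_aux.W_cons, hF.ma κ List.mem_cons_self _ _ (hC.pv κ o).2]
  have h1 : ∀ e, ω κ o e * Df q F κ e (W ω q l o) =
      ω κ o e * F (Function.update (W ω q l o) κ (dl e)) -
        ω κ o e * F (Function.update (W ω q l o) κ q) := by
    intro e
    simp only [Df, sb]
    ring
  simp only [h1]
  rw [Finset.sum_sub_distrib, ← Finset.sum_mul, (hC.pv κ o).2]
  simp only [sb]
  ring

/-- the value of the part of low order -/
theorem P_cons {ω : ι → Ω → E → ℝ} {q : E → ℝ} {l : List ι} {κ : ι} (hκ : κ ∉ l)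
    (F : (ι → E → ℝ) → ℝ) (K : ℕ) (o : Ω) :
    Pj q (κ :: l) (K + 1) F (W ω q (κ :: l) o) = Pj q l (K + 1) (sb F κ q) (W ω q l o) +
      ∑ e, ω κ o e * Pj q l K (Df q F κ e) (W ω q l o) := by
  have h1 : ∀ κ' ∈ l, W ω q (κ :: l) o κ' = W ω q l o κ' := by
    intro κ' h'
    simp [W, h']
  have h2 : W ω q (κ :: l) o κ = ω κ o := by simp [W]
  simp only [Pj]
  rw [Pj_dep q l (K + 1) (sb F κ q) _ _ h1, h2]
  congr 1
  refine Finset.sum_congr rfl fun e _ => ?_
  rw [Pj_dep q l K _ _ _ h1]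
  rfl

/-- second moments -/
theorem sec {P : Measure Ω} {ω : ι → Ω → E → ℝ} {q : E → ℝ} {lam : ℝ} (hC : Ck P ω q lam)
    (l : List ι) : l.Nodup → ∀ F : (ι → E → ℝ) → ℝ, Fn l F →
    ∫ o, F (W ω q l o) ^ 2 ∂P ≤ ∑ k ∈ Finset.range (l.length + 1), lam ^ k * Cs q l k F := by
  have := hC.prob
  induction l with
  | nil =>
    intro _ F _
    have h : ∀ o, W ω q [] o = fun _ => q := fun o => by
      funext κ
      simp [W]
    simp [h, Cs]
  | cons κ l ih =>
    intro hnd F hF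
    have hκ : κ ∉ l := (List.nodup_cons.1 hnd).1
    have hnd' : l.Nodup := (List.nodup_cons.1 hnd).2
    have hq := pvq hC κ
    have h1 := (st hC hκ).two (bwF hC hq (hF.sb hκ hq)) (fun e => bwF hC hq (hF.df hκ hq e))
      (fun o => df_zero hF hq _)
    simp only [F_cons hC hF]
    refine h1.trans ?_
    rw [List.length_cons, cs_range]
    refine add_le_add ?_ (mul_le_mul_of_nonneg_left (Finset.sum_le_sum fun e _ =>
      mul_le_mul_of_nonneg_left (ih hnd' _ (hF.df hκ hq e)) (hq.1 e)) hC.lam0)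
    refine (ih hnd' _ (hF.sb hκ hq)).trans ?_
    rw [Finset.sum_range_succ _ (l.length + 1)]
    have := mul_nonneg (pow_nonneg hC.lam0 (l.length + 1))
      (Ch_aux.cs_nonneg q hq.1 l (l.length + 1) (sb F κ q))
    linarith

theorem Pj0 (q : E → ℝ) (l : List ι) (F : (ι → E → ℝ) → ℝ) (w : ι → E → ℝ) :
    Pj q l 0 F w = F fun _ => q := by
  cases l <;> simp only [Pj]

/-- the rest -/
theorem rest {P : Measure Ω} {ω : ι → Ω → E → ℝ} {q : E → ℝ} {lam : ℝ} (hC : Ck P ω q lam)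
    (l : List ι) : l.Nodup → ∀ F : (ι → E → ℝ) → ℝ, Fn l F → ∀ K : ℕ,
    ∫ o, (F (W ω q l o) - Pj q l K F (W ω q l o)) ^ 2 ∂P ≤
      ∑ k ∈ Finset.Ico (K + 1) (l.length + 1), lam ^ k * Cs q l k F := by
  have := hC.prob
  induction l with
  | nil =>
    intro _ F _ K
    have h : ∀ o, W ω q [] o = fun _ => q := fun o => by
      funext κ
      simp [W]
    simp [h, Pj]
  | cons κ l ih =>
    intro hnd F hF K
    have hκ : κ ∉ l := (List.nodup_cons.1 hnd).1
    have hnd' : l.Nodup := (List.nodup_cons.1 hnd).2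
    have hq := pvq hC κ
    have hs := hF.sb hκ hq
    have hd := fun e => hF.df hκ hq e
    have hpos : ∀ n : ℕ, 0 ≤ lam ^ n * Cs q l n (sb F κ q) := fun n =>
      mul_nonneg (pow_nonneg hC.lam0 n) (Ch_aux.cs_nonneg q hq.1 l n (sb F κ q))
    have hmono : ∀ m, ∑ k ∈ Finset.Ico m (l.length + 1), lam ^ k * Cs q l k (sb F κ q) ≤
        ∑ k ∈ Finset.Ico m (l.length + 1 + 1), lam ^ k * Cs q l k (sb F κ q) := fun m =>
      Finset.sum_le_sum_of_subset_of_nonneg (Finset.Ico_subset_Ico_right (by omega))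
        fun n _ _ => hpos n
    cases K with
    | zero =>
      have e1 : ∀ o, F (W ω q (κ :: l) o) - Pj q (κ :: l) 0 F (W ω q (κ :: l) o) =
          (sb F κ q (W ω q l o) - Pj q l 0 (sb F κ q) (W ω q l o)) +
            ∑ e, ω κ o e * Df q F κ e (W ω q l o) := by
        intro o
        rw [Pj0, Pj0, F_cons hC hF]
        have h2 : Function.update (fun _ : ι => q) κ q = fun _ => q :=
          Function.update_eq_self (β := fun _ => E → ℝ) κ (fun _ => q)
        have h3 : sb F κ q (fun _ => q) = F fun _ => q := by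
          simp only [sb]
          rw [h2]
        rw [h3]
        ring
      simp only [e1]
      have h1 := (st hC hκ).two (f := fun y => sb F κ q y - Pj q l 0 (sb F κ q) y)
        ((bwF hC hq hs).sub (bwP hC l 0 (sb F κ q))) (fun e => bwF hC hq (hd e))
        (fun o => df_zero hF hq _)
      refine h1.trans ?_
      rw [List.length_cons, cs_Ico]
      refine add_le_add ((ih hnd' _ hs 0).trans (hmono _)) (mul_le_mul_of_nonneg_left
        (Finset.sum_le_sum fun e _ => mul_le_mul_of_nonneg_left ?_ (hq.1 e)) hC.lam0)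
      rw [← Finset.range_eq_Ico]
      exact sec hC l hnd' _ (hd e)
    | succ K =>
      have e1 : ∀ o, F (W ω q (κ :: l) o) - Pj q (κ :: l) (K + 1) F (W ω q (κ :: l) o) =
          (sb F κ q (W ω q l o) - Pj q l (K + 1) (sb F κ q) (W ω q l o)) +
            ∑ e, ω κ o e * (Df q F κ e (W ω q l o) - Pj q l K (Df q F κ e) (W ω q l o)) := by
        intro o
        rw [P_cons hκ, F_cons hC hF]
        simp only [mul_sub, Finset.sum_sub_distrib]
        ring
      simp only [e1]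
      have h1 := (st hC hκ).two (f := fun y => sb F κ q y - Pj q l (K + 1) (sb F κ q) y)
        (g := fun e y => Df q F κ e y - Pj q l K (Df q F κ e) y)
        ((bwF hC hq hs).sub (bwP hC l (K + 1) (sb F κ q)))
        (fun e => (bwF hC hq (hd e)).sub (bwP hC l K _)) (fun o => by
          simp only [mul_sub, Finset.sum_sub_distrib]
          rw [df_zero hF hq, pj_df_zero hF hq, sub_self])
      refine h1.trans ?_
      rw [List.length_cons, cs_Ico]
      exact add_le_add ((ih hnd' _ hs (K + 1)).trans (hmono _)) (mul_le_mul_of_nonneg_left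
        (Finset.sum_le_sum fun e _ => mul_le_mul_of_nonneg_left (ih hnd' _ (hd e) K) (hq.1 e))
        hC.lam0)

/-- the algebra of the fourth moment -/
theorem alg {q z : E → ℝ} {B Z : ℝ} (hB : 4 ≤ B) (hq : ∀ e, 0 ≤ q e)
    (hBq : ∀ e, 0 < q e → 3 ≤ B ^ 2 * q e) (hz : ∀ e, 0 ≤ z e) (hZ : 0 ≤ Z) :
    Z ^ 2 + 8 * ∑ e, q e * (Z * z e) + 3 * ∑ e, q e * z e ^ 2 ≤ (Z + B * ∑ e, q e * z e) ^ 2 := by
  obtain ⟨Y, hY⟩ : ∃ Y, Y = ∑ e, q e * z e := ⟨_, rfl⟩
  have hY0 : 0 ≤ Y := by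
    rw [hY]
    exact Finset.sum_nonneg fun e _ => mul_nonneg (hq e) (hz e)
  have h1 : ∑ e, q e * (Z * z e) = Z * Y := by
    rw [hY, Finset.mul_sum]
    exact Finset.sum_congr rfl fun e _ => by ring
  have h2 : 3 * ∑ e, q e * z e ^ 2 ≤ B ^ 2 * Y ^ 2 := by
    have h3 : ∀ e, 3 * (q e * z e ^ 2) ≤ B ^ 2 * ((q e * z e) * Y) := by
      intro e
      have h4 : q e * z e ≤ Y := by
        rw [hY]
        exact Finset.single_le_sum (fun a _ => mul_nonneg (hq a) (hz a)) (Finset.mem_univ e)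
      rcases (hq e).eq_or_lt with h5 | h5
      · rw [← h5]
        simp
      · have h6 := hBq e h5
        have h7 : 3 * (q e * z e ^ 2) ≤ (B ^ 2 * q e) * (q e * z e ^ 2) :=
          mul_le_mul_of_nonneg_right h6 (mul_nonneg (hq e) (sq_nonneg _))
        have h8 : (B ^ 2 * q e) * (q e * z e ^ 2) = B ^ 2 * ((q e * z e) * (q e * z e)) := by
          ring
        have h9 : (q e * z e) * (q e * z e) ≤ (q e * z e) * Y :=
          mul_le_mul_of_nonneg_left h4 (mul_nonneg (hq e) (hz e))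
        rw [h8] at h7
        exact h7.trans (mul_le_mul_of_nonneg_left h9 (sq_nonneg _))
    calc 3 * ∑ e, q e * z e ^ 2 = ∑ e, 3 * (q e * z e ^ 2) := Finset.mul_sum _ _ _
      _ ≤ ∑ e, B ^ 2 * ((q e * z e) * Y) := Finset.sum_le_sum fun e _ => h3 e
      _ = B ^ 2 * Y ^ 2 := by
        rw [← Finset.mul_sum, ← Finset.sum_mul, ← hY]
        ring
  rw [h1, ← hY]
  have h10 : 4 * (Z * Y) ≤ B * (Z * Y) := mul_le_mul_of_nonneg_right hB (mul_nonneg hZ hY0)
  have h11 : (Z + B * Y) ^ 2 = Z ^ 2 + 2 * (B * (Z * Y)) + B ^ 2 * Y ^ 2 := by ring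
  rw [h11]
  linarith

/-- the fourth moment -/
theorem fourth {P : Measure Ω} {ω : ι → Ω → E → ℝ} {q : E → ℝ} {lam B : ℝ}
    (hC : Ck P ω q lam) (hB : 4 ≤ B) (hBq : ∀ e, 0 < q e → 3 ≤ B ^ 2 * q e)
    (l : List ι) : l.Nodup → ∀ F : (ι → E → ℝ) → ℝ, Fn l F → ∀ K : ℕ,
    ∫ o, Pj q l K F (W ω q l o) ^ 4 ∂P ≤
      (∑ k ∈ Finset.range (K + 1), B ^ k * Cs q l k F) ^ 2 := by
  have := hC.prob
  induction l with
  | nil =>
    intro _ F _ K
    rw [Finset.sum_range_succ']
    simp only [Pj, Cs]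
    simp only [mul_zero, Finset.sum_const_zero, pow_zero, one_mul, zero_add, integral_const,
      probReal_univ, one_smul]
    exact le_of_eq (by ring)
  | cons κ l ih =>
    intro hnd F hF K
    have hκ : κ ∉ l := (List.nodup_cons.1 hnd).1
    have hnd' : l.Nodup := (List.nodup_cons.1 hnd).2
    have hq := pvq hC κ
    cases K with
    | zero =>
      simp only [Pj, zero_add, Finset.range_one, Finset.sum_singleton, pow_zero, one_mul]
      rw [Ch_aux.cs_zero]
      simp only [integral_const, probReal_univ, one_smul]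
      exact le_of_eq (by ring)
    | succ K =>
      have hs := hF.sb hκ hq
      have hd := fun e => hF.df hκ hq e
      have hst := st hC hκ
      have b1 := bwP hC l (K + 1) (sb F κ q)
      have b2 := fun e => bwP hC l K (Df q F κ e)
      simp only [P_cons hκ]
      refine (hst.four b1 b2 fun o => pj_df_zero hF hq K _).trans ?_
      rw [cs_range]
      obtain ⟨Z, hZ⟩ : ∃ Z, Z = ∑ k ∈ Finset.range (K + 1 + 1), B ^ k * Cs q l k (sb F κ q) :=
        ⟨_, rfl⟩
      obtain ⟨z, hz⟩ : ∃ z : E → ℝ, z = fun e => ∑ k ∈ Finset.range (K + 1),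
        B ^ k * Cs q l k (Df q F κ e) := ⟨_, rfl⟩
      have hB0 : 0 ≤ B := by linarith
      have hZ0 : 0 ≤ Z := by
        rw [hZ]
        exact Finset.sum_nonneg fun k _ => mul_nonneg (pow_nonneg hB0 k)
          (Ch_aux.cs_nonneg q hq.1 _ _ _)
      have hz0 : ∀ e, 0 ≤ z e := by
        intro e
        rw [hz]
        exact Finset.sum_nonneg fun k _ => mul_nonneg (pow_nonneg hB0 k)
          (Ch_aux.cs_nonneg q hq.1 _ _ _)
      have i1 : ∫ o, Pj q l (K + 1) (sb F κ q) (W ω q l o) ^ 4 ∂P ≤ Z ^ 2 := by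
        rw [hZ]
        exact ih hnd' _ hs (K + 1)
      have i2 : ∀ e, ∫ o, Pj q l K (Df q F κ e) (W ω q l o) ^ 4 ∂P ≤ z e ^ 2 := by
        intro e
        rw [hz]
        exact ih hnd' _ (hd e) K
      have i3 : ∀ e, ∫ o, Pj q l (K + 1) (sb F κ q) (W ω q l o) ^ 2 *
          Pj q l K (Df q F κ e) (W ω q l o) ^ 2 ∂P ≤ Z * z e := fun e =>
        hst.cs b1 (b2 e) hZ0 (hz0 e) i1 (i2 e)
      have hfin := alg hB hq.1 hBq hz0 hZ0
      have hz' : ∀ e, ∑ k ∈ Finset.range (K + 1), B ^ k * Cs q l k (Df q F κ e) = z e := by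
        intro e
        rw [hz]
      rw [← hZ]
      simp only [hz']
      refine le_trans ?_ hfin
      refine add_le_add (add_le_add i1 ?_) ?_
      · exact mul_le_mul_of_nonneg_left (Finset.sum_le_sum fun e _ =>
          mul_le_mul_of_nonneg_left (i3 e) (hq.1 e)) (by norm_num)
      · exact mul_le_mul_of_nonneg_left (Finset.sum_le_sum fun e _ =>
          mul_le_mul_of_nonneg_left (i2 e) (hq.1 e)) (by norm_num)

end main

end Bo_aux

open Bo_aux in
/-- FOURTH MOMENT OF THE PART OF LOW ORDER, SECOND MOMENT OF THE REST. -/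
theorem tBo : S_Bo := by
  intro ι E Ω _ _ _ _ _ P ω q lam B hC hB hBq l F C hnd hcont hbd hma K
  have hF : Fn l F := ⟨hcont, ⟨C, hbd⟩, hma⟩
  obtain ⟨m, D, hD⟩ := bwP hC l K F
  exact ⟨m.comp (Sw_aux.meas_W hC.meas q l), ⟨D, hD⟩, fourth hC hB hBq l hnd F hF K,
    rest hC l hnd F hF K⟩

end MP0d3db7NS
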