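import Pool.Agent.Lib.MP_0d3db7.NS.Spec2

/-!
# MP_0d3db7_pr, theorem NS2, module Bw: Borel-Cantelli for the windows

Author: helper2.
-/

set_option autoImplicit false

namespace MP0d3db7NS

open MeasureTheory ProbabilityTheory Filter Topology

namespace Bw_aux

lemma gb_le (θ : ℝ) (hθ : 0 < θ) (b : ℕ) (hb : 1 ≤ b) : ((gb θ b + 1 : ℕ) : ℝ) ≤ 3 * (b : ℝ) ^ θ := by
  have h1 : (1 : ℝ) ≤ (b : ℝ) ^ θ := Real.one_le_rpow (by exact_mod_cast hb) hθ.le
  have h2 : ((⌊(b : ℝ) ^ θ⌋₊ : ℕ) : ℝ) ≤ (b : ℝ) ^ θ := Nat.floor_le (by positivity)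
  unfold gb
  push_cast
  linarith

end Bw_aux

/-- Borel-Cantelli for the windows -/
theorem tBw : S_Bw := by
  intro Ω _ P _ θ C A h0 _ hA
  set B : ℕ → Set Ω := fun b => if b = 0 then ∅ else ⋃ i ∈ Finset.range (gb θ b + 1), A b i with hB
  have hbound : ∀ b, P (B b) ≤ ENNReal.ofReal (3 * C * (b : ℝ) ^ (-1 - θ)) := by
    intro b
    by_cases hb : b = 0
    · simp only [hB, hb, if_true, measure_empty]
      exact bot_le
    have hb1 : 1 ≤ b := Nat.one_le_iff_ne_zero.mpr hb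
    have hbpos : (0 : ℝ) < (b : ℝ) := by exact_mod_cast hb1
    simp only [hB, if_neg hb]
    have hC : 0 ≤ C * (b : ℝ) ^ (-1 - 2 * θ) :=
      le_trans measureReal_nonneg (hA b hb1 0 (Nat.zero_le _))
    calc P (⋃ i ∈ Finset.range (gb θ b + 1), A b i)
        ≤ ∑ i ∈ Finset.range (gb θ b + 1), P (A b i) := measure_biUnion_finset_le _ _
      _ ≤ ∑ _i ∈ Finset.range (gb θ b + 1), ENNReal.ofReal (C * (b : ℝ) ^ (-1 - 2 * θ)) := by
          refine Finset.sum_le_sum fun i hi => ?_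
          rw [← ofReal_measureReal]
          exact ENNReal.ofReal_le_ofReal (hA b hb1 i (by
            have := Finset.mem_range.mp hi
            omega))
      _ = ENNReal.ofReal (((gb θ b + 1 : ℕ) : ℝ) * (C * (b : ℝ) ^ (-1 - 2 * θ))) := by
          rw [Finset.sum_const, Finset.card_range, nsmul_eq_mul,
            ENNReal.ofReal_mul (p := ((gb θ b + 1 : ℕ) : ℝ)) (by positivity), ENNReal.ofReal_natCast]
      _ ≤ ENNReal.ofReal (3 * C * (b : ℝ) ^ (-1 - θ)) := by
          refine ENNReal.ofReal_le_ofReal ?_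
          have h1 := mul_le_mul_of_nonneg_right (Bw_aux.gb_le θ h0 b hb1) hC
          refine h1.trans (le_of_eq ?_)
          have h2 : (b : ℝ) ^ (-1 - θ) = (b : ℝ) ^ θ * (b : ℝ) ^ (-1 - 2 * θ) := by
            rw [← Real.rpow_add hbpos]
            congr 1
            ring
          rw [h2]
          ring
  have hsum : Summable fun b : ℕ => 3 * C * (b : ℝ) ^ (-1 - θ) :=
    (Real.summable_nat_rpow.mpr (by linarith)).mul_left _
  have hfin : ∑' b, P (B b) ≠ ⊤ :=
    ne_top_of_le_ne_top hsum.tsum_ofReal_ne_top (ENNReal.tsum_le_tsum hbound)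
  filter_upwards [ae_eventually_notMem hfin] with o ho
  filter_upwards [ho, eventually_ge_atTop 1] with b hb hb1 i hi hmem
  refine hb ?_
  have hb0 : b ≠ 0 := by omega
  simp only [hB, if_neg hb0, Set.mem_iUnion]
  exact ⟨i, Finset.mem_range.mpr (by omega), hmem⟩

end MP0d3db7NS
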