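import Pool.Agent.Lib.MP_0d3db7.NS.Spec

/-!
# MP_0d3db7_pr, theorem NS, module Df: the iterated differences of `U` are the coefficients `phi`
-/

set_option autoImplicit false

namespace MP0d3db7NS

open MeasureTheory ProbabilityTheory Filter Topology

namespace Df_aux

section lists

variable {ι E : Type} [DecidableEq ι] [DecidableEq E]

/-- linearity -/
theorem Dl_lin [Fintype E] (q : E → ℝ) (c : List (ι × E)) : ∀ (p : E → ℝ)
    (G : E → (ι → E → ℝ) → ℝ), Dl q c (fun w => ∑ e, p e * G e w) = ∑ e, p e * Dl q c (G e) := by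
  induction c with
  | nil => intro p G; rfl
  | cons a c ih =>
    intro p G
    have h : ∀ r : E → ℝ, sb (fun w => ∑ e, p e * G e w) a.1 r =
        fun w => ∑ e, p e * sb (G e) a.1 r w := fun r => rfl
    simp only [Dl]
    rw [h, h, ih, ih, ← Finset.sum_sub_distrib]
    exact Finset.sum_congr rfl fun e _ => by ring

/-- a cookie which does not occur -/
theorem Dl_q [Fintype E] (q : E → ℝ) (κ : ι) (c : List (ι × E)) : (∀ a ∈ c, a.1 ≠ κ) →
    ∀ G : E → (ι → E → ℝ) → ℝ,
    Dl q c (fun w => ∑ e, w κ e * G e w) = ∑ e, q e * Dl q c (G e) := by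
  induction c with
  | nil => intro _ G; rfl
  | cons a c ih =>
    intro hc G
    have h1 : a.1 ≠ κ := hc a (by simp)
    have h2 : ∀ b ∈ c, b.1 ≠ κ := fun b hb => hc b (by simp [hb])
    have h : ∀ r : E → ℝ, sb (fun w => ∑ e, w κ e * G e w) a.1 r =
        fun w => ∑ e, w κ e * sb (G e) a.1 r w := by
      intro r
      funext w
      simp only [sb]
      refine Finset.sum_congr rfl fun e _ => ?_
      rw [Function.update_of_ne h1.symm]
    simp only [Dl]
    rw [h, h, ih h2, ih h2, ← Finset.sum_sub_distrib]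
    exact Finset.sum_congr rfl fun e _ => by ring

/-- (1) a cookie which does not matter -/
theorem Dl_zero (q : E → ℝ) (κ : ι) (c : List (ι × E)) : (∃ a ∈ c, a.1 = κ) →
    ∀ F : (ι → E → ℝ) → ℝ, (∀ w p, F (Function.update w κ p) = F w) → Dl q c F = 0 := by
  induction c with
  | nil => rintro ⟨a, ha, _⟩; simp at ha
  | cons b c ih =>
    rintro ⟨a, ha, hk⟩ F hF
    simp only [Dl]
    by_cases hb : b.1 = κ
    · have h : ∀ r : E → ℝ, sb F b.1 r = F := by
        intro r
        funext w
        simp only [sb]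
        rw [hb]
        exact hF w r
      rw [h, h, sub_self]
    · have ha' : a ∈ c := by
        rcases List.mem_cons.1 ha with h | h
        · exact absurd (h ▸ hk) hb
        · exact h
      have h : ∀ r : E → ℝ, ∀ w p, sb F b.1 r (Function.update w κ p) = sb F b.1 r w := by
        intro r w p
        simp only [sb]
        rw [Function.update_comm (Ne.symm hb), hF]
      rw [ih ⟨a, ha', hk⟩ _ (h _), ih ⟨a, ha', hk⟩ _ (h _), sub_self]

/-- (0) the order does not matter -/
theorem Dl_perm (q : E → ℝ) {c c' : List (ι × E)} (h : c.Perm c') :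
    (c.map Prod.fst).Nodup → ∀ F : (ι → E → ℝ) → ℝ, Dl q c F = Dl q c' F := by
  induction h with
  | nil => intro _ F; rfl
  | cons a h ih =>
    intro hn F
    simp only [List.map_cons, List.nodup_cons] at hn
    simp only [Dl]
    rw [ih hn.2, ih hn.2]
  | swap a b c =>
    intro hn F
    simp only [List.map_cons, List.nodup_cons, List.mem_cons, not_or] at hn
    have hab : b.1 ≠ a.1 := hn.1.1
    have h : ∀ p r : E → ℝ, sb (sb F b.1 p) a.1 r = sb (sb F a.1 r) b.1 p := by
      intro p r
      funext w
      simp only [sb]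
      rw [Function.update_comm hab.symm]
    simp only [Dl]
    rw [h, h, h, h]
    ring
  | trans h1 h2 ih1 ih2 =>
    intro hn F
    rw [ih1 hn, ih2 ((h1.map Prod.fst).nodup_iff.1 hn)]

theorem inj_rmv {k : ℕ} (l : Fin (k + 1)) (c : Fin (k + 1) → ι × E)
    (hc : Function.Injective fun j => (c j).1) : Function.Injective fun j => (rmv l c j).1 :=
  hc.comp (Fin.succAbove_right_injective (p := l))

theorem nodup_fst {k : ℕ} (c : Fin k → ι × E) (hc : Function.Injective fun j => (c j).1) :
    ((List.ofFn c).map Prod.fst).Nodup := by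
  rw [List.map_ofFn]
  exact List.nodup_ofFn.2 hc

theorem ofFn_perm {k : ℕ} (l : Fin (k + 1)) (c : Fin (k + 1) → ι × E)
    (hc : Function.Injective fun j => (c j).1) :
    (List.ofFn c).Perm (c l :: List.ofFn (rmv l c)) := by
  have hc' : Function.Injective c := fun i j h => hc (by simp [h])
  have h1 : (List.ofFn c).Nodup := List.nodup_ofFn.2 hc'
  have h2 : (c l :: List.ofFn (rmv l c)).Nodup := by
    rw [List.nodup_cons]
    refine ⟨?_, List.nodup_ofFn.2 (hc'.comp Fin.succAbove_right_injective)⟩
    rw [List.mem_ofFn]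
    rintro ⟨j, hj⟩
    exact Fin.succAbove_ne l j (hc' hj)
  rw [List.perm_ext_iff_of_nodup h1 h2]
  intro a
  rw [List.mem_cons, List.mem_ofFn, List.mem_ofFn]
  constructor
  · rintro ⟨i, rfl⟩
    rcases Fin.eq_self_or_eq_succAbove l i with h | ⟨j, h⟩
    · left; rw [h]
    · right; exact ⟨j, by simp only [rmv]; rw [h]⟩
  · rintro (h | ⟨j, h⟩)
    · exact ⟨l, h.symm⟩
    · exact ⟨l.succAbove j, h⟩

end lists

section walk

variable {V E : Type} [AddCommGroup V] [DecidableEq V] [Fintype E] [DecidableEq E]

/-- a used cookie does not matter -/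
theorem U_indep (hMa : S_Ma) (s : E → V) (f : V → ℝ) (N : ℕ) (x : V) (r : V → ℕ) (e : E)
    (w : V × ℕ → E → ℝ) (p : E → ℝ) :
    U s (Function.update w (x, r x + 1) p) f N (x + s e) (up r x) =
      U s w f N (x + s e) (up r x) :=
  (hMa s).2.1 f N (x + s e) (up r x) x (r x + 1) p w (by simp [up])

/-- the case in which `κ0` is not a member of `c` -/
theorem step0 (s : E → V) (q : E → ℝ) (f : V → ℝ) (N : ℕ) (x : V) (r : V → ℕ)
    (c : List ((V × ℕ) × E)) (h : ∀ a ∈ c, a.1 ≠ (x, r x + 1)) :
    Dl q c (fun w : V × ℕ → E → ℝ => U s w f (N + 1) x r) =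
      ∑ e, q e * Dl q c (fun w : V × ℕ → E → ℝ => U s w f N (x + s e) (up r x)) := by
  simp only [U]
  exact Dl_q q (x, r x + 1) c h fun e w => U s w f N (x + s e) (up r x)

/-- `sb` at `κ0` -/
theorem sb0 (hMa : S_Ma) (s : E → V) (f : V → ℝ) (N : ℕ) (x : V) (r : V → ℕ) (p : E → ℝ) :
    sb (fun w : V × ℕ → E → ℝ => U s w f (N + 1) x r) (x, r x + 1) p =
      fun w => ∑ e, p e * U s w f N (x + s e) (up r x) := by
  funext w
  simp only [sb, U]
  refine Finset.sum_congr rfl fun e _ => ?_
  rw [Function.update_self, U_indep hMa]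

theorem main (hMa : S_Ma) (s : E → V) (q : E → ℝ) (f : V → ℝ) : ∀ (N k : ℕ) (x : V) (r : V → ℕ)
    (c : Fin k → (V × ℕ) × E), Function.Injective (fun j => (c j).1) →
    Dl q (List.ofFn c) (fun w : V × ℕ → E → ℝ => U s w f N x r) = phi s q f N k x r c := by
  intro N
  induction N with
  | zero =>
    intro k x r c _
    rcases k with _ | k
    · simp only [List.ofFn_zero, Dl, U, phi]
    · rw [List.ofFn_succ]
      exact sub_self (Dl q (List.ofFn fun i => c i.succ) fun _ => f x)
  | succ N ih =>
    intro k x r c hc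
    rcases k with _ | k
    · simp only [phi]
      rw [step0 s q f N x r _ (by simp)]
      exact Finset.sum_congr rfl fun e _ => by rw [ih 0 (x + s e) (up r x) c hc]
    · simp only [phi]
      by_cases hl : ∃ l, (c l).1 = (x, r x + 1)
      · obtain ⟨l, hl⟩ := hl
        have h0 : ∀ e, phi s q f N (k + 1) (x + s e) (up r x) c = 0 := by
          intro e
          rw [← ih (k + 1) (x + s e) (up r x) c hc]
          refine Dl_zero q (x, r x + 1) _ ⟨c l, List.mem_ofFn.2 ⟨l, rfl⟩, hl⟩ _ ?_
          intro w p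
          exact U_indep hMa s f N x r e w p
        have h1 : ∀ m, m ≠ l → (c m).1 ≠ (x, r x + 1) := by
          intro m hm h
          exact hm (hc (h.trans hl.symm))
        rw [Finset.sum_eq_single l (fun m _ hm => if_neg (h1 m hm)) (by simp), if_pos hl,
          Finset.sum_eq_zero (fun e _ => by rw [h0, mul_zero]), zero_add,
          Dl_perm q (ofFn_perm l c hc) (nodup_fst c hc)]
        simp only [Dl]
        rw [hl, sb0 hMa, sb0 hMa,
          Dl_lin q _ (dl (c l).2) fun e (w : V × ℕ → E → ℝ) => U s w f N (x + s e) (up r x),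
          Dl_lin q _ q fun e (w : V × ℕ → E → ℝ) => U s w f N (x + s e) (up r x)]
        have h2 : ∀ e, Dl q (List.ofFn (rmv l c))
            (fun w : V × ℕ → E → ℝ => U s w f N (x + s e) (up r x)) =
            phi s q f N k (x + s e) (up r x) (rmv l c) :=
          fun e => ih k (x + s e) (up r x) (rmv l c) (inj_rmv l c hc)
        simp only [h2]
        congr 1
        rw [Finset.sum_eq_single (c l).2]
        · simp [dl]
        · intro b _ hb
          simp [dl, hb]
        · simp
      · have h1 : ∀ l, (c l).1 ≠ (x, r x + 1) := fun l h => hl ⟨l, h⟩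
        rw [Finset.sum_eq_zero (s := (Finset.univ : Finset (Fin (k + 1))))
          (fun l _ => if_neg (h1 l)), add_zero, step0 s q f N x r]
        · exact Finset.sum_congr rfl fun e _ => by rw [ih (k + 1) (x + s e) (up r x) c hc]
        · intro a ha
          obtain ⟨l, rfl⟩ := List.mem_ofFn.1 ha
          exact h1 l

end walk

end Df_aux

/-- THE DIFFERENCES OF `U`. -/
theorem tDf (hMa : S_Ma) : S_Df := by
  intro V E _ _ _ _ s q f N k x r c hc
  exact Df_aux.main hMa s q f N k x r c hc

end MP0d3db7NS
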