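import Pool.Agent.Lib.MP_0d3db7.NS.Spec2
import Pool.Agent.Lib.MP_0d3db7.NS.Df

/-!
# MP_0d3db7_pr, theorem NS2, module Cb: the chaos orders of `U` are bounded by `sk`
-/

set_option autoImplicit false

namespace MP0d3db7NS

open MeasureTheory ProbabilityTheory Filter Topology

namespace Cb_aux

variable {V E : Type}

/-- the numbers of the visits, decreased by one -/
def dn {k : ℕ} (c : Fin k → (V × ℕ) × E) : Fin k → (V × ℕ) × E :=
  fun j => (((c j).1.1, (c j).1.2 - 1), (c j).2)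

theorem dn_up {k : ℕ} (c : Fin k → (V × ℕ) × E) (h : ∀ j, 1 ≤ (c j).1.2) :
    (fun j => (((dn c j).1.1, (dn c j).1.2 + 1), (dn c j).2)) = c := by
  funext j
  simp only [dn]
  rw [Nat.sub_add_cancel (h j)]

theorem inj_dn {k : ℕ} (c : Fin k → (V × ℕ) × E) (h : ∀ j, 1 ≤ (c j).1.2)
    (hc : Function.Injective fun j => (c j).1) : Function.Injective fun j => (dn c j).1 := by
  intro a b hab
  apply hc
  simp only [dn, Prod.mk.injEq] at hab
  refine Prod.ext hab.1 ?_
  have h1 := h a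
  have h2 := h b
  have h3 := hab.2
  show (c a).1.2 = (c b).1.2
  omega

theorem sq_le (ζ z : ℂ) (h : ‖ζ‖ ≤ 1) : ENNReal.ofReal ((ζ * z).re ^ 2) ≤ ‖z‖ₑ ^ 2 := by
  have h1 : |(ζ * z).re| ≤ ‖z‖ := by
    calc |(ζ * z).re| ≤ ‖ζ * z‖ := Complex.abs_re_le_norm _
      _ = ‖ζ‖ * ‖z‖ := norm_mul _ _
      _ ≤ 1 * ‖z‖ := mul_le_mul_of_nonneg_right h (norm_nonneg _)
      _ = ‖z‖ := one_mul _
  have h2 : (ζ * z).re ^ 2 ≤ ‖z‖ ^ 2 := by
    rw [← sq_abs]
    exact pow_le_pow_left₀ (abs_nonneg _) h1 2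
  calc ENNReal.ofReal ((ζ * z).re ^ 2) ≤ ENNReal.ofReal (‖z‖ ^ 2) := ENNReal.ofReal_le_ofReal h2
    _ = ‖z‖ₑ ^ 2 := by rw [ENNReal.ofReal_pow (norm_nonneg _), ofReal_norm]

end Cb_aux

open Cb_aux in
theorem tCb (hTk : S_Tk) (hDf : S_Df) (hMa : S_Ma) (hLk : S_Lk) : S_Cb := by
  classical
  intro V E _ _ _ _ s q χ ζ hq hζ l hl N k
  have h1 := hTk q hq.1 l l.toFinset hl (fun κ hκ => List.mem_toFinset.2 hκ) k
    (fun w : V × ℕ → E → ℝ => U s w (fun y => (ζ * χ y).re) N 0 (fun _ => 0))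
  refine (ENNReal.ofReal_le_ofReal h1).trans ?_
  rw [ENNReal.ofReal_sum_of_nonneg]
  · let S : Finset (Fin k → (V × ℕ) × E) :=
      (Fintype.piFinset (fun _ : Fin k => l.toFinset ×ˢ (Finset.univ : Finset E))).filter
        (fun c => (Function.Injective fun j => (c j).1) ∧ ∀ j, 1 ≤ (c j).1.2)
    let g : (Fin k → (V × ℕ) × E) → ENNReal := fun c =>
      (∏ j, ENNReal.ofReal (q (c j).2)) * ‖psi s q χ N k 0 c‖ₑ ^ 2
    have h2 : ∀ c : Fin k → (V × ℕ) × E, ENNReal.ofReal
        (if Function.Injective (fun j => (c j).1) then (∏ j, q (c j).2) * Dl q (List.ofFn c)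
          (fun w : V × ℕ → E → ℝ => U s w (fun y => (ζ * χ y).re) N 0 (fun _ => 0)) ^ 2 else 0) ≤
        if (Function.Injective fun j => (c j).1) ∧ ∀ j, 1 ≤ (c j).1.2 then g (dn c) else 0 := by
      intro c
      by_cases hc : Function.Injective (fun j => (c j).1)
      · rw [if_pos hc]
        by_cases h3 : ∀ j, 1 ≤ (c j).1.2
        · rw [if_pos ⟨hc, h3⟩, hDf s q _ N k 0 _ c hc]
          have h4 := hLk s q (fun y => (ζ * χ y).re) χ ζ (fun _ => rfl) N k 0 (dn c) (inj_dn c h3 hc)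
          rw [dn_up c h3] at h4
          rw [h4, ENNReal.ofReal_mul (Finset.prod_nonneg fun j _ => hq.1 _),
            ENNReal.ofReal_prod_of_nonneg (fun j _ => hq.1 _)]
          exact mul_le_mul_right (sq_le ζ _ hζ) _
        · push Not at h3
          obtain ⟨j, hj⟩ := h3
          have hj0 : (c j).1.2 = 0 := by omega
          have h5 : Dl q (List.ofFn c)
              (fun w : V × ℕ → E → ℝ => U s w (fun y => (ζ * χ y).re) N 0 (fun _ => 0)) = 0 := by
            refine Df_aux.Dl_zero q (c j).1 _ ⟨c j, ?_, rfl⟩ _ fun w p => ?_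
            · exact (List.mem_ofFn' c (c j)).2 ⟨j, rfl⟩
            · have h6 := (hMa s).2.1 (fun y => (ζ * χ y).re) N 0 (fun _ => 0) (c j).1.1 (c j).1.2 p w
                (by omega)
              exact h6
          rw [h5]
          simp
      · rw [if_neg hc]
        simp
    calc _ ≤ ∑ c ∈ Fintype.piFinset (fun _ : Fin k => l.toFinset ×ˢ (Finset.univ : Finset E)),
          if (Function.Injective fun j => (c j).1) ∧ ∀ j, 1 ≤ (c j).1.2 then g (dn c) else 0 :=
          Finset.sum_le_sum fun c _ => h2 c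
      _ = ∑ c ∈ S, g (dn c) := by rw [Finset.sum_filter]
      _ = ∑ c ∈ S.image dn, g c := by
          rw [Finset.sum_image]
          intro a ha b hb hab
          rw [← dn_up a (Finset.mem_filter.1 ha).2.2, ← dn_up b (Finset.mem_filter.1 hb).2.2]
          rw [hab]
      _ ≤ ∑' c, g c := ENNReal.sum_le_tsum _
      _ = sk s q χ N k 0 := rfl
  · intro c _
    split_ifs
    · exact mul_nonneg (Finset.prod_nonneg fun j _ => hq.1 _) (sq_nonneg _)
    · exact le_rfl

end MP0d3db7NS
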