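import Pool.Agent.Lib.MP_0d3db7.NS.Spec

/-!
# MP_0d3db7_pr, theorem NS: the central limit theorem for the averaged walk (helper2)
-/

set_option autoImplicit false

namespace MP0d3db7NS

open MeasureTheory ProbabilityTheory Filter Topology

namespace Cl_aux

/-! ### a limit -/

theorem lim1 (Y : ℝ) : Tendsto (fun n : ℕ => (n : ℂ) *
    (Complex.exp (((Y / Real.sqrt n : ℝ) : ℂ) * Complex.I) - 1 -
      ((Y / Real.sqrt n : ℝ) : ℂ) * Complex.I)) atTop (𝓝 (-((Y : ℂ) ^ 2 / 2))) := by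
  rw [tendsto_iff_norm_sub_tendsto_zero]
  have h0 : Tendsto (fun n : ℕ => |Y| ^ 3 / Real.sqrt n) atTop (𝓝 0) :=
    (tendsto_const_nhds (x := |Y| ^ 3)).div_atTop
      (Real.tendsto_sqrt_atTop.comp tendsto_natCast_atTop_atTop)
  refine squeeze_zero' (Eventually.of_forall fun n => norm_nonneg _) ?_ h0
  filter_upwards [eventually_ge_atTop (max 1 ⌈Y ^ 2⌉₊)] with n hn
  have hn1 : 1 ≤ n := (le_max_left _ _).trans hn
  have hn2 : Y ^ 2 ≤ n := (Nat.le_ceil _).trans (by exact_mod_cast (le_max_right _ _).trans hn)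
  have hn0 : (0 : ℝ) < n := by exact_mod_cast hn1
  have hs : 0 < Real.sqrt n := Real.sqrt_pos.2 hn0
  have hss : Real.sqrt n ^ 2 = n := Real.sq_sqrt hn0.le
  obtain ⟨z, hz⟩ : ∃ z : ℂ, z = ((Y / Real.sqrt n : ℝ) : ℂ) * Complex.I := ⟨_, rfl⟩
  rw [← hz]
  have hzn : ‖z‖ = |Y| / Real.sqrt n := by
    rw [hz, norm_mul, Complex.norm_I, mul_one, Complex.norm_real, Real.norm_eq_abs, abs_div,
      abs_of_pos hs]
  have hz1 : ‖z‖ ≤ 1 := by
    rw [hzn, div_le_one hs]
    exact Real.abs_le_sqrt hn2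
  have hzz : (n : ℂ) * z ^ 2 = -(Y : ℂ) ^ 2 := by
    rw [hz, mul_pow, Complex.I_sq]
    have h1 : (n : ℂ) * ((Y / Real.sqrt n : ℝ) : ℂ) ^ 2 = (Y : ℂ) ^ 2 := by
      have h2 : (n : ℝ) * (Y / Real.sqrt n) ^ 2 = Y ^ 2 := by
        rw [div_pow, hss]
        field_simp
      exact_mod_cast h2
    linear_combination -h1
  have hb := Complex.exp_bound hz1 (n := 3) (by norm_num)
  have hsum : ∑ m ∈ Finset.range 3, z ^ m / (m.factorial : ℂ) = 1 + z + z ^ 2 / 2 := by
    simp [Finset.sum_range_succ, Nat.factorial]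
  rw [hsum] at hb
  have hb2 : ‖Complex.exp z - (1 + z + z ^ 2 / 2)‖ ≤ ‖z‖ ^ 3 := by
    refine hb.trans ?_
    have h1 : (((3 : ℕ).succ : ℝ) * (((3 : ℕ).factorial : ℝ) * ((3 : ℕ) : ℝ))⁻¹) ≤ 1 := by
      norm_num [Nat.factorial]
    have h2 : 0 ≤ ‖z‖ ^ 3 := by positivity
    exact mul_le_of_le_one_right h2 h1
  have he : (n : ℂ) * (Complex.exp z - 1 - z) - -((Y : ℂ) ^ 2 / 2) =
      (n : ℂ) * (Complex.exp z - (1 + z + z ^ 2 / 2)) := by
    linear_combination (1 / 2 : ℂ) * hzz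
  rw [he, norm_mul, Complex.norm_natCast]
  calc (n : ℝ) * ‖Complex.exp z - (1 + z + z ^ 2 / 2)‖ ≤ (n : ℝ) * ‖z‖ ^ 3 :=
        mul_le_mul_of_nonneg_left hb2 hn0.le
    _ = |Y| ^ 3 / Real.sqrt n := by
        rw [hzn, div_pow]
        have h3 : Real.sqrt n ^ 3 = n * Real.sqrt n := by
          rw [pow_succ, hss]
        rw [h3]
        field_simp

/-! ### the characteristic function -/

variable {d : ℕ} (q : Dr d → ℝ) (θ : EuclideanSpace ℝ (Fin d))

/-- `⟪θ, st d e⟫` -/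
noncomputable def ze (e : Dr d) : ℝ := ∑ i, θ i * (st d e i : ℝ)

/-- the phase -/
noncomputable def ph (n : ℕ) (x : Fin d → ℤ) : ℝ := ∑ i, θ i * nrm q n x i

theorem nrm_apply (n : ℕ) (x : Fin d → ℤ) (i : Fin d) :
    nrm q n x i = ((x i : ℝ) - n * drift q i) / Real.sqrt n := rfl

theorem ph_add (n : ℕ) (x : Fin d → ℤ) (e : Dr d) :
    ph q θ n (x + st d e) = ph q θ n x + ze θ e / Real.sqrt n := by
  unfold ph ze
  rw [Finset.sum_div, ← Finset.sum_add_distrib]
  refine Finset.sum_congr rfl fun i _ => ?_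
  rw [nrm_apply, nrm_apply, Pi.add_apply]
  push_cast
  ring

/-- the two expectations together -/
noncomputable def CC (n N : ℕ) (x : Fin d → ℤ) (r : (Fin d → ℤ) → ℕ) : ℂ :=
  (U (st d) (fun _ => q) (fun x => Real.cos (ph q θ n x)) N x r : ℂ) +
    (U (st d) (fun _ => q) (fun x => Real.sin (ph q θ n x)) N x r : ℂ) * Complex.I

/-- the characteristic function of one step -/
noncomputable def ch (n : ℕ) : ℂ :=
  ∑ e, (q e : ℂ) * Complex.exp (((ze θ e / Real.sqrt n : ℝ) : ℂ) * Complex.I)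

theorem CC_eq (n N : ℕ) : ∀ (x : Fin d → ℤ) (r : (Fin d → ℤ) → ℕ),
    CC q θ n N x r = Complex.exp ((ph q θ n x : ℂ) * Complex.I) * ch q θ n ^ N := by
  induction N with
  | zero =>
    intro x r
    rw [pow_zero, mul_one, Complex.exp_mul_I, ← Complex.ofReal_cos, ← Complex.ofReal_sin]
    rfl
  | succ N ih =>
    intro x r
    have h1 : CC q θ n (N + 1) x r = ∑ e, (q e : ℂ) * CC q θ n N (x + st d e) (up r x) := by
      unfold CC
      change ((∑ e, q e * U (st d) (fun _ => q) (fun x => Real.cos (ph q θ n x)) N (x + st d e)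
        (up r x) : ℝ) : ℂ) + ((∑ e, q e * U (st d) (fun _ => q)
          (fun x => Real.sin (ph q θ n x)) N (x + st d e) (up r x) : ℝ) : ℂ) * Complex.I = _
      rw [Complex.ofReal_sum, Complex.ofReal_sum, Finset.sum_mul, ← Finset.sum_add_distrib]
      refine Finset.sum_congr rfl fun e _ => ?_
      push_cast
      ring
    rw [h1, pow_succ]
    have h2 : ∀ e, (q e : ℂ) * CC q θ n N (x + st d e) (up r x) =
        Complex.exp ((ph q θ n x : ℂ) * Complex.I) * ch q θ n ^ N *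
          ((q e : ℂ) * Complex.exp (((ze θ e / Real.sqrt n : ℝ) : ℂ) * Complex.I)) := by
      intro e
      rw [ih, ph_add, Complex.ofReal_add, add_mul, Complex.exp_add]
      ring
    rw [Finset.sum_congr rfl fun e _ => h2 e, ← Finset.mul_sum]
    unfold ch
    ring

/-- the mean of `ze` -/
noncomputable def mn : ℝ := ∑ i, θ i * drift q i

theorem mean_ze : ∑ e, q e * ze θ e = mn q θ := by
  unfold ze mn drift
  simp_rw [Finset.mul_sum]
  rw [Finset.sum_comm]
  refine Finset.sum_congr rfl fun i _ => Finset.sum_congr rfl fun e _ => ?_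
  ring

theorem var_ze : ∑ e, q e * (ze θ e - mn q θ) ^ 2 = ∑ i, ∑ j, θ i * Sg q i j * θ j := by
  have h1 : ∀ e, ze θ e - mn q θ = ∑ i, θ i * ((st d e i : ℝ) - drift q i) := by
    intro e
    unfold ze mn
    rw [← Finset.sum_sub_distrib]
    exact Finset.sum_congr rfl fun i _ => by ring
  have h2 : ∀ e, q e * (ze θ e - mn q θ) ^ 2 = ∑ i, ∑ j, θ i * (q e *
      ((st d e i : ℝ) - drift q i) * ((st d e j : ℝ) - drift q j)) * θ j := by
    intro e
    rw [h1, sq, Finset.sum_mul_sum, Finset.mul_sum]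
    refine Finset.sum_congr rfl fun i _ => ?_
    rw [Finset.mul_sum]
    exact Finset.sum_congr rfl fun j _ => by ring
  rw [Finset.sum_congr rfl fun e _ => h2 e, Finset.sum_comm]
  refine Finset.sum_congr rfl fun i _ => ?_
  rw [Finset.sum_comm]
  refine Finset.sum_congr rfl fun j _ => ?_
  unfold Sg
  rw [Matrix.of_apply, Finset.mul_sum, Finset.sum_mul]

theorem CC_self (n : ℕ) : CC q θ n n 0 (fun _ => 0) =
    (∑ e, (q e : ℂ) * Complex.exp ((((ze θ e - mn q θ) / Real.sqrt n : ℝ) : ℂ) *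
      Complex.I)) ^ n := by
  rw [CC_eq]
  have h1 : ph q θ n 0 = n * (-(mn q θ) / Real.sqrt n) := by
    unfold ph mn
    rw [neg_div, Finset.sum_div, ← Finset.sum_neg_distrib, Finset.mul_sum]
    refine Finset.sum_congr rfl fun i _ => ?_
    rw [nrm_apply, Pi.zero_apply]
    push_cast
    ring
  have h2 : Complex.exp ((ph q θ n 0 : ℂ) * Complex.I) =
      Complex.exp (((-(mn q θ) / Real.sqrt n : ℝ) : ℂ) * Complex.I) ^ n := by
    rw [← Complex.exp_nat_mul, h1]
    congr 1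
    push_cast
    ring
  rw [h2, ← mul_pow]
  congr 1
  unfold ch
  rw [Finset.mul_sum]
  refine Finset.sum_congr rfl fun e _ => ?_
  have h3 : (((ze θ e - mn q θ) / Real.sqrt n : ℝ) : ℂ) * Complex.I =
      ((-(mn q θ) / Real.sqrt n : ℝ) : ℂ) * Complex.I +
        ((ze θ e / Real.sqrt n : ℝ) : ℂ) * Complex.I := by
    push_cast
    ring
  rw [h3, Complex.exp_add]
  ring

theorem lim2 (hq : PV q) : Tendsto (fun n : ℕ => CC q θ n n 0 (fun _ => 0)) atTop
    (𝓝 (Complex.exp (((-((∑ i, ∑ j, θ i * Sg q i j * θ j) / 2) : ℝ)) : ℂ))) := by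
  simp_rw [CC_self]
  have h1 : ∀ n : ℕ, ∑ e, (q e : ℂ) * Complex.exp ((((ze θ e - mn q θ) / Real.sqrt n : ℝ) : ℂ) *
      Complex.I) = 1 + ∑ e, (q e : ℂ) * (Complex.exp ((((ze θ e - mn q θ) / Real.sqrt n : ℝ) : ℂ) *
      Complex.I) - 1 - (((ze θ e - mn q θ) / Real.sqrt n : ℝ) : ℂ) * Complex.I) := by
    intro n
    have h2 : ∑ e, (q e : ℂ) = 1 := by
      rw [← Complex.ofReal_sum, hq.2, Complex.ofReal_one]
    have h3 : ∑ e, (q e : ℂ) * ((((ze θ e - mn q θ) / Real.sqrt n : ℝ) : ℂ) * Complex.I) = 0 := by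
      have h4 : ∑ e, q e * (ze θ e - mn q θ) = 0 := by
        simp_rw [mul_sub]
        rw [Finset.sum_sub_distrib, mean_ze, ← Finset.sum_mul, hq.2, one_mul, sub_self]
      have h5 : ∑ e, (q e : ℂ) * ((((ze θ e - mn q θ) / Real.sqrt n : ℝ) : ℂ) * Complex.I) =
          ((∑ e, q e * (ze θ e - mn q θ) : ℝ) : ℂ) * (1 / (Real.sqrt n : ℂ) * Complex.I) := by
        rw [Complex.ofReal_sum, Finset.sum_mul]
        refine Finset.sum_congr rfl fun e _ => ?_
        push_cast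
        ring
      rw [h5, h4, Complex.ofReal_zero, zero_mul]
    have h8 : ∀ e, (q e : ℂ) * (Complex.exp ((((ze θ e - mn q θ) / Real.sqrt n : ℝ) : ℂ) *
        Complex.I) - 1 - (((ze θ e - mn q θ) / Real.sqrt n : ℝ) : ℂ) * Complex.I) =
        (q e : ℂ) * Complex.exp ((((ze θ e - mn q θ) / Real.sqrt n : ℝ) : ℂ) * Complex.I) -
          (q e : ℂ) -
          (q e : ℂ) * ((((ze θ e - mn q θ) / Real.sqrt n : ℝ) : ℂ) * Complex.I) := fun e => by
      ring
    rw [Finset.sum_congr rfl fun e _ => h8 e, Finset.sum_sub_distrib, Finset.sum_sub_distrib,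
      h2, h3]
    ring
  simp_rw [h1]
  refine Complex.tendsto_one_add_pow_exp_of_tendsto ?_
  have h6 : ∀ n : ℕ, (n : ℂ) * ∑ e, (q e : ℂ) * (Complex.exp
      ((((ze θ e - mn q θ) / Real.sqrt n : ℝ) : ℂ) * Complex.I) - 1 -
        (((ze θ e - mn q θ) / Real.sqrt n : ℝ) : ℂ) * Complex.I) =
      ∑ e, (q e : ℂ) * ((n : ℂ) * (Complex.exp
      ((((ze θ e - mn q θ) / Real.sqrt n : ℝ) : ℂ) * Complex.I) - 1 -
        (((ze θ e - mn q θ) / Real.sqrt n : ℝ) : ℂ) * Complex.I)) := by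
    intro n
    rw [Finset.mul_sum]
    exact Finset.sum_congr rfl fun e _ => by ring
  simp_rw [h6]
  have h7 : (((-((∑ i, ∑ j, θ i * Sg q i j * θ j) / 2) : ℝ)) : ℂ) =
      ∑ e, (q e : ℂ) * (-(((ze θ e - mn q θ : ℝ) : ℂ) ^ 2 / 2)) := by
    rw [← var_ze, Finset.sum_div, ← Finset.sum_neg_distrib, Complex.ofReal_sum]
    refine Finset.sum_congr rfl fun e _ => ?_
    push_cast
    ring
  rw [h7]
  exact tendsto_finsetSum _ fun e _ => (lim1 (ze θ e - mn q θ)).const_mul (q e : ℂ)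

end Cl_aux

open Cl_aux in
theorem tCl : S_Cl := by
  intro d q hq θ
  have h1 := lim2 q θ hq
  rw [← Complex.ofReal_exp] at h1
  have h2 := (Complex.continuous_re.tendsto _).comp h1
  have h3 := (Complex.continuous_im.tendsto _).comp h1
  rw [Complex.ofReal_re] at h2
  rw [Complex.ofReal_im] at h3
  constructor
  · refine h2.congr fun n => ?_
    change (CC q θ n n 0 (fun _ => 0)).re = _
    unfold CC
    simp [ph]
  · refine h3.congr fun n => ?_
    change (CC q θ n n 0 (fun _ => 0)).im = _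
    unfold CC
    simp [ph]

end MP0d3db7NS
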