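import Pool.Agent.Lib.MP_0d3db7.NS.Spec2

/-!
# MP_0d3db7_pr, theorems NS2 and NS3: from the deviations in the windows to the limit theorem
-/

set_option autoImplicit false

namespace MP0d3db7NS

open MeasureTheory ProbabilityTheory Filter Topology

namespace Core_aux

/-- the window of `n` -/
theorem win (hSz : S_Sz) (θ : ℝ) (hθ0 : 0 < θ) (hθ1 : θ < 1) (R : ℕ → ℕ → ℕ → Prop)
    (h : ∀ᶠ b in atTop, ∀ i ≤ gb θ b, ∀ n, nw θ b i ≤ n → n < nw θ b i + hb θ b →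
      n < 2 ^ (b + 1) → R b i n) :
    ∀ᶠ n in atTop, ∃ b i, 1 ≤ b ∧ i ≤ gb θ b ∧ nw θ b i ≤ n ∧ n < nw θ b i + hb θ b ∧
      n < 2 ^ (b + 1) ∧ R b i n := by
  obtain ⟨b0, hb0⟩ := eventually_atTop.1 h
  filter_upwards [eventually_ge_atTop (2 ^ (b0 + 1))] with n hn
  have h0 : n ≠ 0 := by
    have := Nat.one_le_two_pow (n := b0 + 1)
    omega
  have h1 : 2 ^ Nat.log 2 n ≤ n := Nat.pow_log_le_self 2 h0
  have h2 : n < 2 ^ (Nat.log 2 n + 1) := Nat.lt_pow_succ_log_self (by norm_num) n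
  have h3 : b0 + 1 ≤ Nat.log 2 n := Nat.le_log_of_pow_le (by norm_num) hn
  obtain ⟨i, hi, h4, h5⟩ := (hSz θ hθ0 hθ1 (Nat.log 2 n) (by omega)).2.2.2.2.1 n h1 h2
  exact ⟨Nat.log 2 n, i, by omega, hi, h4, h5, h2, hb0 _ (by omega) i hi n h4 h5 h2⟩

theorem err (θ : ℝ) (hθ0 : 0 < θ) (hθ1 : θ < 1) (η : ℝ) (hη : 0 < η) :
    ∀ᶠ b : ℕ in atTop, (b : ℝ) ^ (θ / 2) * ((b : ℝ) ^ (-θ) + 1 / 2 ^ b) ≤ η := by
  have h1 : Tendsto (fun b : ℕ => 2 * (b : ℝ) ^ (-(θ / 2))) atTop (𝓝 (2 * 0)) :=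
    ((tendsto_rpow_neg_atTop (by positivity)).comp tendsto_natCast_atTop_atTop).const_mul 2
  rw [mul_zero] at h1
  filter_upwards [h1.eventually (ge_mem_nhds hη), eventually_ge_atTop 1] with b hb hb1
  have hbr : (1 : ℝ) ≤ b := by exact_mod_cast hb1
  have h2 : (1 : ℝ) / 2 ^ b ≤ (b : ℝ) ^ (-θ) := by
    have h3 : (b : ℝ) ≤ 2 ^ b := by exact_mod_cast (Nat.lt_two_pow_self (n := b)).le
    rw [Real.rpow_neg (by positivity), one_div]
    apply inv_anti₀ (by positivity)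
    calc (b : ℝ) ^ θ ≤ (b : ℝ) ^ (1 : ℝ) := Real.rpow_le_rpow_of_exponent_le hbr hθ1.le
      _ = b := Real.rpow_one _
      _ ≤ 2 ^ b := h3
  calc (b : ℝ) ^ (θ / 2) * ((b : ℝ) ^ (-θ) + 1 / 2 ^ b)
      ≤ (b : ℝ) ^ (θ / 2) * ((b : ℝ) ^ (-θ) + (b : ℝ) ^ (-θ)) := by gcongr
    _ = 2 * ((b : ℝ) ^ (θ / 2) * (b : ℝ) ^ (-θ)) := by ring
    _ = 2 * (b : ℝ) ^ (-(θ / 2)) := by
        rw [← Real.rpow_add (by positivity)]
        congr 2
        ring
    _ ≤ η := hb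

theorem err' (θ : ℝ) (hθ0 : 0 < θ) (hθ1 : θ < 1) (η : ℝ) (hη : 0 < η) :
    ∀ᶠ b : ℕ in atTop, (b : ℝ) ^ (-θ) + 1 / 2 ^ b ≤ η := by
  filter_upwards [err θ hθ0 hθ1 η hη, eventually_ge_atTop 1] with b hb hb1
  have hbr : (1 : ℝ) ≤ b := by exact_mod_cast hb1
  have h1 : (1 : ℝ) ≤ (b : ℝ) ^ (θ / 2) := Real.one_le_rpow hbr (by positivity)
  have h2 : 0 ≤ (b : ℝ) ^ (-θ) + 1 / 2 ^ b := by positivity
  nlinarith

section av

variable {V E : Type} [AddCommGroup V] [DecidableEq V] [Fintype E]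

theorem avle (s : E → V) (w : V × ℕ → E → ℝ) (f : ℕ → V → ℝ) (n0 h : ℕ) (hh : 1 ≤ h) (L η : ℝ)
    (H : ∀ m ∈ Finset.Ico n0 (n0 + h), |U s w (f m) m 0 (fun _ => 0) - L| ≤ η) :
    |Av s w f n0 h - L| ≤ η := by
  have hh' : (0 : ℝ) < h := by exact_mod_cast hh
  have h1 : Av s w f n0 h - L = 1 / (h : ℝ) *
      ∑ m ∈ Finset.Ico n0 (n0 + h), (U s w (f m) m 0 (fun _ => 0) - L) := by
    rw [Finset.sum_sub_distrib, Finset.sum_const, Nat.card_Ico, Av, nsmul_eq_mul, mul_sub]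
    simp only [add_tsub_cancel_left]
    field_simp
  rw [h1, abs_mul, abs_of_pos (by positivity : 0 < 1 / (h : ℝ))]
  calc 1 / (h : ℝ) * |∑ m ∈ Finset.Ico n0 (n0 + h), (U s w (f m) m 0 (fun _ => 0) - L)|
      ≤ 1 / (h : ℝ) * ∑ m ∈ Finset.Ico n0 (n0 + h), η := by
        refine mul_le_mul_of_nonneg_left ?_ (by positivity)
        exact (Finset.abs_sum_le_sum_abs _ _).trans (Finset.sum_le_sum H)
    _ = η := by
        rw [Finset.sum_const, Nat.card_Ico, nsmul_eq_mul]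
        simp only [add_tsub_cancel_left]
        field_simp

theorem avge (s : E → V) (w : V × ℕ → E → ℝ) (f : ℕ → V → ℝ) (n0 h : ℕ) (hh : 1 ≤ h) (L : ℝ)
    (H : ∀ m ∈ Finset.Ico n0 (n0 + h), L ≤ U s w (f m) m 0 (fun _ => 0)) :
    L ≤ Av s w f n0 h := by
  have hh' : (0 : ℝ) < h := by exact_mod_cast hh
  calc L = 1 / (h : ℝ) * ∑ m ∈ Finset.Ico n0 (n0 + h), L := by
        rw [Finset.sum_const, Nat.card_Ico, nsmul_eq_mul]
        simp only [add_tsub_cancel_left]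
        field_simp
    _ ≤ Av s w f n0 h := by
        rw [Av]
        exact mul_le_mul_of_nonneg_left (Finset.sum_le_sum H) (by positivity)

end av

variable {d : ℕ}

/-- the bad events -/
def GQ (q : Dr d → ℝ) (w : (Fin d → ℤ) × ℕ → Dr d → ℝ) (θ : ℝ) : Prop :=
  ∀ j l : ℕ, ∀ᶠ b in atTop, ∀ i ≤ gb θ b,
    QB q w (nw θ b i + hb θ b) (hb θ b) (1 / ((j : ℝ) + 1) * Real.sqrt (nw θ b i)) <
      1 / ((l : ℝ) + 1) ∧
    QB q w (2 ^ (b + 2)) (2 ^ (b + 2)) ((b : ℝ) ^ (θ / 2) * Real.sqrt (2 ^ b)) <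
      1 / ((l : ℝ) + 1)

/-- the deviations -/
def GD (q : Dr d → ℝ) (w : (Fin d → ℤ) × ℕ → Dr d → ℝ) (θ : ℝ)
    (G : ℕ → EuclideanSpace ℝ (Fin d) → ℝ) : Prop :=
  ∀ j : ℕ, ∀ᶠ b in atTop, ∀ i ≤ gb θ b,
    |Av (st d) w (fun m x => G b (nr q (nw θ b i) m x)) (nw θ b i) (hb θ b) -
      Av (st d) (fun _ => q) (fun m x => G b (nr q (nw θ b i) m x)) (nw θ b i) (hb θ b)| <
      2 * (1 / ((j : ℝ) + 1))

theorem trf (hIw : S_Iw) (q : Dr d → ℝ) (hq : PV q) (θ : ℝ) (hθ0 : 0 < θ) (hθ1 : θ < 1)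
    (w : (Fin d → ℤ) × ℕ → Dr d → ℝ) (hw : ∀ κ, PV (w κ)) (hQ : GQ q w θ)
    (G : ℕ → EuclideanSpace ℝ (Fin d) → ℝ) (Λ : ℝ) (hΛ : 0 ≤ Λ) (hG : ∀ b y, |G b y| ≤ 1)
    (hGl : ∀ b y y', |G b y - G b y'| ≤ Λ * ‖y - y'‖) (hD : GD q w θ G) (η : ℝ) (hη : 0 < η) :
    ∀ᶠ b in atTop, ∀ i ≤ gb θ b, ∀ n, nw θ b i ≤ n → n < nw θ b i + hb θ b → n < 2 ^ (b + 1) →
      |Ex (st d) w (fun h => G b (nrm q n (pos (st d) h))) n [] -
        Av (st d) (fun _ => q) (fun m x => G b (nr q (nw θ b i) m x)) (nw θ b i) (hb θ b)| ≤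
      η := by
  have hK : 0 < 3 * Λ * d + 6 := by positivity
  obtain ⟨j, hj⟩ := exists_nat_one_div_lt (div_pos hη hK)
  have hρ : (3 * Λ * d + 6) * (η / (3 * Λ * d + 6)) = η := by field_simp
  set ρ := η / (3 * Λ * d + 6) with hρd
  have hρ0 : 0 < ρ := div_pos hη hK
  filter_upwards [hQ j j, hD j, err θ hθ0 hθ1 ρ hρ0, eventually_ge_atTop 1] with b h1 h2 h3 h4
    i hi n hn1 hn2 hn3
  have h5 := (hIw d q hq w hw θ hθ0 hθ1 b i n h4 hn1 hn2 hn3).1 (G b) Λ (1 / ((j : ℝ) + 1)) hΛ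
    (by positivity) (hG b) (hGl b)
  have h6 := h1 i hi
  have h7 := h2 i hi
  have h8 : |Ex (st d) w (fun h => G b (nrm q n (pos (st d) h))) n [] -
        Av (st d) (fun _ => q) (fun m x => G b (nr q (nw θ b i) m x)) (nw θ b i) (hb θ b)| ≤
      |Ex (st d) w (fun h => G b (nrm q n (pos (st d) h))) n [] -
        Av (st d) w (fun m x => G b (nr q (nw θ b i) m x)) (nw θ b i) (hb θ b)| +
      |Av (st d) w (fun m x => G b (nr q (nw θ b i) m x)) (nw θ b i) (hb θ b) -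
      Av (st d) (fun _ => q) (fun m x => G b (nr q (nw θ b i) m x)) (nw θ b i) (hb θ b)| :=
    abs_sub_le _ _ _
  have h9 : Λ * (d * ((b : ℝ) ^ (θ / 2) * ((b : ℝ) ^ (-θ) + 1 / 2 ^ b) +
      2 * (1 / ((j : ℝ) + 1)))) ≤ Λ * (d * (ρ + 2 * ρ)) := by
    gcongr
  have h10 : Λ * (d * (ρ + 2 * ρ)) + 6 * ρ = η := by
    rw [← hρ]
    ring
  linarith [h6.1, h6.2]

/-- the size of the windows -/
theorem small (hSz : S_Sz) (θ : ℝ) (hθ0 : 0 < θ) (hθ1 : θ < 1) (δ : ℝ) (hδ : 0 < δ) :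
    ∀ᶠ b : ℕ in atTop, ∀ i m : ℕ, m < nw θ b i + hb θ b →
      (m : ℝ) ≤ (nw θ b i : ℝ) * (1 + δ) := by
  filter_upwards [err' θ hθ0 hθ1 δ hδ, eventually_ge_atTop 1] with b h1 h2 i m hm
  have h3 := (hSz θ hθ0 hθ1 b h2).2.2.2.1
  have h4 : (m : ℝ) ≤ nw θ b i + hb θ b := by exact_mod_cast hm.le
  have h5 : (2 : ℝ) ^ b ≤ nw θ b i := by
    rw [nw]
    push_cast
    have : (0 : ℝ) ≤ (i : ℝ) * hb θ b := by positivity
    linarith
  have h6 : (hb θ b : ℝ) ≤ 2 ^ b * ((b : ℝ) ^ (-θ) + 1 / 2 ^ b) := by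
    refine h3.trans (le_of_eq ?_)
    field_simp
  have h7 : (2 : ℝ) ^ b * ((b : ℝ) ^ (-θ) + 1 / 2 ^ b) ≤ nw θ b i * δ :=
    mul_le_mul h5 h1 (by positivity) (by positivity)
  linarith

theorem nwlarge (θ : ℝ) (N0 : ℕ) : ∀ᶠ b : ℕ in atTop, ∀ i, N0 ≤ nw θ b i := by
  filter_upwards [eventually_ge_atTop N0] with b hb i
  have h1 : b < 2 ^ b := Nat.lt_two_pow_self
  rw [nw]
  have : 0 ≤ i * MP0d3db7NS.hb θ b := Nat.zero_le _
  omega

theorem mean (hSz : S_Sz) (hCq : S_Cq) (q : Dr d → ℝ) (hq : PV q) (θ : ℝ) (hθ0 : 0 < θ)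
    (hθ1 : θ < 1) (θ' : Fin d → ℝ) (η : ℝ) (hη : 0 < η) :
    ∀ᶠ b in atTop, ∀ i : ℕ,
      |Av (st d) (fun _ => q) (fun m x => Real.cos (∑ i', θ' i' * nr q (nw θ b i) m x i'))
        (nw θ b i) (hb θ b) - Real.exp (-((∑ i, ∑ j, θ' i * Sg q i j * θ' j) / 2))| ≤ η ∧
      |Av (st d) (fun _ => q) (fun m x => Real.sin (∑ i', θ' i' * nr q (nw θ b i) m x i'))
        (nw θ b i) (hb θ b) - 0| ≤ η := by
  obtain ⟨N0, δ, hδ, h0⟩ := hCq d q hq θ' η hη
  filter_upwards [small hSz θ hθ0 hθ1 δ hδ, nwlarge θ N0, eventually_ge_atTop 1] with b h1 h2 h3 i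
  have h4 := (hSz θ hθ0 hθ1 b h3).2.2.1
  constructor
  · refine avle _ _ _ _ _ h4 _ _ fun m hm => ?_
    rw [Finset.mem_Ico] at hm
    exact (h0 _ m (h2 i) hm.1 (h1 i m hm.2)).1
  · refine avle _ _ _ _ _ h4 _ _ fun m hm => ?_
    rw [Finset.mem_Ico] at hm
    rw [sub_zero]
    exact (h0 _ m (h2 i) hm.1 (h1 i m hm.2)).2

theorem meanT (hSz : S_Sz) (hTm : S_Tm) (q : Dr d → ℝ) (hq : PV q) (θ : ℝ) (hθ0 : 0 < θ)
    (hθ1 : θ < 1) (i0 : Fin d) (M : ℕ) (hM : 1 ≤ M) (T : ℕ → ℕ) (hT : ∀ b, 1 ≤ T b) :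
    ∀ᶠ b in atTop, ∀ i : ℕ, 1 - 1 / (M : ℝ) ^ 2 ≤
      Av (st d) (fun _ => q) (fun m x => tg i0 M (T b) (nr q (nw θ b i) m x))
        (nw θ b i) (hb θ b) := by
  filter_upwards [small hSz θ hθ0 hθ1 1 one_pos, nwlarge θ 1, eventually_ge_atTop 1] with b h1 h2
    h3 i
  have h4 := (hSz θ hθ0 hθ1 b h3).2.2.1
  refine avge _ _ _ _ _ h4 _ fun m hm => ?_
  rw [Finset.mem_Ico] at hm
  refine hTm d q hq i0 M (T b) _ m hM (hT b) (h2 i) ?_
  have h5 := h1 i m hm.2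
  have h6 : (m : ℝ) ≤ ((2 * nw θ b i : ℕ) : ℝ) := by
    push_cast
    linarith
  exact_mod_cast h6

/-- the mean of a random probability vector -/
theorem pvq {E Ω : Type} [Fintype E] [MeasurableSpace Ω] (P : Measure Ω) [IsProbabilityMeasure P]
    (X : Ω → E → ℝ) (hm : Measurable X) (hpv : ∀ o, PV (X o)) (q : E → ℝ)
    (hq : ∀ e, ∫ o, X o e ∂P = q e) : PV q := by
  have hle : ∀ o e, X o e ≤ 1 := by
    intro o e
    rw [← (hpv o).2]
    exact Finset.single_le_sum (fun e _ => (hpv o).1 e) (Finset.mem_univ e)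
  have hint : ∀ e, Integrable (fun o => X o e) P := by
    intro e
    refine Integrable.of_bound ((measurable_pi_apply e).comp hm).aestronglyMeasurable 1
      (Eventually.of_forall fun o => ?_)
    rw [Real.norm_eq_abs, abs_of_nonneg ((hpv o).1 e)]
    exact hle o e
  refine ⟨fun e => ?_, ?_⟩
  · rw [← hq e]
    exact integral_nonneg fun o => (hpv o).1 e
  · have h1 : ∑ e, q e = ∫ o, ∑ e, X o e ∂P := by
      rw [integral_finsetSum _ fun e _ => hint e]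
      exact Finset.sum_congr rfl fun e _ => (hq e).symm
    rw [h1]
    simp [(hpv _).2]

end Core_aux

open Core_aux

open Classical in
/-- the limit theorem in a good environment -/
theorem tDet (hPa : S_Pa) (hSz : S_Sz) (hIw : S_Iw) (hCq : S_Cq) (hTg : S_Tg) (hTm : S_Tm)
    (hFm : S_Fm) {d : ℕ} (q : Dr d → ℝ) (hq : PV q) (θ : ℝ) (hθ0 : 0 < θ) (hθ1 : θ < 1)
    (w : (Fin d → ℤ) × ℕ → Dr d → ℝ) (hw : ∀ κ, PV (w κ)) (hQ : GQ q w θ)
    (hcos : ∀ θ' : Fin d → ℚ, GD q w θ fun _ y => Real.cos (∑ i, (θ' i : ℝ) * y i))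
    (hsin : ∀ θ' : Fin d → ℚ, GD q w θ fun _ y => Real.sin (∑ i, (θ' i : ℝ) * y i))
    (htg : ∀ (i0 : Fin d) (M : ℕ), 1 ≤ M → GD q w θ fun b => tg i0 M (⌈(b : ℝ) ^ (θ / 2)⌉₊ + 1)) :
    ∀ f : BoundedContinuousFunction (EuclideanSpace ℝ (Fin d)) ℝ,
      Tendsto (fun n : ℕ => quenchE (st d) w n fun h => f (nrm q n (pos (st d) h))) atTop
        (𝓝 (∫ x, f x ∂(multivariateGaussian 0 (Sg q)))) := by
  refine hFm d q hq w hw (fun θ' => ⟨?_, ?_⟩) fun δ hδ => ?_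
  · rw [Metric.tendsto_nhds]
    intro η hη
    have h1 := trf hIw q hq θ hθ0 hθ1 w hw hQ (fun _ y => Real.cos (∑ i, (θ' i : ℝ) * y i))
      (∑ i, |(θ' i : ℝ)|) (Finset.sum_nonneg fun i _ => abs_nonneg _)
      (fun _ y => Real.abs_cos_le_one _) (fun _ y y' => ((hTg d).1 fun i => (θ' i : ℝ)).2.2.1 y y')
      (hcos θ') (η / 3) (by positivity)
    have h2 := mean hSz hCq q hq θ hθ0 hθ1 (fun i => (θ' i : ℝ)) (η / 3) (by positivity)
    have h3 := win hSz θ hθ0 hθ1 (fun b i n => |Ex (st d) w (fun h => Real.cos (∑ i, (θ' i : ℝ) *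
      nrm q n (pos (st d) h) i)) n [] -
        Real.exp (-((∑ i, ∑ j, (θ' i : ℝ) * Sg q i j * θ' j) / 2))| ≤ η / 3 + η / 3) (by
      filter_upwards [h1, h2] with b h4 h5 i hi n hn1 hn2 hn3
      exact (abs_sub_le _ _ _).trans (add_le_add (h4 i hi n hn1 hn2 hn3) (h5 i).1))
    filter_upwards [h3] with n hn
    obtain ⟨b, i, -, -, -, -, -, hn⟩ := hn
    rw [Real.dist_eq]
    linarith
  · rw [Metric.tendsto_nhds]
    intro η hη
    have h1 := trf hIw q hq θ hθ0 hθ1 w hw hQ (fun _ y => Real.sin (∑ i, (θ' i : ℝ) * y i))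
      (∑ i, |(θ' i : ℝ)|) (Finset.sum_nonneg fun i _ => abs_nonneg _)
      (fun _ y => Real.abs_sin_le_one _) (fun _ y y' => ((hTg d).1 fun i => (θ' i : ℝ)).2.2.2 y y')
      (hsin θ') (η / 3) (by positivity)
    have h2 := mean hSz hCq q hq θ hθ0 hθ1 (fun i => (θ' i : ℝ)) (η / 3) (by positivity)
    have h3 := win hSz θ hθ0 hθ1 (fun b i n => |Ex (st d) w (fun h => Real.sin (∑ i, (θ' i : ℝ) *
      nrm q n (pos (st d) h) i)) n [] - 0| ≤ η / 3 + η / 3) (by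
      filter_upwards [h1, h2] with b h4 h5 i hi n hn1 hn2 hn3
      exact (abs_sub_le _ _ _).trans (add_le_add (h4 i hi n hn1 hn2 hn3) (h5 i).2))
    filter_upwards [h3] with n hn
    obtain ⟨b, i, -, -, -, -, -, hn⟩ := hn
    rw [Real.dist_eq]
    linarith
  · -- tightness
    obtain ⟨M, hM0, hM⟩ : ∃ M : ℕ, 1 ≤ M ∧ 2 * (d : ℝ) * (1 / (M : ℝ) ^ 2) ≤ δ / 2 := by
      obtain ⟨M, hM⟩ := exists_nat_gt (4 * (d : ℝ) / δ)
      refine ⟨M + 1, by omega, ?_⟩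
      have h1 : 4 * (d : ℝ) / δ < M + 1 := hM.trans (by linarith)
      rw [div_lt_iff₀ hδ] at h1
      have h2 : (1 : ℝ) ≤ (M : ℝ) + 1 := by linarith [Nat.cast_nonneg (α := ℝ) M]
      push_cast
      rw [mul_one_div, div_le_iff₀ (by positivity)]
      have h3 : ((M : ℝ) + 1) ≤ ((M : ℝ) + 1) ^ 2 := by nlinarith
      nlinarith
    refine ⟨2 * Real.pi * M, ?_⟩
    have hK : 0 < 4 * ((d : ℝ) + 1) := by positivity
    have hη : 0 < δ / 2 / (4 * ((d : ℝ) + 1)) := by positivity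
    have hηd : (4 * ((d : ℝ) + 1)) * (δ / 2 / (4 * ((d : ℝ) + 1))) = δ / 2 := by field_simp
    set η := δ / 2 / (4 * ((d : ℝ) + 1)) with hηdef
    obtain ⟨l, hl⟩ := exists_nat_one_div_lt hη
    have h1 : ∀ᶠ b : ℕ in atTop, ∀ i0 : Fin d, ∀ i ≤ gb θ b, ∀ n, nw θ b i ≤ n →
        n < nw θ b i + hb θ b → n < 2 ^ (b + 1) →
        |Ex (st d) w (fun h => tg i0 M (⌈(b : ℝ) ^ (θ / 2)⌉₊ + 1) (nrm q n (pos (st d) h))) n [] -
          Av (st d) (fun _ => q) (fun m x => tg i0 M (⌈(b : ℝ) ^ (θ / 2)⌉₊ + 1)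
            (nr q (nw θ b i) m x)) (nw θ b i) (hb θ b)| ≤ η := by
      rw [eventually_all]
      intro i0
      exact trf hIw q hq θ hθ0 hθ1 w hw hQ (fun b => tg i0 M (⌈(b : ℝ) ^ (θ / 2)⌉₊ + 1)) 1
        zero_le_one (fun b y => ((hTg d).2 i0 M _ hM0 (by omega)).2.1 y)
        (fun b y y' => ((hTg d).2 i0 M _ hM0 (by omega)).2.2.1 y y') (htg i0 M hM0) η hη
    have h2 : ∀ᶠ b : ℕ in atTop, ∀ i0 : Fin d, ∀ i : ℕ, 1 - 1 / (M : ℝ) ^ 2 ≤
        Av (st d) (fun _ => q) (fun m x => tg i0 M (⌈(b : ℝ) ^ (θ / 2)⌉₊ + 1)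
          (nr q (nw θ b i) m x)) (nw θ b i) (hb θ b) := by
      rw [eventually_all]
      intro i0
      exact meanT hSz hTm q hq θ hθ0 hθ1 i0 M hM0 (fun b => ⌈(b : ℝ) ^ (θ / 2)⌉₊ + 1)
        (fun b => by omega)
    have h3 := win hSz θ hθ0 hθ1 (fun b i n => Ex (st d) w (fun h =>
      if ∃ i, 2 * Real.pi * M < |nrm q n (pos (st d) h) i| then 1 else 0) n [] ≤ δ) (by
      filter_upwards [h1, h2, hQ 0 l, eventually_ge_atTop 1] with b h4 h5 h6 hb1 i hi n hn1 hn2 hn3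
      have h7 := hPa (st d) w
      have hmono := h7.2.2.2.1 hw
      have hlin := h7.2.2.1
      have hconst := h7.2.2.2.2.1 hw
      set T := ⌈(b : ℝ) ^ (θ / 2)⌉₊ + 1 with hT
      have hTb : (b : ℝ) ^ (θ / 2) ≤ (T : ℝ) := by
        rw [hT]
        push_cast
        linarith [Nat.le_ceil ((b : ℝ) ^ (θ / 2))]
      -- each coordinate
      have h8 : ∀ i0 : Fin d, Ex (st d) w (fun h =>
          if 2 * Real.pi * M < |nrm q n (pos (st d) h) i0| then 1 else 0) n [] ≤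
          2 * (1 / (M : ℝ) ^ 2) + 4 * η := by
        intro i0
        have h9 : Ex (st d) w (fun h =>
            if 2 * Real.pi * M < |nrm q n (pos (st d) h) i0| then 1 else 0) n [] ≤
            Ex (st d) w (fun h => (-2) * tg i0 M T (nrm q n (pos (st d) h)) + 1 * (2 +
              if (T : ℝ) < |nrm q n (pos (st d) h) i0| then 1 else 0)) n [] := by
          refine hmono _ _ n [] fun h _ => ?_
          have h10 := (hTg d).2 i0 M T hM0 (by omega)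
          have h11 := abs_le.1 (h10.2.1 (nrm q n (pos (st d) h)))
          by_cases h12 : 2 * Real.pi * M < |nrm q n (pos (st d) h) i0|
          · by_cases h13 : (T : ℝ) < |nrm q n (pos (st d) h) i0|
            · rw [if_pos h12, if_pos h13]
              linarith [h11.2]
            · rw [if_pos h12, if_neg h13]
              have := h10.2.2.2 _ h12 (not_lt.1 h13)
              linarith
          · rw [if_neg h12]
            split_ifs <;> linarith [h11.2]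
        rw [hlin, one_mul] at h9
        have h14 : Ex (st d) w (fun h => (2 : ℝ) +
            if (T : ℝ) < |nrm q n (pos (st d) h) i0| then 1 else 0) n [] =
            2 + Ex (st d) w (fun h =>
              if (T : ℝ) < |nrm q n (pos (st d) h) i0| then 1 else 0) n [] := by
          have h15 := hlin (fun _ => (1 : ℝ)) (fun h =>
              if (T : ℝ) < |nrm q n (pos (st d) h) i0| then 1 else 0) 2 1 n []
          rw [hconst] at h15
          simp only [mul_one, one_mul] at h15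
          exact h15
        rw [h14] at h9
        have h16 : Ex (st d) w (fun h =>
              if (T : ℝ) < |nrm q n (pos (st d) h) i0| then 1 else 0) n [] ≤
            QB q w (2 ^ (b + 2)) (2 ^ (b + 2)) ((b : ℝ) ^ (θ / 2) * Real.sqrt (2 ^ b)) := by
          refine (hIw d q hq w hw θ hθ0 hθ1 b i n hb1 hn1 hn2 hn3).2 _ (fun h => ?_) (fun h => ?_)
            fun h hh => ?_
          · split_ifs <;> norm_num
          · split_ifs <;> norm_num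
          · rw [if_neg (not_lt.2 ((hh i0).trans hTb))]
        have h17 := (abs_le.1 (h4 i0 i hi n hn1 hn2 hn3)).1
        have h18 := h5 i0 i
        have h19 := (h6 i hi).2
        linarith
      -- the union
      have h20 : Ex (st d) w (fun h =>
          if ∃ i, 2 * Real.pi * M < |nrm q n (pos (st d) h) i| then 1 else 0) n [] ≤
          Ex (st d) w (fun h => ∑ i0 : Fin d,
            if 2 * Real.pi * M < |nrm q n (pos (st d) h) i0| then (1 : ℝ) else 0) n [] := by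
        refine hmono _ _ n [] fun h _ => ?_
        by_cases h21 : ∃ i, 2 * Real.pi * M < |nrm q n (pos (st d) h) i|
        · rw [if_pos h21]
          obtain ⟨i1, hi1⟩ := h21
          have h22 : (1 : ℝ) = if 2 * Real.pi * M < |nrm q n (pos (st d) h) i1| then (1 : ℝ)
            else 0 := by rw [if_pos hi1]
          exact h22.le.trans (Finset.single_le_sum (f := fun i0 : Fin d =>
            if 2 * Real.pi * M < |nrm q n (pos (st d) h) i0| then (1 : ℝ) else 0)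
            (fun i0 _ => by dsimp only; split_ifs <;> norm_num) (Finset.mem_univ i1))
        · rw [if_neg h21]
          exact Finset.sum_nonneg fun i0 _ => by split_ifs <;> norm_num
      have h23 : ∀ (S : Finset (Fin d)), Ex (st d) w (fun h => ∑ i0 ∈ S,
            if 2 * Real.pi * M < |nrm q n (pos (st d) h) i0| then (1 : ℝ) else 0) n [] =
          ∑ i0 ∈ S, Ex (st d) w (fun h =>
            if 2 * Real.pi * M < |nrm q n (pos (st d) h) i0| then (1 : ℝ) else 0) n [] := by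
        intro S
        induction S using Finset.induction_on with
        | empty => simpa using hconst 0 n []
        | insert a S ha ih =>
          simp only [Finset.sum_insert ha]
          rw [← ih]
          have h24 := hlin (fun h =>
            if 2 * Real.pi * M < |nrm q n (pos (st d) h) a| then (1 : ℝ) else 0)
            (fun h => ∑ i0 ∈ S,
            if 2 * Real.pi * M < |nrm q n (pos (st d) h) i0| then (1 : ℝ) else 0) 1 1 n []
          simp only [one_mul] at h24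
          exact h24
      rw [h23] at h20
      have h25 : ∑ i0 : Fin d, Ex (st d) w (fun h =>
            if 2 * Real.pi * M < |nrm q n (pos (st d) h) i0| then (1 : ℝ) else 0) n [] ≤
          ∑ i0 : Fin d, (2 * (1 / (M : ℝ) ^ 2) + 4 * η) := Finset.sum_le_sum fun i0 _ => h8 i0
      rw [Finset.sum_const, Finset.card_univ, Fintype.card_fin, nsmul_eq_mul] at h25
      have h26 : (d : ℝ) * (4 * η) ≤ δ / 2 := by
        rw [← hηd]
        nlinarith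
      nlinarith)
    filter_upwards [h3] with n hn
    obtain ⟨b, i, -, -, -, -, -, hn⟩ := hn
    exact hn

/-- THE CORE -/
theorem tCore (hPa : S_Pa) (hSz : S_Sz) (hBw : S_Bw) (hIw : S_Iw) (hCq : S_Cq) (hTg : S_Tg)
    (hTm : S_Tm) (hFm : S_Fm) {d : ℕ} {Ω : Type} [MeasurableSpace Ω] (P : Measure Ω)
    [IsProbabilityMeasure P] (ω : (Fin d → ℤ) × ℕ → Ω → Dr d → ℝ) (hpv : ∀ κ o, PV (ω κ o))
    (q : Dr d → ℝ) (hqp : PV q) (θ : ℝ) (hθ0 : 0 < θ) (hθ1 : θ < 1)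
    (hdev : ∀ ε : ℝ, 0 < ε → ∃ C' : ℝ, ∀ b : ℕ, 1 ≤ b → ∀ i ≤ gb θ b,
      ∀ g : EuclideanSpace ℝ (Fin d) → ℝ, Tp d g →
      P.real {o | 2 * ε ≤ |Av (st d) (fun κ => ω κ o) (fun m x => g (nr q (nw θ b i) m x))
          (nw θ b i) (hb θ b) -
        Av (st d) (fun _ => q) (fun m x => g (nr q (nw θ b i) m x)) (nw θ b i) (hb θ b)|} ≤
        C' * (b : ℝ) ^ (-1 - 2 * θ))
    (hrb : ∀ ε δ : ℝ, 0 < ε → 0 < δ → ∃ C : ℝ, ∀ b : ℕ, 1 ≤ b → ∀ i ≤ gb θ b,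
      P.real {o | δ ≤ QB q (fun κ => ω κ o) (nw θ b i + hb θ b) (hb θ b)
          (ε * Real.sqrt (nw θ b i))} ≤ C * (b : ℝ) ^ (-1 - 2 * θ) ∧
      P.real {o | δ ≤ QB q (fun κ => ω κ o) (2 ^ (b + 2)) (2 ^ (b + 2))
          ((b : ℝ) ^ (θ / 2) * Real.sqrt (2 ^ b))} ≤ C * (b : ℝ) ^ (-1 - 2 * θ)) :
    ∀ᵐ o ∂P, ∀ f : BoundedContinuousFunction (EuclideanSpace ℝ (Fin d)) ℝ,
      Tendsto (fun n : ℕ => quenchE (st d) (fun κ => ω κ o) n
        fun h => f (nrm q n (pos (st d) h))) atTop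
        (𝓝 (∫ x, f x ∂(multivariateGaussian 0 (Sg q)))) := by
  have hQ : ∀ᵐ o ∂P, GQ q (fun κ => ω κ o) θ := by
    unfold GQ
    rw [ae_all_iff]
    intro j
    rw [ae_all_iff]
    intro l
    obtain ⟨C, hC⟩ := hrb (1 / ((j : ℝ) + 1)) (1 / ((l : ℝ) + 1)) (by positivity) (by positivity)
    have h1 := hBw P θ C (fun b i => {o | 1 / ((l : ℝ) + 1) ≤ QB q (fun κ => ω κ o)
      (nw θ b i + hb θ b) (hb θ b) (1 / ((j : ℝ) + 1) * Real.sqrt (nw θ b i))}) hθ0 hθ1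
      (fun b hb i hi => (hC b hb i hi).1)
    have h2 := hBw P θ C (fun b i => {o | 1 / ((l : ℝ) + 1) ≤ QB q (fun κ => ω κ o)
      (2 ^ (b + 2)) (2 ^ (b + 2)) ((b : ℝ) ^ (θ / 2) * Real.sqrt (2 ^ b))}) hθ0 hθ1
      (fun b hb i hi => (hC b hb i hi).2)
    filter_upwards [h1, h2] with o ho1 ho2
    filter_upwards [ho1, ho2] with b hb1 hb2 i hi
    exact ⟨not_le.1 (hb1 i hi), not_le.1 (hb2 i hi)⟩
  have hD : ∀ G : ℕ → EuclideanSpace ℝ (Fin d) → ℝ, (∀ b, Tp d (G b)) →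
      ∀ᵐ o ∂P, GD q (fun κ => ω κ o) θ G := by
    intro G hG
    unfold GD
    rw [ae_all_iff]
    intro j
    obtain ⟨C, hC⟩ := hdev (1 / ((j : ℝ) + 1)) (by positivity)
    have h1 := hBw P θ C (fun b i => {o | 2 * (1 / ((j : ℝ) + 1)) ≤
      |Av (st d) (fun κ => ω κ o) (fun m x => G b (nr q (nw θ b i) m x)) (nw θ b i) (hb θ b) -
        Av (st d) (fun _ => q) (fun m x => G b (nr q (nw θ b i) m x)) (nw θ b i) (hb θ b)|})
      hθ0 hθ1 (fun b hb i hi => hC b hb i hi (G b) (hG b))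
    filter_upwards [h1] with o ho1
    filter_upwards [ho1] with b hb1 i hi
    exact not_le.1 (hb1 i hi)
  have hcos : ∀ᵐ o ∂P, ∀ θ' : Fin d → ℚ,
      GD q (fun κ => ω κ o) θ fun _ y => Real.cos (∑ i, (θ' i : ℝ) * y i) := by
    rw [ae_all_iff]
    intro θ'
    exact hD _ fun b => ((hTg d).1 fun i => (θ' i : ℝ)).1
  have hsin : ∀ᵐ o ∂P, ∀ θ' : Fin d → ℚ,
      GD q (fun κ => ω κ o) θ fun _ y => Real.sin (∑ i, (θ' i : ℝ) * y i) := by
    rw [ae_all_iff]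
    intro θ'
    exact hD _ fun b => ((hTg d).1 fun i => (θ' i : ℝ)).2.1
  have htg : ∀ᵐ o ∂P, ∀ (i0 : Fin d) (M : ℕ), 1 ≤ M →
      GD q (fun κ => ω κ o) θ fun b => tg i0 M (⌈(b : ℝ) ^ (θ / 2)⌉₊ + 1) := by
    rw [ae_all_iff]
    intro i0
    rw [ae_all_iff]
    intro M
    by_cases hM : 1 ≤ M
    · have h1 := hD (fun b => tg i0 M (⌈(b : ℝ) ^ (θ / 2)⌉₊ + 1))
        fun b => ((hTg d).2 i0 M _ hM (by omega)).1
      filter_upwards [h1] with o ho _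
      exact ho
    · exact Eventually.of_forall fun o h => absurd h hM
  filter_upwards [hQ, hcos, hsin, htg] with o h1 h2 h3 h4
  exact tDet hPa hSz hIw hCq hTg hTm hFm q hqp θ hθ0 hθ1 (fun κ => ω κ o) (fun κ => hpv κ o)
    h1 h2 h3 h4

end MP0d3db7NS
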