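import Pool.Agent.Lib.MP_0d3db7.NS.Spec3

/-!
# MP_0d3db7_pr, theorem NS3: comparison (module Cp)
-/

set_option autoImplicit false

namespace MP0d3db7NS

open MeasureTheory ProbabilityTheory Filter Topology

namespace Cp_aux

/-- the elementary inequality -/
lemma ineq (A B : ℂ) (η : ℝ) (hη : 0 < η) :
    ‖A‖ ^ 2 ≤ (1 + η) * ‖B‖ ^ 2 + (1 + 1 / η) * ‖A - B‖ ^ 2 := by
  have h1 : ‖A‖ ≤ ‖B‖ + ‖A - B‖ := by
    have := norm_add_le B (A - B)
    rwa [add_sub_cancel] at this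
  have h2 : ‖A‖ ^ 2 ≤ (‖B‖ + ‖A - B‖) ^ 2 := pow_le_pow_left₀ (norm_nonneg _) h1 2
  have h3 : 0 ≤ (η * ‖B‖ - ‖A - B‖) ^ 2 / η := by positivity
  have h4 : (η * ‖B‖ - ‖A - B‖) ^ 2 / η = η * ‖B‖ ^ 2 - 2 * ‖B‖ * ‖A - B‖ +
      1 / η * ‖A - B‖ ^ 2 := by
    field_simp
    ring
  rw [h4] at h3
  nlinarith

/-- the convolution -/
lemma conv (M : ℕ) (v a : ℕ → ℝ) (hv : ∀ t, 0 ≤ v t) (ha : ∀ t, 0 ≤ a t) :
    ∑ n ∈ Finset.range M, ∑ t ∈ Finset.range (n + 1), v t * a (n - t) ≤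
      (∑ t ∈ Finset.range M, v t) * ∑ n ∈ Finset.range M, a n := by
  rw [Finset.sum_range_diag_flip M fun t m => v t * a m, Finset.sum_mul]
  refine Finset.sum_le_sum fun t _ => ?_
  rw [← Finset.mul_sum]
  refine mul_le_mul_of_nonneg_left ?_ (hv t)
  exact Finset.sum_le_sum_of_subset_of_nonneg (Finset.range_mono (Nat.sub_le M t))
    fun i _ _ => ha i

section

variable {ι E Ω : Type} [DecidableEq ι] [Countable ι] [Fintype E] [DecidableEq E]
  [MeasurableSpace Ω] {P : Measure Ω} {ω : ι → Ω → E → ℝ} {q : E → ℝ}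

omit [Countable ι] in
lemma nice_sub {F H : (ι → E → ℝ) → ℂ} (hF : Nice F) (hH : Nice H) :
    Nice fun w => F w - H w := by
  refine ⟨hF.cont.sub hH.cont, ?_, ?_⟩
  · obtain ⟨C, hC⟩ := hF.bd
    obtain ⟨C', hC'⟩ := hH.bd
    exact ⟨C + C', fun w hw => (norm_sub_le _ _).trans (add_le_add (hC w hw) (hC' w hw))⟩
  · intro κ w p hp
    show F (Function.update w κ p) - H (Function.update w κ p) = _
    rw [hF.aff κ w p hp, hH.aff κ w p hp, ← Finset.sum_sub_distrib]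
    exact Finset.sum_congr rfl fun e _ => by ring

lemma int_Dk (hC : Ci P ω q) (κ : ι) {F : (ι → E → ℝ) → ℂ} (hF : Nice F) :
    Integrable (fun o => ‖Dk q κ F (fun κ => ω κ o)‖ ^ 2) P := by
  have := hC.prob
  obtain ⟨C, hb⟩ := hF.bd
  have hW : Measurable fun o => (fun κ => ω κ o) := measurable_pi_iff.2 hC.meas
  have hc : Continuous (Dk q κ F) := by
    unfold Dk
    exact hF.cont.sub (hF.cont.comp (continuous_id.update κ continuous_const))
  have hm : Measurable fun o => ‖Dk q κ F (fun κ => ω κ o)‖ ^ 2 :=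
    ((hc.norm.pow 2).measurable).comp hW
  refine Integrable.of_bound hm.aestronglyMeasurable ((C + C) ^ 2)
    (Filter.Eventually.of_forall fun o => ?_)
  rw [Real.norm_eq_abs, abs_of_nonneg (sq_nonneg _)]
  refine pow_le_pow_left₀ (norm_nonneg _) ?_ 2
  unfold Dk
  refine (norm_sub_le _ _).trans (add_le_add (hb _ fun κ => hC.pv κ o) (hb _ fun κ' => ?_))
  by_cases h : κ' = κ
  · subst h
    rw [Function.update_self]
    exact hC.pvq κ'
  · rw [Function.update_of_ne h]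
    exact hC.pv κ' o

end

end Cp_aux

open Cp_aux in
theorem tCp (hOr : S_Or) (hUb : S_Ub) (hIv : S_Iv) (hEg : S_Eg) (hJe : S_Je) (hVf : S_Vf) :
    S_Cp := by
  intro V E Ω _ _ _ _ _ _ s P ω q χ hC hχ a e hae hsae hK M η hη
  set K : ℝ := K2m P ω (0, 1) a e with hKdef
  obtain ⟨hv0, hv1, -, -, -, -⟩ := hVf s q (hC.pvq (0, 1))
  set r' : V → ℕ := up (fun _ => 0) 0 with hr'
  have hvs : ∀ t x z i, 0 ≤ vs s q t x z i := by
    intro t x z i
    rw [← hv1 z i t x r']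
    exact hv0 _ _ _ _
  have hal : ∀ n, 0 ≤ al s P ω q χ n := fun n => integral_nonneg fun o => sq_nonneg _
  obtain ⟨-, -, -, -, -, -, hN⟩ := hUb s χ
  have hχ1 : ∀ y, ‖χ y‖ ≤ 1 := fun y => (hχ.norm y).le
  have hN' : ∀ n x r, Nice fun w : V × ℕ → E → ℝ => Uc s w χ n x r := by
    intro n x r
    have := hN hχ1 n x r 0
    simpa using this
  have step : ∀ n, al s P ω q χ n ≤
      (1 + η) * (∑ t ∈ Finset.range (n + 1), vs s q t (s e) (s a) 0 * al s P ω q χ (n - t)) +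
        (1 + 1 / η) / K * (en s P ω χ (n + 1) - en s P ω χ (n + 2)) := by
    intro n
    set κ0 : V × ℕ := (s a, r' (s a) + 1) with hκ0
    set F : (V × ℕ → E → ℝ) → ℂ := fun w => Uc s w χ (n + 1) (s a) r' with hF
    set H : (V × ℕ → E → ℝ) → ℂ := fun w => Uc s w χ (n + 1) (s e) r' with hH
    have e1 : al s P ω q χ n = ∫ o, ‖Dk q κ0 F (fun κ => ω κ o)‖ ^ 2 ∂P :=
      ((hIv s P ω q χ hC hχ n (s a) r').2).symm
    have e2 : ∫ o, ‖Dk q κ0 H (fun κ => ω κ o)‖ ^ 2 ∂P ≤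
        ∑ t ∈ Finset.range (n + 1), vs s q t (s e) (s a) 0 * al s P ω q χ (n - t) := by
      refine (hJe s P ω q χ hC hχ κ0 (n + 1) (s e) r').trans (le_of_eq ?_)
      refine Finset.sum_congr rfl fun t _ => ?_
      rw [← hv1 (s a) 0 t (s e) r', Nat.add_sub_cancel]
    have e3 : K * ∫ o, ‖F (fun κ => ω κ o) - H (fun κ => ω κ o)‖ ^ 2 ∂P ≤
        en s P ω χ (n + 1) - en s P ω χ (n + 2) := by
      have h1 := (hEg s P ω q χ hC hχ (n + 1)).2.2.2 0 (fun _ => 0) a e hae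
      simp only [zero_add] at h1
      exact h1
    have hNd : Nice fun w => F w - H w := nice_sub (hN' _ _ _) (hN' _ _ _)
    have e4 : ∫ o, ‖Dk q κ0 (fun w => F w - H w) (fun κ => ω κ o)‖ ^ 2 ∂P ≤
        ∫ o, ‖F (fun κ => ω κ o) - H (fun κ => ω κ o)‖ ^ 2 ∂P := by
      have h1 := (hOr P ω q hC κ0 _ _ hNd hNd).1
      rw [h1]
      exact le_add_of_nonneg_right (integral_nonneg fun o => sq_nonneg _)
    have e5 : ∫ o, ‖Dk q κ0 F (fun κ => ω κ o)‖ ^ 2 ∂P ≤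
        (1 + η) * ∫ o, ‖Dk q κ0 H (fun κ => ω κ o)‖ ^ 2 ∂P +
        (1 + 1 / η) * ∫ o, ‖Dk q κ0 (fun w => F w - H w) (fun κ => ω κ o)‖ ^ 2 ∂P := by
      have i1 := int_Dk hC κ0 (hN' (n + 1) (s e) r')
      have i2 := int_Dk hC κ0 hNd
      rw [← integral_const_mul, ← integral_const_mul,
        ← integral_add (i1.const_mul _) (i2.const_mul _)]
      refine integral_mono (int_Dk hC κ0 (hN' (n + 1) (s a) r'))
        ((i1.const_mul _).add (i2.const_mul _)) fun o => ?_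
      have h1 := ineq (Dk q κ0 F (fun κ => ω κ o)) (Dk q κ0 H (fun κ => ω κ o)) η hη
      have h2 : Dk q κ0 F (fun κ => ω κ o) - Dk q κ0 H (fun κ => ω κ o) =
          Dk q κ0 (fun w => F w - H w) (fun κ => ω κ o) := by
        unfold Dk
        ring
      rw [h2] at h1
      exact h1
    rw [e1]
    refine e5.trans (add_le_add (mul_le_mul_of_nonneg_left e2 (by positivity)) ?_)
    have h3 : ∫ o, ‖F (fun κ => ω κ o) - H (fun κ => ω κ o)‖ ^ 2 ∂P ≤
        (en s P ω χ (n + 1) - en s P ω χ (n + 2)) / K := by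
      rw [le_div_iff₀ hK, mul_comm]
      exact e3
    calc (1 + 1 / η) * ∫ o, ‖Dk q κ0 (fun w => F w - H w) (fun κ => ω κ o)‖ ^ 2 ∂P ≤
        (1 + 1 / η) * ((en s P ω χ (n + 1) - en s P ω χ (n + 2)) / K) :=
          mul_le_mul_of_nonneg_left (e4.trans h3) (by positivity)
      _ = _ := by ring
  have hsum : ∑ n ∈ Finset.range M, al s P ω q χ n ≤ ∑ n ∈ Finset.range M,
      ((1 + η) * (∑ t ∈ Finset.range (n + 1), vs s q t (s e) (s a) 0 * al s P ω q χ (n - t)) +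
        (1 + 1 / η) / K * (en s P ω χ (n + 1) - en s P ω χ (n + 2))) :=
    Finset.sum_le_sum fun n _ => step n
  refine hsum.trans ?_
  rw [Finset.sum_add_distrib, ← Finset.mul_sum, ← Finset.mul_sum]
  have h5 := conv M (fun t => vs s q t (s e) (s a) 0) (fun n => al s P ω q χ n)
    (fun t => hvs _ _ _ _) hal
  have h6 : ∑ n ∈ Finset.range M, (en s P ω χ (n + 1) - en s P ω χ (n + 2)) ≤ 1 := by
    rw [Finset.sum_range_sub' (fun n => en s P ω χ (n + 1)) M]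
    have h7 := (hEg s P ω q χ hC hχ 1).2.1
    have h8 := (hEg s P ω q χ hC hχ (M + 1)).1
    linarith
  refine add_le_add (mul_le_mul_of_nonneg_left h5 (by positivity)) ?_
  calc (1 + 1 / η) / K * ∑ n ∈ Finset.range M, (en s P ω χ (n + 1) - en s P ω χ (n + 2)) ≤
      (1 + 1 / η) / K * 1 := mul_le_mul_of_nonneg_left h6 (by positivity)
    _ = _ := mul_one _

end MP0d3db7NS
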