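import Pool.Agent.Lib.MP_0d3db7.NS.Spec

/-!
# MP_0d3db7_pr, theorem NS: second moment of the averaged walk
-/

set_option autoImplicit false

namespace MP0d3db7NS

open MeasureTheory ProbabilityTheory Filter Topology

namespace M2_aux

section general

variable {V E : Type} [AddCommGroup V] [DecidableEq V] [Fintype E]

theorem U_le (s : E → V) (q : E → ℝ) (hq : ∀ e, 0 ≤ q e) {f g : V → ℝ} (h : ∀ x, f x ≤ g x)
    (N : ℕ) : ∀ (x : V) (r : V → ℕ), U s (fun _ => q) f N x r ≤ U s (fun _ => q) g N x r := by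
  induction N with
  | zero => intro x r; exact h x
  | succ N ih =>
    intro x r
    exact Finset.sum_le_sum fun e _ => mul_le_mul_of_nonneg_left (ih _ _) (hq e)

theorem U_affine (s : E → V) (q : E → ℝ) (hq : ∑ e, q e = 1) (f : V → ℝ) (a b : ℝ)
    (N : ℕ) : ∀ (x : V) (r : V → ℕ), U s (fun _ => q) (fun x => a * f x + b) N x r =
      a * U s (fun _ => q) f N x r + b := by
  induction N with
  | zero => intro x r; rfl
  | succ N ih =>
    intro x r
    change ∑ e, q e * U s (fun _ => q) (fun x => a * f x + b) N (x + s e) (up r x) =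
      a * ∑ e, q e * U s (fun _ => q) f N (x + s e) (up r x) + b
    rw [Finset.sum_congr rfl fun e _ => by rw [ih (x + s e) (up r x)]]
    simp only [mul_add, Finset.sum_add_distrib]
    rw [← Finset.sum_mul, hq, one_mul, Finset.mul_sum]
    congr 1
    exact Finset.sum_congr rfl fun e _ => by ring

end general

theorem st_sq (d : ℕ) (e : Dr d) : ∑ i, ((st d e i : ℤ) : ℝ) ^ 2 = 1 := by
  rw [Finset.sum_eq_single e.1]
  · unfold st
    rw [Pi.single_eq_same]
    split_ifs <;> norm_num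
  · intro i _ hi
    unfold st
    rw [Pi.single_eq_of_ne hi]
    norm_num
  · intro h
    exact absurd (Finset.mem_univ _) h

theorem step {d : ℕ} {q : Dr d → ℝ} (hq : PV q) (A : Fin d → ℝ) :
    ∑ e, q e * ∑ i, (A i + (st d e i : ℝ)) ^ 2 ≤ ∑ i, (A i + drift q i) ^ 2 + 1 := by
  have h1 : ∀ e : Dr d, q e * ∑ i, (A i + (st d e i : ℝ)) ^ 2 =
      q e * ∑ i, A i ^ 2 + ∑ i, 2 * A i * (q e * (st d e i : ℝ)) + q e := by
    intro e
    have h2 : ∑ i, (A i + (st d e i : ℝ)) ^ 2 =
        ∑ i, A i ^ 2 + ∑ i, 2 * A i * (st d e i : ℝ) + ∑ i, ((st d e i : ℤ) : ℝ) ^ 2 := by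
      rw [← Finset.sum_add_distrib, ← Finset.sum_add_distrib]
      exact Finset.sum_congr rfl fun i _ => by ring
    rw [h2, st_sq, mul_add, mul_add, mul_one, Finset.mul_sum (s := Finset.univ)
      (f := fun i => 2 * A i * (st d e i : ℝ))]
    congr 2
    exact Finset.sum_congr rfl fun i _ => by ring
  rw [Finset.sum_congr rfl fun e _ => h1 e, Finset.sum_add_distrib, Finset.sum_add_distrib,
    ← Finset.sum_mul, hq.2, one_mul, Finset.sum_comm]
  have h3 : ∑ i, ∑ e, 2 * A i * (q e * (st d e i : ℝ)) = ∑ i, 2 * A i * drift q i := by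
    refine Finset.sum_congr rfl fun i _ => ?_
    rw [← Finset.mul_sum]
    rfl
  rw [h3]
  have h4 : ∑ i, (A i + drift q i) ^ 2 =
      ∑ i, A i ^ 2 + ∑ i, 2 * A i * drift q i + ∑ i, drift q i ^ 2 := by
    rw [← Finset.sum_add_distrib, ← Finset.sum_add_distrib]
    exact Finset.sum_congr rfl fun i _ => by ring
  have h5 : 0 ≤ ∑ i, drift q i ^ 2 := Finset.sum_nonneg fun i _ => sq_nonneg _
  linarith

theorem U_sq {d : ℕ} {q : Dr d → ℝ} (hq : PV q) (c : Fin d → ℝ) (N : ℕ) :
    ∀ (x : Fin d → ℤ) (r : (Fin d → ℤ) → ℕ),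
    U (st d) (fun _ => q) (fun y => ∑ i, ((y i : ℝ) - c i) ^ 2) N x r ≤
      ∑ i, ((x i : ℝ) + N * drift q i - c i) ^ 2 + N := by
  induction N with
  | zero =>
    intro x r
    simp [U]
  | succ N ih =>
    intro x r
    have h1 : ∀ e : Dr d, q e * U (st d) (fun _ => q) (fun y => ∑ i, ((y i : ℝ) - c i) ^ 2) N
        (x + st d e) (up r x) ≤
        q e * ∑ i, (((x i : ℝ) + N * drift q i - c i) + (st d e i : ℝ)) ^ 2 + q e * N := by
      intro e
      rw [← mul_add]
      refine mul_le_mul_of_nonneg_left ((ih (x + st d e) (up r x)).trans (le_of_eq ?_)) (hq.1 e)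
      congr 1
      refine Finset.sum_congr rfl fun i _ => ?_
      rw [Pi.add_apply]
      push_cast
      ring
    have h2 := Finset.sum_le_sum (s := Finset.univ) fun e _ => h1 e
    rw [Finset.sum_add_distrib, ← Finset.sum_mul, hq.2, one_mul] at h2
    have h3 := step hq fun i => (x i : ℝ) + N * drift q i - c i
    have h4 : ∑ i, ((x i : ℝ) + N * drift q i - c i + drift q i) ^ 2 =
        ∑ i, ((x i : ℝ) + ((N + 1 : ℕ) : ℝ) * drift q i - c i) ^ 2 := by
      refine Finset.sum_congr rfl fun i _ => ?_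
      push_cast
      ring
    rw [h4] at h3
    change ∑ e, q e * U (st d) (fun _ => q) (fun y => ∑ i, ((y i : ℝ) - c i) ^ 2) N
        (x + st d e) (up r x) ≤ _
    push_cast at h3 ⊢
    linarith

end M2_aux

theorem tM2 : S_M2 := by
  intro d q hq M n hM hn
  have hn0 : (0 : ℝ) < n := by exact_mod_cast hn
  have h1 : ∀ x : Fin d → ℤ, min 1 (‖nrm q n x‖ / M) ≤
      1 / (2 * M * n) * ∑ i, ((x i : ℝ) - n * drift q i) ^ 2 + 1 / (2 * M) := by
    intro x
    have h2 : ‖nrm q n x‖ ^ 2 = (1 / n) * ∑ i, ((x i : ℝ) - n * drift q i) ^ 2 := by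
      rw [EuclideanSpace.norm_sq_eq, Finset.mul_sum]
      refine Finset.sum_congr rfl fun i _ => ?_
      unfold nrm
      rw [Real.norm_eq_abs, sq_abs]
      change (((x i : ℝ) - n * drift q i) / Real.sqrt n) ^ 2 = _
      rw [div_pow, Real.sq_sqrt hn0.le]
      ring
    have h3 : ‖nrm q n x‖ ≤ (1 + ‖nrm q n x‖ ^ 2) / 2 := by
      nlinarith [sq_nonneg (‖nrm q n x‖ - 1)]
    calc min 1 (‖nrm q n x‖ / M) ≤ ‖nrm q n x‖ / M := min_le_right _ _
      _ ≤ ((1 + ‖nrm q n x‖ ^ 2) / 2) / M := div_le_div_of_nonneg_right h3 hM.le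
      _ = _ := by
        rw [h2]
        field_simp
        ring
  refine (M2_aux.U_le (st d) q hq.1 h1 n 0 fun _ => 0).trans ?_
  rw [M2_aux.U_affine (st d) q hq.2 (fun x => ∑ i, ((x i : ℝ) - n * drift q i) ^ 2)]
  have h4 := M2_aux.U_sq hq (fun i => n * drift q i) n 0 fun _ => 0
  have h5 : ∑ i, ((((0 : Fin d → ℤ) i : ℤ) : ℝ) + n * drift q i - n * drift q i) ^ 2 = 0 := by
    refine Finset.sum_eq_zero fun i _ => ?_
    simp
  rw [h5, zero_add] at h4
  have h6 : (0 : ℝ) ≤ 1 / (2 * M * n) := by positivity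
  have h7 := mul_le_mul_of_nonneg_left h4 h6
  have h8 : 1 / (2 * M * n) * (n : ℝ) = 1 / (2 * M) := by
    field_simp
  rw [h8] at h7
  have h9 : 1 / (2 * M) + 1 / (2 * M) = 1 / M := by
    field_simp
    norm_num
  linarith

end MP0d3db7NS
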