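import Pool.Agent.Lib.MP_0d3db7.NS.Spec2
import Pool.Agent.Lib.MP_0d3db7.NS.M2

/-!
# MP_0d3db7_pr, theorem NS2: the averaged walk in the window
-/

set_option autoImplicit false

namespace MP0d3db7NS

open MeasureTheory ProbabilityTheory Filter Topology

namespace Cq_aux

theorem U_add {V E : Type} [AddCommGroup V] [DecidableEq V] [Fintype E] (s : E → V) (q : E → ℝ)
    (f g : V → ℝ) (a : ℝ) (N : ℕ) : ∀ (x : V) (r : V → ℕ),
    U s (fun _ => q) (fun x => f x + a * g x) N x r =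
      U s (fun _ => q) f N x r + a * U s (fun _ => q) g N x r := by
  induction N with
  | zero => intro x r; rfl
  | succ N ih =>
    intro x r
    change ∑ e, q e * U s (fun _ => q) (fun x => f x + a * g x) N (x + s e) (up r x) =
      ∑ e, q e * U s (fun _ => q) f N (x + s e) (up r x) +
        a * ∑ e, q e * U s (fun _ => q) g N (x + s e) (up r x)
    rw [Finset.mul_sum, ← Finset.sum_add_distrib]
    refine Finset.sum_congr rfl fun e _ => ?_
    rw [ih]
    ring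

/-- comparison of two expectations -/
theorem U_close {d : ℕ} {q : Dr d → ℝ} (hq : PV q) (f g : (Fin d → ℤ) → ℝ) (M : ℝ) (hM : 0 < M)
    (m : ℕ) (hm : 1 ≤ m) (h : ∀ x, |f x - g x| ≤ 2 * min 1 (‖nrm q m x‖ / M)) :
    |U (st d) (fun _ => q) f m 0 (fun _ => 0) - U (st d) (fun _ => q) g m 0 (fun _ => 0)| ≤
      2 / M := by
  have h2 := tM2 d q hq M m hM hm
  have e1 : U (st d) (fun _ => q) f m 0 (fun _ => 0) ≤
      U (st d) (fun _ => q) g m 0 (fun _ => 0) +
        2 * U (st d) (fun _ => q) (fun x => min 1 (‖nrm q m x‖ / M)) m 0 (fun _ => 0) := by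
    rw [← U_add]
    refine M2_aux.U_le (st d) q hq.1 (fun x => ?_) m 0 _
    have := (abs_le.1 (h x)).2
    linarith
  have e2 : U (st d) (fun _ => q) g m 0 (fun _ => 0) ≤
      U (st d) (fun _ => q) f m 0 (fun _ => 0) +
        2 * U (st d) (fun _ => q) (fun x => min 1 (‖nrm q m x‖ / M)) m 0 (fun _ => 0) := by
    rw [← U_add]
    refine M2_aux.U_le (st d) q hq.1 (fun x => ?_) m 0 _
    have := (abs_le.1 (h x)).1
    linarith
  have e3 : 2 * (1 / M) = 2 / M := by ring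
  rw [abs_le]
  constructor <;> linarith

theorem nr_eq {d : ℕ} (q : Dr d → ℝ) (n0 m : ℕ) (hm : 1 ≤ m) (x : Fin d → ℤ) (i : Fin d) :
    nr q n0 m x i = Real.sqrt m / Real.sqrt n0 * nrm q m x i := by
  have h1 : Real.sqrt m ≠ 0 := by
    have : (0 : ℝ) < m := by exact_mod_cast hm
    exact (Real.sqrt_pos.2 this).ne'
  change ((x i : ℝ) - m * drift q i) / Real.sqrt n0 =
    Real.sqrt m / Real.sqrt n0 * (((x i : ℝ) - m * drift q i) / Real.sqrt m)
  by_cases h0 : Real.sqrt (n0 : ℝ) = 0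
  · rw [h0]
    simp
  · field_simp

/-- the difference of the arguments -/
theorem arg_diff {d : ℕ} (q : Dr d → ℝ) (θ : Fin d → ℝ) (n0 m : ℕ) (hm : 1 ≤ m)
    (x : Fin d → ℤ) (δ : ℝ) (hδ : |Real.sqrt m / Real.sqrt n0 - 1| ≤ δ) :
    |∑ i, θ i * nr q n0 m x i - ∑ i, θ i * nrm q m x i| ≤
      (∑ i, |θ i| + 1) * δ * ‖nrm q m x‖ := by
  have h1 : ∑ i, θ i * nr q n0 m x i - ∑ i, θ i * nrm q m x i =
      (Real.sqrt m / Real.sqrt n0 - 1) * ∑ i, θ i * nrm q m x i := by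
    rw [← Finset.sum_sub_distrib, Finset.mul_sum]
    refine Finset.sum_congr rfl fun i _ => ?_
    rw [nr_eq q n0 m hm x i]
    ring
  have h2 : |∑ i, θ i * nrm q m x i| ≤ (∑ i, |θ i| + 1) * ‖nrm q m x‖ := by
    refine (Finset.abs_sum_le_sum_abs _ _).trans ?_
    have h3 : ∀ i ∈ Finset.univ, |θ i * nrm q m x i| ≤ |θ i| * ‖nrm q m x‖ := by
      intro i _
      rw [abs_mul]
      refine mul_le_mul_of_nonneg_left ?_ (abs_nonneg _)
      exact PiLp.norm_apply_le (nrm q m x) i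
    refine (Finset.sum_le_sum h3).trans ?_
    rw [← Finset.sum_mul]
    exact mul_le_mul_of_nonneg_right (by linarith) (norm_nonneg _)
  rw [h1, abs_mul]
  calc |Real.sqrt m / Real.sqrt n0 - 1| * |∑ i, θ i * nrm q m x i| ≤
        δ * ((∑ i, |θ i| + 1) * ‖nrm q m x‖) :=
        mul_le_mul hδ h2 (abs_nonneg _) ((abs_nonneg _).trans hδ)
    _ = _ := by ring

theorem sqrt_close {n0 m : ℕ} (h0 : 1 ≤ n0) (hm : n0 ≤ m) (δ : ℝ) (hδ : 0 < δ)
    (h : (m : ℝ) ≤ n0 * (1 + δ)) : |Real.sqrt m / Real.sqrt n0 - 1| ≤ δ := by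
  have hn : (0 : ℝ) < n0 := by exact_mod_cast h0
  have hs : 0 < Real.sqrt n0 := Real.sqrt_pos.2 hn
  have h1 : Real.sqrt n0 ≤ Real.sqrt m := Real.sqrt_le_sqrt (by exact_mod_cast hm)
  have h2 : Real.sqrt m ≤ Real.sqrt n0 * (1 + δ) := by
    rw [Real.sqrt_le_left (by positivity), mul_pow, Real.sq_sqrt hn.le]
    refine h.trans (mul_le_mul_of_nonneg_left ?_ hn.le)
    nlinarith
  rw [abs_of_nonneg]
  · rw [sub_le_iff_le_add, div_le_iff₀ hs]
    linarith
  · rw [sub_nonneg, one_le_div hs]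
    exact h1

theorem abs_cos_sub_cos (a b : ℝ) : |Real.cos a - Real.cos b| ≤ |a - b| := by
  rw [Real.cos_sub_cos, abs_mul, abs_mul, abs_neg, abs_two]
  have h1 := Real.abs_sin_le_one ((a + b) / 2)
  have h2 : |Real.sin ((a - b) / 2)| ≤ |(a - b) / 2| := Real.abs_sin_le_abs
  have h3 : |(a - b) / 2| = |a - b| / 2 := by rw [abs_div, abs_two]
  have h4 := abs_nonneg (Real.sin ((a - b) / 2))
  have h5 := abs_nonneg (Real.sin ((a + b) / 2))
  nlinarith

theorem abs_sin_sub_sin (a b : ℝ) : |Real.sin a - Real.sin b| ≤ |a - b| := by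
  have h := abs_cos_sub_cos (Real.pi / 2 - a) (Real.pi / 2 - b)
  rw [Real.cos_pi_div_two_sub, Real.cos_pi_div_two_sub] at h
  refine h.trans (le_of_eq ?_)
  rw [show Real.pi / 2 - a - (Real.pi / 2 - b) = -(a - b) by ring, abs_neg]

theorem two_min {u v D y M : ℝ} (hM : 0 < M) (hu : |u| ≤ 1) (hv : |v| ≤ 1) (h : |u - v| ≤ D)
    (hD : D ≤ y / M) (hy : 0 ≤ y) : |u - v| ≤ 2 * min 1 (y / M) := by
  have h1 : |u - v| ≤ 2 := by
    have h2 := abs_le.1 hu
    have h3 := abs_le.1 hv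
    rw [abs_le]
    constructor <;> linarith [h2.1, h2.2, h3.1, h3.2]
  have h4 : 0 ≤ y / M := by positivity
  rcases le_total 1 (y / M) with h5 | h5
  · rw [min_eq_left h5]
    linarith
  · rw [min_eq_right h5]
    linarith

end Cq_aux

open Cq_aux in
theorem tCq (hCl : S_Cl) (_hPa : S_Pa) : S_Cq := by
  intro d q hq θ ε hε
  obtain ⟨hc, hs⟩ := hCl d q hq (WithLp.toLp 2 θ)
  set L : ℝ := ∑ i, |θ i| + 1 with hL
  have hL0 : 0 < L := by
    have : 0 ≤ ∑ i, |θ i| := Finset.sum_nonneg fun _ _ => abs_nonneg _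
    linarith
  set δ : ℝ := ε / (4 * L) with hδ
  have hδ0 : 0 < δ := by positivity
  set M : ℝ := 1 / (L * δ) with hM
  have hM0 : 0 < M := by positivity
  have hMe : 2 / M = ε / 2 := by
    rw [hM, hδ]
    field_simp
    ring
  have hc' := Metric.tendsto_atTop.1 hc (ε / 2) (by linarith)
  have hs' := Metric.tendsto_atTop.1 hs (ε / 2) (by linarith)
  obtain ⟨N1, hN1⟩ := hc'
  obtain ⟨N2, hN2⟩ := hs'
  refine ⟨max 1 (max N1 N2), δ, hδ0, ?_⟩
  intro n0 m hn0 hm hmd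
  have h1n : 1 ≤ n0 := (le_max_left _ _).trans hn0
  have h1m : 1 ≤ m := h1n.trans hm
  have hm1 : N1 ≤ m := ((le_max_left _ _).trans (le_max_right _ _)).trans (hn0.trans hm)
  have hm2 : N2 ≤ m := ((le_max_right _ _).trans (le_max_right _ _)).trans (hn0.trans hm)
  have e1 := hN1 m hm1
  have e2 := hN2 m hm2
  rw [Real.dist_eq] at e1 e2
  rw [sub_zero] at e2
  have hsq := sqrt_close h1n hm δ hδ0 hmd
  have hD : ∀ x : Fin d → ℤ, (∑ i, |θ i| + 1) * δ * ‖nrm q m x‖ ≤ ‖nrm q m x‖ / M := by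
    intro x
    rw [← hL, hM]
    refine le_of_eq ?_
    field_simp
  have f1 := U_close hq (fun x => Real.cos (∑ i, θ i * nr q n0 m x i))
    (fun x => Real.cos (∑ i, θ i * nrm q m x i)) M hM0 m h1m (fun x =>
      two_min hM0 (Real.abs_cos_le_one _) (Real.abs_cos_le_one _)
        ((abs_cos_sub_cos _ _).trans (arg_diff q θ n0 m h1m x δ hsq)) (hD x) (norm_nonneg _))
  have f2 := U_close hq (fun x => Real.sin (∑ i, θ i * nr q n0 m x i))
    (fun x => Real.sin (∑ i, θ i * nrm q m x i)) M hM0 m h1m (fun x =>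
      two_min hM0 (Real.abs_sin_le_one _) (Real.abs_sin_le_one _)
        ((abs_sin_sub_sin _ _).trans (arg_diff q θ n0 m h1m x δ hsq)) (hD x) (norm_nonneg _))
  rw [hMe] at f1 f2
  constructor
  · have e1' := e1.le
    refine (abs_sub_le _ (U (st d) (fun _ => q)
      (fun x => Real.cos (∑ i, θ i * nrm q m x i)) m 0 (fun _ => 0)) _).trans ?_
    have : |U (st d) (fun _ => q) (fun x => Real.cos (∑ i, θ i * nrm q m x i)) m 0 (fun _ => 0) -
      Real.exp (-((∑ i, ∑ j, θ i * Sg q i j * θ j) / 2))| ≤ ε / 2 := e1'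
    linarith
  · have e2' : |U (st d) (fun _ => q) (fun x => Real.sin (∑ i, θ i * nrm q m x i)) m 0
      (fun _ => 0)| ≤ ε / 2 := e2.le
    have h3 := abs_sub_abs_le_abs_sub (U (st d) (fun _ => q)
      (fun x => Real.sin (∑ i, θ i * nr q n0 m x i)) m 0 (fun _ => 0)) (U (st d) (fun _ => q)
      (fun x => Real.sin (∑ i, θ i * nrm q m x i)) m 0 (fun _ => 0))
    linarith

end MP0d3db7NS
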