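import Pool.Agent.Lib.MP_0d3db7.NS.Spec2

/-!
# MP_0d3db7_pr, theorem NS2: the chaos orders of the window average
-/

set_option autoImplicit false

namespace MP0d3db7NS

open MeasureTheory ProbabilityTheory Filter Topology

namespace Cw_aux

/-- `U` is linear in `f` -/
lemma U_sum {V E : Type} [AddCommGroup V] [DecidableEq V] [Fintype E] (s : E → V)
    (w : V × ℕ → E → ℝ) {J : Type} [Fintype J] (p : J → ℝ) (f : J → V → ℝ) (n : ℕ) :
    ∀ (x : V) (r : V → ℕ), U s w (fun y => ∑ j, p j * f j y) n x r =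
      ∑ j, p j * U s w (f j) n x r := by
  induction n with
  | zero => intro x r; rfl
  | succ n ih =>
    intro x r
    simp only [U]
    have h1 : ∀ e, w (x, r x + 1) e * U s w (fun y => ∑ j, p j * f j y) n (x + s e) (up r x) =
        ∑ j, p j * (w (x, r x + 1) e * U s w (f j) n (x + s e) (up r x)) := by
      intro e
      rw [ih, Finset.mul_sum]
      exact Finset.sum_congr rfl fun j _ => by ring
    rw [Finset.sum_congr rfl fun e _ => h1 e, Finset.sum_comm]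
    exact Finset.sum_congr rfl fun j _ => by rw [Finset.mul_sum]

/-- the character -/
noncomputable def ch {d : ℕ} (n0 : ℕ) (θ : Fin d → ℝ) (x : Fin d → ℤ) : ℂ :=
  Complex.exp (Complex.I * (((∑ i, θ i * (x i : ℝ)) / Real.sqrt n0 : ℝ) : ℂ))

lemma ch_chr {d : ℕ} (n0 : ℕ) (θ : Fin d → ℝ) : Chr (ch n0 θ) := by
  refine ⟨fun x y => ?_, fun x => ?_⟩
  · unfold ch
    rw [← Complex.exp_add, ← mul_add, ← Complex.ofReal_add, ← add_div, ← Finset.sum_add_distrib]
    have h1 : ∑ i, θ i * (((x + y) i : ℤ) : ℝ) = ∑ i, (θ i * (x i : ℝ) + θ i * (y i : ℝ)) :=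
      Finset.sum_congr rfl fun i _ => by
        simp only [Pi.add_apply, Int.cast_add]
        ring
    rw [h1]
  · unfold ch
    rw [mul_comm, Complex.norm_exp_ofReal_mul_I]

/-- the factor -/
noncomputable def ze {d : ℕ} (q : Dr d → ℝ) (n0 m : ℕ) (θ : Fin d → ℝ) (ζ : ℂ) : ℂ :=
  ζ * Complex.exp (Complex.I * ((-((m : ℝ) * ∑ i, θ i * drift q i) / Real.sqrt n0 : ℝ) : ℂ))

lemma ze_norm {d : ℕ} (q : Dr d → ℝ) (n0 m : ℕ) (θ : Fin d → ℝ) (ζ : ℂ) (h : ‖ζ‖ ≤ 1) :
    ‖ze q n0 m θ ζ‖ ≤ 1 := by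
  unfold ze
  rw [norm_mul, mul_comm Complex.I, Complex.norm_exp_ofReal_mul_I, mul_one]
  exact h

lemma split {d : ℕ} (q : Dr d → ℝ) (n0 m : ℕ) (θ : Fin d → ℝ) (ζ : ℂ) (x : Fin d → ℤ) :
    ζ * Complex.exp (Complex.I * ((∑ i, θ i * nr q n0 m x i : ℝ) : ℂ)) =
      ze q n0 m θ ζ * ch n0 θ x := by
  unfold ze ch
  rw [mul_assoc, ← Complex.exp_add, ← mul_add, ← Complex.ofReal_add]
  congr 4
  have h1 : ∀ i, θ i * nr q n0 m x i =
      (-((m : ℝ) * (θ i * drift q i)) / Real.sqrt n0) + θ i * (x i : ℝ) / Real.sqrt n0 := by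
    intro i
    have h2 : nr q n0 m x i = ((x i : ℝ) - m * drift q i) / Real.sqrt n0 := rfl
    rw [h2]
    ring
  rw [Finset.sum_congr rfl fun i _ => h1 i, Finset.sum_add_distrib, ← Finset.sum_div,
    ← Finset.sum_div, Finset.sum_neg_distrib, Finset.mul_sum]

/-- the sum over the window -/
lemma window (hCb : S_Cb) (hSm : S_Sm) (hEn : S_En) (d : ℕ) (q : Dr d → ℝ) (hq : PV q)
    (θ : Fin d → ℝ) (ζ : ℕ → ℂ) (hζ : ∀ m, ‖ζ m‖ ≤ 1) (n0 h : ℕ) (κ : ℝ)
    (hK : KB (st d) q (n0 + h) κ) (l : List ((Fin d → ℤ) × ℕ)) (k : ℕ) (hl : l.Nodup) :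
    ∑ i : Fin h, Cs q l (k + 1) (fun w => U (st d) w (fun y => (ζ (n0 + i) * ch n0 θ y).re)
      (n0 + i) 0 (fun _ => 0)) ≤ ((k : ℝ) + 1) * κ := by
  have hκ : 0 ≤ κ := by simpa using hK ∅ 0
  have h1 : ENNReal.ofReal (∑ i : Fin h, (Nat.factorial (k + 1) : ℝ) * Cs q l (k + 1) (fun w =>
      U (st d) w (fun y => (ζ (n0 + i) * ch n0 θ y).re) (n0 + i) 0 (fun _ => 0))) ≤
      ∑ i : Fin h, sk (st d) q (ch n0 θ) (n0 + i) (k + 1) 0 := by
    refine le_trans (Finset.le_sum_of_subadditive ENNReal.ofReal ENNReal.ofReal_zero.le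
      (fun x y => ENNReal.ofReal_add_le) _ _) ?_
    exact Finset.sum_le_sum fun i _ => hCb (st d) q (ch n0 θ) (ζ (n0 + i)) hq (hζ _) l hl
      (n0 + i) (k + 1)
  have h2 : ∑ i : Fin h, sk (st d) q (ch n0 θ) (n0 + i) (k + 1) 0 ≤
      ∑ m ∈ Finset.range (n0 + h + 1), sk (st d) q (ch n0 θ) m (k + 1) 0 := by
    have h3 := Finset.sum_Ico_eq_sum_range (fun m => sk (st d) q (ch n0 θ) m (k + 1) 0) n0 (n0 + h)
    rw [Nat.add_sub_cancel_left, Finset.sum_range] at h3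
    rw [← h3]
    refine Finset.sum_le_sum_of_subset fun m hm => ?_
    rw [Finset.mem_Ico] at hm
    rw [Finset.mem_range]
    omega
  have h3 := hSm (st d) q (ch n0 θ) hq (ch_chr n0 θ) (n0 + h) k κ hK
  have h4 := hEn (st d) q (ch n0 θ) hq (ch_chr n0 θ) (n0 + h) k
  have h5 : ENNReal.ofReal (∑ i : Fin h, (Nat.factorial (k + 1) : ℝ) * Cs q l (k + 1) (fun w =>
      U (st d) w (fun y => (ζ (n0 + i) * ch n0 θ y).re) (n0 + i) 0 (fun _ => 0))) ≤
      ENNReal.ofReal (((k : ℝ) + 1) ^ 2 * κ * (Nat.factorial k : ℝ)) := by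
    refine h1.trans (h2.trans (h3.trans ?_))
    rw [ENNReal.ofReal_mul (by positivity), ENNReal.ofReal_mul (by positivity),
      ENNReal.ofReal_pow (by positivity), ENNReal.ofReal_add (by positivity) (by positivity),
      ENNReal.ofReal_natCast, ENNReal.ofReal_one, ENNReal.ofReal_natCast]
    gcongr
  have h6 := (ENNReal.ofReal_le_ofReal_iff (by positivity)).1 h5
  rw [← Finset.mul_sum, Nat.factorial_succ] at h6
  push_cast at h6
  have h7 : (0 : ℝ) < ((k : ℝ) + 1) * (Nat.factorial k : ℝ) := by positivity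
  refine le_of_mul_le_mul_left ?_ h7
  calc _ ≤ _ := h6
    _ = _ := by ring

end Cw_aux

open Cw_aux in
theorem tCw (hCx : S_Cx) (hCb : S_Cb) (hSm : S_Sm) (hEn : S_En) (hPa : S_Pa) : S_Cw := by
  intro d q hq g hg n0 h κ hn0 hh hK l k hl hk
  obtain ⟨T, p, ζ, θ, hp, hp1, hζ, hgy⟩ := hg
  obtain ⟨k, rfl⟩ : ∃ k', k = k' + 1 := ⟨k - 1, by omega⟩
  have hκ : 0 ≤ κ := by simpa using hK ∅ 0
  have hh0 : (0 : ℝ) < h := by exact_mod_cast hh
  -- the weights and the functions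
  set P : Fin T × Fin h → ℝ := fun a => p a.1 * (1 / (h : ℝ)) with hP
  set F : Fin T × Fin h → ((Fin d → ℤ) × ℕ → Dr d → ℝ) → ℝ := fun a w =>
    U (st d) w (fun y => (ze q n0 (n0 + a.2) (θ a.1) (ζ a.1) * ch n0 (θ a.1) y).re)
      (n0 + a.2) 0 (fun _ => 0) with hF
  have e1 : (fun w => Av (st d) w (fun m x => g (nr q n0 m x)) n0 h) =
      fun w => ∑ a, P a * F a w := by
    funext w
    unfold Av
    rw [Finset.sum_Ico_eq_sum_range, Nat.add_sub_cancel_left, Finset.sum_range]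
    have e2 : ∀ i : Fin h, U (st d) w (fun x => g (nr q n0 (n0 + i) x)) (n0 + i) 0 (fun _ => 0) =
        ∑ j, p j * F (j, i) w := by
      intro i
      have e3 : (fun x => g (nr q n0 (n0 + i) x)) = fun x => ∑ j, p j *
          (ze q n0 (n0 + i) (θ j) (ζ j) * ch n0 (θ j) x).re := by
        funext x
        rw [hgy]
        exact Finset.sum_congr rfl fun j _ => by rw [split]
      rw [e3, U_sum]
    rw [Finset.sum_congr rfl fun i _ => e2 i, Fintype.sum_prod_type, Finset.sum_comm,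
      Finset.mul_sum]
    refine Finset.sum_congr rfl fun j _ => ?_
    rw [Finset.mul_sum]
    exact Finset.sum_congr rfl fun i _ => by simp only [hP]; ring
  have hP0 : ∀ a, 0 ≤ P a := fun a => mul_nonneg (hp _) (by positivity)
  have hP1 : ∑ a, P a ≤ 1 := by
    rw [Fintype.sum_prod_type]
    simp only [hP, Finset.sum_const, Finset.card_univ, Fintype.card_fin, nsmul_eq_mul]
    calc ∑ j, (h : ℝ) * (p j * (1 / (h : ℝ))) = ∑ j, p j :=
          Finset.sum_congr rfl fun j _ => by field_simp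
      _ ≤ 1 := hp1
  rw [e1]
  refine (hCx q hq.1 l (k + 1) (Fin T × Fin h) P F hP0 hP1).trans ?_
  rw [Fintype.sum_prod_type]
  have h8 : ∀ j, ∑ i : Fin h, P (j, i) * Cs q l (k + 1) (F (j, i)) ≤
      p j * ((1 / (h : ℝ)) * (((k : ℝ) + 1) * κ)) := by
    intro j
    have h9 := window hCb hSm hEn d q hq (θ j) (fun m => ze q n0 m (θ j) (ζ j))
      (fun m => ze_norm q n0 m (θ j) (ζ j) (hζ j)) n0 h κ hK l k hl
    calc ∑ i : Fin h, P (j, i) * Cs q l (k + 1) (F (j, i)) =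
        p j * ((1 / (h : ℝ)) * ∑ i : Fin h, Cs q l (k + 1) (F (j, i))) := by
          rw [Finset.mul_sum, Finset.mul_sum]
          exact Finset.sum_congr rfl fun i _ => by simp only [hP]; ring
      _ ≤ _ := by
          refine mul_le_mul_of_nonneg_left (mul_le_mul_of_nonneg_left h9 (by positivity)) (hp j)
  refine (Finset.sum_le_sum fun j _ => h8 j).trans ?_
  rw [← Finset.sum_mul]
  calc (∑ j, p j) * ((1 / (h : ℝ)) * (((k : ℝ) + 1) * κ)) ≤
      1 * ((1 / (h : ℝ)) * (((k : ℝ) + 1) * κ)) := by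
        refine mul_le_mul_of_nonneg_right hp1 (by positivity)
    _ = _ := by push_cast; ring

end MP0d3db7NS
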