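import Pool.Agent.Lib.MP_0d3db7.NS.Spec2

set_option autoImplicit false

namespace MP0d3db7NS

open MeasureTheory ProbabilityTheory Filter Topology

namespace Cx_aux

theorem base {J : Type} [Fintype J] (p a : J → ℝ) (hp : ∀ j, 0 ≤ p j) (h1 : ∑ j, p j ≤ 1) :
    (∑ j, p j * a j) ^ 2 ≤ ∑ j, p j * a j ^ 2 := by
  have h2 : (∑ j, p j * a j) ^ 2 ≤ (∑ j, p j) * ∑ j, p j * a j ^ 2 := by
    refine Finset.sum_sq_le_sum_mul_sum_of_sq_le_mul Finset.univ (fun j _ => hp j)
      (fun j _ => mul_nonneg (hp j) (sq_nonneg _)) (fun j _ => le_of_eq ?_)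
    ring
  have h3 : 0 ≤ ∑ j, p j * a j ^ 2 :=
    Finset.sum_nonneg fun j _ => mul_nonneg (hp j) (sq_nonneg _)
  calc (∑ j, p j * a j) ^ 2 ≤ (∑ j, p j) * ∑ j, p j * a j ^ 2 := h2
    _ ≤ 1 * ∑ j, p j * a j ^ 2 := mul_le_mul_of_nonneg_right h1 h3
    _ = ∑ j, p j * a j ^ 2 := one_mul _

theorem main {ι E : Type} [DecidableEq ι] [Fintype E] [DecidableEq E] (q : E → ℝ)
    (hq : ∀ e, 0 ≤ q e) {J : Type} [Fintype J] (p : J → ℝ) (hp : ∀ j, 0 ≤ p j)
    (h1 : ∑ j, p j ≤ 1) (l : List ι) :
    ∀ (k : ℕ) (F : J → (ι → E → ℝ) → ℝ),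
      Cs q l k (fun w => ∑ j, p j * F j w) ≤ ∑ j, p j * Cs q l k (F j) := by
  induction l with
  | nil =>
    intro k F
    cases k with
    | zero => exact base p (fun j => F j fun _ => q) hp h1
    | succ k =>
      show (0 : ℝ) ≤ ∑ j, p j * 0
      simp
  | cons κ l ih =>
    intro k F
    cases k with
    | zero => exact ih 0 (fun j => sb (F j) κ q)
    | succ k =>
      have e1 : Cs q (κ :: l) (k + 1) (fun w => ∑ j, p j * F j w) =
          Cs q l (k + 1) (fun w => ∑ j, p j * sb (F j) κ q w) +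
            ∑ e, q e * Cs q l k (fun w => ∑ j, p j *
              (sb (F j) κ (dl e) w - sb (F j) κ q w)) := by
        show Cs q l (k + 1) (fun w => ∑ j, p j * sb (F j) κ q w) +
            ∑ e, q e * Cs q l k (fun w => (∑ j, p j * sb (F j) κ (dl e) w) -
              ∑ j, p j * sb (F j) κ q w) = _
        congr 1
        refine Finset.sum_congr rfl fun e _ => ?_
        congr 2
        funext w
        rw [← Finset.sum_sub_distrib]
        refine Finset.sum_congr rfl fun j _ => ?_
        ring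
      have e2 : ∑ j, p j * Cs q (κ :: l) (k + 1) (F j) =
          ∑ j, p j * Cs q l (k + 1) (sb (F j) κ q) +
            ∑ e, q e * ∑ j, p j * Cs q l k (fun w => sb (F j) κ (dl e) w - sb (F j) κ q w) := by
        have e3 : ∀ j, p j * Cs q (κ :: l) (k + 1) (F j) =
            p j * Cs q l (k + 1) (sb (F j) κ q) +
              ∑ e, q e * (p j * Cs q l k (fun w => sb (F j) κ (dl e) w - sb (F j) κ q w)) := by
          intro j
          show p j * (Cs q l (k + 1) (sb (F j) κ q) +
            ∑ e, q e * Cs q l k (fun w => sb (F j) κ (dl e) w - sb (F j) κ q w)) = _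
          rw [mul_add, Finset.mul_sum]
          congr 1
          refine Finset.sum_congr rfl fun e _ => ?_
          ring
        rw [Finset.sum_congr rfl fun j _ => e3 j, Finset.sum_add_distrib, Finset.sum_comm]
        congr 1
        refine Finset.sum_congr rfl fun e _ => ?_
        rw [Finset.mul_sum]
      rw [e1, e2]
      refine add_le_add (ih (k + 1) (fun j => sb (F j) κ q)) ?_
      refine Finset.sum_le_sum fun e _ => mul_le_mul_of_nonneg_left ?_ (hq e)
      exact ih k (fun j w => sb (F j) κ (dl e) w - sb (F j) κ q w)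

end Cx_aux

theorem tCx : S_Cx := by
  intro ι E _ _ _ q hq l k J _ p F hp h1
  exact Cx_aux.main q hq p hp h1 l k F

end MP0d3db7NS
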