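import Mathlib

/-!
# MP_0d3db7_pr, theorem NS: definitions

Excited random walk with i.i.d. cookies. A history is the list of the directions of the steps which
were made, the last step first; `s e` is the step in the direction `e`.
-/

set_option autoImplicit false

namespace MP0d3db7NS

open MeasureTheory ProbabilityTheory

/-! ### the walk -/

section walk

variable {V E : Type} [AddCommGroup V] [DecidableEq V] [Fintype E]

/-- the current position (start in `0`) -/
def pos (s : E → V) : List E → V
  | [] => 0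
  | e :: h => pos s h + s e

/-- the number of visits of `z` before the present time -/
def pv (s : E → V) (z : V) : List E → ℕ
  | [] => 0
  | _ :: h => pv s z h + if pos s h = z then 1 else 0

/-- `#{m ≤ n : X_m = X_n}`, the number of visits of the current position, the present one included -/
def vis (s : E → V) (h : List E) : ℕ := pv s (pos s h) h + 1

/-- the quenched probability of the history in the environment `w`; `w (z, i) e` is the probability
of the step in the direction `e` at the `i`-th visit of `z` -/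
noncomputable def wt (s : E → V) (w : V × ℕ → E → ℝ) : List E → ℝ
  | [] => 1
  | e :: h => wt s w h * w (pos s h, vis s h) e

/-- the quenched expectation of a function `Φ` of the history of length `n`: the sum over all
histories of length `n` (`e 0` is the last step) -/
noncomputable def quenchE (s : E → V) (w : V × ℕ → E → ℝ) (n : ℕ) (Φ : List E → ℝ) : ℝ :=
  ∑ e : Fin n → E, wt s w (List.ofFn e) * Φ (List.ofFn e)

/-- the expectation of `Φ` after `n` further steps, after the history `h` -/
noncomputable def Ex (s : E → V) (w : V × ℕ → E → ℝ) (Φ : List E → ℝ) : ℕ → List E → ℝ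
  | 0, h => Φ h
  | n + 1, h => ∑ e, w (pos s h, vis s h) e * Ex s w Φ n (e :: h)

/-- one more visit of `x` -/
def up (r : V → ℕ) (x : V) : V → ℕ := Function.update r x (r x + 1)

/-- the expectation of `f (X_n)` for the walk which starts in `x`, when the site `z` was visited
`r z` times before -/
noncomputable def U (s : E → V) (w : V × ℕ → E → ℝ) (f : V → ℝ) : ℕ → V → (V → ℕ) → ℝ
  | 0, x, _ => f x
  | n + 1, x, r => ∑ e, w (x, r x + 1) e * U s w f n (x + s e) (up r x)

/-- the probability of a transition from `x` to `z` in `t` steps of the random walk with the step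
law `q` -/
noncomputable def pt (s : E → V) (q : E → ℝ) : ℕ → V → V → ℝ
  | 0, x, z => if x = z then 1 else 0
  | t + 1, x, z => ∑ e, q e * pt s q t (x + s e) z

/-- the Green function, `N` steps -/
noncomputable def gr (s : E → V) (q : E → ℝ) (N : ℕ) (x z : V) : ℝ :=
  ∑ t ∈ Finset.range N, pt s q t x z

/-- the gradient of the Green function -/
noncomputable def Gam (s : E → V) (q : E → ℝ) (n : ℕ) (x z : V) : ℝ :=
  ∑ a, ∑ e, q a * q e *
    (∑ t ∈ Finset.range n, |pt s q t (x + s a) z - pt s q t (x + s e) z|) ^ 2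

end walk

/-! ### functions of environments -/

section env

variable {ι E : Type} [DecidableEq ι] [Fintype E] [DecidableEq E]

/-- probability vectors -/
def PV (p : E → ℝ) : Prop := (∀ e, 0 ≤ p e) ∧ ∑ e, p e = 1

/-- `F` with the cookie `κ` replaced by `p` -/
def sb (F : (ι → E → ℝ) → ℝ) (κ : ι) (p : E → ℝ) : (ι → E → ℝ) → ℝ :=
  fun w => F (Function.update w κ p)

/-- the unit vector -/
def dl (e : E) : E → ℝ := Pi.single e 1

/-- `F` is affine in each cookie of the list `l` -/
def MA (l : List ι) (F : (ι → E → ℝ) → ℝ) : Prop :=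
  ∀ κ ∈ l, ∀ (w : ι → E → ℝ) (p : E → ℝ), ∑ e, p e = 1 →
    F (Function.update w κ p) = ∑ e, p e * F (Function.update w κ (dl e))

/-- bounded by 1 on the environments -/
def Bd (F : (ι → E → ℝ) → ℝ) : Prop := ∀ w : ι → E → ℝ, (∀ κ, PV (w κ)) → |F w| ≤ 1

/-- the second moment of `F` if each cookie of `l` is equal to `q` with probability `1 - lam` and to
`dl e` with probability `lam * q e` (the other cookies are `q`) -/
noncomputable def T (lam : ℝ) (q : E → ℝ) : List ι → ((ι → E → ℝ) → ℝ) → ℝ
  | [], F => (F fun _ => q) ^ 2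
  | κ :: l, F => (1 - lam) * T lam q l (sb F κ q) + lam * ∑ e, q e * T lam q l (sb F κ (dl e))

/-- the chaos of order `k` -/
noncomputable def Cs (q : E → ℝ) : List ι → ℕ → ((ι → E → ℝ) → ℝ) → ℝ
  | [], 0, F => (F fun _ => q) ^ 2
  | [], _ + 1, _ => 0
  | κ :: l, 0, F => Cs q l 0 (sb F κ q)
  | κ :: l, k + 1, F => Cs q l (k + 1) (sb F κ q) +
      ∑ e, q e * Cs q l k (fun w => sb F κ (dl e) w - sb F κ q w)

/-- the iterated difference at the constant environment `q` -/
noncomputable def Dl (q : E → ℝ) : List (ι × E) → ((ι → E → ℝ) → ℝ) → ℝ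
  | [], F => F fun _ => q
  | a :: c, F => Dl q c (sb F a.1 (dl a.2)) - Dl q c (sb F a.1 q)

end env

/-! ### the coefficients of the chaos expansion -/

section coef

variable {V E : Type} [AddCommGroup V] [DecidableEq V] [Fintype E]

/-- the tuple without its member number `l` -/
def rmv {X : Type} {k : ℕ} (l : Fin (k + 1)) (c : Fin (k + 1) → X) : Fin k → X :=
  fun j => c (l.succAbove j)

/-- the coefficient of the cookies and directions `c` -/
noncomputable def phi (s : E → V) (q : E → ℝ) (f : V → ℝ) :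
    (N : ℕ) → (k : ℕ) → V → (V → ℕ) → (Fin k → (V × ℕ) × E) → ℝ
  | 0, 0, x, _, _ => f x
  | 0, _ + 1, _, _, _ => 0
  | N + 1, 0, x, r, c => ∑ e, q e * phi s q f N 0 (x + s e) (up r x) c
  | N + 1, k + 1, x, r, c => ∑ e, q e * phi s q f N (k + 1) (x + s e) (up r x) c +
      ∑ l : Fin (k + 1), if (c l).1 = (x, r x + 1) then
        phi s q f N k (x + s (c l).2) (up r x) (rmv l c) -
          ∑ e, q e * phi s q f N k (x + s e) (up r x) (rmv l c) else 0

/-- the coefficients of the cookies at the sites `Z`, with weights, as a vector; the numbers of the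
cookies are `1, .., n` -/
noncomputable def vec (s : E → V) (q : E → ℝ) (f : V → ℝ) (n k : ℕ) (Z : Fin k → V) (N : ℕ) (x : V)
    (r : V → ℕ) : EuclideanSpace ℝ (Fin k → Fin n × E) :=
  WithLp.toLp 2 fun c => (∏ j, Real.sqrt (q (c j).2)) *
    phi s q f N k x r fun j => ((Z j, ((c j).1 : ℕ) + 1), (c j).2)

/-- the bounds of the gradients of the coefficients -/
noncomputable def hh (s : E → V) (q : E → ℝ) (n : ℕ) (L G : ℝ) : (k : ℕ) → (Fin k → V) → V → ℝ
  | 0, _, _ => L ^ 2
  | k + 1, Z, x => 4 * ((k : ℝ) + 1) ^ 2 * G ^ 2 * (∑ l, hh s q n L G k (rmv l Z) (Z l)) *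
      ∑ j, Gam s q n x (Z j)

/-- the bounds of the sums of `hh` -/
noncomputable def AA (L G g2 : ℝ) : ℕ → ℝ
  | 0 => L ^ 2
  | k + 1 => 4 * G ^ 2 * ((k : ℝ) + 1) ^ 4 * g2 * AA L G g2 k

end coef

/-! ### random environments -/

/-- i.i.d. cookies with mean `q`; `dom`: domination by the law of `T` -/
structure Ck {ι E Ω : Type} [Fintype E] [MeasurableSpace Ω] (P : Measure Ω)
    (ω : ι → Ω → E → ℝ) (q : E → ℝ) (lam : ℝ) : Prop where
  prob : IsProbabilityMeasure P
  meas : ∀ κ, Measurable (ω κ)
  pv : ∀ κ o, PV (ω κ o)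
  ind : iIndepFun ω P
  mean : ∀ κ e, ∫ o, ω κ o e ∂P = q e
  lam0 : 0 ≤ lam
  lam1 : lam < 1
  dom : ∀ κ (c : E → ℝ), ∫ o, (∑ e, ω κ o e * c e) ^ 2 ∂P ≤
    lam * ∑ e, q e * c e ^ 2 + (1 - lam) * (∑ e, q e * c e) ^ 2

/-! ### the lattice -/

/-- the directions `± e_i` -/
abbrev Dr (d : ℕ) : Type := Fin d × Bool

/-- the unit vectors -/
def st (d : ℕ) (e : Dr d) : Fin d → ℤ := Pi.single e.1 (if e.2 then 1 else -1)

/-- `v = ∑ q(e) e` -/
noncomputable def drift {d : ℕ} (q : Dr d → ℝ) : Fin d → ℝ := fun i => ∑ e, q e * (st d e i : ℝ)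

/-- the covariance matrix of `q` -/
noncomputable def Sg {d : ℕ} (q : Dr d → ℝ) : Matrix (Fin d) (Fin d) ℝ :=
  Matrix.of fun i j => ∑ e, q e * ((st d e i : ℝ) - drift q i) * ((st d e j : ℝ) - drift q j)

/-- `(x - n v) / √n` -/
noncomputable def nrm {d : ℕ} (q : Dr d → ℝ) (n : ℕ) (x : Fin d → ℤ) : EuclideanSpace ℝ (Fin d) :=
  WithLp.toLp 2 fun i => ((x i : ℝ) - n * drift q i) / Real.sqrt n

/-- the check points: `n` and `ck n` are close -/
def ck (n : ℕ) : ℕ := n - (n - 2 ^ Nat.log 2 n) % (2 ^ Nat.log 2 n / (Nat.log 2 n + 1) ^ 2 + 1)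

end MP0d3db7NS
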