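import Pool.Agent.Lib.MP_0d3db7.NS.Spec

/-!
# MP_0d3db7_pr, theorem NS2: definitions

All dimensions `d ≥ 2`: conservation law for the chaos orders, fourth moments.
-/

set_option autoImplicit false

namespace MP0d3db7NS

open MeasureTheory ProbabilityTheory

/-! ### coefficients with skip counts -/

section psi

variable {V E : Type} [AddCommGroup V] [DecidableEq V] [Fintype E]

/-- a mark `((z, i), a)`: the cookie which is used at the visit number `i + 1` of `z` from now on,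
with the direction `a`; `dec x` is the mark after a visit of `x` -/
def dec (x : V) (c : (V × ℕ) × E) : (V × ℕ) × E :=
  if c.1.1 = x then ((c.1.1, c.1.2 - 1), c.2) else c

open Classical in
/-- the coefficient of the marks `c` in the expectation of `f (X_N)`, the walk starts in `x` -/
noncomputable def psi (s : E → V) (q : E → ℝ) (f : V → ℂ) :
    (N : ℕ) → (k : ℕ) → V → (Fin k → (V × ℕ) × E) → ℂ
  | 0, 0, x, _ => f x
  | 0, _ + 1, _, _ => 0
  | N + 1, 0, x, c => ∑ e, (q e : ℂ) * psi s q f N 0 (x + s e) c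
  | N + 1, k + 1, x, c =>
      if ∀ j, (c j).1 ≠ (x, 0) then
        ∑ e, (q e : ℂ) * psi s q f N (k + 1) (x + s e) (fun j => dec x (c j))
      else ∑ l : Fin (k + 1), if (c l).1 = (x, 0) ∧ ∀ j, j ≠ l → (c j).1 ≠ (x, 0) then
        psi s q f N k (x + s (c l).2) (fun j => dec x (rmv l c j)) -
          ∑ e, (q e : ℂ) * psi s q f N k (x + s e) (fun j => dec x (rmv l c j)) else 0

open Classical in
/-- the part of `psi s q f N (k + 1) x c` of the paths which use the mark number `l` first -/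
noncomputable def psl (s : E → V) (q : E → ℝ) (f : V → ℂ) :
    (N : ℕ) → (k : ℕ) → Fin (k + 1) → V → (Fin (k + 1) → (V × ℕ) × E) → ℂ
  | 0, _, _, _, _ => 0
  | N + 1, k, l, x, c =>
      if ∀ j, (c j).1 ≠ (x, 0) then
        ∑ e, (q e : ℂ) * psl s q f N k l (x + s e) (fun j => dec x (c j))
      else if (c l).1 = (x, 0) ∧ ∀ j, j ≠ l → (c j).1 ≠ (x, 0) then
        psi s q f N k (x + s (c l).2) (fun j => dec x (rmv l c j)) -
          ∑ e, (q e : ℂ) * psi s q f N k (x + s e) (fun j => dec x (rmv l c j)) else 0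

/-- the square sum of the coefficients of order `k` -/
noncomputable def sk (s : E → V) (q : E → ℝ) (f : V → ℂ) (N k : ℕ) (x : V) : ENNReal :=
  ∑' c : Fin k → (V × ℕ) × E, (∏ j, ENNReal.ofReal (q (c j).2)) * ‖psi s q f N k x c‖ₑ ^ 2

/-- the local energy of order `k` -/
noncomputable def ak (s : E → V) (q : E → ℝ) (f : V → ℂ) (N k : ℕ) (x : V) : ENNReal :=
  ∑ a, ENNReal.ofReal (q a) * ∑' c : Fin k → (V × ℕ) × E, (∏ j, ENNReal.ofReal (q (c j).2)) *
    ‖psi s q f N k (x + s a) c - ∑ e, (q e : ℂ) * psi s q f N k (x + s e) c‖ₑ ^ 2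

/-- the square sum of `psl` over the tuples whose mark number `l` is the cookie `(z, i)` -/
noncomputable def slc (s : E → V) (q : E → ℝ) (f : V → ℂ) (N k : ℕ) (l : Fin (k + 1)) (x z : V)
    (i : ℕ) : ENNReal :=
  ∑ a, ENNReal.ofReal (q a) * ∑' c : Fin k → (V × ℕ) × E, (∏ j, ENNReal.ofReal (q (c j).2)) *
    ‖psl s q f N k l x (l.insertNth ((z, i), a) c)‖ₑ ^ 2

/-- the probability that the random walk from `x` is in `z` at the time `t`, for the visit number
`i + 1` of `z` -/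
noncomputable def vs (s : E → V) (q : E → ℝ) : ℕ → V → V → ℕ → ℝ
  | 0, x, z, i => if x = z ∧ i = 0 then 1 else 0
  | t + 1, x, z, i => if x = z then (if i = 0 then 0 else
      ∑ e, q e * vs s q t (x + s e) z (i - 1)) else ∑ e, q e * vs s q t (x + s e) z i

/-- `κ` bounds the expected number of common cookies of two independent walks, `M` steps -/
def KB (s : E → V) (q : E → ℝ) (M : ℕ) (κ : ℝ) : Prop :=
  ∀ (B : Finset V) (I : ℕ), ∑ z ∈ B, ∑ i ∈ Finset.range I,
    (∑ t ∈ Finset.range M, vs s q t 0 z i) ^ 2 ≤ κ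

/-- characters -/
structure Chr (χ : V → ℂ) : Prop where
  add : ∀ x y, χ (x + y) = χ x * χ y
  norm : ∀ x, ‖χ x‖ = 1

/-- averages over a time window -/
noncomputable def Av (s : E → V) (w : V × ℕ → E → ℝ) (f : ℕ → V → ℝ) (n0 h : ℕ) : ℝ :=
  1 / (h : ℝ) * ∑ m ∈ Finset.Ico n0 (n0 + h), U s w (f m) m 0 (fun _ => 0)

end psi

/-! ### the part of low order -/

section low

variable {ι E : Type} [DecidableEq ι] [Fintype E] [DecidableEq E]

/-- the part of order at most `K` -/
noncomputable def Pj (q : E → ℝ) : List ι → ℕ → ((ι → E → ℝ) → ℝ) → ((ι → E → ℝ) → ℝ)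
  | [], _, F => fun _ => F fun _ => q
  | _ :: _, 0, F => fun _ => F fun _ => q
  | κ :: l, K + 1, F => fun w => Pj q l (K + 1) (sb F κ q) w +
      ∑ e, w κ e * Pj q l K (fun w' => sb F κ (dl e) w' - sb F κ q w') w

end low

/-! ### the lattice -/

/-- `(x - m v) / √n0` -/
noncomputable def nr {d : ℕ} (q : Dr d → ℝ) (n0 m : ℕ) (x : Fin d → ℤ) :
    EuclideanSpace ℝ (Fin d) :=
  WithLp.toLp 2 fun i => ((x i : ℝ) - m * drift q i) / Real.sqrt n0

/-- finite convex combinations of characters -/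
def Tp (d : ℕ) (g : EuclideanSpace ℝ (Fin d) → ℝ) : Prop :=
  ∃ (T : ℕ) (p : Fin T → ℝ) (ζ : Fin T → ℂ) (θ : Fin T → Fin d → ℝ), (∀ j, 0 ≤ p j) ∧
    ∑ j, p j ≤ 1 ∧ (∀ j, ‖ζ j‖ ≤ 1) ∧ ∀ y, g y =
      ∑ j, p j * (ζ j * Complex.exp (Complex.I * ((∑ i, θ j i * y i : ℝ) : ℂ))).re

/-- the walk with the drift removed moves by more than `a` in the last `L` steps -/
def Bad {d : ℕ} (q : Dr d → ℝ) (L : ℕ) (a : ℝ) (h : List (Dr d)) : Prop :=
  ∃ k ≤ L, ∃ i, a < |((pos (st d) (h.drop k) i : ℤ) : ℝ) -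
    ((pos (st d) (h.drop L) i : ℤ) : ℝ) - ((L - k : ℕ) : ℝ) * drift q i|

open Classical in
/-- the quenched probability of `Bad` after `n` steps -/
noncomputable def QB {d : ℕ} (q : Dr d → ℝ) (w : (Fin d → ℤ) × ℕ → Dr d → ℝ) (n L : ℕ) (a : ℝ) :
    ℝ := Ex (st d) w (fun h => if Bad q L a h then 1 else 0) n []

/-- the number of the windows in the block `[2^b, 2^(b+1))` -/
noncomputable def gb (θ : ℝ) (b : ℕ) : ℕ := ⌊(b : ℝ) ^ θ⌋₊ + 1

/-- the length of the windows -/
noncomputable def hb (θ : ℝ) (b : ℕ) : ℕ := 2 ^ b / gb θ b + 1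

/-- the beginning of the window number `i` -/
noncomputable def nw (θ : ℝ) (b i : ℕ) : ℕ := 2 ^ b + i * hb θ b

/-- test functions for the tightness -/
noncomputable def tg {d : ℕ} (i0 : Fin d) (M T : ℕ) (y : EuclideanSpace ℝ (Fin d)) : ℝ :=
  1 / (T : ℝ) * ∑ j ∈ Finset.range T, Real.cos (((j : ℝ) + 1) * y i0 / (M * T))

end MP0d3db7NS
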