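import Pool.Agent.Lib.MP_0d3db7.NS.Spec2

/-!
# MP_0d3db7_pr, theorem NS3: definitions

The quenched central limit theorem for all cookies which are not point masses (`d ≥ 3`, or `d = 2`
with drift).
-/

set_option autoImplicit false

namespace MP0d3db7NS

open MeasureTheory ProbabilityTheory

/-- i.i.d. cookies with mean `q` -/
structure Ci {ι E Ω : Type} [Fintype E] [MeasurableSpace Ω] (P : Measure Ω)
    (ω : ι → Ω → E → ℝ) (q : E → ℝ) : Prop where
  prob : IsProbabilityMeasure P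
  meas : ∀ κ, Measurable (ω κ)
  pv : ∀ κ o, PV (ω κ o)
  ind : iIndepFun ω P
  idd : ∀ κ κ', IdentDistrib (ω κ) (ω κ') P P
  mean : ∀ κ e, ∫ o, ω κ o e ∂P = q e

section env3

variable {ι E : Type} [DecidableEq ι]

/-- the part of `F` with the mean zero in the cookie `κ` -/
noncomputable def Dk (q : E → ℝ) (κ : ι) (F : (ι → E → ℝ) → ℂ) (w : ι → E → ℝ) : ℂ :=
  F w - F (Function.update w κ q)

/-- continuous, bounded on the environments, affine in each cookie -/
structure Nice [Fintype E] [DecidableEq E] (F : (ι → E → ℝ) → ℂ) : Prop where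
  cont : Continuous F
  bd : ∃ C : ℝ, ∀ w : ι → E → ℝ, (∀ κ, PV (w κ)) → ‖F w‖ ≤ C
  aff : ∀ (κ : ι) (w : ι → E → ℝ) (p : E → ℝ), ∑ e, p e = 1 →
    F (Function.update w κ p) = ∑ e, (p e : ℂ) * F (Function.update w κ (dl e))

end env3

section uc

variable {V E Ω : Type} [AddCommGroup V] [DecidableEq V] [Fintype E] [MeasurableSpace Ω]

/-- the expectation of `χ (X_n)` for the walk which starts in `x`, when the site `z` was visited
`r z` times before -/
noncomputable def Uc (s : E → V) (w : V × ℕ → E → ℝ) (χ : V → ℂ) : ℕ → V → (V → ℕ) → ℂ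
  | 0, x, _ => χ x
  | n + 1, x, r => ∑ e, (w (x, r x + 1) e : ℂ) * Uc s w χ n (x + s e) (up r x)

/-- the probability that the averaged walk (from `x`, visit numbers `r`) uses the cookie `κ` at the
time `t` -/
noncomputable def vr (s : E → V) (q : E → ℝ) (κ : V × ℕ) : ℕ → V → (V → ℕ) → ℝ
  | 0, x, r => if (x, r x + 1) = κ then 1 else 0
  | t + 1, x, r => ∑ e, q e * vr s q κ t (x + s e) (up r x)

/-- `E |F_n|²` -/
noncomputable def en (s : E → V) (P : Measure Ω) (ω : V × ℕ → Ω → E → ℝ) (χ : V → ℂ) (n : ℕ) : ℝ :=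
  ∫ o, ‖Uc s (fun κ => ω κ o) χ n 0 (fun _ => 0)‖ ^ 2 ∂P

/-- the influence of the cookie `κ` on the walk from `x` with `n` steps -/
noncomputable def ifl (s : E → V) (P : Measure Ω) (ω : V × ℕ → Ω → E → ℝ) (q : E → ℝ)
    (χ : V → ℂ) (n : ℕ) (x : V) (r : V → ℕ) (κ : V × ℕ) : ℝ :=
  ∫ o, ‖Dk q κ (fun w => Uc s w χ n x r) (fun κ => ω κ o)‖ ^ 2 ∂P

/-- the influence of the first cookie on the walk with `n + 1` steps -/
noncomputable def al (s : E → V) (P : Measure Ω) (ω : V × ℕ → Ω → E → ℝ) (q : E → ℝ)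
    (χ : V → ℂ) (n : ℕ) : ℝ :=
  ifl s P ω q χ (n + 1) 0 (fun _ => 0) (0, 1)

/-- the variance of `F_n` -/
noncomputable def vn (s : E → V) (P : Measure Ω) (ω : V × ℕ → Ω → E → ℝ) (q : E → ℝ)
    (χ : V → ℂ) (n : ℕ) : ℝ :=
  ∫ o, ‖Uc s (fun κ => ω κ o) χ n 0 (fun _ => 0) -
    Uc s (fun _ => q) χ n 0 (fun _ => 0)‖ ^ 2 ∂P

/-- `E [w(a) w(e)]` -/
noncomputable def K2m {ι : Type} (P : Measure Ω) (ω : ι → Ω → E → ℝ) (κ : ι) (a e : E) : ℝ :=
  ∫ o, ω κ o a * ω κ o e ∂P

end uc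

/-! ### basic facts on i.i.d. cookies -/

section basic

variable {ι E Ω : Type} [Fintype E] [MeasurableSpace Ω] {P : Measure Ω} {ω : ι → Ω → E → ℝ}
  {q : E → ℝ}

theorem Ci.le1 (h : Ci P ω q) (κ : ι) (o : Ω) (e : E) : ω κ o e ≤ 1 := by
  rw [← (h.pv κ o).2]
  exact Finset.single_le_sum (fun e _ => (h.pv κ o).1 e) (Finset.mem_univ e)

theorem Ci.mese (h : Ci P ω q) (κ : ι) (e : E) : Measurable fun o => ω κ o e :=
  (measurable_pi_apply e).comp (h.meas κ)

theorem Ci.int (h : Ci P ω q) (κ : ι) (e : E) : Integrable (fun o => ω κ o e) P := by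
  have := h.prob
  refine Integrable.of_bound (h.mese κ e).aestronglyMeasurable 1
    (Filter.Eventually.of_forall fun o => ?_)
  rw [Real.norm_eq_abs, abs_of_nonneg ((h.pv κ o).1 e)]
  exact h.le1 κ o e

/-- `q` is a probability vector -/
theorem Ci.pvq (h : Ci P ω q) (κ : ι) : PV q := by
  have := h.prob
  refine ⟨fun e => ?_, ?_⟩
  · rw [← h.mean κ e]
    exact integral_nonneg fun o => (h.pv κ o).1 e
  · have h1 : ∑ e, q e = ∫ o, ∑ e, ω κ o e ∂P := by
      rw [integral_finsetSum _ fun e _ => h.int κ e]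
      exact Finset.sum_congr rfl fun e _ => (h.mean κ e).symm
    rw [h1]
    simp [(h.pv κ _).2]

/-- the second moments are the same for all cookies -/
theorem Ci.k2 (h : Ci P ω q) (κ κ' : ι) (a e : E) : K2m P ω κ a e = K2m P ω κ' a e := by
  have h1 : Measurable fun x : E → ℝ => x a * x e := by fun_prop
  exact ((h.idd κ κ').comp h1).integral_eq

theorem Ci.k2nn (h : Ci P ω q) (κ : ι) (a e : E) : 0 ≤ K2m P ω κ a e :=
  integral_nonneg fun o => mul_nonneg ((h.pv κ o).1 a) ((h.pv κ o).1 e)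

theorem K2m_comm {ι E Ω : Type} [MeasurableSpace Ω] (P : Measure Ω) (ω : ι → Ω → E → ℝ) (κ : ι)
    (a e : E) : K2m P ω κ a e = K2m P ω κ e a := by
  simp only [K2m, mul_comm]

end basic

end MP0d3db7NS
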