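import Pool.Agent.Lib.MP_0d3db7.NS.Defs

/-!
# MP_0d3db7_pr: quenched limit laws, definitions
-/

set_option autoImplicit false

namespace MP0d3db7NS

open MeasureTheory ProbabilityTheory Filter Topology

/-- `(x - c) / √n` -/
noncomputable def scl {d : ℕ} (c : Fin d → ℝ) (n : ℕ) (x : Fin d → ℤ) :
    EuclideanSpace ℝ (Fin d) :=
  WithLp.toLp 2 fun i => ((x i : ℝ) - c i) / Real.sqrt n

/-- `(X_n - c_n) / √n` converges in distribution to `μ` under the quenched law `P_{0,w}` -/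
def Lim {d : ℕ} (w : (Fin d → ℤ) × ℕ → Dr d → ℝ) (c : ℕ → Fin d → ℝ)
    (μ : Measure (EuclideanSpace ℝ (Fin d))) : Prop :=
  ∀ f : BoundedContinuousFunction (EuclideanSpace ℝ (Fin d)) ℝ,
    Tendsto (fun n : ℕ => quenchE (st d) w n fun h => f (scl (c n) n (pos (st d) h))) atTop
      (𝓝 (∫ x, f x ∂μ))

/-- no centering gives a non-degenerate limit law under `P_{0,w}` -/
def NoLim {d : ℕ} (w : (Fin d → ℤ) × ℕ → Dr d → ℝ) : Prop :=
  ∀ (c : ℕ → Fin d → ℝ) (μ : Measure (EuclideanSpace ℝ (Fin d))), IsProbabilityMeasure μ →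
    Lim w c μ → ∃ y, μ = Measure.dirac y

/-- the cookie `X` is almost surely a unit vector (the step is prescribed by the environment) -/
def PtMass {d : ℕ} {Ω : Type} [MeasurableSpace Ω] (P : Measure Ω) (X : Ω → Dr d → ℝ) : Prop :=
  ∀ᵐ o ∂P, ∃ e, X o e = 1

/-- the cookie `X` does not prescribe any set `S` of directions: if `0 < q(S) < 1`, then `X(S)` is
not almost surely in `{0, 1}` -/
def Mixing {d : ℕ} {Ω : Type} [MeasurableSpace Ω] (P : Measure Ω) (X : Ω → Dr d → ℝ)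
    (q : Dr d → ℝ) : Prop :=
  ∀ S : Finset (Dr d), 0 < ∑ e ∈ S, q e → ∑ e ∈ S, q e < 1 →
    ¬ ∀ᵐ o ∂P, (∑ e ∈ S, X o e = 0 ∨ ∑ e ∈ S, X o e = 1)

end MP0d3db7NS
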