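import Pool.Agent.Lib.MP_0d3db7.NS.Spec

set_option autoImplicit false

namespace MP0d3db7NS

open MeasureTheory ProbabilityTheory Filter Topology

namespace Dp_aux

variable {V E : Type} [AddCommGroup V] [DecidableEq V] [Fintype E]

theorem pv_le (s : E → V) (z : V) (h : List E) : pv s z h ≤ h.length := by
  induction h with
  | nil => exact le_rfl
  | cons e h ih =>
    rw [List.length_cons]
    show pv s z h + (if pos s h = z then 1 else 0) ≤ h.length + 1
    split_ifs
    · omega
    · omega

/-- the sites which can be visited in the first `n` steps after the history `h` -/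
def Bs (s : E → V) : ℕ → List E → Finset V
  | 0, _ => ∅
  | n + 1, h => insert (pos s h) (Finset.univ.biUnion fun e => Bs s n (e :: h))

theorem main (s : E → V) (Φ : List E → ℝ) (w w' : V × ℕ → E → ℝ) (n : ℕ) :
    ∀ h : List E, (∀ z ∈ Bs s n h, ∀ i ∈ Finset.Icc 1 (h.length + n), w (z, i) = w' (z, i)) →
      Ex s w Φ n h = Ex s w' Φ n h := by
  induction n with
  | zero =>
    intro h _
    rfl
  | succ n ih =>
    intro h hw
    show ∑ e, w (pos s h, vis s h) e * Ex s w Φ n (e :: h) =
      ∑ e, w' (pos s h, vis s h) e * Ex s w' Φ n (e :: h)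
    have h1 := pv_le s (pos s h) h
    have h2 : w (pos s h, vis s h) = w' (pos s h, vis s h) := by
      refine hw _ (Finset.mem_insert_self _ _) _ (Finset.mem_Icc.2 ?_)
      unfold vis
      omega
    rw [h2]
    refine Finset.sum_congr rfl fun e _ => ?_
    rw [ih (e :: h) fun z hz i hi => ?_]
    refine hw z (Finset.mem_insert_of_mem (Finset.mem_biUnion.2 ⟨e, Finset.mem_univ e, hz⟩)) i ?_
    rw [List.length_cons] at hi
    rw [Finset.mem_Icc] at hi ⊢
    omega

end Dp_aux

theorem tDp : S_Dp := by
  intro V E _ _ _ s n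
  refine ⟨Dp_aux.Bs s n [], fun Φ w w' hw => Dp_aux.main s Φ w w' n [] ?_⟩
  intro z hz i hi
  rw [List.length_nil, zero_add] at hi
  exact hw z hz i hi

end MP0d3db7NS
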