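import Pool.Agent.Lib.MP_0d3db7.NS.Spec

/-!
# MP_0d3db7_pr, theorem NS: the gradient by the formula of Duhamel (Du)
-/

set_option autoImplicit false

namespace MP0d3db7NS

open MeasureTheory ProbabilityTheory Filter Topology

namespace Du_aux

variable {V E : Type} [AddCommGroup V] [DecidableEq V] [Fintype E]

theorem vec_zero (s : E → V) (q : E → ℝ) (f : V → ℝ) (n k : ℕ) (Z : Fin (k + 1) → V) (x : V)
    (r : V → ℕ) : vec s q f n (k + 1) Z 0 x r = 0 := by
  ext c
  simp [vec, phi]

/-- the inhomogeneity -/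
noncomputable def bb (s : E → V) (q : E → ℝ) (f : V → ℝ) (n k : ℕ) (Z : Fin (k + 1) → V)
    (r : V → ℕ) (N : ℕ) (z : V) : EuclideanSpace ℝ (Fin (k + 1) → Fin n × E) :=
  vec s q f n (k + 1) Z (N + 1) z r - ∑ e, q e • vec s q f n (k + 1) Z N (z + s e) r

theorem bb_zero (hVr : S_Vr) (hRd : S_Rd) (s : E → V) (q : E → ℝ) (f : V → ℝ) (hq : PV q)
    (n k : ℕ) (Z : Fin (k + 1) → V) (r : V → ℕ) (N : ℕ) (z : V) (hz : ∀ j, Z j ≠ z) :
    bb s q f n k Z r N z = 0 := by
  have h1 := hVr s q f hq n k Z N z r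
  have h2 : (∑ l, if Z l = z then Real.sqrt (∑ a, ∑ e, q a * q e *
      ‖vec s q f n k (rmv l Z) N (z + s a) (up r z) -
        vec s q f n k (rmv l Z) N (z + s e) (up r z)‖ ^ 2) else 0) = 0 :=
    Finset.sum_eq_zero fun l _ => if_neg (hz l)
  rw [h2] at h1
  have h3 : ∀ e, vec s q f n (k + 1) Z N (z + s e) (up r z) =
      vec s q f n (k + 1) Z N (z + s e) r := by
    intro e
    refine hRd s q f n (k + 1) Z N (z + s e) (up r z) r fun j => ?_
    unfold up
    rw [Function.update_of_ne (hz j)]
  have h4 := norm_le_zero_iff.1 h1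
  simp only [h3] at h4
  exact h4

theorem repr (hVr : S_Vr) (hRd : S_Rd) (s : E → V) (q : E → ℝ) (f : V → ℝ) (hq : PV q)
    (n k : ℕ) (Z : Fin (k + 1) → V) (r : V → ℕ) (N : ℕ) : ∀ x : V,
    vec s q f n (k + 1) Z N x r = ∑ t ∈ Finset.range N, ∑ z ∈ Finset.univ.image Z,
      pt s q t x z • bb s q f n k Z r (N - 1 - t) z := by
  induction N with
  | zero =>
    intro x
    rw [vec_zero, Finset.range_zero, Finset.sum_empty]
  | succ N ih =>
    intro x
    have h1 : vec s q f n (k + 1) Z (N + 1) x r =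
        bb s q f n k Z r N x + ∑ e, q e • vec s q f n (k + 1) Z N (x + s e) r := by
      unfold bb
      rw [sub_add_cancel]
    rw [h1, Finset.sum_range_succ', add_comm (bb s q f n k Z r N x)]
    congr 1
    · calc ∑ e, q e • vec s q f n (k + 1) Z N (x + s e) r
          = ∑ e, ∑ t ∈ Finset.range N, ∑ z ∈ Finset.univ.image Z,
              (q e * pt s q t (x + s e) z) • bb s q f n k Z r (N - 1 - t) z := by
            refine Finset.sum_congr rfl fun e _ => ?_
            rw [ih (x + s e), Finset.smul_sum]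
            refine Finset.sum_congr rfl fun t _ => ?_
            rw [Finset.smul_sum]
            exact Finset.sum_congr rfl fun z _ => by rw [smul_smul]
        _ = ∑ t ∈ Finset.range N, ∑ z ∈ Finset.univ.image Z, ∑ e,
              (q e * pt s q t (x + s e) z) • bb s q f n k Z r (N - 1 - t) z := by
            rw [Finset.sum_comm]
            exact Finset.sum_congr rfl fun t _ => Finset.sum_comm
        _ = _ := by
            refine Finset.sum_congr rfl fun t _ => Finset.sum_congr rfl fun z _ => ?_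
            rw [← Finset.sum_smul, show N + 1 - 1 - (t + 1) = N - 1 - t by omega]
            rfl
    · rw [show N + 1 - 1 - 0 = N by omega]
      by_cases hx : ∃ j, Z j = x
      · obtain ⟨j, hj⟩ := hx
        rw [Finset.sum_eq_single x]
        · simp [pt]
        · intro z _ hz
          simp [pt, Ne.symm hz]
        · intro h
          exact absurd (Finset.mem_image.2 ⟨j, Finset.mem_univ j, hj⟩) h
      · push Not at hx
        rw [bb_zero hVr hRd s q f hq n k Z r N x hx]
        symm
        refine Finset.sum_eq_zero fun z hz => ?_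
        obtain ⟨j, _, rfl⟩ := Finset.mem_image.1 hz
        simp [pt, Ne.symm (hx j)]

omit [AddCommGroup V] in
theorem sum_image_le' {k : ℕ} (Z : Fin k → V) (g : V → ℝ) (hg : ∀ z, 0 ≤ g z) :
    ∑ z ∈ Finset.univ.image Z, g z ≤ ∑ j, g (Z j) := by
  have h1 : ∀ z ∈ Finset.univ.image Z, g z ≤ ∑ j ∈ Finset.univ.filter (fun j => Z j = z), g (Z j) := by
    intro z hz
    obtain ⟨j, _, rfl⟩ := Finset.mem_image.1 hz
    exact Finset.single_le_sum (f := fun i => g (Z i)) (fun i _ => hg _)
      (Finset.mem_filter.2 ⟨Finset.mem_univ j, rfl⟩)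
  refine (Finset.sum_le_sum h1).trans (le_of_eq ?_)
  exact Finset.sum_fiberwise_of_maps_to
    (fun j _ => Finset.mem_image.2 ⟨j, Finset.mem_univ j, rfl⟩) (fun j => g (Z j))

end Du_aux

open Du_aux

theorem tDu (hVr : S_Vr) (hRd : S_Rd) : S_Du := by
  intro V E _ _ _ s q f hq n k Z m hm hH N hN x y r
  rw [repr hVr hRd s q f hq n k Z r N x, repr hVr hRd s q f hq n k Z r N y,
    ← Finset.sum_sub_distrib]
  have hb : ∀ t ∈ Finset.range N, ∀ z, ‖bb s q f n k Z r (N - 1 - t) z‖ ≤ 2 * m := by
    intro t ht z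
    have ht' := Finset.mem_range.1 ht
    unfold bb
    refine (norm_sub_le _ _).trans ?_
    have h1 : ‖vec s q f n (k + 1) Z (N - 1 - t + 1) z r‖ ≤ m := hH _ _ _ (by omega)
    have h2 : ‖∑ e, q e • vec s q f n (k + 1) Z (N - 1 - t) (z + s e) r‖ ≤ m := by
      refine (norm_sum_le _ _).trans ?_
      calc ∑ e, ‖q e • vec s q f n (k + 1) Z (N - 1 - t) (z + s e) r‖ ≤ ∑ e, q e * m := by
            refine Finset.sum_le_sum fun e _ => ?_
            rw [norm_smul, Real.norm_of_nonneg (hq.1 e)]
            exact mul_le_mul_of_nonneg_left (hH _ _ _ (by omega)) (hq.1 e)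
        _ = m := by rw [← Finset.sum_mul, hq.2, one_mul]
    linarith
  calc ‖∑ t ∈ Finset.range N, (∑ z ∈ Finset.univ.image Z,
        pt s q t x z • bb s q f n k Z r (N - 1 - t) z - ∑ z ∈ Finset.univ.image Z,
        pt s q t y z • bb s q f n k Z r (N - 1 - t) z)‖
      ≤ ∑ t ∈ Finset.range N, ∑ z ∈ Finset.univ.image Z,
        |pt s q t x z - pt s q t y z| * (2 * m) := by
        refine (norm_sum_le _ _).trans (Finset.sum_le_sum fun t ht => ?_)
        rw [← Finset.sum_sub_distrib]
        refine (norm_sum_le _ _).trans (Finset.sum_le_sum fun z _ => ?_)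
        rw [← sub_smul, norm_smul, Real.norm_eq_abs]
        exact mul_le_mul_of_nonneg_left (hb t ht z) (abs_nonneg _)
    _ ≤ ∑ t ∈ Finset.range n, ∑ z ∈ Finset.univ.image Z,
        |pt s q t x z - pt s q t y z| * (2 * m) := by
        refine Finset.sum_le_sum_of_subset_of_nonneg (Finset.range_mono hN) fun t _ _ => ?_
        exact Finset.sum_nonneg fun z _ => mul_nonneg (abs_nonneg _) (by linarith)
    _ = 2 * m * ∑ z ∈ Finset.univ.image Z, ∑ t ∈ Finset.range n,
        |pt s q t x z - pt s q t y z| := by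
        rw [Finset.sum_comm, Finset.mul_sum]
        refine Finset.sum_congr rfl fun z _ => ?_
        rw [← Finset.sum_mul, mul_comm]
    _ ≤ 2 * m * ∑ j, ∑ t ∈ Finset.range n, |pt s q t x (Z j) - pt s q t y (Z j)| := by
        refine mul_le_mul_of_nonneg_left ?_ (by linarith)
        exact sum_image_le' Z (fun z => ∑ t ∈ Finset.range n, |pt s q t x z - pt s q t y z|)
          fun z => Finset.sum_nonneg fun t _ => abs_nonneg _

end MP0d3db7NS
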