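import Pool.Agent.Lib.MP_0d3db7.NS.Spec3

/-!
# MP_0d3db7_pr, theorem NS3, module Dv: the probability of a deviation
-/

set_option autoImplicit false

namespace MP0d3db7NS

open MeasureTheory ProbabilityTheory Filter Topology

namespace Dv_aux

/-- the unit vectors are different -/
theorem st_inj (d : ℕ) {a e : Dr d} (h : st d a = st d e) : a = e := by
  have h1 := congrFun h a.1
  unfold st at h1
  rw [Pi.single_eq_same] at h1
  by_cases h2 : a.1 = e.1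
  · rw [h2, Pi.single_eq_same] at h1
    refine Prod.ext h2 ?_
    rcases ha : a.2 <;> rcases he : e.2 <;> simp [ha, he] at h1 ⊢
  · rw [Pi.single_eq_of_ne h2] at h1
    rcases ha : a.2 <;> simp [ha] at h1

/-- a cookie which is not a point mass -/
theorem pair {ι E Ω : Type} [Fintype E] [DecidableEq E] [MeasurableSpace Ω] {P : Measure Ω}
    {ω : ι → Ω → E → ℝ} {q : E → ℝ} (h : Ci P ω q) (κ : ι)
    (hn : ¬ ∀ᵐ o ∂P, ∃ e, ω κ o e = 1) : ∃ a e, a ≠ e ∧ 0 < K2m P ω κ a e := by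
  have := h.prob
  by_contra hc
  push Not at hc
  refine hn ?_
  have h1 : ∀ a e, a ≠ e → ∀ᵐ o ∂P, ω κ o a * ω κ o e = 0 := by
    intro a e hae
    have h2 : K2m P ω κ a e = 0 := le_antisymm (hc a e hae) (h.k2nn κ a e)
    have h3 : Integrable (fun o => ω κ o a * ω κ o e) P := by
      refine Integrable.of_bound (((h.mese κ a).mul (h.mese κ e)).aestronglyMeasurable) 1
        (Filter.Eventually.of_forall fun o => ?_)
      rw [Real.norm_eq_abs, abs_of_nonneg (mul_nonneg ((h.pv κ o).1 a) ((h.pv κ o).1 e))]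
      exact mul_le_one₀ (h.le1 κ o a) ((h.pv κ o).1 e) (h.le1 κ o e)
    have h4 := (integral_eq_zero_iff_of_nonneg (μ := P) (f := fun o => ω κ o a * ω κ o e)
      (fun o => mul_nonneg ((h.pv κ o).1 a) ((h.pv κ o).1 e)) h3).1 h2
    filter_upwards [h4] with o ho
    exact ho
  have h5 : ∀ᵐ o ∂P, ∀ a e, a ≠ e → ω κ o a * ω κ o e = 0 := by
    rw [ae_all_iff]
    intro a
    rw [ae_all_iff]
    intro e
    by_cases hae : a = e
    · exact Filter.Eventually.of_forall fun o h' => absurd hae h'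
    · filter_upwards [h1 a e hae] with o ho _
      exact ho
  filter_upwards [h5] with o ho
  have h6 : ∃ e, ω κ o e ≠ 0 := by
    by_contra h7
    push Not at h7
    have h8 := (h.pv κ o).2
    rw [Finset.sum_eq_zero fun e _ => h7 e] at h8
    exact zero_ne_one h8
  obtain ⟨e, he⟩ := h6
  refine ⟨e, ?_⟩
  rw [← (h.pv κ o).2]
  refine (Finset.sum_eq_single e (fun a _ hae => ?_) fun h' => absurd (Finset.mem_univ e) h').symm
  exact (mul_eq_zero.1 (ho a e hae)).resolve_right he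

end Dv_aux

open Dv_aux

theorem tDv (hVw : S_Vw) (hYg : S_Yg) (hAm : S_Am) (hNm : S_Nm) (hSz : S_Sz) (hIn : S_In)
    (hK1 : S_K1) (hSu : S_Su) (hSp : S_Sp) : S_Dv := by
  intro Ω _ d P ω q hCi hdet hd hn θ ε hθ0 hθ1 hε
  have hq : PV q := hCi.pvq (0, 1)
  obtain ⟨a, e, hae, hK⟩ := pair hCi (0, 1) hn
  have hst : st d a ≠ st d e := fun h => hae (st_inj d h)
  have hd2 : 2 ≤ d := by
    rcases hd with h | h
    · omega
    · exact h.1.ge
  -- transition probabilities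
  obtain ⟨f0, g0, hf0, hg0, hl⟩ := hSp d q hq hdet
  obtain ⟨C, hC0, hC⟩ := hSu (st d) q hq d f0 g0 hf0 hg0 hl
  have hC' : ∀ t x z, pt (st d) q t x z ≤ C / ((t : ℝ) + 1) := by
    intro t x z
    refine (hC t x z).trans ?_
    have h0 : ((t : ℝ) + 1)⁻¹ = ((t : ℝ) + 1) ^ (-1 : ℝ) := (Real.rpow_neg_one _).symm
    rw [div_eq_mul_inv C, h0]
    refine mul_le_mul_of_nonneg_left (Real.rpow_le_rpow_of_exponent_le ?_ ?_) hC0
    · have : (0 : ℝ) ≤ t := Nat.cast_nonneg t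
      linarith
    · have : (2 : ℝ) ≤ d := by exact_mod_cast hd2
      linarith
  obtain ⟨C1, hC1, hinp⟩ := hIn d q hq hdet hd
  obtain ⟨C2, hC2, ham⟩ := hAm (st d) P ω q hCi C hC' a e hae hst hK
  obtain ⟨C3, hC3, hnm⟩ := hNm θ hθ0 hθ1
  refine ⟨C2 * Real.sqrt C1 / (4 * ε ^ 2) * C3, by positivity, ?_⟩
  intro b hb1 i hi g hg
  obtain ⟨hz1, hz2, hz3, -⟩ := hSz θ hθ0 hθ1 b hb1
  have hn0 : 1 ≤ nw θ b i := by
    unfold nw
    exact Nat.one_le_two_pow.trans (Nat.le_add_right _ _)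
  set M : ℕ := nw θ b i + hb θ b with hM
  have hM1 : 1 ≤ M := hn0.trans (Nat.le_add_right _ _)
  have hM1' : (1 : ℝ) ≤ M := by exact_mod_cast hM1
  have hlog : 0 ≤ Real.log (M : ℝ) := Real.log_nonneg hM1'
  set κ0 : ℝ := C1 * (M : ℝ) ^ (3 / 4 : ℝ) with hκ0
  have hκ00 : 0 ≤ κ0 := by positivity
  have hKB : KB (st d) q M κ0 := hK1 (st d) q hq M κ0 (hinp M hM1).2.2.2
  set Y : ℝ := C2 * (1 + Real.log M) ^ 2 * Real.sqrt (κ0 * M) with hY
  have hY0 : 0 ≤ Y := by positivity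
  have hv : ∀ χ : (Fin d → ℤ) → ℂ, Chr χ →
      ∑ m ∈ Finset.range (nw θ b i + hb θ b), vn (st d) P ω q χ m ≤ Y := by
    intro χ hχ
    refine (hYg (st d) P ω q χ hCi hχ M κ0 hκ00 hKB).trans ?_
    exact mul_le_mul_of_nonneg_right (ham χ hχ M hM1) (Real.sqrt_nonneg _)
  have h1 := hVw d P ω q hCi g hg (nw θ b i) (hb θ b) Y ε hn0 hz3 hε hY0 hv
  refine h1.trans ?_
  have h2 := hnm b hb1 i hi
  have hh : (0 : ℝ) < hb θ b := by exact_mod_cast hz3
  have h3 : Real.sqrt (κ0 * M) = Real.sqrt C1 *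
      Real.sqrt ((M : ℝ) ^ (3 / 4 : ℝ) * (M : ℝ)) := by
    rw [← Real.sqrt_mul hC1, hκ0, mul_assoc]
  calc Y / (4 * ε ^ 2 * (hb θ b : ℝ))
      = C2 * Real.sqrt C1 / (4 * ε ^ 2) * ((1 + Real.log (M : ℝ)) ^ 2 *
        Real.sqrt ((M : ℝ) ^ (3 / 4 : ℝ) * (M : ℝ)) / (hb θ b : ℝ)) := by
        rw [hY, h3]
        field_simp
    _ ≤ C2 * Real.sqrt C1 / (4 * ε ^ 2) * (C3 * (b : ℝ) ^ (-1 - 2 * θ)) :=
        mul_le_mul_of_nonneg_left h2 (by positivity)
    _ = C2 * Real.sqrt C1 / (4 * ε ^ 2) * C3 * (b : ℝ) ^ (-1 - 2 * θ) := by ring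

end MP0d3db7NS
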