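import Pool.Agent.Lib.MP_0d3db7.NS.Spec3

/-!
# MP_0d3db7_pr, theorem NS3, module Eg: the energy identity (helper92)
-/

set_option autoImplicit false

namespace MP0d3db7NS

open MeasureTheory ProbabilityTheory Filter Topology

namespace Eg_aux

theorem real_id {E : Type} [Fintype E] (p x : E → ℝ) (hp : ∑ e, p e = 1) :
    (∑ e, p e * x e) ^ 2 =
      ∑ e, p e * x e ^ 2 - (1 / 2) * ∑ a, ∑ e, p a * p e * (x a - x e) ^ 2 := by
  have h1 : (∑ e, p e * x e) ^ 2 = ∑ a, ∑ e, p a * p e * (x a * x e) := by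
    rw [sq, Finset.sum_mul_sum]
    refine Finset.sum_congr rfl fun a _ => Finset.sum_congr rfl fun e _ => ?_
    ring
  have h2 : ∑ a, ∑ e, p a * p e * x a ^ 2 = ∑ e, p e * x e ^ 2 := by
    refine Finset.sum_congr rfl fun a _ => ?_
    have : ∀ e, p a * p e * x a ^ 2 = p e * (p a * x a ^ 2) := fun e => by ring
    simp only [this]
    rw [← Finset.sum_mul, hp, one_mul]
  have h3 : ∑ a, ∑ e, p a * p e * x e ^ 2 = ∑ e, p e * x e ^ 2 := by
    rw [Finset.sum_comm]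
    refine Eq.trans ?_ h2
    refine Finset.sum_congr rfl fun a _ => Finset.sum_congr rfl fun e _ => ?_
    ring
  have h4 : ∑ a, ∑ e, p a * p e * (x a - x e) ^ 2 = ∑ a, ∑ e, p a * p e * x a ^ 2 +
      ∑ a, ∑ e, p a * p e * x e ^ 2 - 2 * ∑ a, ∑ e, p a * p e * (x a * x e) := by
    rw [Finset.mul_sum, ← Finset.sum_add_distrib, ← Finset.sum_sub_distrib]
    refine Finset.sum_congr rfl fun a _ => ?_
    rw [Finset.mul_sum, ← Finset.sum_add_distrib, ← Finset.sum_sub_distrib]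
    refine Finset.sum_congr rfl fun e _ => ?_
    ring
  rw [h4, h2, h3, h1]
  ring

theorem cpx_id {E : Type} [Fintype E] (p : E → ℝ) (G : E → ℂ) (hp : ∑ e, p e = 1) :
    ‖∑ e, (p e : ℂ) * G e‖ ^ 2 =
      ∑ e, p e * ‖G e‖ ^ 2 - (1 / 2) * ∑ a, ∑ e, p a * p e * ‖G a - G e‖ ^ 2 := by
  have hn : ∀ z : ℂ, ‖z‖ ^ 2 = z.re ^ 2 + z.im ^ 2 := fun z => by
    rw [Complex.sq_norm, Complex.normSq_apply]
    ring
  have r1 := real_id p (fun e => (G e).re) hp
  have r2 := real_id p (fun e => (G e).im) hp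
  have e1 : (∑ e, (p e : ℂ) * G e).re = ∑ e, p e * (G e).re := by
    rw [Complex.re_sum]
    exact Finset.sum_congr rfl fun e _ => Complex.re_ofReal_mul _ _
  have e2 : (∑ e, (p e : ℂ) * G e).im = ∑ e, p e * (G e).im := by
    rw [Complex.im_sum]
    exact Finset.sum_congr rfl fun e _ => Complex.im_ofReal_mul _ _
  rw [hn, e1, e2, r1, r2]
  simp only [hn, Complex.sub_re, Complex.sub_im, mul_add, Finset.sum_add_distrib]
  ring

variable {V E Ω : Type} [AddCommGroup V] [DecidableEq V] [Countable V] [Fintype E]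
  [DecidableEq E] [MeasurableSpace Ω]

omit [DecidableEq E] in
/-- independence, for real functions -/
theorem ixR {ι : Type} [DecidableEq ι] [Countable ι] (hIx : S_Ix) {P : Measure Ω}
    {ω : ι → Ω → E → ℝ} {q : E → ℝ} (h : Ci P ω q) (κ : ι) (φ : (E → ℝ) → ℝ)
    (g : (ι → E → ℝ) → ℝ) (hφ : Measurable φ) (hg : Measurable g)
    (hi : ∀ w p, g (Function.update w κ p) = g w) :
    ∫ o, φ (ω κ o) * g (fun κ => ω κ o) ∂P =
      (∫ o, φ (ω κ o) ∂P) * ∫ o, g (fun κ => ω κ o) ∂P := by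
  have h1 := hIx P ω q h κ φ (fun w => (g w : ℂ)) hφ (Complex.measurable_ofReal.comp hg)
    (fun w p => by rw [hi])
  simp only [← Complex.ofReal_mul] at h1
  rw [integral_complex_ofReal, integral_complex_ofReal] at h1
  exact_mod_cast h1

variable (s : E → V) (P : Measure Ω) (ω : V × ℕ → Ω → E → ℝ) (q : E → ℝ) (χ : V → ℂ)

theorem energy (hIx : S_Ix) (hUb : S_Ub) (hIv : S_Iv) (h : Ci P ω q) (hχ : Chr χ) (n : ℕ) (x : V)
    (r : V → ℕ) :
    en s P ω χ (n + 1) = en s P ω χ n - (1 / 2) * ∑ a, ∑ e, K2m P ω (0, 1) a e *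
      ∫ o, ‖Uc s (fun κ => ω κ o) χ n (x + s a) (up r x) -
        Uc s (fun κ => ω κ o) χ n (x + s e) (up r x)‖ ^ 2 ∂P := by
  have := h.prob
  obtain ⟨hc, hb, hu, -⟩ := hUb s χ
  have hχ1 : ∀ y, ‖χ y‖ ≤ 1 := fun y => (hχ.norm y).le
  -- the functions
  set κ0 : V × ℕ := (x, r x + 1) with hκ0
  let G : E → (V × ℕ → E → ℝ) → ℂ := fun e w => Uc s w χ n (x + s e) (up r x)
  have hGm : ∀ e, Measurable (G e) := fun e => (hc n (x + s e) (up r x)).measurable
  have hGi : ∀ e w p, G e (Function.update w κ0 p) = G e w := fun e w p =>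
    hu n (x + s e) (up r x) x (r x + 1) p w (by simp [up])
  have hGb : ∀ e o, ‖G e (fun κ => ω κ o)‖ ≤ 1 := fun e o =>
    hb hχ1 n (x + s e) (up r x) _ fun κ => h.pv κ o
  have hmW : Measurable fun o κ => ω κ o := measurable_pi_iff.2 fun κ => h.meas _
  -- the identity under the integral
  have e1 : ∀ o, ‖Uc s (fun κ => ω κ o) χ (n + 1) x r‖ ^ 2 =
      ∑ e, ω κ0 o e * ‖G e (fun κ => ω κ o)‖ ^ 2 - (1 / 2) * ∑ a, ∑ e, ω κ0 o a * ω κ0 o e *
        ‖G a (fun κ => ω κ o) - G e (fun κ => ω κ o)‖ ^ 2 := by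
    intro o
    rw [← cpx_id (ω κ0 o) (fun e => G e (fun κ => ω κ o)) (h.pv κ0 o).2]
    rfl
  have hA : ∀ e, Integrable (fun o => ω κ0 o e * ‖G e (fun κ => ω κ o)‖ ^ 2) P := by
    intro e
    refine Integrable.of_bound ((h.mese κ0 e).mul
      (((hGm e).comp hmW).norm.pow_const 2)).aestronglyMeasurable 1
      (Filter.Eventually.of_forall fun o => ?_)
    rw [Real.norm_eq_abs, abs_mul, abs_of_nonneg ((h.pv κ0 o).1 e), abs_of_nonneg (by positivity)]
    exact mul_le_one₀ (h.le1 κ0 o e) (by positivity) (pow_le_one₀ (norm_nonneg _) (hGb e o))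
  have hB : ∀ a e, Integrable (fun o => ω κ0 o a * ω κ0 o e *
      ‖G a (fun κ => ω κ o) - G e (fun κ => ω κ o)‖ ^ 2) P := by
    intro a e
    refine Integrable.of_bound (((h.mese κ0 a).mul (h.mese κ0 e)).mul
      ((((hGm a).comp hmW).sub ((hGm e).comp hmW)).norm.pow_const 2)).aestronglyMeasurable 4
      (Filter.Eventually.of_forall fun o => ?_)
    have h1 : ‖G a (fun κ => ω κ o) - G e (fun κ => ω κ o)‖ ≤ 2 :=
      (norm_sub_le _ _).trans (by linarith [hGb a o, hGb e o])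
    have h2 : ‖G a (fun κ => ω κ o) - G e (fun κ => ω κ o)‖ ^ 2 ≤ 4 := by
      have := pow_le_pow_left₀ (norm_nonneg _) h1 2
      linarith
    have h3 : ω κ0 o a * ω κ0 o e ≤ 1 := mul_le_one₀ (h.le1 κ0 o a) ((h.pv κ0 o).1 e) (h.le1 κ0 o e)
    have h4 : 0 ≤ ω κ0 o a * ω κ0 o e := mul_nonneg ((h.pv κ0 o).1 a) ((h.pv κ0 o).1 e)
    rw [Real.norm_eq_abs, abs_mul, abs_of_nonneg h4, abs_of_nonneg (by positivity)]
    nlinarith [sq_nonneg ‖G a (fun κ => ω κ o) - G e (fun κ => ω κ o)‖]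
  have e2 : ∫ o, ‖Uc s (fun κ => ω κ o) χ (n + 1) x r‖ ^ 2 ∂P =
      ∑ e, ∫ o, ω κ0 o e * ‖G e (fun κ => ω κ o)‖ ^ 2 ∂P - (1 / 2) * ∑ a, ∑ e,
        ∫ o, ω κ0 o a * ω κ0 o e * ‖G a (fun κ => ω κ o) - G e (fun κ => ω κ o)‖ ^ 2 ∂P := by
    simp only [e1]
    rw [integral_sub (integrable_finsetSum _ fun e _ => hA e)
      ((integrable_finsetSum _ fun a _ => integrable_finsetSum _ fun e _ => hB a e).const_mul _),
      integral_const_mul, integral_finsetSum _ fun e _ => hA e,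
      integral_finsetSum _ fun a _ => integrable_finsetSum _ fun e _ => hB a e]
    refine congrArg₂ _ rfl (congrArg₂ _ rfl (Finset.sum_congr rfl fun a _ => ?_))
    exact integral_finsetSum _ fun e _ => hB a e
  have e3 : ∀ e, ∫ o, ω κ0 o e * ‖G e (fun κ => ω κ o)‖ ^ 2 ∂P = q e * en s P ω χ n := by
    intro e
    have h1 := ixR hIx h κ0 (fun p => p e) (fun w => ‖G e w‖ ^ 2) (measurable_pi_apply e)
      ((hGm e).norm.pow_const 2) (fun w p => by rw [hGi])
    rw [h.mean κ0 e, (hIv s P ω q χ h hχ n (x + s e) (up r x)).1] at h1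
    exact h1
  have e4 : ∀ a e, ∫ o, ω κ0 o a * ω κ0 o e *
      ‖G a (fun κ => ω κ o) - G e (fun κ => ω κ o)‖ ^ 2 ∂P = K2m P ω (0, 1) a e *
      ∫ o, ‖G a (fun κ => ω κ o) - G e (fun κ => ω κ o)‖ ^ 2 ∂P := by
    intro a e
    have h1 := ixR hIx h κ0 (fun p => p a * p e) (fun w => ‖G a w - G e w‖ ^ 2)
      ((measurable_pi_apply a).mul (measurable_pi_apply e))
      (((hGm a).sub (hGm e)).norm.pow_const 2) (fun w p => by rw [hGi, hGi])
    rw [← h.k2 κ0 (0, 1) a e]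
    exact h1
  have e5 : ∑ e, q e * en s P ω χ n = en s P ω χ n := by
    rw [← Finset.sum_mul, (h.pvq κ0).2, one_mul]
  rw [← (hIv s P ω q χ h hχ (n + 1) x r).1, e2]
  simp only [e3, e4, e5]
  rfl

end Eg_aux

theorem tEg (hIx : S_Ix) (hUb : S_Ub) (hIv : S_Iv) : S_Eg := by
  intro V E Ω _ _ _ _ _ _ s P ω q χ h hχ n
  have := h.prob
  have hD : ∀ (x : V) (r : V → ℕ) (a e : E), 0 ≤ K2m P ω (0, 1) a e *
      ∫ o, ‖Uc s (fun κ => ω κ o) χ n (x + s a) (up r x) -
        Uc s (fun κ => ω κ o) χ n (x + s e) (up r x)‖ ^ 2 ∂P := fun x r a e =>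
    mul_nonneg (h.k2nn _ a e) (integral_nonneg fun o => by positivity)
  refine ⟨integral_nonneg fun o => by positivity, ?_, ?_, ?_⟩
  · obtain ⟨-, hb, -⟩ := hUb s χ
    have h1 : ∀ o, ‖Uc s (fun κ => ω κ o) χ n 0 (fun _ => 0)‖ ^ 2 ≤ 1 := fun o =>
      pow_le_one₀ (norm_nonneg _) (hb (fun y => (hχ.norm y).le) n 0 _ _ fun κ => h.pv κ o)
    have h2 : en s P ω χ n ≤ ∫ _o : Ω, (1 : ℝ) ∂P :=
      integral_mono_of_nonneg (Filter.Eventually.of_forall fun o => by positivity)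
        (integrable_const 1) (Filter.Eventually.of_forall h1)
    simpa using h2
  · have h1 := Eg_aux.energy s P ω q χ hIx hUb hIv h hχ n 0 (fun _ => 0)
    have h2 := Finset.sum_nonneg (s := Finset.univ) fun (a : E) _ =>
      Finset.sum_nonneg (s := Finset.univ) fun (e : E) _ => hD 0 (fun _ => 0) a e
    linarith
  · intro x r a e hae
    have h1 := Eg_aux.energy s P ω q χ hIx hUb hIv h hχ n x r
    set T : E → E → ℝ := fun a e => K2m P ω (0, 1) a e *
      ∫ o, ‖Uc s (fun κ => ω κ o) χ n (x + s a) (up r x) -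
        Uc s (fun κ => ω κ o) χ n (x + s e) (up r x)‖ ^ 2 ∂P with hT
    have hT0 : ∀ a e, 0 ≤ T a e := fun a e => hD x r a e
    have hTs : T e a = T a e := by
      simp only [hT]
      rw [K2m_comm P ω (0, 1) e a]
      refine congrArg₂ _ rfl (integral_congr_ae (Filter.Eventually.of_forall fun o => ?_))
      change ‖_ - _‖ ^ 2 = ‖_ - _‖ ^ 2
      rw [norm_sub_rev]
    have h3 : ∑ a' ∈ ({a, e} : Finset E), ∑ e', T a' e' ≤ ∑ a', ∑ e', T a' e' :=
      Finset.sum_le_sum_of_subset_of_nonneg (Finset.subset_univ _) fun a' _ _ =>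
        Finset.sum_nonneg fun e' _ => hT0 a' e'
    rw [Finset.sum_pair hae] at h3
    have h4 : T a e ≤ ∑ e', T a e' :=
      Finset.single_le_sum (f := fun e' => T a e') (fun e' _ => hT0 a e') (Finset.mem_univ e)
    have h5 : T e a ≤ ∑ e', T e e' :=
      Finset.single_le_sum (f := fun e' => T e e') (fun e' _ => hT0 e e') (Finset.mem_univ a)
    have h6 : T a e ≤ en s P ω χ n - en s P ω χ (n + 1) := by
      linarith
    exact h6

end MP0d3db7NS
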