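import Pool.Agent.Lib.MP_0d3db7.NS.Spec2

/-!
# MP_0d3db7_pr, theorem NS2, module En (helper69): energy bound
-/

set_option autoImplicit false

namespace MP0d3db7NS

open MeasureTheory ProbabilityTheory Filter Topology

namespace En_aux

variable {V E : Type} [AddCommGroup V] [DecidableEq V] [Fintype E]

omit [AddCommGroup V] [DecidableEq V] in
theorem sum_one {q : E → ℝ} (hq : PV q) : ∑ e, ENNReal.ofReal (q e) = 1 := by
  rw [← ENNReal.ofReal_sum_of_nonneg fun e _ => hq.1 e, hq.2, ENNReal.ofReal_one]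

theorem step (hId : S_Id) (hTr : S_Tr) (s : E → V) (q : E → ℝ) (χ : V → ℂ) (hq : PV q)
    (hχ : Chr χ) (N : ℕ) :
    (∀ k : ℕ, sk s q χ (N + 1) (k + 1) 0 + ak s q χ N (k + 1) 0 =
      sk s q χ N (k + 1) 0 + ((k : ENNReal) + 1) * ak s q χ N k 0) ∧
    sk s q χ (N + 1) 0 0 + ak s q χ N 0 0 = sk s q χ N 0 0 := by
  obtain ⟨h1, h2⟩ := hId s q χ hq N 0
  have h3 : ∀ k, ∑ e, ENNReal.ofReal (q e) * sk s q χ N k (0 + s e) = sk s q χ N k 0 := by
    intro k
    have h4 : ∀ e, sk s q χ N k (0 + s e) = sk s q χ N k 0 := fun e => (hTr s q χ hχ N k 0 (s e)).1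
    simp only [h4]
    rw [← Finset.sum_mul, sum_one hq, one_mul]
  refine ⟨fun k => ?_, ?_⟩
  · rw [h1 k, h3]
  · rw [h2, h3]

theorem base1 (s : E → V) (q : E → ℝ) (χ : V → ℂ) (k : ℕ) : sk s q χ 0 (k + 1) 0 = 0 := by
  unfold sk
  rw [ENNReal.tsum_eq_zero]
  intro c
  rw [psi]
  simp

theorem base0 (s : E → V) (q : E → ℝ) (χ : V → ℂ) (hχ : Chr χ) : sk s q χ 0 0 0 = 1 := by
  unfold sk
  rw [tsum_eq_single default fun c hc => absurd (Subsingleton.elim c default) hc]
  rw [psi, ← ofReal_norm, hχ.norm, ENNReal.ofReal_one]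
  simp

theorem tot (hId : S_Id) (hTr : S_Tr) (s : E → V) (q : E → ℝ) (χ : V → ℂ) (hq : PV q)
    (hχ : Chr χ) (M k : ℕ) :
    sk s q χ M (k + 1) 0 + ∑ N ∈ Finset.range M, ak s q χ N (k + 1) 0 =
      ((k : ENNReal) + 1) * ∑ N ∈ Finset.range M, ak s q χ N k 0 := by
  induction M with
  | zero => simp [base1]
  | succ M ih =>
    have h := (step hId hTr s q χ hq hχ M).1 k
    rw [Finset.sum_range_succ, Finset.sum_range_succ, mul_add, ← ih]
    calc sk s q χ (M + 1) (k + 1) 0 +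
          (∑ N ∈ Finset.range M, ak s q χ N (k + 1) 0 + ak s q χ M (k + 1) 0)
        = (sk s q χ (M + 1) (k + 1) 0 + ak s q χ M (k + 1) 0) +
            ∑ N ∈ Finset.range M, ak s q χ N (k + 1) 0 := by ring
      _ = _ := by rw [h]; ring

theorem tot0 (hId : S_Id) (hTr : S_Tr) (s : E → V) (q : E → ℝ) (χ : V → ℂ) (hq : PV q)
    (hχ : Chr χ) (M : ℕ) :
    sk s q χ M 0 0 + ∑ N ∈ Finset.range M, ak s q χ N 0 0 = 1 := by
  induction M with
  | zero => simp [base0 s q χ hχ]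
  | succ M ih =>
    have h := (step hId hTr s q χ hq hχ M).2
    rw [Finset.sum_range_succ, ← ih, ← h]
    ring

end En_aux

theorem tEn (hId : S_Id) (hTr : S_Tr) : S_En := by
  intro V E _ _ _ s q χ hq hχ M k
  induction k with
  | zero =>
    have h := En_aux.tot0 hId hTr s q χ hq hχ M
    rw [Nat.factorial_zero, Nat.cast_one, ← h]
    exact le_add_self
  | succ k ih =>
    have h := En_aux.tot hId hTr s q χ hq hχ M k
    calc ∑ N ∈ Finset.range M, ak s q χ N (k + 1) 0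
        ≤ sk s q χ M (k + 1) 0 + ∑ N ∈ Finset.range M, ak s q χ N (k + 1) 0 := le_add_self
      _ = ((k : ENNReal) + 1) * ∑ N ∈ Finset.range M, ak s q χ N k 0 := h
      _ ≤ ((k : ENNReal) + 1) * (Nat.factorial k : ENNReal) := mul_le_mul_right ih _
      _ = (Nat.factorial (k + 1) : ENNReal) := by
        rw [Nat.factorial_succ]
        push_cast
        ring

end MP0d3db7NS
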