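import Pool.Agent.Lib.MP_0d3db7.NS.Spec

/-!
# MP_0d3db7_pr, theorem NS: weak convergence from characteristic functions (helper50)
-/

set_option autoImplicit false

namespace MP0d3db7NS

open MeasureTheory ProbabilityTheory Filter Topology

namespace Fn_aux

variable {d : ℕ}

/-- the vector with rational coordinates -/
noncomputable def qv (θ : Fin d → ℚ) : EuclideanSpace ℝ (Fin d) :=
  WithLp.toLp 2 fun i => (θ i : ℝ)

theorem dense_qv : DenseRange (qv (d := d)) := by
  have h1 : DenseRange (Pi.map fun (_ : Fin d) (x : ℚ) => (x : ℝ)) :=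
    DenseRange.piMap fun _ => Rat.denseRange_cast
  have h2 : Function.Surjective (WithLp.toLp 2 : (Fin d → ℝ) → EuclideanSpace ℝ (Fin d)) :=
    fun y => ⟨y.ofLp, rfl⟩
  exact h2.denseRange.comp h1 (PiLp.continuous_toLp 2 _)

/-- `∑ θ i * y i` -/
noncomputable def ip (θ y : EuclideanSpace ℝ (Fin d)) : ℝ := ∑ i, θ i * y i

theorem ip_eq (θ y : EuclideanSpace ℝ (Fin d)) : ip θ y = inner ℝ y θ := by
  rw [ip, PiLp.inner_apply]
  rfl

theorem abs_ip (θ y : EuclideanSpace ℝ (Fin d)) : |ip θ y| ≤ ‖θ‖ * ‖y‖ := by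
  rw [ip_eq, mul_comm]
  exact abs_real_inner_le_norm y θ

theorem ip_sub (θ θ' y : EuclideanSpace ℝ (Fin d)) : ip θ y - ip θ' y = ip (θ - θ') y := by
  rw [ip_eq, ip_eq, ip_eq, inner_sub_right]

theorem absEx (hPa : S_Pa) {w : (Fin d → ℤ) × ℕ → Dr d → ℝ} (hw : ∀ κ, PV (w κ))
    (Φ Ψ X : List (Dr d) → ℝ) (c : ℝ) (h : ∀ a, |Φ a - Ψ a| ≤ c * X a) (n : ℕ) :
    |Ex (st d) w Φ n [] - Ex (st d) w Ψ n []| ≤ c * Ex (st d) w X n [] := by
  obtain ⟨_, _, hlin, hmono, _, _⟩ := hPa (st d) w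
  have h1 := hmono hw Φ (fun a => 1 * Ψ a + c * X a) n [] fun a _ => by
    have := (abs_le.1 (h a)).2
    linarith
  have h2 := hmono hw Ψ (fun a => 1 * Φ a + c * X a) n [] fun a _ => by
    have := (abs_le.1 (h a)).1
    linarith
  rw [hlin] at h1 h2
  rw [abs_le]
  constructor <;> linarith

theorem gen (hPa : S_Pa) {q : Dr d → ℝ} {w : (Fin d → ℤ) × ℕ → Dr d → ℝ} (hw : ∀ κ, PV (w κ))
    (hM : ∀ M : ℕ, 1 ≤ M → ∀ δ : ℝ, 0 < δ → ∀ᶠ n in atTop,
      Ex (st d) w (fun h => min 1 (‖nrm q n (pos (st d) h)‖ / M)) n [] ≤ 1 / M + δ)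
    (φ : ℝ → ℝ) (h1 : ∀ a, |φ a| ≤ 1) (h2 : ∀ a b, |φ a - φ b| ≤ |a - b|)
    (G : EuclideanSpace ℝ (Fin d) → ℝ) (hG : Continuous G)
    (hq : ∀ θ : Fin d → ℚ, Tendsto (fun n : ℕ => Ex (st d) w
      (fun h => φ (ip (qv θ) (nrm q n (pos (st d) h)))) n []) atTop (𝓝 (G (qv θ))))
    (θ : EuclideanSpace ℝ (Fin d)) :
    Tendsto (fun n : ℕ => Ex (st d) w (fun h => φ (ip θ (nrm q n (pos (st d) h)))) n []) atTop
      (𝓝 (G θ)) := by
  rw [Metric.tendsto_nhds]
  intro ε hε
  obtain ⟨M, hM6⟩ := exists_nat_gt (6 / ε)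
  have hM0 : (0 : ℝ) < M := lt_trans (div_pos (by norm_num) hε) hM6
  have hM1 : 1 ≤ M := by
    have : 0 < M := by exact_mod_cast hM0
    omega
  have hδ : (0 : ℝ) < 1 / M := by positivity
  have hMε : 6 / (M : ℝ) < ε := by
    rw [div_lt_iff₀ hM0]
    rw [div_lt_iff₀ hε] at hM6
    linarith
  have hs : {θ' | dist θ' θ < 1 / (M : ℝ) ∧ dist (G θ') (G θ) < 1 / (M : ℝ)} ∈ 𝓝 θ :=
    Filter.inter_mem (Metric.ball_mem_nhds θ hδ)
      (hG.continuousAt.preimage_mem_nhds (Metric.ball_mem_nhds (G θ) hδ))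
  obtain ⟨θ', hθ1, hθ2⟩ := dense_qv.mem_nhds hs
  filter_upwards [hM M hM1 (1 / M) hδ, (Metric.tendsto_nhds.1 (hq θ')) (1 / M) hδ] with n hn1 hn2
  have h3 := absEx hPa hw (fun h => φ (ip θ (nrm q n (pos (st d) h))))
    (fun h => φ (ip (qv θ') (nrm q n (pos (st d) h))))
    (fun h => min 1 (‖nrm q n (pos (st d) h)‖ / M)) 2 (fun h => by
      rw [mul_min_of_nonneg _ _ (by norm_num : (0 : ℝ) ≤ 2)]
      refine le_min ?_ ?_
      · have ha := abs_le.1 (h1 (ip θ (nrm q n (pos (st d) h))))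
        have hb := abs_le.1 (h1 (ip (qv θ') (nrm q n (pos (st d) h))))
        rw [abs_le]
        constructor <;> linarith [ha.1, ha.2, hb.1, hb.2]
      · refine (h2 _ _).trans ?_
        rw [ip_sub]
        refine (abs_ip _ _).trans ?_
        have h4 : ‖θ - qv θ'‖ ≤ 1 / M := by
          rw [← dist_eq_norm, dist_comm]
          exact hθ1.le
        have h5 := norm_nonneg (nrm q n (pos (st d) h))
        have h6 := mul_le_mul_of_nonneg_right h4 h5
        have h7 : 1 / (M : ℝ) * ‖nrm q n (pos (st d) h)‖ = ‖nrm q n (pos (st d) h)‖ / M := by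
          ring
        rw [h7] at h6
        have h8 : 0 ≤ ‖nrm q n (pos (st d) h)‖ / M := by positivity
        linarith) n
  rw [Real.dist_eq] at hn2 ⊢
  rw [Real.dist_eq] at hθ2
  have h9 : (6 : ℝ) / M = 2 * (1 / M + 1 / M) + 1 / M + 1 / M := by ring
  have h10 : |Ex (st d) w (fun h => φ (ip θ (nrm q n (pos (st d) h)))) n [] - G θ| ≤
      |Ex (st d) w (fun h => φ (ip θ (nrm q n (pos (st d) h)))) n [] -
        Ex (st d) w (fun h => φ (ip (qv θ') (nrm q n (pos (st d) h)))) n []| +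
      |Ex (st d) w (fun h => φ (ip (qv θ') (nrm q n (pos (st d) h)))) n [] - G (qv θ')| +
      |G (qv θ') - G θ| :=
    (abs_sub_le _ (G (qv θ')) _).trans (add_le_add (abs_sub_le _ _ _) le_rfl)
  linarith

theorem wt_nonneg {w : (Fin d → ℤ) × ℕ → Dr d → ℝ} (hw : ∀ κ, PV (w κ)) :
    ∀ h : List (Dr d), 0 ≤ wt (st d) w h
  | [] => zero_le_one
  | e :: h => mul_nonneg (wt_nonneg hw h) ((hw _).1 e)

/-- the law of the normalised walk -/
noncomputable def mu (q : Dr d → ℝ) (w : (Fin d → ℤ) × ℕ → Dr d → ℝ) (n : ℕ) :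
    Measure (EuclideanSpace ℝ (Fin d)) :=
  ∑ e : Fin n → Dr d, ENNReal.ofReal (wt (st d) w (List.ofFn e)) •
    Measure.dirac (nrm q n (pos (st d) (List.ofFn e)))

theorem integral_mu {F : Type} [NormedAddCommGroup F] [NormedSpace ℝ F] [CompleteSpace F]
    (q : Dr d → ℝ) {w : (Fin d → ℤ) × ℕ → Dr d → ℝ} (hw : ∀ κ, PV (w κ)) (n : ℕ)
    (f : EuclideanSpace ℝ (Fin d) → F) :
    ∫ x, f x ∂(mu q w n) =
      ∑ e : Fin n → Dr d, wt (st d) w (List.ofFn e) • f (nrm q n (pos (st d) (List.ofFn e))) := by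
  rw [mu, integral_finsetSum_measure fun e _ => ?_]
  · refine Finset.sum_congr rfl fun e _ => ?_
    rw [integral_smul_measure, integral_dirac, ENNReal.toReal_ofReal (wt_nonneg hw _)]
  · exact (integrable_dirac enorm_lt_top).smul_measure ENNReal.ofReal_ne_top

theorem integral_mu_real (q : Dr d → ℝ) {w : (Fin d → ℤ) × ℕ → Dr d → ℝ}
    (hw : ∀ κ, PV (w κ)) (n : ℕ) (f : EuclideanSpace ℝ (Fin d) → ℝ) :
    ∫ x, f x ∂(mu q w n) = quenchE (st d) w n fun h => f (nrm q n (pos (st d) h)) :=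
  integral_mu q hw n f

theorem prob_mu (hPa : S_Pa) (q : Dr d → ℝ) {w : (Fin d → ℤ) × ℕ → Dr d → ℝ}
    (hw : ∀ κ, PV (w κ)) (n : ℕ) : IsProbabilityMeasure (mu q w n) := by
  obtain ⟨hE, _, _, _, hc, _⟩ := hPa (st d) w
  have h1 : ∑ e : Fin n → Dr d, wt (st d) w (List.ofFn e) = 1 := by
    have h2 := hE (fun _ => 1) n
    rw [hc hw 1 n [], quenchE] at h2
    simpa using h2
  refine ⟨?_⟩
  rw [mu, Measure.finsetSum_apply]
  simp only [Measure.smul_apply, measure_univ, smul_eq_mul, mul_one]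
  rw [← ENNReal.ofReal_sum_of_nonneg fun e _ => wt_nonneg hw _, h1, ENNReal.ofReal_one]

theorem charFun_mu (q : Dr d → ℝ) {w : (Fin d → ℤ) × ℕ → Dr d → ℝ} (hw : ∀ κ, PV (w κ))
    (n : ℕ) (θ : EuclideanSpace ℝ (Fin d)) :
    charFun (mu q w n) θ =
      ((quenchE (st d) w n fun h => Real.cos (ip θ (nrm q n (pos (st d) h))) : ℝ) : ℂ) +
      ((quenchE (st d) w n fun h => Real.sin (ip θ (nrm q n (pos (st d) h))) : ℝ) : ℂ) *
        Complex.I := by
  rw [charFun_apply, integral_mu q hw n, quenchE, quenchE]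
  push_cast
  rw [Finset.sum_mul, ← Finset.sum_add_distrib]
  refine Finset.sum_congr rfl fun e _ => ?_
  rw [← ip_eq, Complex.exp_mul_I, Complex.real_smul]
  ring

theorem posSemidef_Sg {q : Dr d → ℝ} (hq : PV q) : (Sg q).PosSemidef := by
  refine Matrix.PosSemidef.of_dotProduct_mulVec_nonneg ?_ fun x => ?_
  · ext i j
    simp only [Sg, Matrix.conjTranspose_apply, Matrix.of_apply, star_trivial]
    exact Finset.sum_congr rfl fun e _ => by ring
  · have h1 : star x ⬝ᵥ (Sg q).mulVec x =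
        ∑ e, q e * (∑ i, x i * ((st d e i : ℝ) - drift q i)) ^ 2 := by
      have h2 : star x ⬝ᵥ (Sg q).mulVec x = ∑ i, ∑ j, ∑ e,
          q e * ((x i * ((st d e i : ℝ) - drift q i)) * (x j * ((st d e j : ℝ) - drift q j))) := by
        simp only [Sg, dotProduct, Matrix.mulVec, Matrix.of_apply, star_trivial, Finset.mul_sum,
          Finset.sum_mul]
        refine Finset.sum_congr rfl fun i _ => Finset.sum_congr rfl fun j _ =>
          Finset.sum_congr rfl fun e _ => by ring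
      have h3 : ∀ i : Fin d, ∑ j, ∑ e,
          q e * ((x i * ((st d e i : ℝ) - drift q i)) * (x j * ((st d e j : ℝ) - drift q j))) =
          ∑ e, ∑ j,
          q e * ((x i * ((st d e i : ℝ) - drift q i)) * (x j * ((st d e j : ℝ) - drift q j))) :=
        fun i => Finset.sum_comm
      rw [h2, Finset.sum_congr rfl fun i _ => h3 i, Finset.sum_comm]
      refine Finset.sum_congr rfl fun e _ => ?_
      rw [sq, Finset.sum_mul_sum, Finset.mul_sum]
      exact Finset.sum_congr rfl fun i _ => (Finset.mul_sum _ _ _).symm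
    rw [h1]
    exact Finset.sum_nonneg fun e _ => mul_nonneg (hq.1 e) (sq_nonneg _)

end Fn_aux

open Fn_aux

theorem tFn (hPa : S_Pa) : S_Fn := by
  intro d q hq w hw hrat hM f
  have hS := posSemidef_Sg hq
  set G : EuclideanSpace ℝ (Fin d) → ℝ := fun θ =>
    Real.exp (-((∑ i, ∑ j, θ i * Sg q i j * θ j) / 2)) with hGdef
  have hG : Continuous G := by
    rw [hGdef]
    fun_prop
  have hcos := gen hPa hw hM Real.cos Real.abs_cos_le_one Real.abs_cos_sub_cos_le G hG
    fun θ => (hrat θ).1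
  have hsin := gen hPa hw hM Real.sin Real.abs_sin_le_one Real.abs_sin_sub_sin_le (fun _ => 0)
    continuous_const fun θ => (hrat θ).2
  have hE := (hPa (st d) w).1
  let P : ℕ → ProbabilityMeasure (EuclideanSpace ℝ (Fin d)) := fun n =>
    ⟨mu q w n, prob_mu hPa q hw n⟩
  let P0 : ProbabilityMeasure (EuclideanSpace ℝ (Fin d)) :=
    ⟨multivariateGaussian 0 (Sg q), inferInstance⟩
  have hlim : Tendsto P atTop (𝓝 P0) := by
    rw [ProbabilityMeasure.tendsto_iff_tendsto_charFun]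
    intro θ
    have h0 : charFun (P0 : Measure (EuclideanSpace ℝ (Fin d))) θ =
        ((G θ : ℝ) : ℂ) + ((0 : ℝ) : ℂ) * Complex.I := by
      show charFun (multivariateGaussian 0 (Sg q)) θ = _
      rw [charFun_multivariateGaussian hS, inner_zero_right]
      simp only [hGdef, Complex.ofReal_zero, zero_mul, add_zero, zero_sub, Complex.ofReal_exp]
      refine congrArg Complex.exp ?_
      rw [Complex.ofReal_neg, Complex.ofReal_div]
      refine congrArg Neg.neg ?_
      refine congrArg₂ (fun a b : ℂ => a / b) ?_ (by norm_num)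
      refine congrArg Complex.ofReal ?_
      simp only [dotProduct, Matrix.mulVec, Finset.mul_sum]
      exact Finset.sum_congr rfl fun i _ => Finset.sum_congr rfl fun j _ => by ring
    rw [h0]
    have h1 : ∀ n, charFun ((P n : ProbabilityMeasure (EuclideanSpace ℝ (Fin d))) :
        Measure (EuclideanSpace ℝ (Fin d))) θ =
        ((Ex (st d) w (fun h => Real.cos (ip θ (nrm q n (pos (st d) h)))) n [] : ℝ) : ℂ) +
        ((Ex (st d) w (fun h => Real.sin (ip θ (nrm q n (pos (st d) h)))) n [] : ℝ) : ℂ) *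
          Complex.I := by
      intro n
      rw [← hE, ← hE]
      exact charFun_mu q hw n θ
    simp only [h1]
    exact ((Complex.continuous_ofReal.tendsto _).comp (hcos θ)).add
      (((Complex.continuous_ofReal.tendsto _).comp (hsin θ)).mul_const _)
  have h2 := ProbabilityMeasure.tendsto_iff_forall_integral_tendsto.1 hlim f
  refine h2.congr fun n => ?_
  exact integral_mu_real q hw n f

end MP0d3db7NS
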