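import Pool.Agent.Lib.MP_0d3db7.NS.Spec2
import Pool.Agent.Lib.MP_0d3db7.NS.Fn

/-!
# MP_0d3db7_pr, theorem NS2: weak convergence, the other tightness condition
-/

set_option autoImplicit false

namespace MP0d3db7NS

open MeasureTheory ProbabilityTheory Filter Topology

namespace Fm_aux

open Fn_aux

variable {d : ℕ}

theorem abs_ip_le (θ y : EuclideanSpace ℝ (Fin d)) (R : ℝ) (hy : ∀ i, |y i| ≤ R) :
    |ip θ y| ≤ R * ∑ i, |θ i| := by
  rw [ip, Finset.mul_sum]
  refine (Finset.abs_sum_le_sum_abs _ _).trans (Finset.sum_le_sum fun i _ => ?_)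
  rw [abs_mul, mul_comm]
  exact mul_le_mul_of_nonneg_right (hy i) (abs_nonneg _)

theorem absEx2 (hPa : S_Pa) {w : (Fin d → ℤ) × ℕ → Dr d → ℝ} (hw : ∀ κ, PV (w κ))
    (Φ Ψ X : List (Dr d) → ℝ) (c : ℝ) (h : ∀ a, |Φ a - Ψ a| ≤ c + 2 * X a) (n : ℕ) :
    |Ex (st d) w Φ n [] - Ex (st d) w Ψ n []| ≤ c + 2 * Ex (st d) w X n [] := by
  have h1 := absEx hPa hw Φ Ψ (fun a => c * 1 + 2 * X a) 1 (fun a => by
    have := h a
    linarith) n
  obtain ⟨_, _, hlin, _, hc, _⟩ := hPa (st d) w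
  rw [hlin (fun _ => (1 : ℝ)) X c 2 n [], hc hw 1 n []] at h1
  linarith

open Classical in
theorem gen2 (hPa : S_Pa) {q : Dr d → ℝ} {w : (Fin d → ℤ) × ℕ → Dr d → ℝ} (hw : ∀ κ, PV (w κ))
    (hM : ∀ δ : ℝ, 0 < δ → ∃ R : ℝ, ∀ᶠ n in atTop, Ex (st d) w
      (fun h => if ∃ i, R < |nrm q n (pos (st d) h) i| then 1 else 0) n [] ≤ δ)
    (φ : ℝ → ℝ) (h1 : ∀ a, |φ a| ≤ 1) (h2 : ∀ a b, |φ a - φ b| ≤ |a - b|)
    (G : EuclideanSpace ℝ (Fin d) → ℝ) (hG : Continuous G)
    (hq : ∀ θ : Fin d → ℚ, Tendsto (fun n : ℕ => Ex (st d) w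
      (fun h => φ (ip (qv θ) (nrm q n (pos (st d) h)))) n []) atTop (𝓝 (G (qv θ))))
    (θ : EuclideanSpace ℝ (Fin d)) :
    Tendsto (fun n : ℕ => Ex (st d) w (fun h => φ (ip θ (nrm q n (pos (st d) h)))) n []) atTop
      (𝓝 (G θ)) := by
  rw [Metric.tendsto_nhds]
  intro ε hε
  have hδ : (0 : ℝ) < ε / 8 := by positivity
  obtain ⟨R, hR⟩ := hM (ε / 8) hδ
  have hR0 : 0 ≤ max R 0 := le_max_right _ _
  have hcc : Continuous fun θ' : EuclideanSpace ℝ (Fin d) => max R 0 * ∑ i, |(θ - θ') i| := by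
    have h0 : ∀ i, Continuous fun θ' : EuclideanSpace ℝ (Fin d) => |(θ - θ') i| := fun i => by
      simp only [PiLp.sub_apply]
      fun_prop
    exact continuous_const.mul (continuous_finsetSum _ fun i _ => h0 i)
  have hcθ : max R 0 * ∑ i, |(θ - θ) i| < ε / 8 := by
    simpa using hδ
  have hs : {θ' : EuclideanSpace ℝ (Fin d) | max R 0 * ∑ i, |(θ - θ') i| < ε / 8 ∧
      dist (G θ') (G θ) < ε / 8} ∈ 𝓝 θ :=
    Filter.inter_mem (hcc.continuousAt.preimage_mem_nhds (Iio_mem_nhds hcθ))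
      (hG.continuousAt.preimage_mem_nhds (Metric.ball_mem_nhds (G θ) hδ))
  obtain ⟨θ', hθ1, hθ2⟩ := dense_qv.mem_nhds hs
  filter_upwards [hR, (Metric.tendsto_nhds.1 (hq θ')) (ε / 8) hδ] with n hn1 hn2
  have h3 := absEx2 hPa hw (fun h => φ (ip θ (nrm q n (pos (st d) h))))
    (fun h => φ (ip (qv θ') (nrm q n (pos (st d) h))))
    (fun h => if ∃ i, R < |nrm q n (pos (st d) h) i| then 1 else 0)
    (max R 0 * ∑ i, |(θ - qv θ') i|) (fun h => by
      have hc0 : 0 ≤ max R 0 * ∑ i, |(θ - qv θ') i| :=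
        mul_nonneg hR0 (Finset.sum_nonneg fun i _ => abs_nonneg _)
      by_cases hy : ∃ i, R < |nrm q n (pos (st d) h) i|
      · rw [if_pos hy]
        have ha := abs_le.1 (h1 (ip θ (nrm q n (pos (st d) h))))
        have hb := abs_le.1 (h1 (ip (qv θ') (nrm q n (pos (st d) h))))
        rw [abs_le]
        constructor <;> linarith [ha.1, ha.2, hb.1, hb.2]
      · rw [if_neg hy]
        push Not at hy
        refine (h2 _ _).trans ?_
        rw [ip_sub]
        have h4 := abs_ip_le (θ - qv θ') (nrm q n (pos (st d) h)) (max R 0)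
          (fun i => (hy i).trans (le_max_left _ _))
        linarith) n
  rw [Real.dist_eq] at hn2 ⊢
  rw [Real.dist_eq] at hθ2
  have h10 : |Ex (st d) w (fun h => φ (ip θ (nrm q n (pos (st d) h)))) n [] - G θ| ≤
      |Ex (st d) w (fun h => φ (ip θ (nrm q n (pos (st d) h)))) n [] -
        Ex (st d) w (fun h => φ (ip (qv θ') (nrm q n (pos (st d) h)))) n []| +
      |Ex (st d) w (fun h => φ (ip (qv θ') (nrm q n (pos (st d) h)))) n [] - G (qv θ')| +
      |G (qv θ') - G θ| :=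
    (abs_sub_le _ (G (qv θ')) _).trans (add_le_add (abs_sub_le _ _ _) le_rfl)
  linarith

end Fm_aux

open Fn_aux Fm_aux

theorem tFm (hPa : S_Pa) : S_Fm := by
  intro d q hq w hw hrat hM f
  have hS := posSemidef_Sg hq
  set G : EuclideanSpace ℝ (Fin d) → ℝ := fun θ =>
    Real.exp (-((∑ i, ∑ j, θ i * Sg q i j * θ j) / 2)) with hGdef
  have hG : Continuous G := by
    rw [hGdef]
    fun_prop
  have hcos := gen2 hPa hw hM Real.cos Real.abs_cos_le_one Real.abs_cos_sub_cos_le G hG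
    fun θ => (hrat θ).1
  have hsin := gen2 hPa hw hM Real.sin Real.abs_sin_le_one Real.abs_sin_sub_sin_le (fun _ => 0)
    continuous_const fun θ => (hrat θ).2
  have hE := (hPa (st d) w).1
  let P : ℕ → ProbabilityMeasure (EuclideanSpace ℝ (Fin d)) := fun n =>
    ⟨mu q w n, prob_mu hPa q hw n⟩
  let P0 : ProbabilityMeasure (EuclideanSpace ℝ (Fin d)) :=
    ⟨multivariateGaussian 0 (Sg q), inferInstance⟩
  have hlim : Tendsto P atTop (𝓝 P0) := by
    rw [ProbabilityMeasure.tendsto_iff_tendsto_charFun]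
    intro θ
    have h0 : charFun (P0 : Measure (EuclideanSpace ℝ (Fin d))) θ =
        ((G θ : ℝ) : ℂ) + ((0 : ℝ) : ℂ) * Complex.I := by
      show charFun (multivariateGaussian 0 (Sg q)) θ = _
      rw [charFun_multivariateGaussian hS, inner_zero_right]
      simp only [hGdef, Complex.ofReal_zero, zero_mul, add_zero, zero_sub, Complex.ofReal_exp]
      refine congrArg Complex.exp ?_
      rw [Complex.ofReal_neg, Complex.ofReal_div]
      refine congrArg Neg.neg ?_
      refine congrArg₂ (fun a b : ℂ => a / b) ?_ (by norm_num)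
      refine congrArg Complex.ofReal ?_
      simp only [dotProduct, Matrix.mulVec, Finset.mul_sum]
      exact Finset.sum_congr rfl fun i _ => Finset.sum_congr rfl fun j _ => by ring
    rw [h0]
    have h1 : ∀ n, charFun ((P n : ProbabilityMeasure (EuclideanSpace ℝ (Fin d))) :
        Measure (EuclideanSpace ℝ (Fin d))) θ =
        ((Ex (st d) w (fun h => Real.cos (ip θ (nrm q n (pos (st d) h)))) n [] : ℝ) : ℂ) +
        ((Ex (st d) w (fun h => Real.sin (ip θ (nrm q n (pos (st d) h)))) n [] : ℝ) : ℂ) *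
          Complex.I := by
      intro n
      rw [← hE, ← hE]
      exact charFun_mu q hw n θ
    simp only [h1]
    exact ((Complex.continuous_ofReal.tendsto _).comp (hcos θ)).add
      (((Complex.continuous_ofReal.tendsto _).comp (hsin θ)).mul_const _)
  have h2 := ProbabilityMeasure.tendsto_iff_forall_integral_tendsto.1 hlim f
  refine h2.congr fun n => ?_
  exact integral_mu_real q hw n f

end MP0d3db7NS
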