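import Pool.Agent.Lib.MP_0d3db7.NS.Spec

/-!
# MP_0d3db7_pr, theorem NS, module Gd: gradient of the transition probabilities
-/

set_option autoImplicit false
set_option linter.unusedSectionVars false

namespace MP0d3db7NS

open MeasureTheory ProbabilityTheory Filter Topology

namespace Gd_aux

variable {V E : Type} [AddCommGroup V] [DecidableEq V] [Fintype E]

/-- the image under `y ↦ -y` -/
noncomputable def nv : AddMonoidAlgebra ℝ V ≃ₐ[ℝ] AddMonoidAlgebra ℝ V :=
  AddMonoidAlgebra.domCongr ℝ ℝ (AddEquiv.neg V)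

theorem coeff_nv (H : AddMonoidAlgebra ℝ V) (y : V) : (nv H).coeff y = H.coeff (-y) := by
  unfold nv
  rw [AddMonoidAlgebra.coeff_domCongr]
  rfl

theorem nv_nv (H : AddMonoidAlgebra ℝ V) : nv (nv H) = H := by
  apply AddMonoidAlgebra.ext
  ext y
  rw [coeff_nv, coeff_nv, neg_neg]

/-- the sum of the squares of the coefficients -/
noncomputable def sqn (H : AddMonoidAlgebra ℝ V) : ℝ := (H * nv H).coeff 0

theorem sq_eq (H : AddMonoidAlgebra ℝ V) : sqn H = ∑ y ∈ H.coeff.support, H.coeff y ^ 2 := by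
  unfold sqn
  rw [AddMonoidAlgebra.coeff_mul_apply_left, Finsupp.sum]
  refine Finset.sum_congr rfl fun y _ => ?_
  rw [coeff_nv, add_zero, neg_neg, pow_two]

theorem sq_nonneg' (H : AddMonoidAlgebra ℝ V) : 0 ≤ sqn H := by
  rw [sq_eq]
  exact Finset.sum_nonneg fun y _ => pow_two_nonneg _

theorem sum_le_sq (H : AddMonoidAlgebra ℝ V) (B : Finset V) (g : V → V)
    (hg : Function.Injective g) : ∑ z ∈ B, H.coeff (g z) ^ 2 ≤ sqn H := by
  rw [sq_eq, ← Finset.sum_image (f := fun y => H.coeff y ^ 2) (s := B) (g := g)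
    (fun x _ y _ h => hg h)]
  rw [← Finset.sum_filter_add_sum_filter_not (B.image g) (fun y => y ∈ H.coeff.support)]
  have h1 : ∑ y ∈ (B.image g).filter (fun y => ¬ y ∈ H.coeff.support), H.coeff y ^ 2 = 0 := by
    refine Finset.sum_eq_zero fun y hy => ?_
    have h2 := (Finset.mem_filter.1 hy).2
    rw [Finsupp.notMem_support_iff] at h2
    rw [h2]
    norm_num
  rw [h1, add_zero]
  refine Finset.sum_le_sum_of_subset_of_nonneg ?_ fun y _ _ => pow_two_nonneg _
  intro y hy
  exact (Finset.mem_filter.1 hy).2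

/-- the sum of the coefficients -/
noncomputable def aug : AddMonoidAlgebra ℝ V →ₐ[ℝ] ℝ := AddMonoidAlgebra.lift ℝ ℝ V 1

theorem aug_eq (H : AddMonoidAlgebra ℝ V) : aug H = ∑ y ∈ H.coeff.support, H.coeff y := by
  unfold aug
  rw [AddMonoidAlgebra.lift_apply, Finsupp.sum]
  refine Finset.sum_congr rfl fun y _ => ?_
  simp

theorem aug_Qa (s : E → V) (q : E → ℝ) (hq : PV q) (t : ℕ) : aug (Qa s q ^ t) = 1 := by
  rw [map_pow]
  have h : aug (Qa s q) = 1 := by
    unfold Qa aug
    rw [map_sum, ← hq.2]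
    refine Finset.sum_congr rfl fun e _ => ?_
    rw [AddMonoidAlgebra.lift_single]
    simp
  rw [h, one_pow]

theorem pt_nonneg (s : E → V) (q : E → ℝ) (hq : PV q) (t : ℕ) : ∀ x z, 0 ≤ pt s q t x z := by
  induction t with
  | zero => intro x z; unfold pt; split_ifs <;> norm_num
  | succ t ih =>
    intro x z
    unfold pt
    exact Finset.sum_nonneg fun e _ => mul_nonneg (hq.1 e) (ih _ _)

theorem nv_Qa (s : E → V) (q : E → ℝ) :
    nv (Qa s q) = ∑ e, AddMonoidAlgebra.single (-s e) (q e) := by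
  unfold Qa nv
  rw [map_sum]
  refine Finset.sum_congr rfl fun e _ => ?_
  rw [AddMonoidAlgebra.domCongr_single]
  rfl

/-- `c t` -/
noncomputable def cc (s : E → V) (q : E → ℝ) (t : ℕ) : ℝ := sqn (Qa s q ^ t)

theorem cc_eq (s : E → V) (q : E → ℝ) (t : ℕ) :
    cc s q t = ((Qa s q * nv (Qa s q)) ^ t).coeff 0 := by
  unfold cc sqn
  rw [map_pow, mul_pow]

theorem cc_le (hAl : S_Al) (s : E → V) (q : E → ℝ) (hq : PV q) (κ : ℝ) (t : ℕ)
    (hk : ∀ x z, pt s q t x z ≤ κ) : cc s q t ≤ κ := by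
  unfold cc
  have h1 : ∀ y, (Qa s q ^ t).coeff y = pt s q t 0 y := by
    intro y
    rw [hAl s q t 0 y, sub_zero]
  rw [sq_eq]
  have h2 : ∑ y ∈ (Qa s q ^ t).coeff.support, (Qa s q ^ t).coeff y ^ 2 ≤
      ∑ y ∈ (Qa s q ^ t).coeff.support, κ * (Qa s q ^ t).coeff y := by
    refine Finset.sum_le_sum fun y _ => ?_
    rw [pow_two, h1]
    exact mul_le_mul_of_nonneg_right (hk _ _) (pt_nonneg s q hq t _ _)
  refine h2.trans ?_
  rw [← Finset.mul_sum, ← aug_eq, aug_Qa s q hq, mul_one]

theorem cc_nonneg (s : E → V) (q : E → ℝ) (t : ℕ) : 0 ≤ cc s q t := sq_nonneg' _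

/-- convexity -/
theorem conv (s : E → V) (q : E → ℝ) (t : ℕ) :
    cc s q (t + 1) - cc s q (t + 2) ≤ cc s q t - cc s q (t + 1) := by
  have h := sq_nonneg' (Qa s q ^ t * (1 - Qa s q * nv (Qa s q)))
  have h1 : sqn (Qa s q ^ t * (1 - Qa s q * nv (Qa s q))) =
      cc s q t - 2 * cc s q (t + 1) + cc s q (t + 2) := by
    rw [cc_eq, cc_eq, cc_eq]
    unfold sqn
    have e : Qa s q ^ t * (1 - Qa s q * nv (Qa s q)) *
        nv (Qa s q ^ t * (1 - Qa s q * nv (Qa s q))) =
        (Qa s q * nv (Qa s q)) ^ t - (2 : ℝ) • (Qa s q * nv (Qa s q)) ^ (t + 1) +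
          (Qa s q * nv (Qa s q)) ^ (t + 2) := by
      rw [map_mul, map_pow, map_sub, map_one, map_mul, nv_nv, two_smul]
      ring
    rw [e, AddMonoidAlgebra.coeff_add, AddMonoidAlgebra.coeff_sub, AddMonoidAlgebra.coeff_smul]
    simp
  rw [h1] at h
  linarith

theorem anti (s : E → V) (q : E → ℝ) (t k : ℕ) :
    cc s q (t + k) - cc s q (t + k + 1) ≤ cc s q t - cc s q (t + 1) := by
  induction k with
  | zero => exact le_rfl
  | succ k ih => exact (conv s q (t + k)).trans ih

theorem avg (hAl : S_Al) (s : E → V) (q : E → ℝ) (hq : PV q) (κ : ℝ) (t : ℕ)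
    (hk : ∀ x z, pt s q t x z ≤ κ) (T : ℕ) (hT : 2 * t ≤ T) :
    cc s q T - cc s q (T + 1) ≤ κ / ((t : ℝ) + 1) := by
  have h0 : (0 : ℝ) < (t : ℝ) + 1 := by positivity
  rw [le_div_iff₀ h0]
  have h1 : ∑ u ∈ Finset.range (t + 1), (cc s q (t + u) - cc s q (t + u + 1)) =
      cc s q t - cc s q (t + (t + 1)) := by
    exact Finset.sum_range_sub' (fun u => cc s q (t + u)) (t + 1)
  have h2 : ∑ u ∈ Finset.range (t + 1), (cc s q T - cc s q (T + 1)) ≤
      ∑ u ∈ Finset.range (t + 1), (cc s q (t + u) - cc s q (t + u + 1)) := by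
    refine Finset.sum_le_sum fun u hu => ?_
    have h3 : u < t + 1 := Finset.mem_range.1 hu
    obtain ⟨k, hk⟩ : ∃ k, T = t + u + k := ⟨T - (t + u), by omega⟩
    rw [hk]
    exact anti s q (t + u) k
  rw [h1, Finset.sum_const, Finset.card_range, nsmul_eq_mul] at h2
  have h4 := cc_le hAl s q hq κ t hk
  have h5 := cc_nonneg s q (t + (t + 1))
  push_cast at h2
  nlinarith

theorem gen {W : Type} [CommRing W] [Algebra ℝ W] (c : ℝ) (Q Q' A B A' B' : W) (T : ℕ) :
    c • (Q ^ T * (A - B) * (Q' ^ T * (A' - B'))) = (Q * Q') ^ T * (c • ((A - B) * (A' - B'))) := by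
  rw [Algebra.mul_smul_comm]
  congr 1
  ring

/-- the sum over the pairs of directions -/
theorem pairs (s : E → V) (q : E → ℝ) (hq : PV q) (T : ℕ) :
    ∑ a, ∑ e, q a * q e * sqn (Qa s q ^ T *
      (AddMonoidAlgebra.single (s a) 1 - AddMonoidAlgebra.single (s e) 1)) =
    2 * (cc s q T - cc s q (T + 1)) := by
  have h1 : ∀ a e, q a * q e * sqn (Qa s q ^ T *
      (AddMonoidAlgebra.single (s a) 1 - AddMonoidAlgebra.single (s e) 1)) =
      ((Qa s q * nv (Qa s q)) ^ T * (AddMonoidAlgebra.single 0 (2 * (q a * q e)) -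
        AddMonoidAlgebra.single (s a) (q a) * AddMonoidAlgebra.single (-s e) (q e) -
        AddMonoidAlgebra.single (s e) (q e) * AddMonoidAlgebra.single (-s a) (q a))).coeff 0 := by
    intro a e
    unfold sqn
    have e1 : nv (AddMonoidAlgebra.single (s a) (1 : ℝ)) = AddMonoidAlgebra.single (-s a) 1 := by
      unfold nv
      rw [AddMonoidAlgebra.domCongr_single]
      rfl
    have e2 : nv (AddMonoidAlgebra.single (s e) (1 : ℝ)) = AddMonoidAlgebra.single (-s e) 1 := by
      unfold nv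
      rw [AddMonoidAlgebra.domCongr_single]
      rfl
    rw [map_mul, map_pow, map_sub, e1, e2]
    rw [← smul_eq_mul (q a * q e), ← AddMonoidAlgebra.coeff_smul_apply]
    congr 2
    have e3 : (q a * q e) • ((AddMonoidAlgebra.single (s a) (1 : ℝ) -
        AddMonoidAlgebra.single (s e) 1) * (AddMonoidAlgebra.single (-s a) 1 -
        AddMonoidAlgebra.single (-s e) 1)) = AddMonoidAlgebra.single 0 (2 * (q a * q e)) -
        AddMonoidAlgebra.single (s a) (q a) * AddMonoidAlgebra.single (-s e) (q e) -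
        AddMonoidAlgebra.single (s e) (q e) * AddMonoidAlgebra.single (-s a) (q a) := by
      rw [sub_mul, mul_sub, mul_sub, AddMonoidAlgebra.single_mul_single,
        AddMonoidAlgebra.single_mul_single, AddMonoidAlgebra.single_mul_single,
        AddMonoidAlgebra.single_mul_single, AddMonoidAlgebra.single_mul_single,
        AddMonoidAlgebra.single_mul_single, add_neg_cancel, add_neg_cancel, smul_sub, smul_sub,
        smul_sub, AddMonoidAlgebra.smul_single', AddMonoidAlgebra.smul_single',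
        AddMonoidAlgebra.smul_single', two_mul, AddMonoidAlgebra.single_add, mul_one, mul_one,
        mul_comm (q e) (q a)]
      abel
    rw [← e3]
    exact gen _ _ _ _ _ _ _ T
  simp_rw [h1]
  rw [cc_eq, cc_eq]
  have h2 : ∑ a, ∑ e, (Qa s q * nv (Qa s q)) ^ T *
      (AddMonoidAlgebra.single 0 (2 * (q a * q e)) -
        AddMonoidAlgebra.single (s a) (q a) * AddMonoidAlgebra.single (-s e) (q e) -
        AddMonoidAlgebra.single (s e) (q e) * AddMonoidAlgebra.single (-s a) (q a)) =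
      (2 : ℝ) • ((Qa s q * nv (Qa s q)) ^ T - (Qa s q * nv (Qa s q)) ^ (T + 1)) := by
    have h3 : ∑ a, ∑ e, (AddMonoidAlgebra.single (0 : V) (2 * (q a * q e)) -
        AddMonoidAlgebra.single (s a) (q a) * AddMonoidAlgebra.single (-s e) (q e) -
        AddMonoidAlgebra.single (s e) (q e) * AddMonoidAlgebra.single (-s a) (q a)) =
        (2 : ℝ) • (1 - Qa s q * nv (Qa s q)) := by
      simp only [Finset.sum_sub_distrib]
      have i1 : ∑ a, ∑ e, (AddMonoidAlgebra.single (0 : V) (2 * (q a * q e)) :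
          AddMonoidAlgebra ℝ V) = (2 : ℝ) • 1 := by
        have j1 : ∀ a, ∑ e, (AddMonoidAlgebra.single (0 : V) (2 * (q a * q e)) :
            AddMonoidAlgebra ℝ V) = AddMonoidAlgebra.single 0 (2 * q a) := by
          intro a
          have := (map_sum (AddMonoidAlgebra.singleAddHom (R := ℝ) (0 : V))
            (fun e => 2 * (q a * q e)) Finset.univ).symm
          refine this.trans ?_
          rw [← Finset.mul_sum, ← Finset.mul_sum, hq.2, mul_one]
          rfl
        simp_rw [j1]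
        have := (map_sum (AddMonoidAlgebra.singleAddHom (R := ℝ) (0 : V))
            (fun e => 2 * q e) Finset.univ).symm
        refine this.trans ?_
        rw [← Finset.mul_sum, hq.2, mul_one, AddMonoidAlgebra.one_def,
          AddMonoidAlgebra.smul_single', mul_one]
        rfl
      have i2 : ∑ a, ∑ e, AddMonoidAlgebra.single (s a) (q a) *
          AddMonoidAlgebra.single (-s e) (q e) = Qa s q * nv (Qa s q) := by
        rw [nv_Qa]
        unfold Qa
        rw [Finset.sum_mul_sum]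
      have i3 : ∑ a, ∑ e, AddMonoidAlgebra.single (s e) (q e) *
          AddMonoidAlgebra.single (-s a) (q a) = Qa s q * nv (Qa s q) := by
        rw [Finset.sum_comm]
        exact i2
      rw [i1, i2, i3, smul_sub, two_smul, two_smul]
      abel
    simp_rw [← Finset.mul_sum]
    rw [h3, pow_succ, Algebra.mul_smul_comm]
    congr 1
    ring
  have h4 := congrArg (fun H : AddMonoidAlgebra ℝ V => H.coeff 0) h2
  simp only [AddMonoidAlgebra.coeff_sum, AddMonoidAlgebra.coeff_smul, AddMonoidAlgebra.coeff_sub,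
    Finsupp.coe_finsetSum, Finset.sum_apply, Finsupp.smul_apply, smul_eq_mul, Finsupp.sub_apply]
    at h4
  exact h4

theorem pt_diff (hAl : S_Al) (s : E → V) (q : E → ℝ) (T : ℕ) (x z : V) (a e : E) :
    pt s q T (x + s a) z - pt s q T (x + s e) z = (Qa s q ^ T *
      (AddMonoidAlgebra.single (s a) 1 - AddMonoidAlgebra.single (s e) 1)).coeff (z - x) := by
  rw [hAl s q T, hAl s q T, mul_sub, AddMonoidAlgebra.coeff_sub, Finsupp.sub_apply,
    AddMonoidAlgebra.coeff_mul_single_apply, AddMonoidAlgebra.coeff_mul_single_apply, mul_one,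
    mul_one]
  congr 2
  · abel
  · abel

end Gd_aux

open Gd_aux in
theorem tGd (hAl : S_Al) : S_Gd := by
  intro V E _ _ _ s q hq κ t hk T hT
  have h1 := avg hAl s q hq κ t hk T hT
  have h2 := pairs s q hq T
  have h3 : ∑ a, ∑ e, q a * q e * sqn (Qa s q ^ T *
      (AddMonoidAlgebra.single (s a) 1 - AddMonoidAlgebra.single (s e) 1)) ≤
      2 * κ / ((t : ℝ) + 1) := by
    rw [h2, mul_div_assoc]
    linarith
  refine ⟨fun B x => ?_, fun B z => ?_⟩
  · refine le_trans (Finset.sum_le_sum fun a _ => Finset.sum_le_sum fun e _ => ?_) h3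
    refine mul_le_mul_of_nonneg_left ?_ (mul_nonneg (hq.1 a) (hq.1 e))
    simp_rw [pt_diff hAl]
    exact sum_le_sq _ B (fun z => z - x) (sub_left_injective)
  · refine le_trans (Finset.sum_le_sum fun a _ => Finset.sum_le_sum fun e _ => ?_) h3
    refine mul_le_mul_of_nonneg_left ?_ (mul_nonneg (hq.1 a) (hq.1 e))
    simp_rw [pt_diff hAl]
    exact sum_le_sq _ B (fun x => z - x) (sub_right_injective)

end MP0d3db7NS
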