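import Pool.Agent.Lib.MP_0d3db7.NS.Spec2

/-!
# MP_0d3db7_pr, theorem NS2, module Id (helper69): the conservation law
-/

set_option autoImplicit false

namespace MP0d3db7NS

open MeasureTheory ProbabilityTheory Filter Topology

namespace Id_aux

/-! ### variance identity -/

theorem var_real {E : Type} [Fintype E] (q : E → ℝ) (h1 : ∑ e, q e = 1) (v : E → ℂ) :
    ‖∑ e, (q e : ℂ) * v e‖ ^ 2 + ∑ a, q a * ‖v a - ∑ e, (q e : ℂ) * v e‖ ^ 2 =
      ∑ e, q e * ‖v e‖ ^ 2 := by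
  set m := ∑ e, (q e : ℂ) * v e with hm
  have h2 : ∀ a, q a * ‖v a - m‖ ^ 2 =
      q a * ‖v a‖ ^ 2 + q a * ‖m‖ ^ 2 - 2 * ((q a : ℂ) * v a * (starRingEnd ℂ) m).re := by
    intro a
    rw [Complex.sq_norm, Complex.normSq_sub, Complex.sq_norm, Complex.sq_norm, mul_assoc,
      Complex.re_ofReal_mul]
    ring
  simp only [h2]
  rw [Finset.sum_sub_distrib, Finset.sum_add_distrib, ← Finset.sum_mul, h1, ← Finset.mul_sum,
    ← Complex.re_sum, ← Finset.sum_mul, ← hm, Complex.mul_conj, Complex.ofReal_re,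
    ← Complex.sq_norm]
  ring

theorem var_enn {E : Type} [Fintype E] (q : E → ℝ) (h0 : ∀ e, 0 ≤ q e) (h1 : ∑ e, q e = 1)
    (v : E → ℂ) :
    ‖∑ e, (q e : ℂ) * v e‖ₑ ^ 2 +
        ∑ a, ENNReal.ofReal (q a) * ‖v a - ∑ e, (q e : ℂ) * v e‖ₑ ^ 2 =
      ∑ e, ENNReal.ofReal (q e) * ‖v e‖ₑ ^ 2 := by
  have key : ∀ z : ℂ, ‖z‖ₑ ^ 2 = ENNReal.ofReal (‖z‖ ^ 2) := by
    intro z
    rw [ENNReal.ofReal_pow (norm_nonneg z), ofReal_norm]
  have h2 : ∀ (a : E) (z : ℂ), ENNReal.ofReal (q a) * ‖z‖ₑ ^ 2 =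
      ENNReal.ofReal (q a * ‖z‖ ^ 2) := by
    intro a z
    rw [key, ← ENNReal.ofReal_mul (h0 a)]
  simp only [h2]
  rw [key, ← ENNReal.ofReal_sum_of_nonneg (fun a _ => mul_nonneg (h0 a) (sq_nonneg _)),
    ← ENNReal.ofReal_sum_of_nonneg (fun a _ => mul_nonneg (h0 a) (sq_nonneg _)),
    ← ENNReal.ofReal_add (sq_nonneg _)
      (Finset.sum_nonneg fun a _ => mul_nonneg (h0 a) (sq_nonneg _)), var_real q h1 v]

section

variable {V E : Type} [AddCommGroup V] [DecidableEq V] [Fintype E]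

theorem L1 (s : E → V) (q : E → ℝ) (f : V → ℂ) (hq : PV q) (N k : ℕ) (x : V) :
    (∑' c : Fin k → (V × ℕ) × E, (∏ j, ENNReal.ofReal (q (c j).2)) *
        ‖∑ e, (q e : ℂ) * psi s q f N k (x + s e) c‖ₑ ^ 2) + ak s q f N k x =
      ∑ e, ENNReal.ofReal (q e) * sk s q f N k (x + s e) := by
  unfold ak sk
  simp only [← ENNReal.tsum_mul_left]
  rw [← Summable.tsum_finsetSum (fun _ _ => ENNReal.summable),
    ← Summable.tsum_finsetSum (fun _ _ => ENNReal.summable), ← ENNReal.tsum_add]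
  refine tsum_congr fun c => ?_
  have h1 := var_enn q hq.1 hq.2 (fun e => psi s q f N k (x + s e) c)
  have h2 : ∀ (a : E) (z : ENNReal), ENNReal.ofReal (q a) *
      ((∏ j, ENNReal.ofReal (q (c j).2)) * z) = (∏ j, ENNReal.ofReal (q (c j).2)) *
        (ENNReal.ofReal (q a) * z) := fun a z => mul_left_comm _ _ _
  simp only [h2]
  rw [← Finset.mul_sum, ← Finset.mul_sum, ← mul_add, h1]

/-! ### the inverse of `dec x` -/

/-- one more visit -/
def inc (x : V) (c : (V × ℕ) × E) : (V × ℕ) × E :=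
  if c.1.1 = x then ((c.1.1, c.1.2 + 1), c.2) else c

omit [AddCommGroup V] [Fintype E] in
theorem dec_inc (x : V) (c : (V × ℕ) × E) : dec x (inc x c) = c := by
  obtain ⟨⟨z, i⟩, a⟩ := c
  unfold dec inc
  by_cases h : z = x
  · simp [h]
  · simp [h]

omit [AddCommGroup V] [Fintype E] in
theorem inc_ne (x : V) (c : (V × ℕ) × E) : (inc x c).1 ≠ (x, 0) := by
  obtain ⟨⟨z, i⟩, a⟩ := c
  unfold inc
  by_cases h : z = x
  · simp [h]
  · simp [h]

omit [AddCommGroup V] [Fintype E] in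
theorem inc_dec (x : V) (c : (V × ℕ) × E) (hc : c.1 ≠ (x, 0)) : inc x (dec x c) = c := by
  obtain ⟨⟨z, i⟩, a⟩ := c
  unfold dec inc
  by_cases h : z = x
  · subst h
    have hi : i ≠ 0 := by
      rintro rfl
      exact hc rfl
    simp
    omega
  · simp [h]

omit [AddCommGroup V] [Fintype E] in
theorem inc_snd (x : V) (c : (V × ℕ) × E) : (inc x c).2 = c.2 := by
  obtain ⟨⟨z, i⟩, a⟩ := c
  unfold inc
  by_cases h : z = x
  · simp [h]
  · simp [h]

omit [AddCommGroup V] [Fintype E] in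
theorem inc_inj (x : V) : Function.Injective (inc x : (V × ℕ) × E → (V × ℕ) × E) := by
  intro a b h
  rw [← dec_inc x a, h, dec_inc]

open Classical in
/-- the tuples without `(x, 0)` -/
theorem tA (x : V) (q : E → ℝ) (k : ℕ) (G : (Fin k → (V × ℕ) × E) → ENNReal) :
    ∑' c : Fin k → (V × ℕ) × E, (if ∀ j, (c j).1 ≠ (x, 0) then
        (∏ j, ENNReal.ofReal (q (c j).2)) * G (fun j => dec x (c j)) else 0) =
      ∑' c : Fin k → (V × ℕ) × E, (∏ j, ENNReal.ofReal (q (c j).2)) * G c := by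
  have hi : Function.Injective (fun (c : Fin k → (V × ℕ) × E) j => inc x (c j)) := by
    intro a b h
    funext j
    exact inc_inj x (congrFun h j)
  rw [← hi.tsum_eq]
  · refine tsum_congr fun c => ?_
    rw [if_pos fun j => inc_ne x (c j)]
    simp only [dec_inc, inc_snd]
  · intro c hc
    rw [Function.mem_support] at hc
    by_cases h : ∀ j, (c j).1 ≠ (x, 0)
    · exact ⟨fun j => dec x (c j), funext fun j => inc_dec x (c j) (h j)⟩
    · rw [if_neg h] at hc
      exact absurd rfl hc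

open Classical in
/-- the tuples with exactly one `(x, 0)` -/
theorem tB (x : V) (q : E → ℝ) (k : ℕ) (l : Fin (k + 1))
    (G : E → (Fin k → (V × ℕ) × E) → ENNReal) :
    ∑' c : Fin (k + 1) → (V × ℕ) × E, (if (c l).1 = (x, 0) ∧ ∀ j, j ≠ l → (c j).1 ≠ (x, 0) then
        (∏ j, ENNReal.ofReal (q (c j).2)) * G (c l).2 (fun j => dec x (rmv l c j)) else 0) =
      ∑ a, ENNReal.ofReal (q a) *
        ∑' c : Fin k → (V × ℕ) × E, (∏ j, ENNReal.ofReal (q (c j).2)) * G a c := by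
  let ι : E × (Fin k → (V × ℕ) × E) → (Fin (k + 1) → (V × ℕ) × E) :=
    fun y => l.insertNth (((x, 0), y.1) : (V × ℕ) × E) (fun j => inc x (y.2 j))
  have hl : ∀ y, ι y l = ((x, 0), y.1) := fun y => Fin.insertNth_apply_same _ _ _
  have hj : ∀ y j, ι y (l.succAbove j) = inc x (y.2 j) :=
    fun y j => Fin.insertNth_apply_succAbove _ _ _ _
  have hi : Function.Injective ι := by
    rintro ⟨a, c⟩ ⟨b, d⟩ h
    have h1 : ((x, 0), a) = (((x, 0), b) : (V × ℕ) × E) := by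
      rw [← hl (a, c), h, hl]
    have h2 : a = b := (Prod.mk.inj h1).2
    have h3 : c = d := by
      funext j
      apply inc_inj x
      rw [← hj (a, c) j, h, hj]
    rw [h2, h3]
  rw [← hi.tsum_eq]
  · rw [ENNReal.tsum_prod', tsum_fintype]
    refine Finset.sum_congr rfl fun a _ => ?_
    rw [← ENNReal.tsum_mul_left]
    refine tsum_congr fun c => ?_
    have h1 : (ι (a, c) l).1 = (x, 0) ∧ ∀ j, j ≠ l → (ι (a, c) j).1 ≠ (x, 0) := by
      refine ⟨by rw [hl], fun j hne => ?_⟩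
      obtain ⟨j', rfl⟩ := Fin.exists_succAbove_eq hne
      rw [hj]
      exact inc_ne x _
    rw [if_pos h1, Fin.prod_univ_succAbove _ l]
    have h2 : (fun j => dec x (rmv l (ι (a, c)) j)) = c := by
      funext j
      unfold rmv
      rw [hj]
      exact dec_inc x (c j)
    rw [h2]
    simp only [hl, hj, inc_snd]
    rw [mul_assoc]
  · intro c hc
    rw [Function.mem_support] at hc
    by_cases h : (c l).1 = (x, 0) ∧ ∀ j, j ≠ l → (c j).1 ≠ (x, 0)
    · refine ⟨((c l).2, fun j => dec x (rmv l c j)), ?_⟩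
      funext j
      by_cases hjl : j = l
      · subst hjl
        rw [hl]
        exact Prod.ext h.1.symm rfl
      · obtain ⟨j', rfl⟩ := Fin.exists_succAbove_eq hjl
        rw [hj]
        exact inc_dec x _ (h.2 _ hjl)
    · rw [if_neg h] at hc
      exact absurd rfl hc

theorem L2 (s : E → V) (q : E → ℝ) (f : V → ℂ) (N k : ℕ) (x : V) :
    sk s q f (N + 1) (k + 1) x =
      (∑' c : Fin (k + 1) → (V × ℕ) × E, (∏ j, ENNReal.ofReal (q (c j).2)) *
        ‖∑ e, (q e : ℂ) * psi s q f N (k + 1) (x + s e) c‖ₑ ^ 2) +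
      ((k : ENNReal) + 1) * ak s q f N k x := by
  classical
  have h1 := tA x q (k + 1) (fun c => ‖∑ e, (q e : ℂ) * psi s q f N (k + 1) (x + s e) c‖ₑ ^ 2)
  have h2 := fun l => tB x q k l (fun a c => ‖psi s q f N k (x + s a) c -
    ∑ e, (q e : ℂ) * psi s q f N k (x + s e) c‖ₑ ^ 2)
  have h3 : ((k : ENNReal) + 1) * ak s q f N k x = ∑ _l : Fin (k + 1), ak s q f N k x := by
    rw [Finset.sum_const, Finset.card_univ, Fintype.card_fin, nsmul_eq_mul]
    push_cast
    rfl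
  rw [h3, ← h1]
  have h4 : ∑ _l : Fin (k + 1), ak s q f N k x = ∑ l : Fin (k + 1), _ :=
    Finset.sum_congr rfl fun l _ => (h2 l).symm
  rw [h4, ← Summable.tsum_finsetSum (fun _ _ => ENNReal.summable), ← ENNReal.tsum_add]
  unfold sk
  refine tsum_congr fun c => ?_
  by_cases hA : ∀ j, (c j).1 ≠ (x, 0)
  · rw [if_pos hA]
    have e1 : psi s q f (N + 1) (k + 1) x c =
        ∑ e, (q e : ℂ) * psi s q f N (k + 1) (x + s e) (fun j => dec x (c j)) := by
      rw [psi, if_pos hA]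
    rw [e1]
    refine (add_zero _).symm.trans (congrArg (_ + ·) (Finset.sum_eq_zero fun l _ => ?_).symm)
    rw [if_neg]
    exact fun h => hA l h.1
  · rw [if_neg hA, zero_add]
    have e1 : psi s q f (N + 1) (k + 1) x c = ∑ l : Fin (k + 1),
        if (c l).1 = (x, 0) ∧ ∀ j, j ≠ l → (c j).1 ≠ (x, 0) then
        psi s q f N k (x + s (c l).2) (fun j => dec x (rmv l c j)) -
          ∑ e, (q e : ℂ) * psi s q f N k (x + s e) (fun j => dec x (rmv l c j)) else 0 := by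
      rw [psi, if_neg hA]
    rw [e1]
    by_cases hB : ∃ l, (c l).1 = (x, 0) ∧ ∀ j, j ≠ l → (c j).1 ≠ (x, 0)
    · obtain ⟨l, hl⟩ := hB
      have hn : ∀ l', l' ≠ l → ¬((c l').1 = (x, 0) ∧ ∀ j, j ≠ l' → (c j).1 ≠ (x, 0)) :=
        fun l' hne h => hl.2 l' hne h.1
      rw [Finset.sum_eq_single l (fun l' _ hne => if_neg (hn l' hne))
        (fun h => absurd (Finset.mem_univ l) h),
        Finset.sum_eq_single l (fun l' _ hne => if_neg (hn l' hne))
        (fun h => absurd (Finset.mem_univ l) h), if_pos hl, if_pos hl]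
    · have hn : ∀ l', ¬((c l').1 = (x, 0) ∧ ∀ j, j ≠ l' → (c j).1 ≠ (x, 0)) :=
        fun l' h => hB ⟨l', h⟩
      rw [Finset.sum_eq_zero (fun l' _ => if_neg (hn l')),
        Finset.sum_eq_zero (fun l' _ => if_neg (hn l'))]
      simp

end

end Id_aux

theorem tId : S_Id := by
  intro V E _ _ _ s q f hq N x
  refine ⟨fun k => ?_, ?_⟩
  · rw [Id_aux.L2, ← Id_aux.L1 s q f hq N (k + 1) x]
    ring
  · rw [← Id_aux.L1 s q f hq N 0 x]
    rfl

end MP0d3db7NS
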