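import Pool.Agent.Lib.MP_0d3db7.NS.Spec

/-!
# MP_0d3db7_pr, theorem NS, module In: the input for the lattice
-/

set_option autoImplicit false

namespace MP0d3db7NS

open MeasureTheory ProbabilityTheory Filter Topology

namespace In_aux

/-- the constants are put together -/
theorem fin_C {V E : Type} [AddCommGroup V] [DecidableEq V] [Fintype E] (s : E → V) (q : E → ℝ)
    (hLg : S_Lg) (hq : PV q) (C C' : ℝ) (hC : 0 ≤ C) (hC' : 0 ≤ C')
    (h1 : ∀ t x z, pt s q t x z ≤ C / ((t : ℝ) + 1))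
    (h2 : ∀ n : ℕ, 1 ≤ n → ∀ B : Finset V, ∑ z ∈ B, gr s q n 0 z ^ 2 ≤ C' * (n : ℝ) ^ (3 / 4 : ℝ)) :
    Inp s q := by
  refine ⟨8 * C + C', by linarith, fun n hn => ?_⟩
  obtain ⟨a1, a2, a3⟩ := hLg s q hq C hC h1 n hn
  have hn1 : (1 : ℝ) ≤ n := by exact_mod_cast hn
  have hl : 0 ≤ 1 + Real.log n := by
    have := Real.log_nonneg hn1
    linarith
  refine ⟨fun x z => (a1 x z).trans ?_, fun B x => (a2 B x).trans ?_, fun B z => (a3 B z).trans ?_,
    fun B => (h2 n hn B).trans ?_⟩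
  · exact mul_le_mul_of_nonneg_right (by linarith) hl
  · exact mul_le_mul_of_nonneg_right (by linarith) (by positivity)
  · exact mul_le_mul_of_nonneg_right (by linarith) (by positivity)
  · exact mul_le_mul_of_nonneg_right (by linarith) (by positivity)

/-- three directions out of `d` -/
theorem three {d : ℕ} (hd : 3 ≤ d) (v : Fin d → (Fin d → ℤ))
    (h : ∀ l : Fin d → ℤ, ∑ i, l i • v i = 0 → l = 0) (l : Fin 3 → ℤ)
    (hl : ∑ i, l i • v (Fin.castLE hd i) = 0) : l = 0 := by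
  set l' : Fin d → ℤ := fun j => if hj : j.val < 3 then l ⟨j.val, hj⟩ else 0 with hl'
  have h1 : ∀ i : Fin 3, l' (Fin.castLE hd i) = l i := by
    intro i
    rw [hl']
    simp only [Fin.val_castLE, i.isLt, dif_pos, Fin.eta]
  have h2 : ∑ i : Fin 3, l i • v (Fin.castLE hd i) = ∑ j : Fin d, l' j • v j := by
    refine Fintype.sum_of_injective (Fin.castLE hd) (Fin.castLE_injective hd) _ _ ?_ ?_
    · intro j hj
      have h3 : ¬ j.val < 3 := by
        intro h4
        exact hj ⟨⟨j.val, h4⟩, rfl⟩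
      rw [hl']
      simp only [dif_neg h3, zero_smul]
    · intro i
      rw [h1 i]
  rw [h2] at hl
  have h5 := h l' hl
  funext i
  rw [← h1 i, h5]
  rfl

end In_aux

open In_aux

theorem tIn (hSu : S_Su) (hSp : S_Sp) (hLg : S_Lg) (hS3 : S_S3) (hS2 : S_S2) : S_In := by
  intro d q hq hdet hd
  obtain ⟨f0, g, hf0, hg, hli⟩ := hSp d q hq hdet
  rcases hd with hd | ⟨hd2, hdr⟩
  · obtain ⟨C, hC, h1⟩ := hSu (st d) q hq 3 f0 (fun i => g (Fin.castLE hd i)) hf0 (fun i => hg _)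
      (fun l hl => three hd (fun i => st d (g i) - st d f0) hli l hl)
    have h2 : ∀ t x z, pt (st d) q t x z ≤ C * ((t : ℝ) + 1) ^ (-(3 / 2) : ℝ) := by
      intro t x z
      have h3 := h1 t x z
      have h4 : (-(((3 : ℕ) : ℝ) / 2)) = (-(3 / 2) : ℝ) := by norm_num
      rw [h4] at h3
      exact h3
    have h5 : ∀ t x z, pt (st d) q t x z ≤ C / ((t : ℝ) + 1) := by
      intro t x z
      have h6 : (0 : ℝ) ≤ t := Nat.cast_nonneg t
      have h7 : (-(3 / 2) : ℝ) ≤ -1 := by norm_num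
      have h8 : (1 : ℝ) ≤ (t : ℝ) + 1 := by linarith
      calc pt (st d) q t x z ≤ C * ((t : ℝ) + 1) ^ (-(3 / 2) : ℝ) := h2 t x z
        _ ≤ C * ((t : ℝ) + 1) ^ (-1 : ℝ) :=
          mul_le_mul_of_nonneg_left (Real.rpow_le_rpow_of_exponent_le h8 h7) hC
        _ = C / ((t : ℝ) + 1) := by rw [Real.rpow_neg_one, div_eq_mul_inv]
    exact fin_C (st d) q hLg hq C (16 * C) hC (by linarith) h5
      (fun n hn B => hS3 (st d) q hq C hC h2 n hn B)
  · subst hd2
    obtain ⟨C, hC, h1⟩ := hSu (st 2) q hq 2 f0 g hf0 hg hli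
    have h5 : ∀ t x z, pt (st 2) q t x z ≤ C / ((t : ℝ) + 1) := by
      intro t x z
      have h3 := h1 t x z
      have h4 : (-(((2 : ℕ) : ℝ) / 2)) = (-1 : ℝ) := by norm_num
      rw [h4, Real.rpow_neg_one, ← div_eq_mul_inv] at h3
      exact h3
    obtain ⟨i, hi⟩ := Function.ne_iff.mp hdr
    obtain ⟨C', hC', h6⟩ := hS2 (st 2) q hq
      ((Int.castAddHom ℝ).comp (Pi.evalAddMonoidHom (fun _ : Fin 2 => ℤ) i)) hi C hC h5
    exact fin_C (st 2) q hLg hq C C' hC hC' h5 h6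

end MP0d3db7NS
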