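import Pool.Agent.Lib.MP_0d3db7.NS.Spec2

/-!
# MP_0d3db7_pr, theorem NS2: from the window average to the time `n` (helper50)
-/

set_option autoImplicit false

namespace MP0d3db7NS

open MeasureTheory ProbabilityTheory Filter Topology

namespace Iw_aux

lemma norm_le {d : ℕ} (v : EuclideanSpace ℝ (Fin d)) (c : ℝ) (hc : 0 ≤ c)
    (h : ∀ i, |v i| ≤ c) : ‖v‖ ≤ d * c := by
  rw [EuclideanSpace.norm_eq]
  refine Real.sqrt_le_iff.2 ⟨by positivity, ?_⟩
  have h3 : ∀ i ∈ (Finset.univ : Finset (Fin d)), ‖v i‖ ^ 2 ≤ c ^ 2 := fun i _ =>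
    pow_le_pow_left₀ (norm_nonneg _) (h i) 2
  have h4 := Finset.sum_le_sum h3
  rw [Finset.sum_const, Finset.card_univ, Fintype.card_fin, nsmul_eq_mul] at h4
  have h5 : (d : ℝ) ≤ (d : ℝ) ^ 2 := by exact_mod_cast Nat.le_self_pow two_ne_zero d
  calc ∑ i, ‖v i‖ ^ 2 ≤ (d : ℝ) * c ^ 2 := h4
    _ ≤ (d : ℝ) ^ 2 * c ^ 2 := mul_le_mul_of_nonneg_right h5 (by positivity)
    _ = (d * c) ^ 2 := by ring

lemma coord {n n0 H : ℕ} {x y A B D ε : ℝ} (hD : 0 < D) (h0 : D ≤ n0) (hn : n0 ≤ n)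
    (hn' : n < n0 + H) (hA : 0 ≤ A) (hx : |x| ≤ A * Real.sqrt D)
    (hxy : |x - y| ≤ 2 * (ε * Real.sqrt n0)) (hH : (H : ℝ) ≤ D * B + 1) :
    |x / Real.sqrt n - y / Real.sqrt n0| ≤ A * (B + 1 / D) + 2 * ε := by
  have hn0 : (0 : ℝ) < n0 := lt_of_lt_of_le hD h0
  have hnn : (n0 : ℝ) ≤ n := by exact_mod_cast hn
  have hnp : (0 : ℝ) < n := lt_of_lt_of_le hn0 hnn
  have hH' : (n : ℝ) - n0 ≤ H := by
    have : (n : ℝ) < n0 + H := by exact_mod_cast hn'
    linarith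
  set s := Real.sqrt n with hs
  set t := Real.sqrt n0 with ht
  set u := Real.sqrt D with hu
  have hsp : 0 < s := Real.sqrt_pos.2 hnp
  have htp : 0 < t := Real.sqrt_pos.2 hn0
  have hup : 0 < u := Real.sqrt_pos.2 hD
  have hut : u ≤ t := Real.sqrt_le_sqrt h0
  have hts : t ≤ s := Real.sqrt_le_sqrt hnn
  have hss : s * s = n := Real.mul_self_sqrt hnp.le
  have htt : t * t = n0 := Real.mul_self_sqrt hn0.le
  have huu : u * u = D := Real.mul_self_sqrt hD.le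
  have e1 : x / s - y / t = (x - y) / t - x * ((s - t) / (s * t)) := by
    field_simp
    ring
  have h1 : |(x - y) / t| ≤ 2 * ε := by
    rw [abs_div, abs_of_pos htp, div_le_iff₀ htp]
    linarith
  have h2 : 0 ≤ (s - t) / (s * t) := div_nonneg (by linarith) (by positivity)
  have h3 : u * ((s - t) / (s * t)) ≤ H / D := by
    rw [← huu, ← mul_div_assoc, div_le_div_iff₀ (by positivity) (by positivity)]
    have h4 : (s - t) * (s + t) ≤ H := by nlinarith
    have h5 : 0 ≤ s - t := by linarith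
    have h6 : u * u ≤ (s + t) * s := by nlinarith
    have h7 : (s - t) * (u * u) ≤ (s - t) * ((s + t) * s) := mul_le_mul_of_nonneg_left h6 h5
    have h8 : (s - t) * (s + t) * s ≤ H * s := mul_le_mul_of_nonneg_right h4 hsp.le
    have h9 : (s - t) * (u * u) ≤ H * s := by nlinarith
    have h10 : (s - t) * (u * u) * u ≤ H * s * u := mul_le_mul_of_nonneg_right h9 hup.le
    have h11 : (H : ℝ) * s * u ≤ H * s * t := mul_le_mul_of_nonneg_left hut (by positivity)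
    nlinarith
  have h4 : |x * ((s - t) / (s * t))| ≤ A * (B + 1 / D) := by
    rw [abs_mul, abs_of_nonneg h2]
    calc |x| * ((s - t) / (s * t)) ≤ (A * u) * ((s - t) / (s * t)) :=
          mul_le_mul_of_nonneg_right hx h2
      _ = A * (u * ((s - t) / (s * t))) := by ring
      _ ≤ A * (H / D) := mul_le_mul_of_nonneg_left h3 hA
      _ ≤ A * (B + 1 / D) := by
        refine mul_le_mul_of_nonneg_left ?_ hA
        rw [div_le_iff₀ hD]
        have : (B + 1 / D) * D = D * B + 1 := by field_simp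
        linarith
  rw [e1]
  have h5 := abs_sub ((x - y) / t) (x * ((s - t) / (s * t)))
  linarith

/-- the estimate outside the bad events -/
lemma good {d : ℕ} (q : Dr d → ℝ) {n n0 m H : ℕ} {A B D ε : ℝ} (hD : 0 < D) (h0 : D ≤ n0)
    (hn : n0 ≤ n) (hn' : n < n0 + H) (hm : n0 ≤ m) (hA : 0 ≤ A) (hB : 0 ≤ B) (hε : 0 ≤ ε)
    (hH : (H : ℝ) ≤ D * B + 1) (x x' x0 : Fin d → ℤ)
    (h1 : ∀ i, |((x i : ℤ) : ℝ) - ((x0 i : ℤ) : ℝ) - ((n - n0 : ℕ) : ℝ) * drift q i| ≤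
      ε * Real.sqrt n0)
    (h2 : ∀ i, |((x' i : ℤ) : ℝ) - ((x0 i : ℤ) : ℝ) - ((m - n0 : ℕ) : ℝ) * drift q i| ≤
      ε * Real.sqrt n0)
    (h3 : ∀ i, |((x i : ℤ) : ℝ) - n * drift q i| ≤ A * Real.sqrt D) :
    ‖nrm q n x - nr q n0 m x'‖ ≤ d * (A * (B + 1 / D) + 2 * ε) := by
  refine norm_le _ _ (by positivity) fun i => ?_
  show |((x i : ℝ) - n * drift q i) / Real.sqrt n -
    ((x' i : ℝ) - m * drift q i) / Real.sqrt n0| ≤ _
  refine coord hD h0 hn hn' hA (h3 i) ?_ hH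
  have h4 := abs_le.1 (h1 i)
  have h5 := abs_le.1 (h2 i)
  rw [Nat.cast_sub hn] at h4
  rw [Nat.cast_sub hm] at h5
  rw [abs_le]
  constructor <;> linarith [h4.1, h4.2, h5.1, h5.2]

lemma not_bad {d : ℕ} {q : Dr d → ℝ} {L : ℕ} {a : ℝ} {h : List (Dr d)} (hb : ¬ Bad q L a h)
    {k : ℕ} (hk : k ≤ L) (i : Fin d) :
    |((pos (st d) (h.drop k) i : ℤ) : ℝ) - ((pos (st d) (h.drop L) i : ℤ) : ℝ) -
      ((L - k : ℕ) : ℝ) * drift q i| ≤ a := by
  by_contra hc
  exact hb ⟨k, hk, i, not_le.1 hc⟩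

section

variable {d : ℕ} {q : Dr d → ℝ} {w : (Fin d → ℤ) × ℕ → Dr d → ℝ}

lemma lift (hPa : S_Pa) (hw : ∀ κ, PV (w κ)) (Φ : List (Dr d) → ℝ) {n T : ℕ} (hn : n ≤ T) :
    Ex (st d) w Φ n [] = Ex (st d) w (fun h => Φ (h.drop (T - n))) T [] := by
  have h1 := (hPa (st d) w).2.2.2.2.2 hw Φ n (T - n)
  rw [Nat.add_sub_cancel' hn] at h1
  exact h1.symm

lemma absEx (hPa : S_Pa) (hw : ∀ κ, PV (w κ)) (Φ Ψ X Y : List (Dr d) → ℝ) (c : ℝ) (n : ℕ)
    (h : ∀ a : List (Dr d), a.length = n → |Φ a - Ψ a| ≤ c + 2 * X a + 2 * Y a) :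
    |Ex (st d) w Φ n [] - Ex (st d) w Ψ n []| ≤
      c + 2 * Ex (st d) w X n [] + 2 * Ex (st d) w Y n [] := by
  obtain ⟨_, _, hlin, hmono, hconst, _⟩ := hPa (st d) w
  have e1 : Ex (st d) w (fun a => 1 * c + 1 * (2 * X a + 2 * Y a)) n [] =
      c + 2 * Ex (st d) w X n [] + 2 * Ex (st d) w Y n [] := by
    rw [hlin (fun _ => c) (fun a => 2 * X a + 2 * Y a) 1 1 n [], hlin X Y 2 2 n [],
      hconst hw c n []]
    ring
  have h1 := hmono hw Φ (fun a => 1 * Ψ a + 1 * (1 * c + 1 * (2 * X a + 2 * Y a))) n []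
    fun a ha => by
      have := (abs_le.1 (h a (by simpa using ha))).2
      linarith
  have h2 := hmono hw Ψ (fun a => 1 * Φ a + 1 * (1 * c + 1 * (2 * X a + 2 * Y a))) n []
    fun a ha => by
      have := (abs_le.1 (h a (by simpa using ha))).1
      linarith
  rw [hlin Ψ (fun a => 1 * c + 1 * (2 * X a + 2 * Y a)) 1 1 n [], e1] at h1
  rw [hlin Φ (fun a => 1 * c + 1 * (2 * X a + 2 * Y a)) 1 1 n [], e1] at h2
  rw [abs_le]
  constructor <;> linarith

lemma abs_avg {n0 h : ℕ} (hh : 1 ≤ h) (A C : ℝ) (B : ℕ → ℝ)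
    (hB : ∀ m, n0 ≤ m → m < n0 + h → |A - B m| ≤ C) :
    |A - 1 / (h : ℝ) * ∑ m ∈ Finset.Ico n0 (n0 + h), B m| ≤ C := by
  have hp : (0 : ℝ) < h := by exact_mod_cast hh
  have h1 : A - 1 / (h : ℝ) * ∑ m ∈ Finset.Ico n0 (n0 + h), B m =
      1 / (h : ℝ) * ∑ m ∈ Finset.Ico n0 (n0 + h), (A - B m) := by
    rw [Finset.sum_sub_distrib, Finset.sum_const, Nat.card_Ico, Nat.add_sub_cancel_left,
      nsmul_eq_mul]
    field_simp
  have h2 : |∑ m ∈ Finset.Ico n0 (n0 + h), (A - B m)| ≤ h * C := by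
    refine (Finset.abs_sum_le_sum_abs _ _).trans ?_
    refine (Finset.sum_le_sum fun m hm => hB m (Finset.mem_Ico.1 hm).1
      (Finset.mem_Ico.1 hm).2).trans ?_
    rw [Finset.sum_const, Nat.card_Ico, Nat.add_sub_cancel_left, nsmul_eq_mul]
  rw [h1, abs_mul, abs_of_pos (by positivity), one_div, inv_mul_le_iff₀ hp]
  exact h2

end

end Iw_aux

open Iw_aux

open Classical in
theorem tIw (hPa : S_Pa) (hSz : S_Sz) : S_Iw := by
  intro d q hq w hw θ hθ hθ1 b i n hb1 hn hnH hn2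
  obtain ⟨-, -, hh1, hhb, -, hT, -⟩ := hSz θ hθ hθ1 b hb1
  have hnw : nw θ b i < 2 ^ (b + 1) := lt_of_le_of_lt hn hn2
  have hT1 := hT i hnw
  have hD0 : 2 ^ b ≤ nw θ b i := by unfold nw; exact Nat.le_add_right _ _
  clear hT
  generalize nw θ b i = n0 at *
  generalize MP0d3db7NS.hb θ b = H at *
  generalize hTT : 2 ^ (b + 2) = T at *
  have hA : 0 ≤ (b : ℝ) ^ (θ / 2) := Real.rpow_nonneg (Nat.cast_nonneg _) _
  have hB : 0 ≤ (b : ℝ) ^ (-θ) := Real.rpow_nonneg (Nat.cast_nonneg _) _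
  have hD : (0 : ℝ) < 2 ^ b := by positivity
  have hD1 : (2 : ℝ) ^ b ≤ n0 := by exact_mod_cast hD0
  generalize (b : ℝ) ^ (θ / 2) = A at *
  generalize (b : ℝ) ^ (-θ) = B at *
  generalize (2 : ℝ) ^ b = D at *
  have hnT : n ≤ T := by omega
  have key2 : ∀ a : List (Dr d), a.length = T → ¬ Bad q T (A * Real.sqrt D) a → ∀ j,
      |((pos (st d) (a.drop (T - n)) j : ℤ) : ℝ) - n * drift q j| ≤ A * Real.sqrt D := by
    intro a ha hbad j
    have h1 := not_bad hbad (Nat.sub_le T n) j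
    rw [List.drop_eq_nil_of_le ha.le, Nat.sub_sub_self hnT] at h1
    simpa [pos] using h1
  have key1 : ∀ (ε : ℝ) (a : List (Dr d)),
      ¬ Bad q H (ε * Real.sqrt n0) (a.drop (T - (n0 + H))) → ∀ m, n0 ≤ m → m < n0 + H → ∀ j,
      |((pos (st d) (a.drop (T - m)) j : ℤ) : ℝ) - ((pos (st d) (a.drop (T - n0)) j : ℤ) : ℝ) -
        ((m - n0 : ℕ) : ℝ) * drift q j| ≤ ε * Real.sqrt n0 := by
    intro ε a hbad m hm hm' j
    have hk : n0 + H - m ≤ H := by omega
    have h1 := not_bad hbad hk j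
    rw [List.drop_drop, List.drop_drop] at h1
    have e1 : T - (n0 + H) + (n0 + H - m) = T - m := by omega
    have e2 : T - (n0 + H) + H = T - n0 := by omega
    have e3 : H - (n0 + H - m) = m - n0 := by omega
    rw [e1, e2, e3] at h1
    exact h1
  have hQ1 : ∀ a : ℝ, QB q w (n0 + H) H a =
      Ex (st d) w (fun h => if Bad q H a (h.drop (T - (n0 + H))) then 1 else 0) T [] := fun a =>
    lift hPa hw _ hT1
  refine ⟨fun g Λ ε hΛ hε hg1 hgL => ?_, fun Φ hΦ0 hΦ1 hΦ => ?_⟩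
  · unfold Av
    refine abs_avg hh1 _ _ _ fun m hm hm' => ?_
    have e1 : U (st d) w (fun x => g (nr q n0 m x)) m 0 (fun _ => 0) =
        Ex (st d) w (fun h => g (nr q n0 m (pos (st d) h))) m [] :=
      ((hPa (st d) w).2.1 (fun x => g (nr q n0 m x)) m []).symm
    rw [e1, lift hPa hw _ hnT, lift hPa hw _ (show m ≤ T by omega), hQ1]
    refine absEx hPa hw _ _ _ _ _ _ fun a ha => ?_
    have hg2 : |g (nrm q n (pos (st d) (a.drop (T - n)))) -
        g (nr q n0 m (pos (st d) (a.drop (T - m))))| ≤ 2 := by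
      have h1 := abs_le.1 (hg1 (nrm q n (pos (st d) (a.drop (T - n)))))
      have h2 := abs_le.1 (hg1 (nr q n0 m (pos (st d) (a.drop (T - m)))))
      rw [abs_le]
      constructor <;> linarith [h1.1, h1.2, h2.1, h2.2]
    have hc : 0 ≤ Λ * (d * (A * (B + 1 / D) + 2 * ε)) := by positivity
    by_cases c1 : Bad q H (ε * Real.sqrt n0) (a.drop (T - (n0 + H)))
    · by_cases c2 : Bad q T (A * Real.sqrt D) a
      · simp only [if_pos c1, if_pos c2]; linarith
      · simp only [if_pos c1, if_neg c2]; linarith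
    · by_cases c2 : Bad q T (A * Real.sqrt D) a
      · simp only [if_neg c1, if_pos c2]; linarith
      · simp only [if_neg c1, if_neg c2]
        have h1 := hgL (nrm q n (pos (st d) (a.drop (T - n))))
          (nr q n0 m (pos (st d) (a.drop (T - m))))
        have h2 := good q hD hD1 hn hnH hm hA hB hε hhb (pos (st d) (a.drop (T - n)))
          (pos (st d) (a.drop (T - m))) (pos (st d) (a.drop (T - n0)))
          (key1 ε a c1 n hn hnH) (key1 ε a c1 m hm hm') (key2 a ha c2)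
        have h3 := mul_le_mul_of_nonneg_left h2 hΛ
        linarith
  · rw [lift hPa hw _ hnT]
    refine (hPa (st d) w).2.2.2.1 hw _ _ T [] fun a ha => ?_
    have ha' : a.length = T := by simpa using ha
    by_cases c2 : Bad q T (A * Real.sqrt D) a
    · simp only [if_pos c2]; exact hΦ1 _
    · simp only [if_neg c2]
      refine le_of_eq (hΦ _ fun j => ?_)
      show |((pos (st d) (a.drop (T - n)) j : ℝ) - n * drift q j) / Real.sqrt n| ≤ A
      have hnn : (n0 : ℝ) ≤ n := by exact_mod_cast hn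
      have hsn : 0 < Real.sqrt n := Real.sqrt_pos.2 (by linarith)
      rw [abs_div, abs_of_pos hsn, div_le_iff₀ hsn]
      refine (key2 a ha' c2 j).trans ?_
      exact mul_le_mul_of_nonneg_left (Real.sqrt_le_sqrt (by linarith)) hA

end MP0d3db7NS
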