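import Pool.Agent.Lib.MP_0d3db7.NS.Spec2

/-!
# MP_0d3db7_pr, theorem NS2, module K1: common cookies, transient bound
-/

set_option autoImplicit false

namespace MP0d3db7NS

open MeasureTheory ProbabilityTheory Filter Topology

namespace K1_aux

variable {V E : Type} [AddCommGroup V] [DecidableEq V] [Fintype E]

theorem pt_nonneg (s : E → V) (q : E → ℝ) (hq : PV q) (t : ℕ) : ∀ x z, 0 ≤ pt s q t x z := by
  induction t with
  | zero =>
    intro x z
    rw [pt]
    split_ifs <;> norm_num
  | succ t ih =>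
    intro x z
    rw [pt]
    exact Finset.sum_nonneg fun e _ => mul_nonneg (hq.1 e) (ih _ _)

theorem vs_nonneg (s : E → V) (q : E → ℝ) (hq : PV q) (t : ℕ) :
    ∀ x z i, 0 ≤ vs s q t x z i := by
  induction t with
  | zero =>
    intro x z i
    rw [vs]
    split_ifs <;> norm_num
  | succ t ih =>
    intro x z i
    rw [vs]
    split_ifs
    · exact le_rfl
    · exact Finset.sum_nonneg fun e _ => mul_nonneg (hq.1 e) (ih _ _ _)
    · exact Finset.sum_nonneg fun e _ => mul_nonneg (hq.1 e) (ih _ _ _)

theorem swap (s : E → V) (q : E → ℝ) (hq : PV q) (t : ℕ) (x z : V) (I : ℕ)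
    (h : ∀ x z : V, ∀ I : ℕ, ∑ i ∈ Finset.range I, vs s q t x z i ≤ pt s q t x z) :
    ∑ i ∈ Finset.range I, ∑ e, q e * vs s q t (x + s e) z i ≤ pt s q (t + 1) x z := by
  rw [Finset.sum_comm, pt]
  refine Finset.sum_le_sum fun e _ => ?_
  rw [← Finset.mul_sum]
  exact mul_le_mul_of_nonneg_left (h _ _ _) (hq.1 e)

theorem vs_sum (s : E → V) (q : E → ℝ) (hq : PV q) (t : ℕ) :
    ∀ x z : V, ∀ I : ℕ, ∑ i ∈ Finset.range I, vs s q t x z i ≤ pt s q t x z := by
  induction t with
  | zero =>
    intro x z I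
    cases I with
    | zero =>
      rw [Finset.range_zero, Finset.sum_empty]
      exact pt_nonneg s q hq 0 x z
    | succ I =>
      rw [Finset.sum_range_succ']
      have h1 : ∑ i ∈ Finset.range I, vs s q 0 x z (i + 1) = 0 := by
        refine Finset.sum_eq_zero fun i _ => ?_
        rw [vs, if_neg]
        rintro ⟨_, h⟩
        omega
      rw [h1, zero_add, vs, pt]
      by_cases hx : x = z
      · simp [hx]
      · simp [hx]
  | succ t ih =>
    intro x z I
    by_cases hx : x = z
    · cases I with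
      | zero =>
        rw [Finset.range_zero, Finset.sum_empty]
        exact pt_nonneg s q hq (t + 1) x z
      | succ I =>
        rw [Finset.sum_range_succ']
        have h0 : vs s q (t + 1) x z 0 = 0 := by
          rw [vs, if_pos hx, if_pos rfl]
        have h1 : ∀ i, vs s q (t + 1) x z (i + 1) = ∑ e, q e * vs s q t (x + s e) z i := by
          intro i
          rw [vs, if_pos hx, if_neg (Nat.succ_ne_zero i)]
          rfl
        rw [h0, add_zero]
        simp only [h1]
        exact swap s q hq t x z I ih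
    · have h1 : ∀ i, vs s q (t + 1) x z i = ∑ e, q e * vs s q t (x + s e) z i := by
        intro i
        rw [vs, if_neg hx]
      simp only [h1]
      exact swap s q hq t x z I ih

theorem sum_sq_le (I : ℕ) (a : ℕ → ℝ) (ha : ∀ i, 0 ≤ a i) :
    ∑ i ∈ Finset.range I, a i ^ 2 ≤ (∑ i ∈ Finset.range I, a i) ^ 2 := by
  rw [sq (∑ i ∈ Finset.range I, a i), Finset.sum_mul]
  refine Finset.sum_le_sum fun i hi => ?_
  rw [sq]
  exact mul_le_mul_of_nonneg_left (Finset.single_le_sum (fun j _ => ha j) hi) (ha i)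

end K1_aux

open K1_aux in
/-- Module K1: the transient bound. -/
theorem tK1 : S_K1 := by
  intro V E _ _ _ s q hq M κ h B I
  refine le_trans (Finset.sum_le_sum fun z _ => ?_) (h B)
  have h1 : ∀ i, 0 ≤ ∑ t ∈ Finset.range M, vs s q t 0 z i := fun i =>
    Finset.sum_nonneg fun t _ => vs_nonneg s q hq t 0 z i
  refine (sum_sq_le I _ h1).trans ?_
  refine pow_le_pow_left₀ (Finset.sum_nonneg fun i _ => h1 i) ?_ 2
  rw [Finset.sum_comm, gr]
  exact Finset.sum_le_sum fun t _ => vs_sum s q hq t 0 z I

end MP0d3db7NS
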