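import Pool.Agent.Lib.MP_0d3db7.NS.Spec2

/-!
# MP_0d3db7_pr, theorem NS2, module K2: common cookies, the recurrent bound
-/

set_option autoImplicit false

namespace MP0d3db7NS

open MeasureTheory ProbabilityTheory Filter Topology

namespace K2_aux

section

variable {V E : Type} [AddCommGroup V] [DecidableEq V] [Fintype E] (s : E → V) (q : E → ℝ)

theorem pt_nonneg (hq : PV q) (t : ℕ) : ∀ x z, 0 ≤ pt s q t x z := by
  induction t with
  | zero =>
    intro x z
    simp only [pt]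
    split_ifs <;> norm_num
  | succ t ih =>
    intro x z
    simp only [pt]
    exact Finset.sum_nonneg fun e _ => mul_nonneg (hq.1 e) (ih _ _)

theorem pt_shift (t : ℕ) : ∀ x z y, pt s q t (x + y) (z + y) = pt s q t x z := by
  induction t with
  | zero =>
    intro x z y
    simp only [pt, add_left_inj]
  | succ t ih =>
    intro x z y
    simp only [pt]
    refine Finset.sum_congr rfl fun e _ => ?_
    rw [show x + y + s e = (x + s e) + y by abel, ih]

theorem vs_shift (t : ℕ) : ∀ x z y i, vs s q t (x + y) (z + y) i = vs s q t x z i := by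
  induction t with
  | zero =>
    intro x z y i
    simp only [vs, add_left_inj]
  | succ t ih =>
    intro x z y i
    have h : ∀ e, x + y + s e = (x + s e) + y := fun e => by abel
    simp only [vs, add_left_inj, h, ih]

theorem vs_nonneg (hq : PV q) (t : ℕ) : ∀ x z i, 0 ≤ vs s q t x z i := by
  induction t with
  | zero =>
    intro x z i
    simp only [vs]
    split_ifs <;> norm_num
  | succ t ih =>
    intro x z i
    simp only [vs]
    split_ifs
    · exact le_refl _
    · exact Finset.sum_nonneg fun e _ => mul_nonneg (hq.1 e) (ih _ _ _)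
    · exact Finset.sum_nonneg fun e _ => mul_nonneg (hq.1 e) (ih _ _ _)

theorem pt_sum (hq : PV q) (B : Finset V) (t : ℕ) : ∀ x, ∑ z ∈ B, pt s q t x z ≤ 1 := by
  induction t with
  | zero =>
    intro x
    simp only [pt]
    rw [Finset.sum_ite_eq]
    split_ifs <;> norm_num
  | succ t ih =>
    intro x
    simp only [pt]
    rw [Finset.sum_comm]
    calc ∑ e, ∑ z ∈ B, q e * pt s q t (x + s e) z
        = ∑ e, q e * ∑ z ∈ B, pt s q t (x + s e) z := by simp only [Finset.mul_sum]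
      _ ≤ ∑ e, q e * 1 :=
        Finset.sum_le_sum fun e _ => mul_le_mul_of_nonneg_left (ih _) (hq.1 e)
      _ = 1 := by simp [hq.2]

theorem gr_nonneg (hq : PV q) (N : ℕ) (x z : V) : 0 ≤ gr s q N x z :=
  Finset.sum_nonneg fun _ _ => pt_nonneg s q hq _ _ _

theorem gr_mono (hq : PV q) {N N' : ℕ} (h : N ≤ N') (x z : V) : gr s q N x z ≤ gr s q N' x z :=
  Finset.sum_le_sum_of_subset_of_nonneg (Finset.range_subset_range.2 h)
    fun _ _ _ => pt_nonneg s q hq _ _ _

theorem gr_shift (N : ℕ) (z : V) : gr s q N z z = gr s q N 0 0 := by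
  unfold gr
  refine Finset.sum_congr rfl fun t _ => ?_
  have := pt_shift s q t 0 0 z
  rwa [zero_add] at this

theorem gr_succ (N : ℕ) (x z : V) :
    gr s q (N + 1) x z = (if x = z then 1 else 0) + ∑ e, q e * gr s q N (x + s e) z := by
  unfold gr
  rw [Finset.sum_range_succ', add_comm]
  congr 1
  simp only [pt, Finset.mul_sum]
  rw [Finset.sum_comm]

/-- the expected number of visits number `i + 1` of `z` before the time `M` -/
noncomputable def Pp (i : ℕ) (x z : V) (M : ℕ) : ℝ := ∑ t ∈ Finset.range M, vs s q t x z i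

theorem Pp_zero (i : ℕ) (x z : V) : Pp s q i x z 0 = 0 := by simp [Pp]

theorem Pp_nonneg (hq : PV q) (i : ℕ) (x z : V) (M : ℕ) : 0 ≤ Pp s q i x z M :=
  Finset.sum_nonneg fun _ _ => vs_nonneg s q hq _ _ _ _

theorem Pp_mono (hq : PV q) (i : ℕ) (x z : V) {M M' : ℕ} (h : M ≤ M') :
    Pp s q i x z M ≤ Pp s q i x z M' :=
  Finset.sum_le_sum_of_subset_of_nonneg (Finset.range_subset_range.2 h)
    fun _ _ _ => vs_nonneg s q hq _ _ _ _

theorem Pp_ne (i : ℕ) {x z : V} (h : x ≠ z) (M : ℕ) :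
    Pp s q i x z (M + 1) = ∑ e, q e * Pp s q i (x + s e) z M := by
  unfold Pp
  rw [Finset.sum_range_succ']
  simp only [vs, if_neg h, h, false_and, if_false, add_zero, Finset.mul_sum]
  rw [Finset.sum_comm]

theorem Pp_eq0 (z : V) (M : ℕ) : Pp s q 0 z z (M + 1) = 1 := by
  unfold Pp
  rw [Finset.sum_range_succ']
  simp [vs]

theorem Pp_eqs (i : ℕ) (z : V) (M : ℕ) :
    Pp s q (i + 1) z z (M + 1) = ∑ e, q e * Pp s q i (z + s e) z M := by
  unfold Pp
  rw [Finset.sum_range_succ']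
  simp only [vs, if_true, Nat.succ_ne_zero, and_false, if_false, add_zero, Finset.mul_sum,
    Nat.add_sub_cancel]
  rw [Finset.sum_comm]

theorem Pp_shift (i : ℕ) (z : V) (M : ℕ) : Pp s q i z z M = Pp s q i 0 0 M := by
  unfold Pp
  refine Finset.sum_congr rfl fun t _ => ?_
  have := vs_shift s q t 0 0 z i
  rwa [zero_add] at this

theorem avg_le (hq : PV q) (f : E → ℝ) (b : ℝ) (h : ∀ e, f e ≤ b) : ∑ e, q e * f e ≤ b := by
  calc ∑ e, q e * f e ≤ ∑ e, q e * b :=
        Finset.sum_le_sum fun e _ => mul_le_mul_of_nonneg_left (h e) (hq.1 e)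
    _ = b := by rw [← Finset.sum_mul, hq.2, one_mul]

theorem Pp_le_one (hq : PV q) (M : ℕ) : ∀ (i : ℕ) (x z : V), Pp s q i x z M ≤ 1 := by
  induction M with
  | zero =>
    intro i x z
    rw [Pp_zero]
    norm_num
  | succ M ih =>
    intro i x z
    by_cases h : x = z
    · subst h
      rcases i with _ | i
      · rw [Pp_eq0]
      · rw [Pp_eqs]
        exact avg_le q hq _ 1 fun e => ih _ _ _
    · rw [Pp_ne s q i h]
      exact avg_le q hq _ 1 fun e => ih _ _ _

/-- (1) the number of the visits -/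
theorem Pp_step (hq : PV q) (M : ℕ) : ∀ (i : ℕ) (x z : V),
    Pp s q (i + 1) x z M ≤ Pp s q 1 0 0 M * Pp s q i x z M := by
  induction M with
  | zero =>
    intro i x z
    simp [Pp_zero]
  | succ M ih =>
    intro i x z
    have hmono : Pp s q 1 0 0 M ≤ Pp s q 1 0 0 (M + 1) := Pp_mono s q hq _ _ _ (Nat.le_succ M)
    have key : ∀ (j : ℕ) (x : V), ∑ e, q e * Pp s q (j + 1) (x + s e) z M ≤
        Pp s q 1 0 0 (M + 1) * ∑ e, q e * Pp s q j (x + s e) z M := by
      intro j x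
      rw [Finset.mul_sum]
      refine Finset.sum_le_sum fun e _ => ?_
      calc q e * Pp s q (j + 1) (x + s e) z M
          ≤ q e * (Pp s q 1 0 0 M * Pp s q j (x + s e) z M) :=
            mul_le_mul_of_nonneg_left (ih _ _ _) (hq.1 e)
        _ ≤ q e * (Pp s q 1 0 0 (M + 1) * Pp s q j (x + s e) z M) :=
            mul_le_mul_of_nonneg_left
              (mul_le_mul_of_nonneg_right hmono (Pp_nonneg s q hq _ _ _ _)) (hq.1 e)
        _ = Pp s q 1 0 0 (M + 1) * (q e * Pp s q j (x + s e) z M) := by ring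
    by_cases h : x = z
    · subst h
      rcases i with _ | i
      · rw [Pp_eq0, mul_one, Pp_shift]
      · rw [Pp_eqs, Pp_eqs s q i]
        exact key i x
    · rw [Pp_ne s q (i + 1) h, Pp_ne s q i h]
      exact key i x

theorem Pp_pow (hq : PV q) (M i : ℕ) (x z : V) :
    Pp s q i x z M ≤ Pp s q 1 0 0 M ^ i * Pp s q 0 x z M := by
  induction i with
  | zero => simp
  | succ i ih =>
    refine (Pp_step s q hq M i x z).trans ?_
    rw [pow_succ, mul_comm (Pp s q 1 0 0 M ^ i), mul_assoc]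
    exact mul_le_mul_of_nonneg_left ih (Pp_nonneg s q hq _ _ _ _)

/-- (2) -/
theorem Pp_gr (hq : PV q) (M M' : ℕ) (z : V) : ∀ x : V,
    Pp s q 0 x z M' * gr s q M z z ≤ gr s q (M' + M) x z := by
  induction M' with
  | zero =>
    intro x
    rw [Pp_zero, zero_mul]
    exact gr_nonneg s q hq _ _ _
  | succ M' ih =>
    intro x
    by_cases h : x = z
    · subst h
      rw [Pp_eq0, one_mul]
      exact gr_mono s q hq (by omega) _ _
    · rw [Pp_ne s q 0 h, show M' + 1 + M = (M' + M) + 1 by ring, gr_succ, if_neg h, zero_add,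
        Finset.sum_mul]
      refine Finset.sum_le_sum fun e _ => ?_
      rw [mul_assoc]
      exact mul_le_mul_of_nonneg_left (ih _) (hq.1 e)

/-- (3) last exit -/
theorem Pp_last (M : ℕ) (z : V) : ∀ x : V,
    Pp s q 0 x z M = ∑ t ∈ Finset.range M, pt s q t x z * (1 - Pp s q 1 0 0 (M - t)) := by
  induction M with
  | zero =>
    intro x
    simp [Pp_zero]
  | succ M ih =>
    intro x
    rw [Finset.sum_range_succ']
    have h1 : ∑ t ∈ Finset.range M, pt s q (t + 1) x z * (1 - Pp s q 1 0 0 (M + 1 - (t + 1))) =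
        ∑ e, q e * Pp s q 0 (x + s e) z M := by
      simp only [ih, pt, Finset.mul_sum, Finset.sum_mul, Nat.add_sub_add_right]
      rw [Finset.sum_comm]
      refine Finset.sum_congr rfl fun e _ => Finset.sum_congr rfl fun t _ => ?_
      ring
    rw [h1]
    by_cases h : x = z
    · subst h
      have h2 : ∑ e, q e * Pp s q 0 (x + s e) x M = Pp s q 1 0 0 (M + 1) := by
        rw [← Pp_eqs, Pp_shift]
      rw [Pp_eq0, h2]
      simp [pt]
    · rw [Pp_ne s q 0 h]
      simp [pt, h]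

/-- the harmonic sum -/
theorem harm (N : ℕ) (hN : 1 ≤ N) : ∑ t ∈ Finset.range N, 1 / ((t : ℝ) + 1) ≤ 1 + Real.log N := by
  have h := harmonic_le_one_add_log N
  rw [harmonic] at h
  push_cast at h
  simpa [one_div] using h

/-- (4) -/
theorem gr_sq (hq : PV q) (C : ℝ) (hC : 0 ≤ C) (hpt : ∀ t x z, pt s q t x z ≤ C / ((t : ℝ) + 1))
    (B : Finset V) (N : ℕ) : ∑ z ∈ B, gr s q N 0 z ^ 2 ≤ 2 * C * N := by
  induction N with
  | zero => simp [gr]
  | succ N ih =>
    have h1 : ∀ z, gr s q (N + 1) 0 z = gr s q N 0 z + pt s q N 0 z := by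
      intro z
      unfold gr
      rw [Finset.sum_range_succ]
    have h2 : ∀ z ∈ B, gr s q (N + 1) 0 z ^ 2 ≤
        gr s q N 0 z ^ 2 + 2 * (C / ((N : ℝ) + 1)) * gr s q (N + 1) 0 z := by
      intro z _
      have a1 := pt_nonneg s q hq N 0 z
      have a2 := hpt N 0 z
      have a3 := gr_nonneg s q hq N 0 z
      have a4 := gr_nonneg s q hq (N + 1) 0 z
      have a5 : gr s q (N + 1) 0 z ^ 2 ≤ gr s q N 0 z ^ 2 + 2 * pt s q N 0 z * gr s q (N + 1) 0 z := by
        rw [h1 z]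
        nlinarith
      have a6 : pt s q N 0 z * gr s q (N + 1) 0 z ≤ C / ((N : ℝ) + 1) * gr s q (N + 1) 0 z :=
        mul_le_mul_of_nonneg_right a2 a4
      linarith
    have h3 : ∑ z ∈ B, gr s q (N + 1) 0 z ≤ (N : ℝ) + 1 := by
      unfold gr
      rw [Finset.sum_comm]
      calc ∑ t ∈ Finset.range (N + 1), ∑ z ∈ B, pt s q t 0 z
          ≤ ∑ t ∈ Finset.range (N + 1), (1 : ℝ) := Finset.sum_le_sum fun t _ => pt_sum s q hq B t 0
        _ = (N : ℝ) + 1 := by simp
    have h4 : (0 : ℝ) < (N : ℝ) + 1 := by positivity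
    calc ∑ z ∈ B, gr s q (N + 1) 0 z ^ 2
        ≤ ∑ z ∈ B, (gr s q N 0 z ^ 2 + 2 * (C / ((N : ℝ) + 1)) * gr s q (N + 1) 0 z) :=
          Finset.sum_le_sum h2
      _ = ∑ z ∈ B, gr s q N 0 z ^ 2 + 2 * (C / ((N : ℝ) + 1)) * ∑ z ∈ B, gr s q (N + 1) 0 z := by
          rw [Finset.sum_add_distrib, Finset.mul_sum]
      _ ≤ 2 * C * N + 2 * (C / ((N : ℝ) + 1)) * ((N : ℝ) + 1) :=
          add_le_add ih (mul_le_mul_of_nonneg_left h3 (by positivity))
      _ = 2 * C * ((N + 1 : ℕ) : ℝ) := by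
          push_cast
          field_simp

/-- the escape probability -/
theorem esc (hq : PV q) (C : ℝ) (hpt : ∀ t x z, pt s q t x z ≤ C / ((t : ℝ) + 1)) :
    ∃ A : ℝ, 1 ≤ A ∧ ∀ M : ℕ, 1 ≤ M →
      1 ≤ (1 - Pp s q 1 0 0 M) * (2 * C * (A * (1 + Real.log M))) := by
  have hC1 : 1 ≤ C := by
    have := hpt 0 0 0
    simpa [pt] using this
  set a : ℕ := ⌈2 * C⌉₊ + 2 with ha
  have ha2 : 2 * C ≤ (a : ℝ) - 2 := by
    rw [ha]
    push_cast
    have := Nat.le_ceil (2 * C)
    linarith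
  have ha1 : 1 ≤ a := by omega
  have hla : 0 ≤ Real.log a := Real.log_nonneg (by exact_mod_cast ha1)
  refine ⟨1 + Real.log a, by linarith, fun M hM => ?_⟩
  have hM1 : (1 : ℝ) ≤ M := by exact_mod_cast hM
  have hlM : 0 ≤ Real.log M := Real.log_nonneg hM1
  set M1 : ℕ := a * M with hM1def
  have hMM : M ≤ M1 := Nat.le_mul_of_pos_left M (by omega)
  have hM11 : 1 ≤ M1 := hM.trans hMM
  set ε : ℝ := 1 - Pp s q 1 0 0 M with hε
  have hε0 : 0 ≤ ε := by
    have := Pp_le_one s q hq M 1 0 0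
    linarith
  -- the last exit decomposition at time M1
  have h1 : (1 : ℝ) = ∑ t ∈ Finset.range M1, pt s q t 0 0 * (1 - Pp s q 1 0 0 (M1 - t)) := by
    rw [← Pp_last s q M1 0 0]
    obtain ⟨m, hm⟩ : ∃ m, M1 = m + 1 := ⟨M1 - 1, by omega⟩
    rw [hm, Pp_eq0]
  have h2 : ∀ t ∈ Finset.range M1, pt s q t 0 0 * (1 - Pp s q 1 0 0 (M1 - t)) ≤
      ε * pt s q t 0 0 + if M1 - M < t then C / ((M1 : ℝ) - M) else 0 := by
    intro t ht
    rw [Finset.mem_range] at ht
    have b1 := pt_nonneg s q hq t 0 0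
    have b2 := Pp_nonneg s q hq 1 0 0 (M1 - t)
    split_ifs with hc
    · have b3 : pt s q t 0 0 * (1 - Pp s q 1 0 0 (M1 - t)) ≤ pt s q t 0 0 := by nlinarith
      have b4 := hpt t 0 0
      have b5 : (M1 : ℝ) - M ≤ (t : ℝ) + 1 := by
        have : M1 ≤ M + t := by omega
        have : (M1 : ℝ) ≤ (M : ℝ) + t := by exact_mod_cast this
        linarith
      have b6 : (0 : ℝ) < (M1 : ℝ) - M := by
        have c1 : 2 * M ≤ M1 := Nat.mul_le_mul_right M (by omega)
        have c2 : (2 : ℝ) * M ≤ (M1 : ℝ) := by exact_mod_cast c1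
        linarith
      have b7 : C / ((t : ℝ) + 1) ≤ C / ((M1 : ℝ) - M) :=
        div_le_div_of_nonneg_left (by linarith) b6 b5
      have b8 : 0 ≤ ε * pt s q t 0 0 := mul_nonneg hε0 b1
      linarith
    · have b3 : Pp s q 1 0 0 M ≤ Pp s q 1 0 0 (M1 - t) := Pp_mono s q hq _ _ _ (by omega)
      have b4 : pt s q t 0 0 * (1 - Pp s q 1 0 0 (M1 - t)) ≤ pt s q t 0 0 * ε :=
        mul_le_mul_of_nonneg_left (by linarith) b1
      linarith
  have h3 : (∑ t ∈ Finset.range M1, if M1 - M < t then C / ((M1 : ℝ) - M) else 0) ≤ 1 / 2 := by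
    rw [← Finset.sum_filter, Finset.sum_const, nsmul_eq_mul]
    have c1 : ((Finset.range M1).filter (fun t => M1 - M < t)).card ≤ M := by
      have : (Finset.range M1).filter (fun t => M1 - M < t) ⊆ Finset.Ico (M1 - M) M1 := by
        intro t ht
        rw [Finset.mem_filter, Finset.mem_range] at ht
        rw [Finset.mem_Ico]
        omega
      have := Finset.card_le_card this
      rw [Nat.card_Ico] at this
      omega
    have c2 : (((Finset.range M1).filter (fun t => M1 - M < t)).card : ℝ) ≤ M := by exact_mod_cast c1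
    have c3 : (M1 : ℝ) - M = ((a : ℝ) - 1) * M := by
      rw [hM1def]
      push_cast
      ring
    have c4 : 2 * C ≤ (a : ℝ) - 1 := by linarith
    have c5 : 0 < ((a : ℝ) - 1) * M := by
      have : (0 : ℝ) < (a : ℝ) - 1 := by linarith
      positivity
    rw [c3]
    calc (((Finset.range M1).filter (fun t => M1 - M < t)).card : ℝ) * (C / (((a : ℝ) - 1) * M))
        ≤ M * (C / (((a : ℝ) - 1) * M)) := mul_le_mul_of_nonneg_right c2 (by positivity)
      _ ≤ 1 / 2 := by
          rw [← mul_div_assoc, div_le_iff₀ c5]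
          nlinarith
  have h4 : gr s q M1 0 0 ≤ C * ((1 + Real.log a) * (1 + Real.log M)) := by
    have d1 : gr s q M1 0 0 ≤ C * ∑ t ∈ Finset.range M1, 1 / ((t : ℝ) + 1) := by
      unfold gr
      rw [Finset.mul_sum]
      refine Finset.sum_le_sum fun t _ => ?_
      refine (hpt t 0 0).trans (le_of_eq ?_)
      ring
    have d2 : Real.log M1 = Real.log a + Real.log M := by
      rw [hM1def]
      push_cast
      rw [Real.log_mul (by positivity) (by positivity)]
    have d3 := harm M1 hM11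
    rw [d2] at d3
    have d4 : 1 + (Real.log a + Real.log M) ≤ (1 + Real.log a) * (1 + Real.log M) := by
      have := mul_nonneg hla hlM
      linarith [this, mul_add (1 + Real.log a) 1 (Real.log M), add_mul 1 (Real.log a) (Real.log M)]
    exact d1.trans (mul_le_mul_of_nonneg_left (d3.trans d4) (by linarith))
  have h5 : (1 : ℝ) ≤ ε * gr s q M1 0 0 + 1 / 2 := by
    calc (1 : ℝ) = ∑ t ∈ Finset.range M1, pt s q t 0 0 * (1 - Pp s q 1 0 0 (M1 - t)) := h1
      _ ≤ ∑ t ∈ Finset.range M1, (ε * pt s q t 0 0 + if M1 - M < t then C / ((M1 : ℝ) - M) else 0) :=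
          Finset.sum_le_sum h2
      _ = ε * gr s q M1 0 0 +
            ∑ t ∈ Finset.range M1, (if M1 - M < t then C / ((M1 : ℝ) - M) else 0) := by
          rw [Finset.sum_add_distrib, gr, Finset.mul_sum]
      _ ≤ _ := by linarith
  have h6 := mul_le_mul_of_nonneg_left h4 hε0
  linarith

end

end K2_aux

open K2_aux

theorem tK2 : S_K2 := by
  intro V E _ _ _ s q hq C c hc hpt hgr
  have hC1 : 1 ≤ C := by
    have := hpt 0 0 0
    simpa [pt] using this
  obtain ⟨A, hA1, hesc⟩ := esc s q hq C hpt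
  refine ⟨8 * C ^ 2 * A / c ^ 2, by positivity, fun M hM => ?_⟩
  intro B I
  have hM1 : (1 : ℝ) ≤ M := by exact_mod_cast hM
  have hlM : 0 ≤ Real.log M := Real.log_nonneg hM1
  set lg : ℝ := 1 + Real.log M with hlg
  have hlg0 : 0 < lg := by linarith
  set ρ : ℝ := Pp s q 1 0 0 M with hρ
  have hρ0 : 0 ≤ ρ := Pp_nonneg s q hq _ _ _ _
  have hρ1 : ρ ≤ 1 := Pp_le_one s q hq _ _ _ _
  have he := hesc M hM
  have hε : 0 < 1 - ρ := by
    by_contra h
    have h0 : 1 - ρ = 0 := by linarith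
    rw [← hρ, h0, zero_mul] at he
    linarith
  -- the sum over i
  have hi : ∀ z, ∑ i ∈ Finset.range I, (∑ t ∈ Finset.range M, vs s q t 0 z i) ^ 2 ≤
      Pp s q 0 0 z M ^ 2 / (1 - ρ) := by
    intro z
    have a1 : ∀ i ∈ Finset.range I, (∑ t ∈ Finset.range M, vs s q t 0 z i) ^ 2 ≤
        Pp s q 0 0 z M ^ 2 * ρ ^ i := by
      intro i _
      have b1 := Pp_pow s q hq M i 0 z
      have b2 := Pp_nonneg s q hq i 0 z M
      have b3 : Pp s q i 0 z M ^ 2 ≤ (ρ ^ i * Pp s q 0 0 z M) ^ 2 := pow_le_pow_left₀ b2 b1 2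
      have b4 : (ρ ^ i * Pp s q 0 0 z M) ^ 2 ≤ Pp s q 0 0 z M ^ 2 * ρ ^ i := by
        have c1 : ρ ^ i ≤ 1 := pow_le_one₀ hρ0 hρ1
        have c2 : 0 ≤ ρ ^ i := pow_nonneg hρ0 i
        have c3 : (ρ ^ i) ^ 2 ≤ ρ ^ i := by nlinarith
        rw [mul_pow, mul_comm]
        exact mul_le_mul_of_nonneg_left c3 (sq_nonneg _)
      exact b3.trans b4
    refine (Finset.sum_le_sum a1).trans ?_
    rw [← Finset.mul_sum, div_eq_mul_inv]
    refine mul_le_mul_of_nonneg_left ?_ (sq_nonneg _)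
    have hρ2 : ρ < 1 := by linarith
    rw [geom_sum_eq (by linarith : ρ ≠ 1)]
    rw [← neg_div_neg_eq, neg_sub, neg_sub, div_eq_mul_inv]
    have c2 : 0 ≤ ρ ^ I := pow_nonneg hρ0 I
    have c3 : 0 < (1 - ρ)⁻¹ := by positivity
    nlinarith
  -- the sum over z
  have hz : ∀ z, Pp s q 0 0 z M ^ 2 * (c * lg) ^ 2 ≤ gr s q (2 * M) 0 z ^ 2 := by
    intro z
    have a1 := Pp_gr s q hq M M z 0
    rw [gr_shift, ← two_mul] at a1
    have a2 := hgr M hM
    have a3 := Pp_nonneg s q hq 0 0 z M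
    rw [← mul_pow]
    refine pow_le_pow_left₀ (by positivity) ?_ 2
    exact (mul_le_mul_of_nonneg_left a2 a3).trans a1
  have hsq := gr_sq s q hq C (by linarith) hpt B (2 * M)
  push_cast at hsq
  have hcl : 0 < (c * lg) ^ 2 := by positivity
  have hsum : (∑ z ∈ B, Pp s q 0 0 z M ^ 2) * (c * lg) ^ 2 ≤ 4 * C * M := by
    rw [Finset.sum_mul]
    refine (Finset.sum_le_sum fun z _ => hz z).trans (hsq.trans (le_of_eq ?_))
    ring
  have hsum0 : 0 ≤ ∑ z ∈ B, Pp s q 0 0 z M ^ 2 := Finset.sum_nonneg fun _ _ => sq_nonneg _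
  calc ∑ z ∈ B, ∑ i ∈ Finset.range I, (∑ t ∈ Finset.range M, vs s q t 0 z i) ^ 2
      ≤ ∑ z ∈ B, Pp s q 0 0 z M ^ 2 / (1 - ρ) := Finset.sum_le_sum fun z _ => hi z
    _ = (∑ z ∈ B, Pp s q 0 0 z M ^ 2) / (1 - ρ) := by rw [Finset.sum_div]
    _ ≤ (∑ z ∈ B, Pp s q 0 0 z M ^ 2) * (2 * C * (A * lg)) := by
        rw [div_le_iff₀ hε, mul_assoc]
        have : 1 ≤ 2 * C * (A * lg) * (1 - ρ) := by
          rw [mul_comm]
          exact he
        calc ∑ z ∈ B, Pp s q 0 0 z M ^ 2 = (∑ z ∈ B, Pp s q 0 0 z M ^ 2) * 1 := (mul_one _).symm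
          _ ≤ _ := mul_le_mul_of_nonneg_left this hsum0
    _ ≤ (4 * C * M / (c * lg) ^ 2) * (2 * C * (A * lg)) := by
        refine mul_le_mul_of_nonneg_right ?_ (by positivity)
        rw [le_div_iff₀ hcl]
        exact hsum
    _ = 8 * C ^ 2 * A / c ^ 2 * (M / lg) := by
        field_simp
        ring

end MP0d3db7NS
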