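import Pool.Agent.Lib.MP_0d3db7.NS.Spec2

/-!
# MP_0d3db7_pr, theorem NS2, module K3: lower bound of the Green function in the plane
-/

set_option autoImplicit false

namespace MP0d3db7NS

open MeasureTheory ProbabilityTheory Filter Topology

namespace K3_aux

/-- transition probabilities are nonnegative -/
theorem pt_nonneg {V E : Type} [AddCommGroup V] [DecidableEq V] [Fintype E] (s : E → V)
    (q : E → ℝ) (hq : PV q) : ∀ (t : ℕ) (x z : V), 0 ≤ pt s q t x z
  | 0, x, z => by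
    unfold pt
    split_ifs <;> norm_num
  | t + 1, x, z => by
    unfold pt
    exact Finset.sum_nonneg fun e _ => mul_nonneg (hq.1 e) (pt_nonneg s q hq t _ _)

/-- translation -/
theorem pt_tr {V E : Type} [AddCommGroup V] [DecidableEq V] [Fintype E] (s : E → V)
    (q : E → ℝ) (a : V) : ∀ (t : ℕ) (x z : V), pt s q t (x + a) (z + a) = pt s q t x z
  | 0, x, z => by
    unfold pt
    simp only [add_left_inj]
  | t + 1, x, z => by
    unfold pt
    refine Finset.sum_congr rfl fun e _ => ?_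
    rw [add_right_comm, pt_tr s q a t]

/-- a lower bound by the paths through a finite set -/
theorem ck {V E : Type} [AddCommGroup V] [DecidableEq V] [Fintype E] (s : E → V)
    (q : E → ℝ) (hq : PV q) (B : Finset V) (u : ℕ) (z : V) : ∀ (t : ℕ) (x : V),
    ∑ y ∈ B, pt s q t x y * pt s q u y z ≤ pt s q (t + u) x z
  | 0, x => by
    rw [zero_add]
    have h1 : ∀ y ∈ B, pt s q 0 x y * pt s q u y z =
        if x = y then pt s q u x z else 0 := by
      intro y _
      have h0 : pt s q 0 x y = if x = y then 1 else 0 := rfl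
      rw [h0]
      split_ifs with h
      · rw [h, one_mul]
      · rw [zero_mul]
    rw [Finset.sum_congr rfl h1, Finset.sum_ite_eq]
    split_ifs
    · exact le_rfl
    · exact pt_nonneg s q hq u x z
  | t + 1, x => by
    have h1 : pt s q (t + 1 + u) x z = ∑ e, q e * pt s q (t + u) (x + s e) z := by
      rw [show t + 1 + u = (t + u) + 1 by ring]
      rfl
    have h2 : ∀ y ∈ B, pt s q (t + 1) x y * pt s q u y z =
        ∑ e, q e * (pt s q t (x + s e) y * pt s q u y z) := by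
      intro y _
      have h3 : pt s q (t + 1) x y = ∑ e, q e * pt s q t (x + s e) y := rfl
      rw [h3, Finset.sum_mul]
      exact Finset.sum_congr rfl fun e _ => by ring
    rw [h1, Finset.sum_congr rfl h2, Finset.sum_comm]
    refine Finset.sum_le_sum fun e _ => ?_
    rw [← Finset.mul_sum]
    exact mul_le_mul_of_nonneg_left (ck s q hq B u z t (x + s e)) (hq.1 e)

/-- the squared norm -/
noncomputable def nq (x : Fin 2 → ℤ) : ℝ := ∑ i, (x i : ℝ) ^ 2

theorem nq_nonneg (x : Fin 2 → ℤ) : 0 ≤ nq x := Finset.sum_nonneg fun _ _ => sq_nonneg _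

theorem st_sq (e : Dr 2) : ∑ i, ((st 2 e i : ℤ) : ℝ) ^ 2 = 1 := by
  obtain ⟨j, b⟩ := e
  unfold st
  rw [Finset.sum_eq_single j]
  · rw [Pi.single_eq_same]
    cases b <;> norm_num
  · intro i _ hi
    rw [Pi.single_eq_of_ne hi]
    norm_num
  · intro h
    exact absurd (Finset.mem_univ j) h

theorem nq_step (q : Dr 2 → ℝ) (hq : PV q) (hd : drift q = 0) (x : Fin 2 → ℤ) :
    ∑ e, q e * nq (x + st 2 e) = nq x + 1 := by
  have h1 : ∀ e : Dr 2, q e * nq (x + st 2 e) =
      q e * nq x + 2 * (∑ i, (x i : ℝ) * (q e * (st 2 e i : ℝ))) + q e := by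
    intro e
    have h2 : nq (x + st 2 e) = nq x + 2 * (∑ i, (x i : ℝ) * ((st 2 e i : ℤ) : ℝ)) +
        ∑ i, ((st 2 e i : ℤ) : ℝ) ^ 2 := by
      unfold nq
      rw [Finset.mul_sum, ← Finset.sum_add_distrib, ← Finset.sum_add_distrib]
      refine Finset.sum_congr rfl fun i _ => ?_
      rw [Pi.add_apply]
      push_cast
      ring
    rw [h2, st_sq]
    have h3 : ∑ i, (x i : ℝ) * (q e * ((st 2 e i : ℤ) : ℝ)) =
        q e * ∑ i, (x i : ℝ) * ((st 2 e i : ℤ) : ℝ) := by
      rw [Finset.mul_sum]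
      exact Finset.sum_congr rfl fun i _ => by ring
    rw [h3]
    ring
  rw [Finset.sum_congr rfl fun e _ => h1 e, Finset.sum_add_distrib, Finset.sum_add_distrib,
    ← Finset.sum_mul, hq.2, ← Finset.mul_sum, Finset.sum_comm]
  have h4 : ∀ i : Fin 2, ∑ e : Dr 2, (x i : ℝ) * (q e * ((st 2 e i : ℤ) : ℝ)) = 0 := by
    intro i
    rw [← Finset.mul_sum]
    have h5 : drift q i = 0 := by rw [hd]; rfl
    unfold drift at h5
    rw [h5, mul_zero]
  rw [Finset.sum_congr rfl fun i _ => h4 i]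
  simp

/-- the mass of a set -/
theorem mass (q : Dr 2 → ℝ) (hq : PV q) (hd : drift q = 0) (B : Finset (Fin 2 → ℤ)) (K : ℝ)
    (hK : 0 < K) (hB : ∀ y, y ∉ B → K ≤ nq y) : ∀ (t : ℕ) (x : Fin 2 → ℤ),
    1 - (nq x + t) / K ≤ ∑ y ∈ B, pt (st 2) q t x y
  | 0, x => by
    unfold pt
    rw [Finset.sum_ite_eq]
    split_ifs with h
    · have := nq_nonneg x
      have h1 : 0 ≤ (nq x + ((0 : ℕ) : ℝ)) / K := by
        push_cast
        positivity
      linarith
    · have h1 := hB x h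
      have h2 : 1 ≤ (nq x + ((0 : ℕ) : ℝ)) / K := by
        rw [le_div_iff₀ hK]
        push_cast
        linarith
      linarith
  | t + 1, x => by
    have h1 : ∑ y ∈ B, pt (st 2) q (t + 1) x y =
        ∑ e, q e * ∑ y ∈ B, pt (st 2) q t (x + st 2 e) y := by
      have h2 : ∀ y ∈ B, pt (st 2) q (t + 1) x y = ∑ e, q e * pt (st 2) q t (x + st 2 e) y :=
        fun _ _ => rfl
      rw [Finset.sum_congr rfl h2, Finset.sum_comm]
      exact Finset.sum_congr rfl fun e _ => by rw [Finset.mul_sum]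
    rw [h1]
    have h3 : ∀ e : Dr 2, q e * (1 - (nq (x + st 2 e) + t) / K) ≤
        q e * ∑ y ∈ B, pt (st 2) q t (x + st 2 e) y := fun e =>
      mul_le_mul_of_nonneg_left (mass q hq hd B K hK hB t _) (hq.1 e)
    refine le_trans (le_of_eq ?_) (Finset.sum_le_sum fun e _ => h3 e)
    have h4 : ∀ e : Dr 2, q e * (1 - (nq (x + st 2 e) + t) / K) =
        q e * (1 - t / K) - (1 / K) * (q e * nq (x + st 2 e)) := by
      intro e
      field_simp
      ring
    rw [Finset.sum_congr rfl fun e _ => h4 e, Finset.sum_sub_distrib, ← Finset.sum_mul, hq.2,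
      ← Finset.mul_sum, nq_step q hq hd x]
    push_cast
    field_simp
    ring

/-- reflection of a direction -/
def fl (e : Dr 2) : Dr 2 := (e.1, !e.2)

theorem fl_fl (e : Dr 2) : fl (fl e) = e := by
  obtain ⟨j, b⟩ := e
  unfold fl
  simp

theorem st_fl (e : Dr 2) : st 2 (fl e) = -st 2 e := by
  obtain ⟨j, b⟩ := e
  unfold st fl
  rw [← Pi.single_neg]
  cases b <;> simp

theorem q_fl (q : Dr 2 → ℝ) (hd : drift q = 0) (e : Dr 2) : q (fl e) = q e := by
  have h1 : ∀ i : Fin 2, q (i, true) = q (i, false) := by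
    intro i
    have h2 : drift q i = 0 := by rw [hd]; rfl
    unfold drift st at h2
    rw [Fintype.sum_prod_type, Finset.sum_eq_single i] at h2
    · simp at h2
      linarith
    · intro j _ hj
      simp [hj.symm]
    · intro h
      exact absurd (Finset.mem_univ i) h
  obtain ⟨j, b⟩ := e
  unfold fl
  cases b
  · exact h1 j
  · exact (h1 j).symm

theorem pt_neg (q : Dr 2 → ℝ) (hd : drift q = 0) : ∀ (t : ℕ) (x z : Fin 2 → ℤ),
    pt (st 2) q t (-x) (-z) = pt (st 2) q t x z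
  | 0, x, z => by
    unfold pt
    simp only [neg_inj]
  | t + 1, x, z => by
    have h1 : pt (st 2) q (t + 1) (-x) (-z) = ∑ e, q e * pt (st 2) q t (-x + st 2 e) (-z) := rfl
    have h2 : pt (st 2) q (t + 1) x z = ∑ e, q e * pt (st 2) q t (x + st 2 e) z := rfl
    rw [h1, h2]
    refine Finset.sum_nbij' fl fl (fun _ _ => Finset.mem_univ _) (fun _ _ => Finset.mem_univ _)
      (fun e _ => fl_fl e) (fun e _ => fl_fl e) (fun e _ => ?_)
    have h3 := pt_neg q hd t (-x + st 2 e) (-z)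
    rw [neg_add, neg_neg, neg_neg] at h3
    rw [q_fl q hd, st_fl, h3]

theorem pt_rev (q : Dr 2 → ℝ) (hd : drift q = 0) (t : ℕ) (y : Fin 2 → ℤ) :
    pt (st 2) q t y 0 = pt (st 2) q t 0 y := by
  have h1 := pt_tr (st 2) q (-y) t y 0
  rw [add_neg_cancel, zero_add] at h1
  have h2 := pt_neg q hd t 0 y
  rw [neg_zero] at h2
  rw [← h1, h2]

/-- lower bound at even times -/
theorem even (q : Dr 2 → ℝ) (hq : PV q) (hd : drift q = 0) (t : ℕ) (ht : 1 ≤ t) :
    1 / (68 * (t : ℝ)) ≤ pt (st 2) q (2 * t) 0 0 := by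
  let R : ℕ := Nat.sqrt (2 * t)
  let B : Finset (Fin 2 → ℤ) := Finset.Icc (fun _ => -(R : ℤ)) (fun _ => (R : ℤ))
  have hcard : B.card = (2 * R + 1) ^ 2 := by
    have h1 : B.card = ∏ _i : Fin 2, (Finset.Icc (-(R : ℤ)) (R : ℤ)).card := Pi.card_Icc _ _
    rw [h1, Finset.prod_const, Finset.card_univ, Fintype.card_fin, Int.card_Icc]
    congr 1
    omega
  have hR1 : R * R ≤ 2 * t := Nat.sqrt_le (2 * t)
  have hR2 : 2 * t < (R + 1) * (R + 1) := Nat.lt_succ_sqrt (2 * t)
  have hR3 : 1 ≤ R := by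
    by_contra h
    have : R = 0 := by omega
    rw [this] at hR2
    omega
  have hB : ∀ y, y ∉ B → (2 * t : ℝ) ≤ nq y := by
    intro y hy
    have h1 : ∃ i, (R : ℤ) + 1 ≤ |y i| := by
      by_contra hcon
      push Not at hcon
      refine hy ?_
      rw [Finset.mem_Icc]
      constructor
      · intro i
        have h2 := (abs_lt.mp (hcon i)).1
        change -(R : ℤ) ≤ y i
        omega
      · intro i
        have h2 := (abs_lt.mp (hcon i)).2
        change y i ≤ (R : ℤ)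
        omega
    obtain ⟨i, hi⟩ := h1
    have h2 : ((R : ℤ) + 1) ^ 2 ≤ (y i) ^ 2 := by
      rw [← sq_abs (y i)]
      exact pow_le_pow_left₀ (by positivity) hi 2
    have h3 : ((R : ℝ) + 1) ^ 2 ≤ ((y i : ℤ) : ℝ) ^ 2 := by exact_mod_cast h2
    have h4 : ((y i : ℤ) : ℝ) ^ 2 ≤ nq y :=
      Finset.single_le_sum (f := fun i => ((y i : ℤ) : ℝ) ^ 2) (fun _ _ => sq_nonneg _)
        (Finset.mem_univ i)
    have h5 : (2 * t : ℝ) < ((R : ℝ) + 1) * (R + 1) := by exact_mod_cast hR2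
    nlinarith
  have ht0 : (0 : ℝ) < t := by exact_mod_cast ht
  have hm := mass q hq hd B (2 * t) (by positivity) hB t 0
  have h0 : nq (0 : Fin 2 → ℤ) = 0 := by unfold nq; simp
  have h1 : (1 : ℝ) / 2 ≤ ∑ y ∈ B, pt (st 2) q t 0 y := by
    refine le_trans (le_of_eq ?_) hm
    rw [h0]
    field_simp
    ring
  have h2 := ck (st 2) q hq B t 0 t 0
  have h3 : ∑ y ∈ B, pt (st 2) q t 0 y * pt (st 2) q t y 0 = ∑ y ∈ B, pt (st 2) q t 0 y ^ 2 :=
    Finset.sum_congr rfl fun y _ => by rw [pt_rev q hd, sq]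
  rw [h3, ← two_mul] at h2
  have h4 : (∑ y ∈ B, pt (st 2) q t 0 y) ^ 2 ≤ B.card * ∑ y ∈ B, pt (st 2) q t 0 y ^ 2 :=
    sq_sum_le_card_mul_sum_sq
  have h5 : (B.card : ℝ) ≤ 17 * t := by
    rw [hcard]
    have h6 : (2 * R + 1) ^ 2 ≤ 17 * t := by nlinarith
    exact_mod_cast h6
  have h7 : 0 ≤ ∑ y ∈ B, pt (st 2) q t 0 y ^ 2 := Finset.sum_nonneg fun _ _ => sq_nonneg _
  have h8 : (1 : ℝ) / 4 ≤ 17 * t * ∑ y ∈ B, pt (st 2) q t 0 y ^ 2 := by
    calc (1 : ℝ) / 4 = (1 / 2) ^ 2 := by norm_num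
      _ ≤ (∑ y ∈ B, pt (st 2) q t 0 y) ^ 2 := pow_le_pow_left₀ (by norm_num) h1 2
      _ ≤ B.card * ∑ y ∈ B, pt (st 2) q t 0 y ^ 2 := h4
      _ ≤ _ := mul_le_mul_of_nonneg_right h5 h7
  rw [div_le_iff₀ (by positivity)]
  nlinarith

theorem odd_sum (q : Dr 2 → ℝ) (hq : PV q) (hd : drift q = 0) : ∀ m : ℕ,
    1 + (1 / 68) * ((harmonic m : ℚ) : ℝ) ≤ gr (st 2) q (2 * m + 1) 0 0
  | 0 => by
    unfold gr
    rw [Finset.sum_range_one]
    simp [pt]
  | m + 1 => by
    have ih := odd_sum q hq hd m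
    have h1 : gr (st 2) q (2 * (m + 1) + 1) 0 0 = gr (st 2) q (2 * m + 1) 0 0 +
        pt (st 2) q (2 * m + 1) 0 0 + pt (st 2) q (2 * (m + 1)) 0 0 := by
      unfold gr
      rw [show 2 * (m + 1) + 1 = (2 * m + 1) + 1 + 1 by ring, Finset.sum_range_succ,
        Finset.sum_range_succ]
      rfl
    have h2 := pt_nonneg (st 2) q hq (2 * m + 1) 0 0
    have h3 := even q hq hd (m + 1) (by omega)
    have h4 : ((harmonic (m + 1) : ℚ) : ℝ) = ((harmonic m : ℚ) : ℝ) + 1 / ((m : ℝ) + 1) := by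
      rw [harmonic_succ]
      push_cast
      rw [one_div]
    have h5 : 1 / (68 * (((m + 1 : ℕ) : ℝ))) = (1 / 68) * (1 / ((m : ℝ) + 1)) := by
      push_cast
      field_simp
    rw [h1, h4]
    rw [h5] at h3
    linarith

end K3_aux

open K3_aux in
/-- lower bound of the Green function -/
theorem tK3 : S_K3 := by
  intro q hq hd
  refine ⟨1 / 68, by norm_num, fun M hM => ?_⟩
  have h1 := odd_sum q hq hd ((M - 1) / 2)
  have h2 : gr (st 2) q (2 * ((M - 1) / 2) + 1) 0 0 ≤ gr (st 2) q M 0 0 := by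
    unfold gr
    refine Finset.sum_le_sum_of_subset_of_nonneg ?_ fun t _ _ => pt_nonneg (st 2) q hq t 0 0
    intro t ht
    rw [Finset.mem_range] at ht ⊢
    omega
  have h3 := log_add_one_le_harmonic ((M - 1) / 2)
  have h4 : Real.log M ≤ Real.log 2 + Real.log (((M - 1) / 2 + 1 : ℕ) : ℝ) := by
    rw [← Real.log_mul (by norm_num) (by positivity)]
    refine Real.log_le_log (by exact_mod_cast hM) ?_
    have : M ≤ 2 * ((M - 1) / 2 + 1) := by omega
    exact_mod_cast this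
  have h5 : Real.log 2 ≤ 1 := by
    have := Real.log_two_lt_d9
    linarith
  linarith

end MP0d3db7NS
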