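import Pool.Agent.Lib.MP_0d3db7.NS.Spec2

/-!
# MP_0d3db7_pr, theorem NS2, module Ki: the common cookies of two walks, all dimensions
-/

set_option autoImplicit false

namespace MP0d3db7NS

open MeasureTheory ProbabilityTheory Filter Topology

namespace Ki_aux

/-- a larger bound -/
theorem KB_mono {V E : Type} [AddCommGroup V] [DecidableEq V] [Fintype E] {s : E → V} {q : E → ℝ}
    {M : ℕ} {κ κ' : ℝ} (h : KB s q M κ) (hk : κ ≤ κ') : KB s q M κ' :=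
  fun B I => (h B I).trans hk

/-- the logarithm is smaller than the fourth root -/
theorem pow_log {x : ℝ} (hx : 1 ≤ x) : x ^ (3 / 4 : ℝ) ≤ 4 * (x / (1 + Real.log x)) := by
  have hx0 : 0 < x := by linarith
  have hl : 0 ≤ Real.log x := Real.log_nonneg hx
  have h1 : Real.log x ≤ 4 * (x ^ (1 / 4 : ℝ) - 1) := by
    have h2 := Real.log_le_sub_one_of_pos (Real.rpow_pos_of_pos hx0 (1 / 4 : ℝ))
    rw [Real.log_rpow hx0] at h2
    linarith
  have h3 : 1 + Real.log x ≤ 4 * x ^ (1 / 4 : ℝ) := by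
    have h4 : (1 : ℝ) ≤ x ^ (1 / 4 : ℝ) := Real.one_le_rpow hx (by norm_num)
    linarith
  have h5 : x ^ (3 / 4 : ℝ) * x ^ (1 / 4 : ℝ) = x := by
    rw [← Real.rpow_add hx0]
    norm_num
  have h6 : 0 ≤ x ^ (3 / 4 : ℝ) := Real.rpow_nonneg hx0.le _
  rw [← mul_div_assoc, le_div_iff₀ (by linarith)]
  calc x ^ (3 / 4 : ℝ) * (1 + Real.log x) ≤ x ^ (3 / 4 : ℝ) * (4 * x ^ (1 / 4 : ℝ)) :=
        mul_le_mul_of_nonneg_left h3 h6
    _ = 4 * (x ^ (3 / 4 : ℝ) * x ^ (1 / 4 : ℝ)) := by ring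
    _ = 4 * x := by rw [h5]

/-- the transient case -/
theorem trans_case {V E : Type} [AddCommGroup V] [DecidableEq V] [Fintype E] {s : E → V} {q : E → ℝ}
    (hK1 : S_K1) (hq : PV q) (h : Inp s q) :
    ∃ C : ℝ, 0 ≤ C ∧ ∀ M : ℕ, 1 ≤ M → KB s q M (C * (M / (1 + Real.log M))) := by
  obtain ⟨C, hC, h1⟩ := h
  refine ⟨4 * C, by linarith, fun M hM => ?_⟩
  have hM1 : (1 : ℝ) ≤ M := by exact_mod_cast hM
  refine KB_mono (hK1 s q hq M _ (h1 M hM).2.2.2) ?_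
  calc C * (M : ℝ) ^ (3 / 4 : ℝ) ≤ C * (4 * (M / (1 + Real.log M))) :=
        mul_le_mul_of_nonneg_left (pow_log hM1) hC
    _ = 4 * C * (M / (1 + Real.log M)) := by ring

end Ki_aux

open Ki_aux

theorem tKi (hIn : S_In) (hK1 : S_K1) (hSu : S_Su) (hSp : S_Sp) (hK2 : S_K2) (hK3 : S_K3) : S_Ki := by
  intro d q hq hdet hd
  by_cases hc : 3 ≤ d ∨ (d = 2 ∧ drift q ≠ 0)
  · exact trans_case hK1 hq (hIn d q hq hdet hc)
  · have hd2 : d = 2 := by
      by_contra h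
      exact hc (Or.inl (by omega))
    subst hd2
    have hdr : drift q = 0 := by
      by_contra h
      exact hc (Or.inr ⟨rfl, h⟩)
    obtain ⟨f0, g, hf0, hg, hli⟩ := hSp 2 q hq hdet
    obtain ⟨C, hC, h1⟩ := hSu (st 2) q hq 2 f0 g hf0 hg hli
    have h5 : ∀ t x z, pt (st 2) q t x z ≤ C / ((t : ℝ) + 1) := by
      intro t x z
      have h3 := h1 t x z
      have h4 : (-(((2 : ℕ) : ℝ) / 2)) = (-1 : ℝ) := by norm_num
      rw [h4, Real.rpow_neg_one, ← div_eq_mul_inv] at h3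
      exact h3
    obtain ⟨c, hc0, h6⟩ := hK3 q hq hdr
    exact hK2 (st 2) q hq C c hc0 h5 h6

end MP0d3db7NS
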