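import Pool.Agent.Lib.MP_0d3db7.NS.Spec2

/-!
# MP_0d3db7_pr, theorem NS2, module Lk: skip counts
-/

set_option autoImplicit false

set_option linter.unusedSectionVars false

namespace MP0d3db7NS

open MeasureTheory ProbabilityTheory Filter Topology

namespace Lk_aux

variable {V E : Type} [AddCommGroup V] [DecidableEq V] [Fintype E]

/-- the marks of the cookies `c`, when `r z` cookies of `z` were used -/
def sh (r : V → ℕ) {k : ℕ} (c : Fin k → (V × ℕ) × E) : Fin k → (V × ℕ) × E :=
  fun j => (((c j).1.1, (c j).1.2 - r (c j).1.1 - 1), (c j).2)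

theorem le_up (r : V → ℕ) (x z : V) : r z ≤ up r x z := by
  unfold up
  by_cases h : z = x
  · subst h
    rw [Function.update_self]
    omega
  · rw [Function.update_of_ne h]

/-- a used cookie -/
theorem phi_used (s : E → V) (q : E → ℝ) (f : V → ℝ) : ∀ (N k : ℕ) (x : V) (r : V → ℕ)
    (c : Fin k → (V × ℕ) × E), (∃ j, (c j).1.2 ≤ r (c j).1.1) → phi s q f N k x r c = 0 := by
  intro N
  induction N with
  | zero =>
    intro k x r c h
    cases k with
    | zero => exact absurd h.choose.2 (by omega)
    | succ k => rfl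
  | succ N ih =>
    intro k x r c h
    cases k with
    | zero => exact absurd h.choose.2 (by omega)
    | succ k =>
      obtain ⟨j, hj⟩ := h
      rw [phi]
      have h1 : ∑ e, q e * phi s q f N (k + 1) (x + s e) (up r x) c = 0 := by
        refine Finset.sum_eq_zero fun e _ => ?_
        rw [ih (k + 1) (x + s e) (up r x) c ⟨j, hj.trans (le_up r x _)⟩, mul_zero]
      rw [h1, zero_add]
      refine Finset.sum_eq_zero fun l _ => ?_
      by_cases hl : (c l).1 = (x, r x + 1)
      · rw [if_pos hl]
        have hjl : j ≠ l := by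
          intro hjl
          subst hjl
          rw [hl] at hj
          simp at hj
        obtain ⟨i, hi⟩ := Fin.exists_succAbove_eq hjl
        have h2 : ∃ i, (rmv l c i).1.2 ≤ up r x (rmv l c i).1.1 := by
          refine ⟨i, ?_⟩
          simp only [rmv]
          rw [hi]
          exact hj.trans (le_up r x _)
        rw [ih k _ _ _ h2]
        have h3 : ∑ e, q e * phi s q f N k (x + s e) (up r x) (rmv l c) = 0 :=
          Finset.sum_eq_zero fun e _ => by rw [ih k _ _ _ h2, mul_zero]
        rw [h3, sub_zero]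
      · rw [if_neg hl]

theorem mark_iff (r : V → ℕ) (x : V) (a : (V × ℕ) × E) (h : r a.1.1 < a.1.2) :
    ((a.1.1, a.1.2 - r a.1.1 - 1) : V × ℕ) = (x, 0) ↔ a.1 = (x, r x + 1) := by
  rw [Prod.mk.injEq, Prod.ext_iff]
  constructor
  · rintro ⟨h1, h2⟩
    rw [h1] at h h2
    exact ⟨h1, by show a.1.2 = r x + 1; omega⟩
  · rintro ⟨h1, h2⟩
    have h1' : a.1.1 = x := h1
    have h2' : a.1.2 = r x + 1 := h2
    refine ⟨h1', ?_⟩
    rw [h1', h2']
    omega

theorem up_lt (r : V → ℕ) (x : V) (a : (V × ℕ) × E) (h : r a.1.1 < a.1.2)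
    (hne : a.1 ≠ (x, r x + 1)) : up r x a.1.1 < a.1.2 := by
  unfold up
  by_cases hx : a.1.1 = x
  · rw [hx, Function.update_self]
    rw [hx] at h
    rcases Nat.lt_or_ge (r x + 1) a.1.2 with h1 | h1
    · exact h1
    · exfalso
      exact hne (Prod.ext hx (by show a.1.2 = r x + 1; omega))
  · rw [Function.update_of_ne hx]
    exact h

theorem sh_up (r : V → ℕ) (x : V) {k : ℕ} (c : Fin k → (V × ℕ) × E) :
    sh (up r x) c = fun j => dec x (sh r c j) := by
  funext j
  simp only [sh, dec, up]
  by_cases hx : (c j).1.1 = x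
  · rw [if_pos hx, hx, Function.update_self]
    congr 2
  · rw [if_neg hx, Function.update_of_ne hx]

theorem re_sum (q : E → ℝ) (ζ : ℂ) (F : E → ℂ) :
    (ζ * ∑ e, (q e : ℂ) * F e).re = ∑ e, q e * (ζ * F e).re := by
  rw [Finset.mul_sum, Complex.re_sum]
  refine Finset.sum_congr rfl fun e _ => ?_
  have h : ζ * ((q e : ℂ) * F e) = (q e : ℂ) * (ζ * F e) := by ring
  rw [h, Complex.re_ofReal_mul]

/-- the general statement -/
theorem phi_psi (s : E → V) (q : E → ℝ) (f : V → ℝ) (g : V → ℂ) (ζ : ℂ)
    (hf : ∀ x, f x = (ζ * g x).re) : ∀ (N k : ℕ) (x : V) (r : V → ℕ)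
    (c : Fin k → (V × ℕ) × E), Function.Injective (fun j => (c j).1) →
    (∀ j, r (c j).1.1 < (c j).1.2) →
    phi s q f N k x r c = (ζ * psi s q g N k x (sh r c)).re := by
  intro N
  induction N with
  | zero =>
    intro k x r c _ _
    cases k with
    | zero =>
      rw [phi, psi]
      exact hf x
    | succ k =>
      rw [phi, psi, mul_zero, Complex.zero_re]
  | succ N ih =>
    intro k x r c hinj hc
    cases k with
    | zero =>
      rw [phi, psi, re_sum]
      refine Finset.sum_congr rfl fun e _ => ?_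
      rw [ih 0 (x + s e) (up r x) c hinj (fun j => j.elim0)]
      congr 4
      funext j
      exact j.elim0
    | succ k =>
      have hmk : ∀ l, (sh r c l).1 = (x, 0) ↔ (c l).1 = (x, r x + 1) := fun l =>
        mark_iff r x (c l) (hc l)
      rw [phi, psi]
      by_cases hno : ∀ j, (c j).1 ≠ (x, r x + 1)
      · have hno' : ∀ j, (sh r c j).1 ≠ (x, 0) := fun j h => hno j ((hmk j).1 h)
        rw [if_pos hno', re_sum]
        have h1 : (∑ l : Fin (k + 1), if (c l).1 = (x, r x + 1) then
            phi s q f N k (x + s (c l).2) (up r x) (rmv l c) -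
              ∑ e, q e * phi s q f N k (x + s e) (up r x) (rmv l c) else 0) = 0 :=
          Finset.sum_eq_zero fun l _ => if_neg (hno l)
        rw [h1, add_zero]
        refine Finset.sum_congr rfl fun e _ => ?_
        rw [ih (k + 1) (x + s e) (up r x) c hinj (fun j => up_lt r x (c j) (hc j) (hno j)),
          sh_up]
      · push Not at hno
        obtain ⟨l0, hl0⟩ := hno
        have hno' : ¬ ∀ j, (sh r c j).1 ≠ (x, 0) := fun h => h l0 ((hmk l0).2 hl0)
        rw [if_neg hno']
        have h1 : ∑ e, q e * phi s q f N (k + 1) (x + s e) (up r x) c = 0 := by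
          refine Finset.sum_eq_zero fun e _ => ?_
          rw [phi_used s q f N (k + 1) (x + s e) (up r x) c ⟨l0, ?_⟩, mul_zero]
          rw [hl0]
          show r x + 1 ≤ up r x x
          unfold up
          rw [Function.update_self]
        rw [h1, zero_add, Finset.mul_sum, Complex.re_sum]
        refine Finset.sum_congr rfl fun l _ => ?_
        by_cases hl : (c l).1 = (x, r x + 1)
        · have hoth : ∀ j, j ≠ l → (c j).1 ≠ (x, r x + 1) := by
            intro j hj h
            exact hj (hinj (h.trans hl.symm))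
          have hcond : (sh r c l).1 = (x, 0) ∧ ∀ j, j ≠ l → (sh r c j).1 ≠ (x, 0) :=
            ⟨(hmk l).2 hl, fun j hj h => hoth j hj ((hmk j).1 h)⟩
          rw [if_pos hl, if_pos hcond]
          have hinj' : Function.Injective fun j => (rmv l c j).1 :=
            hinj.comp (Fin.succAbove_right_injective (p := l))
          have hc' : ∀ j, up r x (rmv l c j).1.1 < (rmv l c j).1.2 := fun j =>
            up_lt r x (c (l.succAbove j)) (hc _) (hoth _ (Fin.succAbove_ne l j))
          have hsh : sh (up r x) (rmv l c) = fun j => dec x (rmv l (sh r c) j) := by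
            rw [sh_up]
            rfl
          rw [mul_sub, Complex.sub_re, re_sum]
          congr 1
          · rw [ih k _ (up r x) (rmv l c) hinj' hc', hsh]
            rfl
          · refine Finset.sum_congr rfl fun e _ => ?_
            rw [ih k _ (up r x) (rmv l c) hinj' hc', hsh]
        · have hcond : ¬ ((sh r c l).1 = (x, 0) ∧ ∀ j, j ≠ l → (sh r c j).1 ≠ (x, 0)) :=
            fun h => hl ((hmk l).1 h.1)
          rw [if_neg hl, if_neg hcond, mul_zero, Complex.zero_re]

end Lk_aux

theorem tLk : S_Lk := by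
  intro V E _ _ _ s q f g ζ hf N k x c hinj
  rw [Lk_aux.phi_psi s q f g ζ hf N k x (fun _ => 0)
    (fun j => (((c j).1.1, (c j).1.2 + 1), (c j).2)) ?_ (fun j => Nat.succ_pos _)]
  · congr 2
  · intro i j h
    apply hinj
    simp only [Prod.mk.injEq] at h
    have h2 : (c i).1.2 = (c j).1.2 := by omega
    exact Prod.ext h.1 h2

end MP0d3db7NS
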