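import Pool.Agent.Lib.MP_0d3db7.NS.Spec

set_option autoImplicit false

namespace MP0d3db7NS

open MeasureTheory ProbabilityTheory Filter Topology

namespace Lm_aux

section fin

variable {E : Type} [Fintype E]

/-- the variance of `c` under `p` -/
noncomputable def vr (p c : E → ℝ) : ℝ := ∑ e, p e * c e ^ 2 - (∑ e, p e * c e) ^ 2

lemma sum_exp (p c : E → ℝ) (m : ℝ) : ∑ e, p e * (c e - m) ^ 2 =
    ∑ e, p e * c e ^ 2 - 2 * m * (∑ e, p e * c e) + m ^ 2 * ∑ e, p e := by
  rw [Finset.mul_sum, Finset.mul_sum, ← Finset.sum_sub_distrib, ← Finset.sum_add_distrib]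
  exact Finset.sum_congr rfl (fun e _ => by ring)

lemma vr_eq (p c : E → ℝ) (hp : ∑ e, p e = 1) :
    vr p c = ∑ e, p e * (c e - ∑ e', p e' * c e') ^ 2 := by
  rw [sum_exp, hp]
  unfold vr
  ring

lemma vr_nonneg (p c : E → ℝ) (hp : PV p) : 0 ≤ vr p c := by
  rw [vr_eq p c hp.2]
  exact Finset.sum_nonneg (fun e _ => mul_nonneg (hp.1 e) (sq_nonneg _))

lemma vr_zero (p c : E → ℝ) (hp : PV p) (h : vr p c = 0) (e : E) (he : p e ≠ 0) :
    c e = ∑ e', p e' * c e' := by
  rw [vr_eq p c hp.2,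
    Finset.sum_eq_zero_iff_of_nonneg (fun e _ => mul_nonneg (hp.1 e) (sq_nonneg _))] at h
  have h1 := h e (Finset.mem_univ e)
  rcases mul_eq_zero.1 h1 with h2 | h2
  · exact absurd h2 he
  · have h3 := pow_eq_zero_iff (two_ne_zero) |>.1 h2
    linarith

lemma vr_const (p c : E → ℝ) (hp : PV p) (a : ℝ) (h : ∀ e, p e ≠ 0 → c e = a) : vr p c = 0 := by
  have h1 : ∑ e, p e * c e ^ 2 = a ^ 2 := by
    rw [Finset.sum_congr rfl (g := fun e => p e * a ^ 2), ← Finset.sum_mul, hp.2, one_mul]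
    intro e _
    by_cases h0 : p e = 0
    · rw [h0, zero_mul, zero_mul]
    · rw [h e h0]
  have h2 : ∑ e, p e * c e = a := by
    rw [Finset.sum_congr rfl (g := fun e => p e * a), ← Finset.sum_mul, hp.2, one_mul]
    intro e _
    by_cases h0 : p e = 0
    · rw [h0, zero_mul, zero_mul]
    · rw [h e h0]
  unfold vr
  rw [h1, h2, sub_self]

lemma vr_shift (p c : E → ℝ) (hp : PV p) (Z : E → Prop) [DecidablePred Z]
    (hZ : ∀ e, Z e → p e = 0) (t m : ℝ) :
    vr p (fun e => if Z e then 0 else t * (c e - m)) = t ^ 2 * vr p c := by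
  have h1 : ∑ e, p e * (if Z e then 0 else t * (c e - m)) ^ 2 =
      t ^ 2 * (∑ e, p e * c e ^ 2 - 2 * m * ∑ e, p e * c e + m ^ 2 * ∑ e, p e) := by
    rw [Finset.mul_sum, Finset.mul_sum, ← Finset.sum_sub_distrib, ← Finset.sum_add_distrib,
      Finset.mul_sum]
    refine Finset.sum_congr rfl (fun e _ => ?_)
    by_cases h0 : Z e
    · rw [if_pos h0, hZ e h0]; ring
    · rw [if_neg h0]; ring
  have h2 : ∑ e, p e * (if Z e then 0 else t * (c e - m)) =
      t * (∑ e, p e * c e - m * ∑ e, p e) := by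
    rw [Finset.mul_sum, ← Finset.sum_sub_distrib, Finset.mul_sum]
    refine Finset.sum_congr rfl (fun e _ => ?_)
    by_cases h0 : Z e
    · rw [if_pos h0, hZ e h0]; ring
    · rw [if_neg h0]; ring
  unfold vr
  rw [h1, h2, hp.2]
  ring

lemma le_one (p : E → ℝ) (hp : PV p) (e : E) : p e ≤ 1 := by
  rw [← hp.2]
  exact Finset.single_le_sum (fun i _ => hp.1 i) (Finset.mem_univ e)

end fin

section prob

variable {E Ω : Type} [Fintype E] [MeasurableSpace Ω] (P : Measure Ω) [IsProbabilityMeasure P]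
  (X : Ω → E → ℝ) (q : E → ℝ)

lemma int1 (hX : Measurable X) (hp : ∀ o, PV (X o)) (e : E) : Integrable (fun o => X o e) P := by
  refine Integrable.of_bound ((measurable_pi_iff.1 hX e).aestronglyMeasurable) 1
    (Eventually.of_forall (fun o => ?_))
  rw [Real.norm_eq_abs, abs_of_nonneg ((hp o).1 e)]
  exact le_one _ (hp o) e

lemma int2 (hX : Measurable X) (hp : ∀ o, PV (X o)) (e e' : E) :
    Integrable (fun o => X o e * X o e') P := by
  refine Integrable.of_bound (((measurable_pi_iff.1 hX e).mul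
    (measurable_pi_iff.1 hX e')).aestronglyMeasurable) 1 (Eventually.of_forall (fun o => ?_))
  rw [Real.norm_eq_abs, abs_of_nonneg (mul_nonneg ((hp o).1 e) ((hp o).1 e'))]
  calc X o e * X o e' ≤ 1 * 1 :=
        mul_le_mul (le_one _ (hp o) e) (le_one _ (hp o) e') ((hp o).1 e') zero_le_one
    _ = 1 := one_mul 1

lemma sq_expand (p c : E → ℝ) :
    (∑ e, p e * c e) ^ 2 = ∑ e, ∑ e', (c e * c e') * (p e * p e') := by
  rw [sq, Finset.sum_mul_sum]
  exact Finset.sum_congr rfl (fun e _ => Finset.sum_congr rfl (fun e' _ => by ring))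

lemma intM (hX : Measurable X) (hp : ∀ o, PV (X o)) (c : E → ℝ) :
    Integrable (fun o => (∑ e, X o e * c e) ^ 2) P := by
  simp only [sq_expand]
  exact integrable_finsetSum _ (fun e _ => integrable_finsetSum _ (fun e' _ =>
    (int2 P X hX hp e e').const_mul _))

lemma intQ (hX : Measurable X) (hp : ∀ o, PV (X o)) (c : E → ℝ) :
    Integrable (fun o => ∑ e, X o e * c e ^ 2) P :=
  integrable_finsetSum _ (fun e _ => (int1 P X hX hp e).mul_const _)

lemma M_eq (hX : Measurable X) (hp : ∀ o, PV (X o)) (c : E → ℝ) :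
    ∫ o, (∑ e, X o e * c e) ^ 2 ∂P =
      ∑ e, ∑ e', (c e * c e') * ∫ o, X o e * X o e' ∂P := by
  simp only [sq_expand]
  rw [integral_finsetSum _ (fun e _ => integrable_finsetSum _ (fun e' _ =>
    (int2 P X hX hp e e').const_mul _))]
  refine Finset.sum_congr rfl (fun e _ => ?_)
  rw [integral_finsetSum _ (fun e' _ => (int2 P X hX hp e e').const_mul _)]
  exact Finset.sum_congr rfl (fun e' _ => integral_const_mul _ _)

lemma Q_eq (hX : Measurable X) (hp : ∀ o, PV (X o)) (hq : ∀ e, ∫ o, X o e ∂P = q e) (c : E → ℝ) :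
    ∫ o, ∑ e, X o e * c e ^ 2 ∂P = ∑ e, q e * c e ^ 2 := by
  rw [integral_finsetSum _ (fun e _ => (int1 P X hX hp e).mul_const _)]
  refine Finset.sum_congr rfl (fun e _ => ?_)
  rw [integral_mul_const, hq e]

lemma D_eq (hX : Measurable X) (hp : ∀ o, PV (X o)) (hq : ∀ e, ∫ o, X o e ∂P = q e) (c : E → ℝ) :
    ∫ o, vr (X o) c ∂P = ∑ e, q e * c e ^ 2 - ∫ o, (∑ e, X o e * c e) ^ 2 ∂P := by
  unfold vr
  rw [integral_sub (intQ P X hX hp c) (intM P X hX hp c), Q_eq P X q hX hp hq c]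

lemma D_cont (hX : Measurable X) (hp : ∀ o, PV (X o)) (hq : ∀ e, ∫ o, X o e ∂P = q e) :
    Continuous (fun c : E → ℝ => ∫ o, vr (X o) c ∂P) := by
  have h1 : (fun c : E → ℝ => ∫ o, vr (X o) c ∂P) = fun c => ∑ e, q e * c e ^ 2 -
      ∑ e, ∑ e', (c e * c e') * ∫ o, X o e * X o e' ∂P := by
    funext c
    rw [D_eq P X q hX hp hq c, M_eq P X hX hp c]
  rw [h1]
  fun_prop

lemma PVq (hX : Measurable X) (hp : ∀ o, PV (X o)) (hq : ∀ e, ∫ o, X o e ∂P = q e) : PV q := by
  constructor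
  · intro e
    rw [← hq e]
    exact integral_nonneg (fun o => (hp o).1 e)
  · simp only [← hq]
    rw [← integral_finsetSum _ (fun e _ => int1 P X hX hp e)]
    simp [fun o => (hp o).2]

lemma kern (hX : Measurable X) (hp : ∀ o, PV (X o)) (hq : ∀ e, ∫ o, X o e ∂P = q e)
    (hS : ∀ S : Finset E, 0 < ∑ e ∈ S, q e → ∑ e ∈ S, q e < 1 →
      ¬ ∀ᵐ o ∂P, (∑ e ∈ S, X o e = 0 ∨ ∑ e ∈ S, X o e = 1))
    (c : E → ℝ) (h : ∀ᵐ o ∂P, vr (X o) c = 0) : vr q c = 0 := by
  classical
  have hqp := PVq P X q hX hp hq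
  by_contra hne
  have he0 : ∃ e0, q e0 ≠ 0 := by
    by_contra h0
    push Not at h0
    have := hqp.2
    rw [Finset.sum_eq_zero (fun e _ => h0 e)] at this
    exact zero_ne_one this
  obtain ⟨e0, he0⟩ := he0
  set S : Finset E := Finset.univ.filter (fun e => c e = c e0) with hSdef
  have hpos : 0 < ∑ e ∈ S, q e := by
    have h1 : q e0 ≤ ∑ e ∈ S, q e :=
      Finset.single_le_sum (fun i _ => hqp.1 i) (by simp [hSdef])
    exact lt_of_lt_of_le (lt_of_le_of_ne (hqp.1 e0) (Ne.symm he0)) h1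
  have hlt : ∑ e ∈ S, q e < 1 := by
    by_contra hge
    push Not at hge
    apply hne
    apply vr_const q c hqp (c e0)
    intro e he
    by_contra hce
    have h1 : ∑ e ∈ S, q e + ∑ e ∈ Finset.univ.filter (fun e => ¬ c e = c e0), q e = 1 := by
      rw [hSdef, Finset.sum_filter_add_sum_filter_not]
      exact hqp.2
    have h2 : q e ≤ ∑ e ∈ Finset.univ.filter (fun e => ¬ c e = c e0), q e :=
      Finset.single_le_sum (fun i _ => hqp.1 i) (by simp [hce])
    have h3 : 0 < q e := lt_of_le_of_ne (hqp.1 e) (Ne.symm he)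
    linarith
  apply hS S hpos hlt
  filter_upwards [h] with o ho
  by_cases hm : ∑ e', X o e' * c e' = c e0
  · right
    have h1 : ∑ e ∈ S, X o e = ∑ e, X o e := by
      apply Finset.sum_subset (Finset.subset_univ _)
      intro e _ heS
      by_contra hXe
      have := vr_zero (X o) c (hp o) ho e hXe
      exact heS (by simp [hSdef, this, hm])
    rw [h1, (hp o).2]
  · left
    apply Finset.sum_eq_zero
    intro e he
    by_contra hXe
    have h1 := vr_zero (X o) c (hp o) ho e hXe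
    have h2 : c e = c e0 := by simpa [hSdef] using he
    exact hm (by rw [← h1, h2])

lemma main (hX : Measurable X) (hp : ∀ o, PV (X o)) (hq : ∀ e, ∫ o, X o e ∂P = q e)
    (hS : ∀ S : Finset E, 0 < ∑ e ∈ S, q e → ∑ e ∈ S, q e < 1 →
      ¬ ∀ᵐ o ∂P, (∑ e ∈ S, X o e = 0 ∨ ∑ e ∈ S, X o e = 1)) :
    ∃ δ : ℝ, 0 < δ ∧ δ ≤ 1 ∧ ∀ c : E → ℝ, δ * vr q c ≤ ∫ o, vr (X o) c ∂P := by
  classical
  have hqp := PVq P X q hX hp hq
  have hD0 : ∀ c, 0 ≤ ∫ o, vr (X o) c ∂P := fun c => integral_nonneg (fun o => vr_nonneg _ _ (hp o))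
  have hint : ∀ c, Integrable (fun o => vr (X o) c) P := fun c =>
    (intQ P X hX hp c).sub (intM P X hX hp c)
  set K : Set (E → ℝ) := Metric.sphere 0 1 ∩
    ({c | ∑ e, q e * c e = 0} ∩ ⋂ e : E, {c | (if q e = 0 then c e else 0) = 0}) with hK
  have hKmem : ∀ c, c ∈ K ↔ ‖c‖ = 1 ∧ ∑ e, q e * c e = 0 ∧ ∀ e, q e = 0 → c e = 0 := by
    intro c
    simp only [hK, Set.mem_inter_iff, mem_sphere_iff_norm, sub_zero, Set.mem_ofPred_eq,
      Set.mem_iInter]
    constructor
    · rintro ⟨h1, h2, h3⟩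
      refine ⟨h1, h2, fun e he => ?_⟩
      have := h3 e
      rwa [if_pos he] at this
    · rintro ⟨h1, h2, h3⟩
      refine ⟨h1, h2, fun e => ?_⟩
      by_cases he : q e = 0
      · rw [if_pos he, h3 e he]
      · rw [if_neg he]
  have hKc : IsCompact K := by
    refine (isCompact_sphere 0 1).inter_right (IsClosed.inter ?_ (isClosed_iInter (fun e => ?_)))
    · exact isClosed_eq (by fun_prop) continuous_const
    · by_cases he : q e = 0
      · simp only [he, if_true]
        exact isClosed_eq (continuous_apply e) continuous_const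
      · have : {c : E → ℝ | (if q e = 0 then c e else 0) = 0} = Set.univ := by
          ext c
          simp [he]
        rw [this]
        exact isClosed_univ
  have hKpos : ∀ c ∈ K, 0 < ∫ o, vr (X o) c ∂P := by
    intro c hc
    rw [hKmem] at hc
    obtain ⟨h1, h2, h3⟩ := hc
    refine lt_of_le_of_ne (hD0 c) (fun h0 => ?_)
    have h4 : ∀ᵐ o ∂P, vr (X o) c = 0 := by
      have := (integral_eq_zero_iff_of_nonneg (fun o => vr_nonneg _ _ (hp o)) (hint c)).1 h0.symm
      exact this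
    have h5 := kern P X q hX hp hq hS c h4
    have h6 : c = 0 := by
      funext e
      by_cases he : q e = 0
      · exact h3 e he
      · rw [vr_zero q c hqp h5 e he, h2]
        rfl
    rw [h6, norm_zero] at h1
    exact zero_ne_one h1
  have hδ : ∃ δ : ℝ, 0 < δ ∧ δ ≤ 1 ∧ ∀ c ∈ K, δ ≤ ∫ o, vr (X o) c ∂P := by
    by_cases hne : K.Nonempty
    · obtain ⟨c0, hc0, hmin⟩ := hKc.exists_isMinOn hne (D_cont P X q hX hp hq).continuousOn
      refine ⟨min (∫ o, vr (X o) c0 ∂P) 1, lt_min (hKpos c0 hc0) one_pos, min_le_right _ _,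
        fun c hc => le_trans (min_le_left _ _) ?_⟩
      exact hmin hc
    · rw [Set.not_nonempty_iff_eq_empty] at hne
      exact ⟨1, one_pos, le_rfl, fun c hc => by rw [hne] at hc; exact absurd hc (Set.notMem_empty c)⟩
  obtain ⟨δ, hδ0, hδ1, hδK⟩ := hδ
  refine ⟨δ, hδ0, hδ1, fun c => ?_⟩
  have hX0 : ∀ᵐ o ∂P, ∀ e, q e = 0 → X o e = 0 := by
    rw [ae_all_iff]
    intro e
    by_cases he : q e = 0
    · have h1 : ∫ o, X o e ∂P = 0 := by rw [hq e, he]
      have h2 := (integral_eq_zero_iff_of_nonneg (fun o => (hp o).1 e) (int1 P X hX hp e)).1 h1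
      filter_upwards [h2] with o ho _
      exact ho
    · exact Eventually.of_forall (fun o h => absurd h he)
  set m : ℝ := ∑ e, q e * c e with hm
  set c1 : E → ℝ := fun e => if q e = 0 then 0 else 1 * (c e - m) with hc1
  by_cases h10 : c1 = 0
  · have h1 : vr q c1 = 1 ^ 2 * vr q c := vr_shift q c hqp (fun e => q e = 0) (fun e h => h) 1 m
    have h2 : vr q c1 = 0 := by
      rw [h10]
      exact vr_const q 0 hqp 0 (fun e _ => rfl)
    rw [h2] at h1
    have h3 : vr q c = 0 := by linarith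
    rw [h3, mul_zero]
    exact hD0 c
  · set t : ℝ := ‖c1‖⁻¹ with ht
    have hn : 0 < ‖c1‖ := norm_pos_iff.2 h10
    have ht0 : 0 < t := inv_pos.2 hn
    set c2 : E → ℝ := fun e => if q e = 0 then 0 else t * (c e - m) with hc2
    have hc21 : c2 = t • c1 := by
      funext e
      simp only [hc2, hc1, Pi.smul_apply, smul_eq_mul]
      by_cases he : q e = 0
      · simp [he]
      · simp [he]
    have hK2 : c2 ∈ K := by
      rw [hKmem]
      refine ⟨?_, ?_, ?_⟩
      · rw [hc21, norm_smul, Real.norm_eq_abs, abs_of_pos ht0, ht, inv_mul_cancel₀ hn.ne']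
      · have h1 : ∑ e, q e * c2 e = t * (∑ e, q e * c e - m * ∑ e, q e) := by
          rw [Finset.mul_sum, ← Finset.sum_sub_distrib, Finset.mul_sum]
          refine Finset.sum_congr rfl (fun e _ => ?_)
          simp only [hc2]
          by_cases h0 : q e = 0
          · rw [if_pos h0, h0]; ring
          · rw [if_neg h0]; ring
        rw [h1, hqp.2, ← hm]
        ring
      · intro e he
        simp only [hc2, he, if_true]
    have hD2 : ∫ o, vr (X o) c2 ∂P = t ^ 2 * ∫ o, vr (X o) c ∂P := by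
      rw [← integral_const_mul]
      apply integral_congr_ae
      filter_upwards [hX0] with o ho
      exact vr_shift (X o) c (hp o) (fun e => q e = 0) ho t m
    have hV2 : vr q c2 = t ^ 2 * vr q c :=
      vr_shift q c hqp (fun e => q e = 0) (fun e h => h) t m
    have hV1 : vr q c2 ≤ 1 := by
      have hnc : ‖c2‖ = 1 := ((hKmem c2).1 hK2).1
      have h1 : ∑ e, q e * c2 e ^ 2 ≤ ∑ e, q e * 1 := by
        refine Finset.sum_le_sum (fun e _ => mul_le_mul_of_nonneg_left ?_ (hqp.1 e))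
        have h2 : |c2 e| ≤ 1 := by
          rw [← hnc]
          exact norm_le_pi_norm c2 e
        rw [← sq_abs]
        exact pow_le_one₀ (abs_nonneg _) h2
      rw [← Finset.sum_mul, hqp.2, one_mul] at h1
      unfold vr
      have := sq_nonneg (∑ e, q e * c2 e)
      linarith
    have h3 : t ^ 2 * (δ * vr q c) ≤ t ^ 2 * ∫ o, vr (X o) c ∂P := by
      calc t ^ 2 * (δ * vr q c) = δ * vr q c2 := by rw [hV2]; ring
        _ ≤ δ * 1 := mul_le_mul_of_nonneg_left hV1 hδ0.le
        _ = δ := mul_one δ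
        _ ≤ ∫ o, vr (X o) c2 ∂P := hδK c2 hK2
        _ = _ := hD2
    exact le_of_mul_le_mul_left h3 (by positivity)

end prob

end Lm_aux

theorem tLm : S_Lm := by
  intro E Ω _ _ P _ X q hX hp hq hS
  obtain ⟨δ, h0, h1, h2⟩ := Lm_aux.main P X q hX hp hq hS
  refine ⟨1 - δ, by linarith, by linarith, fun c => ?_⟩
  have h3 := h2 c
  rw [Lm_aux.D_eq P X q hX hp hq c] at h3
  unfold Lm_aux.vr at h3
  linarith

end MP0d3db7NS
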