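import Pool.Agent.Lib.MP_0d3db7.NS.Spec

/-!
# MP_0d3db7_pr, theorem NS: module Ma (cookies are used at most once)
-/

set_option autoImplicit false

namespace MP0d3db7NS

open MeasureTheory ProbabilityTheory Filter Topology

namespace Ma_aux

variable {V E : Type} [AddCommGroup V] [DecidableEq V] [Fintype E]

theorem cont (s : E → V) (Φ : List E → ℝ) (n : ℕ) : ∀ h : List E,
    Continuous (fun w : V × ℕ → E → ℝ => Ex s w Φ n h) := by
  induction n with
  | zero => intro h; exact continuous_const
  | succ n ih =>
    intro h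
    have : (fun w : V × ℕ → E → ℝ => Ex s w Φ (n + 1) h) =
        fun w => ∑ e, w (pos s h, vis s h) e * Ex s w Φ n (e :: h) := rfl
    rw [this]
    refine continuous_finsetSum _ fun e _ => ?_
    have h1 : Continuous fun w : V × ℕ → E → ℝ => w (pos s h, vis s h) e :=
      continuous_apply_apply (pos s h, vis s h) e
    exact h1.mul (ih _)

theorem U_upd (s : E → V) (f : V → ℝ) (z : V) (i : ℕ) (p : E → ℝ) (w : V × ℕ → E → ℝ) (n : ℕ) :
    ∀ (x : V) (r : V → ℕ), i ≤ r z →
      U s (Function.update w (z, i) p) f n x r = U s w f n x r := by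
  induction n with
  | zero => intro x r _; rfl
  | succ n ih =>
    intro x r hi
    show ∑ e, (Function.update w (z, i) p) (x, r x + 1) e *
        U s (Function.update w (z, i) p) f n (x + s e) (up r x) =
      ∑ e, w (x, r x + 1) e * U s w f n (x + s e) (up r x)
    have hne : (x, r x + 1) ≠ (z, i) := by
      intro h
      have h1 : x = z := congrArg Prod.fst h
      have h2 : r x + 1 = i := congrArg Prod.snd h
      subst h1
      omega
    have hup : i ≤ up r x z := by
      by_cases hx : z = x
      · subst hx
        simp only [up, Function.update_self]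
        omega
      · simp only [up, Function.update_of_ne hx]
        exact hi
    refine Finset.sum_congr rfl fun e _ => ?_
    rw [Function.update_of_ne hne, ih _ _ hup]

theorem Ex_upd (s : E → V) (Φ : List E → ℝ) (z : V) (i : ℕ) (p : E → ℝ) (w : V × ℕ → E → ℝ)
    (n : ℕ) : ∀ h : List E, i ≤ pv s z h →
      Ex s (Function.update w (z, i) p) Φ n h = Ex s w Φ n h := by
  induction n with
  | zero => intro h _; rfl
  | succ n ih =>
    intro h hi
    show ∑ e, (Function.update w (z, i) p) (pos s h, vis s h) e *
        Ex s (Function.update w (z, i) p) Φ n (e :: h) =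
      ∑ e, w (pos s h, vis s h) e * Ex s w Φ n (e :: h)
    have hne : (pos s h, vis s h) ≠ (z, i) := by
      intro hh
      have h1 : pos s h = z := congrArg Prod.fst hh
      have h2 : pv s (pos s h) h + 1 = i := congrArg Prod.snd hh
      rw [h1] at h2
      omega
    refine Finset.sum_congr rfl fun e _ => ?_
    have hle : i ≤ pv s z (e :: h) := le_trans hi (Nat.le_add_right _ _)
    rw [Function.update_of_ne hne, ih _ hle]

theorem dl_sum [DecidableEq E] (e : E) (g : E → ℝ) : ∑ a, dl e a * g a = g e := by
  rw [Finset.sum_eq_single e]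
  · simp [dl]
  · intro b _ hb
    simp [dl, hb]
  · intro h
    exact absurd (Finset.mem_univ _) h

theorem Ex_ma [DecidableEq E] (s : E → V) (Φ : List E → ℝ) (κ : V × ℕ) (w : V × ℕ → E → ℝ)
    (p : E → ℝ) (hp : ∑ e, p e = 1) (n : ℕ) : ∀ h : List E,
      Ex s (Function.update w κ p) Φ n h =
        ∑ e, p e * Ex s (Function.update w κ (dl e)) Φ n h := by
  induction n with
  | zero =>
    intro h
    show Φ h = ∑ e, p e * Φ h
    rw [← Finset.sum_mul, hp, one_mul]
  | succ n ih =>
    intro h
    show ∑ a, (Function.update w κ p) (pos s h, vis s h) a *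
        Ex s (Function.update w κ p) Φ n (a :: h) =
      ∑ e, p e * ∑ a, (Function.update w κ (dl e)) (pos s h, vis s h) a *
        Ex s (Function.update w κ (dl e)) Φ n (a :: h)
    by_cases hκ : κ = (pos s h, vis s h)
    · subst hκ
      have key : ∀ (q : E → ℝ) (a : E),
          Ex s (Function.update w (pos s h, vis s h) q) Φ n (a :: h) = Ex s w Φ n (a :: h) := by
        intro q a
        refine Ex_upd s Φ _ _ q w n (a :: h) ?_
        show pv s (pos s h) h + 1 ≤ pv s (pos s h) h + if pos s h = pos s h then 1 else 0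
        rw [if_pos rfl]
      simp only [Function.update_self, key]
      refine Finset.sum_congr rfl fun e _ => ?_
      rw [dl_sum e (fun a => Ex s w Φ n (a :: h))]
    · have hκ' : (pos s h, vis s h) ≠ κ := fun h' => hκ h'.symm
      simp only [Function.update_of_ne hκ', ih, Finset.mul_sum]
      rw [Finset.sum_comm]
      refine Finset.sum_congr rfl fun e _ => Finset.sum_congr rfl fun a _ => ?_
      ring

theorem Ex_bd (s : E → V) (Φ : List E → ℝ) (hΦ : ∀ h, |Φ h| ≤ 1) (w : V × ℕ → E → ℝ)
    (hw : ∀ κ, PV (w κ)) (n : ℕ) : ∀ h : List E, |Ex s w Φ n h| ≤ 1 := by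
  induction n with
  | zero => intro h; exact hΦ h
  | succ n ih =>
    intro h
    show |∑ e, w (pos s h, vis s h) e * Ex s w Φ n (e :: h)| ≤ 1
    refine (Finset.abs_sum_le_sum_abs _ _).trans ?_
    rw [← (hw (pos s h, vis s h)).2]
    refine Finset.sum_le_sum fun e _ => ?_
    rw [abs_mul, abs_of_nonneg ((hw _).1 e)]
    exact mul_le_of_le_one_right ((hw _).1 e) (ih _)

end Ma_aux

open Ma_aux in
/-- cookies are used at most once -/
theorem tMa : S_Ma := by
  intro V E _ _ _ _ s
  refine ⟨fun Φ n h => cont s Φ n h, fun f n x r z i p w hi => U_upd s f z i p w n x r hi,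
    fun Φ n h l κ _ w p hp => Ex_ma s Φ κ w p hp n h, fun Φ n h hΦ w hw => Ex_bd s Φ hΦ w hw n h⟩

end MP0d3db7NS
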