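import Pool.Agent.Lib.MP_0d3db7.NS.Spec

/-!
# MP_0d3db7_pr, theorem NS: the averaged law is a random walk
-/

set_option autoImplicit false

namespace MP0d3db7NS

open MeasureTheory ProbabilityTheory Filter Topology

theorem tMn (hSw : S_Sw) (hMa : S_Ma) (hDp : S_Dp) : S_Mn := by
  intro V E Ω _ _ _ _ _ _ s P ω q lam hC Φ n hΦ
  obtain ⟨B, hB⟩ := hDp s n
  obtain ⟨m1, _, m3, m4⟩ := hMa s
  set l : List (V × ℕ) := (B ×ˢ Finset.Icc 1 n).toList with hl0
  have hl : l.Nodup := Finset.nodup_toList _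
  have hmem : ∀ z ∈ B, ∀ i ∈ Finset.Icc 1 n, (z, i) ∈ l := by
    intro z hz i hi
    rw [hl0, Finset.mem_toList, Finset.mem_product]
    exact ⟨hz, hi⟩
  have hF : ∀ (inst : ∀ κ : V × ℕ, Decidable (κ ∈ l)) (o : Ω), Ex s (fun κ => ω κ o) Φ n [] =
      Ex s (fun κ => @ite _ (κ ∈ l) (inst κ) (ω κ o) q) Φ n [] := by
    intro inst o
    refine hB Φ _ _ fun z hz i hi => ?_
    rw [if_pos (hmem z hz i hi)]
  constructor
  · have h1 : Measurable (fun o => (fun κ => ω κ o : V × ℕ → E → ℝ)) :=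
      measurable_pi_lambda _ fun κ => hC.meas κ
    exact (m1 Φ n []).measurable.comp h1
  · have h2 := (hSw P ω q lam hC l (fun w => Ex s w Φ n []) hl (m1 Φ n []) (m4 Φ n [] hΦ)
      (m3 Φ n [] l)).1
    rw [← h2]
    exact integral_congr_ae (Eventually.of_forall fun o => hF _ o)

end MP0d3db7NS
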