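import Pool.Agent.Lib.MP_0d3db7.NS.Spec2

/-!
# MP_0d3db7_pr, theorem NS2, module Mx: maximal inequality for the averaged walk
-/

set_option autoImplicit false

set_option linter.unusedSectionVars false

namespace MP0d3db7NS

open MeasureTheory ProbabilityTheory Filter Topology

namespace Mx_aux

theorem exp_le (x : ℝ) : Real.exp x ≤ x + Real.exp (x ^ 2) := by
  rcases le_or_gt |x| 1 with h | h
  · have h1 := Real.abs_exp_sub_one_sub_id_le h
    have h2 := (abs_le.1 h1).2
    have h3 := Real.add_one_le_exp (x ^ 2)
    linarith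
  · rcases lt_abs.1 h with h | h
    · have h4 : Real.exp x ≤ Real.exp (x ^ 2) := Real.exp_le_exp.2 (by nlinarith)
      linarith
    · have h3 := Real.add_one_le_exp (x ^ 2)
      have h4 : Real.exp x ≤ 1 := Real.exp_le_one_iff.2 (by linarith)
      nlinarith

section gen

variable {V E : Type} [AddCommGroup V] [DecidableEq V] [Fintype E]

theorem Ex_mono (s : E → V) (q : E → ℝ) (hq : ∀ e, 0 ≤ q e) (Φ Ψ : List E → ℝ) :
    ∀ (n : ℕ) (h0 : List E), (∀ h, h.drop n = h0 → Φ h ≤ Ψ h) →
    Ex s (fun _ => q) Φ n h0 ≤ Ex s (fun _ => q) Ψ n h0 := by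
  intro n
  induction n with
  | zero => intro h0 h; exact h h0 rfl
  | succ n ih =>
    intro h0 h
    rw [Ex, Ex]
    refine Finset.sum_le_sum fun e _ => mul_le_mul_of_nonneg_left (ih (e :: h0) ?_) (hq e)
    intro h' hh'
    apply h
    have h1 : h'.drop (n + 1) = (h'.drop n).drop 1 := by rw [List.drop_drop]
    rw [h1, hh']
    rfl

theorem Ex_const (s : E → V) (q : E → ℝ) (hq : ∑ e, q e = 1) (c : ℝ) :
    ∀ (n : ℕ) (h0 : List E), Ex s (fun _ => q) (fun _ => c) n h0 = c := by
  intro n
  induction n with
  | zero => intro h0; rfl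
  | succ n ih =>
    intro h0
    rw [Ex]
    simp only [ih]
    rw [← Finset.sum_mul, hq, one_mul]

theorem Ex_time (s : E → V) (q : E → ℝ) (Φ : List E → ℝ) (L : ℕ) :
    ∀ (m : ℕ) (h0 : List E), Ex s (fun _ => q) Φ (m + L) h0 =
      Ex s (fun _ => q) (fun h => Ex s (fun _ => q) Φ L h) m h0 := by
  intro m
  induction m with
  | zero => intro h0; rw [Nat.zero_add]; rfl
  | succ m ih =>
    intro h0
    rw [Nat.succ_add, Ex, Ex]
    exact Finset.sum_congr rfl fun e _ => by rw [ih]

theorem Ex_sum (s : E → V) (q : E → ℝ) {J : Type} (S : Finset J) (Φ : J → List E → ℝ) :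
    ∀ (n : ℕ) (h0 : List E), Ex s (fun _ => q) (fun h => ∑ j ∈ S, Φ j h) n h0 =
      ∑ j ∈ S, Ex s (fun _ => q) (Φ j) n h0 := by
  intro n
  induction n with
  | zero => intro h0; rfl
  | succ n ih =>
    intro h0
    simp only [Ex]
    rw [Finset.sum_comm]
    refine Finset.sum_congr rfl fun e _ => ?_
    rw [ih, Finset.mul_sum]

end gen

section lat

variable {d : ℕ}

/-- the event for one coordinate and one sign -/
def ev (q : Dr d → ℝ) (i : Fin d) (σ : ℝ) (L : ℕ) (a y : ℝ) (h0 h : List (Dr d)) : Prop :=
  ∃ k ≤ L, a < y + σ * (((pos (st d) (h.drop k) i : ℤ) : ℝ) - ((pos (st d) h0 i : ℤ) : ℝ) -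
    ((L - k : ℕ) : ℝ) * drift q i)

theorem st_abs (e : Dr d) (i : Fin d) : |((st d e i : ℤ) : ℝ)| ≤ 1 := by
  unfold st
  by_cases h : i = e.1
  · subst h
    rw [Pi.single_eq_same]
    split_ifs <;> simp
  · rw [Pi.single_eq_of_ne h]
    simp

theorem drift_abs (q : Dr d → ℝ) (hq : PV q) (i : Fin d) : |drift q i| ≤ 1 := by
  unfold drift
  calc |∑ e, q e * ((st d e i : ℤ) : ℝ)| ≤ ∑ e, |q e * ((st d e i : ℤ) : ℝ)| :=
        Finset.abs_sum_le_sum_abs _ _
    _ ≤ ∑ e, q e := by
        refine Finset.sum_le_sum fun e _ => ?_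
        rw [abs_mul, abs_of_nonneg (hq.1 e)]
        exact mul_le_of_le_one_right (hq.1 e) (st_abs e i)
    _ = 1 := hq.2

theorem step (q : Dr d → ℝ) (hq : PV q) (i : Fin d) (σ : ℝ) (hσ : σ ^ 2 = 1) (η : ℝ) :
    ∑ e, q e * Real.exp (η * (σ * (((st d e i : ℤ) : ℝ) - drift q i))) ≤
      Real.exp (4 * η ^ 2) := by
  calc ∑ e, q e * Real.exp (η * (σ * (((st d e i : ℤ) : ℝ) - drift q i)))
      ≤ ∑ e, q e * (η * (σ * (((st d e i : ℤ) : ℝ) - drift q i)) + Real.exp (4 * η ^ 2)) := by
        refine Finset.sum_le_sum fun e _ => mul_le_mul_of_nonneg_left ?_ (hq.1 e)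
        refine (exp_le _).trans (by
          refine add_le_add le_rfl (Real.exp_le_exp.2 ?_)
          have h1 := abs_le.1 (st_abs e i)
          have h2 := abs_le.1 (drift_abs q hq i)
          have h3 : (((st d e i : ℤ) : ℝ) - drift q i) ^ 2 ≤ 4 := by
            have h4 : |((st d e i : ℤ) : ℝ) - drift q i| ≤ 2 := by
              rw [abs_le]
              constructor <;> linarith [h1.1, h1.2, h2.1, h2.2]
            calc (((st d e i : ℤ) : ℝ) - drift q i) ^ 2 =
                |((st d e i : ℤ) : ℝ) - drift q i| ^ 2 := (sq_abs _).symm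
              _ ≤ 2 ^ 2 := pow_le_pow_left₀ (abs_nonneg _) h4 2
              _ = 4 := by norm_num
          calc (η * (σ * (((st d e i : ℤ) : ℝ) - drift q i))) ^ 2 =
              σ ^ 2 * (η ^ 2 * (((st d e i : ℤ) : ℝ) - drift q i) ^ 2) := by ring
            _ = η ^ 2 * (((st d e i : ℤ) : ℝ) - drift q i) ^ 2 := by rw [hσ, one_mul]
            _ ≤ η ^ 2 * 4 := mul_le_mul_of_nonneg_left h3 (sq_nonneg η)
            _ = 4 * η ^ 2 := by ring)
    _ = η * σ * (∑ e, q e * ((st d e i : ℤ) : ℝ)) - η * σ * drift q i * ∑ e, q e +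
          Real.exp (4 * η ^ 2) * ∑ e, q e := by
        rw [Finset.mul_sum, Finset.mul_sum, Finset.mul_sum, ← Finset.sum_sub_distrib,
          ← Finset.sum_add_distrib]
        exact Finset.sum_congr rfl fun e _ => by ring
    _ = Real.exp (4 * η ^ 2) := by
        rw [hq.2]
        have h : ∑ e, q e * ((st d e i : ℤ) : ℝ) = drift q i := rfl
        rw [h]
        ring

open Classical in
theorem main (q : Dr d → ℝ) (hq : PV q) (i : Fin d) (σ : ℝ) (hσ : σ ^ 2 = 1) (a η : ℝ)
    (hη : 0 ≤ η) : ∀ (L : ℕ) (y : ℝ) (h0 : List (Dr d)),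
    Ex (st d) (fun _ => q) (fun h => if ev q i σ L a y h0 h then 1 else 0) L h0 ≤
      Real.exp (η * (y - a)) * Real.exp (4 * η ^ 2 * L) := by
  intro L
  have triv : ∀ (L : ℕ) (y : ℝ) (h0 : List (Dr d)), a < y →
      Ex (st d) (fun _ => q) (fun h => if ev q i σ L a y h0 h then 1 else 0) L h0 ≤
        Real.exp (η * (y - a)) * Real.exp (4 * η ^ 2 * L) := by
    intro L y h0 hy
    calc Ex (st d) (fun _ => q) (fun h => if ev q i σ L a y h0 h then 1 else 0) L h0
        ≤ Ex (st d) (fun _ => q) (fun _ => 1) L h0 := by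
          refine Ex_mono _ _ hq.1 _ _ _ _ fun h _ => ?_
          split_ifs
          · exact le_rfl
          · exact zero_le_one
      _ = 1 := Ex_const _ _ hq.2 _ _ _
      _ ≤ Real.exp (η * (y - a)) * Real.exp (4 * η ^ 2 * L) := by
          rw [← Real.exp_add, ← Real.exp_zero]
          refine Real.exp_le_exp.2 ?_
          have h1 : 0 ≤ η * (y - a) := mul_nonneg hη (by linarith)
          have h2 : 0 ≤ 4 * η ^ 2 * (L : ℝ) := by positivity
          linarith
  induction L with
  | zero =>
    intro y h0
    rcases lt_or_ge a y with hy | hy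
    · exact triv 0 y h0 hy
    · have hne : ¬ ev q i σ 0 a y h0 h0 := by
        rintro ⟨k, hk, h⟩
        have hk0 : k = 0 := by omega
        subst hk0
        simp only [List.drop_zero, Nat.sub_self, Nat.cast_zero, zero_mul, sub_self,
          mul_zero, add_zero] at h
        linarith
      show (if ev q i σ 0 a y h0 h0 then (1 : ℝ) else 0) ≤ _
      rw [if_neg hne]
      positivity
  | succ L ih =>
    intro y h0
    rcases lt_or_ge a y with hy | hy
    · exact triv (L + 1) y h0 hy
    · rw [Ex]
      calc ∑ e, q e * Ex (st d) (fun _ => q)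
            (fun h => if ev q i σ (L + 1) a y h0 h then 1 else 0) L (e :: h0)
          ≤ ∑ e, q e * (Real.exp (η * (y + σ * (((st d e i : ℤ) : ℝ) - drift q i) - a)) *
              Real.exp (4 * η ^ 2 * L)) := by
            refine Finset.sum_le_sum fun e _ => mul_le_mul_of_nonneg_left ?_ (hq.1 e)
            refine le_trans ?_ (ih (y + σ * (((st d e i : ℤ) : ℝ) - drift q i)) (e :: h0))
            refine Ex_mono _ _ hq.1 _ _ _ _ fun h hh => ?_
            by_cases hev : ev q i σ (L + 1) a y h0 h
            · have hev' : ev q i σ L a (y + σ * (((st d e i : ℤ) : ℝ) - drift q i))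
                  (e :: h0) h := by
                obtain ⟨k, hk, hk2⟩ := hev
                rcases Nat.lt_or_ge L k with hkL | hkL
                · exfalso
                  have hk3 : k = L + 1 := by omega
                  subst hk3
                  have h1 : h.drop (L + 1) = (h.drop L).drop 1 := by rw [List.drop_drop]
                  have h2 : (e :: h0).drop 1 = h0 := rfl
                  rw [h1, hh, h2] at hk2
                  simp only [Nat.sub_self, Nat.cast_zero, zero_mul, sub_self, mul_zero,
                    add_zero] at hk2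
                  linarith
                · refine ⟨k, hkL, ?_⟩
                  have h3 : ((L + 1 - k : ℕ) : ℝ) = ((L - k : ℕ) : ℝ) + 1 := by
                    have : L + 1 - k = (L - k) + 1 := by omega
                    rw [this]
                    push_cast
                    ring
                  have h4 : ((pos (st d) (e :: h0) i : ℤ) : ℝ) =
                      ((pos (st d) h0 i : ℤ) : ℝ) + ((st d e i : ℤ) : ℝ) := by
                    have : pos (st d) (e :: h0) i = pos (st d) h0 i + st d e i := rfl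
                    rw [this]
                    push_cast
                    ring
                  rw [h3] at hk2
                  rw [h4]
                  refine lt_of_lt_of_eq hk2 ?_
                  ring
              rw [if_pos hev, if_pos hev']
            · rw [if_neg hev]
              split_ifs
              · exact zero_le_one
              · exact le_rfl
        _ = Real.exp (η * (y - a)) * Real.exp (4 * η ^ 2 * L) *
              ∑ e, q e * Real.exp (η * (σ * (((st d e i : ℤ) : ℝ) - drift q i))) := by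
            rw [Finset.mul_sum]
            refine Finset.sum_congr rfl fun e _ => ?_
            have h5 : η * (y + σ * (((st d e i : ℤ) : ℝ) - drift q i) - a) =
                η * (y - a) + η * (σ * (((st d e i : ℤ) : ℝ) - drift q i)) := by ring
            rw [h5, Real.exp_add]
            ring
        _ ≤ Real.exp (η * (y - a)) * Real.exp (4 * η ^ 2 * L) * Real.exp (4 * η ^ 2) :=
            mul_le_mul_of_nonneg_left (step q hq i σ hσ η) (by positivity)
        _ = Real.exp (η * (y - a)) * Real.exp (4 * η ^ 2 * (L + 1 : ℕ)) := by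
            rw [mul_assoc, ← Real.exp_add (4 * η ^ 2 * L)]
            congr 2
            push_cast
            ring

end lat

end Mx_aux

open Mx_aux in
theorem tMx : S_Mx := by
  classical
  intro d q hq n L a hL ha
  obtain ⟨m, rfl⟩ : ∃ m, n = m + L := ⟨n - L, by omega⟩
  -- one coordinate, one sign
  have one : ∀ (i : Fin d) (σ : ℝ), σ ^ 2 = 1 →
      Ex (st d) (fun _ => q) (fun h => if ev q i σ L a 0 (h.drop L) h then 1 else 0) (m + L) [] ≤
        Real.exp (-(a ^ 2 / (16 * ((L : ℝ) + 1)))) := by
    intro i σ hσ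
    rw [Ex_time]
    have hη : 0 ≤ a / (8 * ((L : ℝ) + 1)) := by positivity
    have h1 : ∀ h0 : List (Dr d),
        Ex (st d) (fun _ => q) (fun h => if ev q i σ L a 0 (h.drop L) h then 1 else 0) L h0 ≤
          Real.exp (-(a ^ 2 / (16 * ((L : ℝ) + 1)))) := by
      intro h0
      calc Ex (st d) (fun _ => q) (fun h => if ev q i σ L a 0 (h.drop L) h then 1 else 0) L h0
          ≤ Ex (st d) (fun _ => q) (fun h => if ev q i σ L a 0 h0 h then 1 else 0) L h0 := by
            refine Ex_mono _ _ hq.1 _ _ _ _ fun h hh => ?_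
            rw [hh]
        _ ≤ Real.exp (a / (8 * ((L : ℝ) + 1)) * (0 - a)) *
              Real.exp (4 * (a / (8 * ((L : ℝ) + 1))) ^ 2 * L) :=
            main q hq i σ hσ a _ hη L 0 h0
        _ ≤ Real.exp (-(a ^ 2 / (16 * ((L : ℝ) + 1)))) := by
            rw [← Real.exp_add]
            refine Real.exp_le_exp.2 ?_
            have hL1 : (0 : ℝ) < (L : ℝ) + 1 := by positivity
            have h2 : 4 * (a / (8 * ((L : ℝ) + 1))) ^ 2 * L ≤
                4 * (a / (8 * ((L : ℝ) + 1))) ^ 2 * ((L : ℝ) + 1) := by
              refine mul_le_mul_of_nonneg_left (by linarith) (by positivity)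
            have h3 : 4 * (a / (8 * ((L : ℝ) + 1))) ^ 2 * ((L : ℝ) + 1) =
                a ^ 2 / (16 * ((L : ℝ) + 1)) := by
              field_simp
              ring
            have h4 : a / (8 * ((L : ℝ) + 1)) * (0 - a) =
                -(2 * (a ^ 2 / (16 * ((L : ℝ) + 1)))) := by
              field_simp
              ring
            rw [h4]
            linarith
    calc Ex (st d) (fun _ => q) (fun h => Ex (st d) (fun _ => q)
          (fun h => if ev q i σ L a 0 (h.drop L) h then 1 else 0) L h) m []
        ≤ Ex (st d) (fun _ => q)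
            (fun _ => Real.exp (-(a ^ 2 / (16 * ((L : ℝ) + 1))))) m [] :=
          Ex_mono _ _ hq.1 _ _ _ _ fun h _ => h1 h
      _ = Real.exp (-(a ^ 2 / (16 * ((L : ℝ) + 1)))) := Ex_const _ _ hq.2 _ _ _
  calc QB q (fun _ => q) (m + L) L a
      ≤ Ex (st d) (fun _ => q) (fun h => ∑ j : Fin d × Bool,
          if ev q j.1 (if j.2 then 1 else -1) L a 0 (h.drop L) h then 1 else 0) (m + L) [] := by
        unfold QB
        refine Ex_mono _ _ hq.1 _ _ _ _ fun h _ => ?_
        have hnn : ∀ j ∈ (Finset.univ : Finset (Fin d × Bool)), (0 : ℝ) ≤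
            if ev q j.1 (if j.2 then 1 else -1) L a 0 (h.drop L) h then 1 else 0 := by
          intro j _
          split_ifs <;> norm_num
        by_cases hb : Bad q L a h
        · rw [if_pos hb]
          obtain ⟨k, hk, i, hi⟩ := hb
          rcases lt_abs.1 hi with h1 | h1
          · have h2 : ev q i (if true then 1 else -1) L a 0 (h.drop L) h := by
              refine ⟨k, hk, ?_⟩
              simp only [if_true, one_mul, zero_add]
              exact h1
            refine le_trans ?_ (Finset.single_le_sum hnn (Finset.mem_univ (i, true)))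
            rw [if_pos h2]
          · have h2 : ev q i (if false then 1 else -1) L a 0 (h.drop L) h := by
              refine ⟨k, hk, ?_⟩
              simp only [Bool.false_eq_true, if_false, neg_mul, one_mul, zero_add]
              exact h1
            refine le_trans ?_ (Finset.single_le_sum hnn (Finset.mem_univ (i, false)))
            rw [if_pos h2]
        · rw [if_neg hb]
          exact Finset.sum_nonneg hnn
    _ = ∑ j : Fin d × Bool, Ex (st d) (fun _ => q) (fun h =>
          if ev q j.1 (if j.2 then 1 else -1) L a 0 (h.drop L) h then 1 else 0) (m + L) [] :=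
        Ex_sum _ _ _ _ _ _
    _ ≤ ∑ _j : Fin d × Bool, Real.exp (-(a ^ 2 / (16 * ((L : ℝ) + 1)))) := by
        refine Finset.sum_le_sum fun j _ => one j.1 _ ?_
        split_ifs <;> norm_num
    _ = 2 * d * Real.exp (-(a ^ 2 / (16 * ((L : ℝ) + 1)))) := by
        rw [Finset.sum_const, Finset.card_univ, Fintype.card_prod, Fintype.card_fin,
          Fintype.card_bool, nsmul_eq_mul]
        push_cast
        ring

end MP0d3db7NS
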