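import Pool.Agent.Lib.MP_0d3db7.NS.Spec

/-!
# MP_0d3db7_pr, theorem NS: path sums (helper2)
-/

set_option autoImplicit false

namespace MP0d3db7NS

open MeasureTheory ProbabilityTheory Filter Topology

namespace Pa_aux

variable {V E : Type} [AddCommGroup V] [DecidableEq V] [Fintype E] (s : E → V)
  (w : V × ℕ → E → ℝ)

theorem ex_zero (Φ : List E → ℝ) (h : List E) : Ex s w Φ 0 h = Φ h := rfl

theorem ex_succ (Φ : List E → ℝ) (n : ℕ) (h : List E) :
    Ex s w Φ (n + 1) h = ∑ e, w (pos s h, vis s h) e * Ex s w Φ n (e :: h) := rfl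

/-- the last step first -/
theorem ex_last (Φ : List E → ℝ) (n : ℕ) : ∀ h : List E, Ex s w Φ (n + 1) h =
    Ex s w (fun h => ∑ e, w (pos s h, vis s h) e * Φ (e :: h)) n h := by
  induction n with
  | zero => intro h; rfl
  | succ n ih =>
    intro h
    rw [ex_succ, ex_succ]
    exact Finset.sum_congr rfl fun e _ => by rw [ih]

theorem quench (n : ℕ) : ∀ Φ : List E → ℝ, quenchE s w n Φ = Ex s w Φ n [] := by
  induction n with
  | zero =>
    intro Φ
    unfold quenchE
    rw [Fintype.sum_unique]
    simp [wt, Ex]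
  | succ n ih =>
    intro Φ
    rw [ex_last, ← ih]
    unfold quenchE
    rw [← (Fin.consEquiv (fun _ : Fin (n + 1) => E)).sum_comp, Fintype.sum_prod_type_right]
    refine Finset.sum_congr rfl fun t _ => ?_
    rw [Finset.mul_sum]
    refine Finset.sum_congr rfl fun e _ => ?_
    have h1 : List.ofFn ((Fin.consEquiv (fun _ : Fin (n + 1) => E)) (e, t)) =
        e :: List.ofFn t := by
      change List.ofFn (Fin.cons e t : Fin (n + 1) → E) = _
      rw [List.ofFn_cons]
    rw [h1]
    change wt s w (List.ofFn t) * w (pos s (List.ofFn t), vis s (List.ofFn t)) e *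
      Φ (e :: List.ofFn t) = _
    ring

theorem ex_U (f : V → ℝ) (n : ℕ) : ∀ h : List E, Ex s w (fun h => f (pos s h)) n h =
    U s w f n (pos s h) (fun z => pv s z h) := by
  induction n with
  | zero => intro h; rfl
  | succ n ih =>
    intro h
    rw [ex_succ]
    change _ = ∑ e, w (pos s h, pv s (pos s h) h + 1) e *
      U s w f n (pos s h + s e) (up (fun z => pv s z h) (pos s h))
    refine Finset.sum_congr rfl fun e _ => ?_
    rw [ih]
    have h1 : (fun z => pv s z (e :: h)) = up (fun z => pv s z h) (pos s h) := by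
      funext z
      change pv s z h + (if pos s h = z then 1 else 0) =
        Function.update (fun z => pv s z h) (pos s h) (pv s (pos s h) h + 1) z
      by_cases hz : z = pos s h
      · subst hz
        rw [Function.update_self, if_pos rfl]
      · rw [Function.update_of_ne hz, if_neg (fun h2 => hz h2.symm), add_zero]
    rw [h1]
    rfl

theorem ex_lin (Φ Ψ : List E → ℝ) (a b : ℝ) (n : ℕ) : ∀ h : List E,
    Ex s w (fun h => a * Φ h + b * Ψ h) n h = a * Ex s w Φ n h + b * Ex s w Ψ n h := by
  induction n with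
  | zero => intro h; rfl
  | succ n ih =>
    intro h
    rw [ex_succ, ex_succ, ex_succ, Finset.mul_sum, Finset.mul_sum, ← Finset.sum_add_distrib]
    refine Finset.sum_congr rfl fun e _ => ?_
    rw [ih]
    ring

theorem ex_mono (hw : ∀ κ, PV (w κ)) (Φ Ψ : List E → ℝ) (n : ℕ) : ∀ h : List E,
    (∀ h' : List E, h'.length = h.length + n → Φ h' ≤ Ψ h') → Ex s w Φ n h ≤ Ex s w Ψ n h := by
  induction n with
  | zero =>
    intro h hΦ
    exact hΦ h (by simp)
  | succ n ih =>
    intro h hΦ
    rw [ex_succ, ex_succ]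
    refine Finset.sum_le_sum fun e _ => ?_
    refine mul_le_mul_of_nonneg_left (ih (e :: h) fun h' hh' => hΦ h' ?_) ((hw _).1 e)
    rw [hh', List.length_cons]
    omega

theorem ex_const (hw : ∀ κ, PV (w κ)) (c : ℝ) (n : ℕ) : ∀ h : List E,
    Ex s w (fun _ => c) n h = c := by
  induction n with
  | zero => intro h; rfl
  | succ n ih =>
    intro h
    rw [ex_succ, Finset.sum_congr rfl fun e _ => by rw [ih (e :: h)], ← Finset.sum_mul,
      (hw _).2, one_mul]

theorem ex_drop (hw : ∀ κ, PV (w κ)) (k : ℕ) : ∀ (Φ : List E → ℝ) (h : List E),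
    Ex s w (fun h => Φ (h.drop k)) k h = Φ h := by
  induction k with
  | zero => intro Φ h; rfl
  | succ k ih =>
    intro Φ h
    rw [ex_succ]
    have h1 : (fun h : List E => Φ (h.drop (k + 1))) = fun h => (fun h => Φ (h.drop 1)) (h.drop k) := by
      funext h
      change _ = Φ ((h.drop k).drop 1)
      rw [List.drop_drop]
    rw [h1, Finset.sum_congr rfl fun e _ => by rw [ih (fun h => Φ (h.drop 1)) (e :: h)]]
    change ∑ e, w (pos s h, vis s h) e * Φ h = Φ h
    rw [← Finset.sum_mul, (hw _).2, one_mul]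

theorem ex_add (Φ : List E → ℝ) (k n : ℕ) : ∀ h : List E,
    Ex s w Φ (n + k) h = Ex s w (fun h => Ex s w Φ k h) n h := by
  induction n with
  | zero =>
    intro h
    rw [Nat.zero_add]
    rfl
  | succ n ih =>
    intro h
    rw [show n + 1 + k = (n + k) + 1 by omega, ex_succ, ex_succ]
    exact Finset.sum_congr rfl fun e _ => by rw [ih]

end Pa_aux

theorem tPa : S_Pa := by
  intro V E _ _ _ s w
  refine ⟨fun Φ n => Pa_aux.quench s w n Φ, fun f n h => Pa_aux.ex_U s w f n h,
    fun Φ Ψ a b n h => Pa_aux.ex_lin s w Φ Ψ a b n h,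
    fun hw Φ Ψ n h hΦ => Pa_aux.ex_mono s w hw Φ Ψ n h hΦ,
    fun hw c n h => Pa_aux.ex_const s w hw c n h, fun hw Φ n k => ?_⟩
  rw [Pa_aux.ex_add]
  have h1 : (fun h : List E => Ex s w (fun h => Φ (h.drop k)) k h) = Φ := by
    funext h
    exact Pa_aux.ex_drop s w hw k Φ h
  rw [h1]

end MP0d3db7NS
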