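import Pool.Agent.Lib.MP_0d3db7.NS.Spec2
import Pool.Agent.Lib.MP_0d3db7.NS.Sw

/-!
# MP_0d3db7_pr, theorem NS2, module Pd: the probability of a deviation (helper76)
-/

set_option autoImplicit false

namespace MP0d3db7NS

open MeasureTheory ProbabilityTheory Filter Topology

namespace Pd_aux

section

variable {ι E : Type} [DecidableEq ι] [Fintype E] [DecidableEq E]

theorem Cs_zero (q : E → ℝ) (l : List ι) : ∀ F : (ι → E → ℝ) → ℝ,
    Cs q l 0 F = F (fun _ => q) ^ 2 := by
  induction l with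
  | nil => intro F; simp [Cs]
  | cons κ l ih =>
    intro F
    rw [Cs, ih]
    have h : Function.update (fun _ : ι => q) κ q = fun _ => q := by
      exact Function.update_eq_self κ (fun _ : ι => q)
    simp [sb, h]

theorem Cs_sub (q : E → ℝ) (c : ℝ) (l : List ι) : ∀ (k : ℕ) (F : (ι → E → ℝ) → ℝ),
    Cs q l (k + 1) (fun w => F w - c) = Cs q l (k + 1) F := by
  induction l with
  | nil => intro k F; simp [Cs]
  | cons κ l ih =>
    intro k F
    rw [Cs, Cs]
    have h1 : sb (fun w => F w - c) κ q = fun w => sb F κ q w - c := rfl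
    rw [h1, ih]
    have h2 : ∀ e, (fun w => sb (fun w => F w - c) κ (dl e) w - (fun w => sb F κ q w - c) w) =
        fun w => sb F κ (dl e) w - sb F κ q w := by
      intro e
      funext w
      simp only [sb]
      ring
    simp only [h2]

theorem Cs_nonneg {q : E → ℝ} (hq : ∀ e, 0 ≤ q e) (l : List ι) : ∀ (k : ℕ)
    (F : (ι → E → ℝ) → ℝ), 0 ≤ Cs q l k F := by
  induction l with
  | nil =>
    intro k F
    cases k with
    | zero => simp only [Cs]; positivity
    | succ k => simp [Cs]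
  | cons κ l ih =>
    intro k F
    cases k with
    | zero => simp only [Cs]; exact ih 0 _
    | succ k =>
      simp only [Cs]
      exact add_nonneg (ih _ _) (Finset.sum_nonneg fun e _ => mul_nonneg (hq e) (ih _ _))

end

/-- the tail of `∑ k lam^k` -/
theorem tail {lam : ℝ} (h0 : 0 ≤ lam) (h1 : lam < 1) (m n : ℕ) (hm : 1 ≤ m) :
    ∑ k ∈ Finset.Ico m n, (k : ℝ) * lam ^ k ≤ (m : ℝ) * lam ^ m / (1 - lam) ^ 2 := by
  have h1' : 0 < 1 - lam := by linarith
  set g : ℕ → ℝ := fun m => lam ^ m * ((m : ℝ) / (1 - lam) + lam / (1 - lam) ^ 2) with hg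
  have hg0 : ∀ m, 0 ≤ g m := fun m => by
    simp only [hg]
    positivity
  have key : ∀ t : ℕ, ∑ k ∈ Finset.Ico m (m + t), (k : ℝ) * lam ^ k + g (m + t) = g m := by
    intro t
    induction t with
    | zero => simp
    | succ t ih =>
      rw [← Nat.add_assoc, Finset.sum_Ico_succ_top (by omega), ← ih]
      simp only [hg]
      push_cast
      field_simp
      ring
  have hgm : g m ≤ (m : ℝ) * lam ^ m / (1 - lam) ^ 2 := by
    have hm' : (1 : ℝ) ≤ m := by exact_mod_cast hm
    have e : (m : ℝ) * lam ^ m / (1 - lam) ^ 2 - g m =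
        lam ^ m * (lam * (m - 1)) / (1 - lam) ^ 2 := by
      simp only [hg]
      field_simp
      ring
    have : 0 ≤ lam ^ m * (lam * (m - 1)) / (1 - lam) ^ 2 := by
      have : (0 : ℝ) ≤ m - 1 := by linarith
      positivity
    linarith
  rcases Nat.lt_or_ge m n with h | h
  · obtain ⟨t, rfl⟩ := Nat.exists_eq_add_of_le h.le
    have := key t
    have := hg0 (m + t)
    linarith
  · rw [Finset.Ico_eq_empty (by omega)]
    simp only [Finset.sum_empty]
    positivity

end Pd_aux

open Pd_aux Sw_aux in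
theorem tPd (hBo : S_Bo) : S_Pd := by
  intro ι E Ω _ _ _ _ _ P ω q lam B hC hB hBq l F C η ε hnd hF hFb hMA hη hε hCs K
  have := hC.prob
  have hl0 := hC.lam0
  have hl1 := hC.lam1
  have hl1' : 0 < 1 - lam := by linarith
  have hRHS : 0 ≤ (K : ℝ) ^ 4 * B ^ (2 * K) * η ^ 2 / ε ^ 4 +
      ((K : ℝ) + 1) * lam ^ (K + 1) * η / ((1 - lam) ^ 2 * ε ^ 2) := by
    have : 0 < B := by linarith
    positivity
  rcases l with _ | ⟨κ0, l'⟩
  · have he : {o | 2 * ε ≤ |F (fun κ => if κ ∈ ([] : List ι) then ω κ o else q) -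
        F (fun _ => q)|} = ∅ := by
      ext o
      simp only [List.not_mem_nil, if_false, sub_self, abs_zero, Set.mem_setOf_eq,
        Set.mem_empty_iff_false, iff_false, not_le]
      linarith
    rw [he]
    simpa using hRHS
  have hq : PV q := by
    have mω : ∀ e, Measurable fun o => ω κ0 o e :=
      fun e => (measurable_pi_apply e).comp (hC.meas κ0)
    have iω : ∀ e, Integrable (fun o => ω κ0 o e) P := fun e =>
      Integrable.of_bound (mω e).aestronglyMeasurable 1 (Eventually.of_forall fun o => by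
        rw [Real.norm_eq_abs]; exact pv_le (hC.pv κ0 o) e)
    refine ⟨fun e => ?_, ?_⟩
    · rw [← hC.mean κ0 e]
      exact integral_nonneg fun o => (hC.pv κ0 o).1 e
    · calc ∑ e, q e = ∑ e, ∫ o, ω κ0 o e ∂P := by simp only [hC.mean κ0]
        _ = ∫ o, ∑ e, ω κ0 o e ∂P := (integral_finsetSum _ fun e _ => iω e).symm
        _ = ∫ o, (1 : ℝ) ∂P := by simp only [(hC.pv κ0 _).2]
        _ = 1 := by simp
  set l : List ι := κ0 :: l' with hl
  set c : ℝ := F (fun _ => q) with hc
  set F' : (ι → E → ℝ) → ℝ := fun w => F w - c with hF'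
  have hF'c : Continuous F' := hF.sub continuous_const
  have hF'b : ∀ w : ι → E → ℝ, (∀ κ, PV (w κ)) → |F' w| ≤ C + C := by
    intro w hw
    have h1 := hFb w hw
    have h2 := hFb (fun _ => q) (fun _ => hq)
    simp only [hF']
    exact (abs_sub _ _).trans (add_le_add h1 h2)
  have hF'M : MA l F' := by
    intro κ hκ w p hp
    simp only [hF', mul_sub, Finset.sum_sub_distrib, ← Finset.sum_mul, hp, one_mul]
    rw [hMA κ hκ w p hp]
  obtain ⟨hm, ⟨C', hC'⟩, h4, h2⟩ := hBo P ω q lam B hC hB hBq l F' (C + C) hnd hF'c hF'b hF'M K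
  have hCs' : ∀ k : ℕ, Cs q l k F' ≤ (k : ℝ) * η := by
    intro k
    cases k with
    | zero => rw [Cs_zero]; simp [hF', hc]
    | succ k =>
      rw [hF', Cs_sub]
      exact hCs (k + 1) (by omega)
  have hCs0 : ∀ k : ℕ, 0 ≤ Cs q l k F' := fun k => Cs_nonneg hq.1 l k F'
  set X : Ω → ℝ := fun o => Pj q l K F' (fun κ => if κ ∈ l then ω κ o else q) with hX
  set Y : Ω → ℝ := fun o => F' (fun κ => if κ ∈ l then ω κ o else q) with hY
  have mY : Measurable Y := hF'c.measurable.comp (meas_W hC.meas q l)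
  have bY : ∀ o, |Y o| ≤ C + C := fun o => hF'b _ fun κ => by
    by_cases h : κ ∈ l
    · simpa [h] using hC.pv κ o
    · simpa [h] using hq
  have hB1 : 1 ≤ B := by linarith
  -- the fourth moment
  have hS : ∑ k ∈ Finset.range (K + 1), B ^ k * Cs q l k F' ≤ (K : ℝ) ^ 2 * B ^ K * η := by
    rw [Finset.sum_range_succ']
    have h0 : Cs q l 0 F' = 0 := le_antisymm (by simpa using hCs' 0) (hCs0 0)
    rw [h0, mul_zero, add_zero]
    calc ∑ k ∈ Finset.range K, B ^ (k + 1) * Cs q l (k + 1) F'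
        ≤ ∑ _k ∈ Finset.range K, B ^ K * ((K : ℝ) * η) := by
          refine Finset.sum_le_sum fun k hk => ?_
          have hk' : k + 1 ≤ K := Finset.mem_range.1 hk
          have hk'' : ((k + 1 : ℕ) : ℝ) ≤ K := by exact_mod_cast hk'
          refine mul_le_mul (pow_le_pow_right₀ hB1 hk') ?_ (hCs0 _) (by positivity)
          exact (hCs' (k + 1)).trans (mul_le_mul_of_nonneg_right hk'' hη)
      _ = (K : ℝ) ^ 2 * B ^ K * η := by
          rw [Finset.sum_const, Finset.card_range, nsmul_eq_mul]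
          ring
  have hS0 : 0 ≤ ∑ k ∈ Finset.range (K + 1), B ^ k * Cs q l k F' :=
    Finset.sum_nonneg fun k _ => mul_nonneg (by positivity) (hCs0 k)
  have h4' : ∫ o, X o ^ 4 ∂P ≤ (K : ℝ) ^ 4 * B ^ (2 * K) * η ^ 2 := by
    refine h4.trans ((pow_le_pow_left₀ hS0 hS 2).trans (le_of_eq ?_))
    ring
  -- the second moment
  have h2' : ∫ o, (Y o - X o) ^ 2 ∂P ≤ ((K : ℝ) + 1) * lam ^ (K + 1) * η / (1 - lam) ^ 2 := by
    refine h2.trans ?_
    calc ∑ k ∈ Finset.Ico (K + 1) (l.length + 1), lam ^ k * Cs q l k F'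
        ≤ ∑ k ∈ Finset.Ico (K + 1) (l.length + 1), (k : ℝ) * lam ^ k * η := by
          refine Finset.sum_le_sum fun k _ => ?_
          have := mul_le_mul_of_nonneg_left (hCs' k) (pow_nonneg hl0 k)
          linarith
      _ = (∑ k ∈ Finset.Ico (K + 1) (l.length + 1), (k : ℝ) * lam ^ k) * η := by
          rw [Finset.sum_mul]
      _ ≤ ((K + 1 : ℕ) : ℝ) * lam ^ (K + 1) / (1 - lam) ^ 2 * η :=
          mul_le_mul_of_nonneg_right (tail hl0 hl1 (K + 1) _ (by omega)) hη
      _ = _ := by push_cast; ring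
  -- integrability
  have i4 : Integrable (fun o => X o ^ 4) P := by
    refine Integrable.of_bound ((hm.pow_const 4).aestronglyMeasurable) (C' ^ 4)
      (Eventually.of_forall fun o => ?_)
    rw [Real.norm_eq_abs, abs_pow]
    exact pow_le_pow_left₀ (abs_nonneg _) (hC' o) 4
  have i2 : Integrable (fun o => (Y o - X o) ^ 2) P := by
    refine Integrable.of_bound (((mY.sub hm).pow_const 2).aestronglyMeasurable)
      ((C + C + C') ^ 2) (Eventually.of_forall fun o => ?_)
    rw [Real.norm_eq_abs, abs_pow]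
    exact pow_le_pow_left₀ (abs_nonneg _) ((abs_sub _ _).trans (add_le_add (bY o) (hC' o))) 2
  -- Markov
  have m4 : P.real {o | ε ≤ |X o|} ≤ (K : ℝ) ^ 4 * B ^ (2 * K) * η ^ 2 / ε ^ 4 := by
    have h := mul_meas_ge_le_integral_of_nonneg (μ := P) (f := fun o => X o ^ 4)
      (Eventually.of_forall fun o => by positivity) i4 (ε ^ 4)
    have hs : P.real {o | ε ≤ |X o|} ≤ P.real {o | ε ^ 4 ≤ X o ^ 4} := by
      refine measureReal_mono ?_
      intro o ho
      have ho' : ε ≤ |X o| := ho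
      have := pow_le_pow_left₀ hε.le ho' 4
      rwa [← abs_pow, abs_of_nonneg (by positivity)] at this
    rw [le_div_iff₀ (by positivity)]
    calc P.real {o | ε ≤ |X o|} * ε ^ 4 ≤ P.real {o | ε ^ 4 ≤ X o ^ 4} * ε ^ 4 :=
          mul_le_mul_of_nonneg_right hs (by positivity)
      _ = ε ^ 4 * P.real {o | ε ^ 4 ≤ X o ^ 4} := by ring
      _ ≤ _ := h.trans h4'
  have m2 : P.real {o | ε ≤ |Y o - X o|} ≤
      ((K : ℝ) + 1) * lam ^ (K + 1) * η / ((1 - lam) ^ 2 * ε ^ 2) := by
    have h := mul_meas_ge_le_integral_of_nonneg (μ := P) (f := fun o => (Y o - X o) ^ 2)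
      (Eventually.of_forall fun o => by positivity) i2 (ε ^ 2)
    have hs : P.real {o | ε ≤ |Y o - X o|} ≤ P.real {o | ε ^ 2 ≤ (Y o - X o) ^ 2} := by
      refine measureReal_mono ?_
      intro o ho
      have ho' : ε ≤ |Y o - X o| := ho
      have := pow_le_pow_left₀ hε.le ho' 2
      rwa [sq_abs] at this
    rw [← div_div, le_div_iff₀ (by positivity)]
    calc P.real {o | ε ≤ |Y o - X o|} * ε ^ 2 ≤ P.real {o | ε ^ 2 ≤ (Y o - X o) ^ 2} * ε ^ 2 :=
          mul_le_mul_of_nonneg_right hs (by positivity)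
      _ = ε ^ 2 * P.real {o | ε ^ 2 ≤ (Y o - X o) ^ 2} := by ring
      _ ≤ _ := h.trans h2'
  calc P.real {o | 2 * ε ≤ |Y o|}
      ≤ P.real ({o | ε ≤ |X o|} ∪ {o | ε ≤ |Y o - X o|}) := by
        refine measureReal_mono ?_
        intro o ho
        have ho' : 2 * ε ≤ |Y o| := ho
        by_contra hcon
        simp only [Set.mem_union, Set.mem_setOf_eq, not_or, not_le] at hcon
        have h1 : |Y o| ≤ |X o| + |Y o - X o| := by
          have := abs_add_le (X o) (Y o - X o)
          simpa using this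
        linarith [hcon.1, hcon.2]
    _ ≤ P.real {o | ε ≤ |X o|} + P.real {o | ε ≤ |Y o - X o|} := measureReal_union_le _ _
    _ ≤ _ := add_le_add m4 m2

end MP0d3db7NS
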