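import Pool.Agent.Lib.MP_0d3db7.NS.Spec2

set_option autoImplicit false

namespace MP0d3db7NS

open MeasureTheory ProbabilityTheory Filter Topology

namespace Pw_aux

theorem pv_q {ι E Ω : Type} [Nonempty ι] [Fintype E] [MeasurableSpace Ω] {P : Measure Ω}
    {ω : ι → Ω → E → ℝ} {q : E → ℝ} {lam : ℝ} (h : Ck P ω q lam) : PV q := by
  have := h.prob
  obtain ⟨κ⟩ := (inferInstance : Nonempty ι)
  have hint : ∀ e, Integrable (fun o => ω κ o e) P := by
    intro e
    refine Integrable.of_bound ((measurable_pi_iff.1 (h.meas κ)) e).aestronglyMeasurable 1 ?_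
    refine Eventually.of_forall fun o => ?_
    rw [Real.norm_eq_abs, abs_of_nonneg ((h.pv κ o).1 e), ← (h.pv κ o).2]
    exact Finset.single_le_sum (fun a _ => (h.pv κ o).1 a) (Finset.mem_univ e)
  refine ⟨fun e => ?_, ?_⟩
  · rw [← h.mean κ e]
    exact integral_nonneg fun o => (h.pv κ o).1 e
  · have h1 : ∑ e, q e = ∫ o, ∑ e, ω κ o e ∂P := by
      rw [integral_finsetSum _ fun e _ => hint e]
      exact Finset.sum_congr rfl fun e _ => (h.mean κ e).symm
    rw [h1]
    simp [(h.pv κ _).2]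

theorem tp_bd {d : ℕ} {g : EuclideanSpace ℝ (Fin d) → ℝ} (hg : Tp d g) (y) : |g y| ≤ 1 := by
  obtain ⟨T, p, ζ, θ, hp, hs, hζ, hgy⟩ := hg
  rw [hgy y]
  refine (Finset.abs_sum_le_sum_abs _ _).trans (le_trans (Finset.sum_le_sum fun j _ => ?_) hs)
  rw [abs_mul, abs_of_nonneg (hp j)]
  refine mul_le_of_le_one_right (hp j) ((Complex.abs_re_le_norm _).trans ?_)
  rw [norm_mul]
  have h1 : ‖Complex.exp (Complex.I * ((∑ i, θ j i * y i : ℝ) : ℂ))‖ = 1 := by
    rw [mul_comm]
    exact Complex.norm_exp_ofReal_mul_I _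
  rw [h1, mul_one]
  exact hζ j

end Pw_aux

open Pw_aux in
theorem tPw (hPd : S_Pd) (hCw : S_Cw) (hMa : S_Ma) (hDp : S_Dp) (hPa : S_Pa) : S_Pw := by
  intro Ω _ d P ω q lam B hCk hB hBq g hg n0 h κ ε hn0 hh hκ hε hKB K
  have hq : PV q := pv_q hCk
  -- the histories
  have hF : ∀ w : (Fin d → ℤ) × ℕ → Dr d → ℝ,
      Av (st d) w (fun m x => g (nr q n0 m x)) n0 h = 1 / (h : ℝ) *
        ∑ m ∈ Finset.Ico n0 (n0 + h), Ex (st d) w (fun h' => g (nr q n0 m (pos (st d) h'))) m [] := by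
    intro w
    unfold Av
    congr 1
    refine Finset.sum_congr rfl fun m _ => ?_
    exact ((hPa (st d) w).2.1 (fun x => g (nr q n0 m x)) m []).symm
  obtain ⟨hMa1, -, hMa3, hMa4⟩ := hMa (st d)
  choose Bs hBs using fun m : ℕ => hDp (st d) m
  set B' : Finset (Fin d → ℤ) := (Finset.range (n0 + h)).biUnion Bs with hB'
  set l : List ((Fin d → ℤ) × ℕ) := (B' ×ˢ Finset.Icc 1 (n0 + h)).toList with hl
  have hnd : l.Nodup := Finset.nodup_toList _
  have hcont : Continuous fun w : (Fin d → ℤ) × ℕ → Dr d → ℝ =>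
      Av (st d) w (fun m x => g (nr q n0 m x)) n0 h := by
    simp only [hF]
    exact continuous_const.mul (continuous_finsetSum _ fun m _ => hMa1 _ _ _)
  have hh0 : (0 : ℝ) < h := by exact_mod_cast hh
  have hbd : ∀ w : (Fin d → ℤ) × ℕ → Dr d → ℝ, (∀ κ, PV (w κ)) →
      |Av (st d) w (fun m x => g (nr q n0 m x)) n0 h| ≤ 1 := by
    intro w hw
    rw [hF, abs_mul, abs_of_nonneg (by positivity), one_div, ← div_eq_inv_mul, div_le_one hh0]
    refine (Finset.abs_sum_le_sum_abs _ _).trans ?_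
    calc ∑ m ∈ Finset.Ico n0 (n0 + h), |Ex (st d) w (fun h' => g (nr q n0 m (pos (st d) h'))) m []|
        ≤ ∑ m ∈ Finset.Ico n0 (n0 + h), (1 : ℝ) :=
          Finset.sum_le_sum fun m _ => hMa4 _ _ _ (fun h' => tp_bd hg _) w hw
      _ = h := by simp
  have hma : MA l fun w : (Fin d → ℤ) × ℕ → Dr d → ℝ =>
      Av (st d) w (fun m x => g (nr q n0 m x)) n0 h := by
    intro κ' hκ' w p hp
    simp only [hF]
    have h1 : ∀ m, Ex (st d) (Function.update w κ' p) (fun h' => g (nr q n0 m (pos (st d) h'))) m [] =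
        ∑ e, p e * Ex (st d) (Function.update w κ' (dl e))
          (fun h' => g (nr q n0 m (pos (st d) h'))) m [] :=
      fun m => hMa3 _ m [] l κ' hκ' w p hp
    rw [Finset.sum_congr rfl fun m _ => h1 m, Finset.sum_comm, Finset.mul_sum]
    refine Finset.sum_congr rfl fun e _ => ?_
    rw [← Finset.mul_sum]
    ring
  have hη : 0 ≤ κ / (h : ℝ) := by positivity
  have key := hPd P ω q lam B hCk hB hBq l
    (fun w => Av (st d) w (fun m x => g (nr q n0 m x)) n0 h) 1 (κ / h) ε hnd hcont hbd hma hη hε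
    (fun k hk => hCw d q hq g hg n0 h κ hn0 hh hKB l k hnd hk) K
  have hset : ∀ (inst : ∀ κ, Decidable (κ ∈ l)) (o : Ω),
      Av (st d) (fun κ => @ite _ (κ ∈ l) (inst κ) (ω κ o) q) (fun m x => g (nr q n0 m x)) n0 h =
      Av (st d) (fun κ => ω κ o) (fun m x => g (nr q n0 m x)) n0 h := by
    intro inst o
    rw [hF, hF]
    congr 1
    refine Finset.sum_congr rfl fun m hm => ?_
    refine hBs m _ _ _ fun z hz i hi => ?_
    have hmem : (z, i) ∈ l := by
      rw [hl, Finset.mem_toList, Finset.mem_product]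
      have hm' := Finset.mem_Ico.1 hm
      have hi' := Finset.mem_Icc.1 hi
      exact ⟨Finset.mem_biUnion.2 ⟨m, Finset.mem_range.2 hm'.2, hz⟩,
        Finset.mem_Icc.2 ⟨hi'.1, by omega⟩⟩
    rw [if_pos hmem]
  refine le_trans (le_of_eq ?_) key
  congr 1
  ext o
  exact iff_of_eq (congrArg (fun t => 2 * ε ≤ |t - Av (st d) (fun _ => q)
    (fun m x => g (nr q n0 m x)) n0 h|) (hset _ o).symm)

end MP0d3db7NS
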