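import Pool.Agent.Lib.MP_0d3db7.NS.Spec2
import Pool.Agent.Lib.MP_0d3db7.NS.Pa

/-!
# MP_0d3db7_pr, theorem NS2, module Rb: bad windows are rare
-/

set_option autoImplicit false

namespace MP0d3db7NS

open MeasureTheory ProbabilityTheory Filter Topology

namespace Rb_aux

theorem pvq {ι E Ω : Type} [Fintype E] [MeasurableSpace Ω] {P : Measure Ω} {ω : ι → Ω → E → ℝ}
    {q : E → ℝ} {lam : ℝ} (hC : Ck P ω q lam) (κ : ι) : PV q := by
  have := hC.prob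
  have mω : ∀ e, Measurable fun o => ω κ o e := fun e => (measurable_pi_apply e).comp (hC.meas κ)
  have hle : ∀ o e, |ω κ o e| ≤ 1 := by
    intro o e
    have h1 := (hC.pv κ o).1
    rw [abs_of_nonneg (h1 e), ← (hC.pv κ o).2]
    exact Finset.single_le_sum (fun i _ => h1 i) (Finset.mem_univ e)
  have iω : ∀ e, Integrable (fun o => ω κ o e) P := fun e =>
    Integrable.of_bound (mω e).aestronglyMeasurable 1 (Eventually.of_forall fun o => by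
      rw [Real.norm_eq_abs]; exact hle o e)
  refine ⟨fun e => ?_, ?_⟩
  · rw [← hC.mean κ e]
    exact integral_nonneg fun o => (hC.pv κ o).1 e
  · calc ∑ e, q e = ∑ e, ∫ o, ω κ o e ∂P := by simp only [hC.mean κ]
      _ = ∫ o, ∑ e, ω κ o e ∂P := (integral_finsetSum _ fun e _ => iω e).symm
      _ = ∫ o, (1 : ℝ) ∂P := by simp only [(hC.pv κ _).2]
      _ = 1 := by simp

/-- the exponential decay in `b ^ θ` beats the power -/
theorem exp_le (c θ : ℝ) (hc : 0 < c) (hθ : 0 < θ) : ∃ C : ℝ, 0 ≤ C ∧ ∀ b : ℕ, 1 ≤ b →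
    Real.exp (-(c * (b : ℝ) ^ θ)) ≤ C * (b : ℝ) ^ (-1 - 2 * θ) := by
  obtain ⟨N, hN⟩ := exists_nat_ge ((1 + 2 * θ) / θ)
  rw [div_le_iff₀ hθ] at hN
  refine ⟨(N.factorial : ℝ) / c ^ N, by positivity, fun b hb => ?_⟩
  have hb1 : (1 : ℝ) ≤ b := by exact_mod_cast hb
  have hb0 : (0 : ℝ) < b := by linarith
  set x : ℝ := c * (b : ℝ) ^ θ with hx
  have hx0 : 0 < x := by positivity
  have h1 := Real.pow_div_factorial_le_exp x hx0.le N
  have h2 : (b : ℝ) ^ (1 + 2 * θ) ≤ ((b : ℝ) ^ θ) ^ N := by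
    rw [← Real.rpow_mul_natCast hb0.le]
    exact Real.rpow_le_rpow_of_exponent_le hb1 (by linarith)
  have hf : (0 : ℝ) < N.factorial := by exact_mod_cast N.factorial_pos
  have h3 : c ^ N * (b : ℝ) ^ (1 + 2 * θ) / N.factorial ≤ Real.exp x := by
    refine le_trans ?_ h1
    rw [hx, mul_pow]
    gcongr
  rw [Real.exp_neg, show (-1 - 2 * θ : ℝ) = -(1 + 2 * θ) by ring, Real.rpow_neg hb0.le]
  have h4 : (0 : ℝ) < c ^ N * (b : ℝ) ^ (1 + 2 * θ) / N.factorial := by positivity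
  calc (Real.exp x)⁻¹ ≤ (c ^ N * (b : ℝ) ^ (1 + 2 * θ) / N.factorial)⁻¹ := inv_anti₀ h4 h3
    _ = (N.factorial : ℝ) / c ^ N * ((b : ℝ) ^ (1 + 2 * θ))⁻¹ := by
      rw [inv_div, mul_comm (c ^ N), div_mul_eq_div_div, div_eq_mul_inv, div_eq_mul_inv,
        div_eq_mul_inv]
      ring

theorem prob {Ω : Type} [MeasurableSpace Ω] {d : ℕ} {P : Measure Ω}
    {ω : (Fin d → ℤ) × ℕ → Ω → Dr d → ℝ} {q : Dr d → ℝ} {lam : ℝ} (hMx : S_Mx) (hMn : S_Mn)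
    (hC : Ck P ω q lam) {n L : ℕ} {a δ : ℝ} (hL : L ≤ n) (ha : 0 ≤ a) (hδ : 0 < δ) :
    P.real {o | δ ≤ QB q (fun κ => ω κ o) n L a} ≤
      2 * d / δ * Real.exp (-(a ^ 2 / (16 * ((L : ℝ) + 1)))) := by
  have := hC.prob
  have hq : PV q := pvq hC (0, 0)
  classical
  set Φ : List (Dr d) → ℝ := fun h => if Bad q L a h then 1 else 0 with hΦ
  have hΦ0 : ∀ h, 0 ≤ Φ h := fun h => by
    simp only [hΦ]
    split_ifs <;> norm_num
  have hΦ1 : ∀ h, Φ h ≤ 1 := fun h => by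
    simp only [hΦ]
    split_ifs <;> norm_num
  have hQ : ∀ w, QB q w n L a = Ex (st d) w Φ n [] := by
    intro w
    unfold QB
    congr 1
  obtain ⟨hm, hi⟩ := hMn (st d) P ω q lam hC Φ n (fun h => abs_le.2 ⟨by linarith [hΦ0 h], hΦ1 h⟩)
  have h0 : ∀ o, 0 ≤ Ex (st d) (fun κ => ω κ o) Φ n [] := by
    intro o
    have h1 := Pa_aux.ex_mono (st d) (fun κ => ω κ o) (fun κ => hC.pv κ o) (fun _ => 0) Φ n []
      (fun h' _ => hΦ0 h')
    rwa [Pa_aux.ex_const (st d) (fun κ => ω κ o) (fun κ => hC.pv κ o)] at h1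
  have h1 : ∀ o, Ex (st d) (fun κ => ω κ o) Φ n [] ≤ 1 := by
    intro o
    have h1 := Pa_aux.ex_mono (st d) (fun κ => ω κ o) (fun κ => hC.pv κ o) Φ (fun _ => 1) n []
      (fun h' _ => hΦ1 h')
    rwa [Pa_aux.ex_const (st d) (fun κ => ω κ o) (fun κ => hC.pv κ o)] at h1
  have hint : Integrable (fun o => Ex (st d) (fun κ => ω κ o) Φ n []) P :=
    Integrable.of_bound hm.aestronglyMeasurable 1 (Eventually.of_forall fun o => by
      rw [Real.norm_eq_abs, abs_of_nonneg (h0 o)]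
      exact h1 o)
  have hmk := mul_meas_ge_le_integral_of_nonneg (Eventually.of_forall h0) hint δ
  rw [hi, ← hQ] at hmk
  have h2 := hMx d q hq n L a hL ha
  have h3 : {o | δ ≤ QB q (fun κ => ω κ o) n L a} =
      {o | δ ≤ Ex (st d) (fun κ => ω κ o) Φ n []} := by
    ext o
    simp only [Set.mem_ofPred_eq, hQ]
  rw [h3, div_mul_eq_mul_div, le_div_iff₀ hδ, mul_comm]
  exact hmk.trans h2

end Rb_aux

open Rb_aux

theorem tRb (hMx : S_Mx) (hMn : S_Mn) (hSz : S_Sz) : S_Rb := by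
  intro Ω _ d P ω q lam hC θ ε δ hθ hθ1 hε hδ
  obtain ⟨C1, hC1, h1⟩ := exp_le (ε ^ 2 / 48) θ (by positivity) hθ
  obtain ⟨C2, hC2, h2⟩ := exp_le (1 / 80) θ (by norm_num) hθ
  have hd : (0 : ℝ) ≤ 2 * d / δ := by positivity
  refine ⟨2 * d / δ * (C1 + C2), fun b hbb i hi => ?_⟩
  have hb1 : (1 : ℝ) ≤ b := by exact_mod_cast hbb
  have hb0 : (0 : ℝ) < b := by linarith
  have hpw : (0 : ℝ) < (b : ℝ) ^ (-1 - 2 * θ) := Real.rpow_pos_of_pos hb0 _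
  have h2b : (0 : ℝ) < 2 ^ b := by positivity
  have hbt : (0 : ℝ) < (b : ℝ) ^ θ := Real.rpow_pos_of_pos hb0 _
  have hle2 : (b : ℝ) ^ θ ≤ 2 ^ b := by
    calc (b : ℝ) ^ θ ≤ (b : ℝ) ^ (1 : ℝ) := Real.rpow_le_rpow_of_exponent_le hb1 hθ1.le
      _ = b := Real.rpow_one _
      _ ≤ 2 ^ b := by exact_mod_cast (Nat.lt_two_pow_self (n := b)).le
  obtain ⟨_, _, _, hhb, _, _, _⟩ := hSz θ hθ hθ1 b hbb
  constructor
  · have h3 := prob hMx hMn hC (n := nw θ b i + hb θ b) (L := hb θ b) (a := ε * Real.sqrt (nw θ b i))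
      (δ := δ) (Nat.le_add_left _ _) (by positivity) hδ
    refine h3.trans ?_
    have hnw : (2 : ℝ) ^ b ≤ nw θ b i := by
      have : 2 ^ b ≤ nw θ b i := Nat.le_add_right _ _
      exact_mod_cast this
    have hL1 : ((hb θ b : ℕ) : ℝ) + 1 ≤ 3 * (2 ^ b / (b : ℝ) ^ θ) := by
      rw [Real.rpow_neg hb0.le, ← div_eq_mul_inv] at hhb
      have h4 : (1 : ℝ) ≤ 2 ^ b / (b : ℝ) ^ θ := by rwa [one_le_div hbt]
      linarith
    have hL0 : (0 : ℝ) < ((hb θ b : ℕ) : ℝ) + 1 := by positivity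
    have hsq : (ε * Real.sqrt (nw θ b i)) ^ 2 = ε ^ 2 * nw θ b i := by
      rw [mul_pow, Real.sq_sqrt (Nat.cast_nonneg _)]
    have hmain : ε ^ 2 / 48 * (b : ℝ) ^ θ ≤
        (ε * Real.sqrt (nw θ b i)) ^ 2 / (16 * (((hb θ b : ℕ) : ℝ) + 1)) := by
      rw [hsq, le_div_iff₀ (by positivity)]
      calc ε ^ 2 / 48 * (b : ℝ) ^ θ * (16 * (((hb θ b : ℕ) : ℝ) + 1))
          ≤ ε ^ 2 / 48 * (b : ℝ) ^ θ * (16 * (3 * (2 ^ b / (b : ℝ) ^ θ))) := by gcongr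
        _ = ε ^ 2 * 2 ^ b := by
          field_simp
          ring
        _ ≤ ε ^ 2 * nw θ b i := by gcongr
    calc 2 * d / δ * Real.exp (-((ε * Real.sqrt (nw θ b i)) ^ 2 / (16 * (((hb θ b : ℕ) : ℝ) + 1))))
        ≤ 2 * d / δ * Real.exp (-(ε ^ 2 / 48 * (b : ℝ) ^ θ)) := by gcongr
      _ ≤ 2 * d / δ * (C1 * (b : ℝ) ^ (-1 - 2 * θ)) := by gcongr; exact h1 b hbb
      _ ≤ 2 * d / δ * (C1 + C2) * (b : ℝ) ^ (-1 - 2 * θ) := by
        rw [mul_assoc]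
        gcongr
        linarith
  · have h3 := prob hMx hMn hC (n := 2 ^ (b + 2)) (L := 2 ^ (b + 2))
      (a := (b : ℝ) ^ (θ / 2) * Real.sqrt (2 ^ b)) (δ := δ) le_rfl (by positivity) hδ
    refine h3.trans ?_
    have hsq : ((b : ℝ) ^ (θ / 2) * Real.sqrt (2 ^ b)) ^ 2 = (b : ℝ) ^ θ * 2 ^ b := by
      rw [mul_pow, Real.sq_sqrt h2b.le, ← Real.rpow_mul_natCast hb0.le]
      congr 2
      push_cast
      ring
    have hmain : 1 / 80 * (b : ℝ) ^ θ ≤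
        ((b : ℝ) ^ (θ / 2) * Real.sqrt (2 ^ b)) ^ 2 / (16 * (((2 ^ (b + 2) : ℕ) : ℝ) + 1)) := by
      rw [hsq, le_div_iff₀ (by positivity)]
      have h4 : (1 : ℝ) ≤ 2 ^ b := one_le_pow₀ (by norm_num)
      push_cast
      rw [pow_add]
      nlinarith [mul_nonneg hbt.le (sub_nonneg.2 h4)]
    calc 2 * d / δ * Real.exp (-(((b : ℝ) ^ (θ / 2) * Real.sqrt (2 ^ b)) ^ 2 /
          (16 * (((2 ^ (b + 2) : ℕ) : ℝ) + 1))))
        ≤ 2 * d / δ * Real.exp (-(1 / 80 * (b : ℝ) ^ θ)) := by gcongr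
      _ ≤ 2 * d / δ * (C2 * (b : ℝ) ^ (-1 - 2 * θ)) := by gcongr; exact h2 b hbb
      _ ≤ 2 * d / δ * (C1 + C2) * (b : ℝ) ^ (-1 - 2 * θ) := by
        rw [mul_assoc]
        gcongr
        linarith

end MP0d3db7NS
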