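import Pool.Agent.Lib.MP_0d3db7.NS.Spec

set_option autoImplicit false

namespace MP0d3db7NS

open MeasureTheory ProbabilityTheory Filter Topology

namespace S2_aux

variable {V E : Type} [AddCommGroup V] [DecidableEq V] [Fintype E]

theorem pt_nonneg (s : E → V) (q : E → ℝ) (hq : PV q) (t : ℕ) : ∀ x z, 0 ≤ pt s q t x z := by
  induction t with
  | zero =>
    intro x z
    show (0 : ℝ) ≤ if x = z then 1 else 0
    split_ifs <;> norm_num
  | succ t ih =>
    intro x z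
    show (0 : ℝ) ≤ ∑ e, q e * pt s q t (x + s e) z
    exact Finset.sum_nonneg fun e _ => mul_nonneg (hq.1 e) (ih _ _)

/-- the exponential moments of the step -/
noncomputable def Mg (s : E → V) (q : E → ℝ) (φ : V →+ ℝ) (η : ℝ) : ℝ :=
  ∑ e, q e * Real.exp (η * φ (s e))

theorem wsum (s : E → V) (q : E → ℝ) (hq : PV q) (φ : V →+ ℝ) (η : ℝ) (B : Finset V) (t : ℕ) :
    ∀ x, ∑ z ∈ B, pt s q t x z * Real.exp (η * φ (z - x)) ≤ Mg s q φ η ^ t := by
  induction t with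
  | zero =>
    intro x
    rw [pow_zero]
    calc ∑ z ∈ B, pt s q 0 x z * Real.exp (η * φ (z - x))
        = ∑ z ∈ B, (if x = z then (1 : ℝ) else 0) := by
          refine Finset.sum_congr rfl fun z _ => ?_
          show (if x = z then (1 : ℝ) else 0) * _ = _
          split_ifs with h
          · rw [h, sub_self, map_zero, mul_zero, Real.exp_zero, mul_one]
          · rw [zero_mul]
      _ ≤ 1 := by
          rw [Finset.sum_ite_eq]
          split_ifs <;> norm_num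
  | succ t ih =>
    intro x
    have h1 : ∑ z ∈ B, pt s q (t + 1) x z * Real.exp (η * φ (z - x)) =
        ∑ e, q e * Real.exp (η * φ (s e)) *
          ∑ z ∈ B, pt s q t (x + s e) z * Real.exp (η * φ (z - (x + s e))) := by
      simp_rw [Finset.mul_sum]
      rw [Finset.sum_comm]
      refine Finset.sum_congr rfl fun z _ => ?_
      show (∑ e, q e * pt s q t (x + s e) z) * _ = _
      rw [Finset.sum_mul]
      refine Finset.sum_congr rfl fun e _ => ?_
      have h2 : z - x = s e + (z - (x + s e)) := by abel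
      have h3 : η * φ (z - x) = η * φ (s e) + η * φ (z - (x + s e)) := by
        rw [← mul_add, ← map_add, ← h2]
      rw [h3, Real.exp_add]
      ring
    rw [h1, pow_succ', Mg, Finset.sum_mul]
    exact Finset.sum_le_sum fun e _ =>
      mul_le_mul_of_nonneg_left (ih _) (mul_nonneg (hq.1 e) (Real.exp_pos _).le)

theorem psum (s : E → V) (q : E → ℝ) (hq : PV q) (B : Finset V) (t : ℕ) (x : V) :
    ∑ z ∈ B, pt s q t x z ≤ 1 := by
  have h := wsum s q hq (0 : V →+ ℝ) 0 B t x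
  have h1 : Mg s q (0 : V →+ ℝ) 0 = 1 := by
    unfold Mg
    simp only [zero_mul, Real.exp_zero, mul_one]
    exact hq.2
  rw [h1, one_pow] at h
  simpa using h

/-- products of two transition probabilities, by the exponential moments -/
theorem prodexp (s : E → V) (q : E → ℝ) (hq : PV q) (φ : V →+ ℝ) (η : ℝ) (B : Finset V)
    (a t : ℕ) : ∑ z ∈ B, pt s q a 0 z * pt s q t 0 z ≤ Mg s q φ η ^ a * Mg s q φ (-η) ^ t := by
  have h1 := wsum s q hq φ η B a 0
  have h2 := wsum s q hq φ (-η) B t 0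
  have hn1 : ∀ z, 0 ≤ pt s q a 0 z * Real.exp (η * φ (z - 0)) := fun z =>
    mul_nonneg (pt_nonneg s q hq a _ _) (Real.exp_pos _).le
  have hn2 : ∀ z, 0 ≤ pt s q t 0 z * Real.exp (-η * φ (z - 0)) := fun z =>
    mul_nonneg (pt_nonneg s q hq t _ _) (Real.exp_pos _).le
  calc ∑ z ∈ B, pt s q a 0 z * pt s q t 0 z
      = ∑ z ∈ B, (pt s q a 0 z * Real.exp (η * φ (z - 0))) *
          (pt s q t 0 z * Real.exp (-η * φ (z - 0))) := by
        refine Finset.sum_congr rfl fun z _ => ?_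
        have h3 : Real.exp (η * φ (z - 0)) * Real.exp (-η * φ (z - 0)) = 1 := by
          rw [← Real.exp_add]
          have : η * φ (z - 0) + -η * φ (z - 0) = 0 := by ring
          rw [this, Real.exp_zero]
        calc pt s q a 0 z * pt s q t 0 z = pt s q a 0 z * pt s q t 0 z * 1 := by rw [mul_one]
          _ = _ := by
            rw [← h3]
            ring
    _ ≤ ∑ z ∈ B, (∑ y ∈ B, pt s q a 0 y * Real.exp (η * φ (y - 0))) *
          (pt s q t 0 z * Real.exp (-η * φ (z - 0))) :=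
        Finset.sum_le_sum fun z hz => mul_le_mul_of_nonneg_right
          (Finset.single_le_sum (f := fun y => pt s q a 0 y * Real.exp (η * φ (y - 0)))
            (fun y _ => hn1 y) hz) (hn2 z)
    _ = (∑ y ∈ B, pt s q a 0 y * Real.exp (η * φ (y - 0))) *
          ∑ z ∈ B, (pt s q t 0 z * Real.exp (-η * φ (z - 0))) := by
        rw [Finset.mul_sum]
    _ ≤ Mg s q φ η ^ a * Mg s q φ (-η) ^ t :=
        mul_le_mul h1 h2 (Finset.sum_nonneg fun z _ => hn2 z)
          (le_trans (Finset.sum_nonneg fun z _ => hn1 z) h1)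

theorem Mg_nonneg (s : E → V) (q : E → ℝ) (hq : PV q) (φ : V →+ ℝ) (η : ℝ) : 0 ≤ Mg s q φ η :=
  Finset.sum_nonneg fun e _ => mul_nonneg (hq.1 e) (Real.exp_pos _).le

theorem Mg_le (s : E → V) (q : E → ℝ) (hq : PV q) (φ : V →+ ℝ) (b : ℝ)
    (hb : ∀ e, |φ (s e)| ≤ b) (η : ℝ) (hη : |η| * b ≤ 1) :
    Mg s q φ η ≤ 1 + η * (∑ e, q e * φ (s e)) + η ^ 2 * b ^ 2 := by
  unfold Mg
  have h : ∀ e, Real.exp (η * φ (s e)) ≤ 1 + η * φ (s e) + η ^ 2 * b ^ 2 := by
    intro e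
    have h1 : |η * φ (s e)| ≤ 1 := by
      rw [abs_mul]
      exact le_trans (mul_le_mul_of_nonneg_left (hb e) (abs_nonneg η)) hη
    have h2 := Real.abs_exp_sub_one_sub_id_le h1
    have h3 := le_abs_self (Real.exp (η * φ (s e)) - 1 - η * φ (s e))
    have h4 : (η * φ (s e)) ^ 2 ≤ η ^ 2 * b ^ 2 := by
      rw [mul_pow]
      refine mul_le_mul_of_nonneg_left ?_ (sq_nonneg η)
      rw [← sq_abs (φ (s e))]
      exact pow_le_pow_left₀ (abs_nonneg _) (hb e) 2
    linarith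
  calc ∑ e, q e * Real.exp (η * φ (s e))
      ≤ ∑ e, q e * (1 + η * φ (s e) + η ^ 2 * b ^ 2) :=
        Finset.sum_le_sum fun e _ => mul_le_mul_of_nonneg_left (h e) (hq.1 e)
    _ = ∑ e, (q e * (1 + η ^ 2 * b ^ 2) + η * (q e * φ (s e))) :=
        Finset.sum_congr rfl fun e _ => by ring
    _ = 1 + η * (∑ e, q e * φ (s e)) + η ^ 2 * b ^ 2 := by
        rw [Finset.sum_add_distrib, ← Finset.sum_mul, ← Finset.mul_sum, hq.2]
        ring

/-- decay in the difference of the times -/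
theorem decay (s : E → V) (q : E → ℝ) (hq : PV q) (φ : V →+ ℝ) (b : ℝ) (hb1 : 1 ≤ b)
    (hb : ∀ e, |φ (s e)| ≤ b) (hμ : 0 < ∑ e, q e * φ (s e)) (η0 : ℝ) (h0 : 0 < η0)
    (h1 : η0 * b ≤ 1) (h2 : η0 * b ^ 2 ≤ (∑ e, q e * φ (s e)) / 2) (n : ℕ) (hn : 1 ≤ n)
    (B : Finset V) (a j : ℕ) (ha : a ≤ n) :
    ∑ z ∈ B, pt s q a 0 z * pt s q (a + j) 0 z ≤
      Real.exp 2 * Real.exp (-(η0 * (∑ e, q e * φ (s e)) / 2 / Real.sqrt n * j)) := by
  set μ := ∑ e, q e * φ (s e) with hμd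
  have hn' : (1 : ℝ) ≤ n := by exact_mod_cast hn
  have hs1 : 1 ≤ Real.sqrt n := by
    rw [← Real.sqrt_one]
    exact Real.sqrt_le_sqrt hn'
  have hs0 : 0 < Real.sqrt n := by linarith
  have hsq : Real.sqrt n * Real.sqrt n = n := Real.mul_self_sqrt (by linarith)
  set η := η0 / Real.sqrt n with hη
  have hη0 : 0 < η := div_pos h0 hs0
  have hηle : η ≤ η0 := div_le_self h0.le hs1
  have hb0 : 0 < b := by linarith
  have e1 : |η| * b ≤ 1 := by
    rw [abs_of_pos hη0]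
    exact le_trans (mul_le_mul_of_nonneg_right hηle hb0.le) h1
  have e2 : |-η| * b ≤ 1 := by
    rw [abs_neg]
    exact e1
  have m1 := Mg_le s q hq φ b hb η e1
  have m2 := Mg_le s q hq φ b hb (-η) e2
  rw [← hμd] at m1 m2
  have m2' : Mg s q φ (-η) ≤ 1 - η * μ + η ^ 2 * b ^ 2 := by
    have : 1 + -η * μ + (-η) ^ 2 * b ^ 2 = 1 - η * μ + η ^ 2 * b ^ 2 := by ring
    linarith
  have n1 := Mg_nonneg s q hq φ η
  have n2 := Mg_nonneg s q hq φ (-η)
  -- the product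
  have hprod : Mg s q φ η * Mg s q φ (-η) ≤ Real.exp (2 * (η ^ 2 * b ^ 2)) := by
    calc Mg s q φ η * Mg s q φ (-η)
        ≤ (1 + η * μ + η ^ 2 * b ^ 2) * (1 - η * μ + η ^ 2 * b ^ 2) :=
          mul_le_mul m1 m2' n2 (le_trans n1 m1)
      _ = (1 + η ^ 2 * b ^ 2) ^ 2 - (η * μ) ^ 2 := by ring
      _ ≤ (η ^ 2 * b ^ 2 + 1) ^ 2 := by
          have := sq_nonneg (η * μ)
          rw [add_comm (1 : ℝ) (η ^ 2 * b ^ 2)]
          linarith
      _ ≤ (Real.exp (η ^ 2 * b ^ 2)) ^ 2 := by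
          refine pow_le_pow_left₀ ?_ (Real.add_one_le_exp _) 2
          positivity
      _ = Real.exp (2 * (η ^ 2 * b ^ 2)) := by
          rw [← Real.exp_nat_mul]
          norm_num
  have hM : Mg s q φ (-η) ≤ Real.exp (-(η0 * μ / 2 / Real.sqrt n)) := by
    have h3 : η * (η * b ^ 2) ≤ η * (μ / 2) := by
      refine mul_le_mul_of_nonneg_left ?_ hη0.le
      refine le_trans (mul_le_mul_of_nonneg_right hηle (sq_nonneg b)) h2
    have h4 : -(η0 * μ / 2 / Real.sqrt n) = -(η * (μ / 2)) := by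
      rw [hη]
      field_simp
    rw [h4]
    have h5 := Real.add_one_le_exp (-(η * (μ / 2)))
    have h6 : η * (η * b ^ 2) = η ^ 2 * b ^ 2 := by ring
    have h7 : η * μ = η * (μ / 2) + η * (μ / 2) := by ring
    linarith
  have hmain := prodexp s q hq φ η B a (a + j)
  refine le_trans hmain ?_
  rw [pow_add, ← mul_assoc, ← mul_pow]
  refine mul_le_mul ?_ ?_ (pow_nonneg n2 _) (Real.exp_pos _).le
  · calc (Mg s q φ η * Mg s q φ (-η)) ^ a ≤ (Real.exp (2 * (η ^ 2 * b ^ 2))) ^ a :=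
          pow_le_pow_left₀ (mul_nonneg n1 n2) hprod a
      _ = Real.exp (a * (2 * (η ^ 2 * b ^ 2))) := by rw [← Real.exp_nat_mul]
      _ ≤ Real.exp 2 := by
          refine Real.exp_le_exp.2 ?_
          have h3 : (a : ℝ) ≤ n := by exact_mod_cast ha
          have h4 : η ^ 2 * b ^ 2 * n = (η0 * b) ^ 2 := by
            have h4a : η * Real.sqrt n = η0 := by
              rw [hη, div_mul_cancel₀ _ hs0.ne']
            calc η ^ 2 * b ^ 2 * n = η ^ 2 * b ^ 2 * (Real.sqrt n * Real.sqrt n) := by rw [hsq]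
              _ = (η * Real.sqrt n * b) ^ 2 := by ring
              _ = (η0 * b) ^ 2 := by rw [h4a]
          have h5 : (η0 * b) ^ 2 ≤ 1 := by
            have h6 : 0 ≤ η0 * b := by positivity
            exact pow_le_one₀ h6 h1
          have h6 : (a : ℝ) * (2 * (η ^ 2 * b ^ 2)) ≤ n * (2 * (η ^ 2 * b ^ 2)) :=
            mul_le_mul_of_nonneg_right h3 (by positivity)
          have h7 : (n : ℝ) * (2 * (η ^ 2 * b ^ 2)) = 2 * (η ^ 2 * b ^ 2 * n) := by ring
          rw [h7, h4] at h6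
          linarith
  · calc Mg s q φ (-η) ^ j ≤ (Real.exp (-(η0 * μ / 2 / Real.sqrt n))) ^ j :=
          pow_le_pow_left₀ n2 hM j
      _ = Real.exp (j * (-(η0 * μ / 2 / Real.sqrt n))) := by rw [← Real.exp_nat_mul]
      _ ≤ Real.exp (-(η0 * μ / 2 / Real.sqrt n * j)) := by
          refine Real.exp_le_exp.2 (le_of_eq ?_)
          ring

/-- interpolation of two bounds -/
theorem interp (A X Y : ℝ) (hA : 0 ≤ A) (hX : A ≤ X) (hY : A ≤ Y) :
    A ≤ X ^ (3 / 4 : ℝ) * Y ^ (1 / 4 : ℝ) := by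
  have h : A = A ^ (3 / 4 : ℝ) * A ^ (1 / 4 : ℝ) := by
    rw [← Real.rpow_add_of_nonneg hA (by norm_num) (by norm_num)]
    norm_num
  calc A = A ^ (3 / 4 : ℝ) * A ^ (1 / 4 : ℝ) := h
    _ ≤ X ^ (3 / 4 : ℝ) * Y ^ (1 / 4 : ℝ) :=
      mul_le_mul (Real.rpow_le_rpow hA hX (by norm_num)) (Real.rpow_le_rpow hA hY (by norm_num))
        (Real.rpow_nonneg hA _) (Real.rpow_nonneg (le_trans hA hX) _)

/-- the geometric sum -/
theorem geo (x : ℝ) (hx : 0 < x) (m : ℕ) :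
    ∑ j ∈ Finset.range m, Real.exp (-(x * j)) ≤ 1 + 1 / x := by
  have h1 : ∀ j : ℕ, Real.exp (-(x * j)) = (Real.exp (-x)) ^ j := by
    intro j
    rw [← Real.exp_nat_mul]
    congr 1
    ring
  simp_rw [h1]
  have h2 : Real.exp (-x) < 1 := by
    rw [Real.exp_lt_one_iff]
    linarith
  have h3 : Real.exp (-x) * (1 + x) ≤ 1 := by
    have h4 := Real.add_one_le_exp x
    calc Real.exp (-x) * (1 + x) ≤ Real.exp (-x) * Real.exp x :=
          mul_le_mul_of_nonneg_left (by linarith) (Real.exp_pos _).le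
      _ = 1 := by rw [← Real.exp_add, neg_add_cancel, Real.exp_zero]
  have h5 : 0 < 1 - Real.exp (-x) := by linarith
  have h6 : (∑ j ∈ Finset.range m, (Real.exp (-x)) ^ j) * (1 - Real.exp (-x)) ≤ 1 := by
    have h7 := geom_sum_mul (Real.exp (-x)) m
    have h8 : (∑ j ∈ Finset.range m, (Real.exp (-x)) ^ j) * (1 - Real.exp (-x)) =
        1 - (Real.exp (-x)) ^ m := by
      linarith
    rw [h8]
    have := pow_nonneg (Real.exp_pos (-x)).le m
    linarith
  have h7 : 1 ≤ (1 + 1 / x) * (1 - Real.exp (-x)) := by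
    have h8 : (1 + 1 / x) * (1 - Real.exp (-x)) = ((1 + x) - Real.exp (-x) * (1 + x)) / x := by
      field_simp
      ring
    rw [h8, le_div_iff₀ hx]
    linarith
  exact le_of_mul_le_mul_right (le_trans h6 h7) h5

theorem psum34 (n : ℕ) : ∑ t ∈ Finset.range n, ((t : ℝ) + 1) ^ (-(3 / 4) : ℝ) ≤
    4 * (n : ℝ) ^ (1 / 4 : ℝ) := by
  induction n with
  | zero =>
    rw [Finset.sum_range_zero]
    positivity
  | succ n ih =>
    rw [Finset.sum_range_succ]
    have hp : (0 : ℝ) < (n : ℝ) + 1 := by positivity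
    have h1 : (1 + -(1 / ((n : ℝ) + 1))) ^ (1 / 4 : ℝ) ≤ 1 + 1 / 4 * -(1 / ((n : ℝ) + 1)) := by
      refine rpow_one_add_le_one_add_mul_self ?_ (by norm_num) (by norm_num)
      rw [neg_le_neg_iff, div_le_one hp]
      have : (0 : ℝ) ≤ n := Nat.cast_nonneg n
      linarith
    have h2 : (n : ℝ) = (1 + -(1 / ((n : ℝ) + 1))) * ((n : ℝ) + 1) := by
      field_simp
      ring
    have h2' : (0 : ℝ) ≤ 1 + -(1 / ((n : ℝ) + 1)) := by
      have : 1 / ((n : ℝ) + 1) ≤ 1 := by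
        rw [div_le_one hp]
        have : (0 : ℝ) ≤ n := Nat.cast_nonneg n
        linarith
      linarith
    have h3 : (n : ℝ) ^ (1 / 4 : ℝ) =
        (1 + -(1 / ((n : ℝ) + 1))) ^ (1 / 4 : ℝ) * ((n : ℝ) + 1) ^ (1 / 4 : ℝ) := by
      rw [← Real.mul_rpow h2' hp.le, ← h2]
    have h4 : ((n : ℝ) + 1) ^ (-(3 / 4) : ℝ) = ((n : ℝ) + 1) ^ (1 / 4 : ℝ) / ((n : ℝ) + 1) := by
      have h5 : (-(3 / 4) : ℝ) = 1 / 4 - 1 := by norm_num
      rw [h5, Real.rpow_sub_one hp.ne']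
    have h6 : 0 < ((n : ℝ) + 1) ^ (1 / 4 : ℝ) := Real.rpow_pos_of_pos hp _
    have h7 : (n : ℝ) ^ (1 / 4 : ℝ) ≤
        (1 + 1 / 4 * -(1 / ((n : ℝ) + 1))) * ((n : ℝ) + 1) ^ (1 / 4 : ℝ) := by
      rw [h3]
      exact mul_le_mul_of_nonneg_right h1 h6.le
    have h8 : (1 + 1 / 4 * -(1 / ((n : ℝ) + 1))) * ((n : ℝ) + 1) ^ (1 / 4 : ℝ) =
        ((n : ℝ) + 1) ^ (1 / 4 : ℝ) - 1 / 4 * (((n : ℝ) + 1) ^ (1 / 4 : ℝ) / ((n : ℝ) + 1)) := by
      ring
    rw [h8] at h7
    rw [h4]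
    push_cast
    linarith

/-- the double sum of a symmetric nonnegative array -/
theorem symsum (D : ℕ → ℕ → ℝ) (hs : ∀ a b, D a b = D b a) (h0 : ∀ a b, 0 ≤ D a b) (n : ℕ) :
    ∑ a ∈ Finset.range n, ∑ b ∈ Finset.range n, D a b ≤
      2 * ∑ t ∈ Finset.range n, ∑ a ∈ Finset.range (t + 1), D a t := by
  induction n with
  | zero => simp
  | succ n ih =>
    have h1 : ∑ a ∈ Finset.range (n + 1), ∑ b ∈ Finset.range (n + 1), D a b =
        ∑ a ∈ Finset.range n, ∑ b ∈ Finset.range n, D a b + ∑ a ∈ Finset.range n, D a n +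
          ∑ a ∈ Finset.range (n + 1), D a n := by
      rw [Finset.sum_range_succ]
      simp_rw [Finset.sum_range_succ (fun b => D _ b)]
      rw [Finset.sum_add_distrib]
      have h2 : ∑ b ∈ Finset.range n, D n b = ∑ b ∈ Finset.range n, D b n :=
        Finset.sum_congr rfl fun b _ => hs _ _
      rw [h2, Finset.sum_range_succ (fun a => D a n)]
    rw [h1, Finset.sum_range_succ (fun t => ∑ a ∈ Finset.range (t + 1), D a t)]
    have h3 : ∑ a ∈ Finset.range n, D a n ≤ ∑ a ∈ Finset.range (n + 1), D a n := by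
      rw [Finset.sum_range_succ]
      have := h0 n n
      linarith
    linarith

/-- the main bound -/
theorem main (s : E → V) (q : E → ℝ) (hq : PV q) (φ : V →+ ℝ) (hμ : 0 < ∑ e, q e * φ (s e))
    (C : ℝ) (hC : 0 ≤ C) (hpt : ∀ t x z, pt s q t x z ≤ C / ((t : ℝ) + 1)) :
    ∃ C' : ℝ, 0 ≤ C' ∧ ∀ n : ℕ, 1 ≤ n → ∀ B : Finset V,
      ∑ z ∈ B, gr s q n 0 z ^ 2 ≤ C' * (n : ℝ) ^ (3 / 4 : ℝ) := by
  set μ := ∑ e, q e * φ (s e) with hμd
  -- the bound of the steps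
  obtain ⟨b, hb1, hb⟩ : ∃ b : ℝ, 1 ≤ b ∧ ∀ e, |φ (s e)| ≤ b := by
    refine ⟨1 + ∑ e, |φ (s e)|, ?_, ?_⟩
    · have : 0 ≤ ∑ e, |φ (s e)| := Finset.sum_nonneg fun e _ => abs_nonneg _
      linarith
    · intro e
      have h3 : |φ (s e)| ≤ ∑ e, |φ (s e)| :=
        Finset.single_le_sum (f := fun e => |φ (s e)|) (fun e _ => abs_nonneg _)
          (Finset.mem_univ e)
      linarith
  have hb0 : 0 < b := by linarith
  set η0 := min (1 / b) (μ / (2 * b ^ 2)) with hη0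
  have h0 : 0 < η0 := lt_min (by positivity) (by positivity)
  have h1 : η0 * b ≤ 1 := by
    calc η0 * b ≤ 1 / b * b := mul_le_mul_of_nonneg_right (min_le_left _ _) hb0.le
      _ = 1 := by field_simp
  have h2 : η0 * b ^ 2 ≤ μ / 2 := by
    calc η0 * b ^ 2 ≤ μ / (2 * b ^ 2) * b ^ 2 :=
          mul_le_mul_of_nonneg_right (min_le_right _ _) (sq_nonneg b)
      _ = μ / 2 := by field_simp
  set c := η0 * μ / 2 / 4 with hc
  have hc0 : 0 < c := by positivity
  refine ⟨8 * (C ^ (3 / 4 : ℝ) * (Real.exp 2) ^ (1 / 4 : ℝ)) * (1 + 1 / c), by positivity, ?_⟩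
  intro n hn B
  have hn' : (1 : ℝ) ≤ n := by exact_mod_cast hn
  have hn0 : (0 : ℝ) < n := by linarith
  have hs1 : 1 ≤ Real.sqrt n := by
    rw [← Real.sqrt_one]
    exact Real.sqrt_le_sqrt hn'
  have hs0 : 0 < Real.sqrt n := by linarith
  set K := C ^ (3 / 4 : ℝ) * (Real.exp 2) ^ (1 / 4 : ℝ) with hK
  have hK0 : 0 ≤ K := by positivity
  -- the products
  set D : ℕ → ℕ → ℝ := fun a t => ∑ z ∈ B, pt s q a 0 z * pt s q t 0 z with hD
  have hD0 : ∀ a t, 0 ≤ D a t := fun a t => Finset.sum_nonneg fun z _ =>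
    mul_nonneg (pt_nonneg s q hq a _ _) (pt_nonneg s q hq t _ _)
  have hDs : ∀ a t, D a t = D t a := fun a t => Finset.sum_congr rfl fun z _ => mul_comm _ _
  have hD1 : ∀ a t, D a t ≤ C / ((t : ℝ) + 1) := by
    intro a t
    have hCt : 0 ≤ C / ((t : ℝ) + 1) := by positivity
    calc D a t ≤ ∑ z ∈ B, pt s q a 0 z * (C / ((t : ℝ) + 1)) :=
          Finset.sum_le_sum fun z _ => mul_le_mul_of_nonneg_left (hpt t 0 z)
            (pt_nonneg s q hq a _ _)
      _ = (∑ z ∈ B, pt s q a 0 z) * (C / ((t : ℝ) + 1)) := by rw [Finset.sum_mul]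
      _ ≤ 1 * (C / ((t : ℝ) + 1)) := mul_le_mul_of_nonneg_right (psum s q hq B a 0) hCt
      _ = C / ((t : ℝ) + 1) := one_mul _
  have hD2 : ∀ t, t < n → ∀ a ∈ Finset.range (t + 1),
      D a t ≤ K * ((t : ℝ) + 1) ^ (-(3 / 4) : ℝ) *
        Real.exp (-(c / Real.sqrt n * ((t - a : ℕ) : ℝ))) := by
    intro t ht a ha
    have ha' : a ≤ t := Nat.lt_succ_iff.1 (Finset.mem_range.1 ha)
    have hat : a + (t - a) = t := by omega
    have hdec := decay s q hq φ b hb1 hb hμ η0 h0 h1 h2 n hn B a (t - a) (by omega)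
    rw [hat, ← hμd] at hdec
    have hi := interp (D a t) _ _ (hD0 a t) (hD1 a t) hdec
    refine le_trans hi (le_of_eq ?_)
    have hp : (0 : ℝ) < (t : ℝ) + 1 := by positivity
    rw [Real.div_rpow hC hp.le, Real.mul_rpow (Real.exp_pos _).le (Real.exp_pos _).le,
      Real.rpow_neg hp.le, ← Real.exp_mul (-(η0 * μ / 2 / Real.sqrt n * ((t - a : ℕ) : ℝ)))]
    have h5 : -(η0 * μ / 2 / Real.sqrt n * ((t - a : ℕ) : ℝ)) * (1 / 4) =
        -(c / Real.sqrt n * ((t - a : ℕ) : ℝ)) := by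
      rw [hc]
      ring
    rw [h5, hK]
    ring
  have hgr : ∑ z ∈ B, gr s q n 0 z ^ 2 =
      ∑ a ∈ Finset.range n, ∑ t ∈ Finset.range n, D a t := by
    have h3 : ∀ z, gr s q n 0 z ^ 2 =
        ∑ a ∈ Finset.range n, ∑ t ∈ Finset.range n, pt s q a 0 z * pt s q t 0 z := by
      intro z
      unfold gr
      rw [sq, Finset.sum_mul_sum]
    simp_rw [h3]
    rw [Finset.sum_comm]
    refine Finset.sum_congr rfl fun a _ => ?_
    rw [Finset.sum_comm]
  rw [hgr]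
  have hin : ∀ t ∈ Finset.range n, ∑ a ∈ Finset.range (t + 1), D a t ≤
      K * ((t : ℝ) + 1) ^ (-(3 / 4) : ℝ) * ((1 + 1 / c) * Real.sqrt n) := by
    intro t ht
    have hp : (0 : ℝ) < (t : ℝ) + 1 := by positivity
    calc ∑ a ∈ Finset.range (t + 1), D a t
        ≤ ∑ a ∈ Finset.range (t + 1), K * ((t : ℝ) + 1) ^ (-(3 / 4) : ℝ) *
            Real.exp (-(c / Real.sqrt n * ((t - a : ℕ) : ℝ))) :=
          Finset.sum_le_sum fun a ha => hD2 t (Finset.mem_range.1 ht) a ha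
      _ = K * ((t : ℝ) + 1) ^ (-(3 / 4) : ℝ) *
            ∑ a ∈ Finset.range (t + 1), Real.exp (-(c / Real.sqrt n * ((t - a : ℕ) : ℝ))) := by
          rw [Finset.mul_sum]
      _ = K * ((t : ℝ) + 1) ^ (-(3 / 4) : ℝ) *
            ∑ j ∈ Finset.range (t + 1), Real.exp (-(c / Real.sqrt n * (j : ℝ))) := by
          have h6 := Finset.sum_range_reflect
            (fun j : ℕ => Real.exp (-(c / Real.sqrt n * (j : ℝ)))) (t + 1)
          rw [← h6]
          simp only [Nat.add_sub_cancel]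
      _ ≤ K * ((t : ℝ) + 1) ^ (-(3 / 4) : ℝ) * (1 + 1 / (c / Real.sqrt n)) := by
          refine mul_le_mul_of_nonneg_left (geo _ (div_pos hc0 hs0) _) ?_
          exact mul_nonneg hK0 (Real.rpow_nonneg hp.le _)
      _ ≤ K * ((t : ℝ) + 1) ^ (-(3 / 4) : ℝ) * ((1 + 1 / c) * Real.sqrt n) := by
          refine mul_le_mul_of_nonneg_left ?_ (mul_nonneg hK0 (Real.rpow_nonneg hp.le _))
          have h7 : 1 / (c / Real.sqrt n) = 1 / c * Real.sqrt n := by
            field_simp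
          rw [h7, add_mul, one_mul]
          linarith
  have hroot : Real.sqrt n * (n : ℝ) ^ (1 / 4 : ℝ) = (n : ℝ) ^ (3 / 4 : ℝ) := by
    rw [Real.sqrt_eq_rpow, ← Real.rpow_add hn0]
    norm_num
  calc ∑ a ∈ Finset.range n, ∑ t ∈ Finset.range n, D a t
      ≤ 2 * ∑ t ∈ Finset.range n, ∑ a ∈ Finset.range (t + 1), D a t := symsum D hDs hD0 n
    _ ≤ 2 * ∑ t ∈ Finset.range n,
          K * ((t : ℝ) + 1) ^ (-(3 / 4) : ℝ) * ((1 + 1 / c) * Real.sqrt n) :=
        mul_le_mul_of_nonneg_left (Finset.sum_le_sum hin) (by norm_num)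
    _ = 2 * (K * (∑ t ∈ Finset.range n, ((t : ℝ) + 1) ^ (-(3 / 4) : ℝ)) *
          ((1 + 1 / c) * Real.sqrt n)) := by
        rw [← Finset.sum_mul, ← Finset.mul_sum]
    _ ≤ 2 * (K * (4 * (n : ℝ) ^ (1 / 4 : ℝ)) * ((1 + 1 / c) * Real.sqrt n)) := by
        have h8 : 0 ≤ (1 + 1 / c) * Real.sqrt n := by positivity
        refine mul_le_mul_of_nonneg_left ?_ (by norm_num)
        exact mul_le_mul_of_nonneg_right (mul_le_mul_of_nonneg_left (psum34 n) hK0) h8
    _ = 8 * K * (1 + 1 / c) * (Real.sqrt n * (n : ℝ) ^ (1 / 4 : ℝ)) := by ring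
    _ = 8 * K * (1 + 1 / c) * (n : ℝ) ^ (3 / 4 : ℝ) := by rw [hroot]

end S2_aux

theorem tS2 : S_S2 := by
  intro V E _ _ _ s q hq φ hφ C hC hpt
  rcases lt_or_gt_of_ne hφ with h | h
  · refine S2_aux.main s q hq (-φ) ?_ C hC hpt
    have h1 : ∑ e, q e * (-φ) (s e) = -∑ e, q e * φ (s e) := by
      rw [← Finset.sum_neg_distrib]
      refine Finset.sum_congr rfl fun e _ => ?_
      rw [AddMonoidHom.neg_apply]
      ring
    rw [h1]
    linarith
  · exact S2_aux.main s q hq φ h C hC hpt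

end MP0d3db7NS
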