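import Pool.Agent.Lib.MP_0d3db7.NS.Spec

/-!
# THEOREM NS: the Green function in `ℓ²`, three dimensions (`S_S3`)
-/

set_option autoImplicit false

namespace MP0d3db7NS

open MeasureTheory ProbabilityTheory Filter Topology

namespace S3_aux

variable {V E : Type} [AddCommGroup V] [DecidableEq V] [Fintype E]

theorem pt_nonneg (s : E → V) (q : E → ℝ) (hq : PV q) (t : ℕ) : ∀ x z, 0 ≤ pt s q t x z := by
  induction t with
  | zero =>
    intro x z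
    simp only [pt]
    split_ifs <;> norm_num
  | succ t ih =>
    intro x z
    simp only [pt]
    exact Finset.sum_nonneg fun e _ => mul_nonneg (hq.1 e) (ih _ _)

theorem pt_sum_le (s : E → V) (q : E → ℝ) (hq : PV q) (B : Finset V) (t : ℕ) :
    ∀ x, ∑ z ∈ B, pt s q t x z ≤ 1 := by
  induction t with
  | zero =>
    intro x
    simp only [pt]
    rw [Finset.sum_ite_eq]
    split_ifs <;> norm_num
  | succ t ih =>
    intro x
    simp only [pt]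
    rw [Finset.sum_comm]
    calc ∑ e, ∑ z ∈ B, q e * pt s q t (x + s e) z
        = ∑ e, q e * ∑ z ∈ B, pt s q t (x + s e) z :=
          Finset.sum_congr rfl fun e _ => (Finset.mul_sum _ _ _).symm
      _ ≤ ∑ e, q e * 1 :=
          Finset.sum_le_sum fun e _ => mul_le_mul_of_nonneg_left (ih _) (hq.1 e)
      _ = 1 := by
          rw [← Finset.sum_mul, hq.2, one_mul]

theorem sq_sum_le (s : E → V) (q : E → ℝ) (hq : PV q) (C : ℝ) (hC : 0 ≤ C)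
    (h : ∀ t x z, pt s q t x z ≤ C * ((t : ℝ) + 1) ^ (-(3 / 2) : ℝ)) (B : Finset V) (t : ℕ) :
    ∑ z ∈ B, pt s q t 0 z ^ 2 ≤ C * ((t : ℝ) + 1) ^ (-(3 / 2) : ℝ) := by
  have h0 : 0 ≤ C * ((t : ℝ) + 1) ^ (-(3 / 2) : ℝ) :=
    mul_nonneg hC (Real.rpow_nonneg (by positivity) _)
  calc ∑ z ∈ B, pt s q t 0 z ^ 2
      ≤ ∑ z ∈ B, (C * ((t : ℝ) + 1) ^ (-(3 / 2) : ℝ)) * pt s q t 0 z := by
        refine Finset.sum_le_sum fun z _ => ?_
        rw [sq]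
        exact mul_le_mul_of_nonneg_right (h t 0 z) (pt_nonneg s q hq t 0 z)
    _ = (C * ((t : ℝ) + 1) ^ (-(3 / 2) : ℝ)) * ∑ z ∈ B, pt s q t 0 z :=
        (Finset.mul_sum _ _ _).symm
    _ ≤ (C * ((t : ℝ) + 1) ^ (-(3 / 2) : ℝ)) * 1 :=
        mul_le_mul_of_nonneg_left (pt_sum_le s q hq B t 0) h0
    _ = C * ((t : ℝ) + 1) ^ (-(3 / 2) : ℝ) := mul_one _

theorem sum_rpow (n : ℕ) : ∑ t ∈ Finset.range n, ((t : ℝ) + 1) ^ (-(3 / 4) : ℝ) ≤
    4 * (n : ℝ) ^ (1 / 4 : ℝ) := by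
  induction n with
  | zero => simp
  | succ n ih =>
    rw [Finset.sum_range_succ]
    have hn : (0 : ℝ) ≤ n := n.cast_nonneg
    have hn1 : (0 : ℝ) < (n : ℝ) + 1 := by linarith
    obtain ⟨a, ha⟩ : ∃ a, a = ((n : ℝ) + 1) ^ (1 / 4 : ℝ) := ⟨_, rfl⟩
    obtain ⟨b, hb⟩ : ∃ b, b = (n : ℝ) ^ (1 / 4 : ℝ) := ⟨_, rfl⟩
    have ha0 : 0 < a := by
      rw [ha]
      exact Real.rpow_pos_of_pos hn1 _
    have hb0 : 0 ≤ b := by
      rw [hb]
      exact Real.rpow_nonneg hn _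
    have ha4 : a ^ 4 = (n : ℝ) + 1 := by
      rw [ha, ← Real.rpow_natCast, ← Real.rpow_mul hn1.le]
      norm_num
    have hb4 : b ^ 4 = (n : ℝ) := by
      rw [hb, ← Real.rpow_natCast, ← Real.rpow_mul hn]
      norm_num
    have hab : b ≤ a := by
      rw [ha, hb]
      exact Real.rpow_le_rpow hn (by linarith) (by norm_num)
    have h3 : ((n : ℝ) + 1) ^ (-(3 / 4) : ℝ) = (a ^ 3)⁻¹ := by
      rw [ha, ← Real.rpow_natCast, ← Real.rpow_mul hn1.le, ← Real.rpow_neg hn1.le]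
      norm_num
    rw [h3]
    push_cast
    rw [← ha]
    rw [← hb] at ih
    have h4 : (a ^ 3)⁻¹ ≤ 4 * (a - b) := by
      rw [inv_le_iff_one_le_mul₀ (by positivity)]
      have h5 : (a - b) * ((a + b) * (a ^ 2 + b ^ 2)) = 1 := by
        have h6 : (a - b) * ((a + b) * (a ^ 2 + b ^ 2)) = a ^ 4 - b ^ 4 := by ring
        rw [h6, ha4, hb4]
        ring
      have h7 : (a + b) * (a ^ 2 + b ^ 2) ≤ (2 * a) * (2 * a ^ 2) := by
        have h8 : b ^ 2 ≤ a ^ 2 := pow_le_pow_left₀ hb0 hab 2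
        exact mul_le_mul (by linarith) (by linarith) (by positivity) (by positivity)
      have h9 := mul_le_mul_of_nonneg_left h7 (sub_nonneg.2 hab)
      rw [h5] at h9
      calc (1 : ℝ) ≤ (a - b) * ((2 * a) * (2 * a ^ 2)) := h9
        _ = 4 * (a - b) * a ^ 3 := by ring
    linarith

end S3_aux

open S3_aux in
theorem tS3 : S_S3 := by
  intro V E _ _ _ s q hq C hC h n hn B
  have hn1 : (1 : ℝ) ≤ n := by exact_mod_cast hn
  obtain ⟨w, hw⟩ : ∃ w : ℝ, w = ∑ t ∈ Finset.range n, ((t : ℝ) + 1) ^ (-(3 / 4) : ℝ) := ⟨_, rfl⟩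
  have hw0 : 0 ≤ w := by
    rw [hw]
    exact Finset.sum_nonneg fun t _ => Real.rpow_nonneg (by positivity) _
  have hw1 : w ≤ 4 * (n : ℝ) ^ (1 / 4 : ℝ) := by
    rw [hw]
    exact sum_rpow n
  have h1 : ∀ z, gr s q n 0 z ^ 2 ≤
      w * ∑ t ∈ Finset.range n, pt s q t 0 z ^ 2 * ((t : ℝ) + 1) ^ (3 / 4 : ℝ) := by
    intro z
    rw [gr, hw]
    refine Finset.sum_sq_le_sum_mul_sum_of_sq_le_mul _ (fun t _ => Real.rpow_nonneg
      (by positivity) _) (fun t _ => mul_nonneg (sq_nonneg _) (Real.rpow_nonneg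
      (by positivity) _)) (fun t _ => le_of_eq ?_)
    have h2 : ((t : ℝ) + 1) ^ (-(3 / 4) : ℝ) * ((t : ℝ) + 1) ^ (3 / 4 : ℝ) = 1 := by
      rw [← Real.rpow_add (by positivity)]
      norm_num
    calc pt s q t 0 z ^ 2
        = pt s q t 0 z ^ 2 * (((t : ℝ) + 1) ^ (-(3 / 4) : ℝ) * ((t : ℝ) + 1) ^ (3 / 4 : ℝ)) := by
          rw [h2, mul_one]
      _ = ((t : ℝ) + 1) ^ (-(3 / 4) : ℝ) *
          (pt s q t 0 z ^ 2 * ((t : ℝ) + 1) ^ (3 / 4 : ℝ)) := by ring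
  calc ∑ z ∈ B, gr s q n 0 z ^ 2
      ≤ ∑ z ∈ B, w * ∑ t ∈ Finset.range n, pt s q t 0 z ^ 2 * ((t : ℝ) + 1) ^ (3 / 4 : ℝ) :=
        Finset.sum_le_sum fun z _ => h1 z
    _ = w * ∑ t ∈ Finset.range n, (∑ z ∈ B, pt s q t 0 z ^ 2) * ((t : ℝ) + 1) ^ (3 / 4 : ℝ) := by
        rw [← Finset.mul_sum, Finset.sum_comm]
        refine congrArg _ (Finset.sum_congr rfl fun t _ => ?_)
        rw [Finset.sum_mul]
    _ ≤ w * ∑ t ∈ Finset.range n, C * ((t : ℝ) + 1) ^ (-(3 / 4) : ℝ) := by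
        refine mul_le_mul_of_nonneg_left (Finset.sum_le_sum fun t _ => ?_) hw0
        have h2 : ((t : ℝ) + 1) ^ (-(3 / 2) : ℝ) * ((t : ℝ) + 1) ^ (3 / 4 : ℝ) =
            ((t : ℝ) + 1) ^ (-(3 / 4) : ℝ) := by
          rw [← Real.rpow_add (by positivity)]
          norm_num
        rw [← h2, ← mul_assoc]
        exact mul_le_mul_of_nonneg_right (sq_sum_le s q hq C hC h B t)
          (Real.rpow_nonneg (by positivity) _)
    _ = C * w ^ 2 := by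
        rw [← Finset.mul_sum, ← hw]
        ring
    _ ≤ C * (4 * (n : ℝ) ^ (1 / 4 : ℝ)) ^ 2 :=
        mul_le_mul_of_nonneg_left (pow_le_pow_left₀ hw0 hw1 2) hC
    _ = 16 * C * (n : ℝ) ^ (1 / 2 : ℝ) := by
        have h2 : ((n : ℝ) ^ (1 / 4 : ℝ)) ^ 2 = (n : ℝ) ^ (1 / 2 : ℝ) := by
          rw [← Real.rpow_natCast, ← Real.rpow_mul (by linarith)]
          norm_num
        rw [mul_pow, h2]
        ring
    _ ≤ 16 * C * (n : ℝ) ^ (3 / 4 : ℝ) :=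
        mul_le_mul_of_nonneg_left (Real.rpow_le_rpow_of_exponent_le hn1 (by norm_num))
          (by positivity)

end MP0d3db7NS
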