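import Pool.Agent.Lib.MP_0d3db7.NS.Spec2

/-!
# MP_0d3db7_pr, theorem NS2, module Sc: slices

The triangle inequality in a weighted `ℓ²` space (values in `ENNReal`) gives the recursion of the square
roots of the slices, which is compared with the recursion of `vs`.
-/

set_option autoImplicit false

namespace MP0d3db7NS

open MeasureTheory ProbabilityTheory Filter Topology

namespace Sc_aux

/-- weighted `ℓ²` norm -/
noncomputable def nm {J : Type} (w : J → ENNReal) (f : J → ENNReal) : ENNReal :=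
  (∑' j, w j * f j ^ 2) ^ (1 / 2 : ℝ)

theorem half_two (a : ENNReal) : (a ^ (2 : ℝ)) ^ (1 / 2 : ℝ) = a := by
  rw [← ENNReal.rpow_mul]
  norm_num

theorem two_half (a : ENNReal) : (a ^ (1 / 2 : ℝ)) ^ (2 : ℝ) = a := by
  rw [← ENNReal.rpow_mul]
  norm_num

theorem nm_add {J : Type} (w f g : J → ENNReal) :
    nm w (fun j => f j + g j) ≤ nm w f + nm w g := by
  have e : ∀ (u : J → ENNReal) (j : J), ((w j) ^ (1 / 2 : ℝ) * u j) ^ (2 : ℝ) = w j * u j ^ 2 := by
    intro u j
    rw [ENNReal.mul_rpow_of_nonneg _ _ (by norm_num), two_half, ENNReal.rpow_two]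
  have le : ∀ (u : J → ENNReal) (s : Finset J),
      (∑ j ∈ s, w j * u j ^ 2) ^ (1 / 2 : ℝ) ≤ nm w u := fun u s =>
    ENNReal.rpow_le_rpow (ENNReal.sum_le_tsum s) (by norm_num)
  have key : ∀ s : Finset J,
      ∑ j ∈ s, w j * (f j + g j) ^ 2 ≤ (nm w f + nm w g) ^ (2 : ℝ) := by
    intro s
    have h := ENNReal.Lp_add_le s (fun j => (w j) ^ (1 / 2 : ℝ) * f j)
      (fun j => (w j) ^ (1 / 2 : ℝ) * g j) (p := 2) one_le_two
    simp only [← mul_add] at h
    rw [Finset.sum_congr rfl fun j _ => e (fun j => f j + g j) j,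
      Finset.sum_congr rfl fun j _ => e f j, Finset.sum_congr rfl fun j _ => e g j] at h
    calc ∑ j ∈ s, w j * (f j + g j) ^ 2
        = ((∑ j ∈ s, w j * (f j + g j) ^ 2) ^ (1 / 2 : ℝ)) ^ (2 : ℝ) := (two_half _).symm
      _ ≤ (nm w f + nm w g) ^ (2 : ℝ) :=
          ENNReal.rpow_le_rpow (h.trans (add_le_add (le f s) (le g s))) (by norm_num)
  calc nm w (fun j => f j + g j) ≤ ((nm w f + nm w g) ^ (2 : ℝ)) ^ (1 / 2 : ℝ) := by
        refine ENNReal.rpow_le_rpow ?_ (by norm_num)
        rw [ENNReal.tsum_eq_iSup_sum]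
        exact iSup_le key
    _ = nm w f + nm w g := half_two _

theorem nm_mul {J : Type} (w f : J → ENNReal) (c : ENNReal) :
    nm w (fun j => c * f j) = c * nm w f := by
  unfold nm
  have : ∀ j, w j * (c * f j) ^ 2 = c ^ (2 : ℝ) * (w j * f j ^ 2) := by
    intro j
    rw [ENNReal.rpow_two]
    ring
  simp only [this]
  rw [ENNReal.tsum_mul_left, ENNReal.mul_rpow_of_nonneg _ _ (by norm_num), half_two]

theorem nm_zero {J : Type} (w : J → ENNReal) : nm w (fun _ => 0) = 0 := by
  unfold nm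
  simp

theorem nm_sum {J ι : Type} (w : J → ENNReal) (c : ι → ENNReal) (f : ι → J → ENNReal)
    (s : Finset ι) : nm w (fun j => ∑ e ∈ s, c e * f e j) ≤ ∑ e ∈ s, c e * nm w (f e) := by
  classical
  induction s using Finset.induction_on with
  | empty => simp [nm_zero]
  | insert e s he ih =>
    simp only [Finset.sum_insert he]
    refine (nm_add w _ _).trans ?_
    rw [nm_mul]
    exact add_le_add le_rfl ih

section

variable {V E : Type} [AddCommGroup V] [DecidableEq V] [Fintype E]

omit [AddCommGroup V] [Fintype E] in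
theorem dec_snd (x : V) (m : (V × ℕ) × E) : (dec x m).2 = m.2 := by
  unfold dec
  split <;> rfl

omit [AddCommGroup V] [Fintype E] in
theorem dec_inj {x : V} {m m' : (V × ℕ) × E} (h : m.1 ≠ (x, 0)) (h' : m'.1 ≠ (x, 0))
    (he : dec x m = dec x m') : m = m' := by
  obtain ⟨⟨y, j⟩, a⟩ := m
  obtain ⟨⟨y', j'⟩, a'⟩ := m'
  unfold dec at he
  by_cases h1 : y = x
  · by_cases h2 : y' = x
    · simp only [h1, h2, if_true, Prod.mk.injEq, true_and] at he h h' ⊢
      have hj : j ≠ 0 := fun hj => h (by rw [hj])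
      have hj' : j' ≠ 0 := fun hj => h' (by rw [hj])
      exact ⟨by omega, he.2⟩
    · simp only [h1, h2, if_true, if_false, Prod.mk.injEq] at he
      exact absurd he.1.1.symm h2
  · by_cases h2 : y' = x
    · simp only [h1, h2, if_true, if_false, Prod.mk.injEq] at he
      exact he.1.1.elim
    · simp only [h1, h2, if_false] at he
      exact he

/-- the tuples without the mark `(x, 0)` are mapped injectively -/
theorem inj_le (q : E → ℝ) {k : ℕ} (x : V) (H : (Fin k → (V × ℕ) × E) → ENNReal)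
    (F : (Fin k → (V × ℕ) × E) → ENNReal)
    (h1 : ∀ c : Fin k → (V × ℕ) × E, (∀ j, (c j).1 ≠ (x, 0)) → F c ≤ H fun j => dec x (c j))
    (h2 : ∀ c : Fin k → (V × ℕ) × E, ¬ (∀ j, (c j).1 ≠ (x, 0)) → F c = 0) :
    ∑' c : Fin k → (V × ℕ) × E, (∏ j, ENNReal.ofReal (q (c j).2)) * F c ≤
      ∑' c : Fin k → (V × ℕ) × E, (∏ j, ENNReal.ofReal (q (c j).2)) * H c := by
  classical
  set S : Set (Fin k → (V × ℕ) × E) := {c | ∀ j, (c j).1 ≠ (x, 0)} with hS
  set K : (Fin k → (V × ℕ) × E) → ENNReal := fun c => (∏ j, ENNReal.ofReal (q (c j).2)) * H c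
    with hK
  have e1 : ∀ c, (∏ j, ENNReal.ofReal (q (c j).2)) * F c ≤
      S.indicator (fun c => K fun j => dec x (c j)) c := by
    intro c
    by_cases hc : c ∈ S
    · rw [Set.indicator_of_mem hc]
      simp only [hK, dec_snd]
      gcongr
      exact h1 c hc
    · rw [Set.indicator_of_notMem hc, h2 c hc, mul_zero]
  refine (ENNReal.tsum_le_tsum e1).trans ?_
  rw [← tsum_subtype]
  refine ENNReal.tsum_comp_le_tsum_of_injective (f := fun c : S => fun j => dec x ((c : Fin k → (V × ℕ) × E) j)) ?_ K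
  intro c c' hcc
  apply Subtype.ext
  funext j
  exact dec_inj (c.2 j) (c'.2 j) (congrFun hcc j)

theorem slc_eq (s : E → V) (q : E → ℝ) (f : V → ℂ) (N k : ℕ) (l : Fin (k + 1)) (x z : V) (i : ℕ) :
    slc s q f N k l x z i = ∑' p : E × (Fin k → (V × ℕ) × E),
      (ENNReal.ofReal (q p.1) * ∏ j, ENNReal.ofReal (q (p.2 j).2)) *
        ‖psl s q f N k l x (l.insertNth ((z, i), p.1) p.2)‖ₑ ^ 2 := by
  unfold slc
  rw [ENNReal.tsum_prod' , tsum_fintype]
  refine Finset.sum_congr rfl fun a _ => ?_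
  rw [← ENNReal.tsum_mul_left]
  refine tsum_congr fun c => ?_
  rw [mul_assoc]

theorem enorm_le (q : E → ℝ) (hq : PV q) (g : E → ℂ) :
    ‖∑ e, (q e : ℂ) * g e‖ₑ ≤ ∑ e, ENNReal.ofReal (q e) * ‖g e‖ₑ := by
  refine (enorm_sum_le _ _).trans (Finset.sum_le_sum fun e _ => ?_)
  rw [enorm_mul]
  have : ‖(q e : ℂ)‖ₑ = ENNReal.ofReal (q e) := by
    rw [← ofReal_norm, Complex.norm_real, Real.norm_of_nonneg (hq.1 e)]
  rw [this]

theorem rmv_insert {X : Type} {k : ℕ} (l : Fin (k + 1)) (m : X) (c : Fin k → X) :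
    rmv l (l.insertNth (α := fun _ => X) m c) = c := by
  funext j
  unfold rmv
  rw [Fin.insertNth_apply_succAbove]

omit [AddCommGroup V] [Fintype E] in
theorem dec_insert {k : ℕ} (l : Fin (k + 1)) (x : V) (m m' : (V × ℕ) × E)
    (c : Fin k → (V × ℕ) × E) (h : dec x m = m') :
    (fun j => dec x (l.insertNth (α := fun _ => (V × ℕ) × E) m c j)) =
      l.insertNth (α := fun _ => (V × ℕ) × E) m' fun j => dec x (c j) := by
  funext j
  refine Fin.succAboveCases l ?_ (fun j => ?_) j
  · rw [Fin.insertNth_apply_same, Fin.insertNth_apply_same, h]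
  · rw [Fin.insertNth_apply_succAbove, Fin.insertNth_apply_succAbove]

theorem slc_zero (s : E → V) (q : E → ℝ) (f : V → ℂ) (k : ℕ) (l : Fin (k + 1)) (x z : V) (i : ℕ) :
    slc s q f 0 k l x z i = 0 := by
  unfold slc
  simp [psl]

theorem slc_step (s : E → V) (q : E → ℝ) (f : V → ℂ) (hq : PV q) (N k : ℕ) (l : Fin (k + 1))
    (x z : V) (i i' : ℕ) (hne : (z, i) ≠ (x, 0)) (hd : ∀ a : E, dec x ((z, i), a) = ((z, i'), a)) :
    (slc s q f (N + 1) k l x z i) ^ (1 / 2 : ℝ) ≤
      ∑ e, ENNReal.ofReal (q e) * (slc s q f N k l (x + s e) z i') ^ (1 / 2 : ℝ) := by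
  set w : E × (Fin k → (V × ℕ) × E) → ENNReal := fun p =>
    ENNReal.ofReal (q p.1) * ∏ j, ENNReal.ofReal (q (p.2 j).2) with hw
  set g : E → E × (Fin k → (V × ℕ) × E) → ENNReal := fun e p =>
    ‖psl s q f N k l (x + s e) (l.insertNth ((z, i'), p.1) p.2)‖ₑ with hg
  have h1 : slc s q f (N + 1) k l x z i ≤ ∑' p, w p * (∑ e, ENNReal.ofReal (q e) * g e p) ^ 2 := by
    rw [ENNReal.tsum_prod', tsum_fintype]
    unfold slc
    refine Finset.sum_le_sum fun a _ => ?_
    have h2 := inj_le q x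
      (fun c => (∑ e, ENNReal.ofReal (q e) * g e (a, c)) ^ 2)
      (fun c => ‖psl s q f (N + 1) k l x (l.insertNth ((z, i), a) c)‖ₑ ^ 2) (fun c hc => ?_)
      (fun c hc => ?_)
    · refine (mul_le_mul_right h2 (ENNReal.ofReal (q a))).trans (le_of_eq ?_)
      rw [← ENNReal.tsum_mul_left]
      refine tsum_congr fun c => ?_
      simp only [hw]
      ring
    · have hc' : ∀ j, ((l.insertNth (α := fun _ => (V × ℕ) × E) ((z, i), a) c : Fin (k + 1) → (V × ℕ) × E) j).1 ≠ (x, 0) := by
        intro j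
        refine Fin.succAboveCases l ?_ (fun j => ?_) j
        · rw [Fin.insertNth_apply_same]
          exact hne
        · rw [Fin.insertNth_apply_succAbove]
          exact hc j
      rw [psl, if_pos hc']
      gcongr
      rw [dec_insert l x _ _ c (hd a)]
      exact enorm_le q hq _
    · have hc' : ¬ ∀ j, ((l.insertNth (α := fun _ => (V × ℕ) × E) ((z, i), a) c : Fin (k + 1) → (V × ℕ) × E) j).1 ≠ (x, 0) := by
        intro h
        refine hc fun j => ?_
        have := h (l.succAbove j)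
        rwa [Fin.insertNth_apply_succAbove] at this
      rw [psl, if_neg hc', if_neg]
      · simp
      · rintro ⟨h3, -⟩
        rw [Fin.insertNth_apply_same] at h3
        exact hne h3
  calc (slc s q f (N + 1) k l x z i) ^ (1 / 2 : ℝ)
      ≤ nm w (fun p => ∑ e, ENNReal.ofReal (q e) * g e p) :=
        ENNReal.rpow_le_rpow h1 (by norm_num)
    _ ≤ ∑ e, ENNReal.ofReal (q e) * nm w (g e) := nm_sum w _ g Finset.univ
    _ = _ := by
        refine Finset.sum_congr rfl fun e _ => ?_
        rw [slc_eq]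
        rfl

theorem slc_first (s : E → V) (q : E → ℝ) (f : V → ℂ) (N k : ℕ) (l : Fin (k + 1)) (x : V) :
    slc s q f (N + 1) k l x x 0 ≤ ak s q f N k x := by
  unfold slc ak
  refine Finset.sum_le_sum fun a _ => ?_
  refine mul_le_mul_right (inj_le q x _ _ (fun c hc => ?_) (fun c hc => ?_)) _
  · have h1 : ¬ ∀ j, ((l.insertNth (α := fun _ => (V × ℕ) × E) ((x, 0), a) c : Fin (k + 1) → (V × ℕ) × E) j).1 ≠ (x, 0) := by
      intro h
      have := h l
      rw [Fin.insertNth_apply_same] at this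
      exact this rfl
    have h2 : ((l.insertNth (α := fun _ => (V × ℕ) × E) ((x, 0), a) c : Fin (k + 1) → (V × ℕ) × E) l).1 = (x, 0) ∧
        ∀ j, j ≠ l → ((l.insertNth (α := fun _ => (V × ℕ) × E) ((x, 0), a) c : Fin (k + 1) → (V × ℕ) × E) j).1 ≠ (x, 0) := by
      refine ⟨by rw [Fin.insertNth_apply_same], fun j => ?_⟩
      refine Fin.succAboveCases l ?_ (fun j => ?_) j
      · intro h
        exact absurd rfl h
      · intro _
        rw [Fin.insertNth_apply_succAbove]
        exact hc j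
    rw [psl, if_neg h1, if_pos h2, rmv_insert, Fin.insertNth_apply_same]
  · have h1 : ¬ ∀ j, ((l.insertNth (α := fun _ => (V × ℕ) × E) ((x, 0), a) c : Fin (k + 1) → (V × ℕ) × E) j).1 ≠ (x, 0) := by
      intro h
      have := h l
      rw [Fin.insertNth_apply_same] at this
      exact this rfl
    have h2 : ¬ (((l.insertNth (α := fun _ => (V × ℕ) × E) ((x, 0), a) c : Fin (k + 1) → (V × ℕ) × E) l).1 = (x, 0) ∧
        ∀ j, j ≠ l → ((l.insertNth (α := fun _ => (V × ℕ) × E) ((x, 0), a) c : Fin (k + 1) → (V × ℕ) × E) j).1 ≠ (x, 0)) := by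
      rintro ⟨-, h⟩
      refine hc fun j => ?_
      have := h (l.succAbove j) (Fin.succAbove_ne l j)
      rwa [Fin.insertNth_apply_succAbove] at this
    rw [psl, if_neg h1, if_neg h2]
    simp

theorem vs_nonneg (s : E → V) (q : E → ℝ) (hq : PV q) (t : ℕ) :
    ∀ (x z : V) (i : ℕ), 0 ≤ vs s q t x z i := by
  induction t with
  | zero =>
    intro x z i
    unfold vs
    split <;> norm_num
  | succ t ih =>
    intro x z i
    unfold vs
    split
    · split
      · exact le_rfl
      · exact Finset.sum_nonneg fun e _ => mul_nonneg (hq.1 e) (ih _ _ _)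
    · exact Finset.sum_nonneg fun e _ => mul_nonneg (hq.1 e) (ih _ _ _)

theorem ofReal_vs (s : E → V) (q : E → ℝ) (hq : PV q) (t : ℕ) (x z : V) (i : ℕ) :
    ENNReal.ofReal (∑ e, q e * vs s q t (x + s e) z i) =
      ∑ e, ENNReal.ofReal (q e) * ENNReal.ofReal (vs s q t (x + s e) z i) := by
  rw [ENNReal.ofReal_sum_of_nonneg fun e _ => mul_nonneg (hq.1 e) (vs_nonneg s q hq t _ _ _)]
  refine Finset.sum_congr rfl fun e _ => ?_
  rw [ENNReal.ofReal_mul (hq.1 e)]

/-- the right hand side -/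
noncomputable def R (s : E → V) (q : E → ℝ) (α : ℕ → ENNReal) (z : V) (N : ℕ) (x : V) (i : ℕ) :
    ENNReal :=
  ∑ t ∈ Finset.range N, ENNReal.ofReal (vs s q t x z i) * α (N - 1 - t)

theorem R_succ (s : E → V) (q : E → ℝ) (α : ℕ → ENNReal) (z : V) (N : ℕ) (x : V) (i : ℕ) :
    R s q α z (N + 1) x i = ENNReal.ofReal (vs s q 0 x z i) * α N +
      ∑ t ∈ Finset.range N, ENNReal.ofReal (vs s q (t + 1) x z i) * α (N - 1 - t) := by
  unfold R
  rw [Finset.sum_range_succ']
  rw [add_comm]
  congr 1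
  refine Finset.sum_congr rfl fun t _ => ?_
  congr 2
  omega

theorem R_step (s : E → V) (q : E → ℝ) (hq : PV q) (α : ℕ → ENNReal) (z : V) (N : ℕ) (x : V)
    (i i' : ℕ) (h : ∀ t, vs s q (t + 1) x z i = ∑ e, q e * vs s q t (x + s e) z i') :
    ∑ e, ENNReal.ofReal (q e) * R s q α z N (x + s e) i' ≤ R s q α z (N + 1) x i := by
  rw [R_succ]
  refine le_trans (le_of_eq ?_) le_add_self
  unfold R
  simp only [Finset.mul_sum]
  rw [Finset.sum_comm]
  refine Finset.sum_congr rfl fun t _ => ?_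
  rw [h, ofReal_vs s q hq, Finset.sum_mul]
  refine Finset.sum_congr rfl fun e _ => ?_
  rw [mul_assoc]

end

end Sc_aux

open Sc_aux in
theorem tSc : S_Sc := by
  intro V E _ _ _ s q f hq N k l x z i
  change _ ≤ R s q (fun m => (ak s q f m k z) ^ (1 / 2 : ℝ)) z N x i
  induction N generalizing x i with
  | zero =>
    rw [slc_zero, ENNReal.zero_rpow_of_pos (by norm_num)]
    exact zero_le
  | succ N ih =>
    by_cases hx : x = z
    · subst hx
      rcases Nat.eq_zero_or_pos i with hi | hi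
      · subst hi
        rw [R_succ]
        refine le_trans (ENNReal.rpow_le_rpow (slc_first s q f N k l x) (by norm_num)) ?_
        refine le_trans (le_of_eq ?_) le_self_add
        simp [vs]
      · have hi0 : i ≠ 0 := by omega
        refine (slc_step s q f hq N k l x x i (i - 1) ?_ ?_).trans ?_
        · intro h
          rw [Prod.mk.injEq] at h
          exact hi0 h.2
        · intro a
          unfold dec
          rw [if_pos rfl]
        · refine le_trans ?_ (R_step s q hq _ x N x i (i - 1) fun t => ?_)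
          · exact Finset.sum_le_sum fun e _ => mul_le_mul_right (ih _ _) _
          · rw [vs, if_pos rfl, if_neg hi0]
    · refine (slc_step s q f hq N k l x z i i ?_ ?_).trans ?_
      · intro h
        rw [Prod.mk.injEq] at h
        exact hx h.1.symm
      · intro a
        unfold dec
        rw [if_neg]
        exact fun h => hx h.symm
      · refine le_trans ?_ (R_step s q hq _ z N x i i fun t => ?_)
        · exact Finset.sum_le_sum fun e _ => mul_le_mul_right (ih _ _) _
        · rw [vs, if_neg hx]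

end MP0d3db7NS
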