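import Pool.Agent.Lib.MP_0d3db7.NS.Spec2

/-!
# MP_0d3db7_pr, theorem NS2: the sum over the time (helper97)
-/

set_option autoImplicit false

namespace MP0d3db7NS

open MeasureTheory ProbabilityTheory Filter Topology

namespace Sm_aux

open scoped ENNReal

theorem two_le (a b : ℝ≥0∞) : 2 * (a * b) ≤ a ^ 2 + b ^ 2 := by
  by_cases ha : a = ⊤
  · subst ha
    simp
  by_cases hb : b = ⊤
  · subst hb
    simp
  lift a to NNReal using ha
  lift b to NNReal using hb
  have h : 2 * (a * b) ≤ a ^ 2 + b ^ 2 := by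
    have h1 : (2 * (a * b) : ℝ) ≤ (a : ℝ) ^ 2 + (b : ℝ) ^ 2 := by
      nlinarith [sq_nonneg ((a : ℝ) - b)]
    exact_mod_cast h1
  exact_mod_cast h

/-- Cauchy-Schwarz -/
theorem cs {ι : Type} (s : Finset ι) (p b : ι → ℝ≥0∞) :
    (∑ i ∈ s, p i * b i) ^ 2 ≤ (∑ i ∈ s, p i) * ∑ i ∈ s, p i * b i ^ 2 := by
  have h2 : 2 * (∑ i ∈ s, p i * b i) ^ 2 ≤ 2 * ((∑ i ∈ s, p i) * ∑ i ∈ s, p i * b i ^ 2) := by
    calc 2 * (∑ i ∈ s, p i * b i) ^ 2
        = ∑ i ∈ s, ∑ j ∈ s, p i * p j * (2 * (b i * b j)) := by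
          rw [sq, Finset.sum_mul_sum, Finset.mul_sum]
          refine Finset.sum_congr rfl fun i _ => ?_
          rw [Finset.mul_sum]
          refine Finset.sum_congr rfl fun j _ => ?_
          ring
      _ ≤ ∑ i ∈ s, ∑ j ∈ s, p i * p j * (b i ^ 2 + b j ^ 2) := by
          gcongr with i _ j _
          exact two_le _ _
      _ = ∑ i ∈ s, ∑ j ∈ s, p j * (p i * b i ^ 2) + ∑ i ∈ s, ∑ j ∈ s, p i * (p j * b j ^ 2) := by
          rw [← Finset.sum_add_distrib]
          refine Finset.sum_congr rfl fun i _ => ?_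
          rw [← Finset.sum_add_distrib]
          refine Finset.sum_congr rfl fun j _ => ?_
          ring
      _ = 2 * ((∑ i ∈ s, p i) * ∑ i ∈ s, p i * b i ^ 2) := by
          have e1 : ∑ i ∈ s, ∑ j ∈ s, p j * (p i * b i ^ 2) =
              (∑ i ∈ s, p i) * ∑ i ∈ s, p i * b i ^ 2 := by
            rw [Finset.sum_mul_sum, Finset.sum_comm]
          have e2 : ∑ i ∈ s, ∑ j ∈ s, p i * (p j * b j ^ 2) =
              (∑ i ∈ s, p i) * ∑ i ∈ s, p i * b i ^ 2 := by
            rw [Finset.sum_mul_sum]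
          rw [e1, e2, two_mul]
  exact (ENNReal.mul_le_mul_iff_right (by norm_num) (by norm_num)).1 h2

/-- the shifted sum -/
theorem shift (a : ℕ → ℝ≥0∞) (M t : ℕ) (ht : t < M) :
    ∑ m ∈ (Finset.range (M + 1)).filter (fun m => t < m), a (m - 1 - t) ≤
      ∑ N ∈ Finset.range M, a N := by
  have hinj : Set.InjOn (fun m => m - 1 - t)
      ((Finset.range (M + 1)).filter (fun m => t < m) : Finset ℕ) := by
    intro m hm m' hm' h
    have h1 := (Finset.mem_filter.1 (Finset.mem_coe.1 hm)).2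
    have h2 := (Finset.mem_filter.1 (Finset.mem_coe.1 hm')).2
    simp only at h
    omega
  rw [← Finset.sum_image (f := a) hinj]
  refine Finset.sum_le_sum_of_subset ?_
  intro N hN
  obtain ⟨m, hm, rfl⟩ := Finset.mem_image.1 hN
  have h1 := Finset.mem_filter.1 hm
  have h2 := Finset.mem_range.1 h1.1
  rw [Finset.mem_range]
  have h3 := h1.2
  omega

/-- Young's inequality -/
theorem young (p a : ℕ → ℝ≥0∞) (M : ℕ) :
    ∑ m ∈ Finset.range (M + 1), (∑ t ∈ Finset.range m, p t * a (m - 1 - t)) ^ 2 ≤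
      (∑ t ∈ Finset.range M, p t) ^ 2 * ∑ N ∈ Finset.range M, a N ^ 2 := by
  set P := ∑ t ∈ Finset.range M, p t with hP
  have h1 : ∀ m ∈ Finset.range (M + 1), (∑ t ∈ Finset.range m, p t * a (m - 1 - t)) ^ 2 ≤
      P * ∑ t ∈ Finset.range M, if t < m then p t * a (m - 1 - t) ^ 2 else 0 := by
    intro m hm
    have hm' : m ≤ M := Nat.lt_succ_iff.1 (Finset.mem_range.1 hm)
    refine (cs _ _ _).trans ?_
    refine mul_le_mul' ?_ ?_
    · exact Finset.sum_le_sum_of_subset (Finset.range_mono hm')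
    · have : Finset.range m = (Finset.range M).filter (fun t => t < m) := by
        ext t
        simp only [Finset.mem_range, Finset.mem_filter]
        omega
      rw [this, Finset.sum_filter]
  refine (Finset.sum_le_sum h1).trans ?_
  rw [← Finset.mul_sum, Finset.sum_comm, sq, mul_assoc]
  refine mul_le_mul' le_rfl ?_
  rw [hP, Finset.sum_mul]
  refine Finset.sum_le_sum fun t ht => ?_
  rw [← Finset.sum_filter, ← Finset.mul_sum]
  refine mul_le_mul' le_rfl ?_
  exact shift (fun N => a N ^ 2) M t (Finset.mem_range.1 ht)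

section

variable {V E : Type} [AddCommGroup V] [DecidableEq V] [Fintype E]

theorem vs_nonneg (s : E → V) (q : E → ℝ) (hq : ∀ e, 0 ≤ q e) :
    ∀ (t : ℕ) (x z : V) (i : ℕ), 0 ≤ vs s q t x z i := by
  intro t
  induction t with
  | zero =>
    intro x z i
    rw [vs]
    split_ifs
    · exact zero_le_one
    · exact le_rfl
  | succ t ih =>
    intro x z i
    rw [vs]
    split_ifs
    · exact le_rfl
    · exact Finset.sum_nonneg fun e _ => mul_nonneg (hq e) (ih _ _ _)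
    · exact Finset.sum_nonneg fun e _ => mul_nonneg (hq e) (ih _ _ _)

theorem kb (s : E → V) (q : E → ℝ) (hq : ∀ e, 0 ≤ q e) (M : ℕ) (κ : ℝ) (h : KB s q M κ) :
    ∑' z : V, ∑' i : ℕ, (∑ t ∈ Finset.range M, ENNReal.ofReal (vs s q t 0 z i)) ^ 2 ≤
      ENNReal.ofReal κ := by
  rw [ENNReal.tsum_eq_iSup_sum]
  refine iSup_le fun B => ?_
  rw [← Summable.tsum_finsetSum fun z _ => ENNReal.summable, ENNReal.tsum_eq_iSup_nat]
  refine iSup_le fun I => ?_
  rw [Finset.sum_comm]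
  have e1 : ∀ z i, (∑ t ∈ Finset.range M, ENNReal.ofReal (vs s q t 0 z i)) ^ 2 =
      ENNReal.ofReal ((∑ t ∈ Finset.range M, vs s q t 0 z i) ^ 2) := by
    intro z i
    rw [← ENNReal.ofReal_sum_of_nonneg fun t _ => vs_nonneg s q hq t 0 z i,
      ← ENNReal.ofReal_pow (Finset.sum_nonneg fun t _ => vs_nonneg s q hq t 0 z i)]
  simp only [e1]
  have e2 : ∀ z ∈ B, ∑ i ∈ Finset.range I,
      ENNReal.ofReal ((∑ t ∈ Finset.range M, vs s q t 0 z i) ^ 2) =
      ENNReal.ofReal (∑ i ∈ Finset.range I, (∑ t ∈ Finset.range M, vs s q t 0 z i) ^ 2) :=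
    fun z _ => (ENNReal.ofReal_sum_of_nonneg fun i _ => sq_nonneg _).symm
  rw [Finset.sum_congr rfl e2, ← ENNReal.ofReal_sum_of_nonneg fun z _ =>
    Finset.sum_nonneg fun i _ => sq_nonneg _]
  exact ENNReal.ofReal_le_ofReal (h B I)

theorem enorm_sum_sq {n : ℕ} (a : Fin n → ℂ) :
    ‖∑ l, a l‖ₑ ^ 2 ≤ (n : ℝ≥0∞) * ∑ l, ‖a l‖ₑ ^ 2 := by
  have h1 : ‖∑ l, a l‖ₑ ≤ ∑ l, ‖a l‖ₑ := enorm_sum_le _ _
  have h2 := cs Finset.univ (fun _ : Fin n => (1 : ℝ≥0∞)) (fun l => ‖a l‖ₑ)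
  simp only [one_mul, Finset.sum_const, Finset.card_univ, Fintype.card_fin, nsmul_eq_mul,
    mul_one] at h2
  exact (pow_le_pow_left' h1 2).trans h2

theorem tsum_ins {X : Type} {k : ℕ} (l : Fin (k + 1)) (g : (Fin (k + 1) → X) → ℝ≥0∞) :
    ∑' c, g c = ∑' x : X, ∑' c' : Fin k → X, g (l.insertNth x c') := by
  rw [← (Fin.insertNthEquiv (fun _ => X) l).tsum_eq, ENNReal.tsum_prod']
  rfl

theorem prod_ins {X : Type} {k : ℕ} (l : Fin (k + 1)) (w : X → ℝ≥0∞) (x : X) (c : Fin k → X) :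
    ∏ j, w ((l.insertNth x c : Fin (k + 1) → X) j) = w x * ∏ j, w (c j) := by
  rw [Fin.prod_univ_succAbove _ l]
  simp

/-- the sum over the tuples is the sum of the slices -/
theorem slices (s : E → V) (q : E → ℝ) (f : V → ℂ) (m k : ℕ) (l : Fin (k + 1)) (x : V) :
    ∑' c : Fin (k + 1) → (V × ℕ) × E, (∏ j, ENNReal.ofReal (q (c j).2)) *
      ‖psl s q f m k l x c‖ₑ ^ 2 = ∑' z : V, ∑' i : ℕ, slc s q f m k l x z i := by
  rw [tsum_ins l, ENNReal.tsum_prod', ENNReal.tsum_prod']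
  refine tsum_congr fun z => tsum_congr fun i => ?_
  rw [tsum_fintype, slc]
  refine Finset.sum_congr rfl fun a _ => ?_
  rw [← ENNReal.tsum_mul_left]
  refine tsum_congr fun c => ?_
  rw [prod_ins l (fun y : (V × ℕ) × E => ENNReal.ofReal (q y.2)) ((z, i), a) c]
  ring

end

end Sm_aux

open Sm_aux

theorem tSm (hSl : S_Sl) (hSc : S_Sc) (hTr : S_Tr) : S_Sm := by
  intro V E _ _ _ s q χ hq hχ M k κ hκ
  have hak : ∀ N z, ak s q χ N k z = ak s q χ N k 0 := by
    intro N z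
    have h := (hTr s q χ hχ N k 0 z).2
    rwa [zero_add] at h
  have hslc : ∀ (m : ℕ) (l : Fin (k + 1)) (z : V) (i : ℕ), slc s q χ m k l 0 z i ≤
      (∑ t ∈ Finset.range m, ENNReal.ofReal (vs s q t 0 z i) *
        (ak s q χ (m - 1 - t) k 0) ^ (1 / 2 : ℝ)) ^ 2 := by
    intro m l z i
    have h := hSc s q χ hq m k l 0 z i
    simp only [hak _ z] at h
    have h2 := pow_le_pow_left' h 2
    rwa [← ENNReal.rpow_natCast, ← ENNReal.rpow_mul, show (1 / 2 : ℝ) * ((2 : ℕ) : ℝ) = 1 by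
      norm_num, ENNReal.rpow_one] at h2
  have hsk : ∀ m, sk s q χ m (k + 1) 0 ≤
      ((k : ENNReal) + 1) * ∑ l : Fin (k + 1), ∑' z : V, ∑' i : ℕ, slc s q χ m k l 0 z i := by
    intro m
    calc sk s q χ m (k + 1) 0
        ≤ ∑' c : Fin (k + 1) → (V × ℕ) × E, ∑ l : Fin (k + 1), ((k : ENNReal) + 1) *
            ((∏ j, ENNReal.ofReal (q (c j).2)) * ‖psl s q χ m k l 0 c‖ₑ ^ 2) := by
          refine ENNReal.tsum_le_tsum fun c => ?_
          rw [hSl s q χ m k 0 c, ← Finset.mul_sum, ← Finset.mul_sum, mul_left_comm]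
          refine mul_le_mul' le_rfl ?_
          have h := enorm_sum_sq (fun l => psl s q χ m k l 0 c)
          rwa [Nat.cast_succ] at h
      _ = _ := by
          rw [Summable.tsum_finsetSum fun l _ => ENNReal.summable, Finset.mul_sum]
          refine Finset.sum_congr rfl fun l _ => ?_
          rw [ENNReal.tsum_mul_left, slices]
  set A : ENNReal := ∑ N ∈ Finset.range M, ak s q χ N k 0 with hA
  have hA2 : ∑ N ∈ Finset.range M, ((ak s q χ N k 0) ^ (1 / 2 : ℝ)) ^ 2 = A := by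
    refine Finset.sum_congr rfl fun N _ => ?_
    rw [← ENNReal.rpow_natCast, ← ENNReal.rpow_mul, show (1 / 2 : ℝ) * ((2 : ℕ) : ℝ) = 1 by
      norm_num, ENNReal.rpow_one]
  have hl : ∀ l : Fin (k + 1), ∑ m ∈ Finset.range (M + 1), ∑' z : V, ∑' i : ℕ,
      slc s q χ m k l 0 z i ≤ ENNReal.ofReal κ * A := by
    intro l
    rw [← Summable.tsum_finsetSum fun m _ => ENNReal.summable]
    have e1 : ∀ z : V, ∑ m ∈ Finset.range (M + 1), ∑' i : ℕ, slc s q χ m k l 0 z i =
        ∑' i : ℕ, ∑ m ∈ Finset.range (M + 1), slc s q χ m k l 0 z i := fun z =>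
      (Summable.tsum_finsetSum fun m _ => ENNReal.summable).symm
    simp only [e1]
    calc ∑' z : V, ∑' i : ℕ, ∑ m ∈ Finset.range (M + 1), slc s q χ m k l 0 z i
        ≤ ∑' z : V, ∑' i : ℕ,
            (∑ t ∈ Finset.range M, ENNReal.ofReal (vs s q t 0 z i)) ^ 2 * A := by
          refine ENNReal.tsum_le_tsum fun z => ENNReal.tsum_le_tsum fun i => ?_
          refine (Finset.sum_le_sum fun m _ => hslc m l z i).trans ?_
          rw [← hA2]
          exact young _ _ M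
      _ = (∑' z : V, ∑' i : ℕ,
            (∑ t ∈ Finset.range M, ENNReal.ofReal (vs s q t 0 z i)) ^ 2) * A := by
          rw [← ENNReal.tsum_mul_right]
          refine tsum_congr fun z => ?_
          rw [ENNReal.tsum_mul_right]
      _ ≤ _ := mul_le_mul' (kb s q hq.1 M κ hκ) le_rfl
  calc ∑ m ∈ Finset.range (M + 1), sk s q χ m (k + 1) 0
      ≤ ∑ m ∈ Finset.range (M + 1), ((k : ENNReal) + 1) *
          ∑ l : Fin (k + 1), ∑' z : V, ∑' i : ℕ, slc s q χ m k l 0 z i :=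
        Finset.sum_le_sum fun m _ => hsk m
    _ = ((k : ENNReal) + 1) * ∑ l : Fin (k + 1), ∑ m ∈ Finset.range (M + 1),
          ∑' z : V, ∑' i : ℕ, slc s q χ m k l 0 z i := by
        rw [← Finset.mul_sum, Finset.sum_comm]
    _ ≤ ((k : ENNReal) + 1) * ∑ _l : Fin (k + 1), ENNReal.ofReal κ * A :=
        mul_le_mul' le_rfl (Finset.sum_le_sum fun l _ => hl l)
    _ = ((k : ENNReal) + 1) ^ 2 * ENNReal.ofReal κ * A := by
        rw [Finset.sum_const, Finset.card_univ, Fintype.card_fin, nsmul_eq_mul, Nat.cast_succ]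
        ring

end MP0d3db7NS
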