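import Pool.Agent.Lib.MP_0d3db7.NS.Spec

/-!
# MP_0d3db7_pr, theorem NS, module Sp: nonsingular covariance
-/

set_option autoImplicit false

namespace MP0d3db7NS

open MeasureTheory ProbabilityTheory Filter Topology

namespace Sp_aux

/-- the real vector of the step `e` -/
noncomputable def W {d : ℕ} (e : Dr d) : Fin d → ℝ := fun i => (st d e i : ℝ)

theorem drift_eq {d : ℕ} (q : Dr d → ℝ) : drift q = ∑ e, q e • W e := by
  funext i
  simp [drift, W, Finset.sum_apply]

theorem sg_mulVec {d : ℕ} (q : Dr d → ℝ) (φ : (Fin d → ℝ) →ₗ[ℝ] ℝ) :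
    (Sg q).mulVec (fun i => φ (Pi.single i 1)) =
      fun i => ∑ e, q e * (W e i - drift q i) * φ (W e - drift q) := by
  funext i
  have h1 : ∀ x : Fin d → ℝ, φ x = ∑ j, x j * φ (Pi.single j 1) := by
    intro x
    conv_lhs => rw [pi_eq_sum_univ' x]
    simp only [map_sum, map_smul, smul_eq_mul]
  simp only [Matrix.mulVec, dotProduct, Sg, Matrix.of_apply]
  simp only [h1 (W _ - drift q), Finset.sum_mul, Finset.mul_sum]
  rw [Finset.sum_comm]
  refine Finset.sum_congr rfl fun e _ => Finset.sum_congr rfl fun j _ => ?_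
  simp only [W, Pi.sub_apply]
  ring

theorem span_top {d : ℕ} (q : Dr d → ℝ) (hq : PV q) (hdet : (Sg q).det ≠ 0) (f0 : Dr d) :
    Submodule.span ℝ (Set.range fun e : {e : Dr d // 0 < q e} => W e.1 - W f0) = ⊤ := by
  by_contra hne
  obtain ⟨φ, hφ0, hφ⟩ := Submodule.exists_le_ker_of_lt_top _ (lt_top_iff_ne_top.2 hne)
  have h1 : ∀ e, 0 < q e → φ (W e) = φ (W f0) := by
    intro e he
    have h2 : W e - W f0 ∈ LinearMap.ker φ :=
      hφ (Submodule.subset_span ⟨⟨e, he⟩, rfl⟩)
    rw [LinearMap.mem_ker, map_sub, sub_eq_zero] at h2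
    exact h2
  have h2 : φ (drift q) = φ (W f0) := by
    rw [drift_eq, map_sum]
    have h3 : ∀ e ∈ Finset.univ, φ (q e • W e) = q e * φ (W f0) := by
      intro e _
      rw [map_smul, smul_eq_mul]
      rcases (hq.1 e).lt_or_eq with h | h
      · rw [h1 e h]
      · rw [← h, zero_mul, zero_mul]
    rw [Finset.sum_congr rfl h3, ← Finset.sum_mul, hq.2, one_mul]
  have h3 : (Sg q).mulVec (fun i => φ (Pi.single i 1)) = 0 := by
    rw [sg_mulVec]
    funext i
    refine Finset.sum_eq_zero fun e _ => ?_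
    rcases (hq.1 e).lt_or_eq with h | h
    · rw [map_sub, h1 e h, h2, sub_self, mul_zero]
    · rw [← h, zero_mul, zero_mul]
  have h4 : (fun i => φ (Pi.single i 1)) ≠ (0 : Fin d → ℝ) := by
    intro h
    apply hφ0
    refine LinearMap.pi_ext' fun i => ?_
    ext
    have := congrFun h i
    simpa using this
  exact hdet (Matrix.exists_mulVec_eq_zero_iff.1 ⟨_, h4, h3⟩)

end Sp_aux

open Sp_aux in
theorem tSp : S_Sp := by
  intro d q hq hdet
  obtain ⟨f0, hf0⟩ : ∃ f0, 0 < q f0 := by
    by_contra h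
    push Not at h
    have h1 : ∑ e, q e ≤ 0 := Finset.sum_nonpos fun e _ => h e
    rw [hq.2] at h1
    linarith
  obtain ⟨b, hb, hsp, hli⟩ := exists_linearIndependent ℝ
    (Set.range fun e : {e : Dr d // 0 < q e} => W e.1 - W f0)
  rw [span_top q hq hdet f0] at hsp
  let B : Module.Basis b ℝ (Fin d → ℝ) := Module.Basis.mk hli (by rw [Subtype.range_coe, hsp])
  have hfin : Finite b := Module.Finite.finite_basis B
  have : Fintype b := Fintype.ofFinite b
  have hcard : Fintype.card b = d := by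
    rw [← Module.finrank_eq_card_basis B]
    simp
  let E : Fin d ≃ b := (finCongr hcard.symm).trans (Fintype.equivFin b).symm
  have hex : ∀ i, ∃ e : {e : Dr d // 0 < q e}, W e.1 - W f0 = (E i : Fin d → ℝ) := fun i =>
    hb (E i).2
  choose g hg using hex
  refine ⟨f0, fun i => (g i).1, hf0, fun i => (g i).2, ?_⟩
  intro l hl
  have h1 : LinearIndependent ℝ (fun i => (E i : Fin d → ℝ)) := hli.comp E E.injective
  have h2 : ∑ i, (l i : ℝ) • (E i : Fin d → ℝ) = 0 := by
    simp only [← hg]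
    funext j
    have h3 := congrArg (fun z : ℤ => (z : ℝ)) (congrFun hl j)
    simp only [Finset.sum_apply, Pi.smul_apply, Pi.sub_apply, smul_eq_mul, Pi.zero_apply,
      Int.cast_sum, Int.cast_mul, Int.cast_sub, Int.cast_zero] at h3
    simpa only [Finset.sum_apply, Pi.smul_apply, Pi.sub_apply, smul_eq_mul, Pi.zero_apply, W]
      using h3
  have h3 := Fintype.linearIndependent_iff.1 h1 _ h2
  funext i
  exact_mod_cast h3 i

end MP0d3db7NS
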