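import Pool.Agent.Lib.MP_0d3db7.NS.Spec

/-!
# MP_0d3db7_pr, theorem NS, module Su: the maximum of the transition probabilities
-/

set_option autoImplicit false

namespace MP0d3db7NS

open MeasureTheory ProbabilityTheory Filter Topology

namespace Su_aux

section alg

variable {V E : Type} [AddCommGroup V]

/-- multiplication by `ρ` multiplies the upper bounds of the coefficients by `μ` -/
def Sb (μ : ℝ) (ρ : AddMonoidAlgebra ℝ V) : Prop :=
  0 ≤ μ ∧ ∀ (H : AddMonoidAlgebra ℝ V) (M : ℝ), 0 ≤ M → (∀ y, H.coeff y ≤ M) →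
    ∀ y, (ρ * H).coeff y ≤ μ * M

theorem Sb_one : Sb 1 (1 : AddMonoidAlgebra ℝ V) :=
  ⟨zero_le_one, fun H M _ h y => by rw [one_mul, one_mul]; exact h y⟩

theorem Sb_mul {μ μ' : ℝ} {ρ ρ' : AddMonoidAlgebra ℝ V} (h : Sb μ ρ) (h' : Sb μ' ρ') :
    Sb (μ * μ') (ρ * ρ') :=
  ⟨mul_nonneg h.1 h'.1, fun H M hM hH y => by
    rw [mul_assoc, mul_assoc]
    exact h.2 _ _ (mul_nonneg h'.1 hM) (h'.2 H M hM hH) y⟩

theorem Sb_pow {μ : ℝ} {ρ : AddMonoidAlgebra ℝ V} (h : Sb μ ρ) (k : ℕ) : Sb (μ ^ k) (ρ ^ k) := by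
  induction k with
  | zero => rw [pow_zero, pow_zero]; exact Sb_one
  | succ k ih => rw [pow_succ, pow_succ]; exact Sb_mul ih h

theorem Sb_prod {ι : Type} (I : Finset ι) (μ : ι → ℝ) (ρ : ι → AddMonoidAlgebra ℝ V)
    (h : ∀ i ∈ I, Sb (μ i) (ρ i)) : Sb (∏ i ∈ I, μ i) (∏ i ∈ I, ρ i) := by
  classical
  induction I using Finset.induction_on with
  | empty => rw [Finset.prod_empty, Finset.prod_empty]; exact Sb_one
  | insert a I ha ih =>
    rw [Finset.prod_insert ha, Finset.prod_insert ha]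
    exact Sb_mul (h a (Finset.mem_insert_self a I))
      (ih fun i hi => h i (Finset.mem_insert_of_mem hi))

theorem Sb_single (v : V) {r : ℝ} (hr : 0 ≤ r) : Sb r (AddMonoidAlgebra.single v r) :=
  ⟨hr, fun H M _ hH y => by
    rw [AddMonoidAlgebra.coeff_single_mul_apply]
    exact mul_le_mul_of_nonneg_left (hH _) hr⟩

theorem Sb_zero : Sb 0 (0 : AddMonoidAlgebra ℝ V) :=
  ⟨le_rfl, fun H M _ _ y => by
    rw [zero_mul, zero_mul]
    exact le_of_eq rfl⟩

theorem Sb_add {μ μ' : ℝ} {ρ ρ' : AddMonoidAlgebra ℝ V} (h : Sb μ ρ) (h' : Sb μ' ρ') :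
    Sb (μ + μ') (ρ + ρ') :=
  ⟨add_nonneg h.1 h'.1, fun H M hM hH y => by
    rw [add_mul, add_mul, AddMonoidAlgebra.coeff_add, Finsupp.add_apply]
    exact add_le_add (h.2 H M hM hH y) (h'.2 H M hM hH y)⟩

theorem Sb_sum {ι : Type} (I : Finset ι) (v : ι → V) (r : ι → ℝ) (hr : ∀ i, 0 ≤ r i) :
    Sb (∑ i ∈ I, r i) (∑ i ∈ I, AddMonoidAlgebra.single (v i) (r i)) := by
  classical
  induction I using Finset.induction_on with
  | empty => rw [Finset.sum_empty, Finset.sum_empty]; exact Sb_zero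
  | insert a I ha ih =>
    rw [Finset.sum_insert ha, Finset.sum_insert ha]
    exact Sb_add (Sb_single (v a) (hr a)) ih

/-- splitting off two atoms -/
theorem split [Fintype E] [DecidableEq E] (s : E → V) (q : E → ℝ) (f0 g : E) (δ : ℝ) :
    Qa s q = (2 * δ) • (AddMonoidAlgebra.single (s f0) (1 / 2 : ℝ) +
      AddMonoidAlgebra.single (s g) (1 / 2 : ℝ)) +
      ∑ e, AddMonoidAlgebra.single (s e)
        (q e - (if e = f0 then δ else 0) - (if e = g then δ else 0)) := by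
  have h1 : ∀ f : E, ∑ e, AddMonoidAlgebra.single (s e) (if e = f then δ else 0) =
      AddMonoidAlgebra.single (s f) δ := by
    intro f
    rw [Finset.sum_eq_single f]
    · rw [if_pos rfl]
    · intro e _ he
      rw [if_neg he, AddMonoidAlgebra.single_zero]
    · intro h
      exact absurd (Finset.mem_univ f) h
  have h2 : Qa s q = ∑ e, (AddMonoidAlgebra.single (s e) (if e = f0 then δ else 0) +
      AddMonoidAlgebra.single (s e) (if e = g then δ else 0) +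
      AddMonoidAlgebra.single (s e)
        (q e - (if e = f0 then δ else 0) - (if e = g then δ else 0))) := by
    rw [Qa]
    refine Finset.sum_congr rfl fun e _ => ?_
    rw [← AddMonoidAlgebra.single_add, ← AddMonoidAlgebra.single_add]
    congr 1
    ring
  rw [h2, Finset.sum_add_distrib, Finset.sum_add_distrib, h1, h1, smul_add,
    AddMonoidAlgebra.smul_single, AddMonoidAlgebra.smul_single]
  congr 3
  · rw [smul_eq_mul]
    ring
  · rw [smul_eq_mul]
    ring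

end alg

/-- the binomial weights -/
noncomputable def pj (p : ℝ) (τ j : ℕ) : ℝ := p ^ j * (1 - p) ^ (τ - j) * (τ.choose j : ℝ)

theorem pj_nonneg {p : ℝ} (h0 : 0 ≤ p) (h1 : p ≤ 1) (τ j : ℕ) : 0 ≤ pj p τ j := by
  have : 0 ≤ 1 - p := by linarith
  unfold pj
  positivity

theorem pj_sum (p : ℝ) (τ : ℕ) : ∑ j ∈ Finset.range (τ + 1), pj p τ j = 1 := by
  have h := add_pow p (1 - p) τ
  rw [add_sub_cancel, one_pow] at h
  exact h.symm

theorem pj_sum_div {p : ℝ} (h0 : 0 < p) (h1 : p ≤ 1) (τ : ℕ) :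
    ∑ j ∈ Finset.range (τ + 1), pj p τ j / ((j : ℝ) + 1) ≤ 1 / (p * ((τ : ℝ) + 1)) := by
  have h2 : ∀ j, pj p τ j / ((j : ℝ) + 1) * (p * ((τ : ℝ) + 1)) = pj p (τ + 1) (j + 1) := by
    intro j
    have h3 : ((τ : ℝ) + 1) * (τ.choose j : ℝ) = ((τ + 1).choose (j + 1) : ℝ) * ((j : ℝ) + 1) := by
      have := Nat.add_one_mul_choose_eq τ j
      exact_mod_cast this
    have h4 : (j : ℝ) + 1 ≠ 0 := by positivity
    have h5 : τ + 1 - (j + 1) = τ - j := by omega
    unfold pj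
    rw [h5, pow_succ]
    field_simp
    linear_combination ((1 - p) ^ (τ - j)) * h3
  have h3 := pj_sum p (τ + 1)
  rw [Finset.sum_range_succ'] at h3
  have h4 := pj_nonneg h0.le h1 (τ + 1) 0
  rw [le_div_iff₀ (by positivity), Finset.sum_mul, Finset.sum_congr rfl fun j _ => h2 j]
  linarith

/-- the factor -/
noncomputable def W (p : ℝ) (τ : ℕ) : ℝ :=
  ∑ j ∈ Finset.range (τ + 1), pj p τ j * (1 / Real.sqrt ((j : ℝ) + 1))

theorem W_nonneg {p : ℝ} (h0 : 0 ≤ p) (h1 : p ≤ 1) (τ : ℕ) : 0 ≤ W p τ :=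
  Finset.sum_nonneg fun j _ => mul_nonneg (pj_nonneg h0 h1 τ j) (by positivity)

theorem W_sq {p : ℝ} (h0 : 0 < p) (h1 : p ≤ 1) (τ : ℕ) : W p τ ^ 2 ≤ 1 / (p * ((τ : ℝ) + 1)) := by
  have h2 : W p τ ^ 2 ≤ (∑ j ∈ Finset.range (τ + 1), pj p τ j) *
      ∑ j ∈ Finset.range (τ + 1), pj p τ j / ((j : ℝ) + 1) := by
    refine Finset.sum_sq_le_sum_mul_sum_of_sq_eq_mul _ (fun j _ => pj_nonneg h0.le h1 τ j)
      (fun j _ => div_nonneg (pj_nonneg h0.le h1 τ j) (by positivity)) fun j _ => ?_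
    have h3 : Real.sqrt ((j : ℝ) + 1) ^ 2 = (j : ℝ) + 1 := Real.sq_sqrt (by positivity)
    rw [mul_pow, div_pow, one_pow, h3]
    ring
  rw [pj_sum, one_mul] at h2
  exact h2.trans (pj_sum_div h0 h1 τ)

end Su_aux

open Su_aux in
theorem tSu (hAl : S_Al) (hBi : S_Bi) : S_Su := by
  classical
  intro V E _ _ _ s q hq m f0 g hf0 hg hl
  have hQ : Sb 1 (Qa s q) := by
    have h := Sb_sum (Finset.univ : Finset E) s q hq.1
    rw [hq.2] at h
    exact h
  rcases Nat.eq_zero_or_pos m with hm | hm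
  · refine ⟨1, zero_le_one, fun t x z => ?_⟩
    rw [hAl s q t x z, hm, Nat.cast_zero, zero_div, neg_zero, Real.rpow_zero, mul_one]
    have h1 := (Sb_pow hQ t).2 1 1 zero_le_one (fun y => by
      rw [AddMonoidAlgebra.one_def, AddMonoidAlgebra.coeff_single, Finsupp.single_apply]
      split_ifs <;> norm_num) (z - x)
    rw [mul_one, one_pow, one_mul] at h1
    exact h1
  -- the minimum
  obtain ⟨δ, hδ0, hδf, hδg⟩ : ∃ δ : ℝ, 0 < δ ∧ δ ≤ q f0 ∧ ∀ i, δ ≤ q (g i) := by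
    obtain ⟨e0, he0, hmin⟩ := Finset.exists_min_image
      (insert f0 (Finset.univ.image g)) q ⟨f0, Finset.mem_insert_self _ _⟩
    refine ⟨q e0, ?_, hmin f0 (Finset.mem_insert_self _ _), fun i => hmin (g i) ?_⟩
    · rcases Finset.mem_insert.1 he0 with h | h
      · rw [h]
        exact hf0
      · obtain ⟨i, _, hi⟩ := Finset.mem_image.1 h
        rw [← hi]
        exact hg i
    · exact Finset.mem_insert_of_mem (Finset.mem_image_of_mem g (Finset.mem_univ i))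
  have hne : ∀ i, g i ≠ f0 := by
    intro i hi
    have h1 := hl (Pi.single i 1) (by
      refine Finset.sum_eq_zero fun j _ => ?_
      by_cases hj : j = i
      · rw [hj, hi, sub_self, smul_zero]
      · rw [Pi.single_eq_of_ne hj, zero_smul])
    have h2 := congrFun h1 i
    rw [Pi.single_eq_same] at h2
    exact one_ne_zero h2
  obtain ⟨r, hr⟩ : ∃ r : Fin m → E → ℝ, r = fun i e =>
    q e - (if e = f0 then δ else 0) - (if e = g i then δ else 0) := ⟨_, rfl⟩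
  have hr0 : ∀ i e, 0 ≤ r i e := by
    intro i e
    rw [hr]
    dsimp only
    by_cases h1 : e = f0
    · have h2 : e ≠ g i := fun h => hne i (h.symm.trans h1)
      rw [if_pos h1, if_neg h2, h1]
      linarith
    · rw [if_neg h1]
      by_cases h2 : e = g i
      · rw [if_pos h2, h2]
        linarith [hδg i]
      · rw [if_neg h2]
        linarith [hq.1 e]
  have hr1 : ∀ i, ∑ e, r i e = 1 - 2 * δ := by
    intro i
    rw [hr]
    dsimp only
    rw [Finset.sum_sub_distrib, Finset.sum_sub_distrib, hq.2, Finset.sum_ite_eq', Finset.sum_ite_eq',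
      if_pos (Finset.mem_univ _), if_pos (Finset.mem_univ _)]
    ring
  have hp0 : 0 < 2 * δ := by linarith
  have hp1 : 2 * δ ≤ 1 := by
    have h1 : 0 ≤ ∑ e, r ⟨0, hm⟩ e := Finset.sum_nonneg fun e _ => hr0 _ e
    rw [hr1] at h1
    linarith
  obtain ⟨b, hb⟩ : ∃ b : Fin m → AddMonoidAlgebra ℝ V, b = fun i =>
    AddMonoidAlgebra.single (s f0) (1 / 2 : ℝ) + AddMonoidAlgebra.single (s (g i)) (1 / 2 : ℝ) :=
    ⟨_, rfl⟩
  obtain ⟨ρ, hρ⟩ : ∃ ρ : Fin m → AddMonoidAlgebra ℝ V, ρ = fun i =>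
    ∑ e, AddMonoidAlgebra.single (s e) (r i e) := ⟨_, rfl⟩
  have hρb : ∀ i, Sb (1 - 2 * δ) (ρ i) := by
    intro i
    rw [← hr1 i, hρ]
    exact Sb_sum _ s (r i) (hr0 i)
  have hsp : ∀ i, Qa s q = (2 * δ) • b i + ρ i := by
    intro i
    rw [hb, hρ, hr]
    exact split s q f0 (g i) δ
  -- the coefficients of `Q ^ (τ m)`
  have hmain : ∀ (τ : ℕ) (y : V), ((Qa s q ^ τ) ^ m).coeff y ≤ W (2 * δ) τ ^ m := by
    intro τ y
    have h1 : ∀ i : Fin m, Qa s q ^ τ = ∑ j ∈ Finset.range (τ + 1),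
        ((2 * δ) ^ j * (τ.choose j : ℝ)) • (ρ i ^ (τ - j) * b i ^ j) := by
      intro i
      rw [hsp i, add_pow]
      refine Finset.sum_congr rfl fun j _ => ?_
      rw [smul_pow, mul_smul, ← nsmul_eq_mul', mul_comm (ρ i ^ (τ - j)), smul_mul_assoc,
        smul_comm, Nat.cast_smul_eq_nsmul]
    have h2 : (Qa s q ^ τ) ^ m = ∑ j ∈ Fintype.piFinset fun _ : Fin m => Finset.range (τ + 1),
        (∏ i, ((2 * δ) ^ j i * (τ.choose (j i) : ℝ))) •
          ((∏ i, ρ i ^ (τ - j i)) * ∏ i, b i ^ j i) := by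
      have h3 : (Qa s q ^ τ) ^ m = ∏ _i : Fin m, Qa s q ^ τ := by
        rw [Finset.prod_const, Finset.card_univ, Fintype.card_fin]
      rw [h3, Finset.prod_congr rfl fun i _ => h1 i, Finset.prod_univ_sum]
      refine Finset.sum_congr rfl fun j _ => ?_
      rw [Finset.prod_smul]
      congr 1
      rw [Finset.prod_mul_distrib]
    rw [h2, AddMonoidAlgebra.coeff_sum, Finsupp.finset_sum_apply]
    have h4 : W (2 * δ) τ ^ m = ∑ j ∈ Fintype.piFinset fun _ : Fin m => Finset.range (τ + 1),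
        ∏ i, (pj (2 * δ) τ (j i) * (1 / Real.sqrt ((j i : ℝ) + 1))) := by
      rw [← Finset.prod_univ_sum (fun _ : Fin m => Finset.range (τ + 1))
        (fun _ j => pj (2 * δ) τ j * (1 / Real.sqrt ((j : ℝ) + 1))), Finset.prod_const,
        Finset.card_univ, Fintype.card_fin]
      rfl
    rw [h4]
    refine Finset.sum_le_sum fun j _ => ?_
    rw [AddMonoidAlgebra.coeff_smul, Finsupp.smul_apply, smul_eq_mul]
    have h5 : ((∏ i, ρ i ^ (τ - j i)) * ∏ i, b i ^ j i).coeff y ≤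
        (∏ i, (1 - 2 * δ) ^ (τ - j i)) * ∏ i, 1 / Real.sqrt ((j i : ℝ) + 1) := by
      refine (Sb_prod Finset.univ (fun i => (1 - 2 * δ) ^ (τ - j i)) (fun i => ρ i ^ (τ - j i))
        fun i _ => Sb_pow (hρb i) _).2 _ _ ?_ ?_ y
      · exact Finset.prod_nonneg fun i _ => by positivity
      · intro y'
        rw [hb]
        exact hBi m (s f0) (fun i => s (g i)) hl j y'
    calc (∏ i, ((2 * δ) ^ j i * (τ.choose (j i) : ℝ))) *
          ((∏ i, ρ i ^ (τ - j i)) * ∏ i, b i ^ j i).coeff y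
        ≤ (∏ i, ((2 * δ) ^ j i * (τ.choose (j i) : ℝ))) *
          ((∏ i, (1 - 2 * δ) ^ (τ - j i)) * ∏ i, 1 / Real.sqrt ((j i : ℝ) + 1)) :=
          mul_le_mul_of_nonneg_left h5 (Finset.prod_nonneg fun i _ => by positivity)
      _ = ∏ i, (pj (2 * δ) τ (j i) * (1 / Real.sqrt ((j i : ℝ) + 1))) := by
          rw [← Finset.prod_mul_distrib, ← Finset.prod_mul_distrib]
          refine Finset.prod_congr rfl fun i _ => ?_
          unfold pj
          ring
  -- the conclusion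
  obtain ⟨K, hK⟩ : ∃ K : ℝ, K = (m : ℝ) / (2 * δ) := ⟨_, rfl⟩
  have hm0 : (0 : ℝ) < m := by exact_mod_cast hm
  have hK0 : 0 ≤ K := by rw [hK]; positivity
  refine ⟨K ^ ((m : ℝ) / 2), Real.rpow_nonneg hK0 _, fun t x z => ?_⟩
  rw [hAl s q t x z]
  obtain ⟨τ, hτ⟩ : ∃ τ : ℕ, τ = t / m := ⟨_, rfl⟩
  have hτ1 : τ * m ≤ t := by
    rw [hτ]
    exact Nat.div_mul_le_self t m
  have hτ2 : t < m * (τ + 1) := by
    rw [hτ]
    exact Nat.lt_mul_div_succ t hm
  have hW0 := W_nonneg hp0.le hp1 τ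
  have h6 : (Qa s q ^ t).coeff (z - x) ≤ W (2 * δ) τ ^ m := by
    have h7 : Qa s q ^ t = Qa s q ^ (t - τ * m) * (Qa s q ^ τ) ^ m := by
      rw [← pow_mul, ← pow_add, Nat.sub_add_cancel hτ1]
    rw [h7]
    have h8 := (Sb_pow hQ (t - τ * m)).2 _ _ (pow_nonneg hW0 m) (hmain τ) (z - x)
    rw [one_pow, one_mul] at h8
    exact h8
  refine h6.trans ?_
  have h9 : W (2 * δ) τ ^ 2 ≤ K / ((t : ℝ) + 1) := by
    refine (W_sq hp0 hp1 τ).trans ?_
    rw [hK, div_div, div_le_div_iff₀ (by positivity) (by positivity)]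
    have h10 : (t : ℝ) + 1 ≤ m * ((τ : ℝ) + 1) := by
      have : t + 1 ≤ m * (τ + 1) := hτ2
      exact_mod_cast this
    nlinarith
  have h11 : W (2 * δ) τ ^ m = (W (2 * δ) τ ^ 2) ^ ((m : ℝ) / 2) := by
    rw [← Real.rpow_natCast (W (2 * δ) τ) 2, ← Real.rpow_mul hW0, ← Real.rpow_natCast]
    congr 1
    push_cast
    ring
  rw [h11]
  calc (W (2 * δ) τ ^ 2) ^ ((m : ℝ) / 2) ≤ (K / ((t : ℝ) + 1)) ^ ((m : ℝ) / 2) :=
        Real.rpow_le_rpow (by positivity) h9 (by positivity)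
    _ = K ^ ((m : ℝ) / 2) * ((t : ℝ) + 1) ^ (-((m : ℝ) / 2)) := by
        rw [Real.div_rpow hK0 (by positivity), Real.rpow_neg (by positivity), div_eq_mul_inv]

end MP0d3db7NS
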