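import Pool.Agent.Lib.MP_0d3db7.NS.Spec2

/-!
# MP_0d3db7_pr, theorem NS2, module Sz: sizes of the windows
-/

set_option autoImplicit false

namespace MP0d3db7NS

open MeasureTheory ProbabilityTheory Filter Topology

namespace Sz_aux

/-- `x / (1 + log x)` is nondecreasing for `x ≥ 1` -/
theorem div_log_le {x y : ℝ} (hx : 1 ≤ x) (hxy : x ≤ y) :
    x / (1 + Real.log x) ≤ y / (1 + Real.log y) := by
  have hx0 : 0 < x := by linarith
  have hy0 : 0 < y := by linarith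
  have h1 : 0 ≤ Real.log x := Real.log_nonneg hx
  have h2 : 0 ≤ Real.log y := Real.log_nonneg (hx.trans hxy)
  rw [div_le_div_iff₀ (by linarith) (by linarith)]
  have h3 : Real.log y = Real.log x + Real.log (y / x) := by
    rw [Real.log_div hy0.ne' hx0.ne']
    ring
  have h4 : Real.log (y / x) ≤ y / x - 1 := Real.log_le_sub_one_of_pos (div_pos hy0 hx0)
  have h5 : x * (y / x - 1) = y - x := by
    field_simp
  have h6 : x * Real.log (y / x) ≤ y - x := by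
    rw [← h5]
    exact mul_le_mul_of_nonneg_left h4 hx0.le
  have h7 : x * Real.log x ≤ y * Real.log x := mul_le_mul_of_nonneg_right hxy h1
  rw [h3]
  nlinarith

theorem one_le_rpow' {θ : ℝ} (hθ : 0 < θ) {b : ℕ} (hb : 1 ≤ b) : 1 ≤ (b : ℝ) ^ θ :=
  Real.one_le_rpow (by exact_mod_cast hb) hθ.le

theorem le_gb (θ : ℝ) (b : ℕ) : (b : ℝ) ^ θ ≤ gb θ b := by
  rw [gb]
  push_cast
  exact (Nat.lt_floor_add_one _).le

theorem gb_le (θ : ℝ) (b : ℕ) : (gb θ b : ℝ) ≤ (b : ℝ) ^ θ + 1 := by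
  rw [gb]
  push_cast
  have := Nat.floor_le (Real.rpow_nonneg (Nat.cast_nonneg b) θ)
  linarith

/-- `gb θ b ≤ 2 ^ b` -/
theorem gb_le_pow {θ : ℝ} (hθ1 : θ < 1) {b : ℕ} (hb : 1 ≤ b) : gb θ b ≤ 2 ^ b := by
  have h1 : (b : ℝ) ^ θ ≤ b := by
    conv_rhs => rw [← Real.rpow_one (b : ℝ)]
    exact Real.rpow_le_rpow_of_exponent_le (by exact_mod_cast hb) hθ1.le
  have h2 : ⌊(b : ℝ) ^ θ⌋₊ ≤ b := by
    have := Nat.floor_mono h1
    rwa [Nat.floor_natCast] at this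
  have h3 : b < 2 ^ b := Nat.lt_two_pow_self
  rw [gb]
  omega

/-- `2 ^ b < gb * hb` -/
theorem lt_mul (θ : ℝ) (b : ℕ) : 2 ^ b < gb θ b * hb θ b := by
  have h1 : 0 < gb θ b := by rw [gb]; omega
  have h2 := Nat.div_add_mod (2 ^ b) (gb θ b)
  have h3 := Nat.mod_lt (2 ^ b) h1
  rw [hb, mul_add, mul_one]
  omega

/-- `gb * hb ≤ 2 ^ b + gb` -/
theorem mul_le' (θ : ℝ) (b : ℕ) : gb θ b * hb θ b ≤ 2 ^ b + gb θ b := by
  rw [hb, mul_add, mul_one]
  have := Nat.mul_div_le (2 ^ b) (gb θ b)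
  omega

/-- `hb ≤ 2 ^ b + 1` -/
theorem hb_le (θ : ℝ) (b : ℕ) : hb θ b ≤ 2 ^ b + 1 := by
  rw [hb]
  have := Nat.div_le_self (2 ^ b) (gb θ b)
  omega

end Sz_aux

open Sz_aux in
/-- **Sz**: sizes of the windows. -/
theorem tSz : S_Sz := by
  intro θ hθ hθ1 b hb1
  have hg1 : 1 ≤ gb θ b := by rw [gb]; omega
  have hh1 : 1 ≤ hb θ b := by
    rw [hb]
    exact Nat.le_add_left 1 _
  have hr1 := one_le_rpow' hθ hb1
  have hgr := le_gb θ b
  have hgu := gb_le θ b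
  have hg2 : (gb θ b : ℝ) ≤ 2 * (b : ℝ) ^ θ := by linarith
  have hlt := lt_mul θ b
  have hle := mul_le' θ b
  have hhb := hb_le θ b
  have hgp := gb_le_pow hθ1 hb1
  have hb0 : (0 : ℝ) < b := by exact_mod_cast hb1
  refine ⟨hg1, hg2, hh1, ?_, ?_, ?_, ?_⟩
  · have h1 : ((2 ^ b / gb θ b : ℕ) : ℝ) ≤ (2 : ℝ) ^ b / gb θ b := by
      have := @Nat.cast_div_le ℝ _ _ _ (2 ^ b) (gb θ b)
      push_cast at this ⊢
      exact this
    have h2 : (2 : ℝ) ^ b / gb θ b ≤ 2 ^ b * (b : ℝ) ^ (-θ) := by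
      rw [Real.rpow_neg hb0.le, ← div_eq_mul_inv]
      exact div_le_div_of_nonneg_left (by positivity) (by linarith) hgr
    rw [hb]
    push_cast
    linarith
  · intro n hn1 hn2
    have hdm := Nat.div_add_mod (n - 2 ^ b) (hb θ b)
    have hmod := Nat.mod_lt (n - 2 ^ b) (by omega : 0 < hb θ b)
    have hpow : 2 ^ (b + 1) = 2 * 2 ^ b := by ring
    refine ⟨(n - 2 ^ b) / hb θ b, ?_, ?_, ?_⟩
    · by_contra hcon
      rw [not_le] at hcon
      have : gb θ b * hb θ b ≤ hb θ b * ((n - 2 ^ b) / hb θ b) := by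
        rw [mul_comm (gb θ b)]
        exact Nat.mul_le_mul_left _ hcon.le
      omega
    · rw [nw, mul_comm ((n - 2 ^ b) / hb θ b)]
      omega
    · rw [nw, mul_comm ((n - 2 ^ b) / hb θ b)]
      omega
  · intro i hi
    have hpow : 2 ^ (b + 1) = 2 * 2 ^ b := by ring
    have hpow2 : 2 ^ (b + 2) = 4 * 2 ^ b := by ring
    rw [hpow] at hi
    rw [hpow2]
    omega
  · intro i hi
    have hM1 : 1 ≤ nw θ b i + hb θ b := by omega
    have hM2 : nw θ b i + hb θ b ≤ 2 ^ (b + 3) := by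
      have hpow : 2 ^ (b + 3) = 8 * 2 ^ b := by ring
      have h1 : i * hb θ b ≤ gb θ b * hb θ b := Nat.mul_le_mul_right _ hi
      have h2 : 1 ≤ 2 ^ b := Nat.one_le_two_pow
      rw [hpow, nw]
      omega
    have h1 : (((nw θ b i + hb θ b : ℕ) : ℝ) / (1 + Real.log ((nw θ b i + hb θ b : ℕ) : ℝ))) ≤
        (2 : ℝ) ^ (b + 3) / (1 + Real.log ((2 : ℝ) ^ (b + 3))) :=
      div_log_le (by exact_mod_cast hM1) (by exact_mod_cast hM2)
    have h2 : (b : ℝ) / 2 ≤ 1 + Real.log ((2 : ℝ) ^ (b + 3)) := by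
      rw [Real.log_pow]
      push_cast
      have := Real.log_two_gt_d9
      nlinarith
    have h3 : (2 : ℝ) ^ (b + 3) / (1 + Real.log ((2 : ℝ) ^ (b + 3))) ≤ 16 * 2 ^ b / b := by
      calc (2 : ℝ) ^ (b + 3) / (1 + Real.log ((2 : ℝ) ^ (b + 3))) ≤ 2 ^ (b + 3) / ((b : ℝ) / 2) :=
            div_le_div_of_nonneg_left (by positivity) (by linarith) h2
        _ = 16 * 2 ^ b / b := by
            rw [pow_add]
            field_simp
            ring
    have hh0 : (0 : ℝ) < hb θ b := by exact_mod_cast hh1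
    have h4 : (2 : ℝ) ^ b / hb θ b ≤ 2 * (b : ℝ) ^ θ := by
      rw [div_le_iff₀ hh0]
      have h5 : (2 : ℝ) ^ b ≤ gb θ b * hb θ b := by exact_mod_cast hlt.le
      exact h5.trans (mul_le_mul_of_nonneg_right hg2 hh0.le)
    calc (((nw θ b i + hb θ b : ℕ) : ℝ) / (1 + Real.log ((nw θ b i + hb θ b : ℕ) : ℝ))) / hb θ b
        ≤ 16 * 2 ^ b / b / hb θ b := div_le_div_of_nonneg_right (h1.trans h3) hh0.le
      _ = 16 / b * (2 ^ b / hb θ b) := by ring
      _ ≤ 16 / b * (2 * (b : ℝ) ^ θ) := mul_le_mul_of_nonneg_left h4 (by positivity)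
      _ = 32 * (b : ℝ) ^ (θ - 1) := by
          rw [Real.rpow_sub_one hb0.ne']
          ring

end MP0d3db7NS
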