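import Pool.Agent.Lib.MP_0d3db7.NS.Spec

/-!
# MP_0d3db7_pr, theorem NS, module Tu: the chaos as a sum over tuples (helper94)
-/

set_option autoImplicit false

namespace MP0d3db7NS

open MeasureTheory ProbabilityTheory Filter Topology

namespace Tu_aux

variable {ι E : Type} [DecidableEq ι]

theorem sb_comm (F : (ι → E → ℝ) → ℝ) {κ κ' : ι} (h : κ' ≠ κ) (p p' : E → ℝ) :
    sb (sb F κ p) κ' p' = sb (sb F κ' p') κ p := by
  funext w
  simp only [sb]
  rw [Function.update_comm h]

theorem dl_sb [DecidableEq E] (q : E → ℝ) (κ : ι) (c : List (ι × E)) :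
    ∀ F : (ι → E → ℝ) → ℝ, (∀ a ∈ c, a.1 ≠ κ) → Dl q c (sb F κ q) = Dl q c F := by
  induction c with
  | nil =>
    intro F _
    simp only [Dl, sb]
    rw [Function.update_eq_self_iff.2 rfl]
  | cons a c ih =>
    intro F h
    have h1 : a.1 ≠ κ := h a List.mem_cons_self
    have h2 : ∀ b ∈ c, b.1 ≠ κ := fun b hb => h b (List.mem_cons_of_mem _ hb)
    simp only [Dl]
    rw [sb_comm F h1, sb_comm F h1, ih _ h2, ih _ h2]

theorem dl_sub [DecidableEq E] (q : E → ℝ) (c : List (ι × E)) :
    ∀ F G : (ι → E → ℝ) → ℝ, Dl q c (fun w => F w - G w) = Dl q c F - Dl q c G := by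
  induction c with
  | nil =>
    intro F G
    rfl
  | cons a c ih =>
    intro F G
    simp only [Dl]
    have h1 : ∀ p, sb (fun w => F w - G w) a.1 p = fun w => sb F a.1 p w - sb G a.1 p w :=
      fun p => rfl
    rw [h1, h1, ih, ih]
    ring

open Classical in
/-- the weight of a tuple -/
noncomputable def wg [DecidableEq E] (q : E → ℝ) (F : (ι → E → ℝ) → ℝ) {k : ℕ}
    (c : Fin k → ι × E) : ℝ :=
  if Function.Injective (fun j => (c j).1) then
    (∏ j, q (c j).2) * Dl q (List.ofFn c) F ^ 2 else 0

theorem wg_nonneg [DecidableEq E] {q : E → ℝ} (hq : ∀ e, 0 ≤ q e) (F : (ι → E → ℝ) → ℝ) {k : ℕ}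
    (c : Fin k → ι × E) : 0 ≤ wg q F c := by
  unfold wg
  split_ifs with h
  · exact mul_nonneg (Finset.prod_nonneg fun j _ => hq _) (sq_nonneg _)
  · exact le_rfl

theorem main [Fintype E] [DecidableEq E] (q : E → ℝ) (hq : ∀ e, 0 ≤ q e) (l : List ι) :
    ∀ (J : Finset ι), l.Nodup → (∀ κ ∈ l, κ ∈ J) → ∀ (k : ℕ) (F : (ι → E → ℝ) → ℝ),
    Cs q l k F ≤
      ∑ c ∈ Fintype.piFinset (fun _ : Fin k => J ×ˢ (Finset.univ : Finset E)), wg q F c := by
  induction l with
  | nil =>
    intro J _ _ k F
    cases k with
    | zero =>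
      simp only [Cs]
      refine le_of_eq ?_
      rw [Fintype.piFinset_of_isEmpty, Fintype.sum_subsingleton _ default]
      simp [wg, Dl, Function.injective_of_subsingleton]
    | succ k =>
      simp only [Cs]
      exact Finset.sum_nonneg fun c _ => wg_nonneg hq F c
  | cons κ l ih =>
    intro J hnd hJ k F
    have hκ : κ ∉ l := (List.nodup_cons.1 hnd).1
    have hnd' : l.Nodup := (List.nodup_cons.1 hnd).2
    have hJ' : ∀ κ' ∈ l, κ' ∈ J.erase κ := by
      intro κ' h'
      refine Finset.mem_erase.2 ⟨?_, hJ κ' (List.mem_cons_of_mem _ h')⟩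
      rintro rfl
      exact hκ h'
    cases k with
    | zero =>
      simp only [Cs]
      refine (ih J hnd' (fun κ' h' => hJ κ' (List.mem_cons_of_mem _ h')) 0 _).trans (le_of_eq ?_)
      refine Finset.sum_congr rfl fun c _ => ?_
      simp only [wg, List.ofFn_zero, Dl, sb]
      rw [Function.update_eq_self_iff.2 rfl]
    | succ k =>
      simp only [Cs]
      set A := Fintype.piFinset (fun _ : Fin (k + 1) => J.erase κ ×ˢ (Finset.univ : Finset E))
        with hA
      set A' := Fintype.piFinset (fun _ : Fin k => J.erase κ ×ˢ (Finset.univ : Finset E))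
        with hA'
      have h1 : Cs q l (k + 1) (sb F κ q) ≤ ∑ c ∈ A, wg q F c := by
        refine (ih _ hnd' hJ' (k + 1) _).trans (le_of_eq (Finset.sum_congr rfl fun c hc => ?_))
        have hc' : ∀ a ∈ List.ofFn c, a.1 ≠ κ := by
          intro a ha
          obtain ⟨j, rfl⟩ := (List.mem_ofFn' _ _).1 ha
          have := Fintype.mem_piFinset.1 hc j
          exact (Finset.mem_erase.1 (Finset.mem_product.1 this).1).1
        simp only [wg]
        rw [dl_sb q κ _ F hc']
      have h2 : ∀ e, q e * Cs q l k (fun w => sb F κ (dl e) w - sb F κ q w) ≤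
          ∑ c ∈ A', wg q F (Fin.cons (κ, e) c : Fin (k + 1) → ι × E) := by
        intro e
        refine (mul_le_mul_of_nonneg_left (ih _ hnd' hJ' k _) (hq e)).trans ?_
        rw [Finset.mul_sum]
        refine Finset.sum_le_sum fun c hc => ?_
        by_cases hinj : Function.Injective (fun j => (c j).1)
        · have hinj' : Function.Injective
              (fun j => ((Fin.cons (κ, e) c : Fin (k + 1) → ι × E) j).1) := by
            have h3 : (fun j => ((Fin.cons (κ, e) c : Fin (k + 1) → ι × E) j).1) =
                (Fin.cons κ (fun j => (c j).1) : Fin (k + 1) → ι) := by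
              funext j
              refine Fin.cases ?_ (fun j => ?_) j
              · simp
              · simp
            rw [h3, Fin.cons_injective_iff]
            refine ⟨?_, hinj⟩
            rintro ⟨j, hj⟩
            have h4 := Fintype.mem_piFinset.1 hc j
            exact (Finset.mem_erase.1 (Finset.mem_product.1 h4).1).1 hj
          refine le_of_eq ?_
          simp only [wg]
          rw [if_pos hinj, if_pos hinj', Fin.prod_univ_succ, dl_sub]
          have h5 : List.ofFn (Fin.cons (κ, e) c : Fin (k + 1) → ι × E) =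
              (κ, e) :: List.ofFn c := by
            rw [List.ofFn_succ]
            simp
          rw [h5]
          simp only [Fin.cons_zero, Fin.cons_succ, Dl]
          ring
        · have h3 : wg q (fun w => sb F κ (dl e) w - sb F κ q w) c = 0 := by
            simp only [wg]
            rw [if_neg hinj]
          rw [h3, mul_zero]
          exact wg_nonneg hq _ _
      let B : Finset (Fin (k + 1) → ι × E) := (Finset.univ ×ˢ A').image
        fun p : E × (Fin k → ι × E) => (Fin.cons (κ, p.1) p.2 : Fin (k + 1) → ι × E)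
      have hB : ∑ c ∈ B, wg q F c =
          ∑ e, ∑ c ∈ A', wg q F (Fin.cons (κ, e) c : Fin (k + 1) → ι × E) := by
        rw [Finset.sum_image, Finset.sum_product]
        rintro ⟨e, c⟩ - ⟨e', c'⟩ - h
        have h3 := Fin.cons_injective2 h
        exact Prod.ext (congrArg Prod.snd h3.1) h3.2
      have hdis : Disjoint A B := by
        rw [Finset.disjoint_left]
        intro c hc hcB
        obtain ⟨p, -, rfl⟩ := Finset.mem_image.1 hcB
        have h3 := Fintype.mem_piFinset.1 hc 0
        have h4 := (Finset.mem_erase.1 (Finset.mem_product.1 h3).1).1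
        simp at h4
      have hsub : A ∪ B ⊆
          Fintype.piFinset (fun _ : Fin (k + 1) => J ×ˢ (Finset.univ : Finset E)) := by
        intro c hc
        rw [Fintype.mem_piFinset]
        intro j
        rw [Finset.mem_product]
        refine ⟨?_, Finset.mem_univ _⟩
        rcases Finset.mem_union.1 hc with hc | hc
        · exact (Finset.mem_erase.1
            (Finset.mem_product.1 (Fintype.mem_piFinset.1 hc j)).1).2
        · obtain ⟨p, hp, rfl⟩ := Finset.mem_image.1 hc
          refine Fin.cases ?_ (fun j => ?_) j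
          · simpa using hJ κ List.mem_cons_self
          · simp only [Fin.cons_succ]
            exact (Finset.mem_erase.1 (Finset.mem_product.1
              (Fintype.mem_piFinset.1 (Finset.mem_product.1 hp).2 j)).1).2
      calc Cs q l (k + 1) (sb F κ q) +
            ∑ e, q e * Cs q l k (fun w => sb F κ (dl e) w - sb F κ q w)
          ≤ ∑ c ∈ A, wg q F c +
            ∑ e, ∑ c ∈ A', wg q F (Fin.cons (κ, e) c : Fin (k + 1) → ι × E) :=
            add_le_add h1 (Finset.sum_le_sum fun e _ => h2 e)
        _ = ∑ c ∈ A ∪ B, wg q F c := by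
            rw [Finset.sum_union hdis, hB]
        _ ≤ _ := Finset.sum_le_sum_of_subset_of_nonneg hsub fun c _ _ => wg_nonneg hq F c

end Tu_aux

theorem tTu : S_Tu := by
  intro ι E _ _ _ q hq l J hnd hJ k F
  exact Tu_aux.main q hq l J hnd hJ k F

end MP0d3db7NS
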