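import Pool.Agent.Lib.MP_0d3db7.NS.Spec2
import Pool.Agent.Lib.MP_0d3db7.NS.Tu
import Pool.Agent.Lib.MP_0d3db7.NS.Df

/-!
# MP_0d3db7_pr, theorem NS2, module Tk: chaos and tuples, with the factorial (helper55)
-/

set_option autoImplicit false

namespace MP0d3db7NS

open MeasureTheory ProbabilityTheory Filter Topology

namespace Tk_aux

variable {ι E : Type} [DecidableEq ι]

open Tu_aux

theorem rmv_ins {X : Type} {k : ℕ} (j : Fin (k + 1)) (a : X) (c : Fin k → X) :
    rmv j (j.insertNth a c : Fin (k + 1) → X) = c := by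
  funext i
  simp only [rmv]
  exact Fin.insertNth_apply_succAbove (α := fun _ => X) j a c i

omit [DecidableEq ι] in
theorem inj_ins {k : ℕ} (j : Fin (k + 1)) (a : ι × E) (c : Fin k → ι × E)
    (hc : Function.Injective fun i => (c i).1) (ha : ∀ i, (c i).1 ≠ a.1) :
    Function.Injective fun i => ((j.insertNth a c : Fin (k + 1) → ι × E) i).1 := by
  intro i i' h
  simp only at h
  rcases Fin.eq_self_or_eq_succAbove j i with rfl | ⟨i, rfl⟩
  · rcases Fin.eq_self_or_eq_succAbove i i' with rfl | ⟨i', rfl⟩
    · rfl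
    · rw [Fin.insertNth_apply_same, Fin.insertNth_apply_succAbove] at h
      exact absurd h.symm (ha i')
  · rcases Fin.eq_self_or_eq_succAbove j i' with rfl | ⟨i', rfl⟩
    · rw [Fin.insertNth_apply_same, Fin.insertNth_apply_succAbove] at h
      exact absurd h (ha i)
    · rw [Fin.insertNth_apply_succAbove, Fin.insertNth_apply_succAbove] at h
      rw [hc h]

theorem wg_ins [Fintype E] [DecidableEq E] (q : E → ℝ) (hq : ∀ e, 0 ≤ q e)
    (F : (ι → E → ℝ) → ℝ) {k : ℕ} (j : Fin (k + 1)) (κ : ι) (e : E) (c : Fin k → ι × E)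
    (hc : ∀ i, (c i).1 ≠ κ) :
    q e * wg q (fun w => sb F κ (dl e) w - sb F κ q w) c ≤
      wg q F (j.insertNth (κ, e) c : Fin (k + 1) → ι × E) := by
  by_cases hinj : Function.Injective (fun j => (c j).1)
  · have hinj' := inj_ins j (κ, e) c hinj hc
    refine le_of_eq ?_
    simp only [wg]
    rw [if_pos hinj, if_pos hinj', Fin.prod_univ_succAbove _ j, dl_sub,
      Df_aux.Dl_perm q (Df_aux.ofFn_perm j _ hinj') (Df_aux.nodup_fst _ hinj'), rmv_ins]
    simp only [Fin.insertNth_apply_same, Fin.insertNth_apply_succAbove, Dl]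
    ring
  · have h3 : wg q (fun w => sb F κ (dl e) w - sb F κ q w) c = 0 := by
      simp only [wg]
      rw [if_neg hinj]
    rw [h3, mul_zero]
    exact wg_nonneg hq _ _

theorem main [Fintype E] [DecidableEq E] (q : E → ℝ) (hq : ∀ e, 0 ≤ q e) (l : List ι) :
    ∀ (J : Finset ι), l.Nodup → (∀ κ ∈ l, κ ∈ J) → ∀ (k : ℕ) (F : (ι → E → ℝ) → ℝ),
    (Nat.factorial k : ℝ) * Cs q l k F ≤
      ∑ c ∈ Fintype.piFinset (fun _ : Fin k => J ×ˢ (Finset.univ : Finset E)), wg q F c := by
  induction l with
  | nil =>
    intro J _ _ k F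
    cases k with
    | zero =>
      simp only [Cs]
      refine le_of_eq ?_
      rw [Fintype.piFinset_of_isEmpty, Fintype.sum_subsingleton _ default]
      simp [wg, Dl, Function.injective_of_subsingleton]
    | succ k =>
      simp only [Cs, mul_zero]
      exact Finset.sum_nonneg fun c _ => wg_nonneg hq F c
  | cons κ l ih =>
    intro J hnd hJ k F
    have hκ : κ ∉ l := (List.nodup_cons.1 hnd).1
    have hnd' : l.Nodup := (List.nodup_cons.1 hnd).2
    have hJ' : ∀ κ' ∈ l, κ' ∈ J.erase κ := by
      intro κ' h'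
      refine Finset.mem_erase.2 ⟨?_, hJ κ' (List.mem_cons_of_mem _ h')⟩
      rintro rfl
      exact hκ h'
    cases k with
    | zero =>
      simp only [Cs]
      refine (ih J hnd' (fun κ' h' => hJ κ' (List.mem_cons_of_mem _ h')) 0 _).trans (le_of_eq ?_)
      refine Finset.sum_congr rfl fun c _ => ?_
      simp only [wg, List.ofFn_zero, Dl, sb]
      rw [Function.update_eq_self_iff.2 rfl]
    | succ k =>
      simp only [Cs]
      set A := Fintype.piFinset (fun _ : Fin (k + 1) => J.erase κ ×ˢ (Finset.univ : Finset E))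
        with hA
      set A' := Fintype.piFinset (fun _ : Fin k => J.erase κ ×ˢ (Finset.univ : Finset E))
        with hA'
      have hA'κ : ∀ c ∈ A', ∀ i, (c i).1 ≠ κ := fun c hc i =>
        (Finset.mem_erase.1 (Finset.mem_product.1 (Fintype.mem_piFinset.1 hc i)).1).1
      have h1 : (Nat.factorial (k + 1) : ℝ) * Cs q l (k + 1) (sb F κ q) ≤ ∑ c ∈ A, wg q F c := by
        refine (ih _ hnd' hJ' (k + 1) _).trans (le_of_eq (Finset.sum_congr rfl fun c hc => ?_))
        have hc' : ∀ a ∈ List.ofFn c, a.1 ≠ κ := by
          intro a ha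
          obtain ⟨j, rfl⟩ := (List.mem_ofFn' _ _).1 ha
          have := Fintype.mem_piFinset.1 hc j
          exact (Finset.mem_erase.1 (Finset.mem_product.1 this).1).1
        simp only [wg]
        rw [dl_sb q κ _ F hc']
      have h2 : ∀ (j : Fin (k + 1)) (e : E), q e * ((Nat.factorial k : ℝ) *
          Cs q l k (fun w => sb F κ (dl e) w - sb F κ q w)) ≤
          ∑ c ∈ A', wg q F (j.insertNth (κ, e) c : Fin (k + 1) → ι × E) := by
        intro j e
        refine (mul_le_mul_of_nonneg_left (ih _ hnd' hJ' k _) (hq e)).trans ?_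
        rw [Finset.mul_sum]
        exact Finset.sum_le_sum fun c hc => wg_ins q hq F j κ e c (hA'κ c hc)
      let B : Finset (Fin (k + 1) → ι × E) :=
        ((Finset.univ : Finset (Fin (k + 1) × E)) ×ˢ A').image
          fun p : (Fin (k + 1) × E) × (Fin k → ι × E) =>
            (p.1.1.insertNth (κ, p.1.2) p.2 : Fin (k + 1) → ι × E)
      have hB : ∑ c ∈ B, wg q F c =
          ∑ j : Fin (k + 1), ∑ e, ∑ c ∈ A', wg q F (j.insertNth (κ, e) c : Fin (k + 1) → ι × E) := by
        rw [Finset.sum_image, Finset.sum_product, Fintype.sum_prod_type]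
        rintro ⟨⟨j, e⟩, c⟩ hp ⟨⟨j', e'⟩, c'⟩ hp' h
        have hc := (Finset.mem_product.1 hp).2
        have hc' := (Finset.mem_product.1 hp').2
        simp only at h hc hc'
        have hjj : j = j' := by
          by_contra hne
          obtain ⟨i, hi⟩ := Fin.exists_succAbove_eq hne
          have h3 := congrFun h j
          rw [Fin.insertNth_apply_same, ← hi, Fin.insertNth_apply_succAbove] at h3
          exact hA'κ c' hc' i (congrArg Prod.fst h3).symm
        subst hjj
        have h3 := congrFun h j
        rw [Fin.insertNth_apply_same, Fin.insertNth_apply_same] at h3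
        have h4 : c = c' := by
          rw [← rmv_ins j (κ, e) c, ← rmv_ins j (κ, e') c', h]
        have h5 : e = e' := congrArg Prod.snd h3
        rw [h4, h5]
      have hdis : Disjoint A B := by
        rw [Finset.disjoint_left]
        intro c hc hcB
        obtain ⟨p, -, rfl⟩ := Finset.mem_image.1 hcB
        have h3 := Fintype.mem_piFinset.1 hc p.1.1
        have h4 := (Finset.mem_erase.1 (Finset.mem_product.1 h3).1).1
        simp at h4
      have hsub : A ∪ B ⊆
          Fintype.piFinset (fun _ : Fin (k + 1) => J ×ˢ (Finset.univ : Finset E)) := by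
        intro c hc
        rw [Fintype.mem_piFinset]
        intro j
        rw [Finset.mem_product]
        refine ⟨?_, Finset.mem_univ _⟩
        rcases Finset.mem_union.1 hc with hc | hc
        · exact (Finset.mem_erase.1
            (Finset.mem_product.1 (Fintype.mem_piFinset.1 hc j)).1).2
        · obtain ⟨p, hp, rfl⟩ := Finset.mem_image.1 hc
          rcases Fin.eq_self_or_eq_succAbove p.1.1 j with h | ⟨i, h⟩
          · rw [h]
            simpa using hJ κ List.mem_cons_self
          · rw [h]
            simp only [Fin.insertNth_apply_succAbove]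
            exact (Finset.mem_erase.1 (Finset.mem_product.1
              (Fintype.mem_piFinset.1 (Finset.mem_product.1 hp).2 i)).1).2
      calc (Nat.factorial (k + 1) : ℝ) * (Cs q l (k + 1) (sb F κ q) +
            ∑ e, q e * Cs q l k (fun w => sb F κ (dl e) w - sb F κ q w))
          = (Nat.factorial (k + 1) : ℝ) * Cs q l (k + 1) (sb F κ q) +
            ∑ j : Fin (k + 1), ∑ e, q e * ((Nat.factorial k : ℝ) *
              Cs q l k (fun w => sb F κ (dl e) w - sb F κ q w)) := by
            rw [Finset.sum_const, Finset.card_univ, Fintype.card_fin, nsmul_eq_mul, mul_add,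
              Nat.factorial_succ, Finset.mul_sum, Finset.mul_sum]
            congr 1
            refine Finset.sum_congr rfl fun e _ => ?_
            push_cast
            ring
        _ ≤ ∑ c ∈ A, wg q F c + ∑ j : Fin (k + 1), ∑ e, ∑ c ∈ A',
              wg q F (j.insertNth (κ, e) c : Fin (k + 1) → ι × E) :=
            add_le_add h1 (Finset.sum_le_sum fun j _ => Finset.sum_le_sum fun e _ => h2 j e)
        _ = ∑ c ∈ A ∪ B, wg q F c := by
            rw [Finset.sum_union hdis, hB]
        _ ≤ _ := Finset.sum_le_sum_of_subset_of_nonneg hsub fun c _ _ => wg_nonneg hq F c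

end Tk_aux

theorem tTk : S_Tk := by
  intro ι E _ _ _ q hq l J hnd hJ k F
  exact Tk_aux.main q hq l J hnd hJ k F

end MP0d3db7NS
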