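import Pool.Agent.Lib.MP_0d3db7.NS.Spec2
import Pool.Agent.Lib.MP_0d3db7.NS.M2

/-!
# MP_0d3db7_pr, theorem NS2: mean of the test functions for the tightness (helper92)
-/

set_option autoImplicit false

namespace MP0d3db7NS

open MeasureTheory ProbabilityTheory Filter Topology

namespace Tm_aux

theorem tg_ge {d : ℕ} (i0 : Fin d) (M T : ℕ) (hM : 1 ≤ M) (hT : 1 ≤ T)
    (y : EuclideanSpace ℝ (Fin d)) : 1 - y i0 ^ 2 / (2 * (M : ℝ) ^ 2) ≤ tg i0 M T y := by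
  have hM0 : (0 : ℝ) < M := by exact_mod_cast hM
  have hT0 : (0 : ℝ) < T := by exact_mod_cast hT
  have h1 : ∀ j ∈ Finset.range T, 1 - y i0 ^ 2 / (2 * (M : ℝ) ^ 2) ≤
      Real.cos (((j : ℝ) + 1) * y i0 / (M * T)) := by
    intro j hj
    have hj' : (j : ℝ) + 1 ≤ T := by exact_mod_cast Finset.mem_range.mp hj
    have hj0 : (0 : ℝ) ≤ (j : ℝ) + 1 := by positivity
    have h2 := Real.one_sub_sq_div_two_le_cos (x := ((j : ℝ) + 1) * y i0 / (M * T))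
    have h3 : (((j : ℝ) + 1) * y i0 / (M * T)) ^ 2 ≤ y i0 ^ 2 / (M : ℝ) ^ 2 := by
      have h4 : (((j : ℝ) + 1) * y i0 / (M * T)) ^ 2 =
          (((j : ℝ) + 1) ^ 2 / (T : ℝ) ^ 2) * (y i0 ^ 2 / (M : ℝ) ^ 2) := by
        field_simp
      have h5 : ((j : ℝ) + 1) ^ 2 / (T : ℝ) ^ 2 ≤ 1 := by
        rw [div_le_one (by positivity)]
        exact pow_le_pow_left₀ hj0 hj' 2
      rw [h4]
      exact mul_le_of_le_one_left (by positivity) h5
    have h6 : y i0 ^ 2 / (2 * (M : ℝ) ^ 2) = y i0 ^ 2 / (M : ℝ) ^ 2 / 2 := by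
      field_simp
    rw [h6]
    linarith
  have h7 := Finset.sum_le_sum h1
  rw [Finset.sum_const, Finset.card_range, nsmul_eq_mul] at h7
  unfold tg
  have h8 := mul_le_mul_of_nonneg_left h7 (by positivity : (0 : ℝ) ≤ 1 / T)
  have h9 : 1 / (T : ℝ) * ((T : ℝ) * (1 - y i0 ^ 2 / (2 * (M : ℝ) ^ 2))) =
      1 - y i0 ^ 2 / (2 * (M : ℝ) ^ 2) := by
    field_simp
  rw [h9] at h8
  exact h8

end Tm_aux

theorem tTm (_ : S_Pa) : S_Tm := by
  intro d q hq i0 M T n0 m hM hT hn hm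
  have hM0 : (0 : ℝ) < M := by exact_mod_cast hM
  have hn0 : (0 : ℝ) < n0 := by exact_mod_cast hn
  have h1 : ∀ x : Fin d → ℤ, (-(1 / (2 * (M : ℝ) ^ 2 * n0))) *
      ∑ i, ((x i : ℝ) - m * drift q i) ^ 2 + 1 ≤ tg i0 M T (nr q n0 m x) := by
    intro x
    refine le_trans ?_ (Tm_aux.tg_ge i0 M T hM hT (nr q n0 m x))
    have h2 : (nr q n0 m x) i0 ^ 2 = ((x i0 : ℝ) - m * drift q i0) ^ 2 / n0 := by
      unfold nr
      change (((x i0 : ℝ) - m * drift q i0) / Real.sqrt n0) ^ 2 = _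
      rw [div_pow, Real.sq_sqrt hn0.le]
    have h3 : ((x i0 : ℝ) - m * drift q i0) ^ 2 ≤ ∑ i, ((x i : ℝ) - m * drift q i) ^ 2 :=
      Finset.single_le_sum (f := fun i => ((x i : ℝ) - m * drift q i) ^ 2)
        (fun i _ => sq_nonneg _) (Finset.mem_univ i0)
    have h4 : ((x i0 : ℝ) - m * drift q i0) ^ 2 / n0 / (2 * (M : ℝ) ^ 2) =
        1 / (2 * (M : ℝ) ^ 2 * n0) * ((x i0 : ℝ) - m * drift q i0) ^ 2 := by
      field_simp
    have h5 : 1 / (2 * (M : ℝ) ^ 2 * n0) * ((x i0 : ℝ) - m * drift q i0) ^ 2 ≤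
        1 / (2 * (M : ℝ) ^ 2 * n0) * ∑ i, ((x i : ℝ) - m * drift q i) ^ 2 :=
      mul_le_mul_of_nonneg_left h3 (by positivity)
    rw [h2, h4]
    linarith
  refine le_trans ?_ (M2_aux.U_le (st d) q hq.1 h1 m 0 fun _ => 0)
  rw [M2_aux.U_affine (st d) q hq.2 (fun x => ∑ i, ((x i : ℝ) - m * drift q i) ^ 2)]
  have h4 := M2_aux.U_sq hq (fun i => m * drift q i) m 0 fun _ => 0
  have h5 : ∑ i, ((((0 : Fin d → ℤ) i : ℤ) : ℝ) + m * drift q i - m * drift q i) ^ 2 = 0 := by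
    refine Finset.sum_eq_zero fun i _ => ?_
    simp
  rw [h5, zero_add] at h4
  have hm' : (m : ℝ) ≤ 2 * n0 := by exact_mod_cast hm
  have h6 : (0 : ℝ) ≤ 1 / (2 * (M : ℝ) ^ 2 * n0) := by positivity
  have h7 := mul_le_mul_of_nonneg_left (h4.trans hm') h6
  have h8 : 1 / (2 * (M : ℝ) ^ 2 * n0) * (2 * (n0 : ℝ)) = 1 / (M : ℝ) ^ 2 := by
    field_simp
  rw [h8] at h7
  linarith

end MP0d3db7NS
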