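import Pool.Agent.Lib.MP_0d3db7.NS.Spec2

/-!
# MP_0d3db7_pr, theorem NS2: translation invariance (helper50)
-/

set_option autoImplicit false

namespace MP0d3db7NS

open MeasureTheory ProbabilityTheory Filter Topology

namespace Tr_aux

variable {V E : Type} [AddCommGroup V] [DecidableEq V] [Fintype E]

/-- translation of a mark -/
def tau (y : V) : (V × ℕ) × E ≃ (V × ℕ) × E where
  toFun c := ((c.1.1 + y, c.1.2), c.2)
  invFun c := ((c.1.1 - y, c.1.2), c.2)
  left_inv c := by simp
  right_inv c := by simp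

omit [DecidableEq V] [Fintype E] in
theorem tau_iff (x y : V) (c : (V × ℕ) × E) :
    (tau y c).1 = (x + y, 0) ↔ c.1 = (x, 0) := by
  obtain ⟨⟨z, i⟩, a⟩ := c
  simp [tau]

omit [Fintype E] in
theorem dec_tau (x y : V) (c : (V × ℕ) × E) : dec (x + y) (tau y c) = tau y (dec x c) := by
  obtain ⟨⟨z, i⟩, a⟩ := c
  unfold dec tau
  by_cases h : z = x
  · subst h
    simp
  · simp [h]

theorem psi_tr (s : E → V) (q : E → ℝ) (χ : V → ℂ) (hχ : Chr χ) (y : V) :
    ∀ (N k : ℕ) (x : V) (c : Fin k → (V × ℕ) × E),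
      psi s q χ N k (x + y) (fun j => tau y (c j)) = χ y * psi s q χ N k x c := by
  intro N
  induction N with
  | zero =>
    intro k x c
    rcases k with _ | k
    · rw [psi, psi, hχ.add, mul_comm]
    · rw [psi, psi, mul_zero]
  | succ N ih =>
    intro k x c
    have hx : ∀ e, x + y + s e = x + s e + y := fun e => by abel
    rcases k with _ | k
    · rw [psi, psi, Finset.mul_sum]
      refine Finset.sum_congr rfl fun e _ => ?_
      rw [hx, ih]
      ring
    · rw [psi, psi]
      by_cases h : ∀ j, (c j).1 ≠ (x, 0)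
      · have h' : ∀ j, (tau y (c j)).1 ≠ (x + y, 0) := fun j =>
          fun hj => h j ((tau_iff x y (c j)).1 hj)
        rw [if_pos h', if_pos h, Finset.mul_sum]
        refine Finset.sum_congr rfl fun e _ => ?_
        simp only [dec_tau]
        rw [hx, ih]
        ring
      · have h' : ¬ ∀ j, (tau y (c j)).1 ≠ (x + y, 0) := fun hh =>
          h fun j => fun hj => hh j ((tau_iff x y (c j)).2 hj)
        rw [if_neg h', if_neg h, Finset.mul_sum]
        refine Finset.sum_congr rfl fun l _ => ?_
        by_cases h2 : (c l).1 = (x, 0) ∧ ∀ j, j ≠ l → (c j).1 ≠ (x, 0)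
        · have h2' : (tau y (c l)).1 = (x + y, 0) ∧
              ∀ j, j ≠ l → (tau y (c j)).1 ≠ (x + y, 0) :=
            ⟨(tau_iff x y (c l)).2 h2.1, fun j hj hh => h2.2 j hj ((tau_iff x y (c j)).1 hh)⟩
          rw [if_pos h2', if_pos h2]
          have hr : ∀ j, dec (x + y) (rmv l (fun j => tau y (c j)) j) =
              tau y (dec x (rmv l c j)) := fun j => dec_tau x y (rmv l c j)
          have ht : ((tau y (c l)).2 : E) = (c l).2 := rfl
          simp only [hr]
          rw [ht, hx, ih, mul_sub, Finset.mul_sum]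
          refine congrArg (fun t => χ y * psi s q χ N k (x + s (c l).2)
            (fun j => dec x (rmv l c j)) - t) ?_
          refine Finset.sum_congr rfl fun e _ => ?_
          rw [hx, ih]
          ring
        · have h2' : ¬ ((tau y (c l)).1 = (x + y, 0) ∧
              ∀ j, j ≠ l → (tau y (c j)).1 ≠ (x + y, 0)) := fun hh =>
            h2 ⟨(tau_iff x y (c l)).1 hh.1, fun j hj h3 => hh.2 j hj ((tau_iff x y (c j)).2 h3)⟩
          rw [if_neg h2', if_neg h2, mul_zero]

omit [DecidableEq V] in
theorem enorm_chr {χ : V → ℂ} (hχ : Chr χ) (y : V) (z : ℂ) : ‖χ y * z‖ₑ = ‖z‖ₑ := by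
  rw [enorm_mul, ← ofReal_norm (χ y), hχ.norm, ENNReal.ofReal_one, one_mul]

/-- translation of tuples -/
def tu (k : ℕ) (y : V) : (Fin k → (V × ℕ) × E) ≃ (Fin k → (V × ℕ) × E) :=
  Equiv.piCongrRight fun _ => tau y

end Tr_aux

open Tr_aux

theorem tTr : S_Tr := by
  intro V E _ _ _ s q χ hχ N k x y
  constructor
  · rw [sk, sk, ← (tu k y).tsum_eq]
    refine tsum_congr fun c => ?_
    have h1 : psi s q χ N k (x + y) (tu k y c) = χ y * psi s q χ N k x c :=
      psi_tr s q χ hχ y N k x c
    rw [h1, enorm_chr hχ]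
    rfl
  · rw [ak, ak]
    refine Finset.sum_congr rfl fun a _ => ?_
    refine congrArg (fun t => ENNReal.ofReal (q a) * t) ?_
    rw [← (tu k y).tsum_eq]
    refine tsum_congr fun c => ?_
    have hx : ∀ e, x + y + s e = x + s e + y := fun e => by abel
    have h1 : ∀ x : V, psi s q χ N k (x + y) (tu k y c) = χ y * psi s q χ N k x c :=
      fun x => psi_tr s q χ hχ y N k x c
    have h2 : psi s q χ N k (x + y + s a) (tu k y c) -
        ∑ e, (q e : ℂ) * psi s q χ N k (x + y + s e) (tu k y c) =
        χ y * (psi s q χ N k (x + s a) c - ∑ e, (q e : ℂ) * psi s q χ N k (x + s e) c) := by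
      rw [hx, h1, mul_sub, Finset.mul_sum]
      refine congrArg (fun t => χ y * psi s q χ N k (x + s a) c - t) ?_
      refine Finset.sum_congr rfl fun e _ => ?_
      rw [hx, h1]
      ring
    rw [h2, enorm_chr hχ]
    rfl

end MP0d3db7NS
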