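import Pool.Agent.Lib.MP_0d3db7.NS.Main2
import Pool.Agent.Lib.MP_0d3db7.NS.Pa
import Pool.Agent.Lib.MP_0d3db7.NS.Ma
import Pool.Agent.Lib.MP_0d3db7.NS.Dp
import Pool.Agent.Lib.MP_0d3db7.NS.Sw
import Pool.Agent.Lib.MP_0d3db7.NS.Mn
import Pool.Agent.Lib.MP_0d3db7.NS.Df
import Pool.Agent.Lib.MP_0d3db7.NS.Al
import Pool.Agent.Lib.MP_0d3db7.NS.Bi
import Pool.Agent.Lib.MP_0d3db7.NS.Gd
import Pool.Agent.Lib.MP_0d3db7.NS.Lg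
import Pool.Agent.Lib.MP_0d3db7.NS.S2
import Pool.Agent.Lib.MP_0d3db7.NS.S3
import Pool.Agent.Lib.MP_0d3db7.NS.Su
import Pool.Agent.Lib.MP_0d3db7.NS.Sp
import Pool.Agent.Lib.MP_0d3db7.NS.In
import Pool.Agent.Lib.MP_0d3db7.NS.Lm
import Pool.Agent.Lib.MP_0d3db7.NS.Cl
import Pool.Agent.Lib.MP_0d3db7.NS.Id
import Pool.Agent.Lib.MP_0d3db7.NS.Tr
import Pool.Agent.Lib.MP_0d3db7.NS.En
import Pool.Agent.Lib.MP_0d3db7.NS.Sl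
import Pool.Agent.Lib.MP_0d3db7.NS.Sc
import Pool.Agent.Lib.MP_0d3db7.NS.Sm
import Pool.Agent.Lib.MP_0d3db7.NS.Tk
import Pool.Agent.Lib.MP_0d3db7.NS.Lk
import Pool.Agent.Lib.MP_0d3db7.NS.Cb
import Pool.Agent.Lib.MP_0d3db7.NS.Cx
import Pool.Agent.Lib.MP_0d3db7.NS.Cw
import Pool.Agent.Lib.MP_0d3db7.NS.Bo
import Pool.Agent.Lib.MP_0d3db7.NS.Pd
import Pool.Agent.Lib.MP_0d3db7.NS.Pw
import Pool.Agent.Lib.MP_0d3db7.NS.Nu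
import Pool.Agent.Lib.MP_0d3db7.NS.K1
import Pool.Agent.Lib.MP_0d3db7.NS.K2
import Pool.Agent.Lib.MP_0d3db7.NS.K3
import Pool.Agent.Lib.MP_0d3db7.NS.Ki
import Pool.Agent.Lib.MP_0d3db7.NS.Sz
import Pool.Agent.Lib.MP_0d3db7.NS.Bw
import Pool.Agent.Lib.MP_0d3db7.NS.Mx
import Pool.Agent.Lib.MP_0d3db7.NS.Rb
import Pool.Agent.Lib.MP_0d3db7.NS.Iw
import Pool.Agent.Lib.MP_0d3db7.NS.Cq
import Pool.Agent.Lib.MP_0d3db7.NS.Tg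
import Pool.Agent.Lib.MP_0d3db7.NS.Tm
import Pool.Agent.Lib.MP_0d3db7.NS.Fm

/-!
# MP_0d3db7_pr, theorem NS2: the quenched central limit theorem in all dimensions `d ≥ 2`
-/

set_option autoImplicit false

namespace MP0d3db7NS

open MeasureTheory ProbabilityTheory Filter Topology

theorem fSu : S_Su := tSu tAl tBi
theorem fLg : S_Lg := tLg (tGd tAl)
theorem fIn : S_In := tIn fSu tSp fLg tS3 tS2
theorem fMn : S_Mn := tMn tSw tMa tDp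
theorem fCq : S_Cq := tCq tCl tPa
theorem fCw : S_Cw := tCw tCx (tCb tTk (tDf tMa) tMa tLk) (tSm tSl tSc tTr) (tEn tId tTr) tPa
theorem fPw : S_Pw := tPw (tPd tBo) fCw tMa tDp tPa
theorem fKi : S_Ki := tKi fIn tK1 fSu tSp tK2 tK3

/-- NS2 -/
theorem ns2 {d : ℕ} {Ω : Type} [MeasurableSpace Ω] (P : Measure Ω) [IsProbabilityMeasure P]
    (ω : (Fin d → ℤ) × ℕ → Ω → Dr d → ℝ) (hm : ∀ κ, Measurable (ω κ)) (hpv : ∀ κ o, PV (ω κ o))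
    (hind : iIndepFun ω P) (hid : ∀ κ, IdentDistrib (ω κ) (ω (0, 1)) P P)
    (q : Dr d → ℝ) (hq : ∀ e, ∫ o, ω (0, 1) o e ∂P = q e) (hS : (Sg q).det ≠ 0)
    (hd : 2 ≤ d)
    (hC : ∀ S : Finset (Dr d), 0 < ∑ e ∈ S, q e → ∑ e ∈ S, q e < 1 →
      ¬ ∀ᵐ o ∂P, (∑ e ∈ S, ω (0, 1) o e = 0 ∨ ∑ e ∈ S, ω (0, 1) o e = 1)) :
    ∀ᵐ o ∂P, ∀ f : BoundedContinuousFunction (EuclideanSpace ℝ (Fin d)) ℝ,
      Tendsto (fun n : ℕ => quenchE (st d) (fun κ => ω κ o) n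
        fun h => f (nrm q n (pos (st d) h))) atTop
        (𝓝 (∫ x, f x ∂(multivariateGaussian 0 (Sg q)))) :=
  tMain2 tPa tSz tBw (tIw tPa tSz) fCq tTg (tTm tPa) (tFm tPa) tLm fPw tNu fKi
    (tRb tMx fMn tSz) P ω hm hpv hind hid q hq hS hd hC

end MP0d3db7NS
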