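import Pool.Agent.Lib.MP_0d3db7.NS.Spec3
import Pool.Agent.Lib.MP_0d3db7.NS.K2

/-!
# MP_0d3db7_pr, theorem NS3, module Ht: hitting probabilities (helper78)
-/

set_option autoImplicit false

namespace MP0d3db7NS

open MeasureTheory ProbabilityTheory Filter Topology

namespace Ht_aux

open K2_aux

variable {V E : Type} [AddCommGroup V] [DecidableEq V] [Fintype E] (s : E → V) (q : E → ℝ)

/-- (i) first `z'`, then `z` -/
theorem hit_mul (hq : PV q) (z z' : V) (M' : ℕ) (M : ℕ) : ∀ x : V,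
    Pp s q 0 x z' M * Pp s q 0 z' z M' ≤ Pp s q 0 x z (M + M') := by
  induction M with
  | zero =>
    intro x
    rw [Pp_zero, zero_mul]
    exact Pp_nonneg s q hq _ _ _ _
  | succ M ih =>
    intro x
    by_cases h : x = z'
    · subst h
      rw [Pp_eq0, one_mul]
      exact Pp_mono s q hq _ _ _ (by omega)
    · by_cases hz : x = z
      · subst hz
        rw [show M + 1 + M' = (M + M') + 1 by ring, Pp_eq0]
        exact mul_le_one₀ (Pp_le_one s q hq _ _ _ _) (Pp_nonneg s q hq _ _ _ _)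
          (Pp_le_one s q hq _ _ _ _)
      · rw [show M + 1 + M' = (M + M') + 1 by ring, Pp_ne s q 0 h, Pp_ne s q 0 hz, Finset.sum_mul]
        refine Finset.sum_le_sum fun e _ => ?_
        rw [mul_assoc]
        exact mul_le_mul_of_nonneg_left (ih _) (hq.1 e)

/-- (ii) from `z` to `z'` and back is a return to `z` -/
theorem ret (hq : PV q) {z z' : V} (h : z ≠ z') (M M' : ℕ) :
    Pp s q 0 z z' M * Pp s q 0 z' z M' ≤ Pp s q 1 0 0 (M + M') := by
  rcases M with _ | M
  · rw [Pp_zero, zero_mul]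
    exact Pp_nonneg s q hq _ _ _ _
  · rw [← Pp_shift s q 1 z, show M + 1 + M' = (M + M') + 1 by ring, Pp_ne s q 0 h,
      Pp_eqs s q 0, Finset.sum_mul]
    refine Finset.sum_le_sum fun e _ => ?_
    rw [mul_assoc]
    exact mul_le_mul_of_nonneg_left (hit_mul s q hq z z' M' M _) (hq.1 e)

end Ht_aux

open K2_aux Ht_aux

theorem tHt : S_Ht := by
  intro V E _ _ _ s q hq C hpt
  have hC1 : 1 ≤ C := by
    have := hpt 0 0 0
    simpa [pt] using this
  obtain ⟨A, hA1, hesc⟩ := esc s q hq C hpt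
  have hCA : 1 ≤ C * A := one_le_mul_of_one_le_of_one_le hC1 hA1
  refine ⟨1 / (4 * (C * A)), by positivity, ?_, fun M hM z z' hz => ?_⟩
  · rw [div_le_one (by positivity)]
    linarith
  have h1 : (∑ t ∈ Finset.range M, vs s q t z z' 0) * (∑ t ∈ Finset.range M, vs s q t z' z 0) ≤
      Pp s q 1 0 0 (M + M) := ret s q hq hz M M
  refine h1.trans ?_
  have hM1 : (1 : ℝ) ≤ M := by exact_mod_cast hM
  have hlM : 0 ≤ Real.log M := Real.log_nonneg hM1
  have h2 := hesc (M + M) (by omega)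
  have h3 : Real.log ((M + M : ℕ) : ℝ) = Real.log 2 + Real.log M := by
    rw [← Real.log_mul (by norm_num) (by positivity)]
    congr 1
    push_cast
    ring
  have h4 : 1 + Real.log ((M + M : ℕ) : ℝ) ≤ 2 * (1 + Real.log M) := by
    rw [h3]
    have := Real.log_two_lt_d9
    linarith
  have hρ : 0 ≤ 1 - Pp s q 1 0 0 (M + M) := by
    have := Pp_le_one s q hq (M + M) 1 0 0
    linarith
  have h5 : 1 ≤ (1 - Pp s q 1 0 0 (M + M)) * (4 * (C * A) * (1 + Real.log M)) := by
    refine h2.trans (mul_le_mul_of_nonneg_left ?_ hρ)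
    have h6 : C * A * (1 + Real.log ((M + M : ℕ) : ℝ)) ≤ C * A * (2 * (1 + Real.log M)) :=
      mul_le_mul_of_nonneg_left h4 (by linarith)
    calc 2 * C * (A * (1 + Real.log ((M + M : ℕ) : ℝ)))
        = 2 * (C * A * (1 + Real.log ((M + M : ℕ) : ℝ))) := by ring
      _ ≤ 2 * (C * A * (2 * (1 + Real.log M))) := by linarith
      _ = 4 * (C * A) * (1 + Real.log M) := by ring
  have h7 : 0 < 4 * (C * A) * (1 + Real.log M) := by positivity
  have h8 : 1 / (4 * (C * A)) / (1 + Real.log M) ≤ 1 - Pp s q 1 0 0 (M + M) := by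
    rw [div_div, div_le_iff₀ h7]
    exact h5
  linarith

end MP0d3db7NS
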