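import Pool.Agent.Lib.MP_0d3db7.NS.Spec3

/-! # MP_0d3db7_pr, theorem NS3: invariance of the law -/

set_option autoImplicit false

namespace MP0d3db7NS

open MeasureTheory ProbabilityTheory Filter Topology

/-- invariance -/
theorem tIv (hLw : S_Lw) (hUb : S_Ub) (hUt : S_Ut) : S_Iv := by
  intro V E Ω _ _ _ _ _ _ s P ω q χ hC hχ n x r
  set σ : V × ℕ → V × ℕ := fun κ => (κ.1 + x, κ.2 + r (κ.1 + x)) with hσ
  have hinj : Function.Injective σ := by
    rintro ⟨z, i⟩ ⟨z', i'⟩ h
    simp only [hσ, Prod.mk.injEq] at h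
    obtain ⟨h1, h2⟩ := h
    have h3 : z = z' := add_right_cancel h1
    subst h3
    have h4 : i = i' := Nat.add_right_cancel h2
    rw [h4]
  have hc : ∀ m, Continuous fun w : V × ℕ → E → ℝ => Uc s w χ m 0 (fun _ => 0) := fun m =>
    (hUb s χ).1 m 0 _
  have ht : ∀ (m : ℕ) (w : V × ℕ → E → ℝ),
      Uc s w χ m x r = χ x * Uc s (fun κ => w (σ κ)) χ m 0 (fun _ => 0) := fun m w =>
    hUt s χ hχ m x r w
  constructor
  · have h := hLw P ω q hC σ hinj (fun w => ‖Uc s w χ n 0 (fun _ => 0)‖ ^ 2)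
      ((hc n).norm.pow 2).measurable
    unfold en
    rw [← h]
    congr 1
    funext o
    rw [ht, norm_mul, hχ.norm, one_mul]
  · have hup : Continuous fun w : V × ℕ → E → ℝ => Function.update w (0, 1) q :=
      continuous_id.update _ continuous_const
    have hD : Continuous fun w : V × ℕ → E → ℝ =>
        Dk q (0, 1) (fun w => Uc s w χ (n + 1) 0 (fun _ => 0)) w :=
      (hc (n + 1)).sub ((hc (n + 1)).comp hup)
    have h := hLw P ω q hC σ hinj
      (fun w => ‖Dk q (0, 1) (fun w => Uc s w χ (n + 1) 0 (fun _ => 0)) w‖ ^ 2)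
      (hD.norm.pow 2).measurable
    unfold al ifl
    rw [← h]
    congr 1
    funext o
    have h1 : σ (0, 1) = (x, r x + 1) := by
      simp only [hσ, zero_add]
      rw [add_comm]
    have h2 : ∀ w : V × ℕ → E → ℝ, (fun κ => Function.update w (x, r x + 1) q (σ κ)) =
        Function.update (fun κ => w (σ κ)) (0, 1) q := by
      intro w
      have h3 := Function.update_comp_eq_of_injective w hinj (0, 1) q
      rw [h1] at h3
      exact h3
    have h4 : Dk q (x, r x + 1) (fun w => Uc s w χ (n + 1) x r) (fun κ => ω κ o) =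
        χ x * Dk q (0, 1) (fun w => Uc s w χ (n + 1) 0 (fun _ => 0)) (fun κ => ω (σ κ) o) := by
      show Uc s (fun κ => ω κ o) χ (n + 1) x r -
          Uc s (Function.update (fun κ => ω κ o) (x, r x + 1) q) χ (n + 1) x r =
        χ x * (Uc s (fun κ => ω (σ κ) o) χ (n + 1) 0 (fun _ => 0) -
          Uc s (Function.update (fun κ => ω (σ κ) o) (0, 1) q) χ (n + 1) 0 (fun _ => 0))
      rw [ht, ht, h2, mul_sub]
    rw [h4, norm_mul, hχ.norm, one_mul]

end MP0d3db7NS
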