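import Pool.Agent.Lib.MP_0d3db7.NS.Spec3

/-!
# MP_0d3db7_pr, theorem NS3: independence of one cookie from a function of the others

Author: helper67 (statement and proof plan: helper40).
-/

set_option autoImplicit false

namespace MP0d3db7NS

open MeasureTheory ProbabilityTheory Filter Topology

namespace Ix_aux

theorem indep {ι E Ω : Type} [DecidableEq ι] [Fintype E] [MeasurableSpace Ω]
    (P : Measure Ω) (ω : ι → Ω → E → ℝ) (hm : ∀ κ, Measurable (ω κ)) (hi : iIndepFun ω P) (κ : ι)
    (G : (ι → E → ℝ) → ℂ) (hG : Measurable G) (hk : ∀ w p, G (Function.update w κ p) = G w) :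
    IndepFun (ω κ) (fun o => G (fun κ' => ω κ' o)) P := by
  have h1 := indep_iSup_of_disjoint (fun i => (hm i).comap_le) hi
    (disjoint_compl_right : Disjoint ({κ} : Set ι) ({κ}ᶜ : Set ι))
  refine indep_of_indep_of_le_left (indep_of_indep_of_le_right h1 ?_) ?_
  · rw [← measurable_iff_comap_le]
    have h2 : (fun o => G (fun κ' => ω κ' o)) =
        G ∘ fun o => Function.update (fun κ' => ω κ' o) κ (0 : E → ℝ) := by
      funext o
      exact (hk _ _).symm
    rw [h2]
    refine hG.comp ?_
    refine @measurable_pi_lambda _ _ _ (⨆ i ∈ ({κ}ᶜ : Set ι), MeasurableSpace.comap (ω i) inferInstance)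
      _ _ fun κ' => ?_
    by_cases hc : κ' = κ
    · subst hc
      simp only [Function.update_self]
      exact measurable_const
    · simp only [Function.update_of_ne hc]
      rw [measurable_iff_comap_le]
      exact le_iSup₂_of_le κ' hc le_rfl
  · exact le_iSup₂_of_le κ (Set.mem_singleton κ) le_rfl

end Ix_aux

theorem tIx : S_Ix := by
  intro ι E Ω _ _ _ _ P ω q h κ φ G hφ hG hk
  have h1 := Ix_aux.indep P ω h.meas h.ind κ G hG hk
  have hφ' : Measurable (fun p : E → ℝ => (φ p : ℂ)) := Complex.measurable_ofReal.comp hφ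
  have h2 : IndepFun (fun o => (φ (ω κ o) : ℂ)) (fun o => G (fun κ' => ω κ' o)) P :=
    h1.comp hφ' measurable_id
  have hmG : Measurable (fun o => G (fun κ' => ω κ' o)) :=
    hG.comp (measurable_pi_lambda _ fun κ' => h.meas κ')
  rw [h2.integral_fun_mul_eq_mul_integral (hφ'.comp (h.meas κ)).aestronglyMeasurable
    hmG.aestronglyMeasurable, integral_complex_ofReal]

end MP0d3db7NS
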