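import Pool.Agent.Lib.MP_0d3db7.NS.Spec3

/-!
# MP_0d3db7_pr, theorem NS3, module Je: influence (Jensen)
-/

set_option autoImplicit false

namespace MP0d3db7NS

open MeasureTheory ProbabilityTheory Filter Topology

namespace Je_aux

set_option linter.unusedSectionVars false

variable {V E Ω : Type} [AddCommGroup V] [DecidableEq V] [Countable V] [Fintype E]
  [DecidableEq E] [MeasurableSpace Ω]

theorem al_nn (s : E → V) (P : Measure Ω) (ω : V × ℕ → Ω → E → ℝ) (q : E → ℝ) (χ : V → ℂ) (n : ℕ) :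
    0 ≤ al s P ω q χ n := integral_nonneg fun _ => sq_nonneg _

theorem vr_nn (s : E → V) {q : E → ℝ} (hq : PV q) (κ : V × ℕ) :
    ∀ (t : ℕ) (x : V) (r : V → ℕ), 0 ≤ vr s q κ t x r := by
  intro t
  induction t with
  | zero =>
    intro x r
    unfold vr
    split_ifs <;> norm_num
  | succ t ih =>
    intro x r
    unfold vr
    exact Finset.sum_nonneg fun e _ => mul_nonneg (hq.1 e) (ih _ _)

theorem jensen {p : E → ℝ} (hp : PV p) (D : E → ℂ) :
    ‖∑ e, (p e : ℂ) * D e‖ ^ 2 ≤ ∑ e, p e * ‖D e‖ ^ 2 := by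
  have h1 : ‖∑ e, (p e : ℂ) * D e‖ ≤ ∑ e, p e * ‖D e‖ := by
    refine (norm_sum_le _ _).trans (le_of_eq ?_)
    refine Finset.sum_congr rfl fun e _ => ?_
    rw [norm_mul, Complex.norm_real, Real.norm_of_nonneg (hp.1 e)]
  refine (pow_le_pow_left₀ (norm_nonneg _) h1 2).trans ?_
  exact Real.pow_arith_mean_le_arith_mean_pow _ _ _ (fun e _ => hp.1 e) hp.2
    (fun e _ => norm_nonneg _) 2

theorem dk_cont (hUb : S_Ub) (s : E → V) (χ : V → ℂ) (q : E → ℝ) (κ : V × ℕ) (n : ℕ) (x : V)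
    (r : V → ℕ) : Continuous fun w : V × ℕ → E → ℝ => Dk q κ (fun w => Uc s w χ n x r) w := by
  have h1 := (hUb s χ).1 n x r
  unfold Dk
  exact h1.sub (h1.comp (continuous_id.update κ continuous_const))

theorem dk_bd (hUb : S_Ub) (s : E → V) (χ : V → ℂ) (hχ : ∀ y, ‖χ y‖ ≤ 1) {q : E → ℝ} (hq : PV q)
    (κ : V × ℕ) (n : ℕ) (x : V) (r : V → ℕ) (w : V × ℕ → E → ℝ) (hw : ∀ κ, PV (w κ)) :
    ‖Dk q κ (fun w => Uc s w χ n x r) w‖ ≤ 2 := by
  have h1 := (hUb s χ).2.1 hχ n x r w hw
  have h2 := (hUb s χ).2.1 hχ n x r (Function.update w κ q) (fun κ' => by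
    by_cases h : κ' = κ
    · subst h
      rw [Function.update_self]
      exact hq
    · rw [Function.update_of_ne h]
      exact hw κ')
  unfold Dk
  refine (norm_sub_le _ _).trans ?_
  linarith

theorem dk_free (hUb : S_Ub) (s : E → V) (χ : V → ℂ) (q : E → ℝ) (κ : V × ℕ) (n : ℕ) (x y : V)
    (r : V → ℕ) (hne : (x, r x + 1) ≠ κ) (w : V × ℕ → E → ℝ) (p : E → ℝ) :
    Dk q κ (fun w => Uc s w χ n y (up r x)) (Function.update w (x, r x + 1) p) =
      Dk q κ (fun w => Uc s w χ n y (up r x)) w := by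
  have h1 : r x + 1 ≤ (up r x) x := by simp [up]
  unfold Dk
  rw [Function.update_comm hne]
  simp only
  rw [(hUb s χ).2.2.1 n y (up r x) x (r x + 1) p w h1,
    (hUb s χ).2.2.1 n y (up r x) x (r x + 1) p _ h1]

/-- the real form of `S_Ix` -/
theorem ixr (hIx : S_Ix) (P : Measure Ω) (ω : V × ℕ → Ω → E → ℝ) (q : E → ℝ) (h : Ci P ω q)
    (κ : V × ℕ) (e : E) (g : (V × ℕ → E → ℝ) → ℝ) (hg : Measurable g)
    (hf : ∀ w p, g (Function.update w κ p) = g w) :
    ∫ o, ω κ o e * g (fun κ => ω κ o) ∂P = q e * ∫ o, g (fun κ => ω κ o) ∂P := by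
  have h1 := hIx P ω q h κ (fun p => p e) (fun w => (g w : ℂ)) (measurable_pi_apply e)
    (Complex.measurable_ofReal.comp hg) (fun w p => by rw [hf])
  have h3 : ∫ o, ((g (fun κ => ω κ o) : ℝ) : ℂ) ∂P = ((∫ o, g (fun κ => ω κ o) ∂P : ℝ) : ℂ) :=
    integral_ofReal
  have h4 : ∫ o, ((ω κ o e : ℝ) : ℂ) * ((g (fun κ => ω κ o) : ℝ) : ℂ) ∂P =
      ((∫ o, ω κ o e * g (fun κ => ω κ o) ∂P : ℝ) : ℂ) := by
    rw [← integral_complex_ofReal]
    refine integral_congr_ae (Filter.Eventually.of_forall fun o => ?_)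
    push_cast
    rfl
  rw [h.mean κ e, h3, h4] at h1
  exact_mod_cast h1

theorem dk_succ (s : E → V) (χ : V → ℂ) (q : E → ℝ) (κ : V × ℕ) (n : ℕ) (x : V)
    (r : V → ℕ) (hne : (x, r x + 1) ≠ κ) (w : V × ℕ → E → ℝ) :
    Dk q κ (fun w => Uc s w χ (n + 1) x r) w =
      ∑ e, (w (x, r x + 1) e : ℂ) * Dk q κ (fun w => Uc s w χ n (x + s e) (up r x)) w := by
  unfold Dk
  simp only [Uc]
  rw [Function.update_of_ne hne, ← Finset.sum_sub_distrib]
  exact Finset.sum_congr rfl fun e _ => by ring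

end Je_aux

open Je_aux

theorem tJe (hIx : S_Ix) (hUb : S_Ub) (hIv : S_Iv) : S_Je := by
  intro V E Ω _ _ _ _ _ _ s P ω q χ h hχ κ n
  have hP := h.prob
  have hq := h.pvq κ
  have hχ1 : ∀ y, ‖χ y‖ ≤ 1 := fun y => (hχ.2 y).le
  have hW : Measurable fun o => fun κ => ω κ o := measurable_pi_iff.2 h.meas
  induction n with
  | zero =>
    intro x r
    simp [ifl, Dk, Uc]
  | succ n ih =>
    intro x r
    by_cases he : (x, r x + 1) = κ
    · have h1 : ifl s P ω q χ (n + 1) x r κ = al s P ω q χ n := by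
        rw [← he]
        exact (hIv s P ω q χ h hχ n x r).2
      rw [h1]
      have h2 := Finset.single_le_sum (s := Finset.range (n + 1))
        (f := fun t => vr s q κ t x r * al s P ω q χ (n + 1 - 1 - t))
        (fun t _ => mul_nonneg (vr_nn s hq κ t x r) (al_nn s P ω q χ _))
        (Finset.mem_range.2 (Nat.succ_pos n))
      refine le_trans (le_of_eq ?_) h2
      simp [vr, he]
    · rw [Finset.sum_range_succ']
      have h0 : vr s q κ 0 x r = 0 := by simp [vr, he]
      rw [h0, zero_mul, add_zero]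
      -- the integrals
      let g : E → (V × ℕ → E → ℝ) → ℝ := fun e w =>
        ‖Dk q κ (fun w => Uc s w χ n (x + s e) (up r x)) w‖ ^ 2
      have hgm : ∀ e, Measurable (g e) := fun e =>
        ((dk_cont hUb s χ q κ n (x + s e) (up r x)).norm.pow 2).measurable
      have hgi : ∀ e, Integrable (fun o => ω (x, r x + 1) o e * g e (fun κ => ω κ o)) P := by
        intro e
        refine Integrable.of_bound ((h.mese _ e).mul ((hgm e).comp hW)).aestronglyMeasurable 4
          (Filter.Eventually.of_forall fun o => ?_)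
        rw [Real.norm_eq_abs, abs_of_nonneg (mul_nonneg ((h.pv _ o).1 e) (sq_nonneg _))]
        have e1 := dk_bd hUb s χ hχ1 hq κ n (x + s e) (up r x) (fun κ => ω κ o) (fun κ => h.pv κ o)
        have e2 : g e (fun κ => ω κ o) ≤ 4 := by
          have := pow_le_pow_left₀ (norm_nonneg _) e1 2
          show ‖_‖ ^ 2 ≤ 4
          linarith
        have e3 := h.le1 (x, r x + 1) o e
        have e4 := (h.pv (x, r x + 1) o).1 e
        calc ω (x, r x + 1) o e * g e (fun κ => ω κ o) ≤ 1 * 4 :=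
              mul_le_mul e3 e2 (sq_nonneg _) zero_le_one
          _ = 4 := one_mul 4
      have h1 : ifl s P ω q χ (n + 1) x r κ ≤ ∑ e, q e * ifl s P ω q χ n (x + s e) (up r x) κ := by
        have e1 : ∀ e, ∫ o, ω (x, r x + 1) o e * g e (fun κ => ω κ o) ∂P =
            q e * ifl s P ω q χ n (x + s e) (up r x) κ := by
          intro e
          refine ixr hIx P ω q h (x, r x + 1) e (g e) (hgm e) fun w p => ?_
          show ‖_‖ ^ 2 = ‖_‖ ^ 2
          rw [dk_free hUb s χ q κ n x (x + s e) r he w p]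
        rw [← Finset.sum_congr rfl fun e _ => e1 e, ← integral_finsetSum _ fun e _ => hgi e]
        refine integral_mono_of_nonneg (Filter.Eventually.of_forall fun o => sq_nonneg _)
          (integrable_finsetSum _ fun e _ => hgi e) (Filter.Eventually.of_forall fun o => ?_)
        show ‖Dk q κ (fun w => Uc s w χ (n + 1) x r) (fun κ => ω κ o)‖ ^ 2 ≤ _
        rw [dk_succ s χ q κ n x r he]
        exact jensen (h.pv (x, r x + 1) o) _
      refine h1.trans ?_
      have h2 : ∀ e ∈ (Finset.univ : Finset E), q e * ifl s P ω q χ n (x + s e) (up r x) κ ≤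
          q e * ∑ t ∈ Finset.range n, vr s q κ t (x + s e) (up r x) * al s P ω q χ (n - 1 - t) :=
        fun e _ => mul_le_mul_of_nonneg_left (ih (x + s e) (up r x)) (hq.1 e)
      refine (Finset.sum_le_sum h2).trans (le_of_eq ?_)
      simp only [Finset.mul_sum]
      rw [Finset.sum_comm]
      refine Finset.sum_congr rfl fun t _ => ?_
      have e5 : n + 1 - 1 - (t + 1) = n - 1 - t := by omega
      rw [e5]
      simp only [vr]
      rw [Finset.sum_mul]
      exact Finset.sum_congr rfl fun e _ => by ring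

end MP0d3db7NS
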