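import Pool.Agent.Lib.MP_0d3db7.NS.Spec3

/-!
# MP_0d3db7_pr, theorem NS3, module Lw: the law of an i.i.d. family under an injection (helper92)
-/

set_option autoImplicit false

namespace MP0d3db7NS

open MeasureTheory ProbabilityTheory Filter Topology

theorem tLw : S_Lw := by
  intro ι E Ω _ _ _ P ω q h σ hσ G hG
  have := h.prob
  have h1 : P.map (fun o κ => ω (σ κ) o) = Measure.infinitePi (fun κ => P.map (ω (σ κ))) :=
    (iIndepFun_iff_map_fun_eq_infinitePi_map (X := fun κ => ω (σ κ)) fun κ => h.meas _).1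
      (h.ind.precomp hσ)
  have h2 : P.map (fun o κ => ω κ o) = Measure.infinitePi (fun κ => P.map (ω κ)) :=
    (iIndepFun_iff_map_fun_eq_infinitePi_map h.meas).1 h.ind
  have h3 : (fun κ => P.map (ω (σ κ))) = fun κ => P.map (ω κ) := by
    funext κ
    exact (h.idd (σ κ) κ).map_eq
  have h4 : P.map (fun o κ => ω (σ κ) o) = P.map (fun o κ => ω κ o) := by
    rw [h1, h2, h3]
  have m1 : Measurable fun o κ => ω (σ κ) o := measurable_pi_iff.2 fun κ => h.meas _
  have m2 : Measurable fun o κ => ω κ o := measurable_pi_iff.2 fun κ => h.meas _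
  have h5 := integral_map (μ := P) m1.aemeasurable (f := G) hG.aestronglyMeasurable
  have h6 := integral_map (μ := P) m2.aemeasurable (f := G) hG.aestronglyMeasurable
  rw [← h5, ← h6, h4]

end MP0d3db7NS
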