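import Pool.Agent.Lib.MP_0d3db7.NS.Defs3

/-!
# MP_0d3db7_pr, theorem NS3: the statements of the modules

Each module `Y.lean` in this folder proves `theorem tY : S_Y`, or with other `S_Z` as hypotheses,
where the docstring says so (`theorem tY (hZ : S_Z) : S_Y`). All proofs are elementary.

Notation in the proofs: `W` is the environment `fun κ => ω κ o`, `∫` is the integral over `o`,
`F(κ := p)` is `F` at `Function.update W κ p`. `Ci.pvq` (Defs3.lean): `q` is a probability vector.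
A function `G` of the environment does not depend on the cookie `κ` if
`∀ w p, G (Function.update w κ p) = G w`.
-/

set_option autoImplicit false

namespace MP0d3db7NS

open MeasureTheory ProbabilityTheory Filter Topology

/-! ### i.i.d. environments -/

/-- THE LAW OF THE ENVIRONMENT. Proof: both families `ω κ` and `ω (σ κ)` are independent
(`iIndepFun.precomp`) with the same marginal law `ν` (`idd`), so by
`iIndepFun_iff_map_fun_eq_infinitePi_map` both `P.map (fun o κ => ω κ o)` and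
`P.map (fun o κ => ω (σ κ) o)` are `Measure.infinitePi fun _ => ν`; `integral_map`. -/
def S_Lw : Prop := ∀ {ι E Ω : Type} [Countable ι] [Fintype E] [MeasurableSpace Ω] (P : Measure Ω)
  (ω : ι → Ω → E → ℝ) (q : E → ℝ), Ci P ω q → ∀ σ : ι → ι, Function.Injective σ →
  ∀ G : (ι → E → ℝ) → ℝ, Measurable G →
    ∫ o, G (fun κ => ω (σ κ) o) ∂P = ∫ o, G (fun κ => ω κ o) ∂P

/-- INDEPENDENCE. Proof: `G W = G (update W κ 0)` is a measurable function of the `ω κ'`, `κ' ≠ κ`,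
so `ω κ` and `fun o => G W` are independent (`iIndepFun`, `indep_iSup_of_disjoint` with `{κ}` and its
complement: the map `o ↦ update W κ 0` is measurable for `⨆ κ' ≠ κ, (ω κ').comap`); then
`IndepFun.integral_fun_mul_eq_mul_integral` (no integrability is needed), `integral_ofReal`. -/
def S_Ix : Prop := ∀ {ι E Ω : Type} [DecidableEq ι] [Countable ι] [Fintype E] [MeasurableSpace Ω]
  (P : Measure Ω) (ω : ι → Ω → E → ℝ) (q : E → ℝ), Ci P ω q → ∀ (κ : ι) (φ : (E → ℝ) → ℝ)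
  (G : (ι → E → ℝ) → ℂ), Measurable φ → Measurable G →
  (∀ w p, G (Function.update w κ p) = G w) →
  ∫ o, (φ (ω κ o) : ℂ) * G (fun κ => ω κ o) ∂P =
    ((∫ o, φ (ω κ o) ∂P : ℝ) : ℂ) * ∫ o, G (fun κ => ω κ o) ∂P

/-- ORTHOGONALITY (use `S_Ix`). Proof: `c e w = F (update w κ (dl e))` does not depend on the cookie
`κ`; by `aff` (with `p = ω κ o`, `Function.update_eq_self`) `F W = ∑ e, ω κ o e * c e W`, and
`F(κ := q) = ∑ e, q e * c e W` (`∑ q = 1`), `Dk q κ F W = ∑ e, (ω κ o e - q e) * c e W`. So by `S_Ix`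
(`φ p = p e - q e`, `∫ φ (ω κ o) = 0`) `∫ Dk q κ F W * conj (G W) = 0` for every `G` which is
measurable, bounded on the environments and does not depend on `κ`. Second claim: `G w = H (update
w κ q)`, `H W - Dk q κ H W = G W`. First claim: `G w = F (update w κ q)`, `F W = Dk q κ F W + G W`,
`‖a + b‖² = ‖a‖² + ‖b‖² + 2 Re (a * conj b)`. All functions are bounded (`bd`; `Dk` by `2 C`) and
measurable (continuous), so integrable. -/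
def S_Or : Prop := ∀ {ι E Ω : Type} [DecidableEq ι] [Countable ι] [Fintype E] [DecidableEq E]
  [MeasurableSpace Ω] (P : Measure Ω) (ω : ι → Ω → E → ℝ) (q : E → ℝ), Ci P ω q →
  ∀ (κ : ι) (F H : (ι → E → ℝ) → ℂ), Nice F → Nice H →
  ∫ o, ‖F (fun κ => ω κ o)‖ ^ 2 ∂P = ∫ o, ‖Dk q κ F (fun κ => ω κ o)‖ ^ 2 ∂P +
    ∫ o, ‖F (Function.update (fun κ => ω κ o) κ q)‖ ^ 2 ∂P ∧
  ∫ o, Dk q κ F (fun κ => ω κ o) * (starRingEnd ℂ) (H (fun κ => ω κ o)) ∂P =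
    ∫ o, Dk q κ F (fun κ => ω κ o) * (starRingEnd ℂ) (Dk q κ H (fun κ => ω κ o)) ∂P

/-! ### the functions `Uc` -/

/-- BASIC PROPERTIES (compare Ma.lean and Pa.lean for `U`, `Ex`). Proof: all by induction on `n`, for
all `x`, `r`. (1) continuity. (2) bound by one: `∑ e, w (..) e = 1`, all `≥ 0`. (3) used cookies: the next
cookie is `(x, r x + 1) ≠ (z, i)`, and `i ≤ (up r x) z`. (4) affine: if `κ = (x, r x + 1)` both sides are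
`∑ e, p e * Uc s w χ n (x + s e) (up r x)` by (3) (`i = r x + 1 ≤ (up r x) x`; `dl e e' = if e = e' ..`); if
`κ ≠ (x, r x + 1)` use the induction hypothesis and exchange the sums. (5) real part. (6) the
environment is constant. (7) from (1), (2), (4), for `Uc` and for `Uc - const`. -/
def S_Ub : Prop := ∀ {V E : Type} [AddCommGroup V] [DecidableEq V] [Fintype E] [DecidableEq E]
  (s : E → V) (χ : V → ℂ),
  (∀ (n : ℕ) (x : V) (r : V → ℕ), Continuous fun w : V × ℕ → E → ℝ => Uc s w χ n x r) ∧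
  ((∀ y, ‖χ y‖ ≤ 1) → ∀ (n : ℕ) (x : V) (r : V → ℕ) (w : V × ℕ → E → ℝ), (∀ κ, PV (w κ)) →
    ‖Uc s w χ n x r‖ ≤ 1) ∧
  (∀ (n : ℕ) (x : V) (r : V → ℕ) (z : V) (i : ℕ) (p : E → ℝ) (w : V × ℕ → E → ℝ), i ≤ r z →
    Uc s (Function.update w (z, i) p) χ n x r = Uc s w χ n x r) ∧
  (∀ (n : ℕ) (x : V) (r : V → ℕ) (κ : V × ℕ) (w : V × ℕ → E → ℝ) (p : E → ℝ), ∑ e, p e = 1 →
    Uc s (Function.update w κ p) χ n x r =
      ∑ e, (p e : ℂ) * Uc s (Function.update w κ (dl e)) χ n x r) ∧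
  (∀ (f : V → ℝ) (ζ : ℂ), (∀ x, f x = (ζ * χ x).re) → ∀ (n : ℕ) (x : V) (r : V → ℕ)
    (w : V × ℕ → E → ℝ), U s w f n x r = (ζ * Uc s w χ n x r).re) ∧
  (∀ (q : E → ℝ) (n : ℕ) (x : V) (r r' : V → ℕ),
    Uc s (fun _ => q) χ n x r = Uc s (fun _ => q) χ n x r') ∧
  ((∀ y, ‖χ y‖ ≤ 1) → ∀ (n : ℕ) (x : V) (r : V → ℕ) (c : ℂ),
    Nice fun w : V × ℕ → E → ℝ => Uc s w χ n x r - c)

/-- TRANSLATIONS. Proof: `χ 0 = 1` (`χ 0 = χ 0 * χ 0`, `‖χ 0‖ = 1`). Induction on `n`, for all `x`, `r`, `w`.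
Write `w^(x,r) κ = w (κ.1 + x, κ.2 + r (κ.1 + x))`. `w^(x,r) (0, 1) = w (x, r x + 1)`, and
`(w^(x,r))^(s e, up 0 0) = w^(x + s e, up r x)`: at `(z, i)` both are
`w (z + s e + x, i + r (z + s e + x) + (if z + s e = 0 then 1 else 0))`. So
`Uc (n+1) x r = ∑ e, w (x, r x + 1) e * χ (x + s e) * Uc s w^(x + s e, up r x) χ n 0 0` and
`χ x * Uc s w^(x,r) χ (n+1) 0 0 = χ x * ∑ e, w^(x,r) (0, 1) e * χ (0 + s e) * Uc s (w^(x,r))^(0 + s e, up 0 0)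
χ n 0 0`. -/
def S_Ut : Prop := ∀ {V E : Type} [AddCommGroup V] [DecidableEq V] [Fintype E] (s : E → V)
  (χ : V → ℂ), Chr χ → ∀ (n : ℕ) (x : V) (r : V → ℕ) (w : V × ℕ → E → ℝ),
  Uc s w χ n x r = χ x * Uc s (fun κ => w (κ.1 + x, κ.2 + r (κ.1 + x))) χ n 0 (fun _ => 0)

/-- INVARIANCE (use `S_Lw`, `S_Ub`, `S_Ut`). Proof: `σ (z, i) = (z + x, i + r (z + x))` is injective;
`‖Uc s W χ n x r‖ = ‖Uc s (W ∘ σ) χ n 0 0‖` by `S_Ut`; `S_Lw` with `G w = ‖Uc s w χ n 0 0‖ ^ 2` (continuous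
by `S_Ub`, so measurable). Second claim: moreover `(update W (x, r x + 1) q) ∘ σ = update (W ∘ σ)
(0, 1) q` as `σ (0, 1) = (x, r x + 1)` and `σ` is injective (`Function.update_comp_eq_of_injective`);
`G w = ‖Dk q (0, 1) (fun w => Uc s w χ (n+1) 0 0) w‖ ^ 2`. -/
def S_Iv : Prop := ∀ {V E Ω : Type} [AddCommGroup V] [DecidableEq V] [Countable V] [Fintype E]
  [DecidableEq E] [MeasurableSpace Ω] (s : E → V) (P : Measure Ω) (ω : V × ℕ → Ω → E → ℝ)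
  (q : E → ℝ) (χ : V → ℂ), Ci P ω q → Chr χ → ∀ (n : ℕ) (x : V) (r : V → ℕ),
  ∫ o, ‖Uc s (fun κ => ω κ o) χ n x r‖ ^ 2 ∂P = en s P ω χ n ∧
  ifl s P ω q χ (n + 1) x r (x, r x + 1) = al s P ω q χ n

/-! ### energy, influence, comparison -/

/-- ENERGY (use `S_Ix`, `S_Ub`, `S_Iv`). Proof: `κ = (x, r x + 1)`, `G e = Uc s W χ n (x + s e) (up r x)`
does not depend on the cookie `κ` (`S_Ub` (3)). For a probability vector `p`: `‖∑ e, p e * G e‖² =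
∑ e, p e * ‖G e‖² - (1/2) ∑ a, ∑ e, p a * p e * ‖G a - G e‖²`. Take `p = ω κ o` and integrate, by `S_Ix`
(`φ p = p e`, `φ p = p a * p e`): `∫ ω κ e ‖G e‖² = q e * en n` (`S_Iv`), with sum `en n`, and
`∫ ω κ a ω κ e ‖G a - G e‖² = K2m P ω κ a e * ∫ ‖G a - G e‖²`, `K2m P ω κ = K2m P ω (0, 1)` (`Ci.k2`); the left
side is `en (n+1)` (`S_Iv`). All terms of the double sum are `≥ 0`, the pairs `(a, e)` and `(e, a)` are equal.
`en ≤ 1` by `S_Ub` (2). -/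
def S_Eg : Prop := ∀ {V E Ω : Type} [AddCommGroup V] [DecidableEq V] [Countable V] [Fintype E]
  [DecidableEq E] [MeasurableSpace Ω] (s : E → V) (P : Measure Ω) (ω : V × ℕ → Ω → E → ℝ)
  (q : E → ℝ) (χ : V → ℂ), Ci P ω q → Chr χ → ∀ n : ℕ,
  0 ≤ en s P ω χ n ∧ en s P ω χ n ≤ 1 ∧ en s P ω χ (n + 1) ≤ en s P ω χ n ∧
  ∀ (x : V) (r : V → ℕ) (a e : E), a ≠ e → K2m P ω (0, 1) a e *
    ∫ o, ‖Uc s (fun κ => ω κ o) χ n (x + s a) (up r x) -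
      Uc s (fun κ => ω κ o) χ n (x + s e) (up r x)‖ ^ 2 ∂P ≤ en s P ω χ n - en s P ω χ (n + 1)

/-- INFLUENCE (use `S_Ix`, `S_Ub`, `S_Iv`). Proof: induction on `n`, for all `x`, `r`. `n = 0`: `Dk .. = 0`.
`n + 1`, `κ' = (x, r x + 1)`. If `κ' = κ`: `ifl .. = al n` (`S_Iv`) is the term `t = 0` (`vr .. 0 x r = 1`), and
the others are `≥ 0` (`vr ≥ 0` by induction, `al ≥ 0`). If `κ' ≠ κ`: `Dk q κ (Uc (n+1) x r) W =
∑ e, ω κ' o e * D e`, `D e = Dk q κ (fun w => Uc s w χ n (x + s e) (up r x)) W`, so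
`‖..‖² ≤ ∑ e, ω κ' o e * ‖D e‖²` (convexity); `D e` does not depend on the cookie `κ'` (`S_Ub` (3),
`Function.update_comm`), so by `S_Ix` the integral is at most `∑ e, q e * ifl .. n (x + s e) (up r x) κ`;
the term `t = 0` is `0` (`vr .. 0 x r = 0`) and the term `t + 1` of the right side is
`∑ e, q e * vr s q κ t (x + s e) (up r x) * al (n - 1 - t)`. -/
def S_Je : Prop := ∀ {V E Ω : Type} [AddCommGroup V] [DecidableEq V] [Countable V] [Fintype E]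
  [DecidableEq E] [MeasurableSpace Ω] (s : E → V) (P : Measure Ω) (ω : V × ℕ → Ω → E → ℝ)
  (q : E → ℝ) (χ : V → ℂ), Ci P ω q → Chr χ → ∀ (κ : V × ℕ) (n : ℕ) (x : V) (r : V → ℕ),
  ifl s P ω q χ n x r κ ≤
    ∑ t ∈ Finset.range n, vr s q κ t x r * al s P ω q χ (n - 1 - t)

/-- THE NUMBERS `vr`. Proof: (1) induction on `t`. (3) induction on `t`: `(x, r x + 1) = (z, i)` would give
`i = r z + 1`; `i ≤ (up r x) z`. (2) induction on `t`, for all `i`, `x`, `r`: `t = 0` clear. `t + 1`: `x ≠ z`: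
`(up r x) z = r z`; `x = z`, `i = 0`: `(z, r z + 1)` and `r z + 1 ≤ (up r x) z`, so all terms are `0` by (3);
`x = z`, `i ≥ 1`: `r z + 1 + i = (up r x) z + 1 + (i - 1)`. (4) induction on `M`: `{(x, r x + 1)}` and the
union of the sets for `x + s e`, `up r x`. (5) induction on `t`. (6) terms `(z, 0)` are `0` by (3); `(z, i + 1)`:
(2) with `r = 0`; `C` is contained in `B ×ˢ range (I + 1)`. -/
def S_Vf : Prop := ∀ {V E : Type} [AddCommGroup V] [DecidableEq V] [Fintype E] (s : E → V)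
  (q : E → ℝ), PV q →
  (∀ (κ : V × ℕ) (t : ℕ) (x : V) (r : V → ℕ), 0 ≤ vr s q κ t x r) ∧
  (∀ (z : V) (i t : ℕ) (x : V) (r : V → ℕ), vr s q (z, r z + 1 + i) t x r = vs s q t x z i) ∧
  (∀ (z : V) (i t : ℕ) (x : V) (r : V → ℕ), i ≤ r z → vr s q (z, i) t x r = 0) ∧
  (∀ (M : ℕ) (x : V) (r : V → ℕ), ∃ C : Finset (V × ℕ), ∀ t < M, ∀ κ ∉ C,
    vr s q κ t x r = 0) ∧
  (∀ (C : Finset (V × ℕ)) (t : ℕ) (x : V) (r : V → ℕ), ∑ κ ∈ C, vr s q κ t x r ≤ 1) ∧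
  (∀ (M : ℕ) (κ0 : ℝ), KB s q M κ0 → ∀ C : Finset (V × ℕ),
    ∑ κ ∈ C, (∑ t ∈ Finset.range M, vr s q κ t 0 (fun _ => 0)) ^ 2 ≤ κ0)

/-- COMPARISON (use `S_Or`, `S_Ub`, `S_Iv`, `S_Eg`, `S_Je`, `S_Vf`). Proof: `r' = up (fun _ => 0) 0`,
`κ0 = (s a, r' (s a) + 1)`. Fix `n`, `F w = Uc s w χ (n+1) (s a) r'`, `H w = Uc s w χ (n+1) (s e) r'`.
`∫ ‖Dk q κ0 F‖² = al n` (`S_Iv`, `x = s a`). `∫ ‖Dk q κ0 H‖² ≤ ∑ t ≤ n, vs s q t (s e) (s a) 0 * al (n - t)`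
(`S_Je` and `S_Vf` (2) with `z = s a`, `i = 0`). `Dk` is linear in `F`, and by `S_Or` (1) for `F - H` (which
satisfies `Nice`) `∫ ‖Dk q κ0 (F - H)‖² ≤ ∫ ‖F - H‖² ≤ (en (n+1) - en (n+2))/K2m P ω (0, 1) a e` (`S_Eg` with
`x = 0`, `r = 0`). Pointwise `‖A‖² ≤ (1 + η) ‖B‖² + (1 + 1/η) ‖A - B‖²`. Sum over `n < M`:
`∑ n < M, ∑ t ≤ n, vs t * al (n - t) ≤ (∑ t < M, vs t) (∑ n < M, al n)` (all `≥ 0`), and the telescoping sum is
`≤ en 1 ≤ 1`. -/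
def S_Cp : Prop := ∀ {V E Ω : Type} [AddCommGroup V] [DecidableEq V] [Countable V] [Fintype E]
  [DecidableEq E] [MeasurableSpace Ω] (s : E → V) (P : Measure Ω) (ω : V × ℕ → Ω → E → ℝ)
  (q : E → ℝ) (χ : V → ℂ), Ci P ω q → Chr χ → ∀ (a e : E), a ≠ e → s a ≠ s e →
  0 < K2m P ω (0, 1) a e → ∀ (M : ℕ) (η : ℝ), 0 < η →
  ∑ n ∈ Finset.range M, al s P ω q χ n ≤
    (1 + η) * ((∑ t ∈ Finset.range M, vs s q t (s e) (s a) 0) *
      ∑ n ∈ Finset.range M, al s P ω q χ n) + (1 + 1 / η) / K2m P ω (0, 1) a e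

/-- HITTING PROBABILITIES. Proof. `h x z M = ∑ t < M, vs t x z 0`, `ρ z M = ∑ t < M, vs t z z 1`. By the
definition of `vs` (`Finset.sum_range_succ'`): `h z z (M+1) = 1`, `h x z (M+1) = ∑ e, q e * h (x + s e) z M` for
`x ≠ z`, `ρ z (M+1) = ∑ e, q e * h (z + s e) z M`. So `0 ≤ h ≤ 1`, `0 ≤ ρ ≤ 1`, both nondecreasing in `M`.
(i) `h x z' M * h z' z M' ≤ h x z (M + M')` (induction on `M`, all `x`: `x = z'`: monotone, `h ≤ 1`; `x = z`: the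
right side is `1` if `M + M' > 0`; else the recursion). (ii) `h z z' M * h z' z M' ≤ ρ z (M + M')` for `z ≠ z'`,
from (i) and the recursions. (iii) Last exit: `h x z M = ∑ t < M, pt s q t x z * (1 - ρ z (M - t))`
(induction on `M`, all `x`; for `x = z` the step is `1 = (1 - ρ z (M+1)) + ∑ e, q e * h (z + s e) z M`). (iv) Put
`A = ⌈2 C⌉ + 2`, `M1 = A * M`; `C ≥ 1` (`t = 0`). (iii) for `x = z`, `M1`: the terms `t > M1 - M` are less than `M`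
terms `≤ C/(M1 - M + 1) ≤ C/((A - 1) M)`, so together `≤ 1/2`; the others are together at most
`(1 - ρ z M) * ∑ t < M1, C/(t+1) ≤ (1 - ρ z M) * C (1 + log M1)`. So `1 - ρ z M ≥ 1/(2 C (1 + log (A M))) ≥
c'/(1 + log M)`, `c' = 1/(2 C (1 + log A))`, and with (ii) for `M' = M`: the product is at most
`ρ z (2 M) ≤ 1 - c'/(1 + log (2 M)) ≤ 1 - (c'/2)/(1 + log M)`. (Compare K2.lean.) -/
def S_Ht : Prop := ∀ {V E : Type} [AddCommGroup V] [DecidableEq V] [Fintype E] (s : E → V)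
  (q : E → ℝ), PV q → ∀ C : ℝ, (∀ t x z, pt s q t x z ≤ C / ((t : ℝ) + 1)) →
  ∃ c : ℝ, 0 < c ∧ c ≤ 1 ∧ ∀ M : ℕ, 1 ≤ M → ∀ z z' : V, z ≠ z' →
    (∑ t ∈ Finset.range M, vs s q t z z' 0) * (∑ t ∈ Finset.range M, vs s q t z' z 0) ≤
      1 - c / (1 + Real.log M)

/-- THE SUM OF THE INFLUENCES (use `S_Cp`, `S_Ht`). Proof: let `ε = c/(1 + log M)` (`S_Ht` with `z = s a`,
`z' = s e`), `0 < ε ≤ 1`. One of the two numbers `p = ∑ t < M, vs t (s e) (s a) 0`, `p' = ∑ t < M,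
vs t (s a) (s e) 0` is at most `√(1 - ε) ≤ 1 - ε/2`; by symmetry (`K2m_comm`, exchange `a` and `e`) let it be
`p`. `S_Cp` with `η = ε/4`: `(1 + ε/4) (1 - ε/2) ≤ 1 - ε/4`, so with `A = ∑ n < M, al n ≥ 0`:
`(ε/4) A ≤ (1 + 4/ε)/K ≤ 5/(ε K)`, `A ≤ 20/(K ε²) = (20/(K c²)) (1 + log M)²`. -/
def S_Am : Prop := ∀ {V E Ω : Type} [AddCommGroup V] [DecidableEq V] [Countable V] [Fintype E]
  [DecidableEq E] [MeasurableSpace Ω] (s : E → V) (P : Measure Ω) (ω : V × ℕ → Ω → E → ℝ)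
  (q : E → ℝ), Ci P ω q → ∀ C : ℝ, (∀ t x z, pt s q t x z ≤ C / ((t : ℝ) + 1)) →
  ∀ (a e : E), a ≠ e → s a ≠ s e → 0 < K2m P ω (0, 1) a e → ∃ C' : ℝ, 0 ≤ C' ∧
  ∀ χ : V → ℂ, Chr χ → ∀ M : ℕ, 1 ≤ M →
    ∑ n ∈ Finset.range M, al s P ω q χ n ≤ C' * (1 + Real.log M) ^ 2

/-! ### the variance -/

/-- TELESCOPING AND DUALITY (use `S_Ix`, `S_Or`, `S_Ub`, `S_Iv`, `S_Vf`). Proof: `H w = Uc s w χ m 0 0 - c`,
`c = Uc s (fun _ => q) χ m 0 0`: `Nice` (`S_Ub` (7)), `Dk q κ H = Dk q κ (Uc .. m 0 0)`, so `∫ ‖Dk q κ H‖² =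
ifl .. m 0 0 κ`. Claim, by induction on `n`, for all `x`, `r` such that `vr s q κ t x r = 0` for `t < n`, `κ ∉ C`:
`‖∫ (Uc s W χ n x r - Uc s (fun _ => q) χ n x r) * conj (H W)‖ ≤ ∑ κ ∈ C, (∑ t < n, vr s q κ t x r *
√(al (n - 1 - t))) * √(ifl .. m 0 0 κ)`. `n = 0`: the left side is `0`. `n + 1`: `κ0 = (x, r x + 1) ∈ C` (as
`vr s q κ0 0 x r = 1`). `Uc (n+1) x r (W) - Uc (n+1) x r (q) = Dk q κ0 (Uc (n+1) x r) W + ∑ e, q e *
(Uc s W χ n (x + s e) (up r x) - Uc s (fun _ => q) χ n (x + s e) (up r x))`, because `Uc (n+1) x r` at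
`update W κ0 q` is `∑ e, q e * Uc s W χ n (x + s e) (up r x)` (`S_Ub` (3)). First term: by `S_Or` (2) and
Cauchy-Schwarz `‖∫ Dk q κ0 F' * conj H‖ = ‖∫ Dk q κ0 F' * conj (Dk q κ0 H)‖ ≤ √(al n) * √(ifl .. m 0 0 κ0)`
(`S_Iv`); this is the part `t = 0` of the right side (`vr s q κ 0 x r = if κ0 = κ then 1 else 0`). Second term:
the induction hypothesis for the `e` with `q e > 0` (there `vr s q κ t (x + s e) (up r x) = 0` for `κ ∉ C`,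
`t < n`, because the sum `vr s q κ (t+1) x r` of nonnegative terms is `0`). Finally take `n = m`, `x = 0`, `r = 0`:
the left side is `vn m`. -/
def S_Th : Prop := ∀ {V E Ω : Type} [AddCommGroup V] [DecidableEq V] [Countable V] [Fintype E]
  [DecidableEq E] [MeasurableSpace Ω] (s : E → V) (P : Measure Ω) (ω : V × ℕ → Ω → E → ℝ)
  (q : E → ℝ) (χ : V → ℂ), Ci P ω q → Chr χ → ∀ (m : ℕ) (C : Finset (V × ℕ)),
  (∀ t < m, ∀ κ ∉ C, vr s q κ t 0 (fun _ => 0) = 0) →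
  vn s P ω q χ m ≤ ∑ κ ∈ C, (∑ t ∈ Finset.range m, vr s q κ t 0 (fun _ => 0) *
    Real.sqrt (al s P ω q χ (m - 1 - t))) * Real.sqrt (ifl s P ω q χ m 0 (fun _ => 0) κ)

/-- THE SUM OF THE VARIANCES (use `S_Th`, `S_Je`, `S_Vf`). Proof: `C` from `S_Vf` (4) for `M`, `x = 0`,
`r = 0`; `π κ t = vr s q κ t 0 0`, `α n = √(al n)`, `A = ∑ n < M, al n`. By `S_Th` and Cauchy-Schwarz for the sum
over `(m, κ)`: `∑ m < M, vn m ≤ √X √Y`, `X = ∑ κ ∈ C, ∑ m < M, (∑ t < m, π κ t * α (m-1-t))²`,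
`Y = ∑ m < M, ∑ κ ∈ C, ifl .. m 0 0 κ`. Young: for fixed `κ`, by Cauchy-Schwarz `(∑ t < m, π t α (m-1-t))² ≤
(∑ t < M, π t) ∑ t < m, π t * al (m-1-t)`, and the sum over `m < M` is `≤ (∑ t < M, π t)² A`; so `X ≤ κ0 A`
(`S_Vf` (6)). By `S_Je` and `S_Vf` (5): `∑ κ ∈ C, ifl .. m 0 0 κ ≤ ∑ t < m, al (m-1-t) ≤ A`, so `Y ≤ M A`. -/
def S_Yg : Prop := ∀ {V E Ω : Type} [AddCommGroup V] [DecidableEq V] [Countable V] [Fintype E]
  [DecidableEq E] [MeasurableSpace Ω] (s : E → V) (P : Measure Ω) (ω : V × ℕ → Ω → E → ℝ)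
  (q : E → ℝ) (χ : V → ℂ), Ci P ω q → Chr χ → ∀ (M : ℕ) (κ0 : ℝ), 0 ≤ κ0 → KB s q M κ0 →
  ∑ m ∈ Finset.range M, vn s P ω q χ m ≤
    (∑ n ∈ Finset.range M, al s P ω q χ n) * Real.sqrt (κ0 * M)

/-! ### windows -/

/-- THE WINDOW AVERAGE (use `S_Ub`). Proof: `g y = ∑ j, p j * Re (ζ j exp (i <θ j, y>))` (`Tp`);
`χ j x = exp (i <θ j, x>/√n0)` is a character, `g (nr q n0 m x) = ∑ j, p j * Re (ζ' j m * χ j x)` with
`ζ' j m = ζ j exp (-i m <θ j, v>/√n0)`, `‖ζ' j m‖ ≤ 1`. `U` is linear in `f` (induction), so by `S_Ub` (5) the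
difference of the two averages is `D = (1/h) ∑ m ∈ [n0, n0+h), ∑ j, p j * Re (ζ' j m * (Uc s W (χ j) m 0 0 -
Uc s (fun _ => q) (χ j) m 0 0))`. The weights `p j/h` have the sum `≤ 1`, so `D² ≤ (1/h) ∑ m, ∑ j, p j ‖..‖²`
(Cauchy-Schwarz) and `∫ D² ≤ (1/h) ∑ j, p j ∑ m < n0 + h, vn m ≤ Y/h` (`Y ≥ 0`; for measurability and
boundedness use `S_Ub` (1), (2)). Markov (`mul_meas_ge_le_integral_of_nonneg`). -/
def S_Vw : Prop := ∀ {Ω : Type} [MeasurableSpace Ω] (d : ℕ) (P : Measure Ω)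
  (ω : (Fin d → ℤ) × ℕ → Ω → Dr d → ℝ) (q : Dr d → ℝ), Ci P ω q →
  ∀ (g : EuclideanSpace ℝ (Fin d) → ℝ), Tp d g → ∀ (n0 h : ℕ) (Y ε : ℝ), 1 ≤ n0 → 1 ≤ h →
  0 < ε → 0 ≤ Y → (∀ χ : (Fin d → ℤ) → ℂ, Chr χ →
    ∑ m ∈ Finset.range (n0 + h), vn (st d) P ω q χ m ≤ Y) →
  P.real {o | 2 * ε ≤ |Av (st d) (fun κ => ω κ o) (fun m x => g (nr q n0 m x)) n0 h -
      Av (st d) (fun _ => q) (fun m x => g (nr q n0 m x)) n0 h|} ≤ Y / (4 * ε ^ 2 * h)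

/-- NUMBERS (use `S_Sz`). Proof: `M = nw θ b i + hb θ b`, `i ≤ gb θ b`: `nw ≤ 2^b + gb (2^b/gb + 1) ≤
2^(b+1) + gb`, `gb ≤ b^θ + 1 ≤ 2^b + 1`, so `M ≤ 2^(b+3)`; `hb ≥ 2^b/gb` (real quotient, as
`2^b/gb + 1 > 2^b/gb`) `≥ 2^b/(2 b^θ)` (`S_Sz`); `log M ≤ (b + 3) log 2 ≤ 4 b`. So the left side is at most
`(1 + 4 b)² (2^(b+3))^(7/8) 2 b^θ/2^b ≤ C b^(2+θ) 2^(-b/8)`, and `b^(3+3θ) 2^(-b/8) ≤ b^6 2^(-b/8)` is
bounded. -/
def S_Nm : Prop := ∀ θ : ℝ, 0 < θ → θ < 1 → ∃ C : ℝ, 0 ≤ C ∧ ∀ b : ℕ, 1 ≤ b → ∀ i ≤ gb θ b,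
  (1 + Real.log ((nw θ b i + hb θ b : ℕ) : ℝ)) ^ 2 *
    Real.sqrt (((nw θ b i + hb θ b : ℕ) : ℝ) ^ (3 / 4 : ℝ) * ((nw θ b i + hb θ b : ℕ) : ℝ)) /
      (hb θ b : ℝ) ≤ C * (b : ℝ) ^ (-1 - 2 * θ)

/-- THE PROBABILITY OF A DEVIATION (use `S_Vw`, `S_Yg`, `S_Am`, `S_Nm`, `S_Sz`, `S_In`, `S_K1`, `S_Su`,
`S_Sp`). Proof: not a.s. a point mass: there are `a ≠ e` with `K2m P ω (0, 1) a e > 0` (otherwise a.s.
`ω a * ω e = 0` for all `a ≠ e`, so exactly one `ω e` is not `0`, and it is `1`); `st d a ≠ st d e` (`st d` is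
injective). `S_Sp`, `S_Su` (`m = d ≥ 2`): `pt t x z ≤ C (t+1)^(-d/2) ≤ C/(t+1)`. `S_In`: `Inp (st d) q`, so `S_K1`
gives `KB (st d) q M (C1 * M^(3/4))` for `M ≥ 1`. With `M = n0 + h`: `S_Yg`, `S_Am`: `Y = C' (1 + log M)²
√(C1 M^(3/4) M)` in `S_Vw`; then `S_Nm`. The constant is uniform in `g`. -/
def S_Dv : Prop := ∀ {Ω : Type} [MeasurableSpace Ω] (d : ℕ) (P : Measure Ω)
  (ω : (Fin d → ℤ) × ℕ → Ω → Dr d → ℝ) (q : Dr d → ℝ), Ci P ω q → (Sg q).det ≠ 0 →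
  (3 ≤ d ∨ (d = 2 ∧ drift q ≠ 0)) → (¬ ∀ᵐ o ∂P, ∃ e, ω (0, 1) o e = 1) →
  ∀ (θ ε : ℝ), 0 < θ → θ < 1 → 0 < ε → ∃ C' : ℝ, 0 ≤ C' ∧ ∀ b : ℕ, 1 ≤ b → ∀ i ≤ gb θ b,
  ∀ g : EuclideanSpace ℝ (Fin d) → ℝ, Tp d g →
    P.real {o | 2 * ε ≤ |Av (st d) (fun κ => ω κ o) (fun m x => g (nr q (nw θ b i) m x))
        (nw θ b i) (hb θ b) -
      Av (st d) (fun _ => q) (fun m x => g (nr q (nw θ b i) m x)) (nw θ b i) (hb θ b)|} ≤
      C' * (b : ℝ) ^ (-1 - 2 * θ)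

/-! ### mean, large deviations -/

/-- THE AVERAGED LAW (use `S_Ma`, `S_Dp`; `S_Mn` without domination). Proof: copy Sw.lean (only the first
moment) and Mn.lean. -/
def S_Mn3 : Prop := ∀ {V E Ω : Type} [AddCommGroup V] [DecidableEq V] [Countable V] [Fintype E]
  [DecidableEq E] [MeasurableSpace Ω] (s : E → V) (P : Measure Ω) (ω : V × ℕ → Ω → E → ℝ)
  (q : E → ℝ), Ci P ω q → ∀ (Φ : List E → ℝ) (n : ℕ), (∀ h, |Φ h| ≤ 1) →
    Measurable (fun o => Ex s (fun κ => ω κ o) Φ n []) ∧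
    ∫ o, Ex s (fun κ => ω κ o) Φ n [] ∂P = Ex s (fun _ => q) Φ n []

/-- BAD WINDOWS ARE RARE (use `S_Mx`, `S_Mn3`, `S_Sz`; `S_Rb` without domination). Proof: copy Rb.lean. -/
def S_Rb3 : Prop := ∀ {Ω : Type} [MeasurableSpace Ω] (d : ℕ) (P : Measure Ω)
  (ω : (Fin d → ℤ) × ℕ → Ω → Dr d → ℝ) (q : Dr d → ℝ), Ci P ω q →
  ∀ (θ ε δ : ℝ), 0 < θ → θ < 1 → 0 < ε → 0 < δ → ∃ C : ℝ, ∀ b : ℕ, 1 ≤ b → ∀ i ≤ gb θ b,
    P.real {o | δ ≤ QB q (fun κ => ω κ o) (nw θ b i + hb θ b) (hb θ b)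
        (ε * Real.sqrt (nw θ b i))} ≤ C * (b : ℝ) ^ (-1 - 2 * θ) ∧
    P.real {o | δ ≤ QB q (fun κ => ω κ o) (2 ^ (b + 2)) (2 ^ (b + 2))
        ((b : ℝ) ^ (θ / 2) * Real.sqrt (2 ^ b))} ≤ C * (b : ℝ) ^ (-1 - 2 * θ)

/-! ### point masses -/

/-- DETERMINISTIC COOKIES (use `S_Pa`). Proof: by `idd` and countability a.s. for all `κ` there is `e` with
`ω κ o e = 1`, then `ω κ o` is the unit vector `e` (`PV`). So `wt` of a history of length `n` is `0` or `1`, and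
`1` for exactly one `h n` (induction on `n`, or `Ex`), `quenchE (st d) W n Φ = Φ (h n)`. Hence `f (x n) → ∫ f dμ`
for every bounded continuous `f`, `x n` the scaled position; so `∫ f² dμ = (∫ f dμ)²`, i.e. `f` is `μ`-a.e.
constant. Let `y` be a point of the support of `μ` and `f = min 1 (dist · y)`: the constant is `0` (every ball
around `y` has positive measure), so `μ {y} = 1`. -/
def S_Ng : Prop := ∀ {Ω : Type} [MeasurableSpace Ω] (d : ℕ) (P : Measure Ω)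
  (ω : (Fin d → ℤ) × ℕ → Ω → Dr d → ℝ) (q : Dr d → ℝ), Ci P ω q →
  (∀ᵐ o ∂P, ∃ e, ω (0, 1) o e = 1) →
  ∀ᵐ o ∂P, ∀ (c : ℕ → Fin d → ℝ) (μ : Measure (EuclideanSpace ℝ (Fin d))),
    IsProbabilityMeasure μ → (∀ f : BoundedContinuousFunction (EuclideanSpace ℝ (Fin d)) ℝ,
      Tendsto (fun n : ℕ => quenchE (st d) (fun κ => ω κ o) n fun h =>
        f (WithLp.toLp 2 fun i => ((pos (st d) h i : ℝ) - c n i) / Real.sqrt n)) atTop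
        (𝓝 (∫ x, f x ∂μ))) → ∃ y, μ = Measure.dirac y

end MP0d3db7NS
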