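import Pool.Agent.Lib.MP_0d3db7.NS.Core
import Pool.Agent.Lib.MP_0d3db7.NS.Spec3

/-!
# MP_0d3db7_pr, theorem NS3: assembly
-/

set_option autoImplicit false

namespace MP0d3db7NS

open MeasureTheory ProbabilityTheory Filter Topology

/-- NS3, with the modules as hypotheses -/
theorem tMain3 (hPa : S_Pa) (hSz : S_Sz) (hBw : S_Bw) (hIw : S_Iw) (hCq : S_Cq) (hTg : S_Tg)
    (hTm : S_Tm) (hFm : S_Fm) (hDv : S_Dv) (hRb : S_Rb3)
    {d : ℕ} {Ω : Type} [MeasurableSpace Ω] (P : Measure Ω) [IsProbabilityMeasure P]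
    (ω : (Fin d → ℤ) × ℕ → Ω → Dr d → ℝ) (q : Dr d → ℝ) (hci : Ci P ω q)
    (hS : (Sg q).det ≠ 0) (hd : 3 ≤ d ∨ (d = 2 ∧ drift q ≠ 0))
    (hC : ¬ ∀ᵐ o ∂P, ∃ e, ω (0, 1) o e = 1) :
    ∀ᵐ o ∂P, ∀ f : BoundedContinuousFunction (EuclideanSpace ℝ (Fin d)) ℝ,
      Tendsto (fun n : ℕ => quenchE (st d) (fun κ => ω κ o) n
        fun h => f (nrm q n (pos (st d) h))) atTop
        (𝓝 (∫ x, f x ∂(multivariateGaussian 0 (Sg q)))) := by
  refine tCore hPa hSz hBw hIw hCq hTg hTm hFm P ω hci.pv q (hci.pvq (0, 1)) (1 / 2)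
    (by norm_num) (by norm_num) (fun ε hε => ?_) (fun ε δ hε hδ => ?_)
  · obtain ⟨C', -, h⟩ := hDv d P ω q hci hS hd hC (1 / 2) ε (by norm_num) (by norm_num) hε
    exact ⟨C', h⟩
  · exact hRb d P ω q hci (1 / 2) ε δ (by norm_num) (by norm_num) hε hδ

end MP0d3db7NS
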