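import Pool.Agent.Lib.MP_0d3db7.NS.Spec3
import Pool.Agent.Lib.MP_0d3db7.NS.Sw

/-!
# Module Mn3: the averaged law is a random walk (no domination)
-/

set_option autoImplicit false

namespace MP0d3db7NS

open MeasureTheory ProbabilityTheory Filter Topology

namespace Mn3_aux

open Sw_aux

theorem main {ι E Ω : Type} [DecidableEq ι] [Countable ι] [Fintype E] [DecidableEq E]
    [MeasurableSpace Ω] (P : Measure Ω) (ω : ι → Ω → E → ℝ) (q : E → ℝ)
    (hC : Ci P ω q) (l : List ι) : ∀ F : (ι → E → ℝ) → ℝ, l.Nodup → Continuous F → Bd F →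
    MA l F → ∫ o, F (W ω q l o) ∂P = F (fun _ => q) := by
  have := hC.prob
  induction l with
  | nil =>
    intro F _ _ _ _
    have h : ∀ o, W ω q [] o = fun _ => q := fun o => by
      funext κ
      simp [W]
    simp [h]
  | cons κ l ih =>
    intro F hnd hcont hbd hma
    have hκ : κ ∉ l := (List.nodup_cons.1 hnd).1
    have hnd' : l.Nodup := (List.nodup_cons.1 hnd).2
    have hma' : MA l F := fun κ' h' => hma κ' (List.mem_cons_of_mem _ h')
    -- the cookie at `κ`
    have mω : ∀ e, Measurable fun o => ω κ o e := hC.mese κ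
    have hq : PV q := hC.pvq κ
    -- the coefficients
    set c : E → Ω → ℝ := fun e o => sb F κ (dl e) (W ω q l o) with hc
    have hpvW : ∀ o κ', PV (W ω q l o κ') := by
      intro o κ'
      by_cases h : κ' ∈ l
      · simpa [W, h] using hC.pv κ' o
      · simpa [W, h] using hq
    have mc : ∀ e, Measurable (c e) := fun e =>
      (sb_cont hcont κ (dl e)).measurable.comp (meas_W hC.meas q l)
    have bc : ∀ e o, |c e o| ≤ 1 := fun e o => sb_bd hbd κ (pv_dl e) _ (hpvW o)
    have hF1 : ∀ o, F (W ω q (κ :: l) o) = ∑ e, ω κ o e * c e o := by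
      intro o
      rw [W_cons, hma κ List.mem_cons_self _ _ (hC.pv κ o).2]
      rfl
    have hind : ∀ {f g : _ → ℝ}, Measurable f → Measurable g →
        IndepFun (fun o => f (ω κ o)) (fun o => g (W ω q l o)) P := fun hf hg =>
      (indep_W hC.meas hC.ind q l κ hκ).comp hf hg
    have mw : ∀ e, Measurable fun v : E → ℝ => v e := fun e => measurable_pi_apply e
    have mF : ∀ e, Measurable (sb F κ (dl e)) := fun e => (sb_cont hcont κ (dl e)).measurable
    have h1 : ∀ e, ∫ o, ω κ o e * c e o ∂P = q e * sb F κ (dl e) (fun _ => q) := by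
      intro e
      rw [IndepFun.integral_fun_mul_eq_mul_integral (hind (mw e) (mF e))
        (mω e).aestronglyMeasurable (mc e).aestronglyMeasurable, hC.mean κ e,
        ih (sb F κ (dl e)) hnd' (sb_cont hcont κ _) (sb_bd hbd κ (pv_dl e))
          (sb_ma hma' κ hκ _)]
    have h2 : ∀ e, Integrable (fun o => ω κ o e * c e o) P := fun e =>
      Integrable.of_bound ((mω e).mul (mc e)).aestronglyMeasurable 1
        (Eventually.of_forall fun o => by
          rw [norm_mul, Real.norm_eq_abs, Real.norm_eq_abs]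
          exact mul_le_one₀ (pv_le (hC.pv κ o) e) (abs_nonneg _) (bc e o))
    simp only [hF1]
    rw [integral_finsetSum _ fun e _ => h2 e]
    simp only [h1]
    have h3 := hma κ List.mem_cons_self (fun _ => q) q hq.2
    rw [Function.update_eq_self_iff.2 rfl] at h3
    rw [h3]
    rfl

end Mn3_aux

theorem tMn3 (hMa : S_Ma) (hDp : S_Dp) : S_Mn3 := by
  intro V E Ω _ _ _ _ _ _ s P ω q hC Φ n hΦ
  obtain ⟨B, hB⟩ := hDp s n
  obtain ⟨m1, _, m3, m4⟩ := hMa s
  set l : List (V × ℕ) := (B ×ˢ Finset.Icc 1 n).toList with hl0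
  have hl : l.Nodup := Finset.nodup_toList _
  have hmem : ∀ z ∈ B, ∀ i ∈ Finset.Icc 1 n, (z, i) ∈ l := by
    intro z hz i hi
    rw [hl0, Finset.mem_toList, Finset.mem_product]
    exact ⟨hz, hi⟩
  have hF : ∀ o : Ω, Ex s (fun κ => ω κ o) Φ n [] = Ex s (Sw_aux.W ω q l o) Φ n [] := by
    intro o
    refine hB Φ _ _ fun z hz i hi => ?_
    unfold Sw_aux.W
    rw [if_pos (hmem z hz i hi)]
  constructor
  · have h1 : Measurable (fun o => (fun κ => ω κ o : V × ℕ → E → ℝ)) :=
      measurable_pi_lambda _ fun κ => hC.meas κ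
    exact (m1 Φ n []).measurable.comp h1
  · have h2 := Mn3_aux.main P ω q hC l (fun w => Ex s w Φ n []) hl (m1 Φ n []) (m4 Φ n [] hΦ)
      (m3 Φ n [] l)
    rw [← h2]
    exact integral_congr_ae (Eventually.of_forall fun o => hF o)

end MP0d3db7NS
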