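import Pool.Agent.Lib.MP_0d3db7.NS.Spec3

/-!
# MP_0d3db7_pr, theorem NS3: deterministic cookies, no limit law (helper73)
-/

set_option autoImplicit false

namespace MP0d3db7NS

open MeasureTheory ProbabilityTheory Filter Topology

namespace Ng_aux

/-- the history of the walk with deterministic cookies -/
def hist {V E : Type} [AddCommGroup V] [DecidableEq V] (s : E → V) (D : V × ℕ → E) : ℕ → List E
  | 0 => []
  | n + 1 => D (pos s (hist s D n), vis s (hist s D n)) :: hist s D n

theorem pv_eq {E : Type} [Fintype E] {p : E → ℝ} (hp : PV p) {e : E} (he : p e = 1) (e' : E)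
    (hne : e' ≠ e) : p e' = 0 := by
  classical
  have h1 : p e + p e' ≤ 1 := by
    rw [← hp.2, ← Finset.sum_pair hne.symm]
    exact Finset.sum_le_sum_of_subset_of_nonneg (Finset.subset_univ _) fun i _ _ => hp.1 i
  have h2 := hp.1 e'
  linarith

theorem ex_hist {V E : Type} [AddCommGroup V] [DecidableEq V] [Fintype E] (s : E → V)
    (w : V × ℕ → E → ℝ) (D : V × ℕ → E) (hD : ∀ κ, w κ (D κ) = 1)
    (hD0 : ∀ κ e, e ≠ D κ → w κ e = 0) (Φ : List E → ℝ) (n : ℕ) :
    ∀ m, Ex s w Φ n (hist s D m) = Φ (hist s D (m + n)) := by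
  induction n with
  | zero => intro m; rfl
  | succ n ih =>
    intro m
    change ∑ e, w (pos s (hist s D m), vis s (hist s D m)) e * Ex s w Φ n (e :: hist s D m) = _
    rw [Finset.sum_eq_single (D (pos s (hist s D m), vis s (hist s D m)))
      (fun e _ he => by rw [hD0 _ e he, zero_mul]) (fun h => absurd (Finset.mem_univ _) h), hD,
      one_mul]
    change Ex s w Φ n (hist s D (m + 1)) = _
    rw [ih (m + 1), show m + 1 + n = m + (n + 1) by omega]

/-- a law for which the bounded continuous functions are constant -/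
theorem dirac_of {d : ℕ} (μ : Measure (EuclideanSpace ℝ (Fin d))) [IsProbabilityMeasure μ]
    (h : ∀ f : BoundedContinuousFunction (EuclideanSpace ℝ (Fin d)) ℝ,
      ∫ x, f x * f x ∂μ = (∫ x, f x ∂μ) * ∫ x, f x ∂μ) : ∃ y, μ = Measure.dirac y := by
  have h1 : ∀ f : BoundedContinuousFunction (EuclideanSpace ℝ (Fin d)) ℝ,
      ∀ᵐ x ∂μ, f x = ∫ x, f x ∂μ := by
    intro f
    have hi : Integrable (fun x => f x) μ := f.integrable μ
    have hi2 : Integrable (fun x => f x * f x) μ := (f * f).integrable μ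
    have hi4 : Integrable (fun x => f x * f x - (2 * ∫ x, f x ∂μ) * f x) μ :=
      hi2.sub (hi.const_mul _)
    have h2 : ∫ x, (f x - ∫ x, f x ∂μ) ^ 2 ∂μ = 0 := by
      have e1 : ∀ x, (f x - ∫ x, f x ∂μ) ^ 2 =
          (f x * f x - (2 * ∫ x, f x ∂μ) * f x) + (∫ x, f x ∂μ) * ∫ x, f x ∂μ := fun x => by ring
      simp only [e1]
      rw [integral_add hi4 (integrable_const _),
        integral_sub hi2 (hi.const_mul _), integral_const_mul, h f, integral_const]
      simp
      ring
    have hi3 : Integrable (fun x => (f x - ∫ x, f x ∂μ) ^ 2) μ := by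
      have e1 : (fun x => (f x - ∫ x, f x ∂μ) ^ 2) = fun x =>
          (f x * f x - (2 * ∫ x, f x ∂μ) * f x) + (∫ x, f x ∂μ) * ∫ x, f x ∂μ := by
        funext x
        ring
      rw [e1]
      exact hi4.add (integrable_const _)
    have h3 := (integral_eq_zero_iff_of_nonneg (fun x => sq_nonneg _) hi3).1 h2
    filter_upwards [h3] with x hx
    have : (f x - ∫ x, f x ∂μ) ^ 2 = 0 := hx
    exact sub_eq_zero.1 (pow_eq_zero_iff (two_ne_zero) |>.1 this)
  have h4 : ∀ i : Fin d, ∃ c : ℝ, ∀ᵐ x ∂μ, Real.arctan (x i) = c := by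
    intro i
    have hc : Continuous fun x : EuclideanSpace ℝ (Fin d) => Real.arctan (x i) :=
      Real.continuous_arctan.comp (EuclideanSpace.proj i).continuous
    have := h1 (BoundedContinuousFunction.ofNormedAddCommGroup
      (fun x : EuclideanSpace ℝ (Fin d) => Real.arctan (x i)) hc (Real.pi / 2) fun x => by
        rw [Real.norm_eq_abs, abs_le]
        exact ⟨(Real.neg_pi_div_two_lt_arctan _).le, (Real.arctan_lt_pi_div_two _).le⟩)
    exact ⟨_, this⟩
  choose c hc using h4
  have h5 : ∀ᵐ x ∂μ, ∀ i : Fin d, Real.arctan (x i) = c i := ae_all_iff.2 hc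
  obtain ⟨y, hy⟩ := h5.exists
  refine ⟨y, ?_⟩
  have h6 : (fun x => x) =ᵐ[μ] fun _ => y := by
    filter_upwards [h5] with x hx
    ext i
    exact Real.arctan_injective ((hx i).trans (hy i).symm)
  calc μ = μ.map (fun x => x) := Measure.map_id'.symm
    _ = μ.map (fun _ => y) := Measure.map_congr h6
    _ = Measure.dirac y := by rw [Measure.map_const, measure_univ, one_smul]

end Ng_aux

open Ng_aux in
theorem tNg (hPa : S_Pa) : S_Ng := by
  intro Ω _ d P ω q h h1
  have hall : ∀ᵐ o ∂P, ∀ κ, ∃ e, ω κ o e = 1 := by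
    refine ae_all_iff.2 fun κ => ?_
    refine (h.idd (0, 1) κ).ae_snd (p := fun x : Dr d → ℝ => ∃ e, x e = 1) ?_ h1
    have e1 : {x : Dr d → ℝ | ∃ e, x e = 1} = ⋃ e, {x : Dr d → ℝ | x e = 1} := by
      ext x
      simp
    rw [e1]
    exact MeasurableSet.iUnion fun e => measurableSet_eq_fun (measurable_pi_apply e) measurable_const
  filter_upwards [hall] with o ho
  intro c μ hμ hf
  choose D hD using ho
  have hD0 : ∀ κ e, e ≠ D κ → ω κ o e = 0 := fun κ e he => pv_eq (h.pv κ o) (hD κ) e he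
  have hq : ∀ (Φ : List (Dr d) → ℝ) (n : ℕ), quenchE (st d) (fun κ => ω κ o) n Φ =
      Φ (hist (st d) D n) := by
    intro Φ n
    rw [(hPa (st d) fun κ => ω κ o).1 Φ n]
    have := ex_hist (st d) (fun κ => ω κ o) D hD hD0 Φ n 0
    rw [Nat.zero_add] at this
    exact this
  refine dirac_of μ fun f => ?_
  have t1 := hf f
  have t2 := hf (f * f)
  simp only [hq] at t1 t2
  have t3 := t1.mul t1
  exact tendsto_nhds_unique t2 t3

end MP0d3db7NS
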