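import Pool.Agent.Lib.MP_0d3db7.NS.Spec3

/-!
# MP_0d3db7_pr, theorem NS3, module Nm: numbers
-/

set_option autoImplicit false

namespace MP0d3db7NS

open MeasureTheory ProbabilityTheory Filter Topology

namespace Nm_aux

theorem pow_six (b : ℕ) :
    (b : ℝ) ^ 6 ≤ 720 * (8 / Real.log 2) ^ 6 * ((2 : ℝ) ^ b) ^ (1 / 8 : ℝ) := by
  have hl : 0 < Real.log 2 := Real.log_pos (by norm_num)
  have hx : 0 ≤ (b : ℝ) * (Real.log 2 / 8) := by positivity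
  have h1 := Real.pow_div_factorial_le_exp _ hx 6
  have h2 : Real.exp ((b : ℝ) * (Real.log 2 / 8)) = ((2 : ℝ) ^ b) ^ (1 / 8 : ℝ) := by
    rw [Real.rpow_def_of_pos (by positivity), Real.log_pow]
    congr 1
    ring
  rw [h2] at h1
  have h3 : ((Nat.factorial 6 : ℕ) : ℝ) = 720 := by norm_num [Nat.factorial]
  rw [h3] at h1
  calc (b : ℝ) ^ 6 = 720 * (8 / Real.log 2) ^ 6 *
        (((b : ℝ) * (Real.log 2 / 8)) ^ 6 / 720) := by
        field_simp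
    _ ≤ 720 * (8 / Real.log 2) ^ 6 * ((2 : ℝ) ^ b) ^ (1 / 8 : ℝ) :=
        mul_le_mul_of_nonneg_left h1 (by positivity)

end Nm_aux

theorem tNm (hSz : S_Sz) : S_Nm := by
  intro θ h0 h1
  have hl : 0 < Real.log 2 := Real.log_pos (by norm_num)
  refine ⟨400 * (720 * (8 / Real.log 2) ^ 6), by positivity, ?_⟩
  intro b hb i hi
  obtain ⟨hg1, hg2, hh1, _, _, _, _⟩ := hSz θ h0 h1 b hb
  have hB : (1 : ℝ) ≤ (b : ℝ) := by exact_mod_cast hb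
  have hB0 : (0 : ℝ) < (b : ℝ) := by linarith
  have hbθ : (b : ℝ) ^ θ ≤ (b : ℝ) := by
    calc (b : ℝ) ^ θ ≤ (b : ℝ) ^ (1 : ℝ) := Real.rpow_le_rpow_of_exponent_le hB h1.le
      _ = (b : ℝ) := Real.rpow_one _
  have hbθ0 : 0 < (b : ℝ) ^ θ := Real.rpow_pos_of_pos hB0 _
  have hg3 : gb θ b ≤ 2 * b := by
    have : ((gb θ b : ℕ) : ℝ) ≤ ((2 * b : ℕ) : ℝ) := by
      push_cast
      linarith
    exact_mod_cast this
  -- the upper bound of `M`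
  have hb2 : b < 2 ^ b := Nat.lt_two_pow_self
  have hdiv : gb θ b * (2 ^ b / gb θ b) ≤ 2 ^ b := Nat.mul_div_le _ _
  have hdiv2 : 2 ^ b / gb θ b ≤ 2 ^ b := Nat.div_le_self _ _
  set M := nw θ b i + MP0d3db7NS.hb θ b with hM
  have hM8 : M ≤ 8 * 2 ^ b := by
    have e1 : i * MP0d3db7NS.hb θ b ≤ gb θ b * MP0d3db7NS.hb θ b :=
      Nat.mul_le_mul_right _ hi
    have e2 : gb θ b * MP0d3db7NS.hb θ b = gb θ b * (2 ^ b / gb θ b) + gb θ b := by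
      unfold MP0d3db7NS.hb
      ring
    have e3 : MP0d3db7NS.hb θ b = 2 ^ b / gb θ b + 1 := rfl
    have e4 : M = 2 ^ b + i * MP0d3db7NS.hb θ b + MP0d3db7NS.hb θ b := rfl
    omega
  have hM1 : 1 ≤ M := by
    have e4 : M = 2 ^ b + i * MP0d3db7NS.hb θ b + MP0d3db7NS.hb θ b := rfl
    omega
  have hMr : (M : ℝ) ≤ 8 * 2 ^ b := by exact_mod_cast hM8
  have hMr1 : (1 : ℝ) ≤ (M : ℝ) := by exact_mod_cast hM1
  have hP : (0 : ℝ) < (2 : ℝ) ^ b := by positivity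
  -- the logarithm
  have hlog : 1 + Real.log (M : ℝ) ≤ 5 * b := by
    have e1 : Real.log (M : ℝ) ≤ Real.log (8 * 2 ^ b) :=
      Real.log_le_log (by linarith) hMr
    have e2 : Real.log ((8 : ℝ) * 2 ^ b) = (b + 3) * Real.log 2 := by
      rw [Real.log_mul (by norm_num) hP.ne', Real.log_pow]
      have : (8 : ℝ) = 2 ^ 3 := by norm_num
      rw [this, Real.log_pow]
      push_cast
      ring
    have e3 : Real.log 2 ≤ 1 := by
      have := Real.log_two_lt_d9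
      linarith
    have e4 : ((b : ℝ) + 3) * Real.log 2 ≤ ((b : ℝ) + 3) * 1 :=
      mul_le_mul_of_nonneg_left e3 (by linarith)
    linarith
  have hlog0 : 0 ≤ Real.log (M : ℝ) := Real.log_nonneg hMr1
  have hlog2 : (1 + Real.log (M : ℝ)) ^ 2 ≤ (5 * b) ^ 2 :=
    pow_le_pow_left₀ (by linarith) hlog 2
  -- the root
  set E := ((2 : ℝ) ^ b) ^ (1 / 8 : ℝ) with hE
  have hE0 : 0 < E := Real.rpow_pos_of_pos hP _
  have hroot : Real.sqrt ((M : ℝ) ^ (3 / 4 : ℝ) * (M : ℝ)) ≤ 8 * 2 ^ b / E := by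
    have e1 : (M : ℝ) ^ (3 / 4 : ℝ) * (M : ℝ) = ((M : ℝ) ^ (7 / 8 : ℝ)) ^ 2 := by
      rw [← Real.rpow_natCast ((M : ℝ) ^ (7 / 8 : ℝ)) 2, ← Real.rpow_mul (by linarith),
        ← Real.rpow_add_one (by linarith)]
      norm_num
    rw [e1, Real.sqrt_sq (Real.rpow_nonneg (by linarith) _)]
    calc (M : ℝ) ^ (7 / 8 : ℝ) ≤ (8 * 2 ^ b) ^ (7 / 8 : ℝ) :=
          Real.rpow_le_rpow (by linarith) hMr (by norm_num)
      _ = (8 : ℝ) ^ (7 / 8 : ℝ) * ((2 : ℝ) ^ b) ^ (7 / 8 : ℝ) :=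
          Real.mul_rpow (by norm_num) hP.le
      _ ≤ 8 * ((2 : ℝ) ^ b / E) := by
          have e2 : (8 : ℝ) ^ (7 / 8 : ℝ) ≤ 8 := by
            calc (8 : ℝ) ^ (7 / 8 : ℝ) ≤ (8 : ℝ) ^ (1 : ℝ) :=
                  Real.rpow_le_rpow_of_exponent_le (by norm_num) (by norm_num)
              _ = 8 := Real.rpow_one _
          have e3 : ((2 : ℝ) ^ b) ^ (7 / 8 : ℝ) = (2 : ℝ) ^ b / E := by
            rw [hE, eq_div_iff (Real.rpow_pos_of_pos hP _).ne', ← Real.rpow_add hP]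
            norm_num
          rw [e3]
          exact mul_le_mul_of_nonneg_right e2 (by positivity)
      _ = 8 * 2 ^ b / E := by ring
  -- the length of the window
  have hgr : (0 : ℝ) < (gb θ b : ℝ) := by exact_mod_cast hg1
  have hhb : (2 : ℝ) ^ b / (2 * (b : ℝ) ^ θ) ≤ (MP0d3db7NS.hb θ b : ℝ) := by
    have e1 : (2 : ℝ) ^ b / (2 * (b : ℝ) ^ θ) ≤ (2 : ℝ) ^ b / (gb θ b : ℝ) :=
      div_le_div_of_nonneg_left hP.le hgr hg2
    refine e1.trans ?_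
    rw [div_le_iff₀ hgr]
    have e2 : 2 ^ b ≤ MP0d3db7NS.hb θ b * gb θ b := by
      have e3 : MP0d3db7NS.hb θ b * gb θ b = gb θ b * (2 ^ b / gb θ b) + gb θ b := by
        unfold MP0d3db7NS.hb
        ring
      have e4 := Nat.div_add_mod (2 ^ b) (gb θ b)
      have e5 : 2 ^ b % gb θ b < gb θ b := Nat.mod_lt _ hg1
      omega
    exact_mod_cast e2
  have hhb0 : (0 : ℝ) < (2 : ℝ) ^ b / (2 * (b : ℝ) ^ θ) := by positivity
  -- the exponents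
  have hexp : (b : ℝ) ^ 2 * (b : ℝ) ^ θ ≤ (b : ℝ) ^ (-1 - 2 * θ) * (b : ℝ) ^ 6 := by
    have e1 : (b : ℝ) ^ 2 * (b : ℝ) ^ θ = (b : ℝ) ^ (-1 - 2 * θ) * (b : ℝ) ^ (3 + 3 * θ) := by
      rw [← Real.rpow_add hB0, ← Real.rpow_natCast (b : ℝ) 2, ← Real.rpow_add hB0]
      congr 1
      push_cast
      ring
    rw [e1]
    refine mul_le_mul_of_nonneg_left ?_ (Real.rpow_nonneg hB0.le _)
    rw [← Real.rpow_natCast (b : ℝ) 6]
    refine Real.rpow_le_rpow_of_exponent_le hB ?_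
    push_cast
    linarith
  calc (1 + Real.log (M : ℝ)) ^ 2 * Real.sqrt ((M : ℝ) ^ (3 / 4 : ℝ) * (M : ℝ)) /
        (MP0d3db7NS.hb θ b : ℝ)
      ≤ (5 * b) ^ 2 * (8 * 2 ^ b / E) / ((2 : ℝ) ^ b / (2 * (b : ℝ) ^ θ)) := by
        gcongr
    _ = 400 * ((b : ℝ) ^ 2 * (b : ℝ) ^ θ) / E := by
        field_simp
        ring
    _ ≤ 400 * ((b : ℝ) ^ (-1 - 2 * θ) * (b : ℝ) ^ 6) / E := by
        gcongr
    _ ≤ 400 * ((b : ℝ) ^ (-1 - 2 * θ) * (720 * (8 / Real.log 2) ^ 6 * E)) / E := by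
        have := Nm_aux.pow_six b
        gcongr
    _ = 400 * (720 * (8 / Real.log 2) ^ 6) * (b : ℝ) ^ (-1 - 2 * θ) := by
        field_simp

end MP0d3db7NS
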