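import Pool.Agent.Lib.MP_0d3db7.NS.Spec3

/-!
# MP_0d3db7_pr, theorem NS3, module Or: orthogonality (helper55)
-/

set_option autoImplicit false

namespace MP0d3db7NS

open MeasureTheory ProbabilityTheory Filter Topology

namespace Or_aux

section

variable {ι E : Type} [DecidableEq ι] [Fintype E] [DecidableEq E]

theorem pv_dl (e : E) : PV (dl e) := by
  constructor
  · intro a
    simp only [dl, Pi.single_apply]
    split_ifs <;> norm_num
  · simp [dl]

theorem pv_update {w : ι → E → ℝ} (hw : ∀ κ, PV (w κ)) (κ : ι) {p : E → ℝ} (hp : PV p) :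
    ∀ κ', PV (Function.update w κ p κ') := by
  intro κ'
  by_cases h : κ' = κ
  · subst h
    rw [Function.update_self]
    exact hp
  · rw [Function.update_of_ne h]
    exact hw κ'

theorem cont_upd (κ : ι) (p : E → ℝ) : Continuous fun w : ι → E → ℝ => Function.update w κ p :=
  continuous_id.update κ continuous_const

theorem dk_eq {F : (ι → E → ℝ) → ℂ} (hF : Nice F) (q : E → ℝ) (hq : ∑ e, q e = 1) (κ : ι)
    (w : ι → E → ℝ) (hw : ∑ e, w κ e = 1) :
    Dk q κ F w = ∑ e, ((w κ e - q e : ℝ) : ℂ) * F (Function.update w κ (dl e)) := by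
  have h1 := hF.aff κ w (w κ) hw
  rw [Function.update_eq_self] at h1
  have h2 := hF.aff κ w q hq
  unfold Dk
  rw [h2, h1, ← Finset.sum_sub_distrib]
  refine Finset.sum_congr rfl fun e _ => ?_
  push_cast
  ring

end

variable {ι E Ω : Type} [DecidableEq ι] [Countable ι] [Fintype E] [DecidableEq E]
  [MeasurableSpace Ω] {P : Measure Ω} {ω : ι → Ω → E → ℝ} {q : E → ℝ}

theorem mW (h : Ci P ω q) : Measurable fun (o : Ω) (κ : ι) => ω κ o :=
  measurable_pi_iff.2 h.meas

theorem zero (hIx : S_Ix) (h : Ci P ω q) (κ : ι) {F G : (ι → E → ℝ) → ℂ} (hF : Nice F)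
    (hGc : Continuous G) (hGb : ∃ C : ℝ, ∀ w : ι → E → ℝ, (∀ κ, PV (w κ)) → ‖G w‖ ≤ C)
    (hGi : ∀ w p, G (Function.update w κ p) = G w) :
    ∫ o, Dk q κ F (fun κ => ω κ o) * (starRingEnd ℂ) (G (fun κ => ω κ o)) ∂P = 0 := by
  have hP := h.prob
  have hq := h.pvq κ
  obtain ⟨C, hC⟩ := hF.bd
  obtain ⟨C', hC'⟩ := hGb
  set K : E → (ι → E → ℝ) → ℂ := fun e w =>
    F (Function.update w κ (dl e)) * (starRingEnd ℂ) (G w) with hK
  have hKm : ∀ e, Measurable (K e) := fun e =>
    ((hF.cont.comp (cont_upd κ (dl e))).mul (Complex.continuous_conj.comp hGc)).measurable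
  have hKi : ∀ e w p, K e (Function.update w κ p) = K e w := by
    intro e w p
    simp only [hK]
    rw [hGi, Function.update_idem]
  have hKb : ∀ e o, ‖K e (fun κ => ω κ o)‖ ≤ C * C' := by
    intro e o
    simp only [hK]
    rw [norm_mul, RCLike.norm_conj]
    have h1 := hC (Function.update (fun κ => ω κ o) κ (dl e))
      (pv_update (fun κ => h.pv κ o) κ (pv_dl e))
    have h2 := hC' (fun κ => ω κ o) fun κ => h.pv κ o
    exact mul_le_mul h1 h2 (norm_nonneg _) ((norm_nonneg _).trans h1)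
  have e1 : ∀ o, Dk q κ F (fun κ => ω κ o) * (starRingEnd ℂ) (G (fun κ => ω κ o)) =
      ∑ e, (((fun p : E → ℝ => p e - q e) (ω κ o) : ℝ) : ℂ) * K e (fun κ => ω κ o) := by
    intro o
    rw [dk_eq hF q hq.2 κ (fun κ => ω κ o) (h.pv κ o).2, Finset.sum_mul]
    refine Finset.sum_congr rfl fun e _ => ?_
    simp only [hK]
    ring
  have hφm : ∀ e, Measurable fun p : E → ℝ => p e - q e := fun e => by fun_prop
  have hφb : ∀ e o, ‖(((fun p : E → ℝ => p e - q e) (ω κ o) : ℝ) : ℂ)‖ ≤ 1 := by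
    intro e o
    rw [Complex.norm_real, Real.norm_eq_abs, abs_le]
    have h1 := (h.pv κ o).1 e
    have h2 := h.le1 κ o e
    have h3 := hq.1 e
    have h4 : q e ≤ 1 := by
      rw [← hq.2]
      exact Finset.single_le_sum (fun e _ => hq.1 e) (Finset.mem_univ e)
    constructor <;> simp only <;> linarith
  have hint : ∀ e ∈ (Finset.univ : Finset E), Integrable
      (fun o => (((fun p : E → ℝ => p e - q e) (ω κ o) : ℝ) : ℂ) * K e (fun κ => ω κ o)) P := by
    intro e _
    refine Integrable.of_bound (C := 1 * (C * C')) ?_ (Filter.Eventually.of_forall fun o => ?_)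
    · exact ((Complex.measurable_ofReal.comp ((hφm e).comp (h.meas κ))).mul
        ((hKm e).comp (mW h))).aestronglyMeasurable
    · rw [norm_mul]
      exact mul_le_mul (hφb e o) (hKb e o) (norm_nonneg _) zero_le_one
  simp only [e1]
  rw [integral_finsetSum _ hint]
  refine Finset.sum_eq_zero fun e _ => ?_
  rw [hIx P ω q h κ (fun p => p e - q e) (K e) (hφm e) (hKm e) (hKi e)]
  have h0 : ∫ o, (fun p : E → ℝ => p e - q e) (ω κ o) ∂P = 0 := by
    simp only
    rw [integral_sub (h.int κ e) (integrable_const _), h.mean κ e]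
    simp
  rw [h0]
  simp

theorem main (hIx : S_Ix) (h : Ci P ω q) (κ : ι) (F H : (ι → E → ℝ) → ℂ) (hF : Nice F)
    (hH : Nice H) :
    ∫ o, ‖F (fun κ => ω κ o)‖ ^ 2 ∂P = ∫ o, ‖Dk q κ F (fun κ => ω κ o)‖ ^ 2 ∂P +
      ∫ o, ‖F (Function.update (fun κ => ω κ o) κ q)‖ ^ 2 ∂P ∧
    ∫ o, Dk q κ F (fun κ => ω κ o) * (starRingEnd ℂ) (H (fun κ => ω κ o)) ∂P =
      ∫ o, Dk q κ F (fun κ => ω κ o) *
        (starRingEnd ℂ) (Dk q κ H (fun κ => ω κ o)) ∂P := by
  have hP := h.prob
  have hq := h.pvq κ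
  have key : ∀ G : (ι → E → ℝ) → ℂ, Nice G →
      ∫ o, Dk q κ F (fun κ => ω κ o) *
        (starRingEnd ℂ) (G (Function.update (fun κ => ω κ o) κ q)) ∂P = 0 := by
    intro G hG
    refine zero hIx h κ hF (G := fun w => G (Function.update w κ q))
      (hG.cont.comp (cont_upd κ q)) ?_ ?_
    · obtain ⟨C, hC⟩ := hG.bd
      exact ⟨C, fun w hw => hC _ (pv_update hw κ hq)⟩
    · intro w p
      rw [Function.update_idem]
  -- measurability and bounds
  have hm : ∀ G : (ι → E → ℝ) → ℂ, Nice G → Measurable fun o => G (fun κ => ω κ o) :=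
    fun G hG => hG.cont.measurable.comp (mW h)
  have hmu : ∀ G : (ι → E → ℝ) → ℂ, Nice G →
      Measurable fun o => G (Function.update (fun κ => ω κ o) κ q) :=
    fun G hG => (hG.cont.comp (cont_upd κ q)).measurable.comp (mW h)
  have hmd : ∀ G : (ι → E → ℝ) → ℂ, Nice G → Measurable fun o => Dk q κ G (fun κ => ω κ o) :=
    fun G hG => (hm G hG).sub (hmu G hG)
  have hb : ∀ G : (ι → E → ℝ) → ℂ, Nice G → ∃ C : ℝ, 0 ≤ C ∧
      (∀ o, ‖G (fun κ => ω κ o)‖ ≤ C) ∧ (∀ o, ‖G (Function.update (fun κ => ω κ o) κ q)‖ ≤ C) ∧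
      ∀ o, ‖Dk q κ G (fun κ => ω κ o)‖ ≤ C := by
    intro G hG
    obtain ⟨C, hC⟩ := hG.bd
    have h1 : ∀ o, ‖G (fun κ => ω κ o)‖ ≤ C := fun o => hC _ fun κ => h.pv κ o
    have h2 : ∀ o, ‖G (Function.update (fun κ => ω κ o) κ q)‖ ≤ C := fun o =>
      hC _ (pv_update (fun κ => h.pv κ o) κ hq)
    refine ⟨2 * |C|, by positivity, fun o => (h1 o).trans ?_, fun o => (h2 o).trans ?_,
      fun o => ?_⟩
    · linarith [le_abs_self C, abs_nonneg C]
    · linarith [le_abs_self C, abs_nonneg C]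
    · refine (norm_sub_le _ _).trans ?_
      linarith [le_abs_self C, h1 o, h2 o]
  obtain ⟨C, hC0, hC1, hC2, hC3⟩ := hb F hF
  obtain ⟨C', hC0', hC1', hC2', hC3'⟩ := hb H hH
  have hi : ∀ (f : Ω → ℂ) (c : ℝ), Measurable f → (∀ o, ‖f o‖ ≤ c) →
      Integrable (fun o => ‖f o‖ ^ 2) P := by
    intro f c hf hc
    refine Integrable.of_bound (C := c ^ 2) (hf.norm.pow_const 2).aestronglyMeasurable
      (Filter.Eventually.of_forall fun o => ?_)
    rw [norm_pow, norm_norm]
    exact pow_le_pow_left₀ (norm_nonneg _) (hc o) 2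
  have hi2 : ∀ (f g : Ω → ℂ) (c c' : ℝ), Measurable f → Measurable g → (∀ o, ‖f o‖ ≤ c) →
      (∀ o, ‖g o‖ ≤ c') → Integrable (fun o => f o * (starRingEnd ℂ) (g o)) P := by
    intro f g c c' hf hg hc hc'
    refine Integrable.of_bound (C := c * c')
      (hf.mul (Complex.continuous_conj.measurable.comp hg)).aestronglyMeasurable
      (Filter.Eventually.of_forall fun o => ?_)
    rw [norm_mul, RCLike.norm_conj]
    exact mul_le_mul (hc o) (hc' o) (norm_nonneg _) ((norm_nonneg _).trans (hc o))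
  constructor
  · have e1 : ∀ o, ‖F (fun κ => ω κ o)‖ ^ 2 = ‖Dk q κ F (fun κ => ω κ o)‖ ^ 2 +
        ‖F (Function.update (fun κ => ω κ o) κ q)‖ ^ 2 +
        2 * Complex.reCLM (Dk q κ F (fun κ => ω κ o) *
          (starRingEnd ℂ) (F (Function.update (fun κ => ω κ o) κ q))) := by
      intro o
      have e2 : F (fun κ => ω κ o) = Dk q κ F (fun κ => ω κ o) +
          F (Function.update (fun κ => ω κ o) κ q) := by
        unfold Dk
        ring
      rw [e2]
      simp only [← Complex.normSq_eq_norm_sq, Complex.normSq_add, Complex.reCLM_apply]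
    have h1 := hi _ C (hmd F hF) hC3
    have h2 := hi _ C (hmu F hF) hC2
    have h3 := hi2 _ _ C C (hmd F hF) (hmu F hF) hC3 hC2
    have h4 := (Complex.reCLM.integrable_comp h3).const_mul 2
    have h5 : ∫ o, Complex.reCLM (Dk q κ F (fun κ => ω κ o) *
        (starRingEnd ℂ) (F (Function.update (fun κ => ω κ o) κ q))) ∂P = 0 := by
      rw [Complex.reCLM.integral_comp_comm h3, key F hF]
      simp
    calc ∫ o, ‖F (fun κ => ω κ o)‖ ^ 2 ∂P
        = ∫ o, (‖Dk q κ F (fun κ => ω κ o)‖ ^ 2 +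
          ‖F (Function.update (fun κ => ω κ o) κ q)‖ ^ 2) +
          2 * Complex.reCLM (Dk q κ F (fun κ => ω κ o) *
            (starRingEnd ℂ) (F (Function.update (fun κ => ω κ o) κ q))) ∂P :=
          integral_congr_ae (Filter.Eventually.of_forall e1)
      _ = ∫ o, (‖Dk q κ F (fun κ => ω κ o)‖ ^ 2 +
          ‖F (Function.update (fun κ => ω κ o) κ q)‖ ^ 2) ∂P +
          ∫ o, 2 * Complex.reCLM (Dk q κ F (fun κ => ω κ o) *
            (starRingEnd ℂ) (F (Function.update (fun κ => ω κ o) κ q))) ∂P :=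
          integral_add (h1.add h2) h4
      _ = _ := by
          rw [integral_add h1 h2, integral_const_mul, h5]
          ring
  · have h3 := hi2 _ _ C C' (hmd F hF) (hmd H hH) hC3 hC3'
    have h4 := hi2 _ _ C C' (hmd F hF) (hmu H hH) hC3 hC2'
    have e1 : ∀ o, Dk q κ F (fun κ => ω κ o) * (starRingEnd ℂ) (H (fun κ => ω κ o)) =
        Dk q κ F (fun κ => ω κ o) * (starRingEnd ℂ) (Dk q κ H (fun κ => ω κ o)) +
        Dk q κ F (fun κ => ω κ o) *
          (starRingEnd ℂ) (H (Function.update (fun κ => ω κ o) κ q)) := by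
      intro o
      rw [← mul_add, ← map_add]
      congr 2
      unfold Dk
      ring
    simp only [e1]
    rw [integral_add h3 h4, key H hH, add_zero]

end Or_aux

theorem tOr (hIx : S_Ix) : S_Or := by
  intro ι E Ω _ _ _ _ _ P ω q h κ F H hF hH
  exact Or_aux.main hIx h κ F H hF hH

end MP0d3db7NS
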