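import Pool.Agent.Lib.MP_0d3db7.NS.Spec3

/-!
# MP_0d3db7_pr, theorem NS3, module Th: telescoping and duality (helper40)
-/

set_option autoImplicit false

namespace MP0d3db7NS

open MeasureTheory ProbabilityTheory Filter Topology

namespace Th_aux

/-- Cauchy-Schwarz -/
theorem cs {Ω : Type} [MeasurableSpace Ω] (P : Measure Ω) [IsProbabilityMeasure P] (A B : Ω → ℂ)
    (hA : Measurable A) (hB : Measurable B) (a b : ℝ) (hAa : ∀ o, ‖A o‖ ≤ a)
    (hBb : ∀ o, ‖B o‖ ≤ b) :
    ‖∫ o, A o * (starRingEnd ℂ) (B o) ∂P‖ ≤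
      Real.sqrt (∫ o, ‖A o‖ ^ 2 ∂P) * Real.sqrt (∫ o, ‖B o‖ ^ 2 ∂P) := by
  have h1 : ‖∫ o, A o * (starRingEnd ℂ) (B o) ∂P‖ ≤ ∫ o, ‖A o‖ * ‖B o‖ ∂P := by
    refine (norm_integral_le_integral_norm _).trans (le_of_eq ?_)
    refine integral_congr_ae (Eventually.of_forall fun o => ?_)
    simp only [norm_mul, RCLike.norm_conj]
  have mA : MemLp A (ENNReal.ofReal 2) P :=
    MemLp.of_bound hA.aestronglyMeasurable a (Eventually.of_forall hAa)
  have mB : MemLp B (ENNReal.ofReal 2) P :=
    MemLp.of_bound hB.aestronglyMeasurable b (Eventually.of_forall hBb)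
  have h2 := integral_mul_norm_le_Lp_mul_Lq (μ := P) Real.HolderConjugate.two_two mA mB
  simp only [Real.rpow_two] at h2
  rw [← Real.sqrt_eq_rpow, ← Real.sqrt_eq_rpow] at h2
  exact h1.trans h2

end Th_aux

open Th_aux in
theorem tTh (hOr : S_Or) (hUb : S_Ub) (hIv : S_Iv) (hVf : S_Vf) : S_Th := by
  classical
  intro V E Ω _ _ _ _ _ _ s P ω q χ hC hχ m C hsupp
  have := hC.prob
  have hqpv : PV q := hC.pvq (0, 0)
  obtain ⟨c1, c2, c3, -, -, -, c7⟩ := hUb s χ
  have hχ1 : ∀ y, ‖χ y‖ ≤ 1 := fun y => (hχ.norm y).le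
  obtain ⟨v1, -, -, -, -, -⟩ := hVf s q hqpv
  -- measurability
  have mW : Measurable (fun o => (fun κ => ω κ o : V × ℕ → E → ℝ)) :=
    measurable_pi_lambda _ fun κ => hC.meas κ
  have mU : ∀ (n : ℕ) (x : V) (r : V → ℕ), Measurable fun o => Uc s (fun κ => ω κ o) χ n x r :=
    fun n x r => (c1 n x r).measurable.comp mW
  have bU : ∀ (n : ℕ) (x : V) (r : V → ℕ) (o : Ω), ‖Uc s (fun κ => ω κ o) χ n x r‖ ≤ 1 :=
    fun n x r o => c2 hχ1 n x r _ fun κ => hC.pv κ o
  have bq : ∀ (n : ℕ) (x : V) (r : V → ℕ), ‖Uc s (fun _ => q) χ n x r‖ ≤ 1 :=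
    fun n x r => c2 hχ1 n x r _ fun _ => hqpv
  -- nice functions
  have mD : ∀ (F : (V × ℕ → E → ℝ) → ℂ) (κ : V × ℕ), Continuous F →
      Measurable fun o => Dk q κ F (fun κ => ω κ o) := by
    intro F κ hF
    have h1 : Continuous fun w : V × ℕ → E → ℝ => Dk q κ F w :=
      hF.sub (hF.comp (continuous_id.update κ continuous_const))
    exact h1.measurable.comp mW
  have pvu : ∀ (o : Ω) (κ κ' : V × ℕ), PV (Function.update (fun κ => ω κ o) κ q κ') := by
    intro o κ κ'
    by_cases h : κ' = κ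
    · subst h
      simpa using hqpv
    · rw [Function.update_of_ne h]
      exact hC.pv κ' o
  set c : ℂ := Uc s (fun _ => q) χ m 0 (fun _ => 0) with hc
  set H : (V × ℕ → E → ℝ) → ℂ := fun w => Uc s w χ m 0 (fun _ => 0) - c with hH
  have nH : Nice H := c7 hχ1 m 0 (fun _ => 0) c
  have bH : ∀ o, ‖H (fun κ => ω κ o)‖ ≤ 2 := by
    intro o
    calc ‖Uc s (fun κ => ω κ o) χ m 0 (fun _ => 0) - c‖
        ≤ ‖Uc s (fun κ => ω κ o) χ m 0 (fun _ => 0)‖ + ‖c‖ := norm_sub_le _ _
      _ ≤ 2 := by
        have := bU m 0 (fun _ => 0) o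
        have := bq m 0 (fun _ => 0)
        linarith
  have mH : Measurable fun o => H (fun κ => ω κ o) := (mU m 0 fun _ => 0).sub_const c
  have DH : ∀ (κ : V × ℕ) (w : V × ℕ → E → ℝ), Dk q κ H w =
      Dk q κ (fun w => Uc s w χ m 0 (fun _ => 0)) w := by
    intro κ w
    simp only [Dk, hH]
    ring
  have bD : ∀ (n : ℕ) (x : V) (r : V → ℕ) (κ : V × ℕ) (o : Ω),
      ‖Dk q κ (fun w => Uc s w χ n x r) (fun κ => ω κ o)‖ ≤ 2 := by
    intro n x r κ o
    simp only [Dk]
    refine (norm_sub_le _ _).trans ?_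
    have h1 := bU n x r o
    have h2 := c2 hχ1 n x r _ (pvu o κ)
    linarith
  set I : V × ℕ → ℝ := fun κ => ifl s P ω q χ m 0 (fun _ => 0) κ with hI
  have intb : ∀ A : Ω → ℂ, Measurable A → (∀ o, ‖A o‖ ≤ 2) →
      Integrable (fun o => A o * (starRingEnd ℂ) (H fun κ => ω κ o)) P := by
    intro A hA hb
    have h1 : Measurable fun o => A o * (starRingEnd ℂ) (H fun κ => ω κ o) :=
      hA.mul (Complex.continuous_conj.measurable.comp mH)
    refine Integrable.of_bound h1.aestronglyMeasurable (2 * 2) (Eventually.of_forall fun o => ?_)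
    rw [norm_mul, RCLike.norm_conj]
    exact mul_le_mul (hb o) (bH o) (norm_nonneg _) (by norm_num)
  have key : ∀ (n : ℕ) (x : V) (r : V → ℕ), (∀ t < n, ∀ κ ∉ C, vr s q κ t x r = 0) →
      ‖∫ o, (Uc s (fun κ => ω κ o) χ n x r - Uc s (fun _ => q) χ n x r) *
        (starRingEnd ℂ) (H fun κ => ω κ o) ∂P‖ ≤
      ∑ κ ∈ C, (∑ t ∈ Finset.range n, vr s q κ t x r *
        Real.sqrt (al s P ω q χ (n - 1 - t))) * Real.sqrt (I κ) := by
    intro n
    induction n with
    | zero =>
      intro x r _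
      have h0 : ∀ o, (Uc s (fun κ => ω κ o) χ 0 x r - Uc s (fun _ => q) χ 0 x r) *
          (starRingEnd ℂ) (H fun κ => ω κ o) = 0 := by
        intro o
        simp [Uc]
      simp [h0]
    | succ n ih =>
      intro x r hs
      set κ0 : V × ℕ := (x, r x + 1) with hκ0
      have hκC : κ0 ∈ C := by
        by_contra hcon
        have := hs 0 (Nat.succ_pos n) κ0 hcon
        simp [vr, hκ0] at this
      set F' : (V × ℕ → E → ℝ) → ℂ := fun w => Uc s w χ (n + 1) x r with hF'
      set B : E → Ω → ℂ := fun e o => Uc s (fun κ => ω κ o) χ n (x + s e) (up r x) -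
        Uc s (fun _ => q) χ n (x + s e) (up r x) with hB
      have hup : r x + 1 ≤ up r x x := by simp [up]
      have hdec : ∀ o, Uc s (fun κ => ω κ o) χ (n + 1) x r - Uc s (fun _ => q) χ (n + 1) x r =
          Dk q κ0 F' (fun κ => ω κ o) + ∑ e, (q e : ℂ) * B e o := by
        intro o
        have h1 : F' (Function.update (fun κ => ω κ o) κ0 q) =
            ∑ e, (q e : ℂ) * Uc s (fun κ => ω κ o) χ n (x + s e) (up r x) := by
          show ∑ e, ((Function.update (fun κ => ω κ o) κ0 q (x, r x + 1) e : ℝ) : ℂ) *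
            Uc s (Function.update (fun κ => ω κ o) κ0 q) χ n (x + s e) (up r x) = _
          refine Finset.sum_congr rfl fun e _ => ?_
          rw [hκ0, Function.update_self, c3 n (x + s e) (up r x) x (r x + 1) q _ hup]
        have h2 : Uc s (fun _ => q) χ (n + 1) x r =
            ∑ e, (q e : ℂ) * Uc s (fun _ => q) χ n (x + s e) (up r x) := rfl
        have h3 : Dk q κ0 F' (fun κ => ω κ o) = Uc s (fun κ => ω κ o) χ (n + 1) x r -
            F' (Function.update (fun κ => ω κ o) κ0 q) := rfl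
        rw [h3, h1, h2]
        simp only [hB, mul_sub, Finset.sum_sub_distrib]
        ring
      have bB : ∀ e o, ‖B e o‖ ≤ 2 := by
        intro e o
        refine (norm_sub_le _ _).trans ?_
        have h1 := bU n (x + s e) (up r x) o
        have h2 := bq n (x + s e) (up r x)
        linarith
      have mB : ∀ e, Measurable (B e) := fun e => (mU n (x + s e) (up r x)).sub_const _
      have mDF : Measurable fun o => Dk q κ0 F' (fun κ => ω κ o) := mD F' κ0 (c1 (n + 1) x r)
      have hint1 := intb _ mDF (bD (n + 1) x r κ0)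
      have hint2 : ∀ e, Integrable (fun o => (q e : ℂ) * (B e o *
          (starRingEnd ℂ) (H fun κ => ω κ o))) P := fun e => (intb (B e) (mB e) (bB e)).const_mul _
      have hI1 : ∫ o, (Uc s (fun κ => ω κ o) χ (n + 1) x r - Uc s (fun _ => q) χ (n + 1) x r) *
          (starRingEnd ℂ) (H fun κ => ω κ o) ∂P =
          ∫ o, Dk q κ0 F' (fun κ => ω κ o) * (starRingEnd ℂ) (H fun κ => ω κ o) ∂P +
          ∑ e, (q e : ℂ) * ∫ o, B e o * (starRingEnd ℂ) (H fun κ => ω κ o) ∂P := by
        have h1 : ∀ o, (Uc s (fun κ => ω κ o) χ (n + 1) x r -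
            Uc s (fun _ => q) χ (n + 1) x r) * (starRingEnd ℂ) (H fun κ => ω κ o) =
            Dk q κ0 F' (fun κ => ω κ o) * (starRingEnd ℂ) (H fun κ => ω κ o) +
            ∑ e, (q e : ℂ) * (B e o * (starRingEnd ℂ) (H fun κ => ω κ o)) := by
          intro o
          rw [hdec o, add_mul, Finset.sum_mul]
          congr 1
          exact Finset.sum_congr rfl fun e _ => by ring
        simp only [h1]
        rw [integral_add hint1 (integrable_finsetSum _ fun e _ => hint2 e),
          integral_finsetSum _ fun e _ => hint2 e]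
        congr 1
        exact Finset.sum_congr rfl fun e _ => integral_const_mul _ _
      rw [hI1]
      refine (norm_add_le _ _).trans ?_
      -- first term
      have nF' : Nice F' := by
        have := c7 hχ1 (n + 1) x r 0
        simpa only [sub_zero] using this
      have hT1 : ‖∫ o, Dk q κ0 F' (fun κ => ω κ o) * (starRingEnd ℂ) (H fun κ => ω κ o) ∂P‖ ≤
          Real.sqrt (al s P ω q χ n) * Real.sqrt (I κ0) := by
        rw [(hOr P ω q hC κ0 F' H nF' nH).2]
        have h1 := cs P (fun o => Dk q κ0 F' (fun κ => ω κ o)) (fun o => Dk q κ0 H (fun κ => ω κ o))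
          mDF (mD H κ0 nH.cont) 2 2 (bD (n + 1) x r κ0) (fun o => by
            rw [DH]
            exact bD m 0 (fun _ => 0) κ0 o)
        refine h1.trans (le_of_eq ?_)
        have h2 : ∫ o, ‖Dk q κ0 F' (fun κ => ω κ o)‖ ^ 2 ∂P = al s P ω q χ n :=
          (hIv s P ω q χ hC hχ n x r).2
        have h3 : ∫ o, ‖Dk q κ0 H (fun κ => ω κ o)‖ ^ 2 ∂P = I κ0 := by
          simp only [DH]
          rfl
        rw [h2, h3]
      -- the other terms
      have hT2 : ‖∑ e, (q e : ℂ) * ∫ o, B e o * (starRingEnd ℂ) (H fun κ => ω κ o) ∂P‖ ≤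
          ∑ e, q e * ∑ κ ∈ C, (∑ t ∈ Finset.range n, vr s q κ t (x + s e) (up r x) *
            Real.sqrt (al s P ω q χ (n - 1 - t))) * Real.sqrt (I κ) := by
        refine (norm_sum_le _ _).trans (Finset.sum_le_sum fun e _ => ?_)
        rw [norm_mul, Complex.norm_real, Real.norm_eq_abs, abs_of_nonneg (hqpv.1 e)]
        by_cases hqe : q e = 0
        · rw [hqe, zero_mul, zero_mul]
        · refine mul_le_mul_of_nonneg_left (ih (x + s e) (up r x) fun t ht κ hκ => ?_) (hqpv.1 e)
          have h1 := hs (t + 1) (Nat.succ_lt_succ ht) κ hκ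
          have h2 : ∑ e, q e * vr s q κ t (x + s e) (up r x) = 0 := h1
          have h3 := (Finset.sum_eq_zero_iff_of_nonneg fun e _ =>
            mul_nonneg (hqpv.1 e) (v1 κ t (x + s e) (up r x))).1 h2 e (Finset.mem_univ e)
          rcases mul_eq_zero.1 h3 with h4 | h4
          · exact absurd h4 hqe
          · exact h4
      refine (add_le_add hT1 hT2).trans (le_of_eq ?_)
      have hsum : ∀ κ, (∑ t ∈ Finset.range (n + 1), vr s q κ t x r *
          Real.sqrt (al s P ω q χ (n + 1 - 1 - t))) =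
          (∑ e, q e * ∑ t ∈ Finset.range n, vr s q κ t (x + s e) (up r x) *
            Real.sqrt (al s P ω q χ (n - 1 - t))) +
          (if κ0 = κ then 1 else 0) * Real.sqrt (al s P ω q χ n) := by
        intro κ
        rw [Finset.sum_range_succ']
        congr 1
        · have h1 : ∀ t ∈ Finset.range n, vr s q κ (t + 1) x r *
              Real.sqrt (al s P ω q χ (n + 1 - 1 - (t + 1))) =
              ∑ e, q e * (vr s q κ t (x + s e) (up r x) *
                Real.sqrt (al s P ω q χ (n - 1 - t))) := by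
            intro t _
            have e1 : n + 1 - 1 - (t + 1) = n - 1 - t := by omega
            rw [e1]
            show (∑ e, q e * vr s q κ t (x + s e) (up r x)) * _ = _
            rw [Finset.sum_mul]
            exact Finset.sum_congr rfl fun e _ => by ring
          rw [Finset.sum_congr rfl h1, Finset.sum_comm]
          exact Finset.sum_congr rfl fun e _ => (Finset.mul_sum _ _ _).symm
      have hsum2 : ∑ κ ∈ C, (∑ t ∈ Finset.range (n + 1), vr s q κ t x r *
          Real.sqrt (al s P ω q χ (n + 1 - 1 - t))) * Real.sqrt (I κ) =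
          (∑ e, q e * ∑ κ ∈ C, (∑ t ∈ Finset.range n, vr s q κ t (x + s e) (up r x) *
            Real.sqrt (al s P ω q χ (n - 1 - t))) * Real.sqrt (I κ)) +
          Real.sqrt (al s P ω q χ n) * Real.sqrt (I κ0) := by
        simp only [hsum, add_mul, Finset.sum_add_distrib]
        congr 1
        · simp only [Finset.sum_mul, Finset.mul_sum]
          rw [Finset.sum_comm]
          exact Finset.sum_congr rfl fun e _ => Finset.sum_congr rfl fun κ _ =>
            Finset.sum_congr rfl fun t _ => by ring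
        · rw [Finset.sum_eq_single κ0]
          · rw [if_pos rfl, one_mul]
          · intro κ _ hne
            rw [if_neg (fun h => hne h.symm), zero_mul, zero_mul]
          · intro h
            exact absurd hκC h
      rw [hsum2]
      ring
  have hfin := key m 0 (fun _ => 0) hsupp
  refine le_trans (le_of_eq ?_) hfin
  have h1 : ∀ o, (Uc s (fun κ => ω κ o) χ m 0 (fun _ => 0) - Uc s (fun _ => q) χ m 0 (fun _ => 0)) *
      (starRingEnd ℂ) (H fun κ => ω κ o) = ((‖Uc s (fun κ => ω κ o) χ m 0 (fun _ => 0) -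
        Uc s (fun _ => q) χ m 0 (fun _ => 0)‖ ^ 2 : ℝ) : ℂ) := by
    intro o
    rw [hH]
    simp only []
    rw [Complex.mul_conj, Complex.normSq_eq_norm_sq]
  simp only [h1]
  rw [integral_complex_ofReal, Complex.norm_real, Real.norm_eq_abs,
    abs_of_nonneg (integral_nonneg fun o => by positivity)]
  rfl

end MP0d3db7NS
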