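import Pool.Agent.Lib.MP_0d3db7.NS.Spec3

set_option autoImplicit false

namespace MP0d3db7NS

open MeasureTheory ProbabilityTheory Filter Topology

namespace Ub_aux

variable {V E : Type} [AddCommGroup V] [DecidableEq V] [Fintype E]

theorem le_up (r : V → ℕ) (x z : V) : r z ≤ up r x z := by
  unfold up
  by_cases h : z = x
  · subst h
    rw [Function.update_self]
    omega
  · rw [Function.update_of_ne h]

theorem up_self (r : V → ℕ) (x : V) : up r x x = r x + 1 := by
  unfold up
  rw [Function.update_self]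

theorem cont (s : E → V) (χ : V → ℂ) (n : ℕ) : ∀ (x : V) (r : V → ℕ),
    Continuous fun w : V × ℕ → E → ℝ => Uc s w χ n x r := by
  induction n with
  | zero =>
    intro x r
    exact continuous_const
  | succ n ih =>
    intro x r
    refine continuous_finsetSum _ fun e _ => ?_
    refine Continuous.mul ?_ (ih (x + s e) (up r x))
    exact Complex.continuous_ofReal.comp ((continuous_apply e).comp (continuous_apply _))

theorem bdd (s : E → V) (χ : V → ℂ) (hχ : ∀ y, ‖χ y‖ ≤ 1) (n : ℕ) : ∀ (x : V) (r : V → ℕ)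
    (w : V × ℕ → E → ℝ), (∀ κ, PV (w κ)) → ‖Uc s w χ n x r‖ ≤ 1 := by
  induction n with
  | zero =>
    intro x r w _
    exact hχ x
  | succ n ih =>
    intro x r w hw
    show ‖∑ e, (w (x, r x + 1) e : ℂ) * Uc s w χ n (x + s e) (up r x)‖ ≤ 1
    refine (norm_sum_le _ _).trans ?_
    rw [← (hw (x, r x + 1)).2]
    refine Finset.sum_le_sum fun e _ => ?_
    rw [norm_mul, Complex.norm_real, Real.norm_of_nonneg ((hw _).1 e)]
    have h1 := mul_le_mul_of_nonneg_left (ih (x + s e) (up r x) w hw) ((hw (x, r x + 1)).1 e)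
    rw [mul_one] at h1
    exact h1

theorem used (s : E → V) (χ : V → ℂ) (n : ℕ) : ∀ (x : V) (r : V → ℕ) (z : V) (i : ℕ) (p : E → ℝ)
    (w : V × ℕ → E → ℝ), i ≤ r z →
    Uc s (Function.update w (z, i) p) χ n x r = Uc s w χ n x r := by
  induction n with
  | zero =>
    intro x r z i p w _
    rfl
  | succ n ih =>
    intro x r z i p w hi
    show ∑ e, ((Function.update w (z, i) p) (x, r x + 1) e : ℂ) *
        Uc s (Function.update w (z, i) p) χ n (x + s e) (up r x) =
      ∑ e, (w (x, r x + 1) e : ℂ) * Uc s w χ n (x + s e) (up r x)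
    have hne : ((x, r x + 1) : V × ℕ) ≠ (z, i) := by
      intro h
      have h1 := congrArg Prod.fst h
      have h2 := congrArg Prod.snd h
      simp only at h1 h2
      rw [h1] at h2
      omega
    rw [Function.update_of_ne hne]
    refine Finset.sum_congr rfl fun e _ => ?_
    rw [ih _ _ z i p w (hi.trans (le_up r x z))]

theorem aff [DecidableEq E] (s : E → V) (χ : V → ℂ) (n : ℕ) : ∀ (x : V) (r : V → ℕ) (κ : V × ℕ)
    (w : V × ℕ → E → ℝ) (p : E → ℝ), ∑ e, p e = 1 →
    Uc s (Function.update w κ p) χ n x r =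
      ∑ e, (p e : ℂ) * Uc s (Function.update w κ (dl e)) χ n x r := by
  induction n with
  | zero =>
    intro x r κ w p hp
    show χ x = ∑ e, (p e : ℂ) * χ x
    rw [← Finset.sum_mul, ← Complex.ofReal_sum, hp, Complex.ofReal_one, one_mul]
  | succ n ih =>
    intro x r κ w p hp
    show ∑ e, ((Function.update w κ p) (x, r x + 1) e : ℂ) *
        Uc s (Function.update w κ p) χ n (x + s e) (up r x) =
      ∑ a, (p a : ℂ) * ∑ e, ((Function.update w κ (dl a)) (x, r x + 1) e : ℂ) *
        Uc s (Function.update w κ (dl a)) χ n (x + s e) (up r x)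
    by_cases hκ : κ = (x, r x + 1)
    · subst hκ
      have hu : ∀ (v : E → ℝ) (e : E), Uc s (Function.update w (x, r x + 1) v) χ n (x + s e)
          (up r x) = Uc s w χ n (x + s e) (up r x) := fun v e =>
        used s χ n _ _ x (r x + 1) v w (up_self r x).ge
      simp only [hu, Function.update_self]
      refine Finset.sum_congr rfl fun a _ => ?_
      congr 1
      rw [Finset.sum_eq_single a]
      · simp [dl]
      · intro e _ he
        simp [dl, Pi.single_eq_of_ne he]
      · intro h
        exact absurd (Finset.mem_univ a) h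
    · have hne : ((x, r x + 1) : V × ℕ) ≠ κ := fun h => hκ h.symm
      simp only [Function.update_of_ne hne]
      simp only [ih _ _ κ w p hp, Finset.mul_sum]
      rw [Finset.sum_comm]
      refine Finset.sum_congr rfl fun a _ => Finset.sum_congr rfl fun e _ => ?_
      ring

theorem real (s : E → V) (χ : V → ℂ) (f : V → ℝ) (ζ : ℂ) (h : ∀ x, f x = (ζ * χ x).re) (n : ℕ) :
    ∀ (x : V) (r : V → ℕ) (w : V × ℕ → E → ℝ), U s w f n x r = (ζ * Uc s w χ n x r).re := by
  induction n with
  | zero =>
    intro x r w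
    exact h x
  | succ n ih =>
    intro x r w
    show ∑ e, w (x, r x + 1) e * U s w f n (x + s e) (up r x) =
      (ζ * ∑ e, (w (x, r x + 1) e : ℂ) * Uc s w χ n (x + s e) (up r x)).re
    rw [Finset.mul_sum, Complex.re_sum]
    refine Finset.sum_congr rfl fun e _ => ?_
    rw [ih, mul_left_comm, Complex.re_ofReal_mul]

theorem const (s : E → V) (χ : V → ℂ) (q : E → ℝ) (n : ℕ) : ∀ (x : V) (r r' : V → ℕ),
    Uc s (fun _ => q) χ n x r = Uc s (fun _ => q) χ n x r' := by
  induction n with
  | zero =>
    intro x r r'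
    rfl
  | succ n ih =>
    intro x r r'
    show ∑ e, (q e : ℂ) * Uc s (fun _ => q) χ n (x + s e) (up r x) =
      ∑ e, (q e : ℂ) * Uc s (fun _ => q) χ n (x + s e) (up r' x)
    refine Finset.sum_congr rfl fun e _ => ?_
    rw [ih (x + s e) (up r x) (up r' x)]

end Ub_aux

open Ub_aux in
theorem tUb : S_Ub := by
  intro V E _ _ _ _ s χ
  refine ⟨cont s χ, fun hχ n => bdd s χ hχ n, used s χ, aff s χ, fun f ζ h n => real s χ f ζ h n,
    fun q n => const s χ q n, fun hχ n x r c => ⟨?_, ?_, ?_⟩⟩
  · exact (cont s χ n x r).sub continuous_const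
  · refine ⟨1 + ‖c‖, fun w hw => ?_⟩
    exact (norm_sub_le _ _).trans (add_le_add_left (bdd s χ hχ n x r w hw) _)
  · intro κ w p hp
    show Uc s (Function.update w κ p) χ n x r - c =
      ∑ e, (p e : ℂ) * (Uc s (Function.update w κ (dl e)) χ n x r - c)
    have h1 : ∑ e, (p e : ℂ) = 1 := by
      rw [← Complex.ofReal_sum, hp, Complex.ofReal_one]
    simp only [mul_sub, Finset.sum_sub_distrib]
    rw [← Finset.sum_mul, h1, one_mul, aff s χ n x r κ w p hp]

end MP0d3db7NS
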