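import Pool.Agent.Lib.MP_0d3db7.NS.Spec3

/-!
# Module Ut: translations of the functions `Uc`
-/

set_option autoImplicit false

namespace MP0d3db7NS

open MeasureTheory ProbabilityTheory Filter Topology

namespace Ut_aux

variable {V E : Type} [AddCommGroup V] [DecidableEq V] [Fintype E]

/-- the environment seen from `x` with the visit numbers `r` -/
def tr (w : V × ℕ → E → ℝ) (x : V) (r : V → ℕ) : V × ℕ → E → ℝ :=
  fun κ => w (κ.1 + x, κ.2 + r (κ.1 + x))

omit [Fintype E] in
theorem tr_tr (w : V × ℕ → E → ℝ) (x a : V) (r : V → ℕ) :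
    tr (tr w x r) (0 + a) (up (fun _ => 0) 0) = tr w (x + a) (up r x) := by
  funext κ
  unfold tr
  have h1 : κ.1 + (0 + a) + x = κ.1 + (x + a) := by abel
  have h2 : κ.2 + up (fun _ => 0) 0 (κ.1 + (0 + a)) + r (κ.1 + (0 + a) + x) =
      κ.2 + up r x (κ.1 + (x + a)) := by
    rw [h1]
    unfold up
    rw [Function.update_apply, Function.update_apply]
    by_cases h : κ.1 + (x + a) = x
    · have h3 : κ.1 + (0 + a) = 0 := by
        have h4 : κ.1 + (0 + a) = κ.1 + (x + a) - x := by abel
        rw [h4, h, sub_self]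
      rw [if_pos h, if_pos h3, h]
      ring
    · have h3 : ¬ κ.1 + (0 + a) = 0 := by
        intro h4
        apply h
        have h5 : κ.1 + (x + a) = κ.1 + (0 + a) + x := by abel
        rw [h5, h4, zero_add]
      rw [if_neg h, if_neg h3]
      ring
  show w (κ.1 + (0 + a) + x, κ.2 + up (fun _ => 0) 0 (κ.1 + (0 + a)) + r (κ.1 + (0 + a) + x)) = _
  rw [h2, h1]

theorem key (s : E → V) (χ : V → ℂ) (hχ : Chr χ) : ∀ (n : ℕ) (x : V) (r : V → ℕ)
    (w : V × ℕ → E → ℝ), Uc s w χ n x r = χ x * Uc s (tr w x r) χ n 0 (fun _ => 0) := by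
  have h0 : χ 0 = 1 := by
    have h1 := hχ.add 0 0
    rw [add_zero] at h1
    have h2 : χ 0 ≠ 0 := by
      intro h3
      have h4 := hχ.norm 0
      rw [h3, norm_zero] at h4
      exact zero_ne_one h4
    exact (mul_left_cancel₀ h2 (by rw [mul_one]; exact h1)).symm
  intro n
  induction n with
  | zero =>
    intro x r w
    show χ x = χ x * χ 0
    rw [h0, mul_one]
  | succ n ih =>
    intro x r w
    show ∑ e, (w (x, r x + 1) e : ℂ) * Uc s w χ n (x + s e) (up r x) =
      χ x * ∑ e, (tr w x r (0, 0 + 1) e : ℂ) * Uc s (tr w x r) χ n (0 + s e) (up (fun _ => 0) 0)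
    rw [Finset.mul_sum]
    refine Finset.sum_congr rfl fun e _ => ?_
    rw [ih (x + s e) (up r x) w, ih (0 + s e) (up (fun _ => 0) 0) (tr w x r), tr_tr]
    have h1 : tr w x r (0, 0 + 1) = w (x, r x + 1) := by
      unfold tr
      simp only [zero_add]
      rw [add_comm 1 (r x)]
    rw [h1, zero_add, hχ.add]
    ring

end Ut_aux

open Ut_aux in
theorem tUt : S_Ut := by
  intro V E _ _ _ s χ hχ n x r w
  exact key s χ hχ n x r w

end MP0d3db7NS
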