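import Pool.Agent.Lib.MP_0d3db7.NS.Spec3
import Pool.Agent.Lib.MP_0d3db7.NS.Cw

/-!
# MP_0d3db7_pr, theorem NS3, module Vw: the variance of the window average (helper40)
-/

set_option autoImplicit false

namespace MP0d3db7NS

open MeasureTheory ProbabilityTheory Filter Topology

namespace Vw_aux

/-- convexity of the square -/
theorem sq_le {J : Type} [Fintype J] (p x : J → ℝ) (hp : ∀ j, 0 ≤ p j) (hp1 : ∑ j, p j ≤ 1) :
    (∑ j, p j * x j) ^ 2 ≤ ∑ j, p j * x j ^ 2 := by
  have h1 := Finset.sum_mul_sq_le_sq_mul_sq Finset.univ (fun j => Real.sqrt (p j))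
    (fun j => Real.sqrt (p j) * x j)
  have h2 : ∀ j, Real.sqrt (p j) * (Real.sqrt (p j) * x j) = p j * x j := fun j => by
    rw [← mul_assoc, Real.mul_self_sqrt (hp j)]
  have h3 : ∀ j, Real.sqrt (p j) ^ 2 = p j := fun j => Real.sq_sqrt (hp j)
  have h4 : ∀ j, (Real.sqrt (p j) * x j) ^ 2 = p j * x j ^ 2 := fun j => by
    rw [mul_pow, h3]
  simp only [h2, h3, h4] at h1
  refine h1.trans ?_
  have h5 : 0 ≤ ∑ j, p j * x j ^ 2 := Finset.sum_nonneg fun j _ => mul_nonneg (hp j) (sq_nonneg _)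
  nlinarith

end Vw_aux

open Vw_aux in
theorem tVw (hUb : S_Ub) : S_Vw := by
  intro Ω _ d P ω q hC g hg n0 h Y ε hn0 hh hε hY hYm
  have := hC.prob
  have hqpv : PV q := hC.pvq (0, 0)
  obtain ⟨T, p, ζ, θ, hp, hp1, hζ, hgy⟩ := hg
  have hh0 : (0 : ℝ) < h := by exact_mod_cast hh
  have mW : Measurable (fun o => (fun κ => ω κ o : (Fin d → ℤ) × ℕ → Dr d → ℝ)) :=
    measurable_pi_lambda _ fun κ => hC.meas κ
  -- the weights and the functions
  set Q : Fin T × Fin h → ℝ := fun a => p a.1 * (1 / (h : ℝ)) with hQ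
  have hQ0 : ∀ a, 0 ≤ Q a := fun a => mul_nonneg (hp _) (by positivity)
  have hQ1 : ∑ a, Q a ≤ 1 := by
    rw [Fintype.sum_prod_type]
    simp only [hQ, Finset.sum_const, Finset.card_univ, Fintype.card_fin, nsmul_eq_mul]
    calc ∑ j, (h : ℝ) * (p j * (1 / (h : ℝ))) = ∑ j, p j :=
          Finset.sum_congr rfl fun j _ => by field_simp
      _ ≤ 1 := hp1
  set G : Fin T × Fin h → ((Fin d → ℤ) × ℕ → Dr d → ℝ) → ℂ := fun a w =>
    Uc (st d) w (Cw_aux.ch n0 (θ a.1)) (n0 + a.2) 0 (fun _ => 0) with hG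
  set z : Fin T × Fin h → ℂ := fun a => Cw_aux.ze q n0 (n0 + a.2) (θ a.1) (ζ a.1) with hz
  have hz1 : ∀ a, ‖z a‖ ≤ 1 := fun a => Cw_aux.ze_norm q n0 (n0 + a.2) (θ a.1) (ζ a.1) (hζ a.1)
  have e1 : ∀ w : (Fin d → ℤ) × ℕ → Dr d → ℝ, Av (st d) w (fun m x => g (nr q n0 m x)) n0 h =
      ∑ a, Q a * (z a * G a w).re := by
    intro w
    unfold Av
    rw [Finset.sum_Ico_eq_sum_range, Nat.add_sub_cancel_left, Finset.sum_range]
    have e2 : ∀ i : Fin h, U (st d) w (fun x => g (nr q n0 (n0 + i) x)) (n0 + i) 0 (fun _ => 0) =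
        ∑ j, p j * (z (j, i) * G (j, i) w).re := by
      intro i
      have e3 : (fun x => g (nr q n0 (n0 + i) x)) = fun x => ∑ j, p j *
          (Cw_aux.ze q n0 (n0 + i) (θ j) (ζ j) * Cw_aux.ch n0 (θ j) x).re := by
        funext x
        rw [hgy]
        exact Finset.sum_congr rfl fun j _ => by rw [Cw_aux.split]
      rw [e3, Cw_aux.U_sum]
      refine Finset.sum_congr rfl fun j _ => ?_
      congr 1
      exact (hUb (st d) (Cw_aux.ch n0 (θ j))).2.2.2.2.1 _ (Cw_aux.ze q n0 (n0 + i) (θ j) (ζ j))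
        (fun x => rfl) (n0 + i) 0 (fun _ => 0) w
    rw [Finset.sum_congr rfl fun i _ => e2 i, Fintype.sum_prod_type, Finset.sum_comm,
      Finset.mul_sum]
    refine Finset.sum_congr rfl fun j _ => ?_
    rw [Finset.mul_sum]
    exact Finset.sum_congr rfl fun i _ => by simp only [hQ]; ring
  set X : Fin T × Fin h → Ω → ℝ := fun a o => ‖G a (fun κ => ω κ o) - G a (fun _ => q)‖ with hX
  set D : Ω → ℝ := fun o => Av (st d) (fun κ => ω κ o) (fun m x => g (nr q n0 m x)) n0 h -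
      Av (st d) (fun _ => q) (fun m x => g (nr q n0 m x)) n0 h with hD
  have hD2 : ∀ o, D o ^ 2 ≤ ∑ a, Q a * X a o ^ 2 := by
    intro o
    have h1 : D o = ∑ a, Q a * (z a * (G a (fun κ => ω κ o) - G a (fun _ => q))).re := by
      simp only [hD, e1, mul_sub, Complex.sub_re, Finset.sum_sub_distrib]
    rw [h1]
    refine (sq_le Q _ hQ0 hQ1).trans (Finset.sum_le_sum fun a _ => ?_)
    refine mul_le_mul_of_nonneg_left ?_ (hQ0 a)
    rw [← sq_abs]
    refine pow_le_pow_left₀ (abs_nonneg _) ?_ 2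
    refine (Complex.abs_re_le_norm _).trans ?_
    rw [norm_mul]
    exact mul_le_of_le_one_left (norm_nonneg _) (hz1 a)
  -- measurability and integrability
  have cG : ∀ a, Continuous (G a) := fun a =>
    (hUb (st d) (Cw_aux.ch n0 (θ a.1))).1 (n0 + a.2) 0 (fun _ => 0)
  have bG : ∀ a (w : (Fin d → ℤ) × ℕ → Dr d → ℝ), (∀ κ, PV (w κ)) → ‖G a w‖ ≤ 1 := fun a w hw =>
    (hUb (st d) (Cw_aux.ch n0 (θ a.1))).2.1 (fun y => ((Cw_aux.ch_chr n0 (θ a.1)).norm y).le)
      (n0 + a.2) 0 (fun _ => 0) w hw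
  have mG : ∀ a, Measurable fun o => G a (fun κ => ω κ o) := fun a => (cG a).measurable.comp mW
  have mX : ∀ a, Measurable (X a) := fun a => ((mG a).sub_const _).norm
  have bX : ∀ a o, X a o ≤ 2 := by
    intro a o
    refine (norm_sub_le _ _).trans ?_
    have h1 := bG a (fun κ => ω κ o) fun κ => hC.pv κ o
    have h2 := bG a (fun _ => q) fun _ => hqpv
    linarith
  have iX : ∀ a, Integrable (fun o => X a o ^ 2) P := by
    intro a
    refine Integrable.of_bound ((mX a).pow_const 2).aestronglyMeasurable (2 ^ 2)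
      (Eventually.of_forall fun o => ?_)
    rw [Real.norm_eq_abs, abs_of_nonneg (by positivity)]
    exact pow_le_pow_left₀ (norm_nonneg _) (bX a o) 2
  have mD : Measurable D := by
    simp only [hD, e1]
    refine Measurable.sub_const (Finset.measurable_sum _ fun a _ => ?_) _
    exact (Complex.measurable_re.comp ((mG a).const_mul (z a))).const_mul (Q a)
  have iS : Integrable (fun o => ∑ a, Q a * X a o ^ 2) P :=
    integrable_finsetSum _ fun a _ => (iX a).const_mul (Q a)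
  have iD : Integrable (fun o => D o ^ 2) P := by
    refine iS.mono' (mD.pow_const 2).aestronglyMeasurable (Eventually.of_forall fun o => ?_)
    rw [Real.norm_eq_abs, abs_of_nonneg (sq_nonneg _)]
    exact hD2 o
  have hI : ∫ o, D o ^ 2 ∂P ≤ Y / h := by
    refine (integral_mono iD iS hD2).trans ?_
    rw [integral_finsetSum _ fun a _ => (iX a).const_mul (Q a), Fintype.sum_prod_type]
    have h8 : ∀ j, ∑ i : Fin h, ∫ o, Q (j, i) * X (j, i) o ^ 2 ∂P ≤ p j * (Y / h) := by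
      intro j
      have h9 : ∀ i : Fin h, ∫ o, Q (j, i) * X (j, i) o ^ 2 ∂P =
          p j * (1 / (h : ℝ)) * vn (st d) P ω q (Cw_aux.ch n0 (θ j)) (n0 + i) := by
        intro i
        rw [integral_const_mul]
        rfl
      rw [Finset.sum_congr rfl fun i _ => h9 i, ← Finset.mul_sum]
      have h10 : ∑ i : Fin h, vn (st d) P ω q (Cw_aux.ch n0 (θ j)) (n0 + i) ≤ Y := by
        refine le_trans ?_ (hYm (Cw_aux.ch n0 (θ j)) (Cw_aux.ch_chr n0 (θ j)))
        have h3 := Finset.sum_Ico_eq_sum_range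
          (fun m => vn (st d) P ω q (Cw_aux.ch n0 (θ j)) m) n0 (n0 + h)
        rw [Nat.add_sub_cancel_left, Finset.sum_range] at h3
        rw [← h3]
        refine Finset.sum_le_sum_of_subset_of_nonneg (fun m hm => ?_) fun m _ _ =>
          integral_nonneg fun o => by positivity
        rw [Finset.mem_Ico] at hm
        rw [Finset.mem_range]
        omega
      calc p j * (1 / (h : ℝ)) * ∑ i : Fin h, vn (st d) P ω q (Cw_aux.ch n0 (θ j)) (n0 + i) ≤
          p j * (1 / (h : ℝ)) * Y :=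
            mul_le_mul_of_nonneg_left h10 (mul_nonneg (hp j) (by positivity))
        _ = p j * (Y / h) := by ring
    refine (Finset.sum_le_sum fun j _ => h8 j).trans ?_
    rw [← Finset.sum_mul]
    exact mul_le_of_le_one_left (by positivity) hp1
  have hM := mul_meas_ge_le_integral_of_nonneg (Eventually.of_forall fun o => sq_nonneg (D o)) iD
    ((2 * ε) ^ 2)
  have hsub : {o | 2 * ε ≤ |D o|} ⊆ {o | (2 * ε) ^ 2 ≤ D o ^ 2} := by
    intro o ho
    have h1 : 2 * ε ≤ |D o| := ho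
    show (2 * ε) ^ 2 ≤ D o ^ 2
    rw [← sq_abs (D o)]
    exact pow_le_pow_left₀ (by positivity) h1 2
  have h1 : P.real {o | 2 * ε ≤ |D o|} ≤ P.real {o | (2 * ε) ^ 2 ≤ D o ^ 2} :=
    measureReal_mono hsub
  have h2 : (2 * ε) ^ 2 * P.real {o | 2 * ε ≤ |D o|} ≤ Y / h :=
    (mul_le_mul_of_nonneg_left h1 (by positivity)).trans (hM.trans hI)
  show P.real {o | 2 * ε ≤ |D o|} ≤ _
  have h3 : P.real {o | 2 * ε ≤ |D o|} ≤ Y / h / (2 * ε) ^ 2 := by
    rw [le_div_iff₀ (by positivity), mul_comm]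
    exact h2
  refine h3.trans (le_of_eq ?_)
  field_simp
  ring

end MP0d3db7NS
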