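import Pool.Agent.Lib.MP_0d3db7.NS.Spec3

/-!
# MP_0d3db7_pr, theorem NS3, module Yg: the sum of the variances (helper76)
-/

set_option autoImplicit false

namespace MP0d3db7NS

open MeasureTheory ProbabilityTheory Filter Topology

namespace Yg_aux

/-- double sum -/
theorem dbl {p a : ℕ → ℝ} (hp : ∀ t, 0 ≤ p t) (ha : ∀ n, 0 ≤ a n) (M : ℕ) :
    ∑ m ∈ Finset.range M, ∑ t ∈ Finset.range m, p t * a (m - 1 - t) ≤
      (∑ t ∈ Finset.range M, p t) * ∑ n ∈ Finset.range M, a n := by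
  have h1 : ∑ m ∈ Finset.range M, ∑ t ∈ Finset.range m, p t * a (m - 1 - t) =
      ∑ t ∈ Finset.range M, ∑ m ∈ Finset.Ico (t + 1) M, p t * a (m - 1 - t) := by
    refine Finset.sum_comm' fun m t => ?_
    simp only [Finset.mem_range, Finset.mem_Ico]
    omega
  rw [h1, Finset.sum_mul]
  refine Finset.sum_le_sum fun t _ => ?_
  rw [← Finset.mul_sum]
  refine mul_le_mul_of_nonneg_left ?_ (hp t)
  rw [Finset.sum_Ico_eq_sum_range]
  have h2 : ∀ i, a (t + 1 + i - 1 - t) = a i := fun i => by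
    congr 1
    omega
  simp only [h2]
  exact Finset.sum_le_sum_of_subset_of_nonneg (Finset.range_subset_range.2 (by omega))
    fun _ _ _ => ha _

/-- Young's inequality -/
theorem young {p a : ℕ → ℝ} (hp : ∀ t, 0 ≤ p t) (ha : ∀ n, 0 ≤ a n) (M : ℕ) :
    ∑ m ∈ Finset.range M, (∑ t ∈ Finset.range m, p t * Real.sqrt (a (m - 1 - t))) ^ 2 ≤
      (∑ t ∈ Finset.range M, p t) ^ 2 * ∑ n ∈ Finset.range M, a n := by
  have hP : 0 ≤ ∑ t ∈ Finset.range M, p t := Finset.sum_nonneg fun t _ => hp t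
  have h1 : ∀ m ∈ Finset.range M,
      (∑ t ∈ Finset.range m, p t * Real.sqrt (a (m - 1 - t))) ^ 2 ≤
        (∑ t ∈ Finset.range M, p t) * ∑ t ∈ Finset.range m, p t * a (m - 1 - t) := by
    intro m hm
    have h2 := Finset.sum_mul_sq_le_sq_mul_sq (Finset.range m) (fun t => Real.sqrt (p t))
      (fun t => Real.sqrt (p t) * Real.sqrt (a (m - 1 - t)))
    have e1 : ∀ t, Real.sqrt (p t) * (Real.sqrt (p t) * Real.sqrt (a (m - 1 - t))) =
        p t * Real.sqrt (a (m - 1 - t)) := fun t => by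
      rw [← mul_assoc, Real.mul_self_sqrt (hp t)]
    have e2 : ∀ t, Real.sqrt (p t) ^ 2 = p t := fun t => Real.sq_sqrt (hp t)
    have e3 : ∀ t, (Real.sqrt (p t) * Real.sqrt (a (m - 1 - t))) ^ 2 = p t * a (m - 1 - t) :=
      fun t => by rw [mul_pow, Real.sq_sqrt (hp t), Real.sq_sqrt (ha _)]
    simp only [e1, e2, e3] at h2
    refine h2.trans (mul_le_mul_of_nonneg_right ?_ ?_)
    · exact Finset.sum_le_sum_of_subset_of_nonneg
        (Finset.range_subset_range.2 (Finset.mem_range.1 hm).le) fun _ _ _ => hp _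
    · exact Finset.sum_nonneg fun t _ => mul_nonneg (hp t) (ha _)
  calc ∑ m ∈ Finset.range M, (∑ t ∈ Finset.range m, p t * Real.sqrt (a (m - 1 - t))) ^ 2
      ≤ ∑ m ∈ Finset.range M, (∑ t ∈ Finset.range M, p t) *
          ∑ t ∈ Finset.range m, p t * a (m - 1 - t) := Finset.sum_le_sum h1
    _ = (∑ t ∈ Finset.range M, p t) * ∑ m ∈ Finset.range M,
          ∑ t ∈ Finset.range m, p t * a (m - 1 - t) := by rw [Finset.mul_sum]
    _ ≤ (∑ t ∈ Finset.range M, p t) * ((∑ t ∈ Finset.range M, p t) *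
          ∑ n ∈ Finset.range M, a n) := mul_le_mul_of_nonneg_left (dbl hp ha M) hP
    _ = _ := by ring

end Yg_aux

open Yg_aux in
theorem tYg (hTh : S_Th) (hJe : S_Je) (hVf : S_Vf) : S_Yg := by
  intro V E Ω _ _ _ _ _ _ s P ω q χ hC hχ M κ0 hκ0 hKB
  have hq : PV q := hC.pvq (0, 1)
  obtain ⟨v1, -, -, v4, v5, v6⟩ := hVf s q hq
  obtain ⟨C, hCv⟩ := v4 M 0 (fun _ => 0)
  have hal : ∀ n, 0 ≤ al s P ω q χ n := fun n => integral_nonneg fun o => by positivity
  have hifl : ∀ n κ, 0 ≤ ifl s P ω q χ n 0 (fun _ => 0) κ := fun n κ =>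
    integral_nonneg fun o => by positivity
  have hp : ∀ κ t, 0 ≤ vr s q κ t 0 (fun _ => 0) := fun κ t => v1 κ t 0 _
  set A : ℝ := ∑ n ∈ Finset.range M, al s P ω q χ n with hA
  have hA0 : 0 ≤ A := Finset.sum_nonneg fun n _ => hal n
  set f : ℕ × (V × ℕ) → ℝ := fun x => ∑ t ∈ Finset.range x.1, vr s q x.2 t 0 (fun _ => 0) *
    Real.sqrt (al s P ω q χ (x.1 - 1 - t)) with hf
  set g : ℕ × (V × ℕ) → ℝ := fun x => Real.sqrt (ifl s P ω q χ x.1 0 (fun _ => 0) x.2) with hg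
  have h1 : ∑ m ∈ Finset.range M, vn s P ω q χ m ≤
      ∑ x ∈ Finset.range M ×ˢ C, f x * g x := by
    rw [Finset.sum_product]
    refine Finset.sum_le_sum fun m hm => ?_
    exact hTh s P ω q χ hC hχ m C fun t ht κ hκ =>
      hCv t (ht.trans (Finset.mem_range.1 hm)) κ hκ
  have h2 := Real.sum_mul_le_sqrt_mul_sqrt (Finset.range M ×ˢ C) f g
  -- the first factor
  have hX : ∑ x ∈ Finset.range M ×ˢ C, f x ^ 2 ≤ κ0 * A := by
    rw [Finset.sum_product_right]
    calc ∑ κ ∈ C, ∑ m ∈ Finset.range M, f (m, κ) ^ 2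
        ≤ ∑ κ ∈ C, (∑ t ∈ Finset.range M, vr s q κ t 0 (fun _ => 0)) ^ 2 * A :=
          Finset.sum_le_sum fun κ _ => young (hp κ) hal M
      _ = (∑ κ ∈ C, (∑ t ∈ Finset.range M, vr s q κ t 0 (fun _ => 0)) ^ 2) * A := by
          rw [Finset.sum_mul]
      _ ≤ κ0 * A := mul_le_mul_of_nonneg_right (v6 M κ0 hKB C) hA0
  -- the second factor
  have hY : ∑ x ∈ Finset.range M ×ˢ C, g x ^ 2 ≤ M * A := by
    rw [Finset.sum_product]
    have h3 : ∀ m ∈ Finset.range M, ∑ κ ∈ C, g (m, κ) ^ 2 ≤ A := by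
      intro m hm
      have e : ∀ κ, g (m, κ) ^ 2 = ifl s P ω q χ m 0 (fun _ => 0) κ := fun κ =>
        Real.sq_sqrt (hifl m κ)
      simp only [e]
      calc ∑ κ ∈ C, ifl s P ω q χ m 0 (fun _ => 0) κ
          ≤ ∑ κ ∈ C, ∑ t ∈ Finset.range m, vr s q κ t 0 (fun _ => 0) *
              al s P ω q χ (m - 1 - t) :=
            Finset.sum_le_sum fun κ _ => hJe s P ω q χ hC hχ κ m 0 _
        _ = ∑ t ∈ Finset.range m, (∑ κ ∈ C, vr s q κ t 0 (fun _ => 0)) *
              al s P ω q χ (m - 1 - t) := by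
            rw [Finset.sum_comm]
            exact Finset.sum_congr rfl fun t _ => by rw [Finset.sum_mul]
        _ ≤ ∑ t ∈ Finset.range m, 1 * al s P ω q χ (m - 1 - t) :=
            Finset.sum_le_sum fun t _ => mul_le_mul_of_nonneg_right (v5 C t 0 _) (hal _)
        _ = ∑ t ∈ Finset.range m, al s P ω q χ t := by
            simp only [one_mul]
            exact Finset.sum_range_reflect (fun t => al s P ω q χ t) m
        _ ≤ A := Finset.sum_le_sum_of_subset_of_nonneg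
            (Finset.range_subset_range.2 (Finset.mem_range.1 hm).le) fun _ _ _ => hal _
    calc ∑ m ∈ Finset.range M, ∑ κ ∈ C, g (m, κ) ^ 2 ≤ ∑ _m ∈ Finset.range M, A :=
          Finset.sum_le_sum h3
      _ = M * A := by simp
  calc ∑ m ∈ Finset.range M, vn s P ω q χ m ≤ ∑ x ∈ Finset.range M ×ˢ C, f x * g x := h1
    _ ≤ Real.sqrt (∑ x ∈ Finset.range M ×ˢ C, f x ^ 2) *
          Real.sqrt (∑ x ∈ Finset.range M ×ˢ C, g x ^ 2) := h2
    _ ≤ Real.sqrt (κ0 * A) * Real.sqrt (M * A) :=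
        mul_le_mul (Real.sqrt_le_sqrt hX) (Real.sqrt_le_sqrt hY) (Real.sqrt_nonneg _)
          (Real.sqrt_nonneg _)
    _ = A * Real.sqrt (κ0 * M) := by
        rw [← Real.sqrt_mul (by positivity), show κ0 * A * (M * A) = A ^ 2 * (κ0 * M) by ring,
          Real.sqrt_mul (by positivity), Real.sqrt_sq hA0]

end MP0d3db7NS
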