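import Pool.Agent.Lib.MP_0d3db7.NS.Final2
import Pool.Agent.Lib.MP_0d3db7.NS.Main3
import Pool.Agent.Lib.MP_0d3db7.NS.Lw
import Pool.Agent.Lib.MP_0d3db7.NS.Ix
import Pool.Agent.Lib.MP_0d3db7.NS.Or
import Pool.Agent.Lib.MP_0d3db7.NS.Ub
import Pool.Agent.Lib.MP_0d3db7.NS.Ut
import Pool.Agent.Lib.MP_0d3db7.NS.Iv
import Pool.Agent.Lib.MP_0d3db7.NS.Eg
import Pool.Agent.Lib.MP_0d3db7.NS.Je
import Pool.Agent.Lib.MP_0d3db7.NS.Vf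
import Pool.Agent.Lib.MP_0d3db7.NS.Cp
import Pool.Agent.Lib.MP_0d3db7.NS.Ht
import Pool.Agent.Lib.MP_0d3db7.NS.Am
import Pool.Agent.Lib.MP_0d3db7.NS.Th
import Pool.Agent.Lib.MP_0d3db7.NS.Yg
import Pool.Agent.Lib.MP_0d3db7.NS.Vw
import Pool.Agent.Lib.MP_0d3db7.NS.Nm
import Pool.Agent.Lib.MP_0d3db7.NS.Dv
import Pool.Agent.Lib.MP_0d3db7.NS.Mn3
import Pool.Agent.Lib.MP_0d3db7.NS.Rb3
import Pool.Agent.Lib.MP_0d3db7.NS.Ng

/-!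
# MP_0d3db7_pr, theorem NS3: all laws which are not point masses, `d ≥ 3` or drift
-/

set_option autoImplicit false

namespace MP0d3db7NS

open MeasureTheory ProbabilityTheory Filter Topology

theorem fIv : S_Iv := tIv tLw tUb tUt
theorem fEg : S_Eg := tEg tIx tUb fIv
theorem fJe : S_Je := tJe tIx tUb fIv
theorem fCp : S_Cp := tCp (tOr tIx) tUb fIv fEg fJe tVf
theorem fAm : S_Am := tAm fCp tHt
theorem fYg : S_Yg := tYg (tTh (tOr tIx) tUb fIv tVf) fJe tVf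
theorem fDv : S_Dv := tDv (tVw tUb) fYg fAm (tNm tSz) tSz fIn tK1 fSu tSp
theorem fRb3 : S_Rb3 := tRb3 tMx (tMn3 tMa tDp) tSz

/-- the environments of the problem -/
theorem ciOf {d : ℕ} {Ω : Type} [MeasurableSpace Ω] (P : Measure Ω) [IsProbabilityMeasure P]
    (ω : (Fin d → ℤ) × ℕ → Ω → Dr d → ℝ) (hm : ∀ κ, Measurable (ω κ)) (hpv : ∀ κ o, PV (ω κ o))
    (hind : iIndepFun ω P) (hid : ∀ κ, IdentDistrib (ω κ) (ω (0, 1)) P P)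
    (q : Dr d → ℝ) (hq : ∀ e, ∫ o, ω (0, 1) o e ∂P = q e) : Ci P ω q := by
  refine ⟨inferInstance, hm, hpv, hind, fun κ κ' => (hid κ).trans (hid κ').symm, fun κ e => ?_⟩
  rw [← hq e]
  exact ((hid κ).comp (measurable_pi_apply e)).integral_eq

/-- NS3 -/
theorem ns3 {d : ℕ} {Ω : Type} [MeasurableSpace Ω] (P : Measure Ω) [IsProbabilityMeasure P]
    (ω : (Fin d → ℤ) × ℕ → Ω → Dr d → ℝ) (q : Dr d → ℝ) (hci : Ci P ω q)
    (hS : (Sg q).det ≠ 0) (hd : 3 ≤ d ∨ (d = 2 ∧ drift q ≠ 0))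
    (hC : ¬ ∀ᵐ o ∂P, ∃ e, ω (0, 1) o e = 1) :
    ∀ᵐ o ∂P, ∀ f : BoundedContinuousFunction (EuclideanSpace ℝ (Fin d)) ℝ,
      Tendsto (fun n : ℕ => quenchE (st d) (fun κ => ω κ o) n
        fun h => f (nrm q n (pos (st d) h))) atTop
        (𝓝 (∫ x, f x ∂(multivariateGaussian 0 (Sg q)))) :=
  tMain3 tPa tSz tBw (tIw tPa tSz) fCq tTg (tTm tPa) (tFm tPa) fDv fRb3 P ω q hci hS hd hC

end MP0d3db7NS
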