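import Pool.Agent.Lib.MP_0d3db7.NS.Defs3
import Pool.Agent.Lib.MP_0d3db7.NS.DefsF
import Pool.Agent.Lib.MP_0d3db7.Defs

/-!
# MP_0d3db7_pr: the one-dimensional walk in the notation of the general case
-/

set_option autoImplicit false

namespace MP0d3db7NS

open MeasureTheory ProbabilityTheory Filter Topology

namespace One


/-- the site `z` -/
def em (z : ℤ) : Fin 1 → ℤ := fun _ => z

theorem em_inj : Function.Injective em := fun _ _ h => congrFun h 0

theorem em_eq (x : Fin 1 → ℤ) : em (x 0) = x := by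
  funext i
  rw [Subsingleton.elim i 0]
  rfl

theorem st_eq (e : Dr 1) : st 1 e 0 = Pool.Agent.MP0d3db7.stp e.2 := by
  obtain ⟨i, b⟩ := e
  have : i = 0 := Subsingleton.elim _ _
  subst this
  simp [st, Pool.Agent.MP0d3db7.stp]

theorem pos_eq (h : List (Dr 1)) :
    pos (st 1) h 0 = Pool.Agent.MP0d3db7.pos (h.map Prod.snd) := by
  induction h with
  | nil => rfl
  | cons e h ih =>
    rw [List.map_cons]
    show (pos (st 1) h + st 1 e) 0 = Pool.Agent.MP0d3db7.pos (h.map Prod.snd) +
      Pool.Agent.MP0d3db7.stp e.2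
    rw [Pi.add_apply, ih, st_eq]

theorem pv_eq (z : ℤ) (h : List (Dr 1)) :
    pv (st 1) (em z) h = Pool.Agent.MP0d3db7.pv z (h.map Prod.snd) := by
  induction h with
  | nil => rfl
  | cons e h ih =>
    rw [List.map_cons]
    show (pv (st 1) (em z) h + if pos (st 1) h = em z then 1 else 0) =
      Pool.Agent.MP0d3db7.pv z (h.map Prod.snd) +
        if Pool.Agent.MP0d3db7.pos (h.map Prod.snd) = z then 1 else 0
    rw [ih, ← pos_eq]
    have h1 : (pos (st 1) h = em z) ↔ (pos (st 1) h 0 = z) := by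
      constructor
      · intro h2
        rw [h2]
        rfl
      · intro h2
        rw [← h2, em_eq]
    simp only [h1]

theorem vis_eq (h : List (Dr 1)) :
    vis (st 1) h = Pool.Agent.MP0d3db7.vis (h.map Prod.snd) := by
  show pv (st 1) (pos (st 1) h) h + 1 =
    Pool.Agent.MP0d3db7.pv (Pool.Agent.MP0d3db7.pos (h.map Prod.snd)) (h.map Prod.snd) + 1
  rw [← pv_eq, ← pos_eq, em_eq]

/-- the probabilities of the step `+1` -/
def rt (w : (Fin 1 → ℤ) × ℕ → Dr 1 → ℝ) (z : ℤ) (i : ℕ) : ℝ := w (em z, i) (0, true)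

theorem wt_eq (w : (Fin 1 → ℤ) × ℕ → Dr 1 → ℝ)
    (hw : ∀ κ, w κ (0, false) = 1 - w κ (0, true)) (h : List (Dr 1)) :
    wt (st 1) w h = Pool.Agent.MP0d3db7.wt (rt w) (h.map Prod.snd) := by
  induction h with
  | nil => rfl
  | cons e h ih =>
    rw [List.map_cons]
    have h0 : (pos (st 1) h, vis (st 1) h) =
        (em (Pool.Agent.MP0d3db7.pos (h.map Prod.snd)),
          Pool.Agent.MP0d3db7.vis (h.map Prod.snd)) := by
      rw [← pos_eq, em_eq, vis_eq]
    show wt (st 1) w h * w (pos (st 1) h, vis (st 1) h) e = _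
    rw [ih, h0]
    obtain ⟨i, b⟩ := e
    have : i = 0 := Subsingleton.elim _ _
    subst this
    cases b with
    | true => rfl
    | false =>
      rw [hw]
      rfl

theorem quench_eq (w : (Fin 1 → ℤ) × ℕ → Dr 1 → ℝ)
    (hw : ∀ κ, w κ (0, false) = 1 - w κ (0, true)) (n : ℕ) (g : ℤ → ℝ) :
    quenchE (st 1) w n (fun h => g (pos (st 1) h 0)) =
      Pool.Agent.MP0d3db7.quenchE (rt w) n g := by
  unfold quenchE Pool.Agent.MP0d3db7.quenchE
  let F : (Fin n → Dr 1) ≃ (Fin n → Bool) :=
    Equiv.arrowCongr (Equiv.refl (Fin n)) (Equiv.uniqueProd Bool (Fin 1))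
  refine Fintype.sum_equiv F _ _ fun e => ?_
  have h1 : List.ofFn (F e) = (List.ofFn e).map Prod.snd := by
    rw [List.map_ofFn]
    rfl
  rw [h1, wt_eq w hw, ← pos_eq]

theorem pv_compl {p : Dr 1 → ℝ} (hp : PV p) : p (0, false) = 1 - p (0, true) := by
  have h1 := hp.2
  rw [Fintype.sum_prod_type] at h1
  simp only [Finset.univ_unique, Fin.default_eq_zero, Fin.isValue, Fintype.sum_bool,
    Finset.sum_singleton] at h1
  linarith

theorem pv_ext {p p' : Dr 1 → ℝ} (hp : PV p) (hp' : PV p') (h : p (0, true) = p' (0, true)) :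
    p = p' := by
  funext e
  obtain ⟨i, b⟩ := e
  have : i = 0 := Subsingleton.elim _ _
  subst this
  cases b with
  | true => exact h
  | false => rw [pv_compl hp, pv_compl hp', h]

/-- the line as a Euclidean space -/
noncomputable def io (t : ℝ) : EuclideanSpace ℝ (Fin 1) := WithLp.toLp 2 fun _ => t

theorem io_eq (x : EuclideanSpace ℝ (Fin 1)) : io (x 0) = x := by
  ext i
  rw [Subsingleton.elim i 0]
  rfl

theorem io_cont : Continuous io := by
  unfold io
  fun_prop

theorem ev_cont : Continuous fun x : EuclideanSpace ℝ (Fin 1) => x 0 := by fun_prop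

theorem scl_eq (c : Fin 1 → ℝ) (n : ℕ) (x : Fin 1 → ℤ) :
    scl c n x = io (((x 0 : ℤ) - c 0) / Real.sqrt n) := by
  rw [← io_eq (scl c n x)]
  rfl

/-- convergence for the one-dimensional walk -/
theorem lim_iff (w : (Fin 1 → ℤ) × ℕ → Dr 1 → ℝ) (hw : ∀ κ, PV (w κ)) (c : ℕ → Fin 1 → ℝ)
    (μ : Measure (EuclideanSpace ℝ (Fin 1))) :
    Lim w c μ ↔ ∀ f : BoundedContinuousFunction ℝ ℝ, Tendsto (fun n : ℕ =>
      Pool.Agent.MP0d3db7.quenchE (rt w) n fun x => f ((x - c n 0) / Real.sqrt n)) atTop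
        (𝓝 (∫ x, f x ∂(μ.map fun x => x 0))) := by
  have hw' : ∀ κ, w κ (0, false) = 1 - w κ (0, true) := fun κ => pv_compl (hw κ)
  constructor
  · intro h f
    have h1 := h (f.compContinuous ⟨fun x => x 0, ev_cont⟩)
    rw [integral_map ev_cont.measurable.aemeasurable f.continuous.aestronglyMeasurable]
    refine h1.congr fun n => ?_
    rw [← quench_eq w hw' n fun x => f ((x - c n 0) / Real.sqrt n)]
    rfl
  · intro h f
    have h1 := h (f.compContinuous ⟨io, io_cont⟩)
    have h2 : ∫ x, (f.compContinuous ⟨io, io_cont⟩) x ∂(μ.map fun x => x 0) = ∫ x, f x ∂μ := by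
      rw [integral_map ev_cont.measurable.aemeasurable
        (f.compContinuous ⟨io, io_cont⟩).continuous.aestronglyMeasurable]
      refine integral_congr_ae (Eventually.of_forall fun x => ?_)
      show f (io (x 0)) = f x
      rw [io_eq]
    rw [h2] at h1
    refine h1.congr fun n => ?_
    rw [← quench_eq w hw' n]
    congr 1
    funext h
    rw [scl_eq]
    rfl

theorem dirac_of_map (μ : Measure (EuclideanSpace ℝ (Fin 1))) [IsProbabilityMeasure μ] (y : ℝ)
    (h : (μ.map fun x => x 0) = Measure.dirac y) : μ = Measure.dirac (io y) := by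
  have h1 : (μ.map fun x => x 0).map io = μ := by
    rw [Measure.map_map io_cont.measurable ev_cont.measurable]
    have h2 : (io ∘ fun x : EuclideanSpace ℝ (Fin 1) => x 0) = id := by
      funext x
      exact io_eq x
    rw [h2, Measure.map_id]
  rw [← h1, h, Measure.map_dirac' io_cont.measurable]

theorem gauss_map (v : NNReal) : ((multivariateGaussian 0
    (Matrix.diagonal fun _ : Fin 1 => (v : ℝ))).map fun x => x 0) = gaussianReal 0 v := by
  have hS : (Matrix.diagonal fun _ : Fin 1 => (v : ℝ)).PosSemidef :=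
    Matrix.PosSemidef.diagonal fun _ => v.2
  have h1 := (measurePreserving_eval_multivariateGaussian (μ := 0) hS (i := (0 : Fin 1))).map_eq
  rw [h1]
  simp

end One

end MP0d3db7NS
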