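import Pool.Agent.Lib.MP_0d3db7.NS.Final3
import Pool.Agent.Lib.MP_0d3db7.NS.One
import Pool.Agent.Lib.MP_0d3db7.NS.Fn
import Pool.Agent.Lib.MP_0d3db7.NS.M2
import Pool.Agent.Lib.MP_0d3db7.Lim

/-!
# MP_0d3db7_pr: all dimensions together
-/

set_option autoImplicit false

namespace MP0d3db7NS

open MeasureTheory ProbabilityTheory Filter Topology

/-- the statement of theorem D1 -/
def S_D1 : Prop := ∀ {Ω : Type} [MeasurableSpace Ω] (P : Measure Ω) [IsProbabilityMeasure P]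
  (ω : ℤ → ℕ → Ω → ℝ), (∀ z i, Measurable (ω z i)) → (∀ z i o, ω z i o ∈ Set.Icc (0 : ℝ) 1) →
  iIndepFun (fun κ : ℤ × ℕ => ω κ.1 κ.2) P → (∀ z i, IdentDistrib (ω z i) (ω 0 1) P P) →
  ∫ o, ω 0 1 o ∂P ≠ 1 / 2 → 0 < P {o | 0 < ω 0 1 o ∧ ω 0 1 o < 1} →
  ∃ v : NNReal, v ≠ 0 ∧ ∀ᵐ o ∂P, ∃ c : ℕ → ℝ, ∀ f : BoundedContinuousFunction ℝ ℝ,
    Tendsto (fun n : ℕ => Pool.Agent.MP0d3db7.quenchE (fun z i => ω z i o) n
      fun x => f ((x - c n) / Real.sqrt n)) atTop (𝓝 (∫ x, f x ∂gaussianReal 0 v))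

namespace Final4_aux

/-- the simple random walk -/
theorem const_case {d : ℕ} (q : Dr d → ℝ) (hq : PV q) :
    Lim (fun _ => q) (fun n i => n * drift q i) (multivariateGaussian 0 (Sg q)) := by
  have hU : ∀ (g : EuclideanSpace ℝ (Fin d) → ℝ) (n : ℕ),
      Ex (st d) (fun _ => q) (fun h => g (nrm q n (pos (st d) h))) n [] =
      U (st d) (fun _ => q) (fun x => g (nrm q n x)) n 0 (fun _ => 0) := fun g n =>
    (tPa (st d) (fun _ => q)).2.1 (fun x => g (nrm q n x)) n []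
  intro f
  refine tFn tPa d q hq (fun _ => q) (fun _ => hq) (fun θ => ?_) (fun M hM δ hδ => ?_) f
  · have h1 := tCl d q hq (WithLp.toLp 2 fun i => (θ i : ℝ))
    constructor
    · refine h1.1.congr fun n => ?_
      exact (hU (fun y => Real.cos (∑ i, (θ i : ℝ) * y i)) n).symm
    · refine h1.2.congr fun n => ?_
      exact (hU (fun y => Real.sin (∑ i, (θ i : ℝ) * y i)) n).symm
  · filter_upwards [eventually_ge_atTop 1] with n hn
    have h1 := tM2 d q hq M n (by exact_mod_cast hM) hn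
    have h2 := hU (fun y => min 1 (‖y‖ / M)) n
    exact h2.le.trans (h1.trans (by linarith))

section one

variable {Ω : Type} [MeasurableSpace Ω] {P : Measure Ω}
  {ω : (Fin 1 → ℤ) × ℕ → Ω → Dr 1 → ℝ} {q : Dr 1 → ℝ}

/-- the one-dimensional environment -/
def en1 (ω : (Fin 1 → ℤ) × ℕ → Ω → Dr 1 → ℝ) (z : ℤ) (i : ℕ) (o : Ω) : ℝ :=
  ω (One.em z, i) o (0, true)

theorem en1_meas (h : Ci P ω q) (z : ℤ) (i : ℕ) : Measurable (en1 ω z i) := h.mese _ _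

theorem en1_icc (h : Ci P ω q) (z : ℤ) (i : ℕ) (o : Ω) : en1 ω z i o ∈ Set.Icc (0 : ℝ) 1 :=
  ⟨(h.pv _ o).1 _, h.le1 _ _ _⟩

theorem en1_ind (h : Ci P ω q) : iIndepFun (fun κ : ℤ × ℕ => en1 ω κ.1 κ.2) P := by
  have h1 : iIndepFun (fun κ : ℤ × ℕ => ω (One.em κ.1, κ.2)) P := by
    refine h.ind.precomp (g := fun κ : ℤ × ℕ => (One.em κ.1, κ.2)) ?_
    rintro ⟨a, b⟩ ⟨c, d⟩ h
    simp only [Prod.mk.injEq] at h
    exact Prod.ext (One.em_inj h.1) h.2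
  exact h1.comp (fun _ x => x (0, true)) fun _ => measurable_pi_apply _

theorem en1_id (h : Ci P ω q) (z : ℤ) (i : ℕ) : IdentDistrib (en1 ω z i) (en1 ω 0 1) P P :=
  (h.idd (One.em z, i) (One.em 0, 1)).comp (measurable_pi_apply (0, true))

theorem en1_mean (h : Ci P ω q) : ∫ o, en1 ω 0 1 o ∂P = q (0, true) := h.mean _ _

theorem drift1 (hq : PV q) : drift q = 0 ↔ q (0, true) = 1 / 2 := by
  have h1 : drift q 0 = 2 * q (0, true) - 1 := by
    rw [drift, Fintype.sum_prod_type]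
    simp only [Finset.univ_unique, Fin.default_eq_zero, Fin.isValue, Fintype.sum_bool,
      Finset.sum_singleton]
    rw [One.st_eq, One.st_eq, One.pv_compl hq]
    simp only [Pool.Agent.MP0d3db7.stp, if_true, if_false, Bool.false_eq_true]
    push_cast
    ring
  constructor
  · intro h
    rw [h] at h1
    have h2 : (0 : ℝ) = 2 * q (0, true) - 1 := h1
    linarith
  · intro h
    funext i
    rw [Subsingleton.elim i 0, h1, h]
    norm_num

theorem em0 : (One.em 0, 1) = ((0 : Fin 1 → ℤ), 1) := rfl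

/-- `d = 1`, `v = 0` -/
theorem neg (h : Ci P ω q) (hv : drift q = 0) (hc : ¬ ∀ᵐ o ∂P, ω (0, 1) o = q) :
    ∀ᵐ o ∂P, NoLim fun κ => ω κ o := by
  have := h.prob
  have hq := h.pvq (0, 1)
  have hq2 : q (0, true) = 1 / 2 := (drift1 hq).1 hv
  have hnd : ¬ (en1 ω 0 1 =ᵐ[P] fun _ => 1 / 2) := by
    intro h1
    apply hc
    filter_upwards [h1] with o ho
    refine One.pv_ext (h.pv _ o) hq ?_
    rw [hq2]
    exact ho
  have hint : Integrable (fun o => (2 * en1 ω 0 1 o - 1) ^ 2) P := by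
    refine Integrable.of_bound (((en1_meas h 0 1).const_mul 2).sub_const 1 |>.pow_const 2
      |>.aestronglyMeasurable) 1 (Eventually.of_forall fun o => ?_)
    have h1 := en1_icc h 0 1 o
    rw [Real.norm_eq_abs, abs_pow]
    refine pow_le_one₀ (abs_nonneg _) ?_
    rw [abs_le]
    constructor <;> linarith [h1.1, h1.2]
  have hpos : 0 < ∫ o, (2 * en1 ω 0 1 o - 1) ^ 2 ∂P := by
    refine lt_of_le_of_ne (integral_nonneg fun _ => sq_nonneg _) fun h0 => hnd ?_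
    have h1 := (integral_eq_zero_iff_of_nonneg (fun o => sq_nonneg (2 * en1 ω 0 1 o - 1)) hint).1
      h0.symm
    filter_upwards [h1] with o ho
    have h2 : (2 * en1 ω 0 1 o - 1) ^ 2 = 0 := ho
    have h3 := pow_eq_zero_iff (two_ne_zero) |>.1 h2
    linarith
  have hE : Pool.Agent.MP0d3db7.Env P (fun κ : ℤ × ℕ => en1 ω κ.1 κ.2)
      (∫ o, (2 * en1 ω 0 1 o - 1) ^ 2 ∂P) := by
    refine ⟨inferInstance, en1_ind h, fun κ => en1_meas h _ _,
      fun κ o => ⟨(en1_icc h _ _ o).1, (en1_icc h _ _ o).2⟩, fun κ => ?_, hpos, fun κ => ?_⟩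
    · rw [← hq2, ← en1_mean h]
      exact (en1_id h κ.1 κ.2).integral_eq
    · have h1 : Measurable fun x : ℝ => (2 * x - 1) ^ 2 := by fun_prop
      exact ((en1_id h κ.1 κ.2).comp h1).integral_eq
  filter_upwards [hE.lim] with o ho c μ hμ hlim
  have h1 := (One.lim_iff (fun κ => ω κ o) (fun κ => h.pv κ o) c μ).1 hlim
  have h2 : IsProbabilityMeasure (μ.map fun x => x 0) :=
    Measure.isProbabilityMeasure_map One.ev_cont.measurable.aemeasurable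
  obtain ⟨y, hy⟩ := ho (fun n => c n 0) (μ.map fun x : EuclideanSpace ℝ (Fin 1) => x 0) h2 h1
  exact ⟨One.io y, One.dirac_of_map μ y hy⟩

/-- `d = 1`, `v ≠ 0` -/
theorem posd (hD1 : S_D1) (h : Ci P ω q) (hv : drift q ≠ 0) (hc : ¬ PtMass P (ω (0, 1))) :
    ∃ v : NNReal, 0 < v ∧ ∀ᵐ o ∂P, ∃ c : ℕ → Fin 1 → ℝ, Lim (fun κ => ω κ o) c
      (multivariateGaussian 0 (Matrix.diagonal fun _ => (v : ℝ))) := by
  have := h.prob
  have hq := h.pvq (0, 1)
  have hq2 : ∫ o, en1 ω 0 1 o ∂P ≠ 1 / 2 := by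
    rw [en1_mean h]
    exact fun h1 => hv ((drift1 hq).2 h1)
  have hnd : 0 < P {o | 0 < en1 ω 0 1 o ∧ en1 ω 0 1 o < 1} := by
    by_contra h1
    have h2 : P {o | 0 < en1 ω 0 1 o ∧ en1 ω 0 1 o < 1} = 0 := by
      simpa using h1
    apply hc
    have h3 : ∀ᵐ o ∂P, ¬ (0 < en1 ω 0 1 o ∧ en1 ω 0 1 o < 1) := by
      rw [ae_iff]
      simpa using h2
    unfold PtMass
    filter_upwards [h3] with o ho
    have h4 := en1_icc h 0 1 o
    by_cases h5 : 0 < en1 ω 0 1 o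
    · refine ⟨(0, true), le_antisymm (h.le1 _ _ _) ?_⟩
      by_contra h6
      exact ho ⟨h5, not_le.1 h6⟩
    · refine ⟨(0, false), ?_⟩
      rw [One.pv_compl (h.pv _ o)]
      have h6 : en1 ω 0 1 o = 0 := le_antisymm (not_lt.1 h5) h4.1
      have h7 : ω (0, 1) o (0, true) = 0 := h6
      rw [h7, sub_zero]
  obtain ⟨v, hv0, hae⟩ := hD1 P (en1 ω) (en1_meas h) (en1_icc h) (en1_ind h) (en1_id h) hq2 hnd
  refine ⟨v, pos_iff_ne_zero.2 hv0, ?_⟩
  filter_upwards [hae] with o ho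
  obtain ⟨c, hc⟩ := ho
  refine ⟨fun n _ => c n, ?_⟩
  rw [One.lim_iff (fun κ => ω κ o) (fun κ => h.pv κ o), One.gauss_map]
  exact hc

end one

end Final4_aux

open Final4_aux

/-- the classification -/
theorem final (hD1 : S_D1) {d : ℕ} (hd : 1 ≤ d) {Ω : Type} [MeasurableSpace Ω] (P : Measure Ω)
    [IsProbabilityMeasure P] (ω : (Fin d → ℤ) × ℕ → Ω → Dr d → ℝ)
    (hm : ∀ κ, Measurable (ω κ)) (hpv : ∀ κ o, PV (ω κ o)) (hind : iIndepFun ω P)
    (hid : ∀ κ, IdentDistrib (ω κ) (ω (0, 1)) P P) (q : Dr d → ℝ)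
    (hq : ∀ e, ∫ o, ω (0, 1) o e ∂P = q e) (hS : (Sg q).det ≠ 0) :
    ((3 ≤ d ∨ (d = 2 ∧ drift q ≠ 0)) → ¬ PtMass P (ω (0, 1)) →
      ∀ᵐ o ∂P, Lim (fun κ => ω κ o) (fun n i => n * drift q i)
        (multivariateGaussian 0 (Sg q))) ∧
    (d = 2 → Mixing P (ω (0, 1)) q →
      ∀ᵐ o ∂P, Lim (fun κ => ω κ o) (fun n i => n * drift q i)
        (multivariateGaussian 0 (Sg q))) ∧
    (d = 1 → drift q ≠ 0 → ¬ PtMass P (ω (0, 1)) →
      ∃ v : ℝ, 0 < v ∧ ∀ᵐ o ∂P, ∃ c : ℕ → Fin d → ℝ, Lim (fun κ => ω κ o) c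
        (multivariateGaussian 0 (Matrix.diagonal fun _ => v))) ∧
    (d = 1 → drift q = 0 → (¬ ∀ᵐ o ∂P, ω (0, 1) o = q) → ∀ᵐ o ∂P, NoLim fun κ => ω κ o) ∧
    ((∀ᵐ o ∂P, ω (0, 1) o = q) → ∀ᵐ o ∂P, Lim (fun κ => ω κ o) (fun n i => n * drift q i)
      (multivariateGaussian 0 (Sg q))) ∧
    (PtMass P (ω (0, 1)) → ∀ᵐ o ∂P, NoLim fun κ => ω κ o) := by
  have hci : Ci P ω q := ciOf P ω hm hpv hind hid q hq
  have hqp : PV q := hci.pvq (0, 1)
  refine ⟨fun h1 h2 => ?_, fun h1 h2 => ?_, fun h1 h2 h3 => ?_, fun h1 h2 h3 => ?_,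
    fun h1 => ?_, fun h1 => ?_⟩
  · exact ns3 P ω q hci hS h1 h2
  · exact ns2 P ω hm hpv hind hid q hq hS (by omega) h2
  · subst h1
    obtain ⟨v, hv0, hv⟩ := posd hD1 hci h2 h3
    exact ⟨v, hv0, hv⟩
  · subst h1
    exact neg hci h2 h3
  · have h2 : ∀ᵐ o ∂P, ∀ κ, ω κ o = q := by
      rw [ae_all_iff]
      intro κ
      have h3 : MeasurableSet {x : Dr d → ℝ | x = q} := measurableSet_singleton q
      exact (hid κ).symm.ae_snd h3 h1
    filter_upwards [h2] with o ho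
    have h3 : (fun κ => ω κ o) = fun _ => q := funext ho
    rw [h3]
    exact const_case q hqp
  · exact tNg tPa d P ω q hci h1

end MP0d3db7NS
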