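import Pool.Agent.Lib.MP_0d3db7.NS.Spec

/-!
# MP_0d3db7_pr, theorem NS, module Hb: the bounds `hh`
-/

set_option autoImplicit false

namespace MP0d3db7NS

open MeasureTheory ProbabilityTheory Filter Topology

namespace Hb_aux

variable {V E : Type} [AddCommGroup V] [DecidableEq V] [Fintype E] (s : E → V) (q : E → ℝ)

lemma pt_nonneg (hq : PV q) (t : ℕ) : ∀ x z, 0 ≤ pt s q t x z := by
  induction t with
  | zero =>
    intro x z
    unfold pt
    split_ifs <;> norm_num
  | succ t ih =>
    intro x z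
    unfold pt
    exact Finset.sum_nonneg fun e _ => mul_nonneg (hq.1 e) (ih _ _)

lemma gr_mono (hq : PV q) {N n : ℕ} (h : N ≤ n) (x z : V) : gr s q N x z ≤ gr s q n x z := by
  unfold gr
  exact Finset.sum_le_sum_of_subset_of_nonneg (Finset.range_mono h)
    fun t _ _ => pt_nonneg s q hq t x z

lemma gr_nonneg (hq : PV q) (n : ℕ) (x z : V) : 0 ≤ gr s q n x z :=
  Finset.sum_nonneg fun t _ => pt_nonneg s q hq t x z

lemma Gam_nonneg (hq : PV q) (n : ℕ) (x z : V) : 0 ≤ Gam s q n x z := by
  unfold Gam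
  exact Finset.sum_nonneg fun a _ => Finset.sum_nonneg fun e _ =>
    mul_nonneg (mul_nonneg (hq.1 a) (hq.1 e)) (sq_nonneg _)

lemma hh_nonneg (hq : PV q) (n : ℕ) (L G : ℝ) (k : ℕ) : ∀ (Z : Fin k → V) (x : V),
    0 ≤ hh s q n L G k Z x := by
  induction k with
  | zero =>
    intro Z x
    unfold hh
    positivity
  | succ k ih =>
    intro Z x
    unfold hh
    refine mul_nonneg (mul_nonneg (by positivity) (Finset.sum_nonneg fun l _ => ih _ _))
      (Finset.sum_nonneg fun j _ => Gam_nonneg s q hq n x (Z j))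

lemma phi_zero (hq : PV q) (f : V → ℝ) (L : ℝ) (hf : ∀ x a e, |f (x + s a) - f (x + s e)| ≤ L)
    (N : ℕ) : ∀ (x : V) (a e : E) (r r' : V → ℕ) (c c' : Fin 0 → (V × ℕ) × E),
    |phi s q f N 0 (x + s a) r c - phi s q f N 0 (x + s e) r' c'| ≤ L := by
  induction N with
  | zero =>
    intro x a e r r' c c'
    simp only [phi]
    exact hf x a e
  | succ N ih =>
    intro x a e r r' c c'
    simp only [phi]
    rw [← Finset.sum_sub_distrib]
    calc |∑ b, (q b * phi s q f N 0 (x + s a + s b) (up r (x + s a)) c -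
            q b * phi s q f N 0 (x + s e + s b) (up r' (x + s e)) c')|
        ≤ ∑ b, |q b * phi s q f N 0 (x + s a + s b) (up r (x + s a)) c -
            q b * phi s q f N 0 (x + s e + s b) (up r' (x + s e)) c'| :=
          Finset.abs_sum_le_sum_abs _ _
      _ ≤ ∑ b, q b * L := by
          refine Finset.sum_le_sum fun b _ => ?_
          rw [← mul_sub, abs_mul, abs_of_nonneg (hq.1 b)]
          refine mul_le_mul_of_nonneg_left ?_ (hq.1 b)
          rw [add_right_comm x (s a) (s b), add_right_comm x (s e) (s b)]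
          exact ih _ a e _ _ c c'
      _ = L := by rw [← Finset.sum_mul, hq.2, one_mul]

lemma avg_le (hq : PV q) (F : E → E → ℝ) (C : ℝ) (hF : ∀ a e, F a e ≤ C) :
    ∑ a, ∑ e, q a * q e * F a e ≤ C := by
  calc ∑ a, ∑ e, q a * q e * F a e ≤ ∑ a, ∑ e, q a * q e * C :=
        Finset.sum_le_sum fun a _ => Finset.sum_le_sum fun e _ =>
          mul_le_mul_of_nonneg_left (hF a e) (mul_nonneg (hq.1 a) (hq.1 e))
    _ = C := by
        have h1 : ∀ a, ∑ e, q a * q e * C = q a * C := by
          intro a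
          rw [← Finset.sum_mul, ← Finset.mul_sum, hq.2, mul_one]
        rw [Finset.sum_congr rfl fun a _ => h1 a, ← Finset.sum_mul, hq.2, one_mul]

end Hb_aux

open Hb_aux in
theorem tHb (hMb : S_Mb) (hDu : S_Du) : S_Hb := by
  intro V E _ _ _ s q f hq n L G hG hgr hf
  have first : ∀ (k : ℕ) (Z : Fin k → V) (x : V) (r : V → ℕ) (N : ℕ), N ≤ n →
      ∑ a, ∑ e, q a * q e * ‖vec s q f n k Z N (x + s a) r -
        vec s q f n k Z N (x + s e) r‖ ^ 2 ≤ hh s q n L G k Z x := by
    intro k
    induction k with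
    | zero =>
      intro Z x r N _
      have h0 : hh s q n L G 0 Z x = L ^ 2 := by unfold hh; rfl
      rw [h0]
      refine avg_le q hq _ _ fun a e => ?_
      rw [EuclideanSpace.norm_sq_eq]
      have h1 : ∀ c : Fin 0 → Fin n × E, ‖(vec s q f n 0 Z N (x + s a) r -
          vec s q f n 0 Z N (x + s e) r) c‖ ^ 2 ≤ L ^ 2 := by
        intro c
        have h2 : (vec s q f n 0 Z N (x + s a) r - vec s q f n 0 Z N (x + s e) r) c =
            phi s q f N 0 (x + s a) r (fun j => ((Z j, ((c j).1 : ℕ) + 1), (c j).2)) -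
              phi s q f N 0 (x + s e) r (fun j => ((Z j, ((c j).1 : ℕ) + 1), (c j).2)) := by
          simp [vec]
        rw [h2, Real.norm_eq_abs]
        have h3 := phi_zero s q hq f L hf N x a e r r
          (fun j => ((Z j, ((c j).1 : ℕ) + 1), (c j).2))
          (fun j => ((Z j, ((c j).1 : ℕ) + 1), (c j).2))
        exact pow_le_pow_left₀ (abs_nonneg _) h3 2
      calc ∑ c : Fin 0 → Fin n × E, ‖(vec s q f n 0 Z N (x + s a) r -
            vec s q f n 0 Z N (x + s e) r) c‖ ^ 2 ≤ ∑ _c : Fin 0 → Fin n × E, L ^ 2 :=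
            Finset.sum_le_sum fun c _ => h1 c
        _ = L ^ 2 := by simp
    | succ k ih =>
      intro Z x r N hN
      have hg : ∀ (Z : Fin k → V) (x : V) (r : V → ℕ) (N : ℕ), N ≤ n →
          ∑ a, ∑ e, q a * q e * ‖vec s q f n k Z N (x + s a) r -
            vec s q f n k Z N (x + s e) r‖ ^ 2 ≤ (Real.sqrt (hh s q n L G k Z x)) ^ 2 := by
        intro Z x r N hN
        rw [Real.sq_sqrt (hh_nonneg s q hq n L G k Z x)]
        exact ih Z x r N hN
      have h1 := hMb s q f hq n k (fun Z x => Real.sqrt (hh s q n L G k Z x))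
        (fun Z x => Real.sqrt_nonneg _) hg
      set m : ℝ := G * ∑ j : Fin (k + 1), Real.sqrt (hh s q n L G k (rmv j Z) (Z j)) with hm
      have hm0 : 0 ≤ m := mul_nonneg hG (Finset.sum_nonneg fun j _ => Real.sqrt_nonneg _)
      have h2 : ∀ (N : ℕ) (x : V) (r : V → ℕ), N ≤ n → ‖vec s q f n (k + 1) Z N x r‖ ≤ m := by
        intro N x r hN
        refine (h1 N hN Z x r).trans ?_
        rw [hm, Finset.mul_sum]
        refine Finset.sum_le_sum fun j _ => ?_
        exact mul_le_mul_of_nonneg_right ((gr_mono s q hq hN x (Z j)).trans (hgr x (Z j)))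
          (Real.sqrt_nonneg _)
      have h3 := hDu s q f hq n k Z m hm0 h2
      have hm2 : m ^ 2 ≤ G ^ 2 * (((k : ℝ) + 1) *
          ∑ l : Fin (k + 1), hh s q n L G k (rmv l Z) (Z l)) := by
        rw [hm, mul_pow]
        refine mul_le_mul_of_nonneg_left ?_ (sq_nonneg _)
        refine (sq_sum_le_card_mul_sum_sq).trans ?_
        rw [Finset.card_univ, Fintype.card_fin]
        push_cast
        refine mul_le_mul_of_nonneg_left (le_of_eq ?_) (by positivity)
        exact Finset.sum_congr rfl fun l _ => Real.sq_sqrt (hh_nonneg s q hq n L G k _ _)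
      have h4 : ∀ a e, ‖vec s q f n (k + 1) Z N (x + s a) r -
          vec s q f n (k + 1) Z N (x + s e) r‖ ^ 2 ≤
          4 * m ^ 2 * (((k : ℝ) + 1) * ∑ j : Fin (k + 1), (∑ t ∈ Finset.range n,
            |pt s q t (x + s a) (Z j) - pt s q t (x + s e) (Z j)|) ^ 2) := by
        intro a e
        have h5 := h3 N hN (x + s a) (x + s e) r
        have h6 := pow_le_pow_left₀ (norm_nonneg _) h5 2
        refine h6.trans ?_
        rw [mul_pow, mul_pow]
        have h7 : (∑ j : Fin (k + 1), ∑ t ∈ Finset.range n,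
            |pt s q t (x + s a) (Z j) - pt s q t (x + s e) (Z j)|) ^ 2 ≤
            ((k : ℝ) + 1) * ∑ j : Fin (k + 1), (∑ t ∈ Finset.range n,
            |pt s q t (x + s a) (Z j) - pt s q t (x + s e) (Z j)|) ^ 2 := by
          refine (sq_sum_le_card_mul_sum_sq).trans ?_
          rw [Finset.card_univ, Fintype.card_fin]
          push_cast
          exact le_refl _
        calc (2 : ℝ) ^ 2 * m ^ 2 * _ ≤ (2 : ℝ) ^ 2 * m ^ 2 * _ :=
              mul_le_mul_of_nonneg_left h7 (by positivity)
          _ = _ := by ring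
      calc ∑ a, ∑ e, q a * q e * ‖vec s q f n (k + 1) Z N (x + s a) r -
            vec s q f n (k + 1) Z N (x + s e) r‖ ^ 2
          ≤ ∑ a, ∑ e, q a * q e * (4 * m ^ 2 * (((k : ℝ) + 1) * ∑ j : Fin (k + 1),
              (∑ t ∈ Finset.range n,
              |pt s q t (x + s a) (Z j) - pt s q t (x + s e) (Z j)|) ^ 2)) :=
            Finset.sum_le_sum fun a _ => Finset.sum_le_sum fun e _ =>
              mul_le_mul_of_nonneg_left (h4 a e) (mul_nonneg (hq.1 a) (hq.1 e))
        _ = 4 * m ^ 2 * ((k : ℝ) + 1) * ∑ j : Fin (k + 1), Gam s q n x (Z j) := by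
            have h8 : ∑ j : Fin (k + 1), Gam s q n x (Z j) = ∑ a, ∑ e, q a * q e *
                ∑ j : Fin (k + 1), (∑ t ∈ Finset.range n,
                |pt s q t (x + s a) (Z j) - pt s q t (x + s e) (Z j)|) ^ 2 := by
              unfold Gam
              rw [Finset.sum_comm]
              refine Finset.sum_congr rfl fun a _ => ?_
              rw [Finset.sum_comm]
              refine Finset.sum_congr rfl fun e _ => ?_
              rw [Finset.mul_sum]
            rw [h8, Finset.mul_sum]
            refine Finset.sum_congr rfl fun a _ => ?_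
            rw [Finset.mul_sum]
            refine Finset.sum_congr rfl fun e _ => ?_
            ring
        _ ≤ 4 * (G ^ 2 * (((k : ℝ) + 1) *
              ∑ l : Fin (k + 1), hh s q n L G k (rmv l Z) (Z l))) * ((k : ℝ) + 1) *
              ∑ j : Fin (k + 1), Gam s q n x (Z j) := by
            have h9 : 0 ≤ ∑ j : Fin (k + 1), Gam s q n x (Z j) :=
              Finset.sum_nonneg fun j _ => Gam_nonneg s q hq n x (Z j)
            have h10 : 4 * m ^ 2 * ((k : ℝ) + 1) ≤ 4 * (G ^ 2 * (((k : ℝ) + 1) *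
              ∑ l : Fin (k + 1), hh s q n L G k (rmv l Z) (Z l))) * ((k : ℝ) + 1) :=
              mul_le_mul_of_nonneg_right (mul_le_mul_of_nonneg_left hm2 (by norm_num))
                (by positivity)
            exact mul_le_mul_of_nonneg_right h10 h9
        _ = hh s q n L G (k + 1) Z x := by
            conv_rhs => unfold hh
            ring
  refine ⟨first, ?_⟩
  intro k Z x r N hN
  have hg : ∀ (Z : Fin k → V) (x : V) (r : V → ℕ) (N : ℕ), N ≤ n →
      ∑ a, ∑ e, q a * q e * ‖vec s q f n k Z N (x + s a) r -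
        vec s q f n k Z N (x + s e) r‖ ^ 2 ≤ (Real.sqrt (hh s q n L G k Z x)) ^ 2 := by
    intro Z x r N hN
    rw [Real.sq_sqrt (hh_nonneg s q hq n L G k Z x)]
    exact first k Z x r N hN
  have h1 := hMb s q f hq n k (fun Z x => Real.sqrt (hh s q n L G k Z x))
    (fun Z x => Real.sqrt_nonneg _) hg N hN Z x r
  have h2 := pow_le_pow_left₀ (norm_nonneg _) h1 2
  refine h2.trans ((sq_sum_le_card_mul_sum_sq).trans ?_)
  rw [Finset.card_univ, Fintype.card_fin]
  push_cast
  refine mul_le_mul_of_nonneg_left ?_ (by positivity)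
  refine Finset.sum_le_sum fun j _ => ?_
  rw [mul_pow, Real.sq_sqrt (hh_nonneg s q hq n L G k _ _)]
  refine mul_le_mul_of_nonneg_right ?_ (hh_nonneg s q hq n L G k _ _)
  exact pow_le_pow_left₀ (gr_nonneg s q hq N x (Z j)) (gr_mono s q hq hN x (Z j)) 2

end MP0d3db7NS
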