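import Pool.Agent.Lib.MP_0d3db7.NS.Spec

/-!
# MP_0d3db7_pr, theorem NS, module Hf: large deviations of the averaged walk
-/

set_option autoImplicit false

namespace MP0d3db7NS

open MeasureTheory ProbabilityTheory Filter Topology

namespace Hf_aux

section gen

variable {V E : Type} [AddCommGroup V] [DecidableEq V] [Fintype E] (s : E → V) (w : V × ℕ → E → ℝ)

theorem Ex_add (Φ : List E → ℝ) (b : ℕ) : ∀ (a : ℕ) (h : List E),
    Ex s w Φ (a + b) h = Ex s w (fun h => Ex s w Φ b h) a h := by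
  intro a
  induction a with
  | zero =>
    intro h
    rw [Nat.zero_add]
    rfl
  | succ a ih =>
    intro h
    have e1 : a + 1 + b = (a + b) + 1 := by omega
    rw [e1]
    show ∑ e, w (pos s h, vis s h) e * Ex s w Φ (a + b) (e :: h) =
      ∑ e, w (pos s h, vis s h) e * Ex s w (fun h => Ex s w Φ b h) a (e :: h)
    exact Finset.sum_congr rfl fun e _ => by rw [ih]

theorem Ex_mono (hw : ∀ κ e, 0 ≤ w κ e) (Φ Ψ : List E → ℝ) (hle : ∀ h, Φ h ≤ Ψ h) :
    ∀ (n : ℕ) (h : List E), Ex s w Φ n h ≤ Ex s w Ψ n h := by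
  intro n
  induction n with
  | zero => exact fun h => hle h
  | succ n ih =>
    intro h
    exact Finset.sum_le_sum fun e _ => mul_le_mul_of_nonneg_left (ih _) (hw _ _)

theorem Ex_sum {ι : Type} (t : Finset ι) (Φ : ι → List E → ℝ) :
    ∀ (n : ℕ) (h : List E), Ex s w (fun h => ∑ i ∈ t, Φ i h) n h = ∑ i ∈ t, Ex s w (Φ i) n h := by
  intro n
  induction n with
  | zero => exact fun h => rfl
  | succ n ih =>
    intro h
    show ∑ e, w (pos s h, vis s h) e * Ex s w (fun h => ∑ i ∈ t, Φ i h) n (e :: h) =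
      ∑ i ∈ t, ∑ e, w (pos s h, vis s h) e * Ex s w (Φ i) n (e :: h)
    rw [Finset.sum_comm]
    refine Finset.sum_congr rfl fun e _ => ?_
    rw [ih, Finset.mul_sum]

theorem Ex_mul (c : ℝ) (Φ : List E → ℝ) :
    ∀ (n : ℕ) (h : List E), Ex s w (fun h => c * Φ h) n h = c * Ex s w Φ n h := by
  intro n
  induction n with
  | zero => exact fun h => rfl
  | succ n ih =>
    intro h
    show ∑ e, w (pos s h, vis s h) e * Ex s w (fun h => c * Φ h) n (e :: h) =
      c * ∑ e, w (pos s h, vis s h) e * Ex s w Φ n (e :: h)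
    rw [Finset.mul_sum]
    refine Finset.sum_congr rfl fun e _ => ?_
    rw [ih]
    ring

theorem Ex_const (hw : ∀ κ, ∑ e, w κ e = 1) (c : ℝ) :
    ∀ (n : ℕ) (h : List E), Ex s w (fun _ => c) n h = c := by
  intro n
  induction n with
  | zero => exact fun h => rfl
  | succ n ih =>
    intro h
    show ∑ e, w (pos s h, vis s h) e * Ex s w (fun _ => c) n (e :: h) = c
    have : ∀ e, w (pos s h, vis s h) e * Ex s w (fun _ => c) n (e :: h) =
        w (pos s h, vis s h) e * c := fun e => by rw [ih]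
    rw [Finset.sum_congr rfl fun e _ => this e, ← Finset.sum_mul, hw, one_mul]

end gen

theorem exp_le (x : ℝ) : Real.exp x ≤ x + Real.exp (x ^ 2) := by
  have h1 : 1 + x ^ 2 ≤ Real.exp (x ^ 2) := by
    have := Real.add_one_le_exp (x ^ 2)
    linarith
  rcases le_or_gt |x| 1 with h | h
  · have h2 := (abs_le.1 (Real.abs_exp_sub_one_sub_id_le h)).2
    linarith
  · rcases lt_abs.1 h with h3 | h3
    · have h4 : x ≤ x ^ 2 := by nlinarith
      have h5 := Real.exp_le_exp.2 h4
      linarith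
    · have h4 : Real.exp x ≤ 1 := Real.exp_le_one_iff.2 (by linarith)
      nlinarith

variable {d : ℕ}

/-- the displacement in the last `k` steps, without the drift -/
noncomputable def Dd (q : Dr d → ℝ) (k : ℕ) (i : Fin d) (h : List (Dr d)) : ℝ :=
  ((pos (st d) h i : ℤ) : ℝ) - ((pos (st d) (h.drop k) i : ℤ) : ℝ) - k * drift q i

theorem mgf_aux (q : Dr d → ℝ) (k : ℕ) (i : Fin d) (η : ℝ) (h0 : List (Dr d)) :
    ∀ (j : ℕ) (u : List (Dr d)), u.length + j = k →
      Ex (st d) (fun _ => q) (fun h => Real.exp (η * Dd q k i h)) j (u ++ h0) =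
        Real.exp (η * (((pos (st d) (u ++ h0) i : ℤ) : ℝ) - ((pos (st d) h0 i : ℤ) : ℝ) -
          k * drift q i)) * (∑ e, q e * Real.exp (η * ((st d e i : ℤ) : ℝ))) ^ j := by
  intro j
  induction j with
  | zero =>
    intro u hu
    rw [pow_zero, mul_one]
    show Real.exp (η * Dd q k i (u ++ h0)) = _
    have h1 : (u ++ h0).drop k = h0 := by
      have h2 : k = u.length := by omega
      rw [h2, List.drop_left]
    rw [Dd, h1]
  | succ j ih =>
    intro u hu
    show ∑ e, q e * Ex (st d) (fun _ => q) (fun h => Real.exp (η * Dd q k i h)) j (e :: (u ++ h0)) = _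
    rw [pow_succ', ← mul_assoc, Finset.mul_sum, Finset.sum_mul]
    refine Finset.sum_congr rfl fun e _ => ?_
    have h1 := ih (e :: u) (by
      rw [List.length_cons]
      omega)
    rw [List.cons_append] at h1
    rw [h1]
    have h2 : pos (st d) (e :: (u ++ h0)) i = pos (st d) (u ++ h0) i + st d e i := rfl
    rw [h2]
    have h3 : Real.exp (η * (((pos (st d) (u ++ h0) i + st d e i : ℤ) : ℝ) -
        ((pos (st d) h0 i : ℤ) : ℝ) - k * drift q i)) =
        Real.exp (η * (((pos (st d) (u ++ h0) i : ℤ) : ℝ) - ((pos (st d) h0 i : ℤ) : ℝ) -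
          k * drift q i)) * Real.exp (η * ((st d e i : ℤ) : ℝ)) := by
      rw [← Real.exp_add]
      congr 1
      push_cast
      ring
    rw [h3]
    ring

theorem mgf (q : Dr d → ℝ) (hq : PV q) (k : ℕ) (i : Fin d) (η : ℝ) (n : ℕ) (hk : k ≤ n) :
    Ex (st d) (fun _ => q) (fun h => Real.exp (η * Dd q k i h)) n [] =
      (∑ e, q e * Real.exp (η * (((st d e i : ℤ) : ℝ) - drift q i))) ^ k := by
  obtain ⟨m, rfl⟩ : ∃ m, n = m + k := ⟨n - k, by omega⟩
  rw [Ex_add]
  have h1 : ∀ h0 : List (Dr d), Ex (st d) (fun _ => q) (fun h => Real.exp (η * Dd q k i h)) k h0 =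
      (∑ e, q e * Real.exp (η * (((st d e i : ℤ) : ℝ) - drift q i))) ^ k := by
    intro h0
    have h2 := mgf_aux q k i η h0 k [] (by simp)
    rw [List.nil_append] at h2
    rw [h2]
    have h3 : (∑ e, q e * Real.exp (η * (((st d e i : ℤ) : ℝ) - drift q i))) =
        Real.exp (-(η * drift q i)) * ∑ e, q e * Real.exp (η * ((st d e i : ℤ) : ℝ)) := by
      rw [Finset.mul_sum]
      refine Finset.sum_congr rfl fun e _ => ?_
      have h4 : η * (((st d e i : ℤ) : ℝ) - drift q i) =
          -(η * drift q i) + η * ((st d e i : ℤ) : ℝ) := by ring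
      rw [h4, Real.exp_add]
      ring
    rw [h3, mul_pow, ← Real.exp_nat_mul]
    congr 2
    ring
  have h5 : (fun h => Ex (st d) (fun _ => q) (fun h => Real.exp (η * Dd q k i h)) k h) =
      fun _ => (∑ e, q e * Real.exp (η * (((st d e i : ℤ) : ℝ) - drift q i))) ^ k := by
    funext h
    exact h1 h
  rw [h5]
  exact Ex_const _ _ (fun _ => hq.2) _ _ _

theorem st_le (e : Dr d) (i : Fin d) : |((st d e i : ℤ) : ℝ)| ≤ 1 := by
  unfold st
  by_cases h : i = e.1
  · subst h
    rw [Pi.single_eq_same]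
    split_ifs <;> simp
  · rw [Pi.single_eq_of_ne h]
    simp

theorem drift_le (q : Dr d → ℝ) (hq : PV q) (i : Fin d) : |drift q i| ≤ 1 := by
  unfold drift
  refine (Finset.abs_sum_le_sum_abs _ _).trans ?_
  rw [← hq.2]
  refine Finset.sum_le_sum fun e _ => ?_
  rw [abs_mul, abs_of_nonneg (hq.1 e)]
  exact mul_le_of_le_one_right (hq.1 e) (st_le e i)

theorem one_step (q : Dr d → ℝ) (hq : PV q) (i : Fin d) (η : ℝ) :
    (∑ e, q e * Real.exp (η * (((st d e i : ℤ) : ℝ) - drift q i))) ≤ Real.exp (4 * η ^ 2) := by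
  have h1 : ∀ e, q e * Real.exp (η * (((st d e i : ℤ) : ℝ) - drift q i)) ≤
      q e * (η * (((st d e i : ℤ) : ℝ) - drift q i) + Real.exp (4 * η ^ 2)) := by
    intro e
    refine mul_le_mul_of_nonneg_left ((exp_le _).trans ?_) (hq.1 e)
    refine add_le_add_right (Real.exp_le_exp.2 ?_) _
    have h2 : |((st d e i : ℤ) : ℝ) - drift q i| ≤ 2 := by
      refine (abs_sub _ _).trans ?_
      linarith [st_le e i, drift_le q hq i]
    have h3 : (((st d e i : ℤ) : ℝ) - drift q i) ^ 2 ≤ 4 := by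
      rw [← sq_abs]
      nlinarith [abs_nonneg (((st d e i : ℤ) : ℝ) - drift q i)]
    rw [mul_pow]
    nlinarith [sq_nonneg η]
  refine (Finset.sum_le_sum fun e _ => h1 e).trans (le_of_eq ?_)
  have h4 : ∀ e, q e * (η * (((st d e i : ℤ) : ℝ) - drift q i) + Real.exp (4 * η ^ 2)) =
      η * (q e * ((st d e i : ℤ) : ℝ)) + q e * (Real.exp (4 * η ^ 2) - η * drift q i) := fun e => by
    ring
  rw [Finset.sum_congr rfl fun e _ => h4 e, Finset.sum_add_distrib, ← Finset.mul_sum, ← Finset.sum_mul,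
    hq.2]
  have h5 : (∑ e, q e * ((st d e i : ℤ) : ℝ)) = drift q i := rfl
  rw [h5]
  ring

theorem tail (q : Dr d → ℝ) (hq : PV q) (n k : ℕ) (a : ℝ) (hk : k ≤ n) (i : Fin d) (η : ℝ)
    (hη : η ^ 2 = (a / (8 * ((k : ℝ) + 1))) ^ 2) :
    Ex (st d) (fun _ => q) (fun h => Real.exp (η * Dd q k i h)) n [] ≤
      Real.exp (a ^ 2 / (16 * ((k : ℝ) + 1))) := by
  rw [mgf q hq k i η n hk]
  have h0 : 0 ≤ ∑ e, q e * Real.exp (η * (((st d e i : ℤ) : ℝ) - drift q i)) :=
    Finset.sum_nonneg fun e _ => mul_nonneg (hq.1 e) (Real.exp_nonneg _)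
  refine (pow_le_pow_left₀ h0 (one_step q hq i η) k).trans ?_
  rw [← Real.exp_nat_mul]
  refine Real.exp_le_exp.2 ?_
  rw [hη, div_pow]
  have hk0 : (0 : ℝ) ≤ (k : ℝ) := Nat.cast_nonneg k
  have h1 : (k : ℝ) * (4 * (a ^ 2 / (8 * ((k : ℝ) + 1)) ^ 2)) =
      a ^ 2 / (16 * ((k : ℝ) + 1)) * ((k : ℝ) / ((k : ℝ) + 1)) := by
    field_simp
    ring
  rw [h1]
  refine mul_le_of_le_one_right (by positivity) ?_
  rw [div_le_one (by positivity)]
  linarith

end Hf_aux

open Hf_aux in
/-- LARGE DEVIATIONS OF THE AVERAGED WALK. -/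
theorem tHf : S_Hf := by
  intro d q hq n k a hk ha
  set η : ℝ := a / (8 * ((k : ℝ) + 1)) with hη
  have hk0 : (0 : ℝ) ≤ (k : ℝ) := Nat.cast_nonneg k
  have hη0 : 0 ≤ η := by positivity
  have h1 : ∀ h : List (Dr d), (if ∃ i, a < |((pos (st d) h i : ℤ) : ℝ) -
      ((pos (st d) (h.drop k) i : ℤ) : ℝ) - k * drift q i| then (1 : ℝ) else 0) ≤
      ∑ i, (Real.exp (-(η * a)) * Real.exp (η * Dd q k i h) +
        Real.exp (-(η * a)) * Real.exp (-η * Dd q k i h)) := by
    intro h
    have h0 : ∀ i ∈ (Finset.univ : Finset (Fin d)), 0 ≤ Real.exp (-(η * a)) * Real.exp (η * Dd q k i h) +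
        Real.exp (-(η * a)) * Real.exp (-η * Dd q k i h) := fun i _ => by positivity
    split_ifs with hc
    · obtain ⟨i, hi⟩ := hc
      refine le_trans ?_ (Finset.single_le_sum h0 (Finset.mem_univ i))
      have hi' : a < |Dd q k i h| := hi
      rw [← Real.exp_add, ← Real.exp_add]
      rcases lt_abs.1 hi' with h2 | h2
      · have h3 : 1 ≤ Real.exp (-(η * a) + η * Dd q k i h) := by
          rw [Real.one_le_exp_iff]
          nlinarith
        linarith [Real.exp_nonneg (-(η * a) + -η * Dd q k i h)]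
      · have h3 : 1 ≤ Real.exp (-(η * a) + -η * Dd q k i h) := by
          rw [Real.one_le_exp_iff]
          nlinarith
        linarith [Real.exp_nonneg (-(η * a) + η * Dd q k i h)]
    · exact Finset.sum_nonneg h0
  refine (Ex_mono (st d) (fun _ => q) (fun _ e => hq.1 e) _ _ h1 n []).trans ?_
  rw [Ex_sum]
  have h2 : ∀ i, Ex (st d) (fun _ => q) (fun h => Real.exp (-(η * a)) * Real.exp (η * Dd q k i h) +
        Real.exp (-(η * a)) * Real.exp (-η * Dd q k i h)) n [] ≤
      2 * Real.exp (-(a ^ 2 / (16 * ((k : ℝ) + 1)))) := by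
    intro i
    have h3 : (fun h : List (Dr d) => Real.exp (-(η * a)) * Real.exp (η * Dd q k i h) +
        Real.exp (-(η * a)) * Real.exp (-η * Dd q k i h)) =
        fun h => Real.exp (-(η * a)) * ∑ b : Bool,
          (fun (b : Bool) (h : List (Dr d)) =>
            Real.exp ((if b then η else -η) * Dd q k i h)) b h := by
      funext h
      rw [Fintype.sum_bool, mul_add]
      simp
    rw [h3, Ex_mul, Ex_sum, Fintype.sum_bool]
    have h4 := tail q hq n k a hk i η rfl
    have h5 := tail q hq n k a hk i (-η) (by rw [neg_sq])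
    have h6 : Real.exp (-(η * a)) * Real.exp (a ^ 2 / (16 * ((k : ℝ) + 1))) =
        Real.exp (-(a ^ 2 / (16 * ((k : ℝ) + 1)))) := by
      rw [← Real.exp_add]
      congr 1
      rw [hη]
      field_simp
      ring
    have h7 := Real.exp_nonneg (-(η * a))
    calc Real.exp (-(η * a)) *
        (Ex (st d) (fun _ => q) (fun h => Real.exp ((if true then η else -η) * Dd q k i h)) n [] +
          Ex (st d) (fun _ => q) (fun h => Real.exp ((if false then η else -η) * Dd q k i h)) n [])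
        ≤ Real.exp (-(η * a)) * (Real.exp (a ^ 2 / (16 * ((k : ℝ) + 1))) +
            Real.exp (a ^ 2 / (16 * ((k : ℝ) + 1)))) := by
          refine mul_le_mul_of_nonneg_left (add_le_add ?_ ?_) h7
          · simpa using h4
          · simpa using h5
      _ = 2 * (Real.exp (-(η * a)) * Real.exp (a ^ 2 / (16 * ((k : ℝ) + 1)))) := by ring
      _ = _ := by rw [h6]
  refine (Finset.sum_le_sum fun i _ => h2 i).trans (le_of_eq ?_)
  rw [Finset.sum_const, Finset.card_univ, Fintype.card_fin, nsmul_eq_mul]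
  ring

end MP0d3db7NS
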