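import Pool.Agent.Lib.MP_0d3db7.NS.Spec

/-!
# MP_0d3db7_pr, theorem NS: interpolation between the check points
-/

set_option autoImplicit false

namespace MP0d3db7NS

open MeasureTheory ProbabilityTheory Filter Topology

namespace Ip_aux

lemma ck_le (n : ℕ) : ck n ≤ n := Nat.sub_le _ _

lemma sub_ck (n : ℕ) (hn : 1 ≤ n) : (n - ck n) * (Nat.log 2 n + 1) ≤ n := by
  have h1 : 2 ^ Nat.log 2 n ≤ n := Nat.pow_log_le_self 2 (by omega)
  have h2 : n - ck n ≤ 2 ^ Nat.log 2 n / (Nat.log 2 n + 1) ^ 2 := by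
    unfold ck
    have h3 : (n - 2 ^ Nat.log 2 n) % (2 ^ Nat.log 2 n / (Nat.log 2 n + 1) ^ 2 + 1) <
        2 ^ Nat.log 2 n / (Nat.log 2 n + 1) ^ 2 + 1 := Nat.mod_lt _ (Nat.succ_pos _)
    omega
  calc (n - ck n) * (Nat.log 2 n + 1)
      ≤ (2 ^ Nat.log 2 n / (Nat.log 2 n + 1) ^ 2) * (Nat.log 2 n + 1) ^ 2 := by
        refine Nat.mul_le_mul h2 ?_
        exact Nat.le_self_pow two_ne_zero _
    _ ≤ 2 ^ Nat.log 2 n := Nat.div_mul_le_self _ _
    _ ≤ n := h1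

lemma log_tendsto : Tendsto (Nat.log 2) atTop atTop :=
  tendsto_atTop.2 fun K => eventually_atTop.2 ⟨2 ^ K, fun _ hn =>
    Nat.le_log_of_pow_le one_lt_two hn⟩

lemma ev_small (a b : ℝ) (hb : 0 < b) : ∀ᶠ n : ℕ in atTop,
    a * (((n : ℝ) - ck n) / n) ≤ b := by
  have h1 : Tendsto (fun n : ℕ => |a| * (1 / ((Nat.log 2 n : ℝ) + 1))) atTop (𝓝 (|a| * 0)) :=
    (tendsto_one_div_add_atTop_nhds_zero_nat.comp log_tendsto).const_mul _
  rw [mul_zero] at h1
  filter_upwards [h1.eventually_lt_const hb, eventually_ge_atTop 1] with n h2 hn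
  have hn' : (0 : ℝ) < n := by exact_mod_cast hn
  have h3 : ((n : ℝ) - ck n) / n ≤ 1 / ((Nat.log 2 n : ℝ) + 1) := by
    rw [div_le_div_iff₀ hn' (by positivity), one_mul]
    have h4 : (((n - ck n : ℕ) : ℝ)) * ((Nat.log 2 n : ℝ) + 1) ≤ n := by
      exact_mod_cast sub_ck n hn
    rwa [Nat.cast_sub (ck_le n)] at h4
  have h5 : 0 ≤ ((n : ℝ) - ck n) / n := by
    refine div_nonneg ?_ hn'.le
    have : (ck n : ℝ) ≤ n := by exact_mod_cast ck_le n
    linarith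
  calc a * (((n : ℝ) - ck n) / n) ≤ |a| * (((n : ℝ) - ck n) / n) :=
        mul_le_mul_of_nonneg_right (le_abs_self a) h5
    _ ≤ |a| * (1 / ((Nat.log 2 n : ℝ) + 1)) := mul_le_mul_of_nonneg_left h3 (abs_nonneg a)
    _ ≤ b := h2.le

lemma ev_ck : ∀ᶠ n : ℕ in atTop, 1 ≤ ck n := by
  filter_upwards [ev_small 2 1 one_pos, eventually_ge_atTop 1] with n h1 hn
  by_contra h2
  have h3 : ck n = 0 := by omega
  have hn' : (0 : ℝ) < n := by exact_mod_cast hn
  rw [h3, Nat.cast_zero, sub_zero, div_self hn'.ne'] at h1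
  linarith

open Classical in
lemma pw (d : ℕ) (q : Dr d → ℝ) (g : EuclideanSpace ℝ (Fin d) → ℝ) (Λ : ℝ)
    (hg1 : ∀ y, |g y| ≤ 1) (hgL : ∀ y y', |g y - g y'| ≤ Λ * ‖y - y'‖) (j M n : ℕ) (hM : 1 ≤ M)
    (hn : 1 ≤ n) (hc : 1 ≤ ck n) (hsm : |Λ| * (((n : ℝ) - ck n) / n) ≤ 2 / M)
    (x x' : Fin d → ℤ) :
    |g (nrm q n x) - g (nrm q (ck n) x')| ≤
      2 * (if ∃ i, 1 / ((j : ℝ) + 1) * Real.sqrt n < |((x i : ℤ) : ℝ) - ((x' i : ℤ) : ℝ) -
        ((n - ck n : ℕ) : ℝ) * drift q i| then 1 else 0) +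
      1 * (1 * (|Λ| * (d * (1 / ((j : ℝ) + 1)))) + 2 * min 1 (‖nrm q (ck n) x'‖ / M)) := by
  have hM' : (0 : ℝ) < M := by exact_mod_cast hM
  have hn' : (0 : ℝ) < n := by exact_mod_cast hn
  have hc' : (0 : ℝ) < ck n := by exact_mod_cast hc
  have hcn : (ck n : ℝ) ≤ n := by exact_mod_cast ck_le n
  have hmin : 0 ≤ min 1 (‖nrm q (ck n) x'‖ / M) := le_min zero_le_one (by positivity)
  have hL : 0 ≤ |Λ| * (d * (1 / ((j : ℝ) + 1))) := by positivity
  have h2 : |g (nrm q n x) - g (nrm q (ck n) x')| ≤ 2 := by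
    have h3 := abs_sub (g (nrm q n x)) (g (nrm q (ck n) x'))
    have h4 := hg1 (nrm q n x)
    have h5 := hg1 (nrm q (ck n) x')
    linarith
  by_cases hbad : ∃ i, 1 / ((j : ℝ) + 1) * Real.sqrt n < |((x i : ℤ) : ℝ) - ((x' i : ℤ) : ℝ) -
        ((n - ck n : ℕ) : ℝ) * drift q i|
  · rw [if_pos hbad]
    linarith
  · rw [if_neg hbad]
    push Not at hbad
    have hsn : 0 < Real.sqrt n := Real.sqrt_pos.2 hn'
    have hsc : 0 < Real.sqrt (ck n) := Real.sqrt_pos.2 hc'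
    -- the decomposition
    let a : EuclideanSpace ℝ (Fin d) := WithLp.toLp 2 fun i =>
      (((x i : ℤ) : ℝ) - ((x' i : ℤ) : ℝ) - ((n - ck n : ℕ) : ℝ) * drift q i) / Real.sqrt n
    have hdec : nrm q n x - nrm q (ck n) x' =
        a + (Real.sqrt (ck n) / Real.sqrt n - 1) • nrm q (ck n) x' := by
      ext i
      show ((x i : ℝ) - n * drift q i) / Real.sqrt n -
          ((x' i : ℝ) - ck n * drift q i) / Real.sqrt (ck n) =
        (((x i : ℤ) : ℝ) - ((x' i : ℤ) : ℝ) - ((n - ck n : ℕ) : ℝ) * drift q i) / Real.sqrt n +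
          (Real.sqrt (ck n) / Real.sqrt n - 1) *
            (((x' i : ℝ) - ck n * drift q i) / Real.sqrt (ck n))
      rw [Nat.cast_sub (ck_le n)]
      field_simp
      ring
    have ha : ‖a‖ ≤ d * (1 / ((j : ℝ) + 1)) := by
      rw [EuclideanSpace.norm_eq]
      refine Real.sqrt_le_iff.2 ⟨by positivity, ?_⟩
      have h3 : ∀ i ∈ (Finset.univ : Finset (Fin d)), ‖a i‖ ^ 2 ≤ (1 / ((j : ℝ) + 1)) ^ 2 := by
        intro i _
        refine pow_le_pow_left₀ (norm_nonneg _) ?_ 2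
        show |(((x i : ℤ) : ℝ) - ((x' i : ℤ) : ℝ) - ((n - ck n : ℕ) : ℝ) * drift q i) /
          Real.sqrt n| ≤ _
        rw [abs_div, abs_of_pos hsn, div_le_iff₀ hsn]
        exact hbad i
      have h4 := Finset.sum_le_sum h3
      rw [Finset.sum_const, Finset.card_univ, Fintype.card_fin, nsmul_eq_mul] at h4
      have h5 : (d : ℝ) ≤ (d : ℝ) ^ 2 := by exact_mod_cast Nat.le_self_pow two_ne_zero d
      calc ∑ i, ‖a i‖ ^ 2 ≤ (d : ℝ) * (1 / ((j : ℝ) + 1)) ^ 2 := h4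
        _ ≤ (d : ℝ) ^ 2 * (1 / ((j : ℝ) + 1)) ^ 2 :=
          mul_le_mul_of_nonneg_right h5 (by positivity)
        _ = (d * (1 / ((j : ℝ) + 1))) ^ 2 := by ring
    have hr : ‖(Real.sqrt (ck n) / Real.sqrt n - 1) • nrm q (ck n) x'‖ ≤
        (((n : ℝ) - ck n) / n) * ‖nrm q (ck n) x'‖ := by
      rw [norm_smul]
      refine mul_le_mul_of_nonneg_right ?_ (norm_nonneg _)
      have h3 : Real.sqrt (ck n) / Real.sqrt n = Real.sqrt (ck n / n) :=
        (Real.sqrt_div hc'.le _).symm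
      have h4 : (ck n : ℝ) / n ≤ 1 := (div_le_one hn').2 hcn
      have h5 : 0 ≤ (ck n : ℝ) / n := by positivity
      have h6 : Real.sqrt (ck n / n) ≤ 1 := Real.sqrt_le_one.2 h4
      have h7 : (ck n : ℝ) / n ≤ Real.sqrt (ck n / n) := by
        have h8 := Real.mul_self_sqrt h5
        have h9 := Real.sqrt_nonneg ((ck n : ℝ) / n)
        nlinarith
      rw [h3, Real.norm_eq_abs, abs_of_nonpos (by linarith), sub_div, div_self hn'.ne']
      linarith
    have hsum : |g (nrm q n x) - g (nrm q (ck n) x')| ≤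
        |Λ| * (d * (1 / ((j : ℝ) + 1))) + 2 * (‖nrm q (ck n) x'‖ / M) := by
      calc |g (nrm q n x) - g (nrm q (ck n) x')| ≤ Λ * ‖nrm q n x - nrm q (ck n) x'‖ := hgL _ _
        _ ≤ |Λ| * ‖nrm q n x - nrm q (ck n) x'‖ :=
          mul_le_mul_of_nonneg_right (le_abs_self Λ) (norm_nonneg _)
        _ ≤ |Λ| * (d * (1 / ((j : ℝ) + 1)) + (((n : ℝ) - ck n) / n) * ‖nrm q (ck n) x'‖) := by
          refine mul_le_mul_of_nonneg_left ?_ (abs_nonneg Λ)
          rw [hdec]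
          exact (norm_add_le _ _).trans (add_le_add ha hr)
        _ = |Λ| * (d * (1 / ((j : ℝ) + 1))) +
            (|Λ| * (((n : ℝ) - ck n) / n)) * ‖nrm q (ck n) x'‖ := by ring
        _ ≤ |Λ| * (d * (1 / ((j : ℝ) + 1))) + (2 / M) * ‖nrm q (ck n) x'‖ := by
          have := mul_le_mul_of_nonneg_right hsm (norm_nonneg (nrm q (ck n) x'))
          linarith
        _ = |Λ| * (d * (1 / ((j : ℝ) + 1))) + 2 * (‖nrm q (ck n) x'‖ / M) := by ring
    rcases le_total (‖nrm q (ck n) x'‖ / M) 1 with h3 | h3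
    · rw [min_eq_right h3]
      linarith
    · rw [min_eq_left h3]
      linarith

lemma abs_Ex_le (hPa : S_Pa) (d : ℕ) (w : (Fin d → ℤ) × ℕ → Dr d → ℝ) (hw : ∀ κ, PV (w κ))
    (Φ Ψ : List (Dr d) → ℝ) (n : ℕ) (h : ∀ h', |Φ h'| ≤ Ψ h') :
    |Ex (st d) w Φ n []| ≤ Ex (st d) w Ψ n [] := by
  obtain ⟨-, -, h3, h4, -, -⟩ := hPa (st d) w
  rw [abs_le]
  constructor
  · have h5 := h4 hw (fun h => (-1) * Ψ h + 0 * Ψ h) Φ n [] (fun h' _ => by
      have := neg_abs_le (Φ h')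
      have := h h'
      linarith)
    rw [h3] at h5
    linarith
  · exact h4 hw Φ Ψ n [] (fun h' _ => (le_abs_self _).trans (h h'))

end Ip_aux

open Classical Ip_aux in
theorem tIp (hPa : S_Pa) : S_Ip := by
  intro d q _ w hw hbad htight g Λ hg1 hgL
  obtain ⟨-, -, h3, -, h5, h6⟩ := hPa (st d) w
  rw [Metric.tendsto_nhds]
  intro η hη
  obtain ⟨j, hj⟩ := exists_nat_one_div_lt (show 0 < η / (4 * (|Λ| * d + 1)) by positivity)
  obtain ⟨M, hM⟩ := exists_nat_gt (8 / η)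
  have hMr : (0 : ℝ) < M := lt_trans (by positivity) hM
  have hM1 : 1 ≤ M := by
    have : 0 < M := by exact_mod_cast hMr
    omega
  have e1 := (Metric.tendsto_nhds.1 (hbad j)) (η / 8) (by positivity)
  have e2 := htight M hM1 (η / 16) (by positivity)
  have e3 := ev_small |Λ| (2 / M) (by positivity)
  filter_upwards [e1, e2, e3, ev_ck, eventually_ge_atTop 1] with n f1 f2 f3 f4 f5
  rw [dist_zero_right, Real.norm_eq_abs] at f1 ⊢
  have hnk : ck n + (n - ck n) = n := by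
    have := ck_le n
    omega
  have g1 : Ex (st d) w (fun h => g (nrm q (ck n) (pos (st d) h))) (ck n) [] =
      Ex (st d) w (fun h => g (nrm q (ck n) (pos (st d) (h.drop (n - ck n))))) n [] := by
    have := h6 hw (fun h => g (nrm q (ck n) (pos (st d) h))) (ck n) (n - ck n)
    rw [hnk] at this
    exact this.symm
  have g2 : Ex (st d) w (fun h => min 1 (‖nrm q (ck n) (pos (st d) h)‖ / M)) (ck n) [] =
      Ex (st d) w (fun h => min 1 (‖nrm q (ck n) (pos (st d) (h.drop (n - ck n)))‖ / M)) n [] := by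
    have := h6 hw (fun h => min 1 (‖nrm q (ck n) (pos (st d) h)‖ / M)) (ck n) (n - ck n)
    rw [hnk] at this
    exact this.symm
  have g3 : Ex (st d) w (fun h => g (nrm q n (pos (st d) h))) n [] -
      Ex (st d) w (fun h => g (nrm q (ck n) (pos (st d) h))) (ck n) [] =
      Ex (st d) w (fun h => 1 * g (nrm q n (pos (st d) h)) +
        (-1) * g (nrm q (ck n) (pos (st d) (h.drop (n - ck n))))) n [] := by
    rw [h3, g1]
    ring
  rw [g3]
  have g4 := abs_Ex_le hPa d w hw (fun h => 1 * g (nrm q n (pos (st d) h)) +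
      (-1) * g (nrm q (ck n) (pos (st d) (h.drop (n - ck n)))))
      (fun h => 2 * (if ∃ i, 1 / ((j : ℝ) + 1) * Real.sqrt n <
          |((pos (st d) h i : ℤ) : ℝ) - ((pos (st d) (h.drop (n - ck n)) i : ℤ) : ℝ) -
            ((n - ck n : ℕ) : ℝ) * drift q i| then 1 else 0) +
        1 * (1 * (|Λ| * (d * (1 / ((j : ℝ) + 1)))) +
          2 * min 1 (‖nrm q (ck n) (pos (st d) (h.drop (n - ck n)))‖ / M))) n (fun h' => by
        have := pw d q g Λ hg1 hgL j M n hM1 f5 f4 f3 (pos (st d) h')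
          (pos (st d) (h'.drop (n - ck n)))
        rw [one_mul, neg_one_mul, ← sub_eq_add_neg]
        exact this)
  rw [h3 _ _ 2 1, h3 _ _ 1 2, h5 hw, ← g2] at g4
  have k1 : |Λ| * (d * (1 / ((j : ℝ) + 1))) ≤ η / 4 := by
    have hp : 0 < |Λ| * d + 1 := by positivity
    have k2 : |Λ| * (d * (1 / ((j : ℝ) + 1))) ≤ (|Λ| * d + 1) * (1 / ((j : ℝ) + 1)) := by
      have : 0 < 1 / ((j : ℝ) + 1) := by positivity
      nlinarith
    have k3 : (|Λ| * d + 1) * (1 / ((j : ℝ) + 1)) ≤ (|Λ| * d + 1) * (η / (4 * (|Λ| * d + 1))) :=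
      mul_le_mul_of_nonneg_left hj.le hp.le
    have k4 : (|Λ| * d + 1) * (η / (4 * (|Λ| * d + 1))) = η / 4 := by
      field_simp
    linarith
  have k5 : 2 * (1 / (M : ℝ)) < η / 4 := by
    rw [mul_one_div, div_lt_iff₀ hMr]
    rw [div_lt_iff₀ hη] at hM
    linarith
  have k6 := (abs_lt.1 f1).2
  refine lt_of_le_of_lt g4 ?_
  linarith

end MP0d3db7NS
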