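import Pool.Agent.Lib.MP_0d3db7.NS.Spec

/-!
# MP_0d3db7_pr, theorem NS, module L2: sums of `hh` over tuples (helper28)
-/

set_option autoImplicit false

namespace MP0d3db7NS

open MeasureTheory ProbabilityTheory Filter Topology

namespace L2_aux

section one

variable {V : Type} [DecidableEq V]

/-- sums over tuples: split off the member number `l` -/
theorem reidx {k : ℕ} (l : Fin (k + 1)) (B : Finset V) (F : (Fin (k + 1) → V) → ℝ) :
    ∑ Z ∈ Fintype.piFinset (fun _ : Fin (k + 1) => B), F Z =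
    ∑ y ∈ B, ∑ Z' ∈ Fintype.piFinset (fun _ : Fin k => B),
      F (Fin.insertNth (α := fun _ => V) l y Z') := by
  rw [← Finset.sum_product']
  refine Finset.sum_nbij' (fun Z => (Z l, rmv l Z))
    (fun p => Fin.insertNth (α := fun _ => V) l p.1 p.2) ?_ ?_ ?_ ?_ ?_
  · intro Z hZ
    rw [Fintype.mem_piFinset] at hZ
    rw [Finset.mem_product, Fintype.mem_piFinset]
    exact ⟨hZ l, fun j => hZ _⟩
  · intro p hp
    rw [Finset.mem_product, Fintype.mem_piFinset] at hp
    rw [Fintype.mem_piFinset]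
    intro j
    rcases Fin.eq_self_or_eq_succAbove l j with h | ⟨j', h⟩
    · rw [h, Fin.insertNth_apply_same]; exact hp.1
    · rw [h, Fin.insertNth_apply_succAbove]; exact hp.2 j'
  · intro Z _
    funext j
    rcases Fin.eq_self_or_eq_succAbove l j with h | ⟨j', h⟩
    · rw [h, Fin.insertNth_apply_same]
    · rw [h, Fin.insertNth_apply_succAbove]; rfl
  · intro p _
    refine Prod.ext ?_ ?_
    · exact Fin.insertNth_apply_same (α := fun _ => V) l p.1 p.2
    · funext j
      exact Fin.insertNth_apply_succAbove (α := fun _ => V) l p.1 p.2 j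
  · intro Z _
    refine congrArg F ?_
    funext j
    rcases Fin.eq_self_or_eq_succAbove l j with h | ⟨j', h⟩
    · rw [h, Fin.insertNth_apply_same]
    · rw [h, Fin.insertNth_apply_succAbove]; rfl

theorem rmv_ins {k : ℕ} (l : Fin (k + 1)) (y : V) (Z' : Fin k → V) :
    rmv l (Fin.insertNth (α := fun _ => V) l y Z') = Z' := by
  funext j
  exact Fin.insertNth_apply_succAbove (α := fun _ => V) l y Z' j

theorem ins_same {k : ℕ} (l : Fin (k + 1)) (y : V) (Z' : Fin k → V) :
    (Fin.insertNth (α := fun _ => V) l y Z' : Fin (k + 1) → V) l = y :=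
  Fin.insertNth_apply_same (α := fun _ => V) l y Z'

theorem ins_succ {k : ℕ} (l : Fin (k + 1)) (y : V) (Z' : Fin k → V) (j : Fin k) :
    (Fin.insertNth (α := fun _ => V) l y Z' : Fin (k + 1) → V) (l.succAbove j) = Z' j :=
  Fin.insertNth_apply_succAbove (α := fun _ => V) l y Z' j

/-- the abstract step, first claim: one product -/
theorem one1 {k : ℕ} (H : (Fin k → V) → V → ℝ) (γ : V → ℝ) (A g2 : ℝ) (B : Finset V)
    (hA : 0 ≤ A) (hγ : ∀ z, 0 ≤ γ z) (hg : ∑ z ∈ B, γ z ≤ g2)
    (h1 : ∀ x, ∑ Z ∈ Fintype.piFinset (fun _ : Fin k => B), H Z x ≤ A)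
    (h2 : ∀ (j : Fin k) (z : V), ∑ x ∈ B, ∑ Z ∈ (Fintype.piFinset (fun _ : Fin k => B)).filter
      (fun Z => Z j = z), H Z x ≤ A) (l j : Fin (k + 1)) :
    ∑ Z ∈ Fintype.piFinset (fun _ : Fin (k + 1) => B), H (rmv l Z) (Z l) * γ (Z j) ≤ g2 * A := by
  have key : ∑ z ∈ B, γ z * A ≤ g2 * A := by
    rw [← Finset.sum_mul]
    exact mul_le_mul_of_nonneg_right hg hA
  rw [reidx l]
  rcases Fin.eq_self_or_eq_succAbove l j with h | ⟨j', h⟩
  · subst h
    refine le_trans ?_ key
    refine Finset.sum_le_sum fun y _ => ?_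
    have : ∑ Z' ∈ Fintype.piFinset (fun _ : Fin k => B),
        H (rmv j (Fin.insertNth (α := fun _ => V) j y Z'))
          ((Fin.insertNth (α := fun _ => V) j y Z' : Fin (k + 1) → V) j) *
          γ ((Fin.insertNth (α := fun _ => V) j y Z' : Fin (k + 1) → V) j) =
        γ y * ∑ Z' ∈ Fintype.piFinset (fun _ : Fin k => B), H Z' y := by
      rw [Finset.mul_sum]
      refine Finset.sum_congr rfl fun Z' _ => ?_
      rw [rmv_ins, ins_same, mul_comm]
    rw [this]
    exact mul_le_mul_of_nonneg_left (h1 y) (hγ y)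
  · subst h
    refine le_trans ?_ key
    have e1 : ∀ y ∈ B, ∑ Z' ∈ Fintype.piFinset (fun _ : Fin k => B),
        H (rmv l (Fin.insertNth (α := fun _ => V) l y Z'))
          ((Fin.insertNth (α := fun _ => V) l y Z' : Fin (k + 1) → V) l) *
          γ ((Fin.insertNth (α := fun _ => V) l y Z' : Fin (k + 1) → V) (l.succAbove j')) =
        ∑ z ∈ B, γ z * ∑ Z' ∈ (Fintype.piFinset (fun _ : Fin k => B)).filter
          (fun Z => Z j' = z), H Z' y := by
      intro y _
      have e2 : ∑ z ∈ B, ∑ Z' ∈ (Fintype.piFinset (fun _ : Fin k => B)).filter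
          (fun Z => Z j' = z), H Z' y * γ (Z' j') =
          ∑ Z' ∈ Fintype.piFinset (fun _ : Fin k => B), H Z' y * γ (Z' j') := by
        refine Finset.sum_fiberwise_of_maps_to (g := fun Z : Fin k → V => Z j') ?_ _
        intro Z hZ
        rw [Fintype.mem_piFinset] at hZ
        exact hZ j'
      calc _ = ∑ Z' ∈ Fintype.piFinset (fun _ : Fin k => B), H Z' y * γ (Z' j') := by
            refine Finset.sum_congr rfl fun Z' _ => ?_
            rw [rmv_ins, ins_same, ins_succ]
        _ = _ := by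
            rw [← e2]
            refine Finset.sum_congr rfl fun z _ => ?_
            rw [Finset.mul_sum]
            refine Finset.sum_congr rfl fun Z' hZ' => ?_
            rw [Finset.mem_filter] at hZ'
            rw [hZ'.2, mul_comm]
    rw [Finset.sum_congr rfl e1, Finset.sum_comm]
    refine Finset.sum_le_sum fun z _ => ?_
    rw [← Finset.mul_sum]
    exact mul_le_mul_of_nonneg_left (h2 j' z) (hγ z)

/-- the abstract step, second claim: the inner sum -/
theorem one2 {k : ℕ} (H : (Fin k → V) → V → ℝ) (A : ℝ) (B : Finset V) (hA : 0 ≤ A)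
    (h1 : ∀ x, ∑ Z ∈ Fintype.piFinset (fun _ : Fin k => B), H Z x ≤ A)
    (h2 : ∀ (j : Fin k) (z : V), ∑ x ∈ B, ∑ Z ∈ (Fintype.piFinset (fun _ : Fin k => B)).filter
      (fun Z => Z j = z), H Z x ≤ A) (l i : Fin (k + 1)) (z : V) :
    ∑ Z ∈ (Fintype.piFinset (fun _ : Fin (k + 1) => B)).filter (fun Z => Z i = z),
      H (rmv l Z) (Z l) ≤ A := by
  rw [Finset.sum_filter, reidx l]
  rcases Fin.eq_self_or_eq_succAbove l i with h | ⟨i', h⟩
  · subst h
    have e1 : ∀ y ∈ B, (∑ Z' ∈ Fintype.piFinset (fun _ : Fin k => B),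
        if (Fin.insertNth (α := fun _ => V) i y Z' : Fin (k + 1) → V) i = z then
          H (rmv i (Fin.insertNth (α := fun _ => V) i y Z'))
          ((Fin.insertNth (α := fun _ => V) i y Z' : Fin (k + 1) → V) i) else 0) =
        if y = z then ∑ Z' ∈ Fintype.piFinset (fun _ : Fin k => B), H Z' z else 0 := by
      intro y _
      split_ifs with hy
      · refine Finset.sum_congr rfl fun Z' _ => ?_
        rw [rmv_ins, ins_same, if_pos hy, hy]
      · refine Finset.sum_eq_zero fun Z' _ => ?_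
        rw [ins_same, if_neg hy]
    rw [Finset.sum_congr rfl e1, Finset.sum_ite_eq']
    split_ifs
    · exact h1 z
    · exact hA
  · subst h
    refine le_trans (le_of_eq ?_) (h2 i' z)
    refine Finset.sum_congr rfl fun y _ => ?_
    rw [Finset.sum_filter]
    refine Finset.sum_congr rfl fun Z' _ => ?_
    rw [rmv_ins, ins_same, ins_succ]

end one

section two

variable {V E : Type} [AddCommGroup V] [DecidableEq V] [Fintype E]

theorem Gam_nonneg (s : E → V) (q : E → ℝ) (hq : PV q) (n : ℕ) (x z : V) :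
    0 ≤ Gam s q n x z :=
  Finset.sum_nonneg fun a _ => Finset.sum_nonneg fun e _ =>
    mul_nonneg (mul_nonneg (hq.1 a) (hq.1 e)) (sq_nonneg _)

theorem AA_nonneg (L G g2 : ℝ) (hg : 0 ≤ g2) : ∀ k, 0 ≤ AA L G g2 k
  | 0 => sq_nonneg L
  | k + 1 => by
      have h := AA_nonneg L G g2 hg k
      have : 0 ≤ 4 * G ^ 2 * ((k : ℝ) + 1) ^ 4 * g2 * AA L G g2 k := by positivity
      exact this

end two

end L2_aux

open L2_aux in
theorem tL2 : S_L2 := by
  intro V E _ _ _ s q hq n L G g2 hg1 hg2 k
  have hg : 0 ≤ g2 := by simpa using hg1 ∅ 0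
  induction k with
  | zero =>
    intro B
    refine ⟨fun x => ?_, fun j => j.elim0⟩
    have h : ∀ Z ∈ Fintype.piFinset (fun _ : Fin 0 => B), hh s q n L G 0 Z x = L ^ 2 :=
      fun Z _ => rfl
    rw [Finset.sum_congr rfl h, Finset.sum_const, Fintype.card_piFinset]
    simp [AA]
  | succ k ih =>
    intro B
    obtain ⟨h1, h2⟩ := ih B
    have hA := AA_nonneg L G g2 hg k
    have hc : 0 ≤ 4 * ((k : ℝ) + 1) ^ 2 * G ^ 2 := by positivity
    have hexp : ∀ (Z : Fin (k + 1) → V) (x : V), hh s q n L G (k + 1) Z x =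
        4 * ((k : ℝ) + 1) ^ 2 * G ^ 2 * ∑ l, ∑ j,
          hh s q n L G k (rmv l Z) (Z l) * Gam s q n x (Z j) := by
      intro Z x
      have : hh s q n L G (k + 1) Z x = 4 * ((k : ℝ) + 1) ^ 2 * G ^ 2 *
        (∑ l, hh s q n L G k (rmv l Z) (Z l)) * ∑ j, Gam s q n x (Z j) := rfl
      rw [this, mul_assoc, Finset.sum_mul_sum]
    have hfin : 4 * ((k : ℝ) + 1) ^ 2 * G ^ 2 * ∑ _l : Fin (k + 1), ∑ _j : Fin (k + 1),
        g2 * AA L G g2 k = AA L G g2 (k + 1) := by
      have : AA L G g2 (k + 1) = 4 * G ^ 2 * ((k : ℝ) + 1) ^ 4 * g2 * AA L G g2 k := rfl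
      rw [this]
      simp only [Finset.sum_const, Finset.card_univ, Fintype.card_fin, nsmul_eq_mul]
      push_cast
      ring
    refine ⟨fun x => ?_, fun i z => ?_⟩
    · calc ∑ Z ∈ Fintype.piFinset (fun _ : Fin (k + 1) => B), hh s q n L G (k + 1) Z x
          = 4 * ((k : ℝ) + 1) ^ 2 * G ^ 2 * ∑ l, ∑ j,
            ∑ Z ∈ Fintype.piFinset (fun _ : Fin (k + 1) => B),
              hh s q n L G k (rmv l Z) (Z l) * Gam s q n x (Z j) := by
            rw [Finset.sum_congr rfl fun Z _ => hexp Z x, ← Finset.mul_sum, Finset.sum_comm]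
            refine congrArg _ (Finset.sum_congr rfl fun l _ => ?_)
            rw [Finset.sum_comm]
        _ ≤ 4 * ((k : ℝ) + 1) ^ 2 * G ^ 2 * ∑ _l : Fin (k + 1), ∑ _j : Fin (k + 1),
            g2 * AA L G g2 k := by
            refine mul_le_mul_of_nonneg_left ?_ hc
            refine Finset.sum_le_sum fun l _ => Finset.sum_le_sum fun j _ => ?_
            exact one1 (fun Z x => hh s q n L G k Z x) (fun z => Gam s q n x z) _ g2 B hA
              (fun z => Gam_nonneg s q hq n x z) (hg1 B x) h1 h2 l j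
        _ = _ := hfin
    · have hnn : ∀ (k : ℕ) (Z : Fin k → V) (x : V), 0 ≤ hh s q n L G k Z x := by
        intro k
        induction k with
        | zero => exact fun Z x => sq_nonneg L
        | succ k ih2 =>
          intro Z x
          have : hh s q n L G (k + 1) Z x = 4 * ((k : ℝ) + 1) ^ 2 * G ^ 2 *
            (∑ l, hh s q n L G k (rmv l Z) (Z l)) * ∑ j, Gam s q n x (Z j) := rfl
          rw [this]
          have a1 : 0 ≤ ∑ l, hh s q n L G k (rmv l Z) (Z l) :=
            Finset.sum_nonneg fun l _ => ih2 _ _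
          have a2 : 0 ≤ ∑ j, Gam s q n x (Z j) :=
            Finset.sum_nonneg fun j _ => Gam_nonneg s q hq n x _
          positivity
      calc ∑ x ∈ B, ∑ Z ∈ (Fintype.piFinset (fun _ : Fin (k + 1) => B)).filter
            (fun Z => Z i = z), hh s q n L G (k + 1) Z x
          = 4 * ((k : ℝ) + 1) ^ 2 * G ^ 2 * ∑ l, ∑ j,
            ∑ Z ∈ (Fintype.piFinset (fun _ : Fin (k + 1) => B)).filter (fun Z => Z i = z),
              hh s q n L G k (rmv l Z) (Z l) * ∑ x ∈ B, Gam s q n x (Z j) := by
            rw [Finset.sum_comm]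
            simp only [hexp]
            have e1 : ∀ Z : Fin (k + 1) → V, ∑ x ∈ B, 4 * ((k : ℝ) + 1) ^ 2 * G ^ 2 *
                ∑ l, ∑ j, hh s q n L G k (rmv l Z) (Z l) * Gam s q n x (Z j) =
                4 * ((k : ℝ) + 1) ^ 2 * G ^ 2 * ∑ l, ∑ j,
                hh s q n L G k (rmv l Z) (Z l) * ∑ x ∈ B, Gam s q n x (Z j) := by
              intro Z
              rw [← Finset.mul_sum, Finset.sum_comm]
              refine congrArg _ (Finset.sum_congr rfl fun l _ => ?_)
              rw [Finset.sum_comm]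
              refine Finset.sum_congr rfl fun j _ => ?_
              rw [Finset.mul_sum]
            rw [Finset.sum_congr rfl fun Z _ => e1 Z, ← Finset.mul_sum, Finset.sum_comm]
            refine congrArg _ (Finset.sum_congr rfl fun l _ => ?_)
            rw [Finset.sum_comm]
        _ ≤ 4 * ((k : ℝ) + 1) ^ 2 * G ^ 2 * ∑ _l : Fin (k + 1), ∑ _j : Fin (k + 1),
            g2 * AA L G g2 k := by
            refine mul_le_mul_of_nonneg_left ?_ hc
            refine Finset.sum_le_sum fun l _ => Finset.sum_le_sum fun j _ => ?_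
            calc _ ≤ ∑ Z ∈ (Fintype.piFinset (fun _ : Fin (k + 1) => B)).filter
                  (fun Z => Z i = z), hh s q n L G k (rmv l Z) (Z l) * g2 :=
                  Finset.sum_le_sum fun Z _ =>
                    mul_le_mul_of_nonneg_left (hg2 B (Z j)) (hnn k _ _)
              _ = g2 * ∑ Z ∈ (Fintype.piFinset (fun _ : Fin (k + 1) => B)).filter
                  (fun Z => Z i = z), hh s q n L G k (rmv l Z) (Z l) := by
                  rw [← Finset.sum_mul, mul_comm]
              _ ≤ g2 * AA L G g2 k :=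
                  mul_le_mul_of_nonneg_left
                    (one2 (fun Z x => hh s q n L G k Z x) _ B hA h1 h2 l i z) hg
        _ = _ := hfin

end MP0d3db7NS
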