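import Pool.Agent.Lib.MP_0d3db7.NS.Spec

/-!
# MP_0d3db7_pr, theorem NS, module Lg: logarithmic bounds of the Green function and its gradient
-/

set_option autoImplicit false

namespace MP0d3db7NS

open MeasureTheory ProbabilityTheory Filter Topology

namespace Lg_aux

theorem harm (n : ℕ) : ∑ t ∈ Finset.range n, 1 / ((t : ℝ) + 1) ≤ 1 + Real.log n := by
  have h := harmonic_le_one_add_log n
  have h1 : ((harmonic n : ℚ) : ℝ) = ∑ t ∈ Finset.range n, 1 / ((t : ℝ) + 1) := by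
    rw [harmonic]
    push_cast
    refine Finset.sum_congr rfl fun t _ => ?_
    rw [one_div]
  rw [← h1]
  exact h

/-- weighted Cauchy-Schwarz -/
theorem cs (n : ℕ) (D : ℕ → ℝ) : (∑ t ∈ Finset.range n, |D t|) ^ 2 ≤
    (∑ t ∈ Finset.range n, 1 / ((t : ℝ) + 1)) * ∑ t ∈ Finset.range n, ((t : ℝ) + 1) * D t ^ 2 := by
  apply Finset.sum_sq_le_sum_mul_sum_of_sq_le_mul
  · intro t _
    positivity
  · intro t _
    positivity
  · intro t _
    have : ((t : ℝ) + 1) ≠ 0 := by positivity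
    apply le_of_eq
    rw [sq_abs]
    field_simp

theorem core {E ι : Type} [Fintype E] (q : E → ℝ) (hq : ∀ e, 0 ≤ q e) (B : Finset ι) (n : ℕ)
    (D : ℕ → E → E → ι → ℝ) (K : ℝ) (hK : 0 ≤ K)
    (h : ∀ t, ∑ a, ∑ e, q a * q e * ∑ z ∈ B, D t a e z ^ 2 ≤ K / ((t : ℝ) + 1) ^ 2) :
    ∑ z ∈ B, ∑ a, ∑ e, q a * q e * (∑ t ∈ Finset.range n, |D t a e z|) ^ 2 ≤
      K * (1 + Real.log n) ^ 2 := by
  set W : ℝ := ∑ t ∈ Finset.range n, 1 / ((t : ℝ) + 1) with hW
  have hW0 : 0 ≤ W := Finset.sum_nonneg fun t _ => by positivity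
  have hWl : W ≤ 1 + Real.log n := harm n
  have h1 : ∑ z ∈ B, ∑ a, ∑ e, q a * q e * (∑ t ∈ Finset.range n, |D t a e z|) ^ 2 ≤
      ∑ z ∈ B, ∑ a, ∑ e, q a * q e * (W * ∑ t ∈ Finset.range n, ((t : ℝ) + 1) * D t a e z ^ 2) := by
    refine Finset.sum_le_sum fun z _ => Finset.sum_le_sum fun a _ => Finset.sum_le_sum fun e _ => ?_
    exact mul_le_mul_of_nonneg_left (cs n fun t => D t a e z) (mul_nonneg (hq a) (hq e))
  have h2 : ∑ z ∈ B, ∑ a, ∑ e, q a * q e *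
      (W * ∑ t ∈ Finset.range n, ((t : ℝ) + 1) * D t a e z ^ 2) =
      ∑ t ∈ Finset.range n, W * ((t : ℝ) + 1) * ∑ a, ∑ e, q a * q e * ∑ z ∈ B, D t a e z ^ 2 := by
    have e1 : ∀ z ∈ B, ∑ a, ∑ e, q a * q e *
        (W * ∑ t ∈ Finset.range n, ((t : ℝ) + 1) * D t a e z ^ 2) =
        ∑ t ∈ Finset.range n, ∑ a, ∑ e, W * ((t : ℝ) + 1) * (q a * q e * D t a e z ^ 2) := by
      intro z _
      conv_rhs => rw [Finset.sum_comm]
      refine Finset.sum_congr rfl fun a _ => ?_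
      conv_rhs => rw [Finset.sum_comm]
      refine Finset.sum_congr rfl fun e _ => ?_
      rw [Finset.mul_sum, Finset.mul_sum]
      refine Finset.sum_congr rfl fun t _ => ?_
      ring
    rw [Finset.sum_congr rfl e1, Finset.sum_comm]
    refine Finset.sum_congr rfl fun t _ => ?_
    rw [Finset.sum_comm, Finset.mul_sum]
    refine Finset.sum_congr rfl fun a _ => ?_
    rw [Finset.sum_comm, Finset.mul_sum]
    refine Finset.sum_congr rfl fun e _ => ?_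
    rw [Finset.mul_sum, Finset.mul_sum]
  have h3 : ∑ t ∈ Finset.range n, W * ((t : ℝ) + 1) *
      ∑ a, ∑ e, q a * q e * ∑ z ∈ B, D t a e z ^ 2 ≤
      ∑ t ∈ Finset.range n, K * W * (1 / ((t : ℝ) + 1)) := by
    refine Finset.sum_le_sum fun t _ => ?_
    have ht : (0 : ℝ) < (t : ℝ) + 1 := by positivity
    calc W * ((t : ℝ) + 1) * ∑ a, ∑ e, q a * q e * ∑ z ∈ B, D t a e z ^ 2 ≤
        W * ((t : ℝ) + 1) * (K / ((t : ℝ) + 1) ^ 2) :=
          mul_le_mul_of_nonneg_left (h t) (mul_nonneg hW0 ht.le)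
      _ = K * W * (1 / ((t : ℝ) + 1)) := by
          field_simp
  have h4 : ∑ t ∈ Finset.range n, K * W * (1 / ((t : ℝ) + 1)) = K * W ^ 2 := by
    rw [← Finset.mul_sum, ← hW]
    ring
  calc _ ≤ K * W ^ 2 := by
        rw [← h4]
        exact h1.trans (h2.le.trans h3)
    _ ≤ _ := mul_le_mul_of_nonneg_left (pow_le_pow_left₀ hW0 hWl 2) hK

theorem half (C : ℝ) (hC : 0 ≤ C) (t : ℕ) :
    2 * (C / (((t / 2 : ℕ) : ℝ) + 1)) / (((t / 2 : ℕ) : ℝ) + 1) ≤ 8 * C / ((t : ℝ) + 1) ^ 2 := by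
  have h0 : (t : ℝ) + 1 ≤ 2 * (((t / 2 : ℕ) : ℝ) + 1) := by
    have : t + 1 ≤ 2 * (t / 2 + 1) := by omega
    exact_mod_cast this
  have h1 : (0 : ℝ) < (t : ℝ) + 1 := by positivity
  have h2 : (0 : ℝ) < ((t / 2 : ℕ) : ℝ) + 1 := by positivity
  have h3 : 2 * (C / (((t / 2 : ℕ) : ℝ) + 1)) / (((t / 2 : ℕ) : ℝ) + 1) =
      8 * C / (2 * (((t / 2 : ℕ) : ℝ) + 1)) ^ 2 := by
    field_simp
    ring
  rw [h3]
  exact div_le_div_of_nonneg_left (by positivity) (by positivity) (pow_le_pow_left₀ h1.le h0 2)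

end Lg_aux

open Lg_aux in
theorem tLg (hGd : S_Gd) : S_Lg := by
  intro V E _ _ _ s q hq C hC hp n hn
  have hκ : ∀ t : ℕ, (∀ x z, pt s q (t / 2) x z ≤ C / (((t / 2 : ℕ) : ℝ) + 1)) :=
    fun t x z => hp (t / 2) x z
  refine ⟨?_, ?_, ?_⟩
  · intro x z
    rw [gr]
    calc ∑ t ∈ Finset.range n, pt s q t x z ≤ ∑ t ∈ Finset.range n, C * (1 / ((t : ℝ) + 1)) := by
          refine Finset.sum_le_sum fun t _ => (hp t x z).trans (le_of_eq ?_)
          ring
      _ = C * ∑ t ∈ Finset.range n, 1 / ((t : ℝ) + 1) := by rw [Finset.mul_sum]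
      _ ≤ _ := mul_le_mul_of_nonneg_left (harm n) hC
  · intro B x
    refine core q hq.1 B n (fun t a e z => pt s q t (x + s a) z - pt s q t (x + s e) z) (8 * C)
      (by positivity) ?_
    intro t
    exact ((hGd s q hq _ (t / 2) (hκ t) t (by omega)).1 B x).trans (half C hC t)
  · intro B z
    refine core q hq.1 B n (fun t a e x => pt s q t (x + s a) z - pt s q t (x + s e) z) (8 * C)
      (by positivity) ?_
    intro t
    exact ((hGd s q hq _ (t / 2) (hκ t) t (by omega)).2 B z).trans (half C hC t)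

end MP0d3db7NS
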