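import Pool.Agent.Lib.MP_0d3db7.NS.Spec

/-!
# MP_0d3db7_pr, theorem NS: assembly
-/

set_option autoImplicit false

namespace MP0d3db7NS

open MeasureTheory ProbabilityTheory Filter Topology

namespace Main_aux

theorem log2_le (n : ℕ) (h : 1 ≤ n) : 2 ^ Nat.log 2 n ≤ n := Nat.pow_log_le_self 2 (by omega)

theorem ck_le (n : ℕ) : ck n ≤ n := Nat.sub_le _ _

theorem ck_ge (n : ℕ) (h : 1 ≤ n) : 2 ^ Nat.log 2 n ≤ ck n := by
  have h1 := log2_le n h
  have h2 : (n - 2 ^ Nat.log 2 n) % (2 ^ Nat.log 2 n / (Nat.log 2 n + 1) ^ 2 + 1) ≤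
      n - 2 ^ Nat.log 2 n := Nat.mod_le _ _
  rw [ck]
  omega

theorem ck_pos (n : ℕ) (h : 1 ≤ n) : 1 ≤ ck n := le_trans Nat.one_le_two_pow (ck_ge n h)

theorem ck_tendsto : Tendsto ck atTop atTop := by
  refine tendsto_atTop.2 fun b => ?_
  filter_upwards [eventually_ge_atTop (2 * b + 1)] with n hn
  have h1 := ck_ge n (by omega)
  have h2 := Nat.lt_pow_succ_log_self (b := 2) (by norm_num) n
  rw [Nat.pow_succ] at h2
  omega

variable {d : ℕ}

/-- the difference of two positions after scaling -/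
theorem nrm_sub (q : Dr d → ℝ) (n : ℕ) (x : Fin d → ℤ) (a e : Dr d) :
    ‖nrm q n (x + st d a) - nrm q n (x + st d e)‖ ≤ 2 / Real.sqrt n := by
  have h1 : nrm q n (x + st d a) - nrm q n (x + st d e) =
      (1 / Real.sqrt n) • (EuclideanSpace.single a.1 ((if a.2 then 1 else -1 : ℤ) : ℝ) -
        EuclideanSpace.single e.1 ((if e.2 then 1 else -1 : ℤ) : ℝ)) := by
    ext i
    simp only [nrm, st, PiLp.sub_apply, PiLp.smul_apply, smul_eq_mul, Pi.add_apply,
      PiLp.single_apply, Pi.single_apply]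
    push_cast
    ring
  have h2 : ∀ b : Bool, ‖((if b then 1 else -1 : ℤ) : ℝ)‖ = 1 := by
    intro b
    cases b <;> simp
  rw [h1, norm_smul]
  have h3 := norm_sub_le (EuclideanSpace.single a.1 ((if a.2 then 1 else -1 : ℤ) : ℝ))
    (EuclideanSpace.single e.1 ((if e.2 then 1 else -1 : ℤ) : ℝ))
  rw [PiLp.norm_single, PiLp.norm_single, h2, h2] at h3
  rw [Real.norm_eq_abs, abs_of_nonneg (by positivity)]
  calc 1 / Real.sqrt n * _ ≤ 1 / Real.sqrt n * (1 + 1) :=
        mul_le_mul_of_nonneg_left h3 (by positivity)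
    _ = 2 / Real.sqrt n := by ring

end Main_aux

open Main_aux

/-- NS, with the modules as hypotheses -/
theorem tMain (hPa : S_Pa) (hMn : S_Mn) (hVn : S_Vn) (hIn : S_In) (hLm : S_Lm) (hCl : S_Cl)
    (hM2 : S_M2) (hHf : S_Hf) (hBa : S_Ba) (hBb : S_Bb) (hIp : S_Ip) (hFn : S_Fn)
    {d : ℕ} {Ω : Type} [MeasurableSpace Ω] (P : Measure Ω) [IsProbabilityMeasure P]
    (ω : (Fin d → ℤ) × ℕ → Ω → Dr d → ℝ) (hm : ∀ κ, Measurable (ω κ)) (hpv : ∀ κ o, PV (ω κ o))
    (hind : iIndepFun ω P) (hid : ∀ κ, IdentDistrib (ω κ) (ω (0, 1)) P P)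
    (q : Dr d → ℝ) (hq : ∀ e, ∫ o, ω (0, 1) o e ∂P = q e) (hS : (Sg q).det ≠ 0)
    (hd : 3 ≤ d ∨ (d = 2 ∧ drift q ≠ 0))
    (hC : ∀ S : Finset (Dr d), 0 < ∑ e ∈ S, q e → ∑ e ∈ S, q e < 1 →
      ¬ ∀ᵐ o ∂P, (∑ e ∈ S, ω (0, 1) o e = 0 ∨ ∑ e ∈ S, ω (0, 1) o e = 1)) :
    ∀ᵐ o ∂P, ∀ f : BoundedContinuousFunction (EuclideanSpace ℝ (Fin d)) ℝ,
      Tendsto (fun n : ℕ => quenchE (st d) (fun κ => ω κ o) n
        fun h => f (nrm q n (pos (st d) h))) atTop
        (𝓝 (∫ x, f x ∂(multivariateGaussian 0 (Sg q)))) := by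
  classical
  -- bounded
  have hle : ∀ κ o e, ω κ o e ≤ 1 := by
    intro κ o e
    rw [← (hpv κ o).2]
    exact Finset.single_le_sum (fun e _ => (hpv κ o).1 e) (Finset.mem_univ e)
  have hint : ∀ κ e, Integrable (fun o => ω κ o e) P := by
    intro κ e
    refine Integrable.of_bound ((measurable_pi_apply e).comp (hm κ)).aestronglyMeasurable 1
      (Eventually.of_forall fun o => ?_)
    rw [Real.norm_eq_abs, abs_of_nonneg ((hpv κ o).1 e)]
    exact hle κ o e
  have hqp : PV q := by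
    refine ⟨fun e => ?_, ?_⟩
    · rw [← hq e]
      exact integral_nonneg fun o => (hpv _ o).1 e
    · have h1 : ∑ e, q e = ∫ o, ∑ e, ω (0, 1) o e ∂P := by
        rw [integral_finsetSum _ fun e _ => hint _ e]
        exact Finset.sum_congr rfl fun e _ => (hq e).symm
      rw [h1]
      simp [(hpv _ _).2]
  -- domination
  obtain ⟨lam, hl0, hl1, hdom⟩ := hLm P (ω (0, 1)) q (hm _) (hpv _) hq hC
  have hck : Ck P ω q lam := by
    refine ⟨inferInstance, hm, hpv, hind, fun κ e => ?_, hl0, hl1, fun κ c => ?_⟩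
    · rw [← hq e]
      exact ((hid κ).comp (measurable_pi_apply e)).integral_eq
    · have h1 : Measurable fun x : Dr d → ℝ => (∑ e, x e * c e) ^ 2 := by fun_prop
      have h2 := ((hid κ).comp h1).integral_eq
      have h3 : ∫ o, (∑ e, ω κ o e * c e) ^ 2 ∂P = ∫ o, (∑ e, ω (0, 1) o e * c e) ^ 2 ∂P := h2
      rw [h3]
      exact hdom c
  have hinp : Inp (st d) q := hIn d q hqp hS hd
  obtain ⟨c, C', hc, hvn⟩ := hVn (st d) P ω q lam hck hinp
  -- the expectations along the check points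
  have hA : ∀ (g : EuclideanSpace ℝ (Fin d) → ℝ) (Λ : ℝ), 0 ≤ Λ → (∀ y, |g y| ≤ 1) →
      (∀ y y', |g y - g y'| ≤ Λ * ‖y - y'‖) → ∀ᵐ o ∂P, Tendsto (fun n : ℕ =>
        Ex (st d) (fun κ => ω κ o) (fun h => g (nrm q (ck n) (pos (st d) h))) (ck n) [] -
          U (st d) (fun _ => q) (fun x => g (nrm q (ck n) x)) (ck n) 0 (fun _ => 0))
        atTop (𝓝 0) := by
    intro g Λ hΛ hg hgl
    refine hBa P (fun n o => Ex (st d) (fun κ => ω κ o)
      (fun h => g (nrm q n (pos (st d) h))) n [])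
      (fun n => U (st d) (fun _ => q) (fun x => g (nrm q n x)) n 0 (fun _ => 0)) c
      (C' * (1 + (Λ * 2) ^ 2)) hc (fun n => (hMn (st d) P ω q lam hck _ n fun h => hg _).1)
      (fun n o => ?_) (fun n hn => ?_)
    · have h1 := (hPa (st d) (fun κ => ω κ o)).2.2.2.1 (fun κ => hpv κ o)
      have h2 := (hPa (st d) (fun κ => ω κ o)).2.2.2.2.1 (fun κ => hpv κ o)
      rw [abs_le]
      constructor
      · rw [← h2 (-1) n []]
        exact h1 _ _ n [] fun h' _ => (abs_le.1 (hg _)).1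
      · have h3 := h1 (fun h => g (nrm q n (pos (st d) h))) (fun _ => 1) n []
          fun h' _ => (abs_le.1 (hg _)).2
        rw [h2 1 n []] at h3
        exact h3
    · have h1 := hvn (fun x => g (nrm q n x)) n (Λ * 2) hn (by positivity) (fun x => hg _)
        (fun x a e => ?_)
      · have h2 : ∀ o, Ex (st d) (fun κ => ω κ o) (fun h => g (nrm q n (pos (st d) h))) n [] =
            U (st d) (fun κ => ω κ o) (fun x => g (nrm q n x)) n 0 (fun _ => 0) := by
          intro o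
          exact (hPa (st d) (fun κ => ω κ o)).2.1 (fun x => g (nrm q n x)) n []
        simp only [h2]
        exact h1
      · refine (hgl _ _).trans ?_
        have h3 := nrm_sub q n x a e
        calc Λ * ‖nrm q n (x + st d a) - nrm q n (x + st d e)‖ ≤ Λ * (2 / Real.sqrt n) :=
              mul_le_mul_of_nonneg_left h3 hΛ
          _ = Λ * 2 / Real.sqrt n := by ring
  -- large deviations
  have hB : ∀ᵐ o ∂P, ∀ j : ℕ, Tendsto (fun n : ℕ => Ex (st d) (fun κ => ω κ o)
      (fun h => if ∃ i, 1 / ((j : ℝ) + 1) * Real.sqrt n <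
        |((pos (st d) h i : ℤ) : ℝ) - ((pos (st d) (h.drop (n - ck n)) i : ℤ) : ℝ) -
          ((n - ck n : ℕ) : ℝ) * drift q i| then 1 else 0) n []) atTop (𝓝 0) := by
    rw [ae_all_iff]
    intro j
    have hb : ∀ (n : ℕ) (h : List (Dr d)), |(if ∃ i, 1 / ((j : ℝ) + 1) * Real.sqrt n <
        |((pos (st d) h i : ℤ) : ℝ) - ((pos (st d) (h.drop (n - ck n)) i : ℤ) : ℝ) -
          ((n - ck n : ℕ) : ℝ) * drift q i| then (1 : ℝ) else 0)| ≤ 1 := by
      intro n h
      split_ifs <;> simp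
    have hb0 : ∀ (n : ℕ) (h : List (Dr d)), 0 ≤ (if ∃ i, 1 / ((j : ℝ) + 1) * Real.sqrt n <
        |((pos (st d) h i : ℤ) : ℝ) - ((pos (st d) (h.drop (n - ck n)) i : ℤ) : ℝ) -
          ((n - ck n : ℕ) : ℝ) * drift q i| then (1 : ℝ) else 0) := by
      intro n h
      split_ifs <;> simp
    refine hBb P (fun n o => Ex (st d) (fun κ => ω κ o)
      (fun h => if ∃ i, 1 / ((j : ℝ) + 1) * Real.sqrt n <
        |((pos (st d) h i : ℤ) : ℝ) - ((pos (st d) (h.drop (n - ck n)) i : ℤ) : ℝ) -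
          ((n - ck n : ℕ) : ℝ) * drift q i| then 1 else 0) n [])
      ((1 / ((j : ℝ) + 1)) ^ 2 / 16) (2 * d) (by positivity)
      (fun n => (hMn (st d) P ω q lam hck _ n (hb n)).1) (fun n o => ?_) (fun n o => ?_)
      (fun n hn => ?_)
    · have h1 := (hPa (st d) (fun κ => ω κ o)).2.2.2.1 (fun κ => hpv κ o)
      have h2 := (hPa (st d) (fun κ => ω κ o)).2.2.2.2.1 (fun κ => hpv κ o)
      have h3 := h1 (fun _ => 0) (fun h => if ∃ i, 1 / ((j : ℝ) + 1) * Real.sqrt n <
        |((pos (st d) h i : ℤ) : ℝ) - ((pos (st d) (h.drop (n - ck n)) i : ℤ) : ℝ) -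
          ((n - ck n : ℕ) : ℝ) * drift q i| then 1 else 0) n [] fun h' _ => hb0 n h'
      rw [h2 0 n []] at h3
      exact h3
    · have h1 := (hPa (st d) (fun κ => ω κ o)).2.2.2.1 (fun κ => hpv κ o)
      have h2 := (hPa (st d) (fun κ => ω κ o)).2.2.2.2.1 (fun κ => hpv κ o)
      have h3 := h1 (fun h => if ∃ i, 1 / ((j : ℝ) + 1) * Real.sqrt n <
        |((pos (st d) h i : ℤ) : ℝ) - ((pos (st d) (h.drop (n - ck n)) i : ℤ) : ℝ) -
          ((n - ck n : ℕ) : ℝ) * drift q i| then 1 else 0) (fun _ => 1) n []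
        fun h' _ => (abs_le.1 (hb n h')).2
      rw [h2 1 n []] at h3
      exact h3
    · rw [(hMn (st d) P ω q lam hck _ n (hb n)).2]
      refine (hHf d q hqp n (n - ck n) (1 / ((j : ℝ) + 1) * Real.sqrt n) (Nat.sub_le _ _)
        (by positivity)).trans (le_of_eq ?_)
      congr 3
      rw [mul_pow, Real.sq_sqrt (Nat.cast_nonneg n)]
      field_simp
  -- tightness at the check points
  have hT : ∀ᵐ o ∂P, ∀ M : ℕ, 1 ≤ M → Tendsto (fun n : ℕ =>
        Ex (st d) (fun κ => ω κ o)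
          (fun h => (fun y => min 1 (‖y‖ / M)) (nrm q (ck n) (pos (st d) h))) (ck n) [] -
          U (st d) (fun _ => q) (fun x => (fun y => min 1 (‖y‖ / M)) (nrm q (ck n) x)) (ck n) 0
            (fun _ => 0))
        atTop (𝓝 0) := by
    rw [ae_all_iff]
    intro M
    by_cases hM : 1 ≤ M
    · have hMr : (1 : ℝ) ≤ M := by exact_mod_cast hM
      have h0 := hA (fun y => min 1 (‖y‖ / M)) 1 zero_le_one (fun y => by
        rw [abs_of_nonneg (le_min zero_le_one (by positivity))]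
        exact min_le_left _ _) (fun y y' => ?_)
      · filter_upwards [h0] with o ho _
        exact ho
      · have h1 : |min 1 (‖y‖ / (M : ℝ)) - min 1 (‖y'‖ / M)| ≤ |‖y‖ / (M : ℝ) - ‖y'‖ / M| := by
          have := abs_min_sub_min_le_max 1 (‖y‖ / (M : ℝ)) 1 (‖y'‖ / M)
          rwa [sub_self, abs_zero, max_eq_right (abs_nonneg _)] at this
        refine h1.trans ?_
        rw [← sub_div, abs_div, abs_of_pos (by positivity : (0 : ℝ) < M), one_mul]
        exact (div_le_self (abs_nonneg _) hMr).trans (abs_norm_sub_norm_le y y')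
    · exact Eventually.of_forall fun o h => absurd h hM
  -- characters
  have hcos : ∀ᵐ o ∂P, ∀ θ : Fin d → ℚ, Tendsto (fun n : ℕ =>
        Ex (st d) (fun κ => ω κ o)
          (fun h => (fun y : EuclideanSpace ℝ (Fin d) => Real.cos (∑ i, (θ i : ℝ) * y i))
            (nrm q (ck n) (pos (st d) h))) (ck n) [] -
          U (st d) (fun _ => q)
            (fun x => (fun y : EuclideanSpace ℝ (Fin d) => Real.cos (∑ i, (θ i : ℝ) * y i))
              (nrm q (ck n) x)) (ck n) 0 (fun _ => 0))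
        atTop (𝓝 0) := by
    rw [ae_all_iff]
    intro θ
    refine hA (fun y : EuclideanSpace ℝ (Fin d) => Real.cos (∑ i, (θ i : ℝ) * y i))
      (∑ i, |(θ i : ℝ)|) (Finset.sum_nonneg fun i _ => abs_nonneg _)
      (fun y => Real.abs_cos_le_one _) (fun y y' => ?_)
    refine (Real.abs_cos_sub_cos_le _ _).trans ?_
    rw [← Finset.sum_sub_distrib, Finset.sum_mul]
    refine (Finset.abs_sum_le_sum_abs _ _).trans (Finset.sum_le_sum fun i _ => ?_)
    rw [← mul_sub, abs_mul]
    refine mul_le_mul_of_nonneg_left ?_ (abs_nonneg _)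
    exact PiLp.norm_apply_le (y - y') i
  have hsin : ∀ᵐ o ∂P, ∀ θ : Fin d → ℚ, Tendsto (fun n : ℕ =>
        Ex (st d) (fun κ => ω κ o)
          (fun h => (fun y : EuclideanSpace ℝ (Fin d) => Real.sin (∑ i, (θ i : ℝ) * y i))
            (nrm q (ck n) (pos (st d) h))) (ck n) [] -
          U (st d) (fun _ => q)
            (fun x => (fun y : EuclideanSpace ℝ (Fin d) => Real.sin (∑ i, (θ i : ℝ) * y i))
              (nrm q (ck n) x)) (ck n) 0 (fun _ => 0))
        atTop (𝓝 0) := by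
    rw [ae_all_iff]
    intro θ
    refine hA (fun y : EuclideanSpace ℝ (Fin d) => Real.sin (∑ i, (θ i : ℝ) * y i))
      (∑ i, |(θ i : ℝ)|) (Finset.sum_nonneg fun i _ => abs_nonneg _)
      (fun y => Real.abs_sin_le_one _) (fun y y' => ?_)
    refine (Real.abs_sin_sub_sin_le _ _).trans ?_
    rw [← Finset.sum_sub_distrib, Finset.sum_mul]
    refine (Finset.abs_sum_le_sum_abs _ _).trans (Finset.sum_le_sum fun i _ => ?_)
    rw [← mul_sub, abs_mul]
    refine mul_le_mul_of_nonneg_left ?_ (abs_nonneg _)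
    exact PiLp.norm_apply_le (y - y') i
  filter_upwards [hB, hT, hcos, hsin] with o hBo hTo hco hso
  have hTck : ∀ M : ℕ, 1 ≤ M → ∀ δ : ℝ, 0 < δ → ∀ᶠ n in atTop,
      Ex (st d) (fun κ => ω κ o) (fun h => min 1 (‖nrm q (ck n) (pos (st d) h)‖ / M)) (ck n) []
        ≤ 1 / M + δ := by
    intro M hM δ hδ
    filter_upwards [(hTo M hM).eventually (gt_mem_nhds hδ), eventually_ge_atTop 1] with n hn hn1
    have h1 := hM2 d q hqp M (ck n) (by exact_mod_cast hM) (ck_pos n hn1)
    linarith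
  have hIpo := hIp d q hqp (fun κ => ω κ o) (fun κ => hpv κ o) hBo hTck
  refine hFn d q hqp (fun κ => ω κ o) (fun κ => hpv κ o) (fun θ => ?_) (fun M hM δ hδ => ?_)
  · have hcl := hCl d q hqp (WithLp.toLp 2 fun i => (θ i : ℝ))
    constructor
    · have h1 := hIpo (fun y : EuclideanSpace ℝ (Fin d) => Real.cos (∑ i, (θ i : ℝ) * y i))
        (∑ i, |(θ i : ℝ)|) (fun y => Real.abs_cos_le_one _) (fun y y' => ?_)
      · have h2 := (h1.add (hco θ)).add (hcl.1.comp ck_tendsto)
        rw [zero_add, zero_add] at h2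
        refine h2.congr fun n => ?_
        simp only [Function.comp]
        ring
      · refine (Real.abs_cos_sub_cos_le _ _).trans ?_
        rw [← Finset.sum_sub_distrib, Finset.sum_mul]
        refine (Finset.abs_sum_le_sum_abs _ _).trans (Finset.sum_le_sum fun i _ => ?_)
        rw [← mul_sub, abs_mul]
        refine mul_le_mul_of_nonneg_left ?_ (abs_nonneg _)
        exact PiLp.norm_apply_le (y - y') i
    · have h1 := hIpo (fun y : EuclideanSpace ℝ (Fin d) => Real.sin (∑ i, (θ i : ℝ) * y i))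
        (∑ i, |(θ i : ℝ)|) (fun y => Real.abs_sin_le_one _) (fun y y' => ?_)
      · have h2 := (h1.add (hso θ)).add (hcl.2.comp ck_tendsto)
        rw [zero_add, zero_add] at h2
        refine h2.congr fun n => ?_
        simp only [Function.comp]
        ring
      · refine (Real.abs_sin_sub_sin_le _ _).trans ?_
        rw [← Finset.sum_sub_distrib, Finset.sum_mul]
        refine (Finset.abs_sum_le_sum_abs _ _).trans (Finset.sum_le_sum fun i _ => ?_)
        rw [← mul_sub, abs_mul]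
        refine mul_le_mul_of_nonneg_left ?_ (abs_nonneg _)
        exact PiLp.norm_apply_le (y - y') i
  · have hMr : (1 : ℝ) ≤ M := by exact_mod_cast hM
    have h1 := hIpo (fun y => min 1 (‖y‖ / M)) 1 (fun y => ?_) (fun y y' => ?_)
    · filter_upwards [h1.eventually (gt_mem_nhds (half_pos hδ)), hTck M hM (δ / 2) (half_pos hδ)]
        with n h2 h3
      linarith
    · rw [abs_of_nonneg (le_min zero_le_one (by positivity))]
      exact min_le_left _ _
    · have h1 : |min 1 (‖y‖ / (M : ℝ)) - min 1 (‖y'‖ / M)| ≤ |‖y‖ / (M : ℝ) - ‖y'‖ / M| := by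
        have := abs_min_sub_min_le_max 1 (‖y‖ / (M : ℝ)) 1 (‖y'‖ / M)
        rwa [sub_self, abs_zero, max_eq_right (abs_nonneg _)] at this
      refine h1.trans ?_
      rw [← sub_div, abs_div, abs_of_pos (by positivity : (0 : ℝ) < M), one_mul]
      exact (div_le_self (abs_nonneg _) hMr).trans (abs_norm_sub_norm_le y y')

end MP0d3db7NS
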