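import Pool.Agent.Lib.MP_0d3db7.NS.Core

/-!
# MP_0d3db7_pr, theorem NS2: assembly
-/

set_option autoImplicit false

namespace MP0d3db7NS

open MeasureTheory ProbabilityTheory Filter Topology

/-- NS2, with the modules as hypotheses -/
theorem tMain2 (hPa : S_Pa) (hSz : S_Sz) (hBw : S_Bw) (hIw : S_Iw) (hCq : S_Cq) (hTg : S_Tg)
    (hTm : S_Tm) (hFm : S_Fm) (hLm : S_Lm) (hPw : S_Pw) (hNu : S_Nu) (hKi : S_Ki) (hRb : S_Rb)
    {d : ℕ} {Ω : Type} [MeasurableSpace Ω] (P : Measure Ω) [IsProbabilityMeasure P]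
    (ω : (Fin d → ℤ) × ℕ → Ω → Dr d → ℝ) (hm : ∀ κ, Measurable (ω κ)) (hpv : ∀ κ o, PV (ω κ o))
    (hind : iIndepFun ω P) (hid : ∀ κ, IdentDistrib (ω κ) (ω (0, 1)) P P)
    (q : Dr d → ℝ) (hq : ∀ e, ∫ o, ω (0, 1) o e ∂P = q e) (hS : (Sg q).det ≠ 0)
    (hd : 2 ≤ d)
    (hC : ∀ S : Finset (Dr d), 0 < ∑ e ∈ S, q e → ∑ e ∈ S, q e < 1 →
      ¬ ∀ᵐ o ∂P, (∑ e ∈ S, ω (0, 1) o e = 0 ∨ ∑ e ∈ S, ω (0, 1) o e = 1)) :
    ∀ᵐ o ∂P, ∀ f : BoundedContinuousFunction (EuclideanSpace ℝ (Fin d)) ℝ,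
      Tendsto (fun n : ℕ => quenchE (st d) (fun κ => ω κ o) n
        fun h => f (nrm q n (pos (st d) h))) atTop
        (𝓝 (∫ x, f x ∂(multivariateGaussian 0 (Sg q)))) := by
  classical
  have hqp : PV q := Core_aux.pvq P (ω (0, 1)) (hm _) (hpv _) q hq
  -- domination
  obtain ⟨lam, hl0, hl1, hdom⟩ := hLm P (ω (0, 1)) q (hm _) (hpv _) hq hC
  have hck : Ck P ω q lam := by
    refine ⟨inferInstance, hm, hpv, hind, fun κ e => ?_, hl0, hl1, fun κ c => ?_⟩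
    · rw [← hq e]
      exact ((hid κ).comp (measurable_pi_apply e)).integral_eq
    · have h1 : Measurable fun x : Dr d → ℝ => (∑ e, x e * c e) ^ 2 := by fun_prop
      have h2 := ((hid κ).comp h1).integral_eq
      have h3 : ∫ o, (∑ e, ω κ o e * c e) ^ 2 ∂P = ∫ o, (∑ e, ω (0, 1) o e * c e) ^ 2 ∂P := h2
      rw [h3]
      exact hdom c
  -- the constant B
  obtain ⟨B, hB4, hB⟩ : ∃ B : ℝ, 4 ≤ B ∧ ∀ e, 0 < q e → 3 ≤ B ^ 2 * q e := by
    refine ⟨4 + ∑ e, if 0 < q e then 3 / q e else 0, ?_, fun e he => ?_⟩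
    · have h1 : 0 ≤ ∑ e, if 0 < q e then 3 / q e else 0 :=
        Finset.sum_nonneg fun e _ => by split_ifs with h <;> positivity
      linarith
    · have h1 : 3 / q e ≤ ∑ e, if 0 < q e then 3 / q e else 0 := by
        have h2 := Finset.single_le_sum (f := fun e => if 0 < q e then 3 / q e else 0)
          (fun e _ => by split_ifs with h <;> positivity) (Finset.mem_univ e)
        rw [if_pos he] at h2
        exact h2
      have h3 : 0 < 3 / q e := by positivity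
      set B := 4 + ∑ e, if 0 < q e then 3 / q e else 0 with hBd
      have h4 : 3 / q e ≤ B := by linarith
      have h5 : 1 ≤ B := by linarith
      rw [div_le_iff₀ he] at h4
      nlinarith
  obtain ⟨θ, hθ0, hθ1, hN⟩ := hNu B lam hB4 hl0 hl1
  obtain ⟨CK, hCK0, hK⟩ := hKi d q hqp hS hd
  refine tCore hPa hSz hBw hIw hCq hTg hTm hFm P ω hpv q hqp θ hθ0 hθ1 (fun ε hε => ?_)
    (fun ε δ hε hδ => hRb d P ω q lam hck θ ε δ hθ0 hθ1 hε hδ)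
  obtain ⟨C', hC0, hC'⟩ := hN (CK * 32) ε (by positivity) hε
  refine ⟨C', fun b hb i hi g hg => ?_⟩
  have hsz := hSz θ hθ0 hθ1 b hb
  have hh1 : 1 ≤ MP0d3db7NS.hb θ b := hsz.2.2.1
  have hn1 : 1 ≤ nw θ b i := by
    rw [nw]
    have := Nat.one_le_two_pow (n := b)
    omega
  have hM1 : 1 ≤ nw θ b i + MP0d3db7NS.hb θ b := by omega
  have hM1r : (1 : ℝ) ≤ ((nw θ b i + MP0d3db7NS.hb θ b : ℕ) : ℝ) := by exact_mod_cast hM1
  have hlog : 0 ≤ Real.log ((nw θ b i + MP0d3db7NS.hb θ b : ℕ) : ℝ) := Real.log_nonneg hM1r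
  have hκ0 : 0 ≤ CK * (((nw θ b i + MP0d3db7NS.hb θ b : ℕ) : ℝ) /
      (1 + Real.log ((nw θ b i + MP0d3db7NS.hb θ b : ℕ) : ℝ))) := by positivity
  have hhr : (0 : ℝ) < MP0d3db7NS.hb θ b := by exact_mod_cast hh1
  obtain ⟨K, hKb⟩ := hC' b hb (CK * (((nw θ b i + MP0d3db7NS.hb θ b : ℕ) : ℝ) /
      (1 + Real.log ((nw θ b i + MP0d3db7NS.hb θ b : ℕ) : ℝ))) / (MP0d3db7NS.hb θ b : ℝ))
    (by positivity) (by
      rw [mul_div_assoc, mul_assoc]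
      exact mul_le_mul_of_nonneg_left (hsz.2.2.2.2.2.2 i hi) hCK0)
  exact (hPw d P ω q lam B hck hB4 hB g hg (nw θ b i) (MP0d3db7NS.hb θ b) _ ε hn1 hh1 hκ0 hε
    (hK _ hM1) K).trans hKb

end MP0d3db7NS
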