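import Pool.Agent.Lib.MP_0d3db7.NS.Spec

/-! # MP_0d3db7_pr, theorem NS, module Mb: the bound by the Green function -/

set_option autoImplicit false

namespace MP0d3db7NS

open MeasureTheory ProbabilityTheory Filter Topology

namespace Mb_aux

variable {V E : Type} [AddCommGroup V] [DecidableEq V] [Fintype E]

theorem gr_zero (s : E → V) (q : E → ℝ) (x z : V) : gr s q 0 x z = 0 := by
  unfold gr
  rw [Finset.range_zero, Finset.sum_empty]

theorem gr_succ (s : E → V) (q : E → ℝ) (N : ℕ) (x z : V) :
    gr s q (N + 1) x z = (if x = z then 1 else 0) + ∑ e, q e * gr s q N (x + s e) z := by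
  unfold gr
  rw [Finset.sum_range_succ', add_comm]
  congr 1
  simp only [pt, Finset.mul_sum]
  exact Finset.sum_comm

theorem vec_zero (s : E → V) (q : E → ℝ) (f : V → ℝ) (n k : ℕ) (Z : Fin (k + 1) → V) (x : V)
    (r : V → ℕ) : vec s q f n (k + 1) Z 0 x r = 0 := by
  unfold vec
  ext c
  simp [phi]

end Mb_aux

open Mb_aux in
theorem tMb (hVr : S_Vr) : S_Mb := by
  intro V E _ _ _ s q f hq n k g hg hG N
  induction N with
  | zero =>
    intro _ Z x r
    rw [vec_zero, norm_zero]
    refine le_of_eq (Finset.sum_eq_zero fun j _ => ?_).symm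
    rw [gr_zero, zero_mul]
  | succ N ih =>
    intro hN Z x r
    have hN' : N ≤ n := by omega
    have h1 := hVr s q f hq n k Z N x r
    have h2 : ∑ l, (if Z l = x then Real.sqrt (∑ a, ∑ e, q a * q e *
        ‖vec s q f n k (rmv l Z) N (x + s a) (up r x) -
          vec s q f n k (rmv l Z) N (x + s e) (up r x)‖ ^ 2) else 0) ≤
        ∑ j, (if x = Z j then 1 else 0) * g (rmv j Z) (Z j) := by
      refine Finset.sum_le_sum fun l _ => ?_
      by_cases hl : Z l = x
      · rw [if_pos hl, if_pos hl.symm, one_mul, hl]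
        exact Real.sqrt_le_iff.2 ⟨hg _ _, hG (rmv l Z) x (up r x) N hN'⟩
      · rw [if_neg hl, if_neg (fun h => hl h.symm), zero_mul]
    have h3 : ‖∑ e, q e • vec s q f n (k + 1) Z N (x + s e) (up r x)‖ ≤
        ∑ j, (∑ e, q e * gr s q N (x + s e) (Z j)) * g (rmv j Z) (Z j) := by
      refine (norm_sum_le _ _).trans ?_
      have h4 : ∀ e ∈ (Finset.univ : Finset E),
          ‖q e • vec s q f n (k + 1) Z N (x + s e) (up r x)‖ ≤
          ∑ j, q e * gr s q N (x + s e) (Z j) * g (rmv j Z) (Z j) := by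
        intro e _
        rw [norm_smul, Real.norm_of_nonneg (hq.1 e)]
        refine (mul_le_mul_of_nonneg_left (ih hN' Z (x + s e) (up r x)) (hq.1 e)).trans ?_
        rw [Finset.mul_sum]
        exact le_of_eq (Finset.sum_congr rfl fun j _ => (mul_assoc _ _ _).symm)
      refine (Finset.sum_le_sum h4).trans (le_of_eq ?_)
      rw [Finset.sum_comm]
      exact Finset.sum_congr rfl fun j _ => (Finset.sum_mul _ _ _).symm
    have h5 : ‖vec s q f n (k + 1) Z (N + 1) x r‖ ≤
        ‖vec s q f n (k + 1) Z (N + 1) x r -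
          ∑ e, q e • vec s q f n (k + 1) Z N (x + s e) (up r x)‖ +
        ‖∑ e, q e • vec s q f n (k + 1) Z N (x + s e) (up r x)‖ := by
      have h6 := norm_add_le (vec s q f n (k + 1) Z (N + 1) x r -
          ∑ e, q e • vec s q f n (k + 1) Z N (x + s e) (up r x))
        (∑ e, q e • vec s q f n (k + 1) Z N (x + s e) (up r x))
      rwa [sub_add_cancel] at h6
    have h7 : ∑ j, gr s q (N + 1) x (Z j) * g (rmv j Z) (Z j) =
        ∑ j, (if x = Z j then 1 else 0) * g (rmv j Z) (Z j) +
          ∑ j, (∑ e, q e * gr s q N (x + s e) (Z j)) * g (rmv j Z) (Z j) := by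
      rw [← Finset.sum_add_distrib]
      refine Finset.sum_congr rfl fun j _ => ?_
      rw [gr_succ, add_mul]
    rw [h7]
    exact h5.trans (add_le_add (h1.trans h2) h3)

end MP0d3db7NS
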