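import Pool.Agent.Lib.MP_0d3db7.NS.Spec2

/-!
# MP_0d3db7_pr, theorem NS2, module Nu: the choice of `K` and `θ` (helper1)
-/

set_option autoImplicit false

namespace MP0d3db7NS

open MeasureTheory ProbabilityTheory Filter Topology

namespace Nu_aux

lemma powB {B b : ℝ} (hB : 4 ≤ B) (hb : 1 ≤ b) (K : ℕ)
    (hK : (K : ℝ) ≤ 1 / (8 * Real.log B) * Real.log b) : B ^ (2 * K) ≤ b ^ (1 / 4 : ℝ) := by
  have hlB : 0 < Real.log B := Real.log_pos (by linarith)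
  have hB0 : 0 < B := by linarith
  have hb0 : 0 < b := by linarith
  rw [← Real.rpow_natCast B, Real.rpow_def_of_pos hB0, Real.rpow_def_of_pos hb0]
  apply Real.exp_le_exp.mpr
  push_cast
  have h1 : Real.log B * (K : ℝ) ≤ Real.log B * (1 / (8 * Real.log B) * Real.log b) :=
    mul_le_mul_of_nonneg_left hK hlB.le
  have h2 : Real.log B * (1 / (8 * Real.log B) * Real.log b) = Real.log b / 8 := by
    field_simp
  rw [h2] at h1
  linarith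

lemma powL {l b c : ℝ} (hl0 : 0 < l) (hl1 : l < 1) (hb : 1 ≤ b) (K : ℕ)
    (hK : c * Real.log b ≤ (K : ℝ) + 1) : l ^ (K + 1) ≤ b ^ (-(-c * Real.log l)) := by
  have hll : Real.log l < 0 := Real.log_neg hl0 hl1
  have hb0 : 0 < b := by linarith
  rw [← Real.rpow_natCast l, Real.rpow_def_of_pos hl0, Real.rpow_def_of_pos hb0]
  apply Real.exp_le_exp.mpr
  push_cast
  have h1 : Real.log l * ((K : ℝ) + 1) ≤ Real.log l * (c * Real.log b) :=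
    mul_le_mul_of_nonpos_left hK hll.le
  nlinarith [h1]

end Nu_aux

open Nu_aux in
theorem tNu : S_Nu := by
  intro B lam hB hlam0 hlam1
  have hlB : 0 < Real.log B := Real.log_pos (by linarith)
  set c : ℝ := 1 / (8 * Real.log B) with hc
  have hc0 : 0 < c := by positivity
  set l : ℝ := max lam (1 / 2) with hl
  have hl0 : 0 < l := lt_of_lt_of_le (by norm_num) (le_max_right _ _)
  have hl1 : l < 1 := max_lt hlam1 (by norm_num)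
  have hlaml : lam ≤ l := le_max_left _ _
  set a : ℝ := -c * Real.log l with ha
  have ha0 : 0 < a := by
    have := Real.log_neg hl0 hl1
    rw [ha]
    nlinarith
  set θ : ℝ := min (1 / 16) (a / 8) with hθ
  have hθ0 : 0 < θ := lt_min (by norm_num) (by positivity)
  have hθ1 : θ ≤ 1 / 16 := min_le_left _ _
  have hθa : θ ≤ a / 8 := min_le_right _ _
  refine ⟨θ, hθ0, by linarith, ?_⟩
  intro C ε hC hε
  refine ⟨(c / θ) ^ 4 * C ^ 2 / ε ^ 4 + (c / θ + 1) * C / ((1 - lam) ^ 2 * ε ^ 2), ?_, ?_⟩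
  · have : 0 < 1 - lam := by linarith
    positivity
  intro b hb η hη0 hη
  have hb1 : (1 : ℝ) ≤ b := by exact_mod_cast hb
  have hb0 : (0 : ℝ) < b := by linarith
  have hlogb : 0 ≤ Real.log b := Real.log_nonneg hb1
  refine ⟨⌊c * Real.log b⌋₊, ?_⟩
  set K : ℕ := ⌊c * Real.log b⌋₊ with hKdef
  have hK1 : (K : ℝ) ≤ c * Real.log b := Nat.floor_le (by positivity)
  have hK2 : c * Real.log b ≤ (K : ℝ) + 1 := (Nat.lt_floor_add_one _).le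
  have hlog : Real.log b ≤ (b : ℝ) ^ θ / θ := Real.log_le_rpow_div hb0.le hθ0
  have hK3 : (K : ℝ) ≤ c / θ * (b : ℝ) ^ θ := by
    calc (K : ℝ) ≤ c * Real.log b := hK1
      _ ≤ c * ((b : ℝ) ^ θ / θ) := mul_le_mul_of_nonneg_left hlog hc0.le
      _ = c / θ * (b : ℝ) ^ θ := by ring
  have hbθ : 1 ≤ (b : ℝ) ^ θ := Real.one_le_rpow hb1 hθ0.le
  have hK4 : (K : ℝ) + 1 ≤ (c / θ + 1) * (b : ℝ) ^ θ := by
    calc (K : ℝ) + 1 ≤ c / θ * (b : ℝ) ^ θ + (b : ℝ) ^ θ := add_le_add hK3 hbθ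
      _ = (c / θ + 1) * (b : ℝ) ^ θ := by ring
  have hBK : B ^ (2 * K) ≤ (b : ℝ) ^ (1 / 4 : ℝ) := powB hB hb1 K hK1
  have hLK : lam ^ (K + 1) ≤ (b : ℝ) ^ (-a) :=
    (pow_le_pow_left₀ hlam0 hlaml (K + 1)).trans (powL hl0 hl1 hb1 K hK2)
  have hBp : 0 ≤ B ^ (2 * K) := by positivity
  have hLp : 0 ≤ lam ^ (K + 1) := by positivity
  have hlam' : 0 < 1 - lam := by linarith
  have h1 : (K : ℝ) ^ 4 * B ^ (2 * K) * η ^ 2 / ε ^ 4 ≤
      (c / θ) ^ 4 * C ^ 2 / ε ^ 4 * (b : ℝ) ^ (-1 - 2 * θ) := by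
    have e1 : (K : ℝ) ^ 4 ≤ (c / θ) ^ 4 * (b : ℝ) ^ (4 * θ) := by
      calc (K : ℝ) ^ 4 ≤ (c / θ * (b : ℝ) ^ θ) ^ 4 := pow_le_pow_left₀ (by positivity) hK3 4
        _ = (c / θ) ^ 4 * (b : ℝ) ^ (4 * θ) := by
          rw [mul_pow, ← Real.rpow_natCast ((b : ℝ) ^ θ), ← Real.rpow_mul hb0.le]
          congr 2
          push_cast
          ring
    have e2 : η ^ 2 ≤ C ^ 2 * (b : ℝ) ^ (2 * (θ - 1)) := by
      calc η ^ 2 ≤ (C * (b : ℝ) ^ (θ - 1)) ^ 2 := pow_le_pow_left₀ hη0 hη 2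
        _ = C ^ 2 * (b : ℝ) ^ (2 * (θ - 1)) := by
          rw [mul_pow, ← Real.rpow_natCast ((b : ℝ) ^ (θ - 1)), ← Real.rpow_mul hb0.le]
          congr 2
          push_cast
          ring
    have e3 : (K : ℝ) ^ 4 * B ^ (2 * K) * η ^ 2 ≤
        (c / θ) ^ 4 * C ^ 2 * (b : ℝ) ^ (-1 - 2 * θ) := by
      calc (K : ℝ) ^ 4 * B ^ (2 * K) * η ^ 2
          ≤ ((c / θ) ^ 4 * (b : ℝ) ^ (4 * θ)) * (b : ℝ) ^ (1 / 4 : ℝ) *
            (C ^ 2 * (b : ℝ) ^ (2 * (θ - 1))) := by gcongr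
        _ = (c / θ) ^ 4 * C ^ 2 *
            ((b : ℝ) ^ (4 * θ) * (b : ℝ) ^ (1 / 4 : ℝ) * (b : ℝ) ^ (2 * (θ - 1))) := by ring
        _ = (c / θ) ^ 4 * C ^ 2 * (b : ℝ) ^ (4 * θ + 1 / 4 + 2 * (θ - 1)) := by
          rw [Real.rpow_add hb0, Real.rpow_add hb0]
        _ ≤ (c / θ) ^ 4 * C ^ 2 * (b : ℝ) ^ (-1 - 2 * θ) := by
          apply mul_le_mul_of_nonneg_left _ (by positivity)
          apply Real.rpow_le_rpow_of_exponent_le hb1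
          linarith
    calc (K : ℝ) ^ 4 * B ^ (2 * K) * η ^ 2 / ε ^ 4
        ≤ (c / θ) ^ 4 * C ^ 2 * (b : ℝ) ^ (-1 - 2 * θ) / ε ^ 4 := by gcongr
      _ = (c / θ) ^ 4 * C ^ 2 / ε ^ 4 * (b : ℝ) ^ (-1 - 2 * θ) := by ring
  have h2 : ((K : ℝ) + 1) * lam ^ (K + 1) * η / ((1 - lam) ^ 2 * ε ^ 2) ≤
      (c / θ + 1) * C / ((1 - lam) ^ 2 * ε ^ 2) * (b : ℝ) ^ (-1 - 2 * θ) := by
    have e3 : ((K : ℝ) + 1) * lam ^ (K + 1) * η ≤ (c / θ + 1) * C * (b : ℝ) ^ (-1 - 2 * θ) := by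
      calc ((K : ℝ) + 1) * lam ^ (K + 1) * η
          ≤ ((c / θ + 1) * (b : ℝ) ^ θ) * (b : ℝ) ^ (-a) * (C * (b : ℝ) ^ (θ - 1)) := by gcongr
        _ = (c / θ + 1) * C * ((b : ℝ) ^ θ * (b : ℝ) ^ (-a) * (b : ℝ) ^ (θ - 1)) := by ring
        _ = (c / θ + 1) * C * (b : ℝ) ^ (θ + -a + (θ - 1)) := by
          rw [Real.rpow_add hb0, Real.rpow_add hb0]
        _ ≤ (c / θ + 1) * C * (b : ℝ) ^ (-1 - 2 * θ) := by
          apply mul_le_mul_of_nonneg_left _ (by positivity)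
          apply Real.rpow_le_rpow_of_exponent_le hb1
          linarith
    calc ((K : ℝ) + 1) * lam ^ (K + 1) * η / ((1 - lam) ^ 2 * ε ^ 2)
        ≤ (c / θ + 1) * C * (b : ℝ) ^ (-1 - 2 * θ) / ((1 - lam) ^ 2 * ε ^ 2) := by gcongr
      _ = (c / θ + 1) * C / ((1 - lam) ^ 2 * ε ^ 2) * (b : ℝ) ^ (-1 - 2 * θ) := by ring
  refine (add_le_add h1 h2).trans (le_of_eq ?_)
  ring

end MP0d3db7NS
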