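import Pool.Agent.Lib.MP_0d3db7.NS.Spec

set_option autoImplicit false

namespace MP0d3db7NS

open MeasureTheory ProbabilityTheory Filter Topology

namespace Rd_aux

variable {V E : Type} [AddCommGroup V] [DecidableEq V] [Fintype E]

theorem up_agree {r r' : V → ℕ} (x z : V) (h : r z = r' z) : up r x z = up r' x z := by
  unfold up
  by_cases hz : z = x
  · subst hz
    rw [Function.update_self, Function.update_self, h]
  · rw [Function.update_of_ne hz, Function.update_of_ne hz, h]

theorem phi_agree (s : E → V) (q : E → ℝ) (f : V → ℝ) (N : ℕ) :
    ∀ (k : ℕ) (x : V) (r r' : V → ℕ) (c : Fin k → (V × ℕ) × E),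
      (∀ j, r (c j).1.1 = r' (c j).1.1) → phi s q f N k x r c = phi s q f N k x r' c := by
  induction N with
  | zero =>
    intro k x r r' c _
    cases k <;> rfl
  | succ N ih =>
    intro k x r r' c hc
    cases k with
    | zero =>
      show ∑ e, q e * phi s q f N 0 (x + s e) (up r x) c =
        ∑ e, q e * phi s q f N 0 (x + s e) (up r' x) c
      refine Finset.sum_congr rfl fun e _ => ?_
      rw [ih 0 (x + s e) (up r x) (up r' x) c fun j => j.elim0]
    | succ k =>
      show ∑ e, q e * phi s q f N (k + 1) (x + s e) (up r x) c +
          ∑ l : Fin (k + 1), (if (c l).1 = (x, r x + 1) then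
            phi s q f N k (x + s (c l).2) (up r x) (rmv l c) -
              ∑ e, q e * phi s q f N k (x + s e) (up r x) (rmv l c) else 0) =
        ∑ e, q e * phi s q f N (k + 1) (x + s e) (up r' x) c +
          ∑ l : Fin (k + 1), (if (c l).1 = (x, r' x + 1) then
            phi s q f N k (x + s (c l).2) (up r' x) (rmv l c) -
              ∑ e, q e * phi s q f N k (x + s e) (up r' x) (rmv l c) else 0)
      have h1 : ∀ j, up r x (c j).1.1 = up r' x (c j).1.1 := fun j => up_agree x _ (hc j)
      have h2 : ∀ (l : Fin (k + 1)) (y : V), phi s q f N k y (up r x) (rmv l c) =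
          phi s q f N k y (up r' x) (rmv l c) := fun l y =>
        ih k y (up r x) (up r' x) (rmv l c) fun j => h1 _
      congr 1
      · refine Finset.sum_congr rfl fun e _ => ?_
        rw [ih (k + 1) (x + s e) (up r x) (up r' x) c h1]
      · refine Finset.sum_congr rfl fun l _ => ?_
        refine if_congr ?_ ?_ rfl
        · constructor
          · intro h
            have h3 : r x = r' x := by
              have h4 := hc l
              rw [h] at h4
              exact h4
            rw [h, h3]
          · intro h
            have h3 : r x = r' x := by
              have h4 := hc l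
              rw [h] at h4
              exact h4
            rw [h, h3]
        · rw [h2 l]
          congr 1
          exact Finset.sum_congr rfl fun e _ => by rw [h2 l]

end Rd_aux

theorem tRd : S_Rd := by
  intro V E _ _ _ s q f n k Z N x r r' h
  unfold vec
  congr 1
  funext c
  rw [Rd_aux.phi_agree s q f N k x r r' _ fun j => h j]

end MP0d3db7NS
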