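import Pool.Agent.Lib.MP_0d3db7.NS.Spec2

/-!
# MP_0d3db7_pr, theorem NS2, module Sl: decomposition by the first mark
-/

set_option autoImplicit false

namespace MP0d3db7NS

open MeasureTheory ProbabilityTheory Filter Topology

theorem tSl : S_Sl := by
  intro V E _ _ _ s q f N k x c
  induction N generalizing x c with
  | zero => simp [psi, psl]
  | succ N ih =>
    by_cases h : ∀ j, (c j).1 ≠ (x, 0)
    · simp only [psi, psl, if_pos h]
      simp_rw [ih, Finset.mul_sum]
      rw [Finset.sum_comm]
    · simp only [psi, psl, if_neg h]

end MP0d3db7NS
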