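import Pool.Agent.Lib.MP_0d3db7.NS.Defs

/-!
# MP_0d3db7_pr, theorem NS: the statements of the modules

Each module `X.lean` in this folder proves `theorem tX : S_X`, or with other `S_Y` as hypotheses,
where the docstring says so (`theorem tX (hY : S_Y) : S_X`). All proofs are elementary.
-/

set_option autoImplicit false

namespace MP0d3db7NS

open MeasureTheory ProbabilityTheory Filter Topology

/-! ### paths -/

/-- PATH SUMS. Proof: (1) induction on `n`, using `Ex s w Φ (n+1) h = Ex s w Φ' n h` with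
`Φ' h = ∑ e, w (pos h, vis h) e * Φ (e :: h)` and `Fin.consEquiv` (for `E = Bool` this is `sum_wt` in
Lib/MP_0d3db7/Defs.lean). (2) induction on `n`, generalising `h`; `pos s (e :: h) = pos s h + s e`,
`pv s z (e :: h) = pv s z h + 1` if `z = pos s h`. (3), (4), (5) induction on `n`. (6) induction
on `n`: after `n + k` steps from `h'`; `Φ (h.drop k)` for `h` of length `≥ k`; prove first
`Ex s w (fun h => Φ (h.drop k)) k h' = Φ h'` (sum of the `w` is one) and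
`Ex s w Φ (n + k) h' = Ex s w (fun h => Ex s w Φ k h) n h'`. -/
def S_Pa : Prop := ∀ {V E : Type} [AddCommGroup V] [DecidableEq V] [Fintype E] (s : E → V)
  (w : V × ℕ → E → ℝ),
  (∀ (Φ : List E → ℝ) (n : ℕ), quenchE s w n Φ = Ex s w Φ n []) ∧
  (∀ (f : V → ℝ) (n : ℕ) (h : List E), Ex s w (fun h => f (pos s h)) n h =
    U s w f n (pos s h) (fun z => pv s z h)) ∧
  (∀ (Φ Ψ : List E → ℝ) (a b : ℝ) (n : ℕ) (h : List E),
    Ex s w (fun h => a * Φ h + b * Ψ h) n h = a * Ex s w Φ n h + b * Ex s w Ψ n h) ∧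
  ((∀ κ, PV (w κ)) → ∀ (Φ Ψ : List E → ℝ) (n : ℕ) (h : List E),
    (∀ h' : List E, h'.length = h.length + n → Φ h' ≤ Ψ h') → Ex s w Φ n h ≤ Ex s w Ψ n h) ∧
  ((∀ κ, PV (w κ)) → ∀ (c : ℝ) (n : ℕ) (h : List E), Ex s w (fun _ => c) n h = c) ∧
  ((∀ κ, PV (w κ)) → ∀ (Φ : List E → ℝ) (n k : ℕ),
    Ex s w (fun h => Φ (h.drop k)) (n + k) [] = Ex s w Φ n [])

/-- COOKIES ARE USED AT MOST ONCE. Proof: (1) continuity: induction on `n`. (2) induction on `n`: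
the next cookie is `(x, r x + 1) ≠ (z, i)`, and `i ≤ (up r x) z`. (3) induction on `n`, generalising
`h`: first (2'): if `i ≤ pv s z h` then `Ex s w Φ n h` does not depend on `w (z, i)`. Let `κ = (z, i)`:
if it is the cookie `(pos s h, vis s h)`, then it is used now and not later (2'), otherwise use the
induction hypothesis for the histories `e :: h`. (4) induction on `n` (or use (3), (4) of `S_Pa`;
all weights are nonnegative with sum one). -/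
def S_Ma : Prop := ∀ {V E : Type} [AddCommGroup V] [DecidableEq V] [Fintype E] [DecidableEq E]
  (s : E → V),
  (∀ (Φ : List E → ℝ) (n : ℕ) (h : List E),
    Continuous (fun w : V × ℕ → E → ℝ => Ex s w Φ n h)) ∧
  (∀ (f : V → ℝ) (n : ℕ) (x : V) (r : V → ℕ) (z : V) (i : ℕ) (p : E → ℝ) (w : V × ℕ → E → ℝ),
    i ≤ r z → U s (Function.update w (z, i) p) f n x r = U s w f n x r) ∧
  (∀ (Φ : List E → ℝ) (n : ℕ) (h : List E) (l : List (V × ℕ)), MA l (fun w => Ex s w Φ n h)) ∧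
  (∀ (Φ : List E → ℝ) (n : ℕ) (h : List E), (∀ h', |Φ h'| ≤ 1) → Bd (fun w => Ex s w Φ n h))

/-- FINITE RANGE. Proof: `B` is the set of the positions of the histories of length `≤ n`; on the way
the cookies `(pos s h, vis s h)` with `h.length < n` are used, `1 ≤ vis s h ≤ h.length + 1`
(`pv s z h ≤ h.length`). -/
def S_Dp : Prop := ∀ {V E : Type} [AddCommGroup V] [DecidableEq V] [Fintype E] (s : E → V) (n : ℕ),
  ∃ B : Finset V, ∀ (Φ : List E → ℝ) (w w' : V × ℕ → E → ℝ),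
    (∀ z ∈ B, ∀ i ∈ Finset.Icc 1 n, w (z, i) = w' (z, i)) → Ex s w Φ n [] = Ex s w' Φ n []

/-! ### domination and chaos -/

/-- MEAN AND SECOND MOMENT. Proof: induction on `l`, for all `F`. Put `W l o κ = ω κ o` for `κ ∈ l`,
`q` otherwise. `W (κ :: l) o` is `W l o` updated at `κ` by `ω κ o`, so by `MA`
`F (W (κ :: l) o) = ∑ e, ω κ o e * c e o` with `c e o = sb F κ (dl e) (W l o)`, which is a bounded
measurable function of the `ω κ' o`, `κ' ∈ l`, so independent of `ω κ` (`iIndepFun.indepFun_finset`).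
Hence the first moment is `∑ e, q e * ∫ c e o`, and by `MA` again `∑ e, q e * c e o =
sb F κ q (W l o)`. The second moment is `∑ a, ∑ e, (∫ ω κ o a * ω κ o e) * ∫ c a o * c e o`, i.e. the
integral over `o` of `∫ (∑ e, ω κ o' e * c e o) ^ 2 dP(o')`, which by `dom` is at most
`lam * ∑ e, q e * c e o ^ 2 + (1 - lam) * (sb F κ q (W l o)) ^ 2`. The functions `sb F κ (dl e)` and
`sb F κ q` satisfy the hypotheses for `l` (`q` is a probability vector by `mean`, `pv`;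
`Function.update_comm`). -/
def S_Sw : Prop := ∀ {ι E Ω : Type} [DecidableEq ι] [Countable ι] [Fintype E] [DecidableEq E]
  [MeasurableSpace Ω] (P : Measure Ω) (ω : ι → Ω → E → ℝ) (q : E → ℝ) (lam : ℝ),
  Ck P ω q lam → ∀ (l : List ι) (F : (ι → E → ℝ) → ℝ), l.Nodup → Continuous F → Bd F → MA l F →
    ∫ o, F (fun κ => if κ ∈ l then ω κ o else q) ∂P = F (fun _ => q) ∧
    ∫ o, F (fun κ => if κ ∈ l then ω κ o else q) ^ 2 ∂P ≤ T lam q l F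

/-- THE AVERAGED LAW (use `S_Sw`, `S_Ma`, `S_Dp`). Proof: `F w = Ex s w Φ n []`, `l` = the list of the
cookies `(z, i)`, `z ∈ B`, `1 ≤ i ≤ n` (`S_Dp`), so `F (fun κ => ω κ o) = F (W l o)`. -/
def S_Mn : Prop := ∀ {V E Ω : Type} [AddCommGroup V] [DecidableEq V] [Countable V] [Fintype E]
  [DecidableEq E] [MeasurableSpace Ω] (s : E → V) (P : Measure Ω) (ω : V × ℕ → Ω → E → ℝ)
  (q : E → ℝ) (lam : ℝ), Ck P ω q lam → ∀ (Φ : List E → ℝ) (n : ℕ), (∀ h, |Φ h| ≤ 1) →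
    Measurable (fun o => Ex s (fun κ => ω κ o) Φ n []) ∧
    ∫ o, Ex s (fun κ => ω κ o) Φ n [] ∂P = Ex s (fun _ => q) Φ n []

/-- CHAOS EXPANSION. Proof. (1) For every `l`, every family `F e` and `G = ∑ e, q e * F e`
(pointwise): `∑ e, q e * T lam q l (F e) = T lam q l G + ∑ e, q e * T lam q l (F e - G)` (induction on
`l`: `T` is a sum of squares of values). (2) `T lam q l F = ∑ k ∈ range (l.length + 1), lam ^ k *
Cs q l k F` for `MA l F`, `l` nodup, induction on `l`: as `∑ e, q e * sb F κ (dl e) = sb F κ q` (`MA`),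
(1) gives `T (κ :: l) F = T l (sb F κ q) + lam * ∑ e, q e * T l (sb F κ (dl e) - sb F κ q)`; these
functions satisfy `MA l`. (3) `Cs ≥ 0`, so for `0 ≤ lam ≤ 1`, with `T 1 q l F = ∑ k, Cs q l k F`:
`T lam q l F ≤ Cs q l 0 F + ∑ 1 ≤ k ≤ K, Cs q l k F + lam ^ (K + 1) * T 1 q l F`, `Cs q l 0 F =
F (fun _ => q) ^ 2` for nodup `l` (update of the constant environment by `q`), and `T 1 q l F ≤ 1` by
`Bd` (induction). -/
def S_Ch : Prop := ∀ {ι E : Type} [DecidableEq ι] [Fintype E] [DecidableEq E] (q : E → ℝ)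
  (lam : ℝ), PV q → 0 ≤ lam → lam ≤ 1 → ∀ (l : List ι) (F : (ι → E → ℝ) → ℝ), l.Nodup → Bd F →
  MA l F → ∀ K : ℕ, T lam q l F ≤
    F (fun _ => q) ^ 2 + ∑ k ∈ Finset.Icc 1 K, Cs q l k F + lam ^ (K + 1)

open Classical in
/-- CHAOS AS A SUM OVER TUPLES. Proof: induction on `l` (for all `k`, `F`, with `l ⊆ J'` for a finset
`J'`, `κ ∉ J'`, `J' ∪ {κ} ⊆ J`). `Cs q (κ :: l) (k+1) F = Cs q l (k+1) (sb F κ q) + ∑ e, q e *
Cs q l k (D e)`, `D e = sb F κ (dl e) - sb F κ q`. For the tuples `c` of `l` one has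
`Dl q (ofFn c) (sb F κ q) = Dl q (ofFn c) F` (all updates are at other cookies than `κ`, and finally
the environment is `q` at `κ`), and `Dl q ((κ, e) :: ofFn c) F = Dl q (ofFn c) (D e)` (`Dl` is linear).
The injective tuples over `l` of length `k + 1` and the tuples `(κ, e) :: c`, `c` injective over `l` of
length `k`, are different injective tuples over `κ :: l`; all terms are nonnegative. -/
def S_Tu : Prop := ∀ {ι E : Type} [DecidableEq ι] [Fintype E] [DecidableEq E] (q : E → ℝ),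
  (∀ e, 0 ≤ q e) → ∀ (l : List ι) (J : Finset ι), l.Nodup → (∀ κ ∈ l, κ ∈ J) →
  ∀ (k : ℕ) (F : (ι → E → ℝ) → ℝ), Cs q l k F ≤
    ∑ c ∈ Fintype.piFinset (fun _ : Fin k => J ×ˢ (Finset.univ : Finset E)),
      if Function.Injective (fun j => (c j).1) then
        (∏ j, q (c j).2) * Dl q (List.ofFn c) F ^ 2 else 0

/-- THE DIFFERENCES OF `U` (use `S_Ma`). Proof. (0) For a list `c` with different cookies `Dl q c F`
does not depend on the order (`List.Perm`, `Function.update_comm`); `List.ofFn c` is a permutation of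
`c l :: List.ofFn (rmv l c)`; `Dl` is linear in `F`. (1) If `F` does not depend on the cookie `κ` and
`κ` occurs in `c` then `Dl q c F = 0`. (2) Induction on `N`, for all `k, x, r, c`. `N = 0`: constant
functions. `N + 1`: `F w = ∑ e, w κ0 e * G e w`, `κ0 = (x, r x + 1)`, `G e w = U s w f N (x + s e)
(up r x)` does not depend on `w κ0` (`S_Ma`). If `κ0` does not occur in `c`:
`Dl q c F = ∑ e, q e * Dl q c (G e)` and the sum over `l` in `phi` is `0`. If `κ0 = (c l).1` (one `l`):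
`Dl q (ofFn c) F = Dl q (ofFn (rmv l c)) (sb F κ0 (dl a)) - Dl q (ofFn (rmv l c)) (sb F κ0 q)`,
`a = (c l).2`, `sb F κ0 p w = ∑ e, p e * G e w`; and `Dl q (ofFn c) (G e) = 0` by (1), so by the
induction hypothesis the first sum in `phi` vanishes. -/
def S_Df : Prop := ∀ {V E : Type} [AddCommGroup V] [DecidableEq V] [Fintype E] [DecidableEq E]
  (s : E → V) (q : E → ℝ) (f : V → ℝ) (N k : ℕ) (x : V) (r : V → ℕ)
  (c : Fin k → (V × ℕ) × E), Function.Injective (fun j => (c j).1) →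
  Dl q (List.ofFn c) (fun w : V × ℕ → E → ℝ => U s w f N x r) = phi s q f N k x r c

/-- THE VARIANCE (use `S_Pa`, `S_Ma`, `S_Dp`, `S_Sw`, `S_Ch`, `S_Tu`, `S_Df`). Proof: `F w =
U s w f n 0 (fun _ => 0) = Ex s w (fun h => f (pos s h)) n []` (`S_Pa`), `B` from `S_Dp`, `l` the list of
the cookies `(z, i)`, `z ∈ B`, `1 ≤ i ≤ n`, so `F (fun κ => ω κ o) = F (W l o)`. By `S_Sw`, with
`m = F (fun _ => q)`: `∫ (F - m) ^ 2 = ∫ F ^ 2 - m ^ 2 ≤ T lam q l F - m ^ 2`; `S_Ch`, `S_Tu`, `S_Df`: the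
chaos of order `k` is at most the sum of `(∏ j, q (c j).2) * phi .. c ^ 2` over all tuples `c` of
cookies in `B × [1, n]` and directions; this is `∑ Z, ‖vec .. Z ..‖ ^ 2` (`EuclideanSpace.norm_eq`,
`Real.sq_sqrt`, reindex `c ↔ (Z, c')`, the number of the cookie is `(c' j).1 + 1`). -/
def S_Vb : Prop := ∀ {V E Ω : Type} [AddCommGroup V] [DecidableEq V] [Countable V] [Fintype E]
  [DecidableEq E] [MeasurableSpace Ω] (s : E → V) (P : Measure Ω) (ω : V × ℕ → Ω → E → ℝ)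
  (q : E → ℝ) (lam : ℝ), Ck P ω q lam → ∀ (f : V → ℝ) (n : ℕ), (∀ x, |f x| ≤ 1) →
  ∃ B : Finset V, ∀ K : ℕ,
    ∫ o, (U s (fun κ => ω κ o) f n 0 (fun _ => 0) - U s (fun _ => q) f n 0 (fun _ => 0)) ^ 2 ∂P ≤
      ∑ k ∈ Finset.Icc 1 K, ∑ Z ∈ Fintype.piFinset (fun _ : Fin k => B),
        ‖vec s q f n k Z n 0 (fun _ => 0)‖ ^ 2 + lam ^ (K + 1)

/-! ### the bounds of the vectors -/

/-- RECURSION OF THE VECTORS. Proof: by the definition of `phi` the difference is `∑ l, y l` with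
`y l = 0` if `Z l ≠ x`, and for `Z l = x` the entry of `y l` at `c` is, if `(c l).1 + 1 = r x + 1`,
`√q(a) * (v a (rmv l c) - ∑ e, q e * v e (rmv l c))`, `a = (c l).2`, `v e = vec s q f n k (rmv l Z) N
(x + s e) (up r x)`, and `0` otherwise (the weight `∏ j, √q((c j).2)` factors: `Fin.prod_univ_succAbove`).
So `‖y l‖ ^ 2 ≤ ∑ a, q a * ‖v a - ∑ e, q e • v e‖ ^ 2` (sum over `c ↔ (c l, rmv l c)`,
`Fin.insertNthEquiv`; at most one number `(c l).1` contributes) and by convexity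
`‖v a - ∑ e, q e • v e‖ ^ 2 ≤ ∑ e, q e * ‖v a - v e‖ ^ 2`. -/
def S_Vr : Prop := ∀ {V E : Type} [AddCommGroup V] [DecidableEq V] [Fintype E] (s : E → V)
  (q : E → ℝ) (f : V → ℝ), PV q → ∀ (n k : ℕ) (Z : Fin (k + 1) → V) (N : ℕ) (x : V) (r : V → ℕ),
  ‖vec s q f n (k + 1) Z (N + 1) x r -
    ∑ e, q e • vec s q f n (k + 1) Z N (x + s e) (up r x)‖ ≤
  ∑ l, if Z l = x then Real.sqrt (∑ a, ∑ e, q a * q e *
    ‖vec s q f n k (rmv l Z) N (x + s a) (up r x) -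
      vec s q f n k (rmv l Z) N (x + s e) (up r x)‖ ^ 2) else 0

/-- DEPENDENCE ON THE NUMBERS OF VISITS. Proof: the same for `phi`, if `r` and `r'` agree at all sites
`(c j).1.1`: induction on `N`, for all `k, x, r, r', c`; `up r x`, `up r' x` agree at these sites, too,
and the condition `(c l).1 = (x, r x + 1)` is the same (if `x = (c l).1.1` then `r x = r' x`). -/
def S_Rd : Prop := ∀ {V E : Type} [AddCommGroup V] [DecidableEq V] [Fintype E] (s : E → V)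
  (q : E → ℝ) (f : V → ℝ) (n k : ℕ) (Z : Fin k → V) (N : ℕ) (x : V) (r r' : V → ℕ),
  (∀ j, r (Z j) = r' (Z j)) → vec s q f n k Z N x r = vec s q f n k Z N x r'

/-- BOUND BY THE GREEN FUNCTION (use `S_Vr`). Proof: induction on `N`; `vec .. (k+1) .. 0 .. = 0`;
`S_Vr`, the triangle inequality, the induction hypothesis at `x + s e`, and `gr s q (N+1) x z =
(if x = z then 1 else 0) + ∑ e, q e * gr s q N (x + s e) z`. -/
def S_Mb : Prop := ∀ {V E : Type} [AddCommGroup V] [DecidableEq V] [Fintype E] (s : E → V)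
  (q : E → ℝ) (f : V → ℝ), PV q → ∀ (n k : ℕ) (g : (Fin k → V) → V → ℝ), (∀ Z x, 0 ≤ g Z x) →
  (∀ Z x r N, N ≤ n → ∑ a, ∑ e, q a * q e * ‖vec s q f n k Z N (x + s a) r -
      vec s q f n k Z N (x + s e) r‖ ^ 2 ≤ g Z x ^ 2) →
  ∀ (N : ℕ), N ≤ n → ∀ (Z : Fin (k + 1) → V) (x : V) (r : V → ℕ),
    ‖vec s q f n (k + 1) Z N x r‖ ≤ ∑ j, gr s q N x (Z j) * g (rmv j Z) (Z j)

/-- GRADIENT (use `S_Vr`, `S_Rd`). Proof: fix `r`; `b N z = vec .. Z (N+1) z r - ∑ e, q e •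
vec .. Z N (z + s e) r`. If `z` is not one of the `Z j` then `b N z = 0` (`S_Vr`: the right side is `0`,
and `up r z` agrees with `r` at the `Z j`, `S_Rd`); always `‖b N z‖ ≤ 2 m` for `N + 1 ≤ n`. By induction
on `N`: `vec .. Z N x r = ∑ t < N, ∑ z ∈ S, pt s q t x z • b (N - 1 - t) z`, where `S` is the set of the
`Z j` (`vec .. (k+1) .. 0 .. = 0`). Subtract the formulas for `x` and `y`. -/
def S_Du : Prop := ∀ {V E : Type} [AddCommGroup V] [DecidableEq V] [Fintype E] (s : E → V)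
  (q : E → ℝ) (f : V → ℝ), PV q → ∀ (n k : ℕ) (Z : Fin (k + 1) → V) (m : ℝ), 0 ≤ m →
  (∀ (N : ℕ) (x : V) (r : V → ℕ), N ≤ n → ‖vec s q f n (k + 1) Z N x r‖ ≤ m) →
  ∀ (N : ℕ), N ≤ n → ∀ (x y : V) (r : V → ℕ),
    ‖vec s q f n (k + 1) Z N x r - vec s q f n (k + 1) Z N y r‖ ≤
      2 * m * ∑ j, ∑ t ∈ Finset.range n, |pt s q t x (Z j) - pt s q t y (Z j)|

/-- THE BOUNDS `hh` (use `S_Mb`, `S_Du`). Proof: induction on `k` for the first claim. `k = 0`: the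
vectors have one entry `phi s q f N 0 x r c`, and `|phi N 0 (x + s a) r c - phi N 0 (x + s e) r' c| ≤ L`
by induction on `N`; `∑ a, ∑ e, q a * q e = 1`. Step: `S_Mb` with `g = √hh` gives
`‖vec .. (k+1) Z N x r‖ ≤ ∑ j, gr N x (Z j) * √hh ≤ m := G * ∑ j, √hh (rmv j Z) (Z j)` (`gr N ≤ gr n ≤ G`),
`m ^ 2 ≤ G ^ 2 (k+1) ∑ hh` (`sq_sum_le_card_mul_sum_sq`), and `S_Du`. The second claim is `S_Mb` and
`sq_sum_le_card_mul_sum_sq`. -/
def S_Hb : Prop := ∀ {V E : Type} [AddCommGroup V] [DecidableEq V] [Fintype E] (s : E → V)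
  (q : E → ℝ) (f : V → ℝ), PV q → ∀ (n : ℕ) (L G : ℝ), 0 ≤ G → (∀ x z, gr s q n x z ≤ G) →
  (∀ x a e, |f (x + s a) - f (x + s e)| ≤ L) →
  (∀ (k : ℕ) (Z : Fin k → V) (x : V) (r : V → ℕ) (N : ℕ), N ≤ n →
    ∑ a, ∑ e, q a * q e * ‖vec s q f n k Z N (x + s a) r -
      vec s q f n k Z N (x + s e) r‖ ^ 2 ≤ hh s q n L G k Z x) ∧
  (∀ (k : ℕ) (Z : Fin (k + 1) → V) (x : V) (r : V → ℕ) (N : ℕ), N ≤ n →
    ‖vec s q f n (k + 1) Z N x r‖ ^ 2 ≤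
      ((k : ℝ) + 1) * ∑ j, gr s q n x (Z j) ^ 2 * hh s q n L G k (rmv j Z) (Z j))

/-- SUMS OF `hh`. Proof: both claims together by induction on `k`. In `hh (k+1) Z x` there are
`(k+1)²` products `hh k (rmv l Z) (Z l) * Gam x (Z j)`; each sum is at most `g2 * AA k`:
First claim, `l = j`: `∑ z ∈ B, Gam x z * ∑ Z' ∈ B^k, hh k Z' z`. First claim, `l ≠ j`:
`∑ z ∈ B, Gam x z * ∑ Z ∈ B^(k+1) with Z j = z, hh k (rmv l Z) (Z l)`, and the inner sum is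
`∑ y ∈ B, ∑ Z' ∈ B^k with Z' j' = z, hh k Z' y` where `l.succAbove j' = j` (bijection
`Z ↔ (Z l, rmv l Z)`, `Fin.insertNthEquiv`), at most `AA k` by the second claim. Second claim (slot `i`,
value `z`): sum over `x` first, `∑ x ∈ B, Gam x (Z j) ≤ g2`; then `∑ Z ∈ B^(k+1) with Z i = z,
hh k (rmv l Z) (Z l)` is at most `∑ Z' ∈ B^k, hh k Z' z` for `l = i` and the inner sum as above for
`l ≠ i`. -/
def S_L2 : Prop := ∀ {V E : Type} [AddCommGroup V] [DecidableEq V] [Fintype E] (s : E → V)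
  (q : E → ℝ), PV q → ∀ (n : ℕ) (L G g2 : ℝ),
  (∀ (B : Finset V) (x : V), ∑ z ∈ B, Gam s q n x z ≤ g2) →
  (∀ (B : Finset V) (z : V), ∑ x ∈ B, Gam s q n x z ≤ g2) → ∀ (k : ℕ) (B : Finset V),
  (∀ x, ∑ Z ∈ Fintype.piFinset (fun _ : Fin k => B), hh s q n L G k Z x ≤ AA L G g2 k) ∧
  (∀ (j : Fin k) (z : V), ∑ x ∈ B, ∑ Z ∈ (Fintype.piFinset (fun _ : Fin k => B)).filter
    (fun Z => Z j = z), hh s q n L G k Z x ≤ AA L G g2 k)

/-- THE CHAOS OF ORDER `k + 1` (use `S_Hb`, `S_L2`). Proof: the second claim of `S_Hb` and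
`∑ Z ∈ B^(k+1), gr 0 (Z j) ^ 2 * hh k (rmv j Z) (Z j) = ∑ z ∈ B, gr 0 z ^ 2 * ∑ Z' ∈ B^k, hh k Z' z`. -/
def S_Wk : Prop := ∀ {V E : Type} [AddCommGroup V] [DecidableEq V] [Fintype E] (s : E → V)
  (q : E → ℝ) (f : V → ℝ), PV q → ∀ (n : ℕ) (L G g2 S : ℝ), 0 ≤ G →
  (∀ x z, gr s q n x z ≤ G) → (∀ x a e, |f (x + s a) - f (x + s e)| ≤ L) →
  (∀ (B : Finset V) (x : V), ∑ z ∈ B, Gam s q n x z ≤ g2) →
  (∀ (B : Finset V) (z : V), ∑ x ∈ B, Gam s q n x z ≤ g2) →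
  (∀ B : Finset V, ∑ z ∈ B, gr s q n 0 z ^ 2 ≤ S) → ∀ (k : ℕ) (B : Finset V),
  ∑ Z ∈ Fintype.piFinset (fun _ : Fin (k + 1) => B), ‖vec s q f n (k + 1) Z n 0 (fun _ => 0)‖ ^ 2 ≤
    ((k : ℝ) + 1) ^ 2 * S * AA L G g2 k

/-- THE CHOICE OF `K`. Proof: `K = ⌊√(log n)⌋`. `AA L G g2 k = L² (4 G² g2)^k (k!)⁴`, so the sum is at
most `Λ² C n^(-1/4) K³ (4 C³ (1 + log n)⁴ K⁴ + 1)^K ≤ Λ² exp (- (log n) / 4 + C'' √(log n) (1 +
log (1 + log n)))`, which is at most `C' Λ² exp (- √(log n))`; and `lam ^ (K+1) ≤ lam ^ √(log n)`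
(if `lam = 0` the power is `0`). Any `c ≤ min (1, - log lam)` will do. -/
def S_As : Prop := ∀ (C lam : ℝ), 0 ≤ C → 0 ≤ lam → lam < 1 → ∃ c C' : ℝ, 0 < c ∧
  ∀ n : ℕ, 1 ≤ n → ∀ Λ : ℝ, 0 ≤ Λ → ∃ K : ℕ,
    ∑ k ∈ Finset.range K, ((k : ℝ) + 1) ^ 2 * (C * (n : ℝ) ^ (3 / 4 : ℝ)) *
      AA (Λ / Real.sqrt n) (C * (1 + Real.log n)) (C * (1 + Real.log n) ^ 2) k + lam ^ (K + 1) ≤
    C' * (1 + Λ ^ 2) * Real.exp (-(c * Real.sqrt (Real.log n)))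

/-- the input from the random walk -/
def Inp {V E : Type} [AddCommGroup V] [DecidableEq V] [Fintype E] (s : E → V) (q : E → ℝ) : Prop :=
  ∃ C : ℝ, 0 ≤ C ∧ ∀ n : ℕ, 1 ≤ n → (∀ x z, gr s q n x z ≤ C * (1 + Real.log n)) ∧
    (∀ (B : Finset V) (x : V), ∑ z ∈ B, Gam s q n x z ≤ C * (1 + Real.log n) ^ 2) ∧
    (∀ (B : Finset V) (z : V), ∑ x ∈ B, Gam s q n x z ≤ C * (1 + Real.log n) ^ 2) ∧
    (∀ B : Finset V, ∑ z ∈ B, gr s q n 0 z ^ 2 ≤ C * (n : ℝ) ^ (3 / 4 : ℝ))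

/-- NOISE SENSITIVITY (use `S_Vb`, `S_Wk`, `S_As`). Proof: immediate; the sum over `k ∈ Icc 1 K` in
`S_Vb` is the sum over `k ∈ range K` in `S_As`. -/
def S_Vn : Prop := ∀ {V E Ω : Type} [AddCommGroup V] [DecidableEq V] [Countable V] [Fintype E]
  [DecidableEq E] [MeasurableSpace Ω] (s : E → V) (P : Measure Ω) (ω : V × ℕ → Ω → E → ℝ)
  (q : E → ℝ) (lam : ℝ), Ck P ω q lam → Inp s q → ∃ c C' : ℝ, 0 < c ∧
  ∀ (f : V → ℝ) (n : ℕ) (Λ : ℝ), 1 ≤ n → 0 ≤ Λ → (∀ x, |f x| ≤ 1) →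
    (∀ x a e, |f (x + s a) - f (x + s e)| ≤ Λ / Real.sqrt n) →
    ∫ o, (U s (fun κ => ω κ o) f n 0 (fun _ => 0) - U s (fun _ => q) f n 0 (fun _ => 0)) ^ 2 ∂P ≤
      C' * (1 + Λ ^ 2) * Real.exp (-(c * Real.sqrt (Real.log n)))

/-! ### the random walk -/

/-- the step law as an element of the group algebra -/
noncomputable def Qa {V E : Type} [AddCommGroup V] [Fintype E] (s : E → V) (q : E → ℝ) :
    AddMonoidAlgebra ℝ V := ∑ e, AddMonoidAlgebra.single (s e) (q e)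

/-- GROUP ALGEBRA. Proof: induction on `t`; `(Qa * H) y = ∑ e, q e * H (y - s e)`. -/
def S_Al : Prop := ∀ {V E : Type} [AddCommGroup V] [DecidableEq V] [Fintype E] (s : E → V)
  (q : E → ℝ) (t : ℕ) (x z : V), pt s q t x z = (Qa s q ^ t).coeff (z - x)

/-- GRADIENT OF THE TRANSITION PROBABILITIES (use `S_Al`). Proof: for `H` in the group algebra let `H~`
be its image under `y ↦ -y` (a ring automorphism); `(H * H~) 0 = ∑ y, H y ^ 2`. Let `Q = Qa s q`,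
`R = Q * Q~`, `c t = (R ^ t) 0 = ∑ y, (Q ^ t) y ^ 2 ≤ κ` for this `t` (the coefficients are `≥ 0`, with
sum one). `c t - c (t+1) ≥ c (t+1) - c (t+2)`, since `(R ^ t * (1 - R) ^ 2) 0 = (H * H~) 0 ≥ 0` for
`H = Q ^ t * (1 - R)`; and `c t - c (t+1) ≥ 0`, since with `H = Q ^ T * (single (s a) 1 - single (s e) 1)`:
`∑ a, ∑ e, q a * q e * (H * H~) 0 = 2 (c T - c (T+1))` (this is a bound for the sums in question, the
sum over `y = z - x` in a finite set). So `(t + 1) (c T - c (T+1)) ≤ ∑ t ≤ u ≤ 2t, (c u - c (u+1)) ≤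
c t ≤ κ` for `T ≥ 2 t`. -/
def S_Gd : Prop := ∀ {V E : Type} [AddCommGroup V] [DecidableEq V] [Fintype E] (s : E → V)
  (q : E → ℝ), PV q → ∀ (κ : ℝ) (t : ℕ), (∀ x z, pt s q t x z ≤ κ) → ∀ T : ℕ, 2 * t ≤ T →
  (∀ (B : Finset V) (x : V), ∑ a, ∑ e, q a * q e *
    ∑ z ∈ B, (pt s q T (x + s a) z - pt s q T (x + s e) z) ^ 2 ≤ 2 * κ / ((t : ℝ) + 1)) ∧
  (∀ (B : Finset V) (z : V), ∑ a, ∑ e, q a * q e *
    ∑ x ∈ B, (pt s q T (x + s a) z - pt s q T (x + s e) z) ^ 2 ≤ 2 * κ / ((t : ℝ) + 1))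

/-- LOGARITHMIC BOUNDS (use `S_Gd`). Proof: `∑ t < n, C/(t+1) ≤ C (1 + log n)`. By Minkowski's
inequality for the norm `‖D‖² = ∑ a, ∑ e, q a * q e * ∑ z ∈ B, D a e z ^ 2` (e.g. in a Euclidean
space, or Cauchy-Schwarz for the double sum over `t, t'`) the square root of `∑ z ∈ B, Gam s q n x z`
is at most `∑ t < n, √(2 (C/(⌊t/2⌋+1)) / (⌊t/2⌋+1)) ≤ ∑ t < n, 2 √(2C) / (t+1)`, as
`⌊t/2⌋ + 1 ≥ (t+1)/2`. The same for the sums over `x`. -/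
def S_Lg : Prop := ∀ {V E : Type} [AddCommGroup V] [DecidableEq V] [Fintype E] (s : E → V)
  (q : E → ℝ), PV q → ∀ C : ℝ, 0 ≤ C → (∀ t x z, pt s q t x z ≤ C / ((t : ℝ) + 1)) →
  ∀ n : ℕ, 1 ≤ n → (∀ x z, gr s q n x z ≤ C * (1 + Real.log n)) ∧
    (∀ (B : Finset V) (x : V), ∑ z ∈ B, Gam s q n x z ≤ 8 * C * (1 + Real.log n) ^ 2) ∧
    (∀ (B : Finset V) (z : V), ∑ x ∈ B, Gam s q n x z ≤ 8 * C * (1 + Real.log n) ^ 2)

/-- THE GREEN FUNCTION IN `ℓ²`, THREE DIMENSIONS. Proof: `∑ z ∈ B, pt t 0 z ^ 2 ≤ C (t+1)^(-3/2)`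
(`∑ z ∈ B, pt t 0 z ≤ 1`), Minkowski over `t < n`, `∑ t < n, (t+1)^(-3/4) ≤ 4 n^(1/4)`. -/
def S_S3 : Prop := ∀ {V E : Type} [AddCommGroup V] [DecidableEq V] [Fintype E] (s : E → V)
  (q : E → ℝ), PV q → ∀ C : ℝ, 0 ≤ C →
  (∀ t x z, pt s q t x z ≤ C * ((t : ℝ) + 1) ^ (-(3 / 2) : ℝ)) →
  ∀ n : ℕ, 1 ≤ n → ∀ B : Finset V, ∑ z ∈ B, gr s q n 0 z ^ 2 ≤ 16 * C * (n : ℝ) ^ (3 / 4 : ℝ)

/-- THE GREEN FUNCTION IN `ℓ²`, WITH DRIFT. Proof: let `μ = ∑ e, q e * φ (s e) > 0` (otherwise take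
`-φ`), `b ≥ 1` a bound of the `|φ (s e)|`, `M η = ∑ e, q e * exp (η φ (s e))`. By induction on `t`:
`∑ z ∈ B, pt t x z * exp (η φ (z - x)) ≤ M η ^ t`. So for `s ≤ t < n`, `η > 0`:
`∑ z ∈ B, pt s 0 z * pt t 0 z ≤ M η ^ s * M (-η) ^ t`. From `exp x ≤ 1 + x + x²` for `|x| ≤ 1`:
`M η * M (-η) ≤ (1 + η²b²)² ≤ exp (2 η²b²)`, `M (-η) ≤ exp (-ημ + η²b²) ≤ exp (-ημ/2)` for
`0 ≤ η ≤ η0 = min (1/b) (μ/(2b²))`. With `η = η0/√n`: the sum is `≤ exp 2 * exp (-c0 (t - s)/√n)`,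
`c0 = η0 μ/2`, and it is `≤ C/(t+1)`; so it is at most `C1 (t+1)^(-3/4) exp (-c (t-s)/√n)`. Sum over
`s ≤ t < n`: `∑ s, exp (-c (t-s)/√n) ≤ 1/(1 - exp (-c/√n)) ≤ 1 + √n/c`, `∑ t < n, (t+1)^(-3/4) ≤
4 n^(1/4)`; total at most `C' n^(3/4)`. -/
def S_S2 : Prop := ∀ {V E : Type} [AddCommGroup V] [DecidableEq V] [Fintype E] (s : E → V)
  (q : E → ℝ), PV q → ∀ (φ : V →+ ℝ), ∑ e, q e * φ (s e) ≠ 0 → ∀ C : ℝ, 0 ≤ C →
  (∀ t x z, pt s q t x z ≤ C / ((t : ℝ) + 1)) → ∃ C' : ℝ, 0 ≤ C' ∧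
  ∀ n : ℕ, 1 ≤ n → ∀ B : Finset V, ∑ z ∈ B, gr s q n 0 z ^ 2 ≤ C' * (n : ℝ) ^ (3 / 4 : ℝ)

/-- PRODUCTS OF BINOMIAL LAWS. Proof: `b i ^ j = ∑ l ≤ j, 2^(-j) (j choose l) single (l • u i +
(j - l) • u0) 1`; multiply (`Finset.prod_univ_sum`). At most one `l = (l i)` contributes to the
coefficient at `y`, as `∑ i, (l i - l' i) • (u i - u0) = 0` implies `l = l'`. And
`(j choose l) 2^(-j) ≤ (j + 1)^(-1/2)`: `centralBinom n ^ 2 * (2 n + 1) ≤ 16 ^ n` (induction on `n`),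
`(2n+1 choose n) 2^(-2n-1) = (2n+2 choose n+1) 2^(-2n-2)`. -/
def S_Bi : Prop := ∀ {V : Type} [AddCommGroup V] (m : ℕ) (u0 : V) (u : Fin m → V),
  (∀ l : Fin m → ℤ, ∑ i, l i • (u i - u0) = 0 → l = 0) → ∀ (j : Fin m → ℕ) (y : V),
  (∏ i, (AddMonoidAlgebra.single u0 (1 / 2 : ℝ) + AddMonoidAlgebra.single (u i) (1 / 2 : ℝ)) ^ j i :
    AddMonoidAlgebra ℝ V).coeff y ≤ ∏ i, 1 / Real.sqrt ((j i : ℝ) + 1)

/-- THE MAXIMUM OF THE TRANSITION PROBABILITIES (use `S_Al`, `S_Bi`). Proof: let `m ≥ 1` (`m = 0`: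
`pt ≤ 1`), `δ` the minimum of `q f0` and the `q (g i)`, `b i = (single (s f0) + single (s (g i)))/2`. For
each `i`: `Q = Qa s q = (2 δ) b i + ρ i`, `ρ i ≥ 0` with the mass `1 - 2 δ ≥ 0` (`g i ≠ f0`). For
`τ = t / m` (floor): `Q ^ (m τ) = ∏ i, (2 δ b i + ρ i) ^ τ = ∑ j ∈ [0, τ]^m, ∏ i, (τ choose j i)
(2 δ)^(j i) * ρ i ^ (τ - j i) * b i ^ (j i)` (`add_pow`, `Finset.prod_univ_sum`). Multiplication by an
element `≥ 0` of mass `μ` multiplies the maximum of the coefficients at most by `μ`. So by `S_Bi` the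
coefficients of `Q ^ (m τ)` are at most `∏ i, ∑ j ≤ τ, (τ choose j) (2δ)^j (1-2δ)^(τ-j) (j+1)^(-1/2)`,
and by Cauchy-Schwarz each factor is at most the root of `∑ j, (τ choose j) (2δ)^j (1-2δ)^(τ-j)/(j+1)
≤ 1/(2δ (τ+1))`. Finally `Q ^ t = Q ^ (t - m τ) * Q ^ (m τ)` and `τ + 1 ≥ (t+1)/m`. -/
def S_Su : Prop := ∀ {V E : Type} [AddCommGroup V] [DecidableEq V] [Fintype E] (s : E → V)
  (q : E → ℝ), PV q → ∀ (m : ℕ) (f0 : E) (g : Fin m → E), 0 < q f0 → (∀ i, 0 < q (g i)) →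
  (∀ l : Fin m → ℤ, ∑ i, l i • (s (g i) - s f0) = 0 → l = 0) →
  ∃ C : ℝ, 0 ≤ C ∧ ∀ t x z, pt s q t x z ≤ C * ((t : ℝ) + 1) ^ (-((m : ℝ) / 2))

/-- NONSINGULAR COVARIANCE. Proof: take any `f0` with `q f0 > 0`. If the real vectors `st d e - st d f0`
with `q e > 0` did not span `ℝ^d` there would be `u ≠ 0` with `⟨u, st d e⟩ = ⟨u, st d f0⟩` for all
these `e`, so `⟨u, st d e - drift q⟩ = 0` whenever `q e ≠ 0` and `(Sg q) *ᵥ u = 0`. A spanning set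
contains a basis. Linear independence over `ℝ` implies it over `ℤ`. -/
def S_Sp : Prop := ∀ (d : ℕ) (q : Dr d → ℝ), PV q → (Sg q).det ≠ 0 →
  ∃ (f0 : Dr d) (g : Fin d → Dr d), 0 < q f0 ∧ (∀ i, 0 < q (g i)) ∧
    ∀ l : Fin d → ℤ, ∑ i, l i • (st d (g i) - st d f0) = 0 → l = 0

/-- THE INPUT (use `S_Su`, `S_Sp`, `S_Lg`, `S_S3`, `S_S2`). Proof: `d ≥ 3`: `S_Su` with the first three
of the directions `g i` of `S_Sp` (extend `l` by `0`), `(t+1)^(-3/2) ≤ 1/(t+1)`. `d = 2`: `m = 2`,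
`φ x = x i` with `drift q i ≠ 0`. -/
def S_In : Prop := ∀ (d : ℕ) (q : Dr d → ℝ), PV q → (Sg q).det ≠ 0 →
  (3 ≤ d ∨ (d = 2 ∧ drift q ≠ 0)) → Inp (st d) q

/-! ### the law of the cookies -/

/-- DOMINATION. Proof: `M c = ∫ (∑ e, X o e * c e) ^ 2` is a quadratic form, `M c ≤ ∑ e, q e * c e ^ 2`
(Cauchy-Schwarz), with equality iff for a.e. `o` the `c e` with `X o e > 0` are all equal. On the compact
set of the `c` with `∑ e, q e * c e = 0`, `∑ e, q e * c e ^ 2 = 1`, `c e = 0` if `q e = 0`, let `lam` be the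
maximum of `M` (if the set is empty, i.e. `q` is a unit vector, `lam = 0`). If `lam = 1`, attained at `c`:
take `e0` with `q e0 > 0`, `S = {e : c e = c e0}`: `0 < q(S) < 1` and `X(S)` is `0` or `1` a.s., a
contradiction. General `c`: `X o e = 0` a.s. if `q e = 0`, so assume `c e = ∑ q c` for these `e`;
`c = m + c'` with `m = ∑ e, q e * c e`: `M c = m ^ 2 + M c'` (as `∑ e, X o e = 1`, `∫ X = q`), and
`∑ q c² = m² + ∑ q c'²`. -/
def S_Lm : Prop := ∀ {E Ω : Type} [Fintype E] [MeasurableSpace Ω] (P : Measure Ω)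
  [IsProbabilityMeasure P] (X : Ω → E → ℝ) (q : E → ℝ), Measurable X → (∀ o, PV (X o)) →
  (∀ e, ∫ o, X o e ∂P = q e) →
  (∀ S : Finset E, 0 < ∑ e ∈ S, q e → ∑ e ∈ S, q e < 1 →
    ¬ ∀ᵐ o ∂P, (∑ e ∈ S, X o e = 0 ∨ ∑ e ∈ S, X o e = 1)) →
  ∃ lam : ℝ, 0 ≤ lam ∧ lam < 1 ∧ ∀ c : E → ℝ, ∫ o, (∑ e, X o e * c e) ^ 2 ∂P ≤
    lam * ∑ e, q e * c e ^ 2 + (1 - lam) * (∑ e, q e * c e) ^ 2

/-! ### the averaged walk -/

/-- CENTRAL LIMIT THEOREM FOR THE AVERAGED WALK. Proof: by induction on `N`, with `ξ e = ⟪θ, st d e⟫`: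
`U (cos ⟪θ, nrm q n ·⟫) N x + i U (sin ⟪θ, nrm q n ·⟫) N x = exp (i ⟪θ, nrm q n x⟫) (∑ e, q e *
exp (i ξ e/√n)) ^ N`, so for `N = n`, `x = 0` it is `(∑ e, q e * exp (i (ξ e - ⟪θ, v⟫)/√n)) ^ n`. The law
of `Y e = ξ e - ⟪θ, v⟫` under `q` has mean `0` and variance `σ² = θ ⬝ᵥ Sg q *ᵥ θ`; if `σ = 0` it is
constant; otherwise `ProbabilityTheory.tendsto_charFun_inv_sqrt_mul_pow` for `Y/σ` at `t = σ` (or Taylor:
`∑ e, q e * exp (i Y e/√n) = 1 - σ²/(2n) + O(n^(-3/2))`). -/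
def S_Cl : Prop := ∀ (d : ℕ) (q : Dr d → ℝ), PV q → ∀ θ : EuclideanSpace ℝ (Fin d),
  Tendsto (fun n : ℕ => U (st d) (fun _ => q) (fun x => Real.cos (∑ i, θ i * nrm q n x i)) n 0
    (fun _ => 0)) atTop (𝓝 (Real.exp (-((∑ i, ∑ j, θ i * Sg q i j * θ j) / 2)))) ∧
  Tendsto (fun n : ℕ => U (st d) (fun _ => q) (fun x => Real.sin (∑ i, θ i * nrm q n x i)) n 0
    (fun _ => 0)) atTop (𝓝 0)

/-- TIGHTNESS OF THE AVERAGED WALK. Proof: `E |X_N - x - N v|² = N ∑ i, Sg q i i` by induction on `N`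
(from `x`), `∑ i, Sg q i i = 1 - |v|² ≤ 1`; so `E ‖nrm q n X_n‖² ≤ 1`, and `min 1 (y/M) ≤ (1 + y²)/(2M)`
for `y ≥ 0`. -/
def S_M2 : Prop := ∀ (d : ℕ) (q : Dr d → ℝ), PV q → ∀ (M : ℝ) (n : ℕ), 0 < M → 1 ≤ n →
  U (st d) (fun _ => q) (fun x => min 1 (‖nrm q n x‖ / M)) n 0 (fun _ => 0) ≤ 1 / M

open Classical in
/-- LARGE DEVIATIONS OF THE AVERAGED WALK. Proof: `Ex` with the constant environment `q`: the last
`k` steps. For fixed `i` and sign `σ`: `1(a < σ D i) ≤ exp (η (σ D i) - η a)`, `D i = pos h i -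
pos (h.drop k) i - k v i`, and `Ex (exp (η σ D i)) n [] = (∑ e, q e * exp (η σ (st d e i - v i))) ^ k ≤
exp (4 η² k)` by `exp x ≤ x + exp (x²)`, `|st d e i - v i| ≤ 2`. With `η = a/(8 (k+1))` the bound is
`exp (-a²/(16 (k+1)))`; sum over `i` and `σ`. -/
def S_Hf : Prop := ∀ (d : ℕ) (q : Dr d → ℝ), PV q → ∀ (n k : ℕ) (a : ℝ), k ≤ n → 0 ≤ a →
  Ex (st d) (fun _ => q) (fun h => if ∃ i, a < |((pos (st d) h i : ℤ) : ℝ) -
      ((pos (st d) (h.drop k) i : ℤ) : ℝ) - k * drift q i| then 1 else 0) n [] ≤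
    2 * d * Real.exp (-(a ^ 2 / (16 * ((k : ℝ) + 1))))

/-! ### almost sure convergence -/

/-- CHECK POINTS. Proof: for `m = log2 n` the check points `ck n` are of the form `2^m + i h`, `h =
2^m/(m+1)² + 1`, `i ≤ (m+1)²` (as `2^m/h ≤ (m+1)²`). `B m = ∑ i ≤ (m+1)², (F (2^m + i h) - a (2^m + i h))²`
has `∫ B m ≤ ((m+1)² + 1) C exp (-c √(m log 2))`, which is summable, so a.s. `∑ m, B m < ∞`
(`lintegral_tsum`, `ae_lt_top`) and `B m → 0`; `(F (ck n) - a (ck n))² ≤ B (log2 n)`. -/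
def S_Ba : Prop := ∀ {Ω : Type} [MeasurableSpace Ω] (P : Measure Ω) [IsProbabilityMeasure P]
  (F : ℕ → Ω → ℝ) (a : ℕ → ℝ) (c C : ℝ), 0 < c → (∀ n, Measurable (F n)) →
  (∀ n o, |F n o| ≤ 1) → (∀ n, 1 ≤ n → ∫ o, (F n o - a n) ^ 2 ∂P ≤
    C * Real.exp (-(c * Real.sqrt (Real.log n)))) →
  ∀ᵐ o ∂P, Tendsto (fun n => F (ck n) o - a (ck n)) atTop (𝓝 0)

/-- BETWEEN THE CHECK POINTS. Proof: `n - ck n ≤ 2^m/(m+1)²` for `m = log2 n`, so `n/(n - ck n + 1) ≥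
(m+1)²/2` for large `n`, and `exp (-(c/2) (m+1)²) ≤ n^(-2)` for large `n`: summable, so a.s.
`∑ n, F n < ∞`. -/
def S_Bb : Prop := ∀ {Ω : Type} [MeasurableSpace Ω] (P : Measure Ω) [IsProbabilityMeasure P]
  (F : ℕ → Ω → ℝ) (c C : ℝ), 0 < c → (∀ n, Measurable (F n)) → (∀ n o, 0 ≤ F n o) →
  (∀ n o, F n o ≤ 1) → (∀ n, 1 ≤ n → ∫ o, F n o ∂P ≤
    C * Real.exp (-(c * n / (((n - ck n : ℕ) : ℝ) + 1)))) →
  ∀ᵐ o ∂P, Tendsto (fun n => F n o) atTop (𝓝 0)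

open Classical in
/-- INTERPOLATION (use `S_Pa`). Proof: let `k = n - ck n`, `X` the position after `n` steps, `X'` after
`ck n` steps (`pos (h.drop k)`), `y = nrm q n X`, `y' = nrm q (ck n) X'`; `quenchE` at the time `ck n` is
`quenchE` at the time `n` of the same function of `h.drop k` (`S_Pa`). `y - y' = (X - X' - k v)/√n +
y' (√(ck n/n) - 1)`. If no coordinate of `X - X' - k v` is larger than `ε √n`, the first term has norm
`≤ d ε`. `1 - √(ck n/n) → 0` (`(n - ck n)/n → 0`), so for given `M` and large `n`: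
`|g y - g y'| ≤ 2 · 1(bad) + Λ d ε + 2 min 1 (‖y'‖/M)`. Take expectations, `n → ∞`, then `ε → 0`,
`M → ∞`. -/
def S_Ip : Prop := ∀ (d : ℕ) (q : Dr d → ℝ), PV q → ∀ w : (Fin d → ℤ) × ℕ → Dr d → ℝ,
  (∀ κ, PV (w κ)) →
  (∀ j : ℕ, Tendsto (fun n : ℕ => Ex (st d) w (fun h => if ∃ i, 1 / ((j : ℝ) + 1) * Real.sqrt n <
      |((pos (st d) h i : ℤ) : ℝ) - ((pos (st d) (h.drop (n - ck n)) i : ℤ) : ℝ) -
        ((n - ck n : ℕ) : ℝ) * drift q i| then 1 else 0) n []) atTop (𝓝 0)) →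
  (∀ M : ℕ, 1 ≤ M → ∀ δ : ℝ, 0 < δ → ∀ᶠ n in atTop,
    Ex (st d) w (fun h => min 1 (‖nrm q (ck n) (pos (st d) h)‖ / M)) (ck n) [] ≤ 1 / M + δ) →
  ∀ (g : EuclideanSpace ℝ (Fin d) → ℝ) (Λ : ℝ), (∀ y, |g y| ≤ 1) →
    (∀ y y', |g y - g y'| ≤ Λ * ‖y - y'‖) →
    Tendsto (fun n : ℕ => Ex (st d) w (fun h => g (nrm q n (pos (st d) h))) n [] -
      Ex (st d) w (fun h => g (nrm q (ck n) (pos (st d) h))) (ck n) []) atTop (𝓝 0)

/-- WEAK CONVERGENCE (use `S_Pa`). Proof: (1) all `θ`: for a rational `θ'` with `‖θ - θ'‖ ≤ 1/M`: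
`|cos ⟪θ, y⟫ - cos ⟪θ', y⟫| ≤ 2 min 1 (‖y‖/M)`, the same for sin; the limit is continuous in `θ`.
(2) The measure `μ n = ∑ h, wt h • dirac (nrm q n (pos h))` over the histories of length `n` is a
probability measure (`S_Pa`), its characteristic function at `θ` is `quenchE cos + i quenchE sin`;
`charFun_multivariateGaussian`, `ProbabilityMeasure.tendsto_iff_tendsto_charFun`,
`ProbabilityMeasure.tendsto_iff_forall_integral_tendsto`. `Sg q` is positive semidefinite: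
`x ⬝ᵥ Sg q *ᵥ x = ∑ e, q e * ⟨x, st d e - v⟩²`. -/
def S_Fn : Prop := ∀ (d : ℕ) (q : Dr d → ℝ), PV q → ∀ w : (Fin d → ℤ) × ℕ → Dr d → ℝ,
  (∀ κ, PV (w κ)) →
  (∀ θ : Fin d → ℚ, Tendsto (fun n : ℕ => Ex (st d) w (fun h =>
      Real.cos (∑ i, (θ i : ℝ) * nrm q n (pos (st d) h) i)) n []) atTop
        (𝓝 (Real.exp (-((∑ i, ∑ j, (θ i : ℝ) * Sg q i j * θ j) / 2)))) ∧
    Tendsto (fun n : ℕ => Ex (st d) w (fun h =>
      Real.sin (∑ i, (θ i : ℝ) * nrm q n (pos (st d) h) i)) n []) atTop (𝓝 0)) →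
  (∀ M : ℕ, 1 ≤ M → ∀ δ : ℝ, 0 < δ → ∀ᶠ n in atTop,
    Ex (st d) w (fun h => min 1 (‖nrm q n (pos (st d) h)‖ / M)) n [] ≤ 1 / M + δ) →
  ∀ f : BoundedContinuousFunction (EuclideanSpace ℝ (Fin d)) ℝ,
    Tendsto (fun n : ℕ => quenchE (st d) w n fun h => f (nrm q n (pos (st d) h))) atTop
      (𝓝 (∫ x, f x ∂(multivariateGaussian 0 (Sg q))))

end MP0d3db7NS
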