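import Pool.Agent.Lib.MP_0d3db7.NS.Defs2

/-!
# MP_0d3db7_pr, theorem NS2: the statements of the modules

Each module `Y.lean` in this folder proves `theorem tY : S_Y`, or with other `S_Z` as hypotheses,
where the docstring says so. All proofs are elementary.
-/

set_option autoImplicit false

namespace MP0d3db7NS

open MeasureTheory ProbabilityTheory Filter Topology

/-! ### the conservation law -/

/-- CONSERVATION LAW. Proof. Variance identity in `ℂ`: `‖∑ e, q e v e‖² + ∑ a, q a ‖v a - ∑ e, q e v e‖²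
= ∑ e, q e ‖v e‖²` (`∑ q = 1`; as an identity in `ENNReal`). Second claim: this identity for
`v e = psi s q f N 0 (x + s e) c` (the type of `c` has one element). First claim: split the sum over the
tuples `c : Fin (k+1) → (V × ℕ) × E` in `sk (N+1) (k+1) x`: (A) no `(c j).1` is `(x, 0)`: `c ↦ (dec x (c j))`
is a bijection of these tuples onto all tuples (inverse: add `1` to the counts at `x`) which does not
change the directions; so this part is `∑' c, (∏ q) ‖∑ e, q e * psi N (k+1) (x + s e) c‖²`, and with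
`ak N (k+1) x` it gives `∑ e, q e * sk N (k+1) (x + s e)` by the variance identity. (B) exactly one `l`
with `(c l).1 = (x, 0)`: `c ↔ (l, (c l).2, (dec x (rmv l c j)))` is a bijection onto the triples `(l, a, c')`,
`c' : Fin k → _` arbitrary; the sum is `(k + 1) * ak N k x`. (C) more than one: `psi = 0`. -/
def S_Id : Prop := ∀ {V E : Type} [AddCommGroup V] [DecidableEq V] [Fintype E] (s : E → V)
  (q : E → ℝ) (f : V → ℂ), PV q → ∀ (N : ℕ) (x : V),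
  (∀ k : ℕ, sk s q f (N + 1) (k + 1) x + ak s q f N (k + 1) x =
    ∑ e, ENNReal.ofReal (q e) * sk s q f N (k + 1) (x + s e) + ((k : ENNReal) + 1) * ak s q f N k x) ∧
  sk s q f (N + 1) 0 x + ak s q f N 0 x = ∑ e, ENNReal.ofReal (q e) * sk s q f N 0 (x + s e)

/-- TRANSLATIONS. Proof: `psi s q χ N k (x + y) (c + y) = χ y * psi s q χ N k x c`, where `c + y` adds `y`
to all sites (induction on `N`), `‖χ y‖ = 1`, and `c ↦ c + y` is a bijection. -/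
def S_Tr : Prop := ∀ {V E : Type} [AddCommGroup V] [DecidableEq V] [Fintype E] (s : E → V)
  (q : E → ℝ) (χ : V → ℂ), Chr χ → ∀ (N k : ℕ) (x y : V),
  sk s q χ N k (x + y) = sk s q χ N k x ∧ ak s q χ N k (x + y) = ak s q χ N k x

/-- ENERGY (use `S_Id`, `S_Tr`). Proof: by `S_Tr` and `∑ q = 1`: `sk (N+1) (k+1) 0 + ak N (k+1) 0 =
sk N (k+1) 0 + (k+1) ak N k 0`, `sk (N+1) 0 0 + ak N 0 0 = sk N 0 0`. Sum over `N < M` (induction on `M`):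
`sk M (k+1) 0 + ∑ N < M, ak N (k+1) 0 = (k+1) ∑ N < M, ak N k 0` (`sk 0 (k+1) 0 = 0`) and
`sk M 0 0 + ∑ N < M, ak N 0 0 = sk 0 0 0 = 1`. Induction on `k`. -/
def S_En : Prop := ∀ {V E : Type} [AddCommGroup V] [DecidableEq V] [Fintype E] (s : E → V)
  (q : E → ℝ) (χ : V → ℂ), PV q → Chr χ → ∀ M k : ℕ,
  ∑ N ∈ Finset.range M, ak s q χ N k 0 ≤ (Nat.factorial k : ENNReal)

/-! ### the first mark -/

/-- DECOMPOSITION. Proof: induction on `N`, for all `x`, `c`: the three cases (no `(c j).1 = (x, 0)`, exactly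
one, more than one). -/
def S_Sl : Prop := ∀ {V E : Type} [AddCommGroup V] [DecidableEq V] [Fintype E] (s : E → V)
  (q : E → ℝ) (f : V → ℂ) (N k : ℕ) (x : V) (c : Fin (k + 1) → (V × ℕ) × E),
  psi s q f N (k + 1) x c = ∑ l, psl s q f N k l x c

/-- SLICES. Proof: `√(slc ..)` is an `ℓ²` norm (weights `q a ∏ q (c j).2`, index `(a, c)`), induction on
`N` for all `x`, `i`; `psl .. 0 .. = 0`. Step: `x ≠ z`: in the slice the mark `l` is not at `x`; only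
the `c` without `(x, 0)` contribute, `psl = ∑ e, q e * psl N l (x + s e) (dec ..)`, `dec x` is a bijection of
these `c` onto all tuples and does not change the mark `l`: norm `≤ ∑ e, q e * √(slc N k l (x + s e) z i)`
(triangle inequality). `x = z`, `i ≥ 1`: the same, the mark `l` becomes `(z, i - 1)`. `x = z`, `i = 0`: the
slice is (only the `c` without `(x, 0)` contribute, bijection `dec x`) exactly `ak N k x`. Compare with the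
recursion of `vs` (`vs (t+1) x z i` and `N - 1 - t`). -/
def S_Sc : Prop := ∀ {V E : Type} [AddCommGroup V] [DecidableEq V] [Fintype E] (s : E → V)
  (q : E → ℝ) (f : V → ℂ), PV q → ∀ (N k : ℕ) (l : Fin (k + 1)) (x z : V) (i : ℕ),
  (slc s q f N k l x z i) ^ (1 / 2 : ℝ) ≤
    ∑ t ∈ Finset.range N, ENNReal.ofReal (vs s q t x z i) * (ak s q f (N - 1 - t) k z) ^ (1 / 2 : ℝ)

/-- SUM OVER THE TIME (use `S_Sl`, `S_Sc`, `S_Tr`). Proof: `‖∑ l, psl l‖² ≤ (k+1) ∑ l, ‖psl l‖²`, so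
`sk m (k+1) 0 ≤ (k+1) ∑ l, ∑' z, ∑' i, slc m k l 0 z i` (the sum over `c` is the sum over the mark `l`,
`((z, i), a)`, and the others: `Fin.insertNthEquiv`). By `S_Sc`, `S_Tr`, with `α N = √(ak N k 0)`,
`π t = vs t 0 z i`: `slc m .. ≤ (∑ t < m, π t α (m-1-t))²`, and `∑ m ≤ M, (∑ t < m, π t α (m-1-t))² ≤
(∑ t < M, π t)² ∑ N < M, (α N)²` (Young's inequality: Cauchy-Schwarz `(∑ t, π t α (m-1-t))² ≤
(∑ t < M, π t) ∑ t, π t α (m-1-t)²`, then sum over `m`). Sum over `z`, `i`: `∑' z, ∑' i, (∑ t < M, π t)² ≤ κ`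
(a supremum of finite sums). -/
def S_Sm : Prop := ∀ {V E : Type} [AddCommGroup V] [DecidableEq V] [Fintype E] (s : E → V)
  (q : E → ℝ) (χ : V → ℂ), PV q → Chr χ → ∀ (M k : ℕ) (κ : ℝ), KB s q M κ →
  ∑ m ∈ Finset.range (M + 1), sk s q χ m (k + 1) 0 ≤
    ((k : ENNReal) + 1) ^ 2 * ENNReal.ofReal κ * ∑ N ∈ Finset.range M, ak s q χ N k 0

/-! ### chaos orders and coefficients -/

open Classical in
/-- CHAOS AND TUPLES, WITH THE FACTORIAL. Proof: induction on `l`, for all `k`, `F` (compare Tu.lean,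
where the factorial is missing). `Tup k l F` = the right side for `J = l.toFinset`. (0) For different
cookies `Dl q` does not depend on the order of the list (`List.Perm`, `Function.update_comm`), and
`List.ofFn c` is a permutation of `c j :: List.ofFn (rmv j c)` (see Df.lean). (1) The injective tuples over
`κ :: l` of length `k + 1` are those over `l` and, for each slot `j`, direction `e` and injective tuple
`c'` over `l` of length `k`, the tuple `j.insertNth (κ, e) c'`; these are all different. (2) For `c` over `l`: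
`Dl q (ofFn c) F = Dl q (ofFn c) (sb F κ q)`; `Dl q ((κ, e) :: ofFn c') F = Dl q (ofFn c') (D e)`,
`D e = sb F κ (dl e) - sb F κ q`. So `Tup (k+1) (κ :: l) F = Tup (k+1) l (sb F κ q) + (k+1) ∑ e, q e *
Tup k l (D e)`, and `Tup k l F = k! Cs q l k F` follows (`Tup` for `k = 0` is `F(q)²`). -/
def S_Tk : Prop := ∀ {ι E : Type} [DecidableEq ι] [Fintype E] [DecidableEq E] (q : E → ℝ),
  (∀ e, 0 ≤ q e) → ∀ (l : List ι) (J : Finset ι), l.Nodup → (∀ κ ∈ l, κ ∈ J) →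
  ∀ (k : ℕ) (F : (ι → E → ℝ) → ℝ), (Nat.factorial k : ℝ) * Cs q l k F ≤
    ∑ c ∈ Fintype.piFinset (fun _ : Fin k => J ×ˢ (Finset.univ : Finset E)),
      if Function.Injective (fun j => (c j).1) then
        (∏ j, q (c j).2) * Dl q (List.ofFn c) F ^ 2 else 0

/-- SKIP COUNTS. Proof: induction on `N`, for all `k`, `x`, `r`, `c`; if `r (c j).1.1 < (c j).1.2` for all `j`
then `phi s q f N k x r c` is the real part of `ζ * psi s q g N k x c'`, `c' j = (((c j).1.1, (c j).1.2 -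
r (c j).1.1 - 1), (c j).2)`; if `(c j).1.2 ≤ r (c j).1.1` for some `j` (used cookie) then
`phi s q f N k x r c = 0` (as in Df.lean); `c` with different cookies. The mark `(x, 0)` is the cookie
`(x, r x + 1)`; `up r x` and `dec x` correspond. -/
def S_Lk : Prop := ∀ {V E : Type} [AddCommGroup V] [DecidableEq V] [Fintype E] (s : E → V)
  (q : E → ℝ) (f : V → ℝ) (g : V → ℂ) (ζ : ℂ), (∀ x, f x = (ζ * g x).re) →
  ∀ (N k : ℕ) (x : V) (c : Fin k → (V × ℕ) × E), Function.Injective (fun j => (c j).1) →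
  phi s q f N k x (fun _ => 0) (fun j => (((c j).1.1, (c j).1.2 + 1), (c j).2)) =
    (ζ * psi s q g N k x c).re

/-- CHAOS ORDERS OF `U` (use `S_Tk`, `S_Df`, `S_Ma`, `S_Lk`). Proof: `F w = U s w f N 0 (fun _ => 0)`,
`f y = (ζ * χ y).re`. The cookies `(z, 0)` of `l` are not used: by `S_Ma` (`0 ≤ r z`) `F` does not depend on
them and `Dl q (ofFn c) F = 0` if `c` contains one (or drop them from `l`). For the others, `S_Tk` with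
`J = l.toFinset`, `S_Df`, `S_Lk`, `(ζ * psi).re² ≤ ‖psi‖²`, and `c ↦ (numbers - 1)` is injective, so the sum
is at most the sum over all tuples. -/
def S_Cb : Prop := ∀ {V E : Type} [AddCommGroup V] [DecidableEq V] [Fintype E] [DecidableEq E]
  (s : E → V) (q : E → ℝ) (χ : V → ℂ) (ζ : ℂ), PV q → ‖ζ‖ ≤ 1 → ∀ (l : List (V × ℕ)), l.Nodup →
  ∀ N k : ℕ, ENNReal.ofReal ((Nat.factorial k : ℝ) *
    Cs q l k (fun w => U s w (fun y => (ζ * χ y).re) N 0 (fun _ => 0))) ≤ sk s q χ N k 0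

/-- CONVEXITY. Proof: induction on `l`, for all `k`, `F`, using that `Cs` is a sum of squares of linear
functionals: `Cs (κ :: l) (k+1) (∑ p F) = Cs l (k+1) (∑ p (sb F κ q)) + ∑ e, q e * Cs l k (∑ p (D e F))`;
base: `(∑ p a)² ≤ (∑ p) ∑ p a² ≤ ∑ p a²`. -/
def S_Cx : Prop := ∀ {ι E : Type} [DecidableEq ι] [Fintype E] [DecidableEq E] (q : E → ℝ),
  (∀ e, 0 ≤ q e) → ∀ (l : List ι) (k : ℕ) (J : Type) [Fintype J] (p : J → ℝ)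
  (F : J → (ι → E → ℝ) → ℝ), (∀ j, 0 ≤ p j) → ∑ j, p j ≤ 1 →
  Cs q l k (fun w => ∑ j, p j * F j w) ≤ ∑ j, p j * Cs q l k (F j)

/-- CHAOS ORDERS OF THE WINDOW (use `S_Cx`, `S_Cb`, `S_Sm`, `S_En`, `S_Pa`). Proof: let
`g y = ∑ j, p j Re (ζ j exp(i <θ j, y>))`, `χ j x = exp (i <θ j, x>/√n0)` (a character), so `g (nr q n0 m x) =
∑ j, p j Re (ζ' j χ j x)`, `ζ' j = ζ j exp (-i m <θ j, v>/√n0)`. `U` is linear in `f` (induction, or `S_Pa`). So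
by `S_Cx` (weights `p j/h`, `m` in the window), `S_Cb`: `k! Cs q l k (Av ..) ≤ ∑ j, p j (1/h) ∑ m ∈ window,
sk χ_j m k 0 ≤ ∑ j, p j (1/h) k² κ (k-1)!` by `S_Sm`, `S_En` (`M = n0 + h`), i.e. `Cs ≤ k κ/h`. -/
def S_Cw : Prop := ∀ (d : ℕ) (q : Dr d → ℝ), PV q → ∀ (g : EuclideanSpace ℝ (Fin d) → ℝ), Tp d g →
  ∀ (n0 h : ℕ) (κ : ℝ), 1 ≤ n0 → 1 ≤ h → KB (st d) q (n0 + h) κ →
  ∀ (l : List ((Fin d → ℤ) × ℕ)) (k : ℕ), l.Nodup → 1 ≤ k →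
  Cs q l k (fun w => Av (st d) w (fun m x => g (nr q n0 m x)) n0 h) ≤ (k : ℝ) * (κ / h)

/-! ### fourth moments -/

/-- FOURTH MOMENT OF THE PART OF LOW ORDER, SECOND MOMENT OF THE REST. Proof: induction on `l`, for all
`K`, `F` (all functions are continuous and bounded on the environments, `MA l`), put
`W l o κ' = ω κ' o` for `κ' ∈ l`, `q` otherwise; `Pj q l K F w` depends only on `w κ'`, `κ' ∈ l`, is continuous in
`w` and linear in `F`. Step `κ :: l`, `K + 1`: with `D e = sb F κ (dl e) - sb F κ q`, `∑ e, q e * D e w = 0` (`MA`):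
`Pj = R + S`, `R = Pj q l (K+1) (sb F κ q) (W l o)`, `S = ∑ e, ω κ o e * H e`, `H e = Pj q l K (D e) (W l o)`,
`∑ e, q e * H e = 0`, and `ω κ` is independent of `R`, `H`. (1) `E R³ S = 0`, `4 R S³ ≤ 2 R² S² + 2 S⁴`, so
`E (R+S)⁴ ≤ E R⁴ + 8 E R² S² + 3 E S⁴`; `E R² S² ≤ E R² ∑ e, q e * H e²` (`dom` with mean `0`, `lam ≤ 1`, or
convexity) `≤ ∑ e, q e * √(E R⁴) √(E (H e)⁴)`; `E S⁴ ≤ ∑ e, q e * E (H e)⁴` (convexity). By induction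
`E R⁴ ≤ Z²`, `E (H e)⁴ ≤ (Z e)²`, `Z = ∑ k ≤ K+1, B^k Cs q l k (sb F κ q)`, `Z e = ∑ k ≤ K, B^k Cs q l k (D e)`; with
`Y = ∑ e, q e * Z e`: `∑ e, q e * (Z e)² ≤ Y² max (1/q e)` so the total is `≤ Z² + 8 Z Y + B² Y² ≤ (Z + B Y)²` as
`3/q e ≤ B²`, `4 ≤ B`, and `Z + B Y = ∑ k ≤ K+1, B^k Cs q (κ :: l) k F`. `K = 0` or `l = []`: `Pj` is the
constant `F (fun _ => q)`, `Cs q l 0 F = F (fun _ => q) ^ 2`. (2) `F (W (κ :: l) o) = sb F κ q (W l o) +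
∑ e, ω κ o e * D e (W l o)` (`MA`), so `F - Pj = R' + S'` with `R'`, `S' = ∑ e, ω κ o e * H' e`, `∑ q H' = 0`:
`E (R'+S')² = E R'² + E S'² ≤ E R'² + lam ∑ e, q e * E (H' e)²` (`dom`). For `K = 0` and `κ :: l` use
`T lam q` (`S_Sw`, and `T = ∑ lam^k Cs`), or the same induction with `Pj q l 0`: `F - F(q) =
(sb F κ q - F(q)) + S'`, `S' = ∑ e, ω κ o e * D e (W l o)`, `E (D e)² ≤ ∑ k, lam^k Cs q l k (D e)`. -/
def S_Bo : Prop := ∀ {ι E Ω : Type} [DecidableEq ι] [Countable ι] [Fintype E] [DecidableEq E]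
  [MeasurableSpace Ω] (P : Measure Ω) (ω : ι → Ω → E → ℝ) (q : E → ℝ) (lam B : ℝ),
  Ck P ω q lam → 4 ≤ B → (∀ e, 0 < q e → 3 ≤ B ^ 2 * q e) →
  ∀ (l : List ι) (F : (ι → E → ℝ) → ℝ) (C : ℝ), l.Nodup → Continuous F →
  (∀ w : ι → E → ℝ, (∀ κ, PV (w κ)) → |F w| ≤ C) → MA l F → ∀ K : ℕ,
    Measurable (fun o => Pj q l K F (fun κ => if κ ∈ l then ω κ o else q)) ∧
    (∃ C' : ℝ, ∀ o, |Pj q l K F (fun κ => if κ ∈ l then ω κ o else q)| ≤ C') ∧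
    ∫ o, Pj q l K F (fun κ => if κ ∈ l then ω κ o else q) ^ 4 ∂P ≤
      (∑ k ∈ Finset.range (K + 1), B ^ k * Cs q l k F) ^ 2 ∧
    ∫ o, (F (fun κ => if κ ∈ l then ω κ o else q) -
        Pj q l K F (fun κ => if κ ∈ l then ω κ o else q)) ^ 2 ∂P ≤
      ∑ k ∈ Finset.Ico (K + 1) (l.length + 1), lam ^ k * Cs q l k F

/-- THE PROBABILITY OF A DEVIATION (use `S_Bo`). Proof: put `F' w = F w - F(q)`: `Cs q l 0 F' = 0`,
`Cs q l k F' = Cs q l k F` for `k ≥ 1`. `{2 ε ≤ |F'|} ⊆ {ε ≤ |Pj F'|} ∪ {ε ≤ |F' - Pj F'|}`, Markov: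
`E (Pj F')⁴ ≤ (∑ 1 ≤ k ≤ K, B^k k η)² ≤ (K² B^K η)²`, `E (F' - Pj F')² ≤ ∑ k > K, lam^k k η ≤
(K+1) lam^(K+1) η/(1-lam)²`. -/
def S_Pd : Prop := ∀ {ι E Ω : Type} [DecidableEq ι] [Countable ι] [Fintype E] [DecidableEq E]
  [MeasurableSpace Ω] (P : Measure Ω) (ω : ι → Ω → E → ℝ) (q : E → ℝ) (lam B : ℝ),
  Ck P ω q lam → 4 ≤ B → (∀ e, 0 < q e → 3 ≤ B ^ 2 * q e) →
  ∀ (l : List ι) (F : (ι → E → ℝ) → ℝ) (C η ε : ℝ), l.Nodup → Continuous F →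
  (∀ w : ι → E → ℝ, (∀ κ, PV (w κ)) → |F w| ≤ C) → MA l F → 0 ≤ η → 0 < ε →
  (∀ k : ℕ, 1 ≤ k → Cs q l k F ≤ (k : ℝ) * η) → ∀ K : ℕ,
    P.real {o | 2 * ε ≤ |F (fun κ => if κ ∈ l then ω κ o else q) - F (fun _ => q)|} ≤
      (K : ℝ) ^ 4 * B ^ (2 * K) * η ^ 2 / ε ^ 4 +
        ((K : ℝ) + 1) * lam ^ (K + 1) * η / ((1 - lam) ^ 2 * ε ^ 2)

/-- THE PROBABILITY OF A DEVIATION IN A WINDOW (use `S_Pd`, `S_Cw`, `S_Ma`, `S_Dp`, `S_Pa`). Proof: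
`F w = Av (st d) w (fun m x => g (nr q n0 m x)) n0 h`; `U = Ex` (`S_Pa`), so `F` is continuous, `MA` (`S_Ma`) and
bounded by `1` on the environments (`|g| ≤ ∑ p ≤ 1`); `l` = the list of the cookies `(z, i)`, `z ∈ B'`,
`1 ≤ i ≤ n0 + h`, where `B'` is the union of the sets of `S_Dp` for the `m < n0 + h`, so
`F (fun κ => ω κ o) = F (W l o)`. -/
def S_Pw : Prop := ∀ {Ω : Type} [MeasurableSpace Ω] (d : ℕ) (P : Measure Ω)
  (ω : (Fin d → ℤ) × ℕ → Ω → Dr d → ℝ) (q : Dr d → ℝ) (lam B : ℝ), Ck P ω q lam → 4 ≤ B →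
  (∀ e, 0 < q e → 3 ≤ B ^ 2 * q e) → ∀ (g : EuclideanSpace ℝ (Fin d) → ℝ), Tp d g →
  ∀ (n0 h : ℕ) (κ ε : ℝ), 1 ≤ n0 → 1 ≤ h → 0 ≤ κ → 0 < ε → KB (st d) q (n0 + h) κ → ∀ K : ℕ,
    P.real {o | 2 * ε ≤ |Av (st d) (fun κ => ω κ o) (fun m x => g (nr q n0 m x)) n0 h -
      Av (st d) (fun _ => q) (fun m x => g (nr q n0 m x)) n0 h|} ≤
      (K : ℝ) ^ 4 * B ^ (2 * K) * (κ / h) ^ 2 / ε ^ 4 +
        ((K : ℝ) + 1) * lam ^ (K + 1) * (κ / h) / ((1 - lam) ^ 2 * ε ^ 2)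

/-- THE CHOICE OF `K` AND `θ`. Proof: `K = ⌊c log b⌋` with `c = 1/(8 log B)`: `B^(2K) ≤ b^(1/4)`; `lam^(K+1) ≤
b^(-a)`, `a = c |log lam|` (if `lam = 0` any `a`, e.g. `a = 1`; `lam^(K+1) = 0`). `θ = min (1/16) (a/8)`. First
term `≤ C² (log b)⁴ c⁴ b^(1/4 + 2θ - 2)/ε⁴ ≤ C' b^(-1-2θ)`, second `≤ C (c log b + 1) b^(-a+θ-1) .. ≤
C' b^(-1-2θ)`. -/
def S_Nu : Prop := ∀ (B lam : ℝ), 4 ≤ B → 0 ≤ lam → lam < 1 → ∃ θ : ℝ, 0 < θ ∧ θ < 1 ∧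
  ∀ (C ε : ℝ), 0 ≤ C → 0 < ε → ∃ C' : ℝ, 0 ≤ C' ∧ ∀ b : ℕ, 1 ≤ b → ∀ η : ℝ, 0 ≤ η →
    η ≤ C * (b : ℝ) ^ (θ - 1) → ∃ K : ℕ,
      (K : ℝ) ^ 4 * B ^ (2 * K) * η ^ 2 / ε ^ 4 +
        ((K : ℝ) + 1) * lam ^ (K + 1) * η / ((1 - lam) ^ 2 * ε ^ 2) ≤
      C' * (b : ℝ) ^ (-1 - 2 * θ)

/-! ### the common cookies of two walks -/

/-- TRANSIENT BOUND. Proof: `vs ≥ 0`, `∑ i < I, vs s q t x z i ≤ pt s q t x z` (induction on `t`, for all `x`,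
`I`), so `∑ i < I, (∑ t < M, vs t 0 z i)² ≤ (∑ i < I, ∑ t < M, vs t 0 z i)² ≤ gr s q M 0 z ^ 2`. -/
def S_K1 : Prop := ∀ {V E : Type} [AddCommGroup V] [DecidableEq V] [Fintype E] (s : E → V)
  (q : E → ℝ), PV q → ∀ (M : ℕ) (κ : ℝ), (∀ B : Finset V, ∑ z ∈ B, gr s q M 0 z ^ 2 ≤ κ) →
  KB s q M κ

/-- RECURRENT BOUND. Proof. `P i x z M = ∑ t < M, vs t x z i`; `P i x z (M+1) = ∑ e, q e * P i (x + s e) z M` for
`x ≠ z`, `P 0 z z (M+1) = 1`, `P (i+1) z z (M+1) = ∑ e, q e * P i (z + s e) z M`. Let `ρ M = P 1 0 0 M` (also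
`= P 1 z z M` by translation), `ε M = 1 - ρ M` (nonincreasing in `M`, in `[0, 1]`, as `P 0 ≤ 1`, `P` nondecreasing in `M`).
(1) `P (i+1) x z M ≤ ρ M * P i x z M` (induction on `M`, all `x`, `i`); so `∑ i, (P i 0 z M)² ≤
(P 0 0 z M)²/ε M`. (2) `P 0 x z M' * gr M z z ≤ gr (M' + M) x z` (induction on `M'`). (3) Last exit:
`P 0 x z M = ∑ t < M, pt t x z * ε (M - t)` (induction on `M`); for `x = z`: `1 = ∑ t < M, pt t z z * ε (M - t)`.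
Take `M1 = A M` with `A = ⌈2 C⌉ + 2`: the terms `t > M1 - M` contribute at most `M C/(M1 - M + 1) ≤ 1/2`, the
others at most `ε M * gr M1 z z`: so `ε M ≥ 1/(2 gr M1 z z) ≥ 1/(2 C (1 + log (A M)))`. (4) `∑ z ∈ B,
gr (2M) 0 z ^ 2 ≤ 4 C M`: `∑ z, pt t 0 z * pt u 0 z ≤ C/(max t u + 1)`. Total: `4 C M/((c (1 + log M))² ε M) ≤
C' M/(1 + log M)`. -/
def S_K2 : Prop := ∀ {V E : Type} [AddCommGroup V] [DecidableEq V] [Fintype E] (s : E → V)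
  (q : E → ℝ), PV q → ∀ (C c : ℝ), 0 < c → (∀ t x z, pt s q t x z ≤ C / ((t : ℝ) + 1)) →
  (∀ M : ℕ, 1 ≤ M → c * (1 + Real.log M) ≤ gr s q M 0 0) →
  ∃ C' : ℝ, 0 ≤ C' ∧ ∀ M : ℕ, 1 ≤ M → KB s q M (C' * (M / (1 + Real.log M)))

/-- LOWER BOUND OF THE GREEN FUNCTION IN THE PLANE. Proof: `drift q = 0` means `q (i, true) = q (i, false)`,
so `pt t 0 x = pt t 0 (-x) = pt t x 0`, and `pt (2t) 0 0 = ∑ x, pt t 0 x * pt t x 0 = ∑ x, (pt t 0 x)²`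
(finite sums: `pt t 0 x = 0` unless `|x i| ≤ t`). `∑ x, pt t 0 x * (x 0² + x 1²) = t`, so at least mass `1/2` is in
`|x i| ≤ R`, `R = ⌈√(2 t)⌉`, and by Cauchy-Schwarz `pt (2t) 0 0 ≥ (1/4)/(2R+1)² ≥ c/(t+1)`. Sum over even times;
`gr 1 0 0 = 1`. -/
def S_K3 : Prop := ∀ (q : Dr 2 → ℝ), PV q → drift q = 0 → ∃ c : ℝ, 0 < c ∧
  ∀ M : ℕ, 1 ≤ M → c * (1 + Real.log M) ≤ gr (st 2) q M 0 0

/-- ALL DIMENSIONS `d ≥ 2` (use `S_In`, `S_K1`, `S_Su`, `S_Sp`, `S_K2`, `S_K3`). Proof: `d ≥ 3` or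
`drift q ≠ 0`: `S_In`, `S_K1`, `M^(3/4) ≤ 4 M/(1 + log M)`. `d = 2`, `drift q = 0`: `S_Sp`, `S_Su` with `m = 2`
give `pt t x z ≤ C/(t+1)`; `S_K3`, `S_K2`. -/
def S_Ki : Prop := ∀ (d : ℕ) (q : Dr d → ℝ), PV q → (Sg q).det ≠ 0 → 2 ≤ d →
  ∃ C : ℝ, 0 ≤ C ∧ ∀ M : ℕ, 1 ≤ M → KB (st d) q M (C * (M / (1 + Real.log M)))

/-! ### windows -/

/-- SIZES. Proof: elementary; `gb θ b ≤ b^θ + 1 ≤ 2 b^θ`, `hb ≥ 2^b/gb`, `2^b/gb + 1 ≤ 2^b + 1`; for `n` in the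
block take `i = (n - 2^b)/hb ≤ 2^b/hb ≤ gb`. If `nw < 2^(b+1)` then `nw + hb ≤ 2^(b+2)`. `M = nw + hb ≤ 2^(b+3)` for
all `i ≤ gb` (`i hb ≤ 2^b + gb`), `M/(1 + log M)` is increasing in `M ≥ 1`, `1 + log 2^(b+3) ≥ b/2`, so
`(M/(1 + log M))/hb ≤ 16 · 2^b/(b hb) ≤ 32 b^(θ-1)`. -/
def S_Sz : Prop := ∀ (θ : ℝ), 0 < θ → θ < 1 → ∀ b : ℕ, 1 ≤ b →
  1 ≤ gb θ b ∧ (gb θ b : ℝ) ≤ 2 * (b : ℝ) ^ θ ∧ 1 ≤ hb θ b ∧
  (hb θ b : ℝ) ≤ 2 ^ b * (b : ℝ) ^ (-θ) + 1 ∧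
  (∀ n : ℕ, 2 ^ b ≤ n → n < 2 ^ (b + 1) → ∃ i ≤ gb θ b, nw θ b i ≤ n ∧ n < nw θ b i + hb θ b) ∧
  (∀ i : ℕ, nw θ b i < 2 ^ (b + 1) → nw θ b i + hb θ b ≤ 2 ^ (b + 2)) ∧
  (∀ i ≤ gb θ b, (((nw θ b i + hb θ b : ℕ) : ℝ) / (1 + Real.log ((nw θ b i + hb θ b : ℕ) : ℝ))) /
    (hb θ b : ℝ) ≤ 32 * (b : ℝ) ^ (θ - 1))

/-- BOREL-CANTELLI FOR THE WINDOWS. Proof: the union over `i ≤ gb θ b` has measure at most `(gb θ b + 1) C
b^(-1-2θ) ≤ 3 C b^(-1-θ)`, summable; `measure_limsup_atTop_eq_zero` (finite subadditivity needs no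
measurability). -/
def S_Bw : Prop := ∀ {Ω : Type} [MeasurableSpace Ω] (P : Measure Ω) [IsProbabilityMeasure P]
  (θ C : ℝ) (A : ℕ → ℕ → Set Ω), 0 < θ → θ < 1 →
  (∀ b : ℕ, 1 ≤ b → ∀ i ≤ gb θ b, P.real (A b i) ≤ C * (b : ℝ) ^ (-1 - 2 * θ)) →
  ∀ᵐ o ∂P, ∀ᶠ b in atTop, ∀ i ≤ gb θ b, o ∉ A b i

/-- MAXIMAL INEQUALITY FOR THE AVERAGED WALK. Proof: for a coordinate `i`, a sign `σ` and a history `h0` put
`D h = σ (pos h i - pos h0 i - (length h - length h0) v i)`. Claim, for `η ≥ 0`, by induction on `L`, for every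
`y` and `h0`: the averaged probability that `y + D (h.drop k) > a` for some `k ≤ L`, after `L` steps from
`h0`, is at most `exp (η (y - a)) * exp (4 η² L)`: if `y > a` trivial; otherwise condition on the first step,
`∑ e, q e * exp (η σ (st d e i - v i)) ≤ exp (4 η²)` (`exp x ≤ x + exp (x²)`, `|st d e i - v i| ≤ 2`). With
`y = 0`, `η = a/(8 (L+1))`; sum over `i`, `σ`; the first `n - L` steps give `h0` (`Ex s w Φ (m + L) [] =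
Ex s w (fun h0 => Ex s w Φ L h0) m []`, constants). -/
def S_Mx : Prop := ∀ (d : ℕ) (q : Dr d → ℝ), PV q → ∀ (n L : ℕ) (a : ℝ), L ≤ n → 0 ≤ a →
  QB q (fun _ => q) n L a ≤ 2 * d * Real.exp (-(a ^ 2 / (16 * ((L : ℝ) + 1))))

/-- BAD WINDOWS ARE RARE (use `S_Mx`, `S_Mn`, `S_Sz`). Proof: `S_Mn` with the indicator of `Bad`:
`∫ QB q (ω o) n L a = QB q (fun _ => q) n L a`; Markov. First: `L = hb`, `a = ε √n0`, `n0 ≥ 2^b`:
`a²/(16 (L+1)) ≥ ε² 2^b/(16 (2^b b^(-θ) + 2)) ≥ c b^θ`; second: `L = n = 2^(b+2)`, `a = b^(θ/2) 2^(b/2)`: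
`a²/(16 (L+1)) ≥ b^θ/80`. And `exp (-c b^θ) ≤ C' b^(-1-2θ)`. -/
def S_Rb : Prop := ∀ {Ω : Type} [MeasurableSpace Ω] (d : ℕ) (P : Measure Ω)
  (ω : (Fin d → ℤ) × ℕ → Ω → Dr d → ℝ) (q : Dr d → ℝ) (lam : ℝ), Ck P ω q lam →
  ∀ (θ ε δ : ℝ), 0 < θ → θ < 1 → 0 < ε → 0 < δ → ∃ C : ℝ, ∀ b : ℕ, 1 ≤ b → ∀ i ≤ gb θ b,
    P.real {o | δ ≤ QB q (fun κ => ω κ o) (nw θ b i + hb θ b) (hb θ b)
        (ε * Real.sqrt (nw θ b i))} ≤ C * (b : ℝ) ^ (-1 - 2 * θ) ∧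
    P.real {o | δ ≤ QB q (fun κ => ω κ o) (2 ^ (b + 2)) (2 ^ (b + 2))
        ((b : ℝ) ^ (θ / 2) * Real.sqrt (2 ^ b))} ≤ C * (b : ℝ) ^ (-1 - 2 * θ)

/-- FROM THE WINDOW AVERAGE TO THE TIME `n` (use `S_Pa`, `S_Sz`). Proof: `n0 = nw θ b i`, `H = n0 + hb θ b`. By
`S_Pa` (6) all expectations at times `m ≤ H` are expectations at the time `H` of functions of `h.drop (H - m)`,
and `QB .. (2^(b+2)) ..` controls all times `≤ 2^(b+2)` (the event for a time `m` is an event of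
`h.drop (2^(b+2) - m)`; `h.drop L = []` for `L = length h`). Outside the two bad events, for `m` in the window:
`‖nrm q n X_n - nr q n0 m X_m‖ ≤ ∑ i, [|X_n i - n v i| (1/√n0 - 1/√n) + |(X_n i - n v i) - (X_m i - m v i)|/√n0]
≤ d (b^(θ/2) √(2^b) hb/(2 n0^(3/2)) + 2 ε) ≤ d (b^(θ/2) (b^(-θ) + 2^(-b)) + 2 ε)`. On the bad events
`|g - g| ≤ 2`. Average over `m`; the second claim is the same estimate without `g`: `|X_n i - n v i|/√n ≤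
b^(θ/2)` outside the second bad event. -/
def S_Iw : Prop := ∀ (d : ℕ) (q : Dr d → ℝ), PV q → ∀ w : (Fin d → ℤ) × ℕ → Dr d → ℝ,
  (∀ κ, PV (w κ)) → ∀ (θ : ℝ), 0 < θ → θ < 1 → ∀ (b i n : ℕ), 1 ≤ b → nw θ b i ≤ n →
  n < nw θ b i + hb θ b → n < 2 ^ (b + 1) →
  (∀ (g : EuclideanSpace ℝ (Fin d) → ℝ) (Λ ε : ℝ), 0 ≤ Λ → 0 ≤ ε → (∀ y, |g y| ≤ 1) →
    (∀ y y', |g y - g y'| ≤ Λ * ‖y - y'‖) →
    |Ex (st d) w (fun h => g (nrm q n (pos (st d) h))) n [] -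
      Av (st d) w (fun m x => g (nr q (nw θ b i) m x)) (nw θ b i) (hb θ b)| ≤
      Λ * (d * ((b : ℝ) ^ (θ / 2) * ((b : ℝ) ^ (-θ) + 1 / 2 ^ b) + 2 * ε)) +
      2 * QB q w (nw θ b i + hb θ b) (hb θ b) (ε * Real.sqrt (nw θ b i)) +
      2 * QB q w (2 ^ (b + 2)) (2 ^ (b + 2)) ((b : ℝ) ^ (θ / 2) * Real.sqrt (2 ^ b))) ∧
  (∀ Φ : List (Dr d) → ℝ, (∀ h, 0 ≤ Φ h) → (∀ h, Φ h ≤ 1) →
    (∀ h, (∀ i, |nrm q n (pos (st d) h) i| ≤ (b : ℝ) ^ (θ / 2)) → Φ h = 0) →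
    Ex (st d) w Φ n [] ≤
      QB q w (2 ^ (b + 2)) (2 ^ (b + 2)) ((b : ℝ) ^ (θ / 2) * Real.sqrt (2 ^ b)))

/-! ### limits -/

/-- THE AVERAGED WALK IN THE WINDOW (use `S_Cl`, `S_Pa`). Proof: `nr q n0 m x = √(m/n0) • nrm q m x`,
`|cos a - cos b| ≤ |a - b|`, `E ‖nrm q m X_m‖ ≤ 1` (`E ‖nrm q m X_m‖² = ∑ i, Sg q i i ≤ 1`, see M2.lean), so the
expectations for `nr q n0 m` and `nrm q m` differ by at most `(∑ |θ i|) |√(m/n0) - 1|`; and `S_Cl` for large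
`m`. -/
def S_Cq : Prop := ∀ (d : ℕ) (q : Dr d → ℝ), PV q → ∀ (θ : Fin d → ℝ) (ε : ℝ), 0 < ε →
  ∃ (N0 : ℕ) (δ : ℝ), 0 < δ ∧ ∀ n0 m : ℕ, N0 ≤ n0 → n0 ≤ m → (m : ℝ) ≤ n0 * (1 + δ) →
    |U (st d) (fun _ => q) (fun x => Real.cos (∑ i, θ i * nr q n0 m x i)) m 0 (fun _ => 0) -
      Real.exp (-((∑ i, ∑ j, θ i * Sg q i j * θ j) / 2))| ≤ ε ∧
    |U (st d) (fun _ => q) (fun x => Real.sin (∑ i, θ i * nr q n0 m x i)) m 0 (fun _ => 0)| ≤ ε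

/-- TEST FUNCTIONS. Proof: cos and sin are real parts of multiples (`ζ = 1`, `-i`) of characters; `tg` is an
average of `T` cosines. `|cos a - cos b| ≤ |a - b|`, `|y i| ≤ ‖y‖`. Last claim: with `φ = y i0/(M T)`,
`|φ| ≤ π`: `∑ j < T, cos ((j+1) φ) = (sin ((T + 1/2) φ) - sin (φ/2))/(2 sin (φ/2))`, absolute value
`≤ 1/|sin (φ/2)| ≤ π/|φ|`, so `tg ≤ π/(T |φ|) = π M/|y i0| ≤ 1/2`. -/
def S_Tg : Prop := ∀ (d : ℕ),
  (∀ θ : Fin d → ℝ, Tp d (fun y => Real.cos (∑ i, θ i * y i)) ∧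
    Tp d (fun y => Real.sin (∑ i, θ i * y i)) ∧
    (∀ y y' : EuclideanSpace ℝ (Fin d), |Real.cos (∑ i, θ i * y i) - Real.cos (∑ i, θ i * y' i)| ≤
      (∑ i, |θ i|) * ‖y - y'‖) ∧
    (∀ y y' : EuclideanSpace ℝ (Fin d), |Real.sin (∑ i, θ i * y i) - Real.sin (∑ i, θ i * y' i)| ≤
      (∑ i, |θ i|) * ‖y - y'‖)) ∧
  (∀ (i0 : Fin d) (M T : ℕ), 1 ≤ M → 1 ≤ T → Tp d (tg i0 M T) ∧ (∀ y, |tg i0 M T y| ≤ 1) ∧
    (∀ y y', |tg i0 M T y - tg i0 M T y'| ≤ 1 * ‖y - y'‖) ∧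
    (∀ y : EuclideanSpace ℝ (Fin d), 2 * Real.pi * M < |y i0| → |y i0| ≤ T → tg i0 M T y ≤ 1 / 2))

/-- MEAN OF THE TEST FUNCTIONS FOR THE TIGHTNESS (use `S_Pa`). Proof: `1 - cos x ≤ x²/2`, so
`1 - tg y ≤ (y i0)²/(2 M²)`; `E (nr q n0 m X_m i0)² = (m/n0) Sg q i0 i0 ≤ 2`. -/
def S_Tm : Prop := ∀ (d : ℕ) (q : Dr d → ℝ), PV q → ∀ (i0 : Fin d) (M T n0 m : ℕ), 1 ≤ M → 1 ≤ T →
  1 ≤ n0 → m ≤ 2 * n0 →
  1 - 1 / (M : ℝ) ^ 2 ≤ U (st d) (fun _ => q) (fun x => tg i0 M T (nr q n0 m x)) m 0 (fun _ => 0)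

open Classical in
/-- WEAK CONVERGENCE (use `S_Pa`; compare Fn.lean, where the tightness condition is different). Proof: as in
`S_Fn`: for all `θ`: choose `R` with `limsup P(∃ i, R < |y i|) ≤ δ` and rational `θ'` close to `θ`:
`|cos ⟪θ, y⟫ - cos ⟪θ', y⟫| ≤ ∑ i, |θ i - θ' i| R + 2 · 1(∃ i, R < |y i|)`. -/
def S_Fm : Prop := ∀ (d : ℕ) (q : Dr d → ℝ), PV q → ∀ w : (Fin d → ℤ) × ℕ → Dr d → ℝ,
  (∀ κ, PV (w κ)) →
  (∀ θ : Fin d → ℚ, Tendsto (fun n : ℕ => Ex (st d) w (fun h =>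
      Real.cos (∑ i, (θ i : ℝ) * nrm q n (pos (st d) h) i)) n []) atTop
        (𝓝 (Real.exp (-((∑ i, ∑ j, (θ i : ℝ) * Sg q i j * θ j) / 2)))) ∧
    Tendsto (fun n : ℕ => Ex (st d) w (fun h =>
      Real.sin (∑ i, (θ i : ℝ) * nrm q n (pos (st d) h) i)) n []) atTop (𝓝 0)) →
  (∀ δ : ℝ, 0 < δ → ∃ R : ℝ, ∀ᶠ n in atTop, Ex (st d) w
    (fun h => if ∃ i, R < |nrm q n (pos (st d) h) i| then 1 else 0) n [] ≤ δ) →
  ∀ f : BoundedContinuousFunction (EuclideanSpace ℝ (Fin d)) ℝ,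
    Tendsto (fun n : ℕ => quenchE (st d) w n fun h => f (nrm q n (pos (st d) h))) atTop
      (𝓝 (∫ x, f x ∂(multivariateGaussian 0 (Sg q))))

end MP0d3db7NS
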