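import Pool.Agent.Lib.MP_0d3db7.NS.Spec2

/-!
# MP_0d3db7_pr, theorem NS2, module Tg: test functions (helper76)
-/

set_option autoImplicit false

namespace MP0d3db7NS

open MeasureTheory ProbabilityTheory Filter Topology

namespace Tg_aux

theorem cos_lip (a b : ℝ) : |Real.cos a - Real.cos b| ≤ |a - b| := by
  have h := Real.lipschitzWith_cos.dist_le_mul a b
  simpa [Real.dist_eq] using h

theorem sin_lip (a b : ℝ) : |Real.sin a - Real.sin b| ≤ |a - b| := by
  have h := Real.lipschitzWith_sin.dist_le_mul a b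
  simpa [Real.dist_eq] using h

theorem re_exp (x : ℝ) : (Complex.exp (Complex.I * (x : ℂ))).re = Real.cos x := by
  rw [mul_comm]
  exact Complex.exp_ofReal_mul_I_re x

theorem im_exp (x : ℝ) : (Complex.exp (Complex.I * (x : ℂ))).im = Real.sin x := by
  rw [mul_comm]
  exact Complex.exp_ofReal_mul_I_im x

theorem ab_le {d : ℕ} (y : EuclideanSpace ℝ (Fin d)) (i : Fin d) : |y i| ≤ ‖y‖ := by
  have := PiLp.norm_apply_le y i
  simpa using this

theorem dif {d : ℕ} (θ : Fin d → ℝ) (y y' : EuclideanSpace ℝ (Fin d)) :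
    |(∑ i, θ i * y i) - ∑ i, θ i * y' i| ≤ (∑ i, |θ i|) * ‖y - y'‖ := by
  rw [← Finset.sum_sub_distrib, Finset.sum_mul]
  refine (Finset.abs_sum_le_sum_abs _ _).trans (Finset.sum_le_sum fun i _ => ?_)
  rw [← mul_sub, abs_mul]
  have := ab_le (y - y') i
  exact mul_le_mul_of_nonneg_left (by simpa using this) (abs_nonneg _)

/-- Dirichlet kernel -/
theorem dir (φ : ℝ) (T : ℕ) : 2 * Real.sin (φ / 2) * ∑ j ∈ Finset.range T, Real.cos (((j : ℝ) + 1) * φ)
    = Real.sin (((T : ℝ) + 1 / 2) * φ) - Real.sin (φ / 2) := by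
  induction T with
  | zero =>
    simp only [Finset.range_zero, Finset.sum_empty, mul_zero, Nat.cast_zero, zero_add]
    rw [show (1 : ℝ) / 2 * φ = φ / 2 by ring, sub_self]
  | succ T ih =>
    rw [Finset.sum_range_succ, mul_add, ih]
    have h1 : ((T : ℝ) + 1 / 2) * φ = ((T : ℝ) + 1) * φ - φ / 2 := by ring
    have h2 : (((T + 1 : ℕ) : ℝ) + 1 / 2) * φ = ((T : ℝ) + 1) * φ + φ / 2 := by push_cast; ring
    rw [h1, h2, Real.sin_add, Real.sin_sub]
    ring

theorem dir_le {φ : ℝ} (h0 : φ ≠ 0) (h1 : |φ| ≤ Real.pi) (T : ℕ) :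
    ∑ j ∈ Finset.range T, Real.cos (((j : ℝ) + 1) * φ) ≤ Real.pi / |φ| := by
  -- reduce to positive `φ`
  have key : ∀ φ : ℝ, 0 < φ → φ ≤ Real.pi →
      ∑ j ∈ Finset.range T, Real.cos (((j : ℝ) + 1) * φ) ≤ Real.pi / φ := by
    intro φ h0 h1
    have hs : φ / Real.pi ≤ Real.sin (φ / 2) := by
      have := Real.mul_le_sin (x := φ / 2) (by linarith) (by linarith)
      calc φ / Real.pi = 2 / Real.pi * (φ / 2) := by ring
        _ ≤ _ := this
    have hp := Real.pi_pos
    have hs0 : 0 < φ / Real.pi := by positivity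
    have hs1 : 0 < Real.sin (φ / 2) := lt_of_lt_of_le hs0 hs
    have h2 := dir φ T
    have h3 : 2 * Real.sin (φ / 2) * ∑ j ∈ Finset.range T, Real.cos (((j : ℝ) + 1) * φ) ≤ 2 := by
      rw [h2]
      have := Real.sin_le_one (((T : ℝ) + 1 / 2) * φ)
      have := Real.neg_one_le_sin (φ / 2)
      linarith
    have h4 : Real.sin (φ / 2) * ∑ j ∈ Finset.range T, Real.cos (((j : ℝ) + 1) * φ) ≤ 1 := by
      linarith
    rcases le_or_gt (∑ j ∈ Finset.range T, Real.cos (((j : ℝ) + 1) * φ)) 0 with h5 | h5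
    · exact h5.trans (by positivity)
    · rw [le_div_iff₀ h0]
      have h6 : φ / Real.pi * ∑ j ∈ Finset.range T, Real.cos (((j : ℝ) + 1) * φ) ≤ 1 :=
        (mul_le_mul_of_nonneg_right hs h5.le).trans h4
      rw [div_mul_eq_mul_div, div_le_one hp] at h6
      linarith
  rcases lt_or_gt_of_ne h0 with h | h
  · rw [abs_of_neg h] at h1 ⊢
    have := key (-φ) (by linarith) h1
    have e : ∀ j : ℕ, Real.cos (((j : ℝ) + 1) * -φ) = Real.cos (((j : ℝ) + 1) * φ) := fun j => by
      rw [mul_neg, Real.cos_neg]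
    simpa only [e] using this
  · rw [abs_of_pos h] at h1 ⊢
    exact key φ h h1

end Tg_aux

open Tg_aux in
theorem tTg : S_Tg := by
  intro d
  refine ⟨fun θ => ⟨?_, ?_, ?_, ?_⟩, fun i0 M T hM hT => ?_⟩
  · refine ⟨1, fun _ => 1, fun _ => 1, fun _ => θ, fun _ => zero_le_one, by simp, by simp, ?_⟩
    intro y
    simp only [Finset.univ_unique, Finset.sum_singleton, one_mul]
    rw [re_exp]
  · refine ⟨1, fun _ => 1, fun _ => -Complex.I, fun _ => θ, fun _ => zero_le_one, by simp,
      by simp, ?_⟩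
    intro y
    simp only [Finset.univ_unique, Finset.sum_singleton, one_mul]
    rw [Complex.mul_re, im_exp]
    simp
  · intro y y'
    exact (cos_lip _ _).trans (dif θ y y')
  · intro y y'
    exact (sin_lip _ _).trans (dif θ y y')
  have hM' : (1 : ℝ) ≤ M := by exact_mod_cast hM
  have hT' : (1 : ℝ) ≤ T := by exact_mod_cast hT
  have hT0 : (0 : ℝ) < T := by linarith
  have hM0 : (0 : ℝ) < M := by linarith
  refine ⟨?_, ?_, ?_, ?_⟩
  · refine ⟨T, fun _ => 1 / (T : ℝ), fun _ => 1,
      fun j => Pi.single i0 ((((j : ℕ) : ℝ) + 1) / (M * T)), fun _ => by positivity, ?_,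
      by simp, ?_⟩
    · simp only [Finset.sum_const, Finset.card_univ, Fintype.card_fin, nsmul_eq_mul]
      rw [mul_one_div, div_self hT0.ne']
    · intro y
      rw [tg, Finset.mul_sum, ← Fin.sum_univ_eq_sum_range
        (fun j => 1 / (T : ℝ) * Real.cos (((j : ℝ) + 1) * y i0 / (M * T))) T]
      refine Finset.sum_congr rfl fun j _ => ?_
      rw [one_mul, re_exp]
      congr 2
      rw [Finset.sum_eq_single i0]
      · simp only [Pi.single_eq_same]
        ring
      · intro i _ hi
        simp only [Pi.single_eq_of_ne hi, zero_mul]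
      · intro h
        exact absurd (Finset.mem_univ _) h
  · intro y
    rw [tg, abs_mul, abs_of_nonneg (by positivity : (0 : ℝ) ≤ 1 / (T : ℝ))]
    have h : |∑ j ∈ Finset.range T, Real.cos (((j : ℝ) + 1) * y i0 / (M * T))| ≤ T := by
      refine (Finset.abs_sum_le_sum_abs _ _).trans ?_
      calc ∑ j ∈ Finset.range T, |Real.cos (((j : ℝ) + 1) * y i0 / (M * T))|
          ≤ ∑ _j ∈ Finset.range T, (1 : ℝ) :=
            Finset.sum_le_sum fun j _ => Real.abs_cos_le_one _
        _ = T := by simp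
    calc 1 / (T : ℝ) * |∑ j ∈ Finset.range T, Real.cos (((j : ℝ) + 1) * y i0 / (M * T))|
        ≤ 1 / (T : ℝ) * T := mul_le_mul_of_nonneg_left h (by positivity)
      _ = 1 := by field_simp
  · intro y y'
    rw [tg, tg, ← mul_sub, ← Finset.sum_sub_distrib, abs_mul,
      abs_of_nonneg (by positivity : (0 : ℝ) ≤ 1 / (T : ℝ))]
    have h : |∑ j ∈ Finset.range T, (Real.cos (((j : ℝ) + 1) * y i0 / (M * T)) -
        Real.cos (((j : ℝ) + 1) * y' i0 / (M * T)))| ≤ T * ‖y - y'‖ := by
      refine (Finset.abs_sum_le_sum_abs _ _).trans ?_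
      calc ∑ j ∈ Finset.range T, |Real.cos (((j : ℝ) + 1) * y i0 / (M * T)) -
            Real.cos (((j : ℝ) + 1) * y' i0 / (M * T))|
          ≤ ∑ _j ∈ Finset.range T, ‖y - y'‖ := by
            refine Finset.sum_le_sum fun j hj => (cos_lip _ _).trans ?_
            have hj' : ((j : ℝ) + 1) ≤ T := by exact_mod_cast Finset.mem_range.1 hj
            have e : ((j : ℝ) + 1) * y i0 / (M * T) - ((j : ℝ) + 1) * y' i0 / (M * T) =
                (((j : ℝ) + 1) / (M * T)) * (y i0 - y' i0) := by ring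
            rw [e, abs_mul, abs_of_nonneg (by positivity)]
            have h1 : ((j : ℝ) + 1) / (M * T) ≤ 1 := by
              rw [div_le_one (by positivity)]
              nlinarith
            have h2 := ab_le (y - y') i0
            have h3 : |y i0 - y' i0| ≤ ‖y - y'‖ := by simpa using h2
            calc ((j : ℝ) + 1) / (M * T) * |y i0 - y' i0| ≤ 1 * ‖y - y'‖ :=
                  mul_le_mul h1 h3 (abs_nonneg _) zero_le_one
              _ = _ := one_mul _
        _ = T * ‖y - y'‖ := by simp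
    calc 1 / (T : ℝ) * _ ≤ 1 / (T : ℝ) * (T * ‖y - y'‖) :=
          mul_le_mul_of_nonneg_left h (by positivity)
      _ = 1 * ‖y - y'‖ := by field_simp
  · intro y h1 h2
    have hp := Real.pi_pos
    have hy0 : 0 < |y i0| := lt_trans (by positivity) h1
    have hφ0 : y i0 / (M * T) ≠ 0 := by
      have : y i0 ≠ 0 := abs_pos.1 hy0
      positivity
    have hφ1 : |y i0 / (M * T)| ≤ Real.pi := by
      rw [abs_div, abs_of_pos (by positivity : (0 : ℝ) < M * T), div_le_iff₀ (by positivity)]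
      have hpi := Real.pi_gt_three
      calc |y i0| ≤ T := h2
        _ = 1 * (1 * T) := by ring
        _ ≤ Real.pi * (M * T) := by
          refine mul_le_mul (by linarith) ?_ (by positivity) hp.le
          exact mul_le_mul_of_nonneg_right hM' hT0.le
    have h3 := dir_le hφ0 hφ1 T
    rw [tg]
    have e : ∀ j : ℕ, Real.cos (((j : ℝ) + 1) * y i0 / (M * T)) =
        Real.cos (((j : ℝ) + 1) * (y i0 / (M * T))) := fun j => by
      rw [mul_div_assoc]
    simp only [e]
    calc 1 / (T : ℝ) * ∑ j ∈ Finset.range T, Real.cos (((j : ℝ) + 1) * (y i0 / (M * T)))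
        ≤ 1 / (T : ℝ) * (Real.pi / |y i0 / (M * T)|) :=
          mul_le_mul_of_nonneg_left h3 (by positivity)
      _ = Real.pi * M / |y i0| := by
          rw [abs_div, abs_of_pos (by positivity : (0 : ℝ) < M * T)]
          field_simp
      _ ≤ 1 / 2 := by
          rw [div_le_iff₀ hy0]
          linarith

end MP0d3db7NS
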