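import Pool.Agent.Lib.MP_0d3db7.NS.Spec

/-!
# MP_0d3db7_pr, theorem NS: the variance is bounded by sums of squared norms (helper97)
-/

set_option autoImplicit false

namespace MP0d3db7NS

open MeasureTheory ProbabilityTheory Filter Topology

namespace Vb_aux

theorem pv_le {E : Type} [Fintype E] {p : E → ℝ} (hp : PV p) (e : E) : |p e| ≤ 1 := by
  rw [abs_of_nonneg (hp.1 e), ← hp.2]
  exact Finset.single_le_sum (fun i _ => hp.1 i) (Finset.mem_univ e)

theorem pvq {ι E Ω : Type} [Fintype E] [MeasurableSpace Ω] {P : Measure Ω}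
    {ω : ι → Ω → E → ℝ} {q : E → ℝ} {lam : ℝ} (hC : Ck P ω q lam) (κ : ι) : PV q := by
  have := hC.prob
  have mω : ∀ e, Measurable fun o => ω κ o e := fun e => (measurable_pi_apply e).comp (hC.meas κ)
  have iω : ∀ e, Integrable (fun o => ω κ o e) P := fun e =>
    Integrable.of_bound (mω e).aestronglyMeasurable 1 (Eventually.of_forall fun o => by
      rw [Real.norm_eq_abs]; exact pv_le (hC.pv κ o) e)
  refine ⟨fun e => ?_, ?_⟩
  · rw [← hC.mean κ e]
    exact integral_nonneg fun o => (hC.pv κ o).1 e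
  · calc ∑ e, q e = ∑ e, ∫ o, ω κ o e ∂P := by simp only [hC.mean κ]
      _ = ∫ o, ∑ e, ω κ o e ∂P := (integral_finsetSum _ fun e _ => iω e).symm
      _ = ∫ o, (1 : ℝ) ∂P := by simp only [(hC.pv κ _).2]
      _ = 1 := by simp

section vecs

variable {V E : Type} [AddCommGroup V] [DecidableEq V] [Fintype E]

theorem norm_vec (s : E → V) (q : E → ℝ) (hq : ∀ e, 0 ≤ q e) (f : V → ℝ) (n k : ℕ)
    (Z : Fin k → V) (N : ℕ) (x : V) (r : V → ℕ) :
    ‖vec s q f n k Z N x r‖ ^ 2 = ∑ c : Fin k → Fin n × E, (∏ j, q (c j).2) *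
      phi s q f N k x r (fun j => ((Z j, ((c j).1 : ℕ) + 1), (c j).2)) ^ 2 := by
  rw [EuclideanSpace.norm_sq_eq]
  refine Finset.sum_congr rfl fun c _ => ?_
  rw [vec]
  simp only [Real.norm_eq_abs, sq_abs, mul_pow]
  congr 1
  rw [← Finset.prod_pow]
  exact Finset.prod_congr rfl fun j _ => Real.sq_sqrt (hq _)

omit [AddCommGroup V] in
theorem reind (q : E → ℝ) (n k : ℕ) (B : Finset V) (g : (Fin k → (V × ℕ) × E) → ℝ) :
    ∑ c ∈ Fintype.piFinset (fun _ : Fin k => (B ×ˢ Finset.Icc 1 n) ×ˢ (Finset.univ : Finset E)),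
      (∏ j, q (c j).2) * g c ^ 2 =
    ∑ Z ∈ Fintype.piFinset (fun _ : Fin k => B), ∑ c : Fin k → Fin n × E, (∏ j, q (c j).2) *
      g (fun j => ((Z j, ((c j).1 : ℕ) + 1), (c j).2)) ^ 2 := by
  classical
  rw [← Finset.sum_product']
  symm
  refine Finset.sum_nbij (fun p : (Fin k → V) × (Fin k → Fin n × E) =>
    fun j => ((p.1 j, ((p.2 j).1 : ℕ) + 1), (p.2 j).2)) ?_ ?_ ?_ ?_
  · rintro ⟨Z, c⟩ h
    rw [Finset.mem_product] at h
    have hZ := Fintype.mem_piFinset.1 h.1
    rw [Fintype.mem_piFinset]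
    intro j
    rw [Finset.mem_product, Finset.mem_product]
    refine ⟨⟨hZ j, ?_⟩, Finset.mem_univ _⟩
    rw [Finset.mem_Icc]
    exact ⟨Nat.le_add_left _ _, (c j).1.isLt⟩
  · rintro ⟨Z, c⟩ _ ⟨Z', c'⟩ _ h
    have h1 : ∀ j, Z j = Z' j := fun j => congrArg (fun x => x.1.1) (congrFun h j)
    have h2 : ∀ j, ((c j).1 : ℕ) + 1 = ((c' j).1 : ℕ) + 1 :=
      fun j => congrArg (fun x => x.1.2) (congrFun h j)
    have h3 : ∀ j, (c j).2 = (c' j).2 := fun j => congrArg (fun x => x.2) (congrFun h j)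
    refine Prod.ext (funext h1) (funext fun j => Prod.ext (Fin.ext ?_) (h3 j))
    exact Nat.succ_injective (h2 j)
  · intro c hc
    have hc' := Fintype.mem_piFinset.1 (Finset.mem_coe.1 hc)
    have h1 : ∀ j, (c j).1.1 ∈ B := fun j =>
      (Finset.mem_product.1 (Finset.mem_product.1 (hc' j)).1).1
    have h2 : ∀ j, 1 ≤ (c j).1.2 ∧ (c j).1.2 ≤ n := fun j =>
      Finset.mem_Icc.1 (Finset.mem_product.1 (Finset.mem_product.1 (hc' j)).1).2
    refine ⟨(fun j => (c j).1.1, fun j => (⟨(c j).1.2 - 1, by have := h2 j; omega⟩, (c j).2)),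
      ?_, ?_⟩
    · rw [Finset.mem_coe, Finset.mem_product]
      exact ⟨Fintype.mem_piFinset.2 h1, Finset.mem_univ _⟩
    · funext j
      have := h2 j
      refine Prod.ext (Prod.ext rfl ?_) rfl
      show (c j).1.2 - 1 + 1 = (c j).1.2
      omega
  · intro p _
    rfl

end vecs

end Vb_aux

open Vb_aux

theorem tVb (hPa : S_Pa) (hMa : S_Ma) (hDp : S_Dp) (hSw : S_Sw) (hCh : S_Ch) (hTu : S_Tu)
    (hDf : S_Df) : S_Vb := by
  intro V E Ω _ _ _ _ _ _ s P ω q lam hC f n hf
  have := hC.prob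
  have hq : PV q := pvq hC ((0 : V), 0)
  obtain ⟨B, hB⟩ := hDp s n
  refine ⟨B, fun K => ?_⟩
  obtain ⟨m1, _, m3, m4⟩ := hMa s
  set Φ : List E → ℝ := fun h => f (pos s h) with hΦ0
  have hΦ : ∀ h, |Φ h| ≤ 1 := fun h => hf _
  set F : (V × ℕ → E → ℝ) → ℝ := fun w => U s w f n 0 (fun _ => 0) with hF0
  have hFE : F = fun w => Ex s w Φ n [] := by
    funext w
    exact ((hPa s w).2.1 f n []).symm
  set l : List (V × ℕ) := (B ×ˢ Finset.Icc 1 n).toList with hl0
  have hl : l.Nodup := Finset.nodup_toList _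
  have hmem : ∀ z ∈ B, ∀ i ∈ Finset.Icc 1 n, (z, i) ∈ l := by
    intro z hz i hi
    rw [hl0, Finset.mem_toList, Finset.mem_product]
    exact ⟨hz, hi⟩
  have hcont : Continuous F := by rw [hFE]; exact m1 Φ n []
  have hbd : Bd F := by rw [hFE]; exact m4 Φ n [] hΦ
  have hma : MA l F := by rw [hFE]; exact m3 Φ n [] l
  obtain ⟨s1, s2⟩ := hSw P ω q lam hC l F hl hcont hbd hma
  -- the environment with finitely many cookies
  set W : Ω → V × ℕ → E → ℝ := fun o κ => if κ ∈ l then ω κ o else q with hW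
  have hFW : ∀ o, F (fun κ => ω κ o) = F (W o) := by
    intro o
    rw [hFE]
    refine hB Φ _ _ fun z hz i hi => ?_
    rw [hW]
    simp only
    rw [if_pos (hmem z hz i hi)]
  have mW : Measurable W := by
    refine measurable_pi_lambda _ fun κ => ?_
    by_cases h : κ ∈ l
    · simpa [W, h] using hC.meas κ
    · simp [W, h]
  have pW : ∀ o κ, PV (W o κ) := by
    intro o κ
    by_cases h : κ ∈ l
    · simpa [W, h] using hC.pv κ o
    · simpa [W, h] using hq
  have bF : ∀ o, |F (W o)| ≤ 1 := fun o => hbd _ (pW o)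
  have mF : Measurable fun o => F (W o) := hcont.measurable.comp mW
  have i1 : Integrable (fun o => F (W o)) P :=
    Integrable.of_bound mF.aestronglyMeasurable 1 (Eventually.of_forall fun o => by
      rw [Real.norm_eq_abs]; exact bF o)
  have i2 : Integrable (fun o => F (W o) ^ 2) P :=
    Integrable.of_bound (mF.pow_const 2).aestronglyMeasurable 1 (Eventually.of_forall fun o => by
      rw [Real.norm_eq_abs, abs_pow]; exact pow_le_one₀ (abs_nonneg _) (bF o))
  set m : ℝ := F (fun _ => q) with hm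
  have s1' : ∫ o, F (W o) ∂P = m := by
    refine Eq.trans (integral_congr_ae (Eventually.of_forall fun o => ?_)) s1
    refine congrArg F (funext fun κ => ?_)
    simp only [hW]
    split_ifs <;> rfl
  have s2' : ∫ o, F (W o) ^ 2 ∂P ≤ T lam q l F := by
    refine le_of_eq_of_le (integral_congr_ae (Eventually.of_forall fun o => ?_)) s2
    refine congrArg (fun w => F w ^ 2) (funext fun κ => ?_)
    simp only [hW]
    split_ifs <;> rfl
  have e1 : ∫ o, (U s (fun κ => ω κ o) f n 0 (fun _ => 0) -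
      U s (fun _ => q) f n 0 (fun _ => 0)) ^ 2 ∂P = ∫ o, F (W o) ^ 2 ∂P - m ^ 2 := by
    have e2 : ∀ o, (U s (fun κ => ω κ o) f n 0 (fun _ => 0) -
        U s (fun _ => q) f n 0 (fun _ => 0)) ^ 2 = F (W o) ^ 2 - (2 * m * F (W o) - m ^ 2) := by
      intro o
      rw [← hFW o]
      simp only [hm, hF0]
      ring
    simp only [e2]
    have i3 : Integrable (fun o => 2 * m * F (W o)) P := i1.const_mul (2 * m)
    have i4 : Integrable (fun _ : Ω => m ^ 2) P := integrable_const _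
    have i5 : Integrable (fun o => 2 * m * F (W o) - m ^ 2) P := i3.sub i4
    rw [integral_sub i2 i5, integral_sub i3 i4, integral_const_mul, s1']
    simp only [integral_const, probReal_univ, smul_eq_mul, one_mul]
    ring
  rw [e1]
  have hch := hCh q lam hq hC.lam0 hC.lam1.le l F hl hbd hma K
  have hk : ∀ k, Cs q l k F ≤ ∑ Z ∈ Fintype.piFinset (fun _ : Fin k => B),
      ‖vec s q f n k Z n 0 (fun _ => 0)‖ ^ 2 := by
    intro k
    have h1 := hTu q hq.1 l (B ×ˢ Finset.Icc 1 n) hl (fun κ hκ => by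
      rw [hl0, Finset.mem_toList] at hκ
      exact hκ) k F
    refine h1.trans ?_
    simp only [norm_vec s q hq.1]
    rw [← reind q n k B (fun c => phi s q f n k 0 (fun _ => 0) c)]
    refine Finset.sum_le_sum fun c _ => ?_
    split_ifs with hinj
    · rw [hDf s q f n k 0 (fun _ => 0) c hinj]
    · exact mul_nonneg (Finset.prod_nonneg fun j _ => hq.1 _) (sq_nonneg _)
  have hsum := Finset.sum_le_sum (s := Finset.Icc 1 K) fun k _ => hk k
  linarith

end MP0d3db7NS
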