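import Pool.Agent.Lib.MP_0d3db7.NS.Spec3

/-!
# MP_0d3db7_pr, theorem NS3: the numbers `vr`
-/

set_option autoImplicit false

namespace MP0d3db7NS

open MeasureTheory ProbabilityTheory Filter Topology

namespace Vf_aux

variable {V E : Type} [AddCommGroup V] [DecidableEq V] [Fintype E] (s : E → V) (q : E → ℝ)

theorem nonneg (hq : PV q) (κ : V × ℕ) : ∀ (t : ℕ) (x : V) (r : V → ℕ), 0 ≤ vr s q κ t x r
  | 0, x, r => by rw [vr]; split_ifs <;> norm_num
  | t + 1, x, r => by
    rw [vr]
    exact Finset.sum_nonneg fun e _ => mul_nonneg (hq.1 e) (nonneg hq κ t _ _)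

theorem le_up (r : V → ℕ) (x z : V) : r z ≤ up r x z := by
  unfold up
  by_cases h : z = x
  · rw [h, Function.update_self]; omega
  · rw [Function.update_of_ne h]

theorem zero (z : V) (i : ℕ) : ∀ (t : ℕ) (x : V) (r : V → ℕ), i ≤ r z → vr s q (z, i) t x r = 0
  | 0, x, r, h => by
    rw [vr, if_neg]
    intro h1
    obtain ⟨h2, h3⟩ := Prod.mk.inj h1
    rw [h2] at h3
    omega
  | t + 1, x, r, h => by
    rw [vr]
    refine Finset.sum_eq_zero fun e _ => ?_
    rw [zero z i t _ _ (h.trans (le_up r x z)), mul_zero]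

theorem eq_vs (z : V) : ∀ (t i : ℕ) (x : V) (r : V → ℕ),
    vr s q (z, r z + 1 + i) t x r = vs s q t x z i
  | 0, i, x, r => by
    rw [vr, vs]
    by_cases h : x = z ∧ i = 0
    · rw [if_pos h, if_pos (by rw [h.1, h.2])]
    · rw [if_neg h, if_neg]
      intro h1
      obtain ⟨h2, h3⟩ := Prod.mk.inj h1
      rw [h2] at h3
      exact h ⟨h2, by omega⟩
  | t + 1, i, x, r => by
    rw [vr, vs]
    by_cases h : x = z
    · rw [if_pos h]
      have hu : up r x z = r z + 1 := by rw [h, up, Function.update_self]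
      rcases i with _ | j
      · rw [if_pos rfl]
        refine Finset.sum_eq_zero fun e _ => ?_
        rw [zero s q z _ t _ _ (by omega), mul_zero]
      · rw [if_neg (Nat.succ_ne_zero j)]
        refine Finset.sum_congr rfl fun e _ => ?_
        have := eq_vs z t j (x + s e) (up r x)
        rw [hu] at this
        rw [Nat.add_sub_cancel, ← this]
        congr 3
        omega
    · rw [if_neg h]
      refine Finset.sum_congr rfl fun e _ => ?_
      have := eq_vs z t i (x + s e) (up r x)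
      have hu : up r x z = r z := by rw [up, Function.update_of_ne (Ne.symm h)]
      rw [hu] at this
      rw [this]

theorem supp : ∀ (M : ℕ) (x : V) (r : V → ℕ), ∃ C : Finset (V × ℕ), ∀ t < M, ∀ κ ∉ C,
    vr s q κ t x r = 0
  | 0, x, r => ⟨∅, fun t ht => absurd ht (Nat.not_lt_zero t)⟩
  | M + 1, x, r => by
    classical
    choose C hC using fun e : E => supp M (x + s e) (up r x)
    refine ⟨insert (x, r x + 1) (Finset.univ.biUnion C), fun t ht κ hκ => ?_⟩
    rw [Finset.mem_insert, not_or] at hκ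
    rcases t with _ | t
    · rw [vr, if_neg (Ne.symm hκ.1)]
    · rw [vr]
      refine Finset.sum_eq_zero fun e _ => ?_
      rw [hC e t (by omega) κ fun h => hκ.2 (Finset.mem_biUnion.2 ⟨e, Finset.mem_univ e, h⟩),
        mul_zero]

theorem sum_le (hq : PV q) (C : Finset (V × ℕ)) : ∀ (t : ℕ) (x : V) (r : V → ℕ),
    ∑ κ ∈ C, vr s q κ t x r ≤ 1
  | 0, x, r => by
    simp only [vr]
    rw [Finset.sum_ite_eq]
    split_ifs <;> norm_num
  | t + 1, x, r => by
    simp only [vr]
    rw [Finset.sum_comm]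
    have h : ∀ e ∈ (Finset.univ : Finset E),
        ∑ κ ∈ C, q e * vr s q κ t (x + s e) (up r x) ≤ q e := fun e _ => by
      rw [← Finset.mul_sum]
      exact mul_le_of_le_one_right (hq.1 e) (sum_le hq C t _ _)
    exact (Finset.sum_le_sum h).trans hq.2.le

theorem six (hq : PV q) (M : ℕ) (κ0 : ℝ) (hK : KB s q M κ0) (C : Finset (V × ℕ)) :
    ∑ κ ∈ C, (∑ t ∈ Finset.range M, vr s q κ t 0 (fun _ => 0)) ^ 2 ≤ κ0 := by
  classical
  set f : V × ℕ → ℝ := fun κ => (∑ t ∈ Finset.range M, vr s q κ t 0 (fun _ => 0)) ^ 2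
  have hf : ∀ κ, 0 ≤ f κ := fun κ => sq_nonneg _
  have hsub : C ⊆ C.image Prod.fst ×ˢ Finset.range ((C.image Prod.snd).sup id + 1) := by
    intro κ hκ
    rw [Finset.mem_product]
    refine ⟨Finset.mem_image_of_mem _ hκ, Finset.mem_range.2 (Nat.lt_succ_of_le ?_)⟩
    exact Finset.le_sup (f := id) (Finset.mem_image_of_mem Prod.snd hκ)
  refine (Finset.sum_le_sum_of_subset_of_nonneg hsub fun κ _ _ => hf κ).trans ?_
  rw [Finset.sum_product]
  refine le_trans (le_of_eq ?_) (hK (C.image Prod.fst) ((C.image Prod.snd).sup id))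
  refine Finset.sum_congr rfl fun z _ => ?_
  rw [Finset.sum_range_succ']
  have h0 : f (z, 0) = 0 := by
    simp only [f]
    rw [Finset.sum_eq_zero fun t _ => zero s q z 0 t 0 (fun _ => 0) le_rfl]
    norm_num
  rw [h0, add_zero]
  refine Finset.sum_congr rfl fun i _ => ?_
  simp only [f]
  congr 1
  refine Finset.sum_congr rfl fun t _ => ?_
  have := eq_vs s q z t i 0 (fun _ => 0)
  rw [← this]
  congr 2
  omega

end Vf_aux

theorem tVf : S_Vf := by
  intro V E _ _ _ s q hq
  exact ⟨fun κ t x r => Vf_aux.nonneg s q hq κ t x r, fun z i t x r => Vf_aux.eq_vs s q z t i x r,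
    fun z i t x r h => Vf_aux.zero s q z i t x r h, fun M x r => Vf_aux.supp s q M x r,
    fun C t x r => Vf_aux.sum_le s q hq C t x r, fun M κ0 hK C => Vf_aux.six s q hq M κ0 hK C⟩

end MP0d3db7NS
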