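import Pool.Agent.Lib.MP_0d3db7.NS.Spec

/-!
# MP_0d3db7_pr, theorem NS: noise sensitivity, assembly
-/

set_option autoImplicit false

namespace MP0d3db7NS

open MeasureTheory ProbabilityTheory Filter Topology

namespace Vn_aux

theorem sum_shift (F : ℕ → ℝ) (K : ℕ) :
    ∑ k ∈ Finset.Icc 1 K, F k = ∑ k ∈ Finset.range K, F (k + 1) := by
  induction K with
  | zero => simp
  | succ K ih => rw [Finset.sum_Icc_succ_top (by omega), ih, Finset.sum_range_succ]

theorem pv_q {ι E Ω : Type} [Fintype E] [MeasurableSpace Ω] {P : Measure Ω}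
    {ω : ι → Ω → E → ℝ} {q : E → ℝ} {lam : ℝ} (h : Ck P ω q lam) (κ : ι) : PV q := by
  have hP := h.prob
  have hm : ∀ e, Measurable fun o => ω κ o e := fun e => (measurable_pi_apply e).comp (h.meas κ)
  have hle : ∀ o e, ω κ o e ≤ 1 := by
    intro o e
    rw [← (h.pv κ o).2]
    exact Finset.single_le_sum (fun i _ => (h.pv κ o).1 i) (Finset.mem_univ e)
  have hint : ∀ e, Integrable (fun o => ω κ o e) P := by
    intro e
    refine Integrable.of_bound (hm e).aestronglyMeasurable 1 (Eventually.of_forall fun o => ?_)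
    rw [Real.norm_eq_abs, abs_of_nonneg ((h.pv κ o).1 e)]
    exact hle o e
  refine ⟨fun e => ?_, ?_⟩
  · rw [← h.mean κ e]
    exact integral_nonneg fun o => (h.pv κ o).1 e
  · have h1 : ∑ e, q e = ∑ e, ∫ o, ω κ o e ∂P := Finset.sum_congr rfl fun e _ => (h.mean κ e).symm
    rw [h1, ← integral_finsetSum _ fun e _ => hint e]
    have h2 : ∀ o, ∑ e, ω κ o e = 1 := fun o => (h.pv κ o).2
    simp [h2]

end Vn_aux

open Vn_aux

theorem tVn (hVb : S_Vb) (hWk : S_Wk) (hAs : S_As) : S_Vn := by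
  intro V E Ω _ _ _ _ _ _ s P ω q lam hCk hInp
  obtain ⟨C, hC, hI⟩ := hInp
  obtain ⟨c, C', hc, hA⟩ := hAs C lam hC hCk.lam0 hCk.lam1
  refine ⟨c, C', hc, ?_⟩
  intro f n Λ hn hΛ hf hL
  have hq : PV q := pv_q hCk (0, 0)
  obtain ⟨hG, hg1, hg2, hS⟩ := hI n hn
  obtain ⟨B, hB⟩ := hVb s P ω q lam hCk f n hf
  obtain ⟨K, hK⟩ := hA n hn Λ hΛ
  have hG0 : 0 ≤ C * (1 + Real.log n) := by
    have h1 : 0 ≤ Real.log (n : ℝ) := Real.log_nonneg (by exact_mod_cast hn)
    positivity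
  refine (hB K).trans (le_trans ?_ hK)
  rw [sum_shift]
  refine add_le_add (Finset.sum_le_sum fun k _ => ?_) le_rfl
  exact hWk s q f hq n (Λ / Real.sqrt n) (C * (1 + Real.log n)) (C * (1 + Real.log n) ^ 2)
    (C * (n : ℝ) ^ (3 / 4 : ℝ)) hG0 hG hL hg1 hg2 hS k B

end MP0d3db7NS
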