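import Pool.Agent.Lib.MP_0d3db7.NS.Spec

/-!
# MP_0d3db7_pr, theorem NS, module Vr: the recursion of the vectors
-/

set_option autoImplicit false

namespace MP0d3db7NS

open MeasureTheory ProbabilityTheory Filter Topology

namespace Vr_aux

section

variable {E : Type} [Fintype E]

/-- the convexity of the square -/
theorem jen (q : E → ℝ) (hq : PV q) (t : E → ℝ) : (∑ e, q e * t e) ^ 2 ≤ ∑ e, q e * t e ^ 2 := by
  have h2 : ∀ m : ℝ, ∑ e, q e * (t e - m) ^ 2 =
      ∑ e, q e * t e ^ 2 - 2 * m * ∑ e, q e * t e + m ^ 2 * ∑ e, q e := by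
    intro m
    rw [Finset.mul_sum, Finset.mul_sum, ← Finset.sum_sub_distrib, ← Finset.sum_add_distrib]
    exact Finset.sum_congr rfl fun e _ => by ring
  have h1 : 0 ≤ ∑ e, q e * (t e - ∑ a, q a * t a) ^ 2 :=
    Finset.sum_nonneg fun e _ => mul_nonneg (hq.1 e) (sq_nonneg _)
  rw [h2, hq.2] at h1
  linarith

/-- the summand number `l` -/
noncomputable def yv {n k : ℕ} (q : E → ℝ) (m : ℕ) (l : Fin (k + 1))
    (v : E → EuclideanSpace ℝ (Fin k → Fin n × E)) : EuclideanSpace ℝ (Fin (k + 1) → Fin n × E) :=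
  WithLp.toLp 2 fun c => if ((c l).1 : ℕ) = m then
    Real.sqrt (q (c l).2) * (v (c l).2 (rmv l c) - ∑ e, q e * v e (rmv l c)) else 0

theorem yv_norm {n k : ℕ} (q : E → ℝ) (hq : PV q) (m : ℕ) (l : Fin (k + 1))
    (v : E → EuclideanSpace ℝ (Fin k → Fin n × E)) :
    ‖yv q m l v‖ ≤ Real.sqrt (∑ a, ∑ e, q a * q e * ‖v a - v e‖ ^ 2) := by
  classical
  rw [EuclideanSpace.norm_eq]
  refine Real.sqrt_le_sqrt ?_
  have h1 : ∀ c : Fin (k + 1) → Fin n × E, ‖yv q m l v c‖ ^ 2 =
      (fun (ia : Fin n × E) (c' : Fin k → Fin n × E) => if (ia.1 : ℕ) = m then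
        q ia.2 * (v ia.2 c' - ∑ e, q e * v e c') ^ 2 else 0) (c l) (rmv l c) := by
    intro c
    simp only [yv]
    split_ifs with h
    · rw [Real.norm_eq_abs, sq_abs, mul_pow, Real.sq_sqrt (hq.1 _)]
    · simp
  rw [Finset.sum_congr rfl fun c _ => h1 c,
    ← (Fin.insertNthEquiv (fun _ => Fin n × E) l).sum_comp]
  have h2 : ∀ p : (Fin n × E) × (Fin k → Fin n × E),
      rmv l (Fin.insertNthEquiv (fun _ => Fin n × E) l p) = p.2 := by
    intro p
    funext j
    simp [rmv, Fin.insertNthEquiv]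
  have h3 : ∀ p : (Fin n × E) × (Fin k → Fin n × E),
      (Fin.insertNthEquiv (fun _ => Fin n × E) l p) l = p.1 := by
    intro p
    simp [Fin.insertNthEquiv]
  simp only [h2, h3]
  rw [Fintype.sum_prod_type, Fintype.sum_prod_type]
  simp only
  have h4 : ∀ i : Fin n, (∑ a : E, ∑ c' : Fin k → Fin n × E, if (i : ℕ) = m then
      q a * (v a c' - ∑ e, q e * v e c') ^ 2 else 0) =
      if (i : ℕ) = m then ∑ a, q a * ∑ c' : Fin k → Fin n × E, (v a c' - ∑ e, q e * v e c') ^ 2 else 0 := by
    intro i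
    split_ifs with h
    · exact Finset.sum_congr rfl fun a _ => by rw [Finset.mul_sum]
    · simp
  rw [Finset.sum_congr rfl fun i _ => h4 i]
  set G : ℝ := ∑ a, q a * ∑ c' : Fin k → Fin n × E, (v a c' - ∑ e, q e * v e c') ^ 2 with hG
  have hG0 : 0 ≤ G := Finset.sum_nonneg fun a _ =>
    mul_nonneg (hq.1 a) (Finset.sum_nonneg fun c _ => sq_nonneg _)
  have h5 : (∑ i : Fin n, if (i : ℕ) = m then G else 0) ≤ G := by
    by_cases hm : m < n
    · have : ∀ i : Fin n, (if (i : ℕ) = m then G else 0) = if i = ⟨m, hm⟩ then G else 0 := by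
        intro i
        have e1 : (i : ℕ) = m ↔ i = ⟨m, hm⟩ := by
          rw [Fin.ext_iff]
        simp only [e1]
      rw [Finset.sum_congr rfl fun i _ => this i, Finset.sum_ite_eq' Finset.univ]
      simp
    · have : ∀ i : Fin n, (if (i : ℕ) = m then G else 0) = 0 := by
        intro i
        rw [if_neg]
        have := i.2
        omega
      rw [Finset.sum_congr rfl fun i _ => this i]
      simpa using hG0
  refine h5.trans ?_
  rw [hG]
  refine Finset.sum_le_sum fun a _ => ?_
  have h6 : ∑ e, q a * q e * ‖v a - v e‖ ^ 2 = q a * ∑ e, q e * ‖v a - v e‖ ^ 2 := by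
    rw [Finset.mul_sum]
    exact Finset.sum_congr rfl fun e _ => by ring
  rw [h6]
  refine mul_le_mul_of_nonneg_left ?_ (hq.1 a)
  have h7 : ∑ e, q e * ‖v a - v e‖ ^ 2 =
      ∑ c' : Fin k → Fin n × E, ∑ e, q e * (v a c' - v e c') ^ 2 := by
    rw [Finset.sum_comm]
    refine Finset.sum_congr rfl fun e _ => ?_
    rw [EuclideanSpace.norm_sq_eq, Finset.mul_sum]
    refine Finset.sum_congr rfl fun c _ => ?_
    rw [Real.norm_eq_abs, sq_abs]
    rfl
  rw [h7]
  refine Finset.sum_le_sum fun c _ => ?_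
  have h8 : v a c - ∑ e, q e * v e c = ∑ e, q e * (v a c - v e c) := by
    have : ∑ e, q e * (v a c - v e c) = (∑ e, q e) * v a c - ∑ e, q e * v e c := by
      rw [Finset.sum_mul, ← Finset.sum_sub_distrib]
      exact Finset.sum_congr rfl fun e _ => by ring
    rw [this, hq.2, one_mul]
  rw [h8]
  exact jen q hq _

end

end Vr_aux

open Vr_aux

theorem tVr : S_Vr := by
  intro V E _ _ _ s q f hq n k Z N x r
  classical
  have h1 : vec s q f n (k + 1) Z (N + 1) x r -
      ∑ e, q e • vec s q f n (k + 1) Z N (x + s e) (up r x) =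
      ∑ l, if Z l = x then yv q (r x) l
        (fun e => vec s q f n k (rmv l Z) N (x + s e) (up r x)) else 0 := by
    ext c
    have e0 : (∑ e, q e • vec s q f n (k + 1) Z N (x + s e) (up r x)) c =
        ∑ e, q e * (vec s q f n (k + 1) Z N (x + s e) (up r x)) c := by
      simp
    have e1 : (∑ l, if Z l = x then yv q (r x) l
        (fun e => vec s q f n k (rmv l Z) N (x + s e) (up r x)) else 0) c =
        ∑ l, if Z l = x then (yv q (r x) l
        (fun e => vec s q f n k (rmv l Z) N (x + s e) (up r x))) c else 0 := by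
      simp only [WithLp.ofLp_sum, Finset.sum_apply]
      refine Finset.sum_congr rfl fun l _ => ?_
      split_ifs <;> rfl
    rw [PiLp.sub_apply, e0, e1]
    simp only [vec, phi]
    rw [mul_add, Finset.mul_sum, Finset.mul_sum]
    have e2 : ∀ e, q e * ((∏ j, Real.sqrt (q (c j).2)) *
        phi s q f N (k + 1) (x + s e) (up r x) fun j => ((Z j, ((c j).1 : ℕ) + 1), (c j).2)) =
        (∏ j, Real.sqrt (q (c j).2)) * (q e *
        phi s q f N (k + 1) (x + s e) (up r x) fun j => ((Z j, ((c j).1 : ℕ) + 1), (c j).2)) := by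
      intro e
      ring
    rw [Finset.sum_congr rfl fun e _ => e2 e, add_sub_cancel_left]
    refine Finset.sum_congr rfl fun l _ => ?_
    by_cases hZ : Z l = x
    · rw [if_pos hZ]
      simp only [yv]
      by_cases hr : ((c l).1 : ℕ) = r x
      · rw [if_pos hr, if_pos (by rw [hZ, hr]), Fin.prod_univ_succAbove _ l, mul_sub, Finset.mul_sum,
          mul_sub, Finset.mul_sum]
        have e3 : (rmv l fun j => ((Z j, ((c j).1 : ℕ) + 1), (c j).2)) =
            fun j => ((Z (l.succAbove j), ((c (l.succAbove j)).1 : ℕ) + 1), (c (l.succAbove j)).2) := rfl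
        rw [e3]
        refine congrArg₂ (· - ·) ?_ (Finset.sum_congr rfl fun e _ => ?_)
        · simp only [rmv]
          ring
        · simp only [rmv]
          ring
      · rw [if_neg hr, if_neg, mul_zero]
        intro h
        apply hr
        have := congrArg Prod.snd h
        simpa using this
    · rw [if_neg hZ, if_neg, mul_zero]
      intro h
      exact hZ (congrArg Prod.fst h)
  rw [h1]
  refine (norm_sum_le _ _).trans (Finset.sum_le_sum fun l _ => ?_)
  split_ifs with h
  · exact yv_norm q hq (r x) l _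
  · simp

end MP0d3db7NS
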