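import Pool.Agent.Lib.MP_0d3db7.NS.Spec

set_option autoImplicit false

namespace MP0d3db7NS

open MeasureTheory ProbabilityTheory Filter Topology

namespace Wk_aux

/-- one slot `j` of the tuple is taken apart -/
theorem slot {V : Type} [DecidableEq V] (B : Finset V) (k : ℕ) (j : Fin (k + 1))
    (F : V → (Fin k → V) → ℝ) :
    ∑ Z ∈ Fintype.piFinset (fun _ : Fin (k + 1) => B), F (Z j) (rmv j Z) =
      ∑ z ∈ B, ∑ Z' ∈ Fintype.piFinset (fun _ : Fin k => B), F z Z' := by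
  rw [← Finset.sum_product']
  refine Finset.sum_bij' (fun Z _ => (Z j, rmv j Z))
    (fun (a : V × (Fin k → V)) _ => (Fin.insertNth j a.1 a.2 : Fin (k + 1) → V)) ?_ ?_ ?_ ?_ ?_
  · intro Z hZ
    rw [Fintype.mem_piFinset] at hZ
    rw [Finset.mem_product]
    refine ⟨hZ j, ?_⟩
    rw [Fintype.mem_piFinset]
    intro i
    exact hZ (j.succAbove i)
  · intro a ha
    rw [Finset.mem_product, Fintype.mem_piFinset] at ha
    rw [Fintype.mem_piFinset]
    intro i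
    refine Fin.succAboveCases j ?_ ?_ i
    · rw [Fin.insertNth_apply_same]
      exact ha.1
    · intro i'
      rw [Fin.insertNth_apply_succAbove]
      exact ha.2 i'
  · intro Z _
    exact Fin.insertNth_self_removeNth j Z
  · intro a _
    refine Prod.ext ?_ ?_
    · show (Fin.insertNth j a.1 a.2 : Fin (k + 1) → V) j = a.1
      rw [Fin.insertNth_apply_same]
    · funext i
      show (Fin.insertNth j a.1 a.2 : Fin (k + 1) → V) (j.succAbove i) = a.2 i
      rw [Fin.insertNth_apply_succAbove]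
  · intro Z _
    rfl

theorem AA_nonneg (L G g2 : ℝ) (hg : 0 ≤ g2) (k : ℕ) : 0 ≤ AA L G g2 k := by
  induction k with
  | zero => exact sq_nonneg L
  | succ k ih =>
    show 0 ≤ 4 * G ^ 2 * ((k : ℝ) + 1) ^ 4 * g2 * AA L G g2 k
    have h1 : (0 : ℝ) ≤ ((k : ℝ) + 1) ^ 4 := by positivity
    have h2 : (0 : ℝ) ≤ 4 * G ^ 2 := by positivity
    exact mul_nonneg (mul_nonneg (mul_nonneg h2 h1) hg) ih

end Wk_aux

theorem tWk (hHb : S_Hb) (hL2 : S_L2) : S_Wk := by
  intro V E _ _ _ s q f hq n L G g2 S hG hgr hf h1 h2 hS k B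
  have hg2 : 0 ≤ g2 := by
    have h := h1 ∅ 0
    rwa [Finset.sum_empty] at h
  have hA := Wk_aux.AA_nonneg L G g2 hg2 k
  have hb := (hHb s q f hq n L G hG hgr hf).2
  have hl := (hL2 s q hq n L G g2 h1 h2 k B).1
  have step1 : ∑ Z ∈ Fintype.piFinset (fun _ : Fin (k + 1) => B),
      ‖vec s q f n (k + 1) Z n 0 (fun _ => 0)‖ ^ 2 ≤
      ∑ Z ∈ Fintype.piFinset (fun _ : Fin (k + 1) => B), ((k : ℝ) + 1) *
        ∑ j, gr s q n 0 (Z j) ^ 2 * hh s q n L G k (rmv j Z) (Z j) :=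
    Finset.sum_le_sum fun Z _ => hb k Z 0 (fun _ => 0) n le_rfl
  have step2 : ∑ Z ∈ Fintype.piFinset (fun _ : Fin (k + 1) => B), ((k : ℝ) + 1) *
        ∑ j, gr s q n 0 (Z j) ^ 2 * hh s q n L G k (rmv j Z) (Z j) =
      ((k : ℝ) + 1) * ∑ _j : Fin (k + 1), ∑ z ∈ B, gr s q n 0 z ^ 2 *
        ∑ Z' ∈ Fintype.piFinset (fun _ : Fin k => B), hh s q n L G k Z' z := by
    rw [← Finset.mul_sum, Finset.sum_comm]
    congr 1
    refine Finset.sum_congr rfl fun j _ => ?_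
    rw [Wk_aux.slot B k j (fun z Z' => gr s q n 0 z ^ 2 * hh s q n L G k Z' z)]
    refine Finset.sum_congr rfl fun z _ => ?_
    rw [Finset.mul_sum]
  have step3 : ∑ z ∈ B, gr s q n 0 z ^ 2 *
        ∑ Z' ∈ Fintype.piFinset (fun _ : Fin k => B), hh s q n L G k Z' z ≤
      S * AA L G g2 k := by
    calc ∑ z ∈ B, gr s q n 0 z ^ 2 *
        ∑ Z' ∈ Fintype.piFinset (fun _ : Fin k => B), hh s q n L G k Z' z
        ≤ ∑ z ∈ B, gr s q n 0 z ^ 2 * AA L G g2 k :=
          Finset.sum_le_sum fun z _ => mul_le_mul_of_nonneg_left (hl z) (sq_nonneg _)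
      _ = (∑ z ∈ B, gr s q n 0 z ^ 2) * AA L G g2 k := by rw [Finset.sum_mul]
      _ ≤ S * AA L G g2 k := mul_le_mul_of_nonneg_right (hS B) hA
  have hk : (0 : ℝ) ≤ (k : ℝ) + 1 := by positivity
  calc ∑ Z ∈ Fintype.piFinset (fun _ : Fin (k + 1) => B),
      ‖vec s q f n (k + 1) Z n 0 (fun _ => 0)‖ ^ 2
      ≤ ((k : ℝ) + 1) * ∑ _j : Fin (k + 1), ∑ z ∈ B, gr s q n 0 z ^ 2 *
        ∑ Z' ∈ Fintype.piFinset (fun _ : Fin k => B), hh s q n L G k Z' z := by
        rw [← step2]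
        exact step1
    _ ≤ ((k : ℝ) + 1) * ∑ _j : Fin (k + 1), S * AA L G g2 k :=
        mul_le_mul_of_nonneg_left (Finset.sum_le_sum fun _ _ => step3) hk
    _ = ((k : ℝ) + 1) ^ 2 * S * AA L G g2 k := by
        rw [Finset.sum_const, Finset.card_univ, Fintype.card_fin, nsmul_eq_mul]
        push_cast
        ring

end MP0d3db7NS
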